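import Pool.Agent.Lib.MP_0c3001_gt.DV.Ext
import Pool.Agent.Lib.MP_0c3001_gt.DV.Defs

section

/-!
# L0: quotients by central cyclic subgroups (group theory)

* `exists_cyc`: `Q = G ⧸ Subgroup.zpowers z` (normal since `z` is central), `π = QuotientGroup.mk'`.
* `exists_factor`: `φ (π g) = π₁ g` is well defined: `π g = π g'` gives `g = z ^ n * g'`; use
  `MonoidHom.liftOfSurjective`-like API or choose preimages (`Function.surjInv`).
* `exists_mu`: `mu (g, j) = (crMap r) ^ j * crMap g`.  The element `ρ = crMap hπ r ⟨r, _⟩` satisfies `ρ ^ l = crMap z = 1`,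
  so there is a homomorphism `f : Multiplicative (ZMod l) →* Qr hπ l r` with `f (ofAdd 1) = ρ` (`ZMod.lift` for
  `Additive`, or `zmodCyclic..`; any construction), and `crMap` commutes with it (elements of `Cn r` commute with
  `r`): `MonoidHom.noncommCoprod`.  Kernel: `crMap (g * r ^ j) = 1` with `j : ℕ` a representative, so
  `g * r ^ j = z ^ n = r ^ (l n)`, `g = r ^ (l n - j)` and `(g, j) = (r⁻¹, 1) ^ (j - l n)`.  Order: `(r⁻¹, 1) ^ n = 1`
  gives `r ^ n = 1`, `z ^ n = (r ^ n) ^ l = 1`, `n = 0`.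
* `root_cyc`: `r` is central in `Cn r` and of infinite order.
-/

set_option autoImplicit false

namespace Pool.MP0c3001.DV

open CategoryTheory CategoryTheory.Abelian Limits

noncomputable section

variable {G Q : Type} [Group G] [Group Q] {z : G} {l : ℕ}

theorem exists_cyc (hz : ∀ g : G, z * g = g * z) (hord : ∀ n : ℤ, z ^ n = 1 → n = 0) :
    ∃ (Q : Type) (_ : Group Q) (π : G →* Q), CycExt π z := by
  have hN : (Subgroup.zpowers z).Normal := by
    constructor
    intro n hn g
    obtain ⟨m, rfl⟩ := Subgroup.mem_zpowers_iff.1 hn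
    have hc : Commute (z ^ m) g := Commute.zpow_left (hz g) m
    rw [← hc.eq, mul_inv_cancel_right]
    exact hn
  refine ⟨G ⧸ Subgroup.zpowers z, inferInstance, QuotientGroup.mk' _, ?_, ?_, ?_, hord, hz⟩
  · exact QuotientGroup.mk'_surjective _
  · rw [← MonoidHom.mem_ker, QuotientGroup.ker_mk']
    exact Subgroup.mem_zpowers z
  · intro g hg
    rw [← MonoidHom.mem_ker, QuotientGroup.ker_mk', Subgroup.mem_zpowers_iff] at hg
    obtain ⟨n, hn⟩ := hg
    exact ⟨n, hn.symm⟩

theorem exists_factor {π : G →* Q} (hπ : CycExt π z) {Q₁ : Type} [Group Q₁] (π₁ : G →* Q₁)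
    (h : π₁ z = 1) : ∃ φ : Q →* Q₁, ∀ g, φ (π g) = π₁ g := by
  have key : ∀ g g', π g = π g' → π₁ g = π₁ g' := by
    intro g g' hg
    obtain ⟨n, hn⟩ := hπ.ker (g * g'⁻¹) (by rw [map_mul, map_inv, hg, mul_inv_cancel])
    have h1 : g = z ^ n * g' := by rw [← hn, inv_mul_cancel_right]
    rw [h1, map_mul, map_zpow, h, one_zpow, one_mul]
  refine ⟨⟨⟨fun q => π₁ (Function.surjInv hπ.surj q), ?_⟩, ?_⟩, ?_⟩
  · rw [← map_one π₁]
    exact key _ _ (by rw [Function.surjInv_eq hπ.surj, map_one])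
  · intro a b
    change π₁ (Function.surjInv hπ.surj (a * b)) =
      π₁ (Function.surjInv hπ.surj a) * π₁ (Function.surjInv hπ.surj b)
    rw [← map_mul]
    exact key _ _ (by rw [Function.surjInv_eq hπ.surj, map_mul, Function.surjInv_eq hπ.surj,
      Function.surjInv_eq hπ.surj])
  · intro g
    exact key _ _ (Function.surjInv_eq hπ.surj _)

/-- a root as an element of its centralizer -/
def rc (r : Rt z l) : Cn r.1 := ⟨r.1, mem_Cn.2 rfl⟩

theorem rc_pow {π : G →* Q} (hπ : CycExt π z) (r : Rt z l) :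
    rc r ^ l = ⟨z, z_mem_Cn hπ r.1⟩ := by
  exact Subtype.ext r.2

private lemma l0_comm (r : Rt z l) (g : Cn r.1) : rc r * g = g * rc r :=
  Subtype.ext (mem_Cn.1 g.2).symm

private lemma l0_ord {π : G →* Q} (hπ : CycExt π z) (r : Rt z l) (n : ℤ) (h : rc r ^ n = 1) :
    n = 0 := by
  apply hπ.ord n
  have h1 : r.1 ^ n = 1 := congrArg Subtype.val h
  rw [← r.2, ← zpow_natCast, ← zpow_mul, mul_comm, zpow_mul, h1, one_zpow]

/-- the quotient of `C_G(r)` by `r` -/
theorem root_cyc {π : G →* Q} (hπ : CycExt π z) (hl : 0 < l) (r : Rt z l) :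
    ∃ (Q₁ : Type) (_ : Group Q₁) (π₁ : Cn r.1 →* Q₁), CycExt π₁ (rc r) := by
  exact exists_cyc (l0_comm r) (fun n hn => l0_ord hπ r n hn)

/-- the map `C_G(r) × ℤ/l → Q_r`, `(g, j) ↦ g r ^ j` -/
theorem exists_mu {π : G →* Q} (hπ : CycExt π z) (hl : 0 < l) (r : Rt z l) :
    ∃ mu : Cn r.1 × Multiplicative (ZMod l) →* Qr hπ l r,
      (∀ g, mu (g, 1) = crMap hπ r g) ∧
      (∀ j : ℕ, mu (1, Multiplicative.ofAdd (j : ZMod l)) = crMap hπ r (rc r) ^ j) ∧
      CycExt mu ((rc r)⁻¹, Multiplicative.ofAdd 1) := by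
  have : NeZero l := ⟨hl.ne'⟩
  obtain ⟨ρ, hρ⟩ : ∃ ρ, ρ = crMap hπ r (rc r) := ⟨_, rfl⟩
  have hρl : ρ ^ l = 1 := by
    rw [hρ, ← map_pow, rc_pow hπ r]
    exact Subtype.ext hπ.map_z
  let f : Multiplicative (ZMod l) →* Qr hπ l r :=
    { toFun := fun x => ρ ^ (Multiplicative.toAdd x).val
      map_one' := by rw [toAdd_one, ZMod.val_zero, pow_zero]
      map_mul' := fun x y => by
        rw [toAdd_mul, ZMod.val_add, ← pow_eq_pow_mod _ hρl, pow_add] }
  have hf : ∀ x, f x = ρ ^ (Multiplicative.toAdd x).val := fun _ => rfl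
  have hfn : ∀ j : ℕ, f (Multiplicative.ofAdd (j : ZMod l)) = ρ ^ j := by
    intro j
    rw [hf, toAdd_ofAdd, ZMod.val_natCast, ← pow_eq_pow_mod _ hρl]
  have hcm : ∀ (m : Cn r.1) (n : Multiplicative (ZMod l)), Commute (crMap hπ r m) (f n) := by
    intro m n
    have hc : Commute (crMap hπ r m) ρ := by
      rw [hρ]
      change crMap hπ r m * crMap hπ r (rc r) = crMap hπ r (rc r) * crMap hπ r m
      rw [← map_mul, ← map_mul, l0_comm r m]
    rw [hf]
    exact hc.pow_right _
  have hmu : ∀ x, MonoidHom.noncommCoprod (crMap hπ r) f hcm x = crMap hπ r x.1 * f x.2 :=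
    fun _ => rfl
  have h1 : ∀ g, MonoidHom.noncommCoprod (crMap hπ r) f hcm (g, 1) = crMap hπ r g := by
    intro g
    rw [hmu, map_one, mul_one]
  have h2 : ∀ j : ℕ, MonoidHom.noncommCoprod (crMap hπ r) f hcm
      (1, Multiplicative.ofAdd (j : ZMod l)) = ρ ^ j := by
    intro j
    rw [hmu, map_one, one_mul, hfn]
  have hf1 : f (Multiplicative.ofAdd 1) = ρ := by
    have := hfn 1
    rwa [Nat.cast_one, pow_one] at this
  refine ⟨MonoidHom.noncommCoprod (crMap hπ r) f hcm, h1, ?_, ?_, ?_, ?_, ?_, ?_⟩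
  · rw [← hρ]
    exact h2
  · intro q
    obtain ⟨g, hg⟩ := (crCyc hπ r).surj q
    exact ⟨(g, 1), (h1 g).trans hg⟩
  · rw [hmu]
    change crMap hπ r (rc r)⁻¹ * f (Multiplicative.ofAdd 1) = 1
    rw [map_inv, hf1, hρ, inv_mul_cancel]
  · rintro ⟨g, x⟩ hgx
    have h3 : crMap hπ r (g * rc r ^ (Multiplicative.toAdd x).val) = 1 := by
      rw [map_mul, map_pow, ← hρ]
      exact hgx
    obtain ⟨n, hn⟩ := (crCyc hπ r).ker _ h3
    rw [← rc_pow hπ r] at hn
    refine ⟨((Multiplicative.toAdd x).val : ℤ) - l * n, Prod.ext ?_ ?_⟩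
    · change g = (rc r)⁻¹ ^ (((Multiplicative.toAdd x).val : ℤ) - l * n)
      have h4 : g = (rc r ^ l) ^ n * (rc r ^ (Multiplicative.toAdd x).val)⁻¹ := by
        rw [← hn, mul_inv_cancel_right]
      rw [inv_zpow, ← zpow_neg, neg_sub, zpow_sub, zpow_mul, zpow_natCast, zpow_natCast]
      exact h4
    · change x = Multiplicative.ofAdd (1 : ZMod l) ^ (((Multiplicative.toAdd x).val : ℤ) - l * n)
      rw [← ofAdd_zsmul]
      apply Multiplicative.toAdd.injective
      rw [toAdd_ofAdd, zsmul_eq_mul, mul_one]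
      push_cast
      rw [ZMod.natCast_self, zero_mul, sub_zero, ZMod.natCast_zmod_val]
  · intro n hn
    have h3 : (rc r)⁻¹ ^ n = 1 := congrArg Prod.fst hn
    rw [inv_zpow, inv_eq_one] at h3
    exact l0_ord hπ r n h3
  · rintro ⟨g, x⟩
    refine Prod.ext ?_ (mul_comm _ _)
    change (rc r)⁻¹ * g = g * (rc r)⁻¹
    have hc : Commute (rc r) g := l0_comm r g
    exact hc.inv_left.eq

end

end Pool.MP0c3001.DV
end

section

/-!
# P0: Shapiro's lemma for a product

Copy the proofs of `cmp_succ_bijective` and `shapiro_bijective` (Adj.lean), with a product over `t : T`.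
Induction over `i` for all `X`.  `i = 0`: `h0` and `cmp F (𝟙 _) q 0 (mk₀ f) = mk₀ (F f ≫ q)`
(`cmp_zero_bijective`; `Ext.mk₀` is bijective).  `i + 1`: `0 → K → P → X → 0`, `P` free
(`frLift X id`, `kerSeq_shortExact`, `augSeq`-like); the restricted modules `res P` are projective (the instance is
used in `Kills.subgroup`, `Fin.lean`).
Injective: `x = extClass.comp y` (`Ext.contravariant_sequence_exact₃`); all `cmp .. x = 0`, so by `cmp_extClass`
`extClass_t.comp (cmp y) = 0`, so `cmp_t y` comes from `u_t ∈ Ext^i(res P, Y t)` for every `t`; by the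
surjectivity for `P` in degree `i` the family `u` comes from `u' ∈ Ext^i(P, M)`; replace `y` by
`y - (mk₀ ι).comp u'`: all its `cmp_t` vanish, so it is `0` by induction, and `x = extClass.comp y = 0`.
Surjective: given `(v_t)`, `v_t = extClass_t.comp w_t` (`Ext^{i+1}(res P, Y t) = 0`), the family `w` comes from
`y ∈ Ext^i(K, M)` by induction, and `x = extClass.comp y`.
-/

set_option autoImplicit false

namespace Pool.MP0c3001.DV

open CategoryTheory CategoryTheory.Abelian Limits

noncomputable section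

variable {k : Type} [CommRing k] {G : Type} [Group G]

theorem prod_shapiro {T : Type} (H : T → Subgroup G) (M : Rep.{0} k G)
    (Y : ∀ t, Rep.{0} k (H t))
    (q : ∀ t, (Rep.resFunctor.{0} (k := k) (H t).subtype).obj M ⟶ Y t)
    (h0 : ∀ X : Rep.{0} k G, Function.Bijective
      (fun (f : X ⟶ M) (t : T) => (Rep.resFunctor.{0} (k := k) (H t).subtype).map f ≫ q t))
    (X : Rep.{0} k G) (i : ℕ) :
    Function.Bijective (fun (x : Ext.{0} X M i) (t : T) =>
      cmp (Rep.resFunctor.{0} (k := k) (H t).subtype)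
        (𝟙 ((Rep.resFunctor.{0} (k := k) (H t).subtype).obj X)) (q t) i x) := by
  induction i generalizing X with
  | zero =>
    have key : ∀ (t : T) (f : X ⟶ M), cmp (Rep.resFunctor.{0} (k := k) (H t).subtype)
        (𝟙 ((Rep.resFunctor.{0} (k := k) (H t).subtype).obj X)) (q t) 0 (Ext.mk₀ f) =
        Ext.mk₀ ((Rep.resFunctor.{0} (k := k) (H t).subtype).map f ≫ q t) := by
      intro t f
      rw [cmp_apply, Ext.mapExactFunctor_mk₀, Ext.mk₀_comp_mk₀, Ext.mk₀_comp_mk₀]
      rw [Category.id_comp]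
    constructor
    · intro x y hxy
      obtain ⟨f, rfl⟩ := (Ext.mk₀_bijective X M).2 x
      obtain ⟨g, rfl⟩ := (Ext.mk₀_bijective X M).2 y
      have h1 : f = g := by
        apply (h0 X).1
        funext t
        have h2 := congrFun hxy t
        have h3 := ((key t f).symm.trans h2).trans (key t g)
        exact (Ext.mk₀_bijective _ _).1 h3
      rw [h1]
    · intro y
      have h1 : ∀ t, ∃ g, Ext.mk₀ g = y t := fun t => (Ext.mk₀_bijective _ _).2 (y t)
      choose g hg using h1
      obtain ⟨f, hf⟩ := (h0 X).2 g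
      refine ⟨Ext.mk₀ f, ?_⟩
      funext t
      have h2 := congrFun hf t
      rw [← hg t, ← h2]
      exact key t f
  | succ i ih =>
    let F : ∀ t, Rep.{0} k G ⥤ Rep.{0} k (H t) := fun t =>
      Rep.resFunctor.{0} (k := k) (H t).subtype
    let P : ProjectivePresentation X := Classical.arbitrary _
    let S := ShortComplex.mk _ _ (kernel.condition P.f)
    have hS : S.ShortExact := { exact := ShortComplex.exact_kernel P.f }
    have hP : Projective S.X₂ := P.projective
    have hP' : ∀ t, Projective (S.map (F t)).X₂ := fun t =>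
      have h : Projective ((Rep.resFunctor.{0} (k := k) (H t).subtype).obj P.p) :=
        Functor.PreservesProjectiveObjects.projective_obj P.projective
      h
    have hS' : ∀ t, (S.map (F t)).ShortExact := fun t => hS.map_of_exact (F t)
    have hcl : ∀ (t : T) (x : Ext.{0} S.X₁ M i),
        cmp (F t) (𝟙 ((F t).obj S.X₃)) (q t) (i + 1) (hS.extClass.comp x (by omega)) =
          (hS' t).extClass.comp (cmp (F t) (𝟙 ((F t).obj S.X₁)) (q t) i x) (by omega) := fun t x =>
      cmp_extClass (F t) hS (hS' t) (𝟙 ((F t).obj S.X₁)) (𝟙 ((F t).obj S.X₂))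
        (𝟙 ((F t).obj S.X₃)) ((Category.comp_id _).trans (Category.id_comp _).symm)
        ((Category.comp_id _).trans (Category.id_comp _).symm) (q t) (by omega) x
    have hpre : ∀ (t : T) (x : Ext.{0} S.X₂ M i),
        cmp (F t) (𝟙 ((F t).obj S.X₁)) (q t) i ((Ext.mk₀ S.f).comp x (zero_add i)) =
          (Ext.mk₀ (S.map (F t)).f).comp (cmp (F t) (𝟙 ((F t).obj S.X₂)) (q t) i x)
            (zero_add i) := fun t x =>
      cmp_precomp (F t) S.f (S.map (F t)).f (𝟙 ((F t).obj S.X₁)) (𝟙 ((F t).obj S.X₂))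
        ((Category.comp_id _).trans (Category.id_comp _).symm) (q t) i x
    constructor
    · have hinj : ∀ x : Ext.{0} X M (i + 1),
          (∀ t, cmp (F t) (𝟙 ((F t).obj X)) (q t) (i + 1) x = 0) → x = 0 := by
        intro x hx
        obtain ⟨x₁, rfl⟩ := Ext.contravariant_sequence_exact₃ hS M x
          (Ext.eq_zero_of_projective _) (show 1 + i = i + 1 by omega)
        have h1 : ∀ t, ∃ y₂ : Ext.{0} (S.map (F t)).X₂ (Y t) i,
            (Ext.mk₀ (S.map (F t)).f).comp y₂ (zero_add i) =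
              cmp (F t) (𝟙 ((F t).obj S.X₁)) (q t) i x₁ := by
          intro t
          have h2 := (hcl t x₁).symm.trans (hx t)
          exact Ext.contravariant_sequence_exact₁ (hS' t) (Y t) _ (by omega) h2
        choose y₂ hy₂ using h1
        obtain ⟨x₂, hx₂⟩ := (ih S.X₂).2 y₂
        have h3 : (Ext.mk₀ S.f).comp x₂ (zero_add i) = x₁ := by
          apply (ih S.X₁).1
          funext t
          have h4 := congrFun hx₂ t
          have h5 : cmp (F t) (𝟙 ((F t).obj S.X₂)) (q t) i x₂ = y₂ t := h4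
          have h6 := (hpre t x₂).trans (by rw [h5, hy₂ t])
          exact h6
        rw [← h3]
        exact hS.extClass_comp_assoc _
      intro x y hxy
      rw [← sub_eq_zero]
      apply hinj
      intro t
      have h2 : cmp (F t) (𝟙 ((F t).obj X)) (q t) (i + 1) x =
        cmp (F t) (𝟙 ((F t).obj X)) (q t) (i + 1) y := congrFun hxy t
      rw [map_sub, h2, sub_self]
    · intro y
      have h1 : ∀ t, ∃ y₁ : Ext.{0} (S.map (F t)).X₁ (Y t) i,
          (hS' t).extClass.comp y₁ (show 1 + i = i + 1 by omega) = y t := by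
        intro t
        exact Ext.contravariant_sequence_exact₃ (hS' t) (Y t) (y t)
          (Ext.eq_zero_of_projective _) (show 1 + i = i + 1 by omega)
      choose y₁ hy₁ using h1
      obtain ⟨x₁, hx₁⟩ := (ih S.X₁).2 y₁
      refine ⟨hS.extClass.comp x₁ (by omega), ?_⟩
      funext t
      have h4 : cmp (F t) (𝟙 ((F t).obj S.X₁)) (q t) i x₁ = y₁ t := congrFun hx₁ t
      have h5 := (hcl t x₁).trans (by rw [h4, hy₁ t])
      exact h5

end

end Pool.MP0c3001.DV
end

section

/-!
# P1: cohomology with coefficients in `Map(X,V)`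

Let `T ⊂ X` (or `x : T → X`) be representatives of the orbits.  `prod_shapiro` with `H t = stabilizer (x t)`,
`M = Mp X V`, `Y t = res V`, `q t = mpEv X V (x t)`.  Degree `0` (`h0`): a map `f : P ⟶ Mp X V` is determined by its
values `f(p)(x_t)` since `f(p)(g x_t) = g f(g⁻¹ p)(x_t)`; conversely given `H_t`-equivariant
`f_t : res P ⟶ res V` put `f(p)(g x_t) = g f_t(g⁻¹ p)` (well defined, choose for each `x ∈ X` some `g_x, t_x` with
`g_x x_{t_x} = x`).
* `evx_inj`: representatives `Quotient.out`.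
* `evx_surj`: choose the representatives such that `x` is one of them (for the orbit of `x` take `x`, for
  the others `Quotient.out`); take the family which is `β` at the orbit of `x` and `0` elsewhere.
* `evx_const`: `cmp_apply`, `Ext.mapExactFunctor_comp`, `mapExactFunctor_mk₀`, and `res(mpConst) ≫ mpEv = 𝟙`.
* `evx_comp`: `cmp_comp`.
-/

set_option autoImplicit false

namespace Pool.MP0c3001.DV

open CategoryTheory CategoryTheory.Abelian Limits

noncomputable section

variable {k : Type} [CommRing k] {G : Type} [Group G] (X : Type) [MulAction G X] (V : Rep.{0} k G)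

section Aux

variable {T : Type} (r : T → X)

private lemma ap_inj (hr : ∀ y : X, ∃ (t : T) (g : G), g • r t = y) (P : Rep.{0} k G)
    (f f' : P ⟶ Mp X V) (h : ∀ (t : T) (p : P.V), f.hom p (r t) = f'.hom p (r t)) : f = f' := by
  apply Rep.hom_ext
  apply Representation.IntertwiningMap.ext
  apply LinearMap.ext
  intro p
  have key : ∀ (u : P ⟶ Mp X V) (g : G) (x : X),
      u.hom p (g • x) = V.ρ g (u.hom (P.ρ g⁻¹ p) x) := by
    intro u g x
    have h1 := Rep.hom_comm_apply u g (P.ρ g⁻¹ p)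
    have h2 : P.ρ g (P.ρ g⁻¹ p) = p := by
      rw [← Module.End.mul_apply, ← map_mul, mul_inv_cancel, map_one, Module.End.one_apply]
    rw [h2] at h1
    have h3 := congrFun h1 (g • x)
    rw [mp_apply, inv_smul_smul] at h3
    exact h3
  funext y
  obtain ⟨t, g, rfl⟩ := hr y
  change f.hom p (g • r t) = f'.hom p (g • r t)
  rw [key, key, h]

private lemma ap_surj (hr : ∀ y : X, ∃ (t : T) (g : G), g • r t = y)
    (hr' : ∀ (s t : T) (g : G), g • r s = r t → s = t) (P : Rep.{0} k G)
    (F : ∀ t : T, (Rep.resFunctor.{0} (k := k) (MulAction.stabilizer G (r t)).subtype).obj P ⟶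
      (Rep.resFunctor.{0} (k := k) (MulAction.stabilizer G (r t)).subtype).obj V) :
    ∃ f : P ⟶ Mp X V, ∀ (t : T) (p : P.V), f.hom p (r t) = (F t).hom p := by
  choose τ γ hγ using hr
  have hF : ∀ (t : T) (h : G) (hh : h • r t = r t) (p : P.V),
      (F t).hom (P.ρ h p) = V.ρ h ((F t).hom p) := by
    intro t h hh p
    exact Rep.hom_comm_apply (F t) ⟨h, hh⟩ p
  have key : ∀ (y : X) (t : T) (g : G) (_ : g • r t = y) (p : P.V),
      V.ρ g ((F t).hom (P.ρ g⁻¹ p)) = V.ρ (γ y) ((F (τ y)).hom (P.ρ (γ y)⁻¹ p)) := by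
    intro y t g hg p
    have h1 : ((γ y)⁻¹ * g) • r t = r (τ y) := by
      rw [mul_smul, hg, inv_smul_eq_iff, hγ]
    have h2 : t = τ y := hr' _ _ _ h1
    subst h2
    have h3 := hF _ _ h1 (P.ρ g⁻¹ p)
    have h4 : P.ρ ((γ y)⁻¹ * g) (P.ρ g⁻¹ p) = P.ρ (γ y)⁻¹ p := by
      rw [← Module.End.mul_apply, ← map_mul, mul_assoc, mul_inv_cancel, mul_one]
    rw [h4] at h3
    rw [h3, ← Module.End.mul_apply, ← map_mul, mul_inv_cancel_left]
  let L : P.V →ₗ[k] (X → V.V) :=
    { toFun := fun p y => V.ρ (γ y) ((F (τ y)).hom (P.ρ (γ y)⁻¹ p))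
      map_add' := fun p p' => by
        funext y
        change V.ρ (γ y) ((F (τ y)).hom (P.ρ (γ y)⁻¹ (p + p'))) =
          V.ρ (γ y) ((F (τ y)).hom (P.ρ (γ y)⁻¹ p)) + V.ρ (γ y) ((F (τ y)).hom (P.ρ (γ y)⁻¹ p'))
        rw [map_add, ← map_add (V.ρ (γ y))]
        exact congrArg _ (map_add (F (τ y)).hom _ _)
      map_smul' := fun c p => by
        funext y
        change V.ρ (γ y) ((F (τ y)).hom (P.ρ (γ y)⁻¹ (c • p))) =
          c • V.ρ (γ y) ((F (τ y)).hom (P.ρ (γ y)⁻¹ p))
        rw [map_smul, ← map_smul (V.ρ (γ y))]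
        exact congrArg _ (map_smul (F (τ y)).hom _ _) }
  have hL : ∀ (y : X) (t : T) (g : G) (_ : g • r t = y) (p : P.V),
      L p y = V.ρ g ((F t).hom (P.ρ g⁻¹ p)) := fun y t g hg p => (key y t g hg p).symm
  refine ⟨Rep.ofHom { toLinearMap := L, isIntertwining' := ?_ }, ?_⟩
  · intro h
    apply LinearMap.ext
    intro p
    funext y
    change L (P.ρ h p) y = V.ρ h (L p (h⁻¹ • y))
    have h1 : (h * γ (h⁻¹ • y)) • r (τ (h⁻¹ • y)) = y := by
      rw [mul_smul, hγ, smul_inv_smul]
    rw [hL y _ _ h1, hL (h⁻¹ • y) _ _ (hγ _)]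
    have h4 : P.ρ (h * γ (h⁻¹ • y))⁻¹ (P.ρ h p) = P.ρ (γ (h⁻¹ • y))⁻¹ p := by
      rw [← Module.End.mul_apply, ← map_mul, mul_inv_rev, inv_mul_cancel_right]
    rw [h4, map_mul, Module.End.mul_apply]
  · intro t p
    change L p (r t) = (F t).hom p
    rw [hL (r t) t 1 (one_smul _ _), inv_one, map_one, map_one]
    rfl

private lemma ap_bij (hr : ∀ y : X, ∃ (t : T) (g : G), g • r t = y)
    (hr' : ∀ (s t : T) (g : G), g • r s = r t → s = t) (P : Rep.{0} k G) :
    Function.Bijective (fun (f : P ⟶ Mp X V) (t : T) =>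
      (Rep.resFunctor.{0} (k := k) (MulAction.stabilizer G (r t)).subtype).map f ≫
        mpEv X V (r t)) := by
  constructor
  · intro f f' h
    apply ap_inj X V r hr
    intro t p
    have h1 := congrFun h t
    have h2 : ((Rep.resFunctor.{0} (k := k) (MulAction.stabilizer G (r t)).subtype).map f ≫
        mpEv X V (r t)).hom p =
      ((Rep.resFunctor.{0} (k := k) (MulAction.stabilizer G (r t)).subtype).map f' ≫
        mpEv X V (r t)).hom p := congrArg (fun u => u.hom p) h1
    exact h2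
  · intro F
    obtain ⟨f, hf⟩ := ap_surj X V r hr hr' P F
    refine ⟨f, ?_⟩
    funext t
    apply Rep.hom_ext
    apply Representation.IntertwiningMap.ext
    apply LinearMap.ext
    intro p
    exact hf t p

private lemma ap_main (hr : ∀ y : X, ∃ (t : T) (g : G), g • r t = y)
    (hr' : ∀ (s t : T) (g : G), g • r s = r t → s = t) (i : ℕ) :
    Function.Bijective (fun (α : HH k G (Mp X V) i) (t : T) => evx X V (r t) i α) :=
  prod_shapiro (fun t => MulAction.stabilizer G (r t)) (Mp X V)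
    (fun t => (Rep.resFunctor.{0} (k := k) (MulAction.stabilizer G (r t)).subtype).obj V)
    (fun t => mpEv X V (r t)) (fun P => ap_bij X V r hr hr' P) (Zt k G) i

end Aux

theorem evx_inj {i : ℕ} (α : HH k G (Mp X V) i) (h : ∀ x : X, evx X V x i α = 0) : α = 0 := by
  have hb := ap_main (k := k) X V (T := MulAction.orbitRel.Quotient G X)
    (fun t => Quotient.out t) (fun y => ?_) (fun s t g hg => ?_) i
  · apply hb.1
    funext t
    change evx X V _ i α = evx X V _ i 0
    rw [h, map_zero]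
  · have h1 : MulAction.orbitRel G X (Quotient.out (Quotient.mk (MulAction.orbitRel G X) y)) y :=
      Quotient.exact (Quotient.out_eq _)
    obtain ⟨g, hg⟩ := (MulAction.orbitRel G X).symm h1
    exact ⟨Quotient.mk (MulAction.orbitRel G X) y, g, hg⟩
  · rw [← Quotient.out_eq s, ← Quotient.out_eq t]
    apply Quotient.sound
    exact (MulAction.orbitRel G X).symm ⟨g, hg⟩

theorem evx_surj (x : X) {i : ℕ} (β : HH k (MulAction.stabilizer G x)
    ((Rep.resFunctor.{0} (k := k) (MulAction.stabilizer G x).subtype).obj V) i) :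
    ∃ α, evx X V x i α = β := by
  classical
  let q0 : MulAction.orbitRel.Quotient G X := Quotient.mk (MulAction.orbitRel G X) x
  let r : MulAction.orbitRel.Quotient G X → X := fun t => if t = q0 then x else Quotient.out t
  have hmk : ∀ t, Quotient.mk (MulAction.orbitRel G X) (r t) = t := by
    intro t
    by_cases ht : t = q0
    · have : r t = x := if_pos ht
      rw [this, ht]
    · have : r t = Quotient.out t := if_neg ht
      rw [this]
      exact Quotient.out_eq t
  have hr0 : r q0 = x := if_pos rfl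
  have hb := ap_main (k := k) X V r (fun y => ?_) (fun s t g hg => ?_) i
  · have key : ∀ (x' : X) (_ : r q0 = x') (β' : HH k (MulAction.stabilizer G x')
        ((Rep.resFunctor.{0} (k := k) (MulAction.stabilizer G x').subtype).obj V) i),
        ∃ α, evx X V x' i α = β' := by
      rintro _ rfl β'
      obtain ⟨α, hα⟩ := hb.2 (fun t => if h : t = q0 then h ▸ β' else 0)
      refine ⟨α, ?_⟩
      have h1 := congrFun hα q0
      have h2 : evx X V (r q0) i α = if h : q0 = q0 then h ▸ β' else 0 := h1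
      rw [h2, dif_pos rfl]
    exact key x hr0 β
  · have h1 : MulAction.orbitRel G X (r (Quotient.mk (MulAction.orbitRel G X) y)) y :=
      Quotient.exact (hmk _)
    obtain ⟨g, hg⟩ := (MulAction.orbitRel G X).symm h1
    exact ⟨Quotient.mk (MulAction.orbitRel G X) y, g, hg⟩
  · rw [← hmk s, ← hmk t]
    apply Quotient.sound
    exact (MulAction.orbitRel G X).symm ⟨g, hg⟩

theorem evx_const (x : X) {i : ℕ} (α : HH k G V i) :
    evx X V x i (α.comp (Ext.mk₀ (mpConst X V)) (add_zero i)) =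
      rs (MulAction.stabilizer G x).subtype α := by
  change cmp (Rep.resFunctor.{0} (k := k) (MulAction.stabilizer G x).subtype)
    (𝟙 ((Rep.resFunctor.{0} (k := k) (MulAction.stabilizer G x).subtype).obj (Zt k G)))
    (mpEv X V x) i (α.comp (Ext.mk₀ (mpConst X V)) (add_zero i)) = _
  rw [cmp_apply, Ext.mapExactFunctor_comp, Ext.mapExactFunctor_mk₀, Ext.mk₀_id_comp]
  rw [Ext.comp_assoc (a₂₃ := 0) _ _ _ _ (by omega) (by omega), Ext.mk₀_comp_mk₀]
  have h1 : (Rep.resFunctor.{0} (k := k) (MulAction.stabilizer G x).subtype).map (mpConst X V) ≫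
      mpEv X V x = 𝟙 _ := by
    apply Rep.hom_ext
    apply Representation.IntertwiningMap.ext
    apply LinearMap.ext
    intro v
    rfl
  rw [h1, Ext.comp_mk₀_id]

theorem evx_comp (x : X) {i j n : ℕ} (e : HH k G (Zt k G) i) (α : HH k G (Mp X V) j)
    (h : i + j = n) : evx X V x n (e.comp α h) =
      Ext.comp (rs (MulAction.stabilizer G x).subtype e) (evx X V x j α) h :=
  cmp_comp (Rep.resFunctor.{0} (k := k) (MulAction.stabilizer G x).subtype) h (mpEv X V x) e α

end

end Pool.MP0c3001.DV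
end

section

/-!
# S08: a criterion for coinduced modules

If `λ : M → W` is linear and `f ↦ (γ ↦ λ(γ f))` is a bijection of `M` onto all functions `E → W`, then `M` is
coinduced from the trivial group, so `H^i(E;M) = 0` for `i ≥ 1`.

Proof.  `Rep.coind (⊥ : Subgroup E).subtype (Rep.trivial k _ W)` consists of the functions `h : E → W` with
`h(κ γ) = h(γ)` for `κ ∈ ⊥` (no condition), the action is `(γ' h)(γ) = h(γ γ')`; the map
`f ↦ (γ ↦ λ(M.ρ γ f))` is equivariant: `λ(M.ρ γ (M.ρ γ' f)) = λ(M.ρ (γ γ') f)`.  So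
`M ≅ coind` (`Rep.mkIso (Representation.Equiv.mk (LinearEquiv.ofBijective ..) ..)` as in `Base.lean`,
or `isIso`), and `coind_zero` of `Fin.lean` gives the claim: transport `x` along the isomorphism:
`x.comp (mk₀ iso.hom) = 0`, so `x = x.comp (mk₀ iso.hom) .comp (mk₀ iso.inv) = 0`.
-/

set_option autoImplicit false

namespace Pool.MP0c3001.DV

open CategoryTheory CategoryTheory.Abelian Limits

noncomputable section

variable {k : Type} [CommRing k] {E : Type} [Group E]

theorem acyclic_of_bij (M : Rep.{0} k E) (W : Type) [AddCommGroup W] [Module k W]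
    (lam : M.V →ₗ[k] W)
    (hb : Function.Bijective (fun (f : M.V) (γ : E) => lam (M.ρ γ f)))
    (i : ℕ) (hi : 1 ≤ i) (x : HH k E M i) : x = 0 := by
  let W' : Rep.{0} k (⊥ : Subgroup E) := Rep.trivial k (⊥ : Subgroup E) W
  have hmem : ∀ h : E → W, h ∈ Representation.coindV (⊥ : Subgroup E).subtype W'.ρ := by
    intro h
    rw [Representation.mem_coindV]
    intro g γ
    obtain rfl : g = 1 := Subsingleton.elim _ _
    rw [map_one, one_mul, map_one]
    rfl
  let L : M.V →ₗ[k] Representation.coindV (⊥ : Subgroup E).subtype W'.ρ :=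
    { toFun := fun f => ⟨fun γ => lam (M.ρ γ f), hmem _⟩
      map_add' := fun f f' => by
        apply Subtype.ext
        funext γ
        change lam (M.ρ γ (f + f')) = lam (M.ρ γ f) + lam (M.ρ γ f')
        rw [map_add, map_add]
      map_smul' := fun c f => by
        apply Subtype.ext
        funext γ
        change lam (M.ρ γ (c • f)) = c • lam (M.ρ γ f)
        rw [map_smul, map_smul] }
  have hL : Function.Bijective L := by
    constructor
    · intro f f' h
      exact hb.1 (congrArg Subtype.val h)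
    · rintro ⟨h, hh⟩
      obtain ⟨f, hf⟩ := hb.2 h
      exact ⟨f, Subtype.ext hf⟩
  let iso : M ≅ Rep.coind (⊥ : Subgroup E).subtype W' :=
    Rep.mkIso (Representation.Equiv.mk (LinearEquiv.ofBijective L hL) (by
      intro γ'
      apply LinearMap.ext
      intro f
      apply Subtype.ext
      funext γ
      change lam (M.ρ γ (M.ρ γ' f)) = lam (M.ρ (γ * γ') f)
      rw [map_mul]
      rfl))
  have h0 : x.comp (Ext.mk₀ iso.hom) (add_zero i) = 0 := coind_zero W' i hi _
  have h1 : (x.comp (Ext.mk₀ iso.hom) (add_zero i)).comp (Ext.mk₀ iso.inv) (add_zero i) = x := by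
    rw [Ext.comp_assoc_of_third_deg_zero, Ext.mk₀_comp_mk₀, iso.hom_inv_id, Ext.comp_mk₀_id]
  rw [← h1, h0, Ext.zero_comp]

end

end Pool.MP0c3001.DV
end

section

/-!
# S08b: modules of functions on free `E`-sets are acyclic

`S₁, S₂` are free `E`-sets, `M` is identified with `Map(S₁,W₁) × Map(S₂,W₂)` by evaluations `v₁, v₂`, and the
value of `γ f` at `s` is a bijective function of the value of `f` at `γ⁻¹ s`.  Then `H^i(E;M) = 0`,
`i ≥ 1`.

Proof.  `O_j = Quotient (MulAction.orbitRel E S_j)`, `W = (O₁ → W₁) × (O₂ → W₂)`,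
`lam f = (o ↦ v₁ o.out f, o ↦ v₂ o.out f)`; `acyclic_of_bij`.  The map `E × O_j → S_j`,
`(γ, o) ↦ γ⁻¹ • o.out` is bijective (freeness gives injectivity), and `v_j o.out (γ f) = θ (v_j (γ⁻¹ • o.out) f)`
with `θ` bijective; so the map of `acyclic_of_bij` is the composite of the bijection `hv`, the
reindexing and the bijections `θ`.
-/

set_option autoImplicit false

namespace Pool.MP0c3001.DV

open CategoryTheory CategoryTheory.Abelian Limits

noncomputable section

variable {k : Type} [CommRing k] {E : Type} [Group E]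

private theorem S08b_idx (S : Type) [MulAction E S] (hf : ∀ (γ : E) (s : S), γ • s = s → γ = 1) :
    Function.Bijective (fun p : E × Quotient (MulAction.orbitRel E S) => p.1⁻¹ • p.2.out) := by
  constructor
  · rintro ⟨γ, o⟩ ⟨γ', o'⟩ h
    simp only at h
    have h1 : o'.out = (γ' * γ⁻¹) • o.out := by
      rw [mul_smul, h, smul_inv_smul]
    have h2 : o' = o := by
      rw [← Quotient.out_eq o, ← Quotient.out_eq o']
      apply Quotient.sound
      change (MulAction.orbitRel E S) o'.out o.out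
      rw [MulAction.orbitRel_apply]
      exact ⟨γ' * γ⁻¹, h1.symm⟩
    subst h2
    have h3 := hf _ _ h1.symm
    have h4 : γ' = γ := by
      rwa [mul_inv_eq_one] at h3
    rw [h4]
  · intro s
    have h1 : (MulAction.orbitRel E S) (Quotient.mk (MulAction.orbitRel E S) s).out s :=
      Quotient.mk_out s
    rw [MulAction.orbitRel_apply] at h1
    obtain ⟨γ, hγ⟩ := h1
    refine ⟨(γ, Quotient.mk (MulAction.orbitRel E S) s), ?_⟩
    have hγ' : γ • s = (Quotient.mk (MulAction.orbitRel E S) s).out := hγ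
    simp only
    rw [← hγ', inv_smul_smul]

private theorem S08b_aux (S W : Type) [MulAction E S] (hf : ∀ (γ : E) (s : S), γ • s = s → γ = 1)
    (θ : E → S → W → W) (hθ : ∀ γ s, Function.Bijective (θ γ s)) :
    Function.Bijective (fun (g : S → W) (p : E × Quotient (MulAction.orbitRel E S)) =>
      θ p.1 p.2.out (g (p.1⁻¹ • p.2.out))) := by
  obtain ⟨hi, hs⟩ := S08b_idx S hf
  constructor
  · intro g g' h
    funext s
    obtain ⟨p, hp⟩ := hs s
    simp only at hp
    have h1 := congrFun h p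
    simp only at h1
    rw [hp] at h1
    exact (hθ _ _).1 h1
  · intro F
    refine ⟨fun s => (hθ (Function.surjInv hs s).1 (Function.surjInv hs s).2.out).2
      (F (Function.surjInv hs s)) |>.choose, ?_⟩
    funext p
    have h1 : Function.surjInv hs (p.1⁻¹ • p.2.out) = p := hi (Function.surjInv_eq hs _)
    have h2 := ((hθ (Function.surjInv hs (p.1⁻¹ • p.2.out)).1
      (Function.surjInv hs (p.1⁻¹ • p.2.out)).2.out).2
      (F (Function.surjInv hs (p.1⁻¹ • p.2.out)))).choose_spec
    simp only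
    generalize ((hθ (Function.surjInv hs (p.1⁻¹ • p.2.out)).1
      (Function.surjInv hs (p.1⁻¹ • p.2.out)).2.out).2
      (F (Function.surjInv hs (p.1⁻¹ • p.2.out)))).choose = w at h2 ⊢
    rw [h1] at h2
    exact h2

theorem acyclic_of_free (M : Rep.{0} k E) (S₁ S₂ : Type) [MulAction E S₁] [MulAction E S₂]
    (hf₁ : ∀ (γ : E) (s : S₁), γ • s = s → γ = 1) (hf₂ : ∀ (γ : E) (s : S₂), γ • s = s → γ = 1)
    (W₁ W₂ : Type) [AddCommGroup W₁] [Module k W₁] [AddCommGroup W₂] [Module k W₂]
    (v₁ : S₁ → M.V →ₗ[k] W₁) (v₂ : S₂ → M.V →ₗ[k] W₂)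
    (hv : Function.Bijective (fun f : M.V => ((fun s => v₁ s f, fun s => v₂ s f) :
      (S₁ → W₁) × (S₂ → W₂))))
    (hθ₁ : ∀ (γ : E) (s : S₁), ∃ θ : W₁ → W₁, Function.Bijective θ ∧
      ∀ f, v₁ s (M.ρ γ f) = θ (v₁ (γ⁻¹ • s) f))
    (hθ₂ : ∀ (γ : E) (s : S₂), ∃ θ : W₂ → W₂, Function.Bijective θ ∧
      ∀ f, v₂ s (M.ρ γ f) = θ (v₂ (γ⁻¹ • s) f))
    (i : ℕ) (hi : 1 ≤ i) (x : HH k E M i) : x = 0 := by
  classical
  choose θ₁ hb₁ he₁ using hθ₁
  choose θ₂ hb₂ he₂ using hθ₂
  obtain ⟨hi₁, hs₁⟩ := S08b_aux S₁ W₁ hf₁ θ₁ hb₁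
  obtain ⟨hi₂, hs₂⟩ := S08b_aux S₂ W₂ hf₂ θ₂ hb₂
  refine acyclic_of_bij M ((Quotient (MulAction.orbitRel E S₁) → W₁) ×
    (Quotient (MulAction.orbitRel E S₂) → W₂))
    (LinearMap.prod (LinearMap.pi fun o => v₁ o.out) (LinearMap.pi fun o => v₂ o.out)) ?_ i hi x
  constructor
  · intro f f' h
    apply hv.1
    have h1 : ∀ (γ : E) (o : Quotient (MulAction.orbitRel E S₁)),
        θ₁ γ o.out (v₁ (γ⁻¹ • o.out) f) = θ₁ γ o.out (v₁ (γ⁻¹ • o.out) f') := by
      intro γ o
      have h2 := congrFun (congrArg Prod.fst (congrFun h γ)) o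
      rw [← he₁, ← he₁]
      exact h2
    have h2 : ∀ (γ : E) (o : Quotient (MulAction.orbitRel E S₂)),
        θ₂ γ o.out (v₂ (γ⁻¹ • o.out) f) = θ₂ γ o.out (v₂ (γ⁻¹ • o.out) f') := by
      intro γ o
      have h2 := congrFun (congrArg Prod.snd (congrFun h γ)) o
      rw [← he₂, ← he₂]
      exact h2
    have h3 : (fun s => v₁ s f) = (fun s => v₁ s f') :=
      hi₁ (funext fun p => h1 p.1 p.2)
    have h4 : (fun s => v₂ s f) = (fun s => v₂ s f') :=
      hi₂ (funext fun p => h2 p.1 p.2)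
    simp only [h3, h4]
  · intro F
    obtain ⟨g₁, hg₁⟩ := hs₁ (fun p => (F p.1).1 p.2)
    obtain ⟨g₂, hg₂⟩ := hs₂ (fun p => (F p.1).2 p.2)
    obtain ⟨f, hf⟩ := hv.2 (g₁, g₂)
    refine ⟨f, ?_⟩
    have e1 : ∀ s, v₁ s f = g₁ s := fun s => congrFun (congrArg Prod.fst hf) s
    have e2 : ∀ s, v₂ s f = g₂ s := fun s => congrFun (congrArg Prod.snd hf) s
    funext γ
    apply Prod.ext
    · funext o
      change v₁ o.out (M.ρ γ f) = (F γ).1 o
      rw [he₁, e1]
      exact congrFun hg₁ (γ, o)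
    · funext o
      change v₂ o.out (M.ρ γ f) = (F γ).2 o
      rw [he₂, e2]
      exact congrFun hg₂ (γ, o)

end

end Pool.MP0c3001.DV
end
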