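import Pool.Agent.Lib.MP_0c3001_gt.DV.Defs
import Pool.Agent.Lib.MP_0c3001_gt.DV.Ext
import Pool.Agent.Lib.MP_0c3001_gt.Mg.G010

section

/-!
# E2: pull-back of the class `ecl` along a homomorphism

`c' a b = c (φ a) (φ b)`.  Let `F = resFunctor φ`.  The maps `frMap k Unit φ : Fr k Unit Q' ⟶ F (Fr k Unit Q)`, its
restriction `f₁ : Iaug k Q' ⟶ F (Iaug k Q)` and `f₂ : Dc hc' ⟶ F (Dc hc)`, `(b, w) ↦ (b, f₁ w)` (equivariant since
`phi c' q w = phi c (φ q) (f₁ w)`, check on `single`) give maps of the short exact sequences `augSeq`, `dSeq`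
(identity on `k`).  `rs φ x = cmp F (𝟙 _) (𝟙 _) i x` (`cmp_apply`, `Ext.mk₀_id_comp`, `Ext.comp_mk₀_id`); by
`cmp_extClass` twice: `rs φ ((augSeq k Q).extClass.comp (dSeq hc).extClass) =
(augSeq k Q').extClass.comp (cmp F f₁ 𝟙 1 (dSeq hc).extClass)` and
`cmp F f₁ 𝟙 1 ((dSeq hc).extClass.comp (mk₀ 𝟙)) = (dSeq hc').extClass.comp (cmp F 𝟙 𝟙 0 (mk₀ 𝟙)) =
(dSeq hc').extClass`.
Second statement: `epow` commutes with restriction (`Ext.mapExactFunctor_comp`, `Ext.mapExactFunctor_mk₀`).
Third: restriction commutes with the reduction `qm` (`Ext.mapExactFunctor_comp`, `Ext.mapExactFunctor_mk₀`).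
`rs_add` etc.: `F.mapExtAddHom` is additive (see `cmp` in Adj.lean).
`rs_rs`: if there is no Mathlib lemma for the composite of exact functors: induction over `i` for all `V`:
`i = 0`: `x = mk₀ f`, `mapExactFunctor_mk₀`, both sides are `mk₀` of the same map.  `i + 1`: choose
`0 → K → P → V → 0` short exact with `P` projective (`frLift V id`, `kerSeq_shortExact`),
`x = S.extClass.comp y` (`Ext.contravariant_sequence_exact₃`, `Ext.eq_zero_of_projective`); `rs` of `S.extClass` is the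
`extClass` of the restricted sequence (`Ext.mapExactFunctor_extClass`, see the proof of `cmp_extClass`), and
the sequences `(S.map F).map F'` and `S.map F''` agree definitionally.  `rs_id`: same proof.
-/

set_option autoImplicit false

namespace Pool.MP0c3001.DV

open CategoryTheory CategoryTheory.Abelian Limits

noncomputable section

variable {k : Type} [CommRing k] {Q Q' Q'' : Type} [Group Q] [Group Q'] [Group Q'']

private theorem aug_frMap' (φ : Q' →* Q) (w : Unit × Q' →₀ k) :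
    (aug k Q).hom ((frMap k Unit φ).hom w) = (aug k Q').hom w := by
  have h : (aug k Q).hom.toLinearMap ∘ₗ (frMap k Unit φ).hom.toLinearMap =
      (aug k Q').hom.toLinearMap := by
    apply Finsupp.lhom_ext
    intro x n
    change (aug k Q).hom ((frMap k Unit φ).hom (Finsupp.single x n)) =
      (aug k Q').hom (Finsupp.single x n)
    rw [frMap_single, aug_single, aug_single]
  exact LinearMap.congr_fun h w

/-- `I(Q') → I(Q)` as a linear map -/
private def iLin (φ : Q' →* Q) : (Iaug k Q').V →ₗ[k] (Iaug k Q).V :=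
  LinearMap.codRestrict (LinearMap.ker (aug k Q).hom.toLinearMap)
    ((frMap k Unit φ).hom.toLinearMap ∘ₗ (LinearMap.ker (aug k Q').hom.toLinearMap).subtype) (by
      intro w
      rw [LinearMap.mem_ker]
      change (aug k Q).hom ((frMap k Unit φ).hom w.1) = 0
      rw [aug_frMap']
      exact w.2)

private theorem iLin_val (φ : Q' →* Q) (w : (Iaug k Q').V) :
    (iLin (k := k) φ w).1 = (frMap k Unit φ).hom w.1 := rfl

private theorem iLin_rho (φ : Q' →* Q) (q : Q') (w : (Iaug k Q').V) :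
    iLin φ ((Iaug k Q').ρ q w) = (Iaug k Q).ρ (φ q) (iLin φ w) := by
  apply Subtype.ext
  change (frMap k Unit φ).hom (frRho k Unit Q' q w.1) = frRho k Unit Q (φ q) ((frMap k Unit φ).hom w.1)
  exact Rep.hom_comm_apply (frMap k Unit φ) q w.1

/-- `I(Q') → I(Q)` -/
private def iMap (φ : Q' →* Q) : Iaug k Q' ⟶ (Rep.resFunctor.{0} (k := k) φ).obj (Iaug k Q) :=
  Rep.ofHom
    { toLinearMap := iLin φ
      isIntertwining' := by
        intro q
        apply LinearMap.ext
        intro w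
        exact iLin_rho φ q w }

private theorem phi_frMap (φ : Q' →* Q) {B : Type} [AddCommGroup B] [Module k B] {c : Q → Q → B}
    {c' : Q' → Q' → B} (h : ∀ a b, c' a b = c (φ a) (φ b)) (q : Q') (w : Unit × Q' →₀ k) :
    phi (k := k) c' q w = phi (k := k) c (φ q) ((frMap k Unit φ).hom w) := by
  have h : phi (k := k) c' q = phi (k := k) c (φ q) ∘ₗ (frMap k Unit φ).hom.toLinearMap := by
    apply Finsupp.lhom_ext
    intro x n
    change phi (k := k) c' q (Finsupp.single x n) =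
      phi (k := k) c (φ q) ((frMap k Unit φ).hom (Finsupp.single x n))
    rw [frMap_single, phi_single, phi_single, h]
  exact LinearMap.congr_fun h w

private def dcMap (φ : Q' →* Q) {c : Q → Q → k} (hc : IsCoc c) {c' : Q' → Q' → k}
    (hc' : IsCoc c') (h : ∀ a b, c' a b = c (φ a) (φ b)) :
    Dc (k := k) hc' ⟶ (Rep.resFunctor.{0} (k := k) φ).obj (Dc (k := k) hc) :=
  Rep.ofHom
    { toLinearMap := LinearMap.prodMap LinearMap.id (iLin φ)
      isIntertwining' := by
        intro q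
        apply LinearMap.ext
        rintro ⟨b, w⟩
        change (b + phi c' q w.1, iLin φ ((Iaug k Q').ρ q w)) =
          (b + phi c (φ q) (iLin φ w).1, (Iaug k Q).ρ (φ q) (iLin φ w))
        rw [iLin_rho, iLin_val, phi_frMap φ h] }

private theorem cls_pull (φ : Q' →* Q) {c : Q → Q → k} (hc : IsCoc c) {c' : Q' → Q' → k}
    (hc' : IsCoc c') (h : ∀ a b, c' a b = c (φ a) (φ b)) :
    cls (k := k) hc' = (rs φ (cls (k := k) hc) : HH k Q' (Zt k Q') 2) := by
  have e1 := cmp_extClass (Rep.resFunctor.{0} (k := k) φ) (dSeq (k := k) hc) (dSeq (k := k) hc')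
    (𝟙 (Zt k Q')) (dcMap φ hc hc' h) (iMap φ) (by
      apply Rep.hom_ext
      apply Representation.IntertwiningMap.ext
      apply LinearMap.ext
      intro b
      change ((b, iLin (k := k) φ 0) : k × (Iaug k Q).V) = (b, 0)
      rw [map_zero]) (by
      apply Rep.hom_ext
      apply Representation.IntertwiningMap.ext
      apply LinearMap.ext
      intro b
      rfl) (𝟙 (Zt k Q')) (show 1 + 0 = 1 from rfl)
    (Ext.mk₀ (𝟙 (Zt k Q)))
  have e2 := cmp_extClass (Rep.resFunctor.{0} (k := k) φ) (augSeq k Q) (augSeq k Q')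
    (iMap φ) (frMap k Unit φ) (𝟙 (Zt k Q')) (by
      apply Rep.hom_ext
      apply Representation.IntertwiningMap.ext
      apply LinearMap.ext
      intro b
      rfl) (by
      apply Rep.hom_ext
      apply Representation.IntertwiningMap.ext
      apply LinearMap.ext
      intro b
      exact (aug_frMap' φ b).symm) (𝟙 (Zt k Q')) (show 1 + 1 = 2 from rfl)
    ((dSeq (k := k) hc).extClass)
  have e4 : cmp (Rep.resFunctor.{0} (k := k) φ) (𝟙 (Zt k Q')) (𝟙 (Zt k Q')) 0
      (Ext.mk₀ (𝟙 (Zt k Q))) = Ext.mk₀ (𝟙 (Zt k Q')) := by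
    rw [cmp_apply, Ext.mapExactFunctor_mk₀, Ext.mk₀_comp_mk₀, Ext.mk₀_comp_mk₀]
    rfl
  rw [e4, Ext.comp_mk₀_id, Ext.comp_mk₀_id] at e1
  have e5 : cmp (Rep.resFunctor.{0} (k := k) φ) (𝟙 (Zt k Q')) (𝟙 (Zt k Q')) 2
      ((augSeq k Q).extClass.comp (dSeq (k := k) hc).extClass (show 1 + 1 = 2 from rfl)) =
      (rs φ (cls (k := k) hc) : HH k Q' (Zt k Q') 2) := by
    rw [cmp_apply]
    exact (Ext.mk₀_id_comp _).trans (Ext.comp_mk₀_id _)
  rw [← e5]
  refine Eq.trans ?_ e2.symm
  refine Eq.trans ?_ (congrArg (fun y => (augSeq k Q').extClass.comp y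
    (show 1 + 1 = 2 from rfl)) e1.symm)
  rfl

theorem ecl_pull (φ : Q' →* Q) {c : Q → Q → ℤ} (hc : IsCoc c) {c' : Q' → Q' → ℤ}
    (hc' : IsCoc c') (h : ∀ a b, c' a b = c (φ a) (φ b)) :
    ecl k hc' = (rs φ (ecl k hc) : HH k Q' (Zt k Q') 2) :=
  cls_pull φ (hc.map (Int.castAddHom k)) (hc'.map (Int.castAddHom k)) (fun a b => by rw [h])

theorem rs_comp (φ : Q' →* Q) {U V W : Rep.{0} k Q} {i j n : ℕ} (x : Ext.{0} U V i)
    (y : Ext.{0} V W j) (h : i + j = n) : rs φ (x.comp y h) = (rs φ x).comp (rs φ y) h :=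
  Ext.mapExactFunctor_comp _ _ _ _

theorem rs_epow (φ : Q' →* Q) (e : HH k Q (Zt k Q) 2) (n : ℕ) :
    (rs φ (epow e n) : HH k Q' (Zt k Q') (2 * n)) = epow (rs φ e : HH k Q' (Zt k Q') 2) n := by
  induction n with
  | zero =>
    change (Ext.mk₀ (𝟙 (Zt k Q))).mapExactFunctor (Rep.resFunctor.{0} (k := k) φ) =
      (Ext.mk₀ (𝟙 (Zt k Q')) : Ext.{0} _ _ 0)
    rw [Ext.mapExactFunctor_mk₀]
    rfl
  | succ n ih =>
    refine (Ext.mapExactFunctor_comp (Rep.resFunctor.{0} (k := k) φ) e (epow e n) _).trans ?_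
    exact congrArg (fun y => (rs φ e : HH k Q' (Zt k Q') 2).comp y
      (show 2 + 2 * n = 2 * (n + 1) by omega)) ih

theorem rs_qm (φ : Q' →* Q) (n : ℕ) {i : ℕ} (x : HH k Q (Zt k Q) i) :
    (rs φ (x.comp (Ext.mk₀ (qm k Q n)) (add_zero i)) : HH k Q' (Vq k Q' n) i) =
      (rs φ x : HH k Q' (Zt k Q') i).comp (Ext.mk₀ (qm k Q' n)) (add_zero i) := by
  refine (Ext.mapExactFunctor_comp (Rep.resFunctor.{0} (k := k) φ) x _ _).trans ?_
  rw [Ext.mapExactFunctor_mk₀]
  rfl

theorem rs_add (φ : Q' →* Q) {V W : Rep.{0} k Q} {i : ℕ} (x y : Ext.{0} V W i) :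
    rs φ (x + y) = rs φ x + rs φ y :=
  map_add ((Rep.resFunctor.{0} (k := k) φ).mapExtAddHom V W i) x y

theorem rs_nsmul (φ : Q' →* Q) {V W : Rep.{0} k Q} {i : ℕ} (n : ℕ) (x : Ext.{0} V W i) :
    rs φ (n • x) = n • rs φ x :=
  map_nsmul ((Rep.resFunctor.{0} (k := k) φ).mapExtAddHom V W i) n x

theorem rs_zsmul (φ : Q' →* Q) {V W : Rep.{0} k Q} {i : ℕ} (n : ℤ) (x : Ext.{0} V W i) :
    rs φ (n • x) = n • rs φ x :=
  map_zsmul ((Rep.resFunctor.{0} (k := k) φ).mapExtAddHom V W i) n x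

private theorem rs_ext (φ : Q' →* Q) {S : ShortComplex (Rep.{0} k Q)} (hS : S.ShortExact)
    {W : Rep.{0} k Q} {i n : ℕ} (h : 1 + i = n) (y : Ext.{0} S.X₁ W i) :
    rs φ (hS.extClass.comp y h) =
      (hS.map_of_exact (Rep.resFunctor.{0} (k := k) φ)).extClass.comp (rs φ y) h := by
  refine (Ext.mapExactFunctor_comp (Rep.resFunctor.{0} (k := k) φ) _ _ _).trans ?_
  rw [Ext.mapExactFunctor_extClass]
  rfl

private theorem frLift_surj' (V : Rep.{0} k Q) :
    Function.Surjective (frLift V (fun x : V.V => x)).hom := by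
  intro y
  refine ⟨Finsupp.single (y, 1) 1, ?_⟩
  rw [frLift_single, map_one, one_smul]
  rfl

/-- functoriality of the restriction -/
theorem rs_rs (φ : Q' →* Q) (ψ : Q'' →* Q') {V W : Rep.{0} k Q} {i : ℕ} (x : Ext.{0} V W i) :
    rs ψ (rs φ x) = (rs (φ.comp ψ) x : Ext.{0}
      ((Rep.resFunctor.{0} (k := k) ψ).obj ((Rep.resFunctor.{0} (k := k) φ).obj V))
      ((Rep.resFunctor.{0} (k := k) ψ).obj ((Rep.resFunctor.{0} (k := k) φ).obj W)) i) := by
  induction i generalizing V with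
  | zero =>
    obtain ⟨f, rfl⟩ := (Ext.mk₀_bijective V W).2 x
    change ((Ext.mk₀ f).mapExactFunctor (Rep.resFunctor.{0} (k := k) φ)).mapExactFunctor
        (Rep.resFunctor.{0} (k := k) ψ) =
      (Ext.mk₀ f).mapExactFunctor (Rep.resFunctor.{0} (k := k) (φ.comp ψ))
    rw [Ext.mapExactFunctor_mk₀, Ext.mapExactFunctor_mk₀, Ext.mapExactFunctor_mk₀]
    rfl
  | succ i ih =>
    have hS := kerSeq_shortExact (frLift V (fun x : V.V => x)) (frLift_surj' V)
    obtain ⟨y, rfl⟩ := Ext.contravariant_sequence_exact₃ hS W x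
      (Ext.eq_zero_of_projective _) (show 1 + i = i + 1 by omega)
    have e1 := rs_ext φ hS (show 1 + i = i + 1 by omega) y
    have e2 := rs_ext ψ (hS.map_of_exact (Rep.resFunctor.{0} (k := k) φ))
      (show 1 + i = i + 1 by omega) (rs φ y)
    have e3 := rs_ext (φ.comp ψ) hS (show 1 + i = i + 1 by omega) y
    have h1 : rs ψ (rs φ (hS.extClass.comp y (show 1 + i = i + 1 by omega))) =
        ((hS.map_of_exact (Rep.resFunctor.{0} (k := k) φ)).map_of_exact
          (Rep.resFunctor.{0} (k := k) ψ)).extClass.comp (rs ψ (rs φ y))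
            (show 1 + i = i + 1 by omega) := (congrArg (rs ψ) e1).trans e2
    refine h1.trans (Eq.trans ?_ e3.symm)
    exact congrArg (fun t => ((hS.map_of_exact (Rep.resFunctor.{0} (k := k) φ)).map_of_exact
          (Rep.resFunctor.{0} (k := k) ψ)).extClass.comp t
            (show 1 + i = i + 1 by omega)) (ih y)

theorem rs_id {V W : Rep.{0} k Q} {i : ℕ} (x : Ext.{0} V W i) :
    rs (MonoidHom.id Q) x = (x : Ext.{0} V W i) := by
  induction i generalizing V with
  | zero =>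
    obtain ⟨f, rfl⟩ := (Ext.mk₀_bijective V W).2 x
    change (Ext.mk₀ f).mapExactFunctor (Rep.resFunctor.{0} (k := k) (MonoidHom.id Q)) =
      (Ext.mk₀ f : Ext.{0} V W 0)
    rw [Ext.mapExactFunctor_mk₀]
    rfl
  | succ i ih =>
    have hS := kerSeq_shortExact (frLift V (fun x : V.V => x)) (frLift_surj' V)
    obtain ⟨y, rfl⟩ := Ext.contravariant_sequence_exact₃ hS W x
      (Ext.eq_zero_of_projective _) (show 1 + i = i + 1 by omega)
    refine (rs_ext (MonoidHom.id Q) hS (show 1 + i = i + 1 by omega) y).trans ?_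
    rw [ih y]
    rfl

end

end Pool.MP0c3001.DV
end

section

/-!
# BK: divisibility and reduction modulo `n`

* `qm_shortExact`: `0 → k → k → k/n → 0` (multiplication by `n`, injective since `k ≅ ℤ` by `hk`).
* `dvd_of_qm`: `x.comp (mk₀ qm) = 0` gives `x = y.comp (mk₀ (n • 𝟙)) = n • y`
  (`Ext.covariant_sequence_exact₂`; the same argument is in the proof of `res_cls_dvd`, Fset.lean).
* `qm_of_dvd`: `n • qm = 0`.
* `vq_kill`: `n • x = n • (x.comp (mk₀ 𝟙)) = x.comp (mk₀ (n • 𝟙))` and `n • 𝟙 = 0` on `k/n`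
  (general form for a module killed by `n`).
* `eq_zero_of_coprime`: Bezout.
-/

set_option autoImplicit false

namespace Pool.MP0c3001.DV

open CategoryTheory CategoryTheory.Abelian Limits

noncomputable section

variable {k : Type} [CommRing k] {Q : Type} [Group Q]

private theorem bk_nsmul_comp {C : Type*} [Category* C] [Abelian C] [HasExt.{0} C] {X Y : C} {n : ℕ}
    (N : ℕ) (y : Ext.{0} X Y n) : y.comp (Ext.mk₀ (N • 𝟙 Y)) (add_zero n) = N • y := by
  induction N with
  | zero => rw [zero_smul, zero_smul, Ext.mk₀_zero, Ext.comp_zero]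
  | succ N ih => rw [succ_nsmul, succ_nsmul, Ext.mk₀_add, Ext.comp_add, ih, Ext.comp_mk₀_id]

private theorem bk_w (N : ℕ) : (N • 𝟙 (Zt k Q)) ≫ (qm k Q N) = 0 := by
  apply Rep.hom_ext
  apply Representation.IntertwiningMap.ext
  apply LinearMap.ext
  intro b
  change Ideal.Quotient.mk (Ideal.span {(N : k)}) (N • b) = 0
  rw [Ideal.Quotient.eq_zero_iff_mem, Ideal.mem_span_singleton]
  exact ⟨b, by rw [nsmul_eq_mul]⟩

theorem dvd_of_qm (hk : Function.Bijective (Int.cast : ℤ → k)) {n : ℕ} (hn : 0 < n) {i : ℕ}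
    (x : HH k Q (Zt k Q) i) (hx : x.comp (Ext.mk₀ (qm k Q n)) (add_zero i) = 0) : Dvd n x := by
  have hN : ∀ x : k, (n : k) * x = 0 → x = 0 := by
    intro x hx
    obtain ⟨m, rfl⟩ := hk.2 x
    have h1 : ((n * m : ℤ) : k) = ((0 : ℤ) : k) := by
      push_cast
      exact hx
    have h2 := hk.1 h1
    have h3 : m = 0 := by
      rcases mul_eq_zero.1 h2 with h | h
      · exact absurd h (by exact_mod_cast hn.ne')
      · exact h
    rw [h3, Int.cast_zero]
  have hS : (ShortComplex.mk (n • 𝟙 (Zt k Q)) (qm k Q n) (bk_w n)).ShortExact := by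
    apply shortExact_of
    · intro x y hxy
      have h : n • x = n • y := hxy
      rw [nsmul_eq_mul, nsmul_eq_mul] at h
      have h2 := hN (x - y) (by rw [mul_sub, h, sub_self])
      exact sub_eq_zero.1 h2
    · intro x
      exact Ideal.Quotient.mk_surjective x
    · intro b hb
      have h : Ideal.Quotient.mk (Ideal.span {(n : k)}) b = 0 := hb
      rw [Ideal.Quotient.eq_zero_iff_mem, Ideal.mem_span_singleton] at h
      obtain ⟨a, ha⟩ := h
      refine ⟨a, ?_⟩
      change n • a = b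
      rw [nsmul_eq_mul]
      exact ha.symm
  obtain ⟨y, hy⟩ := Ext.covariant_sequence_exact₂ (Zt k Q) hS x hx
  refine ⟨y, ?_⟩
  rw [← hy]
  exact bk_nsmul_comp n y

theorem qm_of_dvd {n i : ℕ} (x : HH k Q (Zt k Q) i) (hx : Dvd n x) :
    x.comp (Ext.mk₀ (qm k Q n)) (add_zero i) = 0 := by
  obtain ⟨y, rfl⟩ := hx
  rw [← bk_nsmul_comp n y, Ext.comp_assoc (h₁₂ := add_zero i) (h₂₃ := add_zero 0)
    (h := by omega), Ext.mk₀_comp_mk₀, bk_w, Ext.mk₀_zero, Ext.comp_zero]

/-- a module killed by `n` has cohomology killed by `n` -/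
theorem coh_kill (V W : Rep.{0} k Q) (n : ℕ) (hV : ∀ v : V.V, n • v = 0) {i : ℕ}
    (x : Ext.{0} W V i) : n • x = 0 := by
  have h : (n • 𝟙 V : V ⟶ V) = 0 := by
    apply Rep.hom_ext
    apply Representation.IntertwiningMap.ext
    apply LinearMap.ext
    intro v
    exact hV v
  rw [← bk_nsmul_comp n x, h, Ext.mk₀_zero, Ext.comp_zero]

theorem vq_kill (n : ℕ) (v : (Vq k Q n).V) : n • v = 0 := by
  obtain ⟨b, rfl⟩ := Ideal.Quotient.mk_surjective (I := Ideal.span {(n : k)}) v
  change n • Ideal.Quotient.mk (Ideal.span {(n : k)}) b = 0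
  rw [← map_nsmul, Ideal.Quotient.eq_zero_iff_mem, Ideal.mem_span_singleton]
  exact ⟨b, by rw [nsmul_eq_mul]⟩

/-- multiplication with a class divisible by `n` is zero on a module killed by `n` -/
theorem comp_dvd_zero (V : Rep.{0} k Q) (n : ℕ) (hV : ∀ v : V.V, n • v = 0) {i j a : ℕ}
    (e : HH k Q (Zt k Q) i) (he : Dvd n e) (x : HH k Q V j) (h : i + j = a) :
    e.comp x h = 0 := by
  obtain ⟨y, rfl⟩ := he
  have h1 : (n • y).comp x h = n • (y.comp x h) := by
    have : ∀ m : ℕ, (m • y).comp x h = m • (y.comp x h) := by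
      intro m
      induction m with
      | zero => rw [zero_smul, zero_smul, Ext.zero_comp]
      | succ m ih => rw [succ_nsmul, succ_nsmul, Ext.add_comp, ih]
    exact this n
  rw [h1]
  exact coh_kill V _ n hV _

theorem eq_zero_of_coprime {A : Type} [AddCommGroup A] {m n : ℕ} (h : Nat.Coprime m n) (x : A)
    (h1 : m • x = 0) (h2 : n • x = 0) : x = 0 := by
  have h3 := addOrderOf_dvd_of_nsmul_eq_zero h1
  have h4 := addOrderOf_dvd_of_nsmul_eq_zero h2
  have h5 : addOrderOf x ∣ 1 := h ▸ Nat.dvd_gcd h3 h4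
  exact AddMonoid.addOrderOf_eq_one_iff.1 (Nat.dvd_one.1 h5)

/-- in a finitely generated abelian group an element divisible by all `l ^ s`, `l ≥ 2`, is torsion -/
theorem torsion_of_divisible {A : Type} [AddCommGroup A] [Module.Finite ℤ A] {l : ℕ} (hl : 2 ≤ l)
    (x : A) (hx : ∀ s : ℕ, ∃ y : A, x = (l ^ s) • y) : ∃ t : ℕ, 0 < t ∧ t • x = 0 := by
  have h1 : x ∈ (⨅ i : ℕ, (Ideal.span {(l : ℤ)}) ^ i • (⊤ : Submodule ℤ A)) := by
    rw [Submodule.mem_iInf]
    intro i
    obtain ⟨y, hy⟩ := hx i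
    have h2 : ((l : ℤ) ^ i) ∈ (Ideal.span {(l : ℤ)}) ^ i := Ideal.pow_mem_pow
      (Ideal.mem_span_singleton_self _) i
    have h3 := Submodule.smul_mem_smul h2 (Submodule.mem_top : y ∈ (⊤ : Submodule ℤ A))
    rw [hy]
    have h4 : ((l : ℤ) ^ i) • y = (l ^ i) • y := by
      rw [← natCast_zsmul]
      push_cast
      rfl
    rw [← h4]
    exact h3
  rw [Ideal.mem_iInf_smul_pow_eq_bot_iff] at h1
  obtain ⟨⟨r, hr⟩, hrx⟩ := h1
  have hrx' : r • x = x := hrx
  rw [Ideal.mem_span_singleton] at hr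
  obtain ⟨a, rfl⟩ := hr
  have hne : (1 - (l : ℤ) * a) ≠ 0 := by
    intro h0
    have h5 : (l : ℤ) * a = 1 := by omega
    have h6 : (l : ℤ) ∣ 1 := ⟨a, h5.symm⟩
    have h7 := Int.le_of_dvd one_pos h6
    omega
  refine ⟨(1 - (l : ℤ) * a).natAbs, Int.natAbs_pos.2 hne, ?_⟩
  have h8 : (1 - (l : ℤ) * a) • x = 0 := by
    rw [sub_smul, one_smul, hrx', sub_self]
  rcases Int.natAbs_eq (1 - (l : ℤ) * a) with h | h
  · rw [← natCast_zsmul, ← h, h8]
  · rw [← natCast_zsmul]
    have h9 : ((1 - (l : ℤ) * a).natAbs : ℤ) = -(1 - (l : ℤ) * a) := by omega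
    rw [h9, neg_smul, h8, neg_zero]

end

end Pool.MP0c3001.DV
end

section

/-!
# E1: the class `ecl` of an integral cocycle: additivity and coboundaries

* `ecl_add`: copy the proof of `ex_add` (Rank.lean): the universal cocycle with values in `k × k` (or
  `Fin 2 → k`), `cls_map` for the projections and the sum.
* `ecl_zsmul`: `cls_map` for the linear map `x ↦ (n : k) * x`; `x.comp (mk₀ (n • 𝟙)) = n • x`.
* `ecl_cob`: if `c' a b = c a b + F a + F b - F (a b)` then `Φ : Dc hc' ⟶ Dc hc`, `(b, w) ↦ (b + F̃(w), w)` with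
  `F̃ : Iaug → k` the linear form `w ↦ ∑ w_p F(p)` is an equivariant map which is the identity on `k` and on
  `Iaug`: by `phi_single` `phi c' q w = phi c q w + (aug w) F(q) + F̃(w) - F̃(q w)` and `aug w = 0`.  Then
  `extClass_naturality` (as in the proof of `cls_map`, Dmod.lean) gives
  `(dSeq hc').extClass = (dSeq hc).extClass`.
-/

set_option autoImplicit false

namespace Pool.MP0c3001.DV

open CategoryTheory CategoryTheory.Abelian Limits

noncomputable section

variable {k : Type} [CommRing k] {Q : Type} [Group Q]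

theorem ecl_add {c c' c'' : Q → Q → ℤ} (hc : IsCoc c) (hc' : IsCoc c') (hc'' : IsCoc c'')
    (h : ∀ a b, c'' a b = c a b + c' a b) : ecl k hc'' = ecl k hc + ecl k hc' := by
  have hu : IsCoc (fun q' q : Q => (((c q' q : ℤ) : k), ((c' q' q : ℤ) : k))) := by
    intro q' q p
    have h1 := congrArg (Int.cast : ℤ → k) (hc q' q p)
    have h2 := congrArg (Int.cast : ℤ → k) (hc' q' q p)
    push_cast at h1 h2
    exact Prod.ext h1 h2
  have e1 : ecl k hc = (cls (k := k) hu).comp
      (Ext.mk₀ (trivMap (Q := Q) (LinearMap.fst k k k))) (add_zero 2) := cls_map _ _ _ fun _ _ => rfl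
  have e2 : ecl k hc' = (cls (k := k) hu).comp
      (Ext.mk₀ (trivMap (Q := Q) (LinearMap.snd k k k))) (add_zero 2) := cls_map _ _ _ fun _ _ => rfl
  have e3 : ecl k hc'' = (cls (k := k) hu).comp
      (Ext.mk₀ (trivMap (Q := Q) (LinearMap.fst k k k + LinearMap.snd k k k))) (add_zero 2) := by
    refine cls_map _ _ _ fun q p => ?_
    change ((c'' q p : ℤ) : k) = ((c q p : ℤ) : k) + ((c' q p : ℤ) : k)
    rw [h, Int.cast_add]
  have hadd : trivMap (Q := Q) (LinearMap.fst k k k + LinearMap.snd k k k) =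
      trivMap (Q := Q) (LinearMap.fst k k k) + trivMap (Q := Q) (LinearMap.snd k k k) := by
    apply Rep.hom_ext
    apply Representation.IntertwiningMap.ext
    apply LinearMap.ext
    intro v
    rfl
  rw [e1, e2, e3, hadd, Ext.mk₀_add, Ext.comp_add]

/-- composition with multiplication by a scalar -/
private def E1_mul (x : HH k Q (Zt k Q) 2) : k →+ HH k Q (Zt k Q) 2 :=
  AddMonoidHom.mk' (fun t => x.comp (Ext.mk₀ (trivMap (Q := Q) (t • (LinearMap.id : k →ₗ[k] k))))
    (add_zero 2)) (by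
    intro s t
    have hadd : trivMap (Q := Q) ((s + t) • (LinearMap.id : k →ₗ[k] k)) =
        trivMap (Q := Q) (s • (LinearMap.id : k →ₗ[k] k)) +
          trivMap (Q := Q) (t • (LinearMap.id : k →ₗ[k] k)) := by
      apply Rep.hom_ext
      apply Representation.IntertwiningMap.ext
      apply LinearMap.ext
      intro v
      exact add_mul s t v
    change x.comp (Ext.mk₀ (trivMap (Q := Q) ((s + t) • (LinearMap.id : k →ₗ[k] k))))
      (add_zero 2) = _
    rw [hadd, Ext.mk₀_add, Ext.comp_add])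

private lemma E1_mul_one (x : HH k Q (Zt k Q) 2) : E1_mul x 1 = x := by
  have h1 : trivMap (Q := Q) ((1 : k) • (LinearMap.id : k →ₗ[k] k)) = 𝟙 (Zt k Q) := by
    apply Rep.hom_ext
    apply Representation.IntertwiningMap.ext
    apply LinearMap.ext
    intro v
    exact one_mul v
  change x.comp (Ext.mk₀ (trivMap (Q := Q) ((1 : k) • (LinearMap.id : k →ₗ[k] k))))
    (add_zero 2) = x
  rw [h1]
  exact Ext.comp_mk₀_id _

theorem ecl_zsmul {c c' : Q → Q → ℤ} (hc : IsCoc c) (hc' : IsCoc c') (n : ℤ)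
    (h : ∀ a b, c' a b = n * c a b) : ecl k hc' = n • ecl k hc := by
  have e1 : ecl k hc' = E1_mul (ecl k hc) (n : k) := by
    refine cls_map ((n : k) • (LinearMap.id : k →ₗ[k] k)) _ _ fun q p => ?_
    change ((c' q p : ℤ) : k) = (n : k) * ((c q p : ℤ) : k)
    rw [h, Int.cast_mul]
  have e2 : (n : k) = n • (1 : k) := by rw [zsmul_eq_mul, mul_one]
  rw [e1, e2, map_zsmul, E1_mul_one]

/-- the linear form `w ↦ ∑ w_p F(p)` -/
private def E1_F (k : Type) [CommRing k] (F : Q → ℤ) : (Unit × Q →₀ k) →ₗ[k] k :=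
  Finsupp.lift k k (Unit × Q) (fun x => (F x.2 : k))

omit [Group Q] in
private lemma E1_F_single (F : Q → ℤ) (x : Unit × Q) (n : k) :
    E1_F k F (Finsupp.single x n) = n * (F x.2 : k) := by
  simp [E1_F]

private lemma E1_phi {c c' : Q → Q → ℤ} (F : Q → ℤ)
    (h : ∀ a b, c' a b = c a b + F a + F b - F (a * b)) (q : Q) (w : Unit × Q →₀ k) :
    phi (k := k) (fun a b => Int.castAddHom k (c' a b)) q w + E1_F k F (frRho k Unit Q q w) =
      E1_F k F w + phi (k := k) (fun a b => Int.castAddHom k (c a b)) q w +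
        ((aug k Q).hom w : k) * (F q : k) := by
  induction w using Finsupp.induction_linear with
  | zero => simp
  | add f g hf hg =>
    have e1 : (aug k Q).hom (f + g) = (aug k Q).hom f + (aug k Q).hom g := map_add _ _ _
    have e2 : ((aug k Q).hom f + (aug k Q).hom g : k) * (F q : k) =
      ((aug k Q).hom f : k) * (F q : k) + ((aug k Q).hom g : k) * (F q : k) := add_mul _ _ _
    rw [map_add, map_add, map_add, map_add, map_add, e1, e2, add_add_add_comm, hf, hg]
    abel
  | single x n =>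
    rw [phi_single, phi_single, frRho_single, E1_F_single, E1_F_single, aug_single]
    have h1 := congrArg (Int.cast : ℤ → k) (h q x.2)
    push_cast at h1
    simp only [Int.coe_castAddHom, smul_eq_mul, h1]
    ring

theorem ecl_cob {c c' : Q → Q → ℤ} (hc : IsCoc c) (hc' : IsCoc c') (F : Q → ℤ)
    (h : ∀ a b, c' a b = c a b + F a + F b - F (a * b)) : ecl k hc' = ecl k hc := by
  let Φ : Dc (k := k) (hc'.map (Int.castAddHom k)) ⟶ Dc (k := k) (hc.map (Int.castAddHom k)) :=
    Rep.ofHom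
      { toLinearMap := LinearMap.prod
          (LinearMap.fst k k _ + (E1_F k F ∘ₗ
            (LinearMap.ker (aug k Q).hom.toLinearMap).subtype) ∘ₗ LinearMap.snd k k _)
          (LinearMap.snd k k _)
        isIntertwining' := by
          intro q
          apply LinearMap.ext
          rintro ⟨b, w⟩
          have h2 := E1_phi (k := k) F h q w.1
          have h3 : ((aug k Q).hom w.1 : k) * (F q : k) = 0 := by
            have : (aug k Q).hom w.1 = 0 := w.2
            rw [this]; exact zero_mul _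
          rw [h3, add_zero] at h2
          change (b + phi (k := k) (fun a b => Int.castAddHom k (c' a b)) q w.1 +
              E1_F k F (frRho k Unit Q q w.1), (Iaug k Q).ρ q w) =
            (b + E1_F k F w.1 + phi (k := k) (fun a b => Int.castAddHom k (c a b)) q w.1,
              (Iaug k Q).ρ q w)
          rw [add_assoc, h2, add_assoc] }
  let f : (ShortComplex.mk (dInc (k := k) (hc'.map (Int.castAddHom k))) (dProj _)
      (dInc_proj (hc'.map (Int.castAddHom k)))) ⟶
      (ShortComplex.mk (dInc (k := k) (hc.map (Int.castAddHom k))) (dProj _)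
        (dInc_proj (hc.map (Int.castAddHom k)))) :=
    { τ₁ := 𝟙 _
      τ₂ := Φ
      τ₃ := 𝟙 _
      comm₁₂ := by
        apply Rep.hom_ext
        apply Representation.IntertwiningMap.ext
        apply LinearMap.ext
        intro b
        change (b, (0 : (Iaug k Q).V)) = (b + E1_F k F ((0 : (Iaug k Q).V)).1, (0 : (Iaug k Q).V))
        have h0 : E1_F k F ((0 : (Iaug k Q).V)).1 = 0 := map_zero _
        rw [h0, add_zero]
      comm₂₃ := by
        apply Rep.hom_ext
        apply Representation.IntertwiningMap.ext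
        apply LinearMap.ext
        intro b
        rfl }
  have hn := ShortComplex.ShortExact.extClass_naturality.{0}
    (dSeq (k := k) (hc'.map (Int.castAddHom k))) (dSeq (k := k) (hc.map (Int.castAddHom k))) f
  have e1 : (dSeq (k := k) (hc'.map (Int.castAddHom k))).extClass =
      (dSeq (k := k) (hc.map (Int.castAddHom k))).extClass := by
    refine (Ext.comp_mk₀_id _).symm.trans (hn.trans ?_)
    exact Ext.mk₀_id_comp _
  change (augSeq k Q).extClass.comp (dSeq (k := k) (hc'.map (Int.castAddHom k))).extClass rfl =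
    (augSeq k Q).extClass.comp (dSeq (k := k) (hc.map (Int.castAddHom k))).extClass rfl
  rw [e1]

end

end Pool.MP0c3001.DV
end

section

/-!
# S14: the cyclic central extension `E → Q`

* `pr_cyc`: `h.pr` is onto (`pr_ι`), `pr w = 1` (`pr_w`); kernel: `x = ι g * w ^ j` (`h.eq`), `π g = 1`,
  `g = z ^ n`, `x = ι z ^ n * w ^ j = w ^ (l n + j)` (`h.pow`); order: `w ^ n = 1` gives `w ^ (l n) = ι (z ^ n) = 1`,
  `z ^ n = 1` (`h.inj`), `n = 0`; central: `h.cen`.
* `pr_fits`: the section `ι ∘ s`, coordinates: `x = ι g * w ^ i` with `g = z ^ (j g) * s (π g)` gives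
  `x = w ^ (l * j g + i) * ι (s (pr x))`; for `x = ι (s q' * s q)` the exponent is `l * c q' q`
  (it is determined by `x` because `w` has infinite order: choose `j'` on all of `E` by `pr_cyc.ker` and
  compare).
* `exists_fitsZ`: `exists_isSec`, `CycExt.exists_coord` (Fset.lean) and `fitsZ_isCoc`.
* `fitsZ_isCoc`: `s q' * s q = z ^ c q' q * s (q' * q)` (as `π (s q' * s q) = q' * q`); compare both ways of
  computing `s q' * s q * s p`, `z` central of infinite order.
* `fitsZ_eq`: `s q' * s q = z ^ c q' q * s (q' * q)`.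
-/

set_option autoImplicit false

namespace Pool.MP0c3001.DV

open CategoryTheory CategoryTheory.Abelian Limits

noncomputable section

variable {G Q E : Type} [Group G] [Group Q] [Group E] {ι : G →* E} {w : E} {z : G} {l : ℕ}

private theorem S14_inj {π : G →* Q} {z : G} (hπ : CycExt π z) {a b : ℤ} {x : G}
    (h : z ^ a * x = z ^ b * x) : a = b := by
  have h1 : z ^ a = z ^ b := mul_right_cancel h
  have h2 : z ^ (a - b) = 1 := by rw [zpow_sub, h1, mul_inv_cancel]
  have h3 := hπ.ord _ h2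
  omega

theorem pr_cyc (h : RootExt ι w z l) {π : G →* Q} (hπ : CycExt π z) :
    CycExt (h.pr hπ.map_z) w := by
  refine ⟨?_, h.pr_w hπ.map_z, ?_, ?_, h.cen⟩
  · intro q
    obtain ⟨g, rfl⟩ := hπ.surj q
    exact ⟨ι g, h.pr_ι hπ.map_z g⟩
  · intro x hx
    have h1 := h.eq x
    have h2 : π (h.gc x) = 1 := by
      rw [h1, map_mul, map_pow, h.pr_ι, h.pr_w, one_pow, mul_one] at hx
      exact hx
    obtain ⟨n, hn⟩ := hπ.ker _ h2
    refine ⟨(l : ℤ) * n + h.jc x, ?_⟩
    rw [zpow_add, zpow_mul, zpow_natCast, zpow_natCast, h.pow, ← map_zpow, ← hn]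
    exact h1
  · intro n hn
    apply hπ.ord
    apply h.inj
    rw [map_zpow, ← h.pow, map_one, ← zpow_natCast, ← zpow_mul, mul_comm, zpow_mul, hn, one_zpow]

theorem pr_fits (h : RootExt ι w z l) {π : G →* Q} (hπ : CycExt π z) {c : Q → Q → ℤ}
    (hf : FitsZ π z c) : FitsZ (h.pr hπ.map_z) w (fun a b => (l : ℤ) * c a b) := by
  obtain ⟨s, hs, j, hj, hc⟩ := hf
  have hs' : IsSec (h.pr hπ.map_z) (fun q => ι (s q)) := by
    refine ⟨fun q => ?_, ?_⟩
    · rw [h.pr_ι, hs.sec]
    · rw [hs.one, map_one]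
  have hE := pr_cyc h hπ
  obtain ⟨j', hj', -⟩ := hE.exists_coord hs'
  refine ⟨_, hs', j', hj', ?_⟩
  intro q' q
  apply S14_inj hE (x := ι (s (q' * q)))
  have e1 := hj' (ι (s q') * ι (s q))
  have e2 : h.pr hπ.map_z (ι (s q') * ι (s q)) = q' * q := by
    rw [map_mul, h.pr_ι, h.pr_ι, hs.sec, hs.sec]
  rw [e2] at e1
  change w ^ ((l : ℤ) * c q' q) * ι (s (q' * q)) =
    w ^ j' (ι (s q') * ι (s q)) * ι (s (q' * q))
  rw [← e1, zpow_mul, zpow_natCast, h.pow, ← map_zpow, ← map_mul, ← map_mul]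
  congr 1
  have e3 := hj (s q' * s q)
  rw [map_mul, hs.sec, hs.sec, ← hc] at e3
  exact e3.symm

/-- a fitting cocycle comes from a section with `s a * s b = z ^ c a b * s (a * b)` -/
theorem fitsZ_sec {π : G →* Q} {c : Q → Q → ℤ} (hf : FitsZ π z c) :
    ∃ s : Q → G, IsSec π s ∧ ∀ a b, s a * s b = z ^ c a b * s (a * b) := by
  obtain ⟨s, hs, j, hj, hc⟩ := hf
  refine ⟨s, hs, fun a b => ?_⟩
  have e3 := hj (s a * s b)
  rw [map_mul, hs.sec, hs.sec, ← hc] at e3
  exact e3

theorem fitsZ_isCoc {π : G →* Q} (hπ : CycExt π z) {c : Q → Q → ℤ} (hf : FitsZ π z c) :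
    IsCoc c := by
  obtain ⟨s, hs, h⟩ := fitsZ_sec hf
  intro q' q p
  apply S14_inj hπ (x := s (q' * q * p))
  have hc : ∀ (n : ℤ) (g : G), z ^ n * g = g * z ^ n := fun n g =>
    (Commute.zpow_left (hπ.cen g) n : Commute (z ^ n) g)
  have e1 : s q' * s q * s p = z ^ (c (q' * q) p + c q' q) * s (q' * q * p) := by
    rw [h q' q, mul_assoc, h (q' * q) p, ← mul_assoc, ← zpow_add, add_comm]
  have e2 : s q' * s q * s p = z ^ (c q p + c q' (q * p)) * s (q' * q * p) := by
    rw [mul_assoc, h q p, ← mul_assoc, ← hc, mul_assoc, h q' (q * p), ← mul_assoc, ← zpow_add,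
      mul_assoc]
  rw [← e1, e2]

theorem exists_fitsZ {π : G →* Q} (hπ : CycExt π z) : ∃ c : Q → Q → ℤ, IsCoc c ∧ FitsZ π z c := by
  obtain ⟨s, hs⟩ := exists_isSec π hπ.surj
  obtain ⟨j, hj, -⟩ := hπ.exists_coord hs
  have hf : FitsZ π z (fun q' q => j (s q' * s q)) := ⟨s, hs, j, hj, fun _ _ => rfl⟩
  exact ⟨_, fitsZ_isCoc hπ hf, hf⟩

end

end Pool.MP0c3001.DV
end

section

/-!
# E3: Euler classes under maps of central extensions

* `euler_nat`: let `s, s'` be the sections of `fitsZ_sec`.  `π (ψ (s' a)) = φ a = π (s (φ a))`, so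
  `ψ (s' a) = z ^ F a * s (φ a)` (`hπ.ker`).  Apply `ψ` to `s' a * s' b = z' ^ c' a b * s' (a b)`:
  `F a + F b + c (φ a) (φ b) = n * c' a b + F (a b)` (`z` central of infinite order).  So
  `n * c' a b = c (φ a) (φ b) + F a + F b - F (a b)`, and `ecl_zsmul`, `ecl_cob`, `ecl_pull` give the claim
  (the functions `fun a b => c (φ a) (φ b)` and `fun a b => n * c' a b` are cocycles: `IsCoc` is clear).
* `ecl_fs_lift`: the class of `χ ∘ fs` pulled back along `φ` is computed by any lift `S` of `φ`: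
  `S a = u a * s (φ a)` with `u a ∈ ker π` central,
  `S a * S b * (S (a b))⁻¹ = u a * u b * (u (a b))⁻¹ * fs (φ a) (φ b)`; `F a = χ (u a)`; `ecl_cob`, `ecl_pull`.
-/

set_option autoImplicit false

namespace Pool.MP0c3001.DV

open CategoryTheory CategoryTheory.Abelian Limits

noncomputable section

variable {k : Type} [CommRing k] {G G' Q Q' : Type} [Group G] [Group G'] [Group Q] [Group Q']

theorem euler_nat {π : G →* Q} {z : G} (hπ : CycExt π z) {π' : G' →* Q'} {z' : G'}
    (hπ' : CycExt π' z') (ψ : G' →* G) (φ : Q' →* Q) (hφ : ∀ g, φ (π' g) = π (ψ g)) (n : ℤ)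
    (hn : ψ z' = z ^ n) {c : Q → Q → ℤ} (hc : IsCoc c) (hf : FitsZ π z c)
    {c' : Q' → Q' → ℤ} (hc' : IsCoc c') (hf' : FitsZ π' z' c') :
    n • ecl k hc' = (rs φ (ecl k hc) : HH k Q' (Zt k Q') 2) := by
  obtain ⟨s, hs, hsc⟩ := fitsZ_sec hf
  obtain ⟨s', hs', hsc'⟩ := fitsZ_sec hf'
  have h1 : ∀ a : Q', ∃ m : ℤ, ψ (s' a) = z ^ m * s (φ a) := by
    intro a
    obtain ⟨m, hm⟩ := hπ.ker (ψ (s' a) * (s (φ a))⁻¹) (by
      rw [map_mul, map_inv, ← hφ, hs'.sec, hs.sec, mul_inv_cancel])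
    exact ⟨m, by rw [← hm, inv_mul_cancel_right]⟩
  choose F hF using h1
  have hcz : ∀ (m : ℤ) (g : G), z ^ m * g = g * z ^ m := fun m g =>
    ((show Commute z g from hπ.cen g).zpow_left m).eq
  have h2 : ∀ a b : Q', n * c' a b = c (φ a) (φ b) + F a + F b - F (a * b) := by
    intro a b
    have e1 : ψ (s' a * s' b) = z ^ (n * c' a b + F (a * b)) * s (φ a * φ b) := by
      rw [hsc', map_mul, map_zpow, hn, ← zpow_mul, hF, map_mul, ← mul_assoc, ← zpow_add]
    have e2 : ψ (s' a * s' b) = z ^ (F a + F b + c (φ a) (φ b)) * s (φ a * φ b) := by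
      rw [map_mul, hF, hF]
      calc z ^ F a * s (φ a) * (z ^ F b * s (φ b))
          = z ^ F a * (s (φ a) * z ^ F b) * s (φ b) := by group
        _ = z ^ F a * (z ^ F b * s (φ a)) * s (φ b) := by rw [hcz (F b) (s (φ a))]
        _ = z ^ F a * z ^ F b * (s (φ a) * s (φ b)) := by group
        _ = z ^ F a * z ^ F b * (z ^ c (φ a) (φ b) * s (φ a * φ b)) := by rw [hsc]
        _ = z ^ (F a + F b + c (φ a) (φ b)) * s (φ a * φ b) := by
          rw [zpow_add, zpow_add, mul_assoc (z ^ F a * z ^ F b)]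
    have e3 := mul_right_cancel (e1.symm.trans e2)
    have e4 : z ^ (n * c' a b + F (a * b) - (F a + F b + c (φ a) (φ b))) = 1 := by
      rw [zpow_sub, e3, mul_inv_cancel]
    have e5 := hπ.ord _ e4
    linarith
  have hcφ : IsCoc (fun a b : Q' => c (φ a) (φ b)) := by
    intro q' q p
    have := hc (φ q') (φ q) (φ p)
    simpa only [map_mul] using this
  have hcn : IsCoc (fun a b : Q' => n * c' a b) := by
    intro q' q p
    have := hc' q' q p
    change n * c' (q' * q) p + n * c' q' q = n * c' q p + n * c' q' (q * p)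
    rw [← mul_add, this, mul_add]
  rw [← ecl_zsmul (k := k) hc' hcn n (fun _ _ => rfl), ecl_cob (k := k) hcφ hcn F h2,
    ecl_pull (k := k) φ hc hcφ (fun _ _ => rfl)]

theorem ecl_fs_lift (π : G →* Q) (s : Q → G) (hs : IsSec π s) (hcen : π.ker ≤ Subgroup.center G)
    (χ : Additive π.ker →+ ℤ) (hc : IsCoc (fun q' q => χ (Additive.ofMul (fs π s hs q' q))))
    (φ : Q' →* Q) (S : Q' → G) (hS : ∀ a, π (S a) = φ a)
    (hS' : ∀ a b, S a * S b * (S (a * b))⁻¹ ∈ π.ker) {c' : Q' → Q' → ℤ} (hc' : IsCoc c')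
    (h : ∀ a b, c' a b = χ (Additive.ofMul ⟨S a * S b * (S (a * b))⁻¹, hS' a b⟩)) :
    ecl k hc' = (rs φ (ecl k hc) : HH k Q' (Zt k Q') 2) := by
  have hu : ∀ a, S a * (s (φ a))⁻¹ ∈ π.ker := by
    intro a
    rw [MonoidHom.mem_ker, map_mul, map_inv, hS, hs.sec, mul_inv_cancel]
  let u : Q' → π.ker := fun a => ⟨S a * (s (φ a))⁻¹, hu a⟩
  have hSu : ∀ a, S a = (u a : G) * s (φ a) := fun a => by
    change S a = S a * (s (φ a))⁻¹ * s (φ a)
    rw [inv_mul_cancel_right]
  have hcm : ∀ (a : Q') (g : G), g * (u a : G) = (u a : G) * g := fun a g =>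
    Subgroup.mem_center_iff.1 (hcen (u a).2) g
  have key : ∀ a b, (⟨S a * S b * (S (a * b))⁻¹, hS' a b⟩ : π.ker) =
      u a * u b * (u (a * b))⁻¹ * fs π s hs (φ a) (φ b) := by
    intro a b
    apply Subtype.ext
    change S a * S b * (S (a * b))⁻¹ =
      (u a : G) * (u b : G) * (u (a * b) : G)⁻¹ * (s (φ a) * s (φ b) * (s (φ a * φ b))⁻¹)
    have hinv : ∀ g : G, g * (u (a * b) : G)⁻¹ = (u (a * b) : G)⁻¹ * g := by
      intro g
      have hc1 : Commute g (u (a * b) : G) := hcm (a * b) g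
      exact hc1.inv_right.eq
    rw [hSu a, hSu b, hSu (a * b), map_mul, mul_inv_rev]
    calc (u a : G) * s (φ a) * ((u b : G) * s (φ b)) * ((s (φ a * φ b))⁻¹ * (u (a * b) : G)⁻¹)
        = (u a : G) * (s (φ a) * (u b : G)) * (s (φ b) * (s (φ a * φ b))⁻¹ * (u (a * b) : G)⁻¹) := by
          group
      _ = (u a : G) * ((u b : G) * s (φ a)) *
          ((u (a * b) : G)⁻¹ * (s (φ b) * (s (φ a * φ b))⁻¹)) := by rw [hcm b, hinv]
      _ = (u a : G) * (u b : G) * (s (φ a) * (u (a * b) : G)⁻¹) *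
          (s (φ b) * (s (φ a * φ b))⁻¹) := by group
      _ = (u a : G) * (u b : G) * ((u (a * b) : G)⁻¹ * s (φ a)) *
          (s (φ b) * (s (φ a * φ b))⁻¹) := by rw [hinv]
      _ = (u a : G) * (u b : G) * (u (a * b) : G)⁻¹ *
          (s (φ a) * s (φ b) * (s (φ a * φ b))⁻¹) := by group
  have h2 : ∀ a b, c' a b = χ (Additive.ofMul (fs π s hs (φ a) (φ b))) +
      χ (Additive.ofMul (u a)) + χ (Additive.ofMul (u b)) - χ (Additive.ofMul (u (a * b))) := by
    intro a b
    rw [h a b, key a b, ofMul_mul, ofMul_mul, ofMul_mul, ofMul_inv, map_add, map_add, map_add,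
      map_neg]
    ring
  have hcφ : IsCoc (fun a b : Q' => χ (Additive.ofMul (fs π s hs (φ a) (φ b)))) := by
    intro q' q p
    have := hc (φ q') (φ q) (φ p)
    simpa only [map_mul] using this
  rw [ecl_cob (k := k) hcφ hc' (fun a => χ (Additive.ofMul (u a))) h2,
    ecl_pull (k := k) φ hc hcφ (fun _ _ => rfl)]

end

end Pool.MP0c3001.DV
end

section

/-!
# KU1: `Map(P,V)` over `G × P`

* `evx_trans`: `prod_shapiro` with `T = Unit`, `H = stabilizer G x`, `M = Mp X V`, `q = mpEv X V x`; degree `0`: a map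
  `f : P ⟶ Mp X V` is determined by `p ↦ f(p)(x)` (`f(p)(g x) = g f(g⁻¹ p)(x)`), and every
  `H`-equivariant `f₀` extends by `f(p)(g x) = g f₀(g⁻¹ p)` (choose `g_y` with `g_y x = y`; well defined by the
  `H`-equivariance).  (Same argument as `evx_inj`, `evx_surj` in P1, with one orbit.)
* `const_surj`: `x = 1 ∈ P`, `S = stabilizer (G × P) 1 = {(g, 1)}`.  Let `j : G →* S`, `j g = (g, 1)`.  For `β` put
  `β₁ = evx 1 β ∈ H^i(S; res V)`, `α = rs (fst) (rs j β₁) ∈ H^i(G × P; V)` (`rs j β₁ ∈ H^i(G; V₀)`: the coefficient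
  module restricted along `fst ∘ subtype ∘ j = id` is `V₀` definitionally).  Then
  `evx 1 (α.comp (mk₀ mpConst)) = rs S.subtype α` (proof of `evx_const`: `cmp_apply`, `mapExactFunctor_comp`,
  `mapExactFunctor_mk₀`, `res mpConst ≫ mpEv = 𝟙`) `= rs (j ∘ fst ∘ subtype) β₁ = rs id β₁ = β₁` (`rs_rs`, `rs_id`),
  so `α.comp (mk₀ mpConst) = β` by the injectivity in `evx_trans`.
-/

set_option autoImplicit false

namespace Pool.MP0c3001.DV

open CategoryTheory CategoryTheory.Abelian Limits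

noncomputable section

variable {k : Type} [CommRing k] {G : Type} [Group G]

private theorem ku1_val (X : Type) [MulAction G X] {V P : Rep.{0} k G} (f : P ⟶ Mp X V) (g : G)
    (x : X) (p : P.V) : (f.hom p : X → V.V) (g • x) = V.ρ g ((f.hom (P.ρ g⁻¹ p) : X → V.V) x) := by
  have h1 := Rep.hom_comm_apply f g (P.ρ g⁻¹ p)
  have h2 : P.ρ g (P.ρ g⁻¹ p) = p := by
    have h3 : P.ρ g (P.ρ g⁻¹ p) = (P.ρ (g * g⁻¹)) p := by
      rw [map_mul]
      rfl
    rw [h3, mul_inv_cancel, map_one]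
    rfl
  rw [h2] at h1
  have h4 := congrFun h1 (g • x)
  rw [mp_apply, inv_smul_smul] at h4
  exact h4

private theorem ku1_inj (X : Type) [MulAction G X] (V : Rep.{0} k G) (x : X)
    (hx : ∀ y : X, ∃ g : G, g • x = y) (P : Rep.{0} k G) (f f' : P ⟶ Mp X V)
    (h : (Rep.resFunctor.{0} (k := k) (MulAction.stabilizer G x).subtype).map f ≫ mpEv X V x =
      (Rep.resFunctor.{0} (k := k) (MulAction.stabilizer G x).subtype).map f' ≫ mpEv X V x) :
    f = f' := by
  have h1 : ∀ p : P.V, (f.hom p : X → V.V) x = (f'.hom p : X → V.V) x := by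
    intro p
    have h2 := congrArg (fun u => u.hom p) h
    exact h2
  apply Rep.hom_ext
  apply Representation.IntertwiningMap.ext
  apply LinearMap.ext
  intro p
  funext y
  obtain ⟨g, rfl⟩ := hx y
  change (f.hom p : X → V.V) (g • x) = (f'.hom p : X → V.V) (g • x)
  rw [ku1_val, ku1_val, h1]

private theorem ku1_surj (X : Type) [MulAction G X] (V : Rep.{0} k G) (x : X)
    (hx : ∀ y : X, ∃ g : G, g • x = y) (P : Rep.{0} k G)
    (f₀ : (Rep.resFunctor.{0} (k := k) (MulAction.stabilizer G x).subtype).obj P ⟶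
      (Rep.resFunctor.{0} (k := k) (MulAction.stabilizer G x).subtype).obj V) :
    ∃ f : P ⟶ Mp X V,
      (Rep.resFunctor.{0} (k := k) (MulAction.stabilizer G x).subtype).map f ≫ mpEv X V x = f₀ := by
  choose t ht using hx
  have hρP : ∀ (a b : G) (p : P.V), P.ρ a (P.ρ b p) = P.ρ (a * b) p := by
    intro a b p
    rw [map_mul]
    rfl
  have hρV : ∀ (a b : G) (p : V.V), V.ρ a (V.ρ b p) = V.ρ (a * b) p := by
    intro a b p
    rw [map_mul]
    rfl
  have hf₀ : ∀ (s : G), s • x = x → ∀ p : P.V,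
      (f₀.hom (P.ρ s p) : V.V) = V.ρ s (f₀.hom p : V.V) := by
    intro s hs p
    exact Rep.hom_comm_apply f₀ (⟨s, hs⟩ : MulAction.stabilizer G x) p
  refine ⟨Rep.ofHom
    { toLinearMap :=
        { toFun := fun p y => V.ρ (t y) (f₀.hom (P.ρ (t y)⁻¹ p) : V.V)
          map_add' := fun p p' => by
            funext y
            change V.ρ (t y) (f₀.hom (P.ρ (t y)⁻¹ (p + p')) : V.V) =
              V.ρ (t y) (f₀.hom (P.ρ (t y)⁻¹ p) : V.V) + V.ρ (t y) (f₀.hom (P.ρ (t y)⁻¹ p') : V.V)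
            rw [← map_add, map_add (P.ρ (t y)⁻¹)]
            exact congrArg _ (map_add f₀.hom _ _)
          map_smul' := fun c p => by
            funext y
            change V.ρ (t y) (f₀.hom (P.ρ (t y)⁻¹ (c • p)) : V.V) =
              c • V.ρ (t y) (f₀.hom (P.ρ (t y)⁻¹ p) : V.V)
            rw [← map_smul, map_smul (P.ρ (t y)⁻¹)]
            exact congrArg _ (map_smul f₀.hom _ _) }
      isIntertwining' := ?_ }, ?_⟩
  · intro g
    apply LinearMap.ext
    intro p
    funext y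
    change V.ρ (t y) (f₀.hom (P.ρ (t y)⁻¹ (P.ρ g p)) : V.V) =
      V.ρ g (V.ρ (t (g⁻¹ • y)) (f₀.hom (P.ρ (t (g⁻¹ • y))⁻¹ p) : V.V))
    have hs : ((t y)⁻¹ * g * t (g⁻¹ • y)) • x = x := by
      rw [mul_smul, ht, mul_smul, smul_inv_smul, inv_smul_eq_iff, ht]
    have e1 : P.ρ (t y)⁻¹ (P.ρ g p) =
        P.ρ ((t y)⁻¹ * g * t (g⁻¹ • y)) (P.ρ (t (g⁻¹ • y))⁻¹ p) := by
      rw [hρP, hρP, mul_inv_cancel_right]
    rw [e1, hf₀ _ hs, hρV, hρV]
    congr 2
    group
  · apply Rep.hom_ext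
    apply Representation.IntertwiningMap.ext
    apply LinearMap.ext
    intro p
    change V.ρ (t x) (f₀.hom (P.ρ (t x)⁻¹ p) : V.V) = f₀.hom p
    have hs : (t x)⁻¹ • x = x := by
      rw [inv_smul_eq_iff, ht]
    rw [hf₀ _ hs, hρV, mul_inv_cancel, map_one]
    rfl

theorem evx_trans (X : Type) [MulAction G X] (V : Rep.{0} k G) (x : X)
    (hx : ∀ y : X, ∃ g : G, g • x = y) (i : ℕ) : Function.Bijective (evx X V x i) := by
  have hb := prod_shapiro (T := Unit) (fun _ => MulAction.stabilizer G x) (Mp X V)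
    (fun _ => (Rep.resFunctor.{0} (k := k) (MulAction.stabilizer G x).subtype).obj V)
    (fun _ => mpEv X V x) (fun P => ⟨fun f f' h => ku1_inj X V x hx P f f' (congrFun h ()),
      fun f₀ => by
        obtain ⟨f, hf⟩ := ku1_surj X V x hx P (f₀ ())
        exact ⟨f, funext fun _ => hf⟩⟩) (Zt k G) i
  constructor
  · intro a b hab
    exact hb.1 (funext fun _ => hab)
  · intro b
    obtain ⟨a, ha⟩ := hb.2 (fun _ => b)
    exact ⟨a, congrFun ha ()⟩

private theorem ku1_const (X : Type) [MulAction G X] (V : Rep.{0} k G) (x : X) {i : ℕ}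
    (α : HH k G V i) : evx X V x i (α.comp (Ext.mk₀ (mpConst X V)) (add_zero i)) =
      rs (MulAction.stabilizer G x).subtype α := by
  unfold evx
  rw [cmp_apply, Ext.mapExactFunctor_comp, Ext.mapExactFunctor_mk₀]
  have e1 : (Rep.resFunctor.{0} (k := k) (MulAction.stabilizer G x).subtype).map (mpConst X V) ≫
      mpEv X V x = 𝟙 _ := rfl
  rw [Ext.comp_assoc_of_third_deg_zero, Ext.mk₀_comp_mk₀, e1, Ext.comp_mk₀_id]
  exact Ext.mk₀_id_comp _

private theorem ku1_id {S : Type} [Group S] {V W : Rep.{0} k S} (f : S →* S)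
    (hf : f = MonoidHom.id S) (hV : (Rep.resFunctor.{0} (k := k) f).obj V = V)
    (hW : (Rep.resFunctor.{0} (k := k) f).obj W = W) {i : ℕ} (x : Ext.{0} V W i) :
    cast (by rw [hV, hW]) (rs f x) = x := by
  subst hf
  exact rs_id x

/-- `G × P` acts on `P` by `(g, p) x = p x`. -/
abbrev pAct (G P : Type) [Group G] [Group P] : MulAction (G × P) P where
  smul γ x := γ.2 * x
  one_smul x := one_mul x
  mul_smul γ γ' x := mul_assoc γ.2 γ'.2 x

/-- inflation of a module along `G × P → G` -/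
abbrev infl {G : Type} [Group G] (P : Type) [Group P] (V₀ : Rep.{0} k G) : Rep.{0} k (G × P) :=
  (Rep.resFunctor.{0} (k := k) (MonoidHom.fst G P)).obj V₀

theorem const_surj (P : Type) [Group P] (V₀ : Rep.{0} k G) (i : ℕ)
    (β : HH k (G × P) (@Mp k _ (G × P) _ P (pAct G P) (infl P V₀)) i) :
    ∃ α : HH k (G × P) (infl P V₀) i,
      α.comp (Ext.mk₀ (@mpConst k _ (G × P) _ P (pAct G P) (infl P V₀))) (add_zero i) = β := by
  let _ : MulAction (G × P) P := pAct G P
  let S : Subgroup (G × P) := MulAction.stabilizer (G × P) (1 : P)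
  have hS : ∀ s : S, (s : G × P).2 = 1 := by
    intro s
    have h1 : (s : G × P).2 * 1 = 1 := s.2
    rwa [mul_one] at h1
  let j : G →* S :=
    { toFun := fun g => ⟨(g, 1), mul_one (1 : P)⟩
      map_one' := rfl
      map_mul' := fun a b => Subtype.ext (Prod.ext rfl (mul_one (1 : P)).symm) }
  have hj : j.comp ((MonoidHom.fst G P).comp S.subtype) = MonoidHom.id S := by
    apply MonoidHom.ext
    intro s
    apply Subtype.ext
    exact Prod.ext rfl (hS s).symm
  let β₁ : HH k S ((Rep.resFunctor.{0} (k := k) S.subtype).obj (infl P V₀)) i :=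
    evx P (infl P V₀) (1 : P) i β
  let β₂ : HH k G V₀ i := rs j β₁
  let α : HH k (G × P) (infl P V₀) i := rs (MonoidHom.fst G P) β₂
  refine ⟨α, ?_⟩
  have hb := evx_trans P (infl P V₀) (1 : P) (fun y => ⟨(1, y), mul_one y⟩) i
  apply hb.1
  rw [ku1_const]
  have e1 := rs_rs (k := k) (MonoidHom.fst G P) S.subtype β₂
  have e2 := rs_rs (k := k) j ((MonoidHom.fst G P).comp S.subtype) β₁
  have e3 := ku1_id _ hj rfl rfl β₁
  exact (e1.trans e2).trans e3

end

end Pool.MP0c3001.DV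
end
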