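import Pool.Agent.Lib.MP_0c3001_gt.Mg.G009
import Pool.Agent.Lib.MP_0c3001_gt.Mg.G010

section

/-!
# L1: Euler classes of centralizers of roots (corollaries of `euler_nat`)

* `euler_Qr`: `π' = crMap hπ r : Cn r → Q_r`, `z' = z`, `ψ` the inclusion `Cn r → G`, `φ` the inclusion
  `Q_r → Q`, `n = 1`.
* `euler_root`: `π' = crMap hπ r`, `z' = z = (rc r) ^ l`, `π = π₁ : Cn r → Q₁` with `z = rc r`, `ψ = id`,
  `φ : Q_r → Q₁` from `exists_factor`, `n = l`; combine with `euler_Qr` (choose a cocycle of `crMap` by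
  `exists_fitsZ (crCyc hπ r)`).
* `euler_mu`: `π = mu`, `π' = crMap hπ r`, `ψ g = (g, 1)`, `φ = id` (`rs_id`), `ψ z = (rc r)^l = ((rc r)⁻¹, ofAdd 1) ^ (-l)`:
  `(-l) • e_z = e_mu`; combine with `euler_Qr`.
-/

set_option autoImplicit false

namespace Pool.MP0c3001.DV

open CategoryTheory CategoryTheory.Abelian Limits

noncomputable section

variable {k : Type} [CommRing k] {G Q : Type} [Group G] [Group Q] {z : G} {l : ℕ}

theorem euler_Qr {π : G →* Q} (hπ : CycExt π z) (r : Rt z l) {c : Q → Q → ℤ} (hc : IsCoc c)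
    (hf : FitsZ π z c) {c' : Qr hπ l r → Qr hπ l r → ℤ} (hc' : IsCoc c')
    (hf' : FitsZ (crMap hπ r) ⟨z, z_mem_Cn hπ r.1⟩ c') :
    ecl k hc' = (rs (Qr hπ l r).subtype (ecl k hc) : HH k (Qr hπ l r) (Zt k (Qr hπ l r)) 2) := by
  have h := euler_nat (k := k) hπ (crCyc hπ r) (Cn r.1).subtype (Qr hπ l r).subtype
    (fun _ => rfl) 1 (zpow_one z).symm hc hf hc' hf'
  rw [one_zsmul] at h
  exact h

theorem euler_root {π : G →* Q} (hπ : CycExt π z) (r : Rt z l) {c : Q → Q → ℤ} (hc : IsCoc c)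
    (hf : FitsZ π z c) {Q₁ : Type} [Group Q₁] {π₁ : Cn r.1 →* Q₁} (hπ₁ : CycExt π₁ (rc r))
    {c₁ : Q₁ → Q₁ → ℤ} (hc₁ : IsCoc c₁) (hf₁ : FitsZ π₁ (rc r) c₁) :
    ∃ φ : Qr hπ l r →* Q₁, (∀ g, φ (crMap hπ r g) = π₁ g) ∧
      l • (rs (Qr hπ l r).subtype (ecl k hc) : HH k (Qr hπ l r) (Zt k (Qr hπ l r)) 2) =
        rs φ (ecl k hc₁) := by
  obtain ⟨c', hc', hf'⟩ := exists_fitsZ (crCyc hπ r)
  have h1 : π₁ ⟨z, z_mem_Cn hπ r.1⟩ = 1 := by
    rw [← rc_pow hπ r, map_pow, hπ₁.map_z, one_pow]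
  obtain ⟨φ, hφ⟩ := exists_factor (crCyc hπ r) π₁ h1
  refine ⟨φ, hφ, ?_⟩
  have h := euler_nat (k := k) hπ₁ (crCyc hπ r) (MonoidHom.id _) φ (fun g => hφ g) (l : ℤ)
    (by rw [zpow_natCast, rc_pow hπ r]; rfl) hc₁ hf₁ hc' hf'
  rw [natCast_zsmul, euler_Qr hπ r hc hf hc' hf'] at h
  exact h

theorem euler_mu {π : G →* Q} (hπ : CycExt π z) (r : Rt z l) {c : Q → Q → ℤ} (hc : IsCoc c)
    (hf : FitsZ π z c) {mu : Cn r.1 × Multiplicative (ZMod l) →* Qr hπ l r}
    (hmu : CycExt mu ((rc r)⁻¹, Multiplicative.ofAdd 1)) (h1 : ∀ g, mu (g, 1) = crMap hπ r g)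
    {c' : Qr hπ l r → Qr hπ l r → ℤ} (hc' : IsCoc c')
    (hf' : FitsZ mu ((rc r)⁻¹, Multiplicative.ofAdd 1) c') :
    ecl k hc' = (-(l : ℤ)) •
      (rs (Qr hπ l r).subtype (ecl k hc) : HH k (Qr hπ l r) (Zt k (Qr hπ l r)) 2) := by
  obtain ⟨c₂, hc₂, hf₂⟩ := exists_fitsZ (crCyc hπ r)
  have h := euler_nat (k := k) hmu (crCyc hπ r) (MonoidHom.inl _ _) (MonoidHom.id _)
    (fun g => (h1 g).symm) (-(l : ℤ)) (by
      rw [zpow_neg, zpow_natCast, Prod.pow_mk, Prod.inv_mk, inv_pow, inv_inv, rc_pow hπ r,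
        ← ofAdd_nsmul, nsmul_eq_mul, mul_one, ZMod.natCast_self, ofAdd_zero, inv_one]
      rfl) hc' hf' hc₂ hf₂
  rw [euler_Qr hπ r hc hf hc₂ hf₂] at h
  exact (h.trans (rs_id _)).symm

end

end Pool.MP0c3001.DV
end

section

/-!
# F1: the powers of the Euler class are not divisible by `l` on `Q_r`

Suppose the class vanishes.  Then `x := rs (Qr..).subtype (epow e κ) = l • y` over `Q_r` (`dvd_of_qm`).  Let
`P = zpowers ρ`, `ρ = crMap hπ r (rc r) ∈ Q_r` (a subgroup of `Q_r`), `Z = zpowers (rc r) ≤ Cn r.1`, and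
`π_P : Z →* P` the restriction of `crMap`, which is a cyclic central extension with kernel generated by
`z = (rc r) ^ l` (`crCyc`).  `P` is finite of order `l`: `ρ ^ l = 1`, and `ρ ≠ 1` (otherwise `r = z ^ n = r ^ (l n)`,
`l n = 1`, impossible).  Let `e_P` be the restriction of `e` to `P` (via `Q_r`): it is the Euler class of
`π_P` (`euler_nat` with `n = 1`, `ψ : Z → G` the inclusion).  `l • e_P = 0`: `euler_nat` with `π' = π_P`, `z' = z`,
`π : Z → Unit` (or any trivial group) with kernel generated by `rc r`, `ψ = id`, `n = l`: `l • e_P` is the pull-back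
of a class in `H²(1;k) = 0` (a positive degree `Ext` over the trivial group vanishes: `Zt` is projective, see
`coind_zero`, `Rep.trivial_projective_of_subsingleton`).
Restrict `x = l • y` to `P` and multiply with `e_P`: `epow e_P (κ+1) = e_P.comp (l • y_P) = (l • e_P).comp y_P = 0`.
`Z` satisfies `Kills k Z m N` (subgroups; as a subgroup of `Cn r.1`, itself a subgroup of `G`), so by
`gysin_inj` and `step_kills` (`m' = 1`) `P` satisfies `Kills k P (m ^ (κ+1)) N`, hence `l = Nat.card P ∣ m ^ (κ+1)`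
(`card_dvd_of_kills`), `l ∣ m`, contradiction.
-/

set_option autoImplicit false

namespace Pool.MP0c3001.DV

open CategoryTheory CategoryTheory.Abelian Limits

noncomputable section

variable {k : Type} [CommRing k] {G Q : Type} [Group G] [Group Q] {z : G} {l : ℕ}

/-- positive degree cohomology of the trivial group -/
private theorem F1_triv (x : HH k Unit (Zt k Unit) 2) : x = 0 := by
  have hP : Projective (Rep.trivial k Unit k) := Rep.trivial_projective_of_subsingleton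
  have hP' : Projective (Zt k Unit) := hP
  exact Ext.eq_zero_of_projective (x : Ext.{0} (Zt k Unit) (Zt k Unit) (1 + 1))

/-- the map of a cyclic group onto its image -/
private def F1_map {H K : Type} [Group H] [Group K] (f : H →* K) (u : H) :
    Subgroup.zpowers u →* Subgroup.zpowers (f u) :=
  (f.comp (Subgroup.zpowers u).subtype).codRestrict (Subgroup.zpowers (f u)) (by
    rintro ⟨x, hx⟩
    obtain ⟨n, rfl⟩ := Subgroup.mem_zpowers_iff.1 hx
    exact Subgroup.mem_zpowers_iff.2 ⟨n, (map_zpow f u n).symm⟩)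

private theorem F1_map_apply {H K : Type} [Group H] [Group K] (f : H →* K) (u : H)
    (x : Subgroup.zpowers u) : (F1_map f u x : K) = f x.1 := rfl

/-- restriction of a cyclic extension to the cyclic group generated by a root of the generator -/
private theorem F1_cyc {H K : Type} [Group H] [Group K] {f : H →* K} {v : H} (h : CycExt f v)
    (u : H) (hv : v ∈ Subgroup.zpowers u) : CycExt (F1_map f u) ⟨v, hv⟩ := by
  refine ⟨?_, ?_, ?_, ?_, ?_⟩
  · rintro ⟨y, hy⟩
    obtain ⟨n, rfl⟩ := Subgroup.mem_zpowers_iff.1 hy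
    exact ⟨⟨u ^ n, Subgroup.mem_zpowers_iff.2 ⟨n, rfl⟩⟩, Subtype.ext (map_zpow f u n)⟩
  · exact Subtype.ext h.map_z
  · intro g hg
    obtain ⟨n, hn⟩ := h.ker g.1 (congrArg Subtype.val hg)
    exact ⟨n, Subtype.ext (by rw [hn]; rfl)⟩
  · intro n hn
    exact h.ord n (congrArg Subtype.val hn)
  · intro g
    exact Subtype.ext (h.cen g.1)

/-- an infinite cyclic group as extension of the trivial group -/
private theorem F1_unit {H : Type} [Group H] (u : H) (hu : ∀ n : ℤ, u ^ n = 1 → n = 0) :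
    CycExt (1 : Subgroup.zpowers u →* Unit) ⟨u, Subgroup.mem_zpowers u⟩ := by
  refine ⟨?_, rfl, ?_, ?_, ?_⟩
  · intro y
    exact ⟨1, rfl⟩
  · rintro ⟨x, hx⟩ _
    obtain ⟨n, rfl⟩ := Subgroup.mem_zpowers_iff.1 hx
    exact ⟨n, rfl⟩
  · intro n hn
    exact hu n (congrArg Subtype.val hn)
  · rintro ⟨x, hx⟩
    obtain ⟨n, rfl⟩ := Subgroup.mem_zpowers_iff.1 hx
    exact Subtype.ext ((Commute.refl u).zpow_right n).eq

theorem euler_ne (hk : Function.Bijective (Int.cast : ℤ → k)) {π : G →* Q} (hπ : CycExt π z)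
    (hl : l.Prime) {m N : ℕ} (hlm : ¬ l ∣ m) (hN : 1 ≤ N) (hK : Kills k G m N) {c : Q → Q → ℤ}
    (hc : IsCoc c) (hf : FitsZ π z c) (r : Rt z l) (κ : ℕ) :
    (rs (Qr hπ l r).subtype (epow (ecl k hc) κ) : HH k (Qr hπ l r) (Zt k (Qr hπ l r)) (2 * κ)).comp
      (Ext.mk₀ (qm k (Qr hπ l r) l)) (add_zero (2 * κ)) ≠ 0 := by
  intro hx
  obtain ⟨y, hy⟩ := dvd_of_qm hk hl.pos _ hx
  -- orders
  have hr0 : ∀ n : ℤ, (rc r) ^ n = 1 → n = 0 := by
    intro n hn
    have h1 : r.1 ^ n = 1 := congrArg Subtype.val hn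
    apply hπ.ord n
    rw [← r.2, ← zpow_natCast, ← zpow_mul, mul_comm, zpow_mul, h1, one_zpow]
  have hmem : (⟨z, z_mem_Cn hπ r.1⟩ : Cn r.1) ∈ Subgroup.zpowers (rc r) := by
    rw [← rc_pow hπ r]
    exact Subgroup.npow_mem_zpowers _ _
  have hπP := F1_cyc (crCyc hπ r) (rc r) hmem
  obtain ⟨cP, hcP, hfP⟩ := exists_fitsZ hπP
  have hU := F1_unit (rc r) hr0
  obtain ⟨c₀, hc₀, hf₀⟩ := exists_fitsZ hU
  -- the Euler class of the restriction
  have e1 := euler_nat (k := k) hπ hπP ((Cn r.1).subtype.comp (Subgroup.zpowers (rc r)).subtype)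
    ((Qr hπ l r).subtype.comp (Subgroup.zpowers (crMap hπ r (rc r))).subtype) (fun g => rfl) 1
    (by rw [zpow_one]; rfl) hc hf hcP hfP
  rw [one_zsmul] at e1
  -- it is killed by `l`
  have e2 := euler_nat (k := k) hU hπP (MonoidHom.id _)
    (1 : Subgroup.zpowers (crMap hπ r (rc r)) →* Unit) (fun g => rfl) (l : ℤ)
    (by
      apply Subtype.ext
      have h1 := rc_pow hπ r
      rw [← zpow_natCast] at h1
      exact h1.symm) hc₀ hf₀ hcP hfP
  have e3 : (l : ℤ) • ecl k hcP = 0 := by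
    rw [e2, F1_triv (ecl k hc₀)]
    exact map_zero ((Rep.resFunctor.{0} (k := k)
      (1 : Subgroup.zpowers (crMap hπ r (rc r)) →* Unit)).mapExtAddHom (Zt k Unit) (Zt k Unit) 2)
  have e4 : l • ecl k hcP = 0 := by
    rw [← natCast_zsmul]
    exact e3
  -- restrict the divisibility
  have e5 : ∃ yP : HH k (Subgroup.zpowers (crMap hπ r (rc r)))
      (Zt k (Subgroup.zpowers (crMap hπ r (rc r)))) (2 * κ), epow (ecl k hcP) κ = l • yP := by
    refine ⟨rs (Subgroup.zpowers (crMap hπ r (rc r))).subtype y, ?_⟩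
    rw [e1]
    have h1 := rs_epow (k := k) ((Qr hπ l r).subtype.comp
      (Subgroup.zpowers (crMap hπ r (rc r))).subtype) (ecl k hc) κ
    have h2 := rs_rs (k := k) (Qr hπ l r).subtype (Subgroup.zpowers (crMap hπ r (rc r))).subtype
      (epow (ecl k hc) κ)
    have h3 := rs_nsmul (k := k) (Subgroup.zpowers (crMap hπ r (rc r))).subtype l y
    have h4 := congrArg (fun t : HH k (Qr hπ l r) (Zt k (Qr hπ l r)) (2 * κ) =>
      (rs (Subgroup.zpowers (crMap hπ r (rc r))).subtype t :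
        HH k (Subgroup.zpowers (crMap hπ r (rc r)))
          (Zt k (Subgroup.zpowers (crMap hπ r (rc r)))) (2 * κ))) hy
    exact h1.symm.trans (h2.symm.trans (h4.trans h3))
  obtain ⟨yP, hyP⟩ := e5
  have e6 : epow (ecl k hcP) (κ + 1) = 0 := by
    change (ecl k hcP).comp (epow (ecl k hcP) κ) _ = 0
    rw [hyP, comp_nsmul', ← nsmul_comp', e4, Ext.zero_comp]
  -- finite group
  have hl2 := hl.two_le
  have hρ : crMap hπ r (rc r) ^ l = 1 := by
    rw [← map_pow, rc_pow hπ r]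
    exact (crCyc hπ r).map_z
  have hρ1 : crMap hπ r (rc r) ≠ 1 := by
    intro h1
    obtain ⟨n, hn⟩ := (crCyc hπ r).ker _ h1
    rw [← rc_pow hπ r, ← zpow_natCast, ← zpow_mul] at hn
    have h2 : (rc r) ^ ((l : ℤ) * n - 1) = 1 := by
      rw [zpow_sub, zpow_one, ← hn, mul_inv_cancel]
    have h3 := hr0 _ h2
    have h4 : (l : ℤ) * n = 1 := by linarith
    have h5 : (l : ℤ) ∣ 1 := ⟨n, h4.symm⟩
    have h6 : l ∣ 1 := by exact_mod_cast h5
    have h7 := Nat.le_of_dvd one_pos h6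
    omega
  have : Fact l.Prime := ⟨hl⟩
  have hord : orderOf (crMap hπ r (rc r)) = l := orderOf_eq_prime hρ hρ1
  have hfin : Finite (Subgroup.zpowers (crMap hπ r (rc r))) := by
    apply IsOfFinOrder.finite_zpowers
    rw [← orderOf_pos_iff, hord]
    exact hl.pos
  -- the bound
  have hKZ : Kills k (Subgroup.zpowers (rc r)) m N := (hK.subgroup (Cn r.1)).subgroup _
  have hfits : Fits (F1_map (crMap hπ r) (rc r)) ⟨_, hmem⟩
      (fun a b => Int.castAddHom k (cP a b)) := by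
    obtain ⟨s, hs, j, hj, hcj⟩ := hfP
    exact ⟨s, hs, j, hj, fun a b => by
      change ((cP a b : ℤ) : k) = _
      rw [hcj]⟩
  have hKP := step_kills (k := k) (ecl k hcP) m N (fun V i hi α hα =>
    gysin_inj hπP (hcP.map (Int.castAddHom k)) hfits hKZ V i (le_trans hN hi) (by omega) α hα)
    (κ + 1) 1 (by rw [one_nsmul]; exact e6)
  have h8 := card_dvd_of_kills hk hKP
  rw [Nat.card_zpowers, hord, one_mul] at h8
  exact hlm (hl.dvd_of_dvd_pow h8)

end

end Pool.MP0c3001.DV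
end
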