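import Pool.Agent.Lib.MP_0c3001_gt.DV.Defs
import Pool.Agent.Lib.MP_0c3001_gt.Mg.G009

section

/-!
# S06a: extension of `m` over a projective in a tower of syzygies

Let `0 → A_{n+1} → P_n → A_n → 0` be short exact with `P_n` projective and let `m` kill
`Ext^{N+1}(A_0, V)` for all `V`.  Then `m : A_{N+1} → A_{N+1}` extends to `P_N`.

Proof.  (1) For `j ≥ 1` the map `(h n).extClass.comp : Ext^j(A_{n+1},V) → Ext^{j+1}(A_n,V)` is injective
(`Ext.contravariant_sequence_exact₁` and `Ext.eq_zero_of_projective`; compare `kills_Iaug` in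
`Gysin.lean`).  So by induction on `n ≤ N`: `m` kills `Ext^{N+1-n}(A_n,V)`; for `n = N`: `m` kills
`Ext^1(A_N,V)`.  (2) `m • (h N).extClass = 0` in `Ext^1(A_N, A_{N+1})`, i.e.
`(h N).extClass.comp (mk₀ (m • 𝟙)) = 0`; by `Ext.contravariant_sequence_exact₁` in degree `0`
(`a₁ = mk₀ (m • 𝟙)`, `(mk₀ (ι N)).comp x₂ = mk₀ (m • 𝟙)`, `x₂ ∈ Ext^0(P_N, A_{N+1})` is `mk₀ f`).
-/

set_option autoImplicit false

namespace Pool.MP0c3001.DV

open CategoryTheory CategoryTheory.Abelian Limits

noncomputable section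

universe u v

variable {C : Type u} [Category.{v} C] [Abelian C] [HasExt.{0} C]

private lemma tower_kills {A P : ℕ → C} {ι : ∀ n, A (n + 1) ⟶ P n} {p : ∀ n, P n ⟶ A n}
    {w : ∀ n, ι n ≫ p n = 0} (h : ∀ n, (ShortComplex.mk (ι n) (p n) (w n)).ShortExact)
    (hP : ∀ n, Projective (P n)) (N m : ℕ)
    (hm : ∀ (V : C) (x : Ext.{0} (A 0) V (N + 1)), m • x = 0) :
    ∀ n j : ℕ, n + j = N → ∀ (V : C) (x : Ext.{0} (A n) V (j + 1)), m • x = 0 := by
  intro n
  induction n with
  | zero =>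
    intro j hj V x
    obtain rfl : j = N := by omega
    exact hm V x
  | succ n ih =>
    intro j hj V x
    have h1 : (h n).extClass.comp (m • x) (show 1 + (j + 1) = j + 1 + 1 by omega) = 0 := by
      rw [comp_nsmul']
      exact ih (j + 1) (by omega) V _
    obtain ⟨x₂, hx₂⟩ := Ext.contravariant_sequence_exact₁ (h n) V _ _ h1
    have : Projective (ShortComplex.mk (ι n) (p n) (w n)).X₂ := hP n
    have h0 : x₂ = 0 := Ext.eq_zero_of_projective _
    rw [← hx₂, h0, Ext.comp_zero]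

theorem tower_extend {A P : ℕ → C} {ι : ∀ n, A (n + 1) ⟶ P n} {p : ∀ n, P n ⟶ A n}
    {w : ∀ n, ι n ≫ p n = 0} (h : ∀ n, (ShortComplex.mk (ι n) (p n) (w n)).ShortExact)
    (hP : ∀ n, Projective (P n)) (N m : ℕ)
    (hm : ∀ (V : C) (x : Ext.{0} (A 0) V (N + 1)), m • x = 0) :
    ∃ f : P N ⟶ A (N + 1), ι N ≫ f = m • 𝟙 (A (N + 1)) := by
  have hk := tower_kills h hP N m hm N 0 (by omega) (A (N + 1)) (h N).extClass
  have h1 : (h N).extClass.comp (Ext.mk₀ (m • 𝟙 (A (N + 1)))) (show 1 + 0 = 1 by omega) = 0 := by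
    have h2 : Ext.mk₀ (m • 𝟙 (A (N + 1))) = m • Ext.mk₀ (𝟙 (A (N + 1))) :=
      map_nsmul (Ext.addEquiv₀ (X := A (N + 1)) (Y := A (N + 1))).symm m (𝟙 (A (N + 1)))
    rw [h2, comp_nsmul', Ext.comp_mk₀_id]
    exact hk
  obtain ⟨x₂, hx₂⟩ := Ext.contravariant_sequence_exact₁ (h N) (A (N + 1)) _ _ h1
  obtain ⟨f, rfl⟩ := Ext.addEquiv₀.symm.surjective x₂
  refine ⟨f, ?_⟩
  apply Ext.mk₀_bijective _ _ |>.1
  rw [← hx₂]
  simp

end

end Pool.MP0c3001.DV
end

section

/-!
# S07: dimension shifting along an acyclic resolution with an endomorphism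

Dual of `Tower.lean`.  `0 → M_0 → M_1 → M_2 → …` is exact, `H^i(E;M_n) = 0` for `i, n ≥ 1`, `β` is an
endomorphism of the complex, `β_0 = μ`, `β_n = 0` for `n > n₀`.  Then `μ` kills `H^i(E;M_0)` for
`i ≥ n₀`.

Proof.  `K_n = ker (δ_n : M_n → M_{n+1})` for `n ≥ 1` (`kerRep`, `kerInc` of `Free.lean`), `K_1 ≅ M_0` via
`δ_0`; it is convenient to use the short exact sequences
`0 → M_0 → M_1 → K_2 → 0` (maps `δ_0` and the corestriction of `δ_1`) and
`0 → K_n → M_n → K_{n+1} → 0` for `n ≥ 2` (`shortExact_of`), with the endomorphisms induced by `β`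
(`β` preserves kernels by `hcomm`).  Claim (induction on `i`, for all `n ≥ 1`; write `A_1 = M_0`,
`A_n = K_n` for `n ≥ 2`): every `x ∈ H^i(E;A_n)` is of the form `x = y.comp e` with
`y ∈ Ext^0(Zt, A_{n+i})` and `e ∈ Ext^i(A_{n+i}, A_n)` satisfying `(mk₀ β_{n+i}).comp e = e.comp (mk₀ β_n)`
(`Ext.covariant_sequence_exact₁` (`H^i(E;M_n) = 0` for `i ≥ 1`), `extClass_naturality` as in `tower`).
For `n = 1`: `μ • x = x.comp (mk₀ β) = y.comp ((mk₀ β_{i+1}).comp e) = 0` as `i + 1 > n₀`.
For `i = 0` this means `n₀ = 0`, `x = mk₀ φ`, `φ : Zt → M_0`, `δ_0 (μ φ) = β_1 (δ_0 φ) = 0`, `δ_0` injective.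
-/

set_option autoImplicit false

namespace Pool.MP0c3001.DV

open CategoryTheory CategoryTheory.Abelian Limits

noncomputable section

section Gen

universe u v

variable {C : Type u} [Category.{v} C] [Abelian C] [HasExt.{0} C]

variable {A P : ℕ → C} {ι : ∀ n, A n ⟶ P n} {p : ∀ n, P n ⟶ A (n + 1)}
  {w : ∀ n, ι n ≫ p n = 0} (h : ∀ n, (ShortComplex.mk (ι n) (p n) (w n)).ShortExact)
  (X : C) (hP : ∀ n i, ∀ x : Ext.{0} X (P n) (i + 1), x = 0)
  (β : ∀ n, A n ⟶ A n) (γ : ∀ n, P n ⟶ P n)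
  (h1 : ∀ n, ι n ≫ γ n = β n ≫ ι n) (h2 : ∀ n, γ n ≫ p n = p n ≫ β (n + 1))

include h hP h1 h2 in
private theorem S07_gen (i : ℕ) : ∀ n m : ℕ, n + i = m → ∃ e : Ext.{0} (A m) (A n) i,
    (∀ x : Ext.{0} X (A n) i, ∃ φ : X ⟶ A m, x = (Ext.mk₀ φ).comp e (zero_add i)) ∧
    (Ext.mk₀ (β m)).comp e (zero_add i) = e.comp (Ext.mk₀ (β n)) (add_zero i) := by
  induction i with
  | zero =>
    rintro n m rfl
    refine ⟨Ext.mk₀ (𝟙 (A n)), fun x => ?_, ?_⟩
    · obtain ⟨φ, rfl⟩ := (Ext.mk₀_bijective X (A n)).2 x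
      exact ⟨φ, by
        change _ = (Ext.mk₀ φ).comp (Ext.mk₀ (𝟙 (A n))) _
        rw [Ext.mk₀_comp_mk₀]; simp⟩
    · change (Ext.mk₀ (β n)).comp (Ext.mk₀ (𝟙 (A n))) _ =
        (Ext.mk₀ (𝟙 (A n))).comp (Ext.mk₀ (β n)) _
      rw [Ext.mk₀_comp_mk₀, Ext.mk₀_comp_mk₀, Category.comp_id, Category.id_comp]
  | succ i ih =>
    intro n m hm
    obtain ⟨e', he1, he2⟩ := ih (n + 1) m (by omega)
    refine ⟨e'.comp (h n).extClass rfl, fun x => ?_, ?_⟩
    · obtain ⟨y, hy⟩ := Ext.covariant_sequence_exact₁ X (h n) x (hP n i _) rfl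
      obtain ⟨φ, rfl⟩ := he1 y
      refine ⟨φ, ?_⟩
      rw [← hy]
      exact Ext.comp_assoc _ _ _ (zero_add i) rfl (by omega)
    · let F : ShortComplex.mk (ι n) (p n) (w n) ⟶ ShortComplex.mk (ι n) (p n) (w n) :=
        { τ₁ := β n, τ₂ := γ n, τ₃ := β (n + 1), comm₁₂ := (h1 n).symm, comm₂₃ := h2 n }
      have hnat := ShortComplex.ShortExact.extClass_naturality (h n) (h n) F
      have hnat' : (h n).extClass.comp (Ext.mk₀ (β n)) (add_zero 1) =
        (Ext.mk₀ (β (n + 1))).comp (h n).extClass (zero_add 1) := hnat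
      refine (Ext.comp_assoc (Ext.mk₀ (β m)) e' (h n).extClass (zero_add i) rfl
        (by omega)).symm.trans ?_
      rw [he2]
      refine (Ext.comp_assoc e' (Ext.mk₀ (β (n + 1))) (h n).extClass (add_zero i) (zero_add 1)
        (by omega)).trans ?_
      rw [← hnat']
      exact (Ext.comp_assoc e' (h n).extClass (Ext.mk₀ (β n)) rfl (add_zero 1) (by omega)).symm

end Gen

variable {k : Type} [CommRing k] {E : Type} [Group E]

/-- corestriction to a kernel -/
private def kerLift {A B D : Rep.{0} k E} (g : B ⟶ D) (f : A ⟶ B)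
    (h : ∀ a : A.V, g.hom (f.hom a) = 0) : A ⟶ kerRep g :=
  Rep.ofHom
    { toLinearMap := LinearMap.codRestrict (LinearMap.ker g.hom.toLinearMap) f.hom.toLinearMap h
      isIntertwining' := by
        intro x
        apply LinearMap.ext
        intro v
        apply Subtype.ext
        change f.hom (A.ρ x v) = B.ρ x (f.hom v)
        exact Rep.hom_comm_apply f x v }

private theorem kerLift_apply {A B D : Rep.{0} k E} (g : B ⟶ D) (f : A ⟶ B)
    (h : ∀ a : A.V, g.hom (f.hom a) = 0) (a : A.V) : ((kerLift g f h).hom a).1 = f.hom a := rfl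

private theorem rep_ext {A B : Rep.{0} k E} {f g : A ⟶ B} (h : ∀ a : A.V, f.hom a = g.hom a) :
    f = g := by
  apply Rep.hom_ext
  apply Representation.IntertwiningMap.ext
  apply LinearMap.ext
  intro v
  exact h v

private theorem nsmul_hom {A B : Rep.{0} k E} (n : ℕ) (f : A ⟶ B) (a : A.V) :
    (n • f).hom a = n • f.hom a := by
  induction n with
  | zero =>
    rw [zero_smul, zero_smul]
    rfl
  | succ n ih =>
    rw [succ_nsmul, succ_nsmul, ← ih]
    rfl

private theorem nsmul_mk₀ {A B : Rep.{0} k E} (n : ℕ) (f : A ⟶ B) :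
    n • Ext.mk₀ f = Ext.mk₀ (n • f) := by
  induction n with
  | zero => rw [zero_smul, zero_smul, Ext.mk₀_zero]
  | succ n ih => rw [succ_nsmul, succ_nsmul, ih, Ext.mk₀_add]

theorem dual_tower (M : ℕ → Rep.{0} k E) (δ : ∀ n, M n ⟶ M (n + 1)) (β : ∀ n, M n ⟶ M n)
    (hcomm : ∀ n, β n ≫ δ n = δ n ≫ β (n + 1))
    (hinj : Function.Injective (δ 0).hom)
    (hex : ∀ (n : ℕ) (f : (M (n + 1)).V), (δ (n + 1)).hom f = 0 → ∃ f' : (M n).V, (δ n).hom f' = f)
    (hdd : ∀ (n : ℕ) (f : (M n).V), (δ (n + 1)).hom ((δ n).hom f) = 0)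
    (hacy : ∀ n i, 1 ≤ n → 1 ≤ i → ∀ x : HH k E (M n) i, x = 0)
    (μ n₀ : ℕ) (h0 : ∀ f : (M 0).V, (β 0).hom f = μ • f)
    (htop : ∀ n, n₀ < n → ∀ f : (M n).V, (β n).hom f = 0)
    (i : ℕ) (hi : n₀ ≤ i) (x : HH k E (M 0) i) : μ • x = 0 := by
  have hcomm' : ∀ (n : ℕ) (f : (M n).V), (δ n).hom ((β n).hom f) = (β (n + 1)).hom ((δ n).hom f) := by
    intro n f
    have := congrArg (fun g : M n ⟶ M (n + 1) => g.hom f) (hcomm n)
    exact this
  -- the kernels
  let A : ℕ → Rep.{0} k E := fun n => kerRep (δ (n + 1))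
  let ι : ∀ n, A n ⟶ M (n + 1) := fun n => kerInc (δ (n + 1))
  let p : ∀ n, M (n + 1) ⟶ A (n + 1) := fun n =>
    kerLift (δ (n + 2)) (δ (n + 1)) (fun f => hdd (n + 1) f)
  have hw : ∀ n, ι n ≫ p n = 0 := by
    intro n
    apply rep_ext
    intro a
    apply Subtype.ext
    exact a.2
  have hse : ∀ n, (ShortComplex.mk (ι n) (p n) (hw n)).ShortExact := by
    intro n
    refine shortExact_of _ _ _ Subtype.val_injective ?_ ?_
    · rintro ⟨f, hf⟩
      obtain ⟨f', hf'⟩ := hex (n + 1) f hf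
      exact ⟨f', Subtype.ext hf'⟩
    · intro b hb
      exact ⟨⟨b, congrArg Subtype.val hb⟩, rfl⟩
  let b : ∀ n, A n ⟶ A n := fun n => kerLift (δ (n + 1)) (kerInc (δ (n + 1)) ≫ β (n + 1)) (by
    intro a
    change (δ (n + 1)).hom ((β (n + 1)).hom a.1) = 0
    rw [hcomm']
    have ha : (δ (n + 1)).hom a.1 = 0 := a.2
    rw [ha, map_zero])
  have hb : ∀ n (a : (A n).V), ((b n).hom a).1 = (β (n + 1)).hom a.1 := fun n a => rfl
  obtain ⟨e, he1, he2⟩ := S07_gen hse (Zt k E)
    (fun n i x => hacy (n + 1) (i + 1) (by omega) (by omega) x) b (fun n => β (n + 1))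
    (fun n => by apply rep_ext; intro a; rfl)
    (fun n => by
      apply rep_ext
      intro a
      apply Subtype.ext
      change (δ (n + 1)).hom ((β (n + 1)).hom a) = (β (n + 2)).hom ((δ (n + 1)).hom a)
      exact hcomm' (n + 1) a) i 0 i (zero_add i)
  have hb0 : b i = 0 := by
    apply rep_ext
    intro a
    apply Subtype.ext
    change (β (i + 1)).hom a.1 = 0
    exact htop (i + 1) (by omega) a.1
  let φ : M 0 ⟶ A 0 := kerLift (δ 1) (δ 0) (fun f => hdd 0 f)
  have hφb : φ ≫ b 0 = μ • φ := by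
    apply rep_ext
    intro a
    apply Subtype.ext
    change (β 1).hom ((δ 0).hom a) = ((μ • φ).hom a).1
    rw [← hcomm' 0 a, h0]
    rw [nsmul_hom]
    change (δ 0).hom (μ • a) = μ • (δ 0).hom a
    exact map_nsmul (δ 0).hom μ a
  have hφmono : Mono φ := (Rep.mono_iff_injective φ).2 (by
    intro a a' haa
    exact hinj (congrArg Subtype.val haa))
  have hφepi : Epi φ := (Rep.epi_iff_surjective φ).2 (by
    rintro ⟨f, hf⟩
    obtain ⟨f', hf'⟩ := hex 0 f hf
    exact ⟨f', Subtype.ext hf'⟩)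
  have hφ : IsIso φ := isIso_of_mono_of_epi φ
  have key : (μ • x).comp (Ext.mk₀ φ) (add_zero i) = 0 := by
    obtain ⟨ψ, hψ⟩ := he1 (x.comp (Ext.mk₀ φ) (add_zero i))
    have e1 : (x.comp (Ext.mk₀ φ) (add_zero i)).comp (Ext.mk₀ (b 0)) (add_zero i) = 0 := by
      rw [hψ]
      refine (Ext.comp_assoc (Ext.mk₀ ψ) e (Ext.mk₀ (b 0)) (zero_add i) (add_zero i)
        (by omega)).trans ?_
      rw [← he2, hb0, Ext.mk₀_zero, Ext.zero_comp, Ext.comp_zero]
    have e2 : (x.comp (Ext.mk₀ φ) (add_zero i)).comp (Ext.mk₀ (b 0)) (add_zero i) =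
        x.comp (Ext.mk₀ (φ ≫ b 0)) (add_zero i) := by
      refine (Ext.comp_assoc x (Ext.mk₀ φ) (Ext.mk₀ (b 0)) (add_zero i) (add_zero 0)
        (by omega)).trans ?_
      rw [Ext.mk₀_comp_mk₀]
    rw [e2, hφb] at e1
    rw [nsmul_comp', ← comp_nsmul']
    rw [nsmul_mk₀]
    exact e1
  have key2 : ((μ • x).comp (Ext.mk₀ φ) (add_zero i)).comp (Ext.mk₀ (inv φ)) (add_zero i) = μ • x := by
    refine (Ext.comp_assoc (μ • x) (Ext.mk₀ φ) (Ext.mk₀ (inv φ)) (add_zero i) (add_zero 0)
        (by omega)).trans ?_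
    rw [Ext.mk₀_comp_mk₀, IsIso.hom_inv_id, Ext.comp_mk₀_id]
  rw [← key2, key, Ext.zero_comp]

end

end Pool.MP0c3001.DV
end

section

/-!
# S15: the Gysin sequence for one coefficient module

* `gysin_inj_one`: as `gysin_inj` in `Gysin.lean`: `gys_inj` with `m = 1`; `Ext^i(Dc,V) ≅ Ext^i(Iaug G, res V)` by
  `Dc_bij`, and the latter injects into `H^{i+1}(G; res V) = 0` for `i ≥ 1` (proof of `kills_Iaug`:
  `contravariant_sequence_exact₁ (augSeq k G)` and `Ext.eq_zero_of_projective`).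
* `gysin_infl`: exactness at `H^{i+2}(Q;V)`: if the inflation `rs π β ∈ H^{i+2}(G; res V)` vanishes then
  `β = e α`.  Proof: `β = (augSeq k Q).extClass.comp β'` with `β' ∈ Ext^{i+1}(Iaug k Q, V)`
  (`Ext.contravariant_sequence_exact₃`, `Fr` is projective).  Restrict along `π`: let
  `f₂ = frMap k Unit π : Fr k Unit G ⟶ res (Fr k Unit Q)` and `f₁ : Iaug k G ⟶ res (Iaug k Q)` the induced map on
  the kernels.  By `cmp_extClass` (with `q = 𝟙`): `0 = rs π β = (augSeq k G).extClass.comp (cmp F f₁ 𝟙 (i+1) β')`,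
  so `cmp F f₁ 𝟙 (i+1) β' = 0` (the connecting map `Ext^{i+1}(Iaug G, ·) → H^{i+2}(G;·)` is injective as
  `Ext^{i+1}(Fr, ·) = 0`).  Now `f₁ = p ≫ res(dProj)` up to the identification, where
  `p : Iaug k G ⟶ res (Dc hc)` is the map of `RedDc.red_Dc` and `cmp F p 𝟙` is bijective
  (`red_bijective`): CAREFUL: one needs `p ≫ (res dProj) = f₁` for the constructed `p`; this is
  part of the statement `red_Dc'` below.  Then
  `cmp F p 𝟙 (i+1) ((mk₀ dProj).comp β') = cmp F f₁ 𝟙 (i+1) β' = 0` (`cmp_precomp` with `g' = 𝟙`), so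
  `(mk₀ dProj).comp β' = 0` and `β' = (dSeq hc).extClass.comp α` (`Ext.contravariant_sequence_exact₃`).
  Hence `β = e α` (`splice_comp`).
* `red_Dc'`: repeat the proof of `RedDc.red_Dc` in `Fset.lean` (copy it) and observe that the second
  component of `p` is `f₁`, i.e. `((p.hom x).2 : Unit × Q →₀ k) = (frMap k Unit π).hom x.1`.
-/

set_option autoImplicit false

namespace Pool.MP0c3001.DV

open CategoryTheory CategoryTheory.Abelian Limits

open Pool.MP0c3001.RedDc (J S)

noncomputable section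

variable {k : Type} [CommRing k] {G Q : Type} [Group G] [Group Q]

private theorem Iaug_zero {M : Rep.{0} k G} (i : ℕ) (hi : 1 ≤ i)
    (h0 : ∀ x : HH k G M (i + 1), x = 0) (x : Ext.{0} (Iaug k G) M i) : x = 0 := by
  obtain ⟨i, rfl⟩ : ∃ i', i = i' + 1 := ⟨i - 1, by omega⟩
  have h1 : (augSeq k G).extClass.comp x (show 1 + (i + 1) = i + 1 + 1 by omega) = 0 := h0 _
  obtain ⟨x₂, hx₂⟩ := Ext.contravariant_sequence_exact₁ (augSeq k G) M _ _ h1
  have h2 : x₂ = 0 := Ext.eq_zero_of_projective _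
  rw [← hx₂, h2, Ext.comp_zero]

theorem gysin_inj_one {π : G →* Q} {z : G} (hπ : CycExt π z) {c : Q → Q → k} (hc : IsCoc c)
    (hf : Fits π z c) (V : Rep.{0} k Q) (i : ℕ) (hi : 1 ≤ i)
    (h0 : ∀ x : HH k G ((Rep.resFunctor.{0} (k := k) π).obj V) (i + 1), x = 0) (α : HH k Q V i)
    (hα : (cls (k := k) hc).comp α (show 2 + i = i + 2 by omega) = 0) : α = 0 := by
  have hD : ∀ x : Ext.{0} (Dc (k := k) hc) V i, 1 • x = 0 := by
    intro x
    rw [one_nsmul]
    obtain ⟨φ, hφ⟩ := Dc_bij hπ hc hf V i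
    apply hφ.1
    rw [map_zero]
    exact Iaug_zero i hi h0 _
  have h := gys_inj (dSeq (k := k) hc) (augSeq k Q) V i 1 hD α hα
  rwa [one_nsmul] at h

private theorem zpow_inj {π : G →* Q} {z : G} (hπ : CycExt π z) {a b : ℤ} {x : G}
    (h : z ^ a * x = z ^ b * x) : a = b := by
  have h1 : z ^ a = z ^ b := mul_right_cancel h
  have h2 : z ^ (a - b) = 1 := by rw [zpow_sub, h1, mul_inv_cancel]
  have h3 := hπ.ord _ h2
  omega

private theorem coord_mul {π : G →* Q} {z : G} (hπ : CycExt π z) {s : Q → G} (hs : IsSec π s)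
    {j : G → ℤ} (hj' : ∀ g, g = z ^ j g * s (π g)) (g h : G) :
    j (g * h) = j g + j h + j (s (π g) * s (π h)) := by
  have hcen : ∀ g : G, Commute z g := hπ.cen
  apply zpow_inj hπ (x := s (π (g * h)))
  rw [← hj' (g * h)]
  have e1 : s (π g) * s (π h) = z ^ j (s (π g) * s (π h)) * s (π (g * h)) := by
    conv_lhs => rw [hj' (s (π g) * s (π h))]
    rw [map_mul, hs.sec, hs.sec, ← map_mul]
  have e2 : s (π g) * z ^ j h = z ^ j h * s (π g) := ((hcen (s (π g))).zpow_left (j h)).symm.eq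
  calc g * h = z ^ j g * s (π g) * (z ^ j h * s (π h)) := by
        conv_lhs => rw [hj' g, hj' h]
    _ = z ^ j g * (s (π g) * z ^ j h) * s (π h) := by simp only [mul_assoc]
    _ = z ^ j g * z ^ j h * (s (π g) * s (π h)) := by rw [e2]; simp only [mul_assoc]
    _ = z ^ (j g + j h + j (s (π g) * s (π h))) * s (π (g * h)) := by
        conv_lhs => rw [e1]
        rw [zpow_add, zpow_add]
        simp only [mul_assoc]

private theorem coord_one {π : G →* Q} {z : G} (hπ : CycExt π z) {s : Q → G} (hs : IsSec π s)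
    {j : G → ℤ} (hj' : ∀ g, g = z ^ j g * s (π g)) : j 1 = 0 := by
  apply zpow_inj hπ (x := s (π 1))
  rw [← hj' 1, map_one, hs.one, zpow_zero, mul_one]

private theorem coord_z {π : G →* Q} {z : G} (hπ : CycExt π z) {s : Q → G} (hs : IsSec π s)
    {j : G → ℤ} (hj' : ∀ g, g = z ^ j g * s (π g)) : j z = 1 := by
  apply zpow_inj hπ (x := s (π z))
  rw [← hj' z, hπ.map_z, hs.one, zpow_one, mul_one]

private theorem coord_s {π : G →* Q} {z : G} (hπ : CycExt π z) {s : Q → G} (hs : IsSec π s)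
    {j : G → ℤ} (hj' : ∀ g, g = z ^ j g * s (π g)) (q : Q) : j (s q) = 0 := by
  apply zpow_inj hπ (x := s (π (s q)))
  rw [← hj' (s q), hs.sec, zpow_zero, one_mul]

omit [Group G] in
private theorem J_single (j : G → ℤ) (x : Unit × G) (n : k) :
    J k j (Finsupp.single x n) = n * (j x.2 : k) := by
  simp [J]

private theorem aug_frMap (π : G →* Q) (w : Unit × G →₀ k) :
    (aug k Q).hom ((frMap k Unit π).hom w) = (aug k G).hom w := by
  have h : (aug k Q).hom.toLinearMap ∘ₗ (frMap k Unit π).hom.toLinearMap =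
      (aug k G).hom.toLinearMap := by
    apply Finsupp.lhom_ext
    intro x n
    change (aug k Q).hom ((frMap k Unit π).hom (Finsupp.single x n)) =
      (aug k G).hom (Finsupp.single x n)
    rw [frMap_single, aug_single, aug_single]
  exact LinearMap.congr_fun h w

/-- the element `(z ^ n - 1) / (z - 1) * x` -/
private theorem exists_geom (z : G) (x : G) (n : ℤ) : ∃ u : Unit × G →₀ k,
    frRho k Unit G z u - u = Finsupp.single ((), z ^ n * x) 1 - Finsupp.single ((), x) 1 ∧
      (aug k G).hom u = (n : k) := by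
  induction n using Int.induction_on with
  | zero =>
    refine ⟨0, ?_, ?_⟩
    · rw [map_zero, sub_self, zpow_zero, one_mul, sub_self]
    · rw [map_zero, Int.cast_zero]
  | succ n ih =>
    obtain ⟨u, h1, h2⟩ := ih
    refine ⟨u + Finsupp.single ((), z ^ (n : ℤ) * x) 1, ?_, ?_⟩
    · rw [map_add, frRho_single, add_sub_add_comm, h1]
      have e : z * (z ^ (n : ℤ) * x) = z ^ ((n : ℤ) + 1) * x := by
        rw [add_comm, zpow_add, zpow_one, mul_assoc]
      change Finsupp.single ((), z ^ (n : ℤ) * x) 1 - Finsupp.single ((), x) 1 +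
        (Finsupp.single ((), z * (z ^ (n : ℤ) * x)) 1 - Finsupp.single ((), z ^ (n : ℤ) * x) 1) = _
      rw [e]
      abel
    · have e : (aug k G).hom (u + Finsupp.single ((), z ^ (n : ℤ) * x) 1) =
          (aug k G).hom u + (aug k G).hom (Finsupp.single ((), z ^ (n : ℤ) * x) 1) := map_add _ _ _
      rw [e, h2, aug_single, Int.cast_add, Int.cast_one]
  | pred n ih =>
    obtain ⟨u, h1, h2⟩ := ih
    refine ⟨u - Finsupp.single ((), z ^ (-(n : ℤ) - 1) * x) 1, ?_, ?_⟩
    · rw [map_sub, frRho_single, sub_sub_sub_comm, h1]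
      have e : z * (z ^ (-(n : ℤ) - 1) * x) = z ^ (-(n : ℤ)) * x := by
        have e1 : (-(n : ℤ)) = 1 + (-(n : ℤ) - 1) := by ring
        conv_rhs => rw [e1, zpow_add, zpow_one, mul_assoc]
      change Finsupp.single ((), z ^ (-(n : ℤ)) * x) 1 - Finsupp.single ((), x) 1 -
        (Finsupp.single ((), z * (z ^ (-(n : ℤ) - 1) * x)) 1 -
          Finsupp.single ((), z ^ (-(n : ℤ) - 1) * x) 1) = _
      rw [e]
      abel
    · have e : (aug k G).hom (u - Finsupp.single ((), z ^ (-(n : ℤ) - 1) * x) 1) =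
          (aug k G).hom u - (aug k G).hom (Finsupp.single ((), z ^ (-(n : ℤ) - 1) * x) 1) :=
        map_sub _ _ _
      rw [e, h2, aug_single, Int.cast_sub, Int.cast_one]

omit [Group G] [Group Q] in
private theorem S_single (s : Q → G) (x : Unit × Q) (n : k) :
    S k s (Finsupp.single x n) = Finsupp.single (x.1, s x.2) n := by
  simp [S, Finsupp.mapDomain_single]

private theorem aug_S (s : Q → G) (v : Unit × Q →₀ k) :
    (aug k G).hom (S k s v) = (aug k Q).hom v := by
  have h : (aug k G).hom.toLinearMap ∘ₗ S k s = (aug k Q).hom.toLinearMap := by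
    apply Finsupp.lhom_ext
    intro x n
    change (aug k G).hom (S k s (Finsupp.single x n)) = (aug k Q).hom (Finsupp.single x n)
    rw [S_single, aug_single, aug_single]
  exact LinearMap.congr_fun h v

omit [Group G] [Group Q] in
private theorem J_S {j : G → ℤ} {s : Q → G} (h0 : ∀ q, j (s q) = 0) (v : Unit × Q →₀ k) :
    J k j (S k s v) = 0 := by
  have h : J k j ∘ₗ S k s = 0 := by
    apply Finsupp.lhom_ext
    intro x n
    change J k j (S k s (Finsupp.single x n)) = 0
    rw [S_single, J_single]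
    change n * (j (s x.2) : k) = 0
    rw [h0, Int.cast_zero, mul_zero]
  exact LinearMap.congr_fun h v

private theorem frMap_S {π : G →* Q} {s : Q → G} (hs : IsSec π s) (v : Unit × Q →₀ k) :
    (frMap k Unit π).hom (S k s v) = v := by
  have h : (frMap k Unit π).hom.toLinearMap ∘ₗ S k s = LinearMap.id := by
    apply Finsupp.lhom_ext
    intro x n
    change (frMap k Unit π).hom (S k s (Finsupp.single x n)) = Finsupp.single x n
    rw [S_single, frMap_single]
    change Finsupp.single (x.1, π (s x.2)) n = Finsupp.single x n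
    rw [hs.sec]
  exact LinearMap.congr_fun h v

theorem red_Dc' {π : G →* Q} {z : G} (hπ : CycExt π z) {s : Q → G} (hs : IsSec π s) (j : G → ℤ)
    (hj : ∀ g, g = z ^ j g * s (π g)) {c : Q → Q → k} (hc : IsCoc c)
    (hcj : ∀ q' q, c q' q = (j (s q' * s q) : k)) :
    ∃ p : Iaug k G ⟶ (Rep.resFunctor π).obj (Dc (k := k) hc), Red π z p ∧
      ∀ x : (Iaug k G).V, ((p.hom x).2.1 : Unit × Q →₀ k) = (frMap k Unit π).hom x.1 := by
  -- the formula for the form `J`
  have hJ : ∀ (h : G) (w : Unit × G →₀ k), J k j (frRho k Unit G h w) =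
      (aug k G).hom w * (j h : k) + J k j w + phi (k := k) c (π h) ((frMap k Unit π).hom w) := by
    intro h w
    induction w using Finsupp.induction_linear with
    | zero => simp
    | add f g hf hg =>
      have e1 : (aug k G).hom (f + g) = (aug k G).hom f + (aug k G).hom g := map_add _ _ _
      have e2 : (frMap k Unit π).hom (f + g) =
        (frMap k Unit π).hom f + (frMap k Unit π).hom g := map_add _ _ _
      rw [map_add, map_add, hf, hg, e1, e2, map_add, map_add, add_mul]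
      abel
    | single x n =>
      rw [frRho_single, J_single, aug_single, J_single, frMap_single, phi_single, hcj]
      change n * (j (h * x.2) : k) = _
      rw [coord_mul hπ hs hj h x.2]
      push_cast
      change _ = n * (j h : k) + n * (j x.2 : k) + n * (j (s (π h) * s (π x.2)) : k)
      ring
  have hA : ∀ w : (Iaug k G).V, (frMap k Unit π).hom w.1 ∈
      LinearMap.ker (aug k Q).hom.toLinearMap := by
    intro w
    rw [LinearMap.mem_ker]
    change (aug k Q).hom ((frMap k Unit π).hom w.1) = 0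
    rw [aug_frMap]
    exact w.2
  let P2 : (Iaug k G).V →ₗ[k] (Iaug k Q).V :=
    LinearMap.codRestrict (LinearMap.ker (aug k Q).hom.toLinearMap)
      ((frMap k Unit π).hom.toLinearMap ∘ₗ (LinearMap.ker (aug k G).hom.toLinearMap).subtype) hA
  let P1 : (Iaug k G).V →ₗ[k] k :=
    J k j ∘ₗ (LinearMap.ker (aug k G).hom.toLinearMap).subtype
  let p : Iaug k G ⟶ (Rep.resFunctor π).obj (Dc (k := k) hc) :=
    Rep.ofHom
      { toLinearMap := LinearMap.prod P1 P2
        isIntertwining' := by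
          intro h
          apply LinearMap.ext
          intro w
          have hw : (aug k G).hom w.1 = (0 : k) := w.2
          have h1 := hJ h w.1
          rw [hw, zero_mul, zero_add] at h1
          have h2 : (frMap k Unit π).hom (frRho k Unit G h w.1) =
              frRho k Unit Q (π h) ((frMap k Unit π).hom w.1) :=
            Rep.hom_comm_apply (frMap k Unit π) h w.1
          change (J k j (frRho k Unit G h w.1), _) =
            (J k j w.1 + phi c (π h) ((frMap k Unit π).hom w.1), _)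
          rw [h1]
          refine Prod.ext rfl (Subtype.ext ?_)
          exact h2 }
  have hp : ∀ w : (Iaug k G).V, p.hom w = (J k j w.1, ⟨(frMap k Unit π).hom w.1, hA w⟩) :=
    fun w => rfl
  refine ⟨p, ⟨?_, ?_, ?_⟩, fun x => rfl⟩
  · rintro ⟨b, v⟩
    have hw : (aug k G).hom (S k s v.1 + (Finsupp.single ((), z) b - Finsupp.single ((), 1) b)) =
        (0 : k) := by
      have e : (aug k G).hom (S k s v.1 + (Finsupp.single ((), z) b - Finsupp.single ((), 1) b)) =
          (aug k G).hom (S k s v.1) + ((aug k G).hom (Finsupp.single ((), z) b) -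
            (aug k G).hom (Finsupp.single ((), 1) b)) := by
        rw [map_add, map_sub]
      have e2 : (aug k Q).hom v.1 = (0 : k) := v.2
      rw [e, aug_S, aug_single, aug_single, sub_self, add_zero]
      exact e2
    refine ⟨⟨S k s v.1 + (Finsupp.single ((), z) b - Finsupp.single ((), 1) b), hw⟩, ?_⟩
    rw [hp]
    refine Prod.ext ?_ (Subtype.ext ?_)
    · change J k j (S k s v.1 + (Finsupp.single ((), z) b - Finsupp.single ((), 1) b)) = b
      rw [map_add, map_sub, J_S (coord_s hπ hs hj), J_single, J_single]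
      change 0 + (b * (j z : k) - b * (j 1 : k)) = b
      rw [coord_z hπ hs hj, coord_one hπ hs hj]
      simp
    · change (frMap k Unit π).hom
        (S k s v.1 + (Finsupp.single ((), z) b - Finsupp.single ((), 1) b)) = v.1
      have e : (frMap k Unit π).hom
          (S k s v.1 + (Finsupp.single ((), z) b - Finsupp.single ((), 1) b)) =
          (frMap k Unit π).hom (S k s v.1) + ((frMap k Unit π).hom (Finsupp.single ((), z) b) -
            (frMap k Unit π).hom (Finsupp.single ((), 1) b)) := by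
        rw [map_add, map_sub]
      rw [e, frMap_S hs, frMap_single, frMap_single]
      change v.1 + (Finsupp.single ((), π z) b - Finsupp.single ((), π 1) b) = v.1
      rw [hπ.map_z, map_one, sub_self, add_zero]
  · intro w hw
    rw [hp] at hw
    have hw1 : J k j w.1 = 0 := congrArg Prod.fst hw
    have hw2 : (frMap k Unit π).hom w.1 = 0 := congrArg (fun x => x.2.1) hw
    choose E hE1 hE2 using fun g : G => exists_geom (k := k) z (s (π g)) (j g)
    let L : (Unit × G →₀ k) →ₗ[k] (Unit × G →₀ k) :=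
      Finsupp.lift (Unit × G →₀ k) k (Unit × G) (fun x => E x.2)
    have hL : ∀ (x : Unit × G) (n : k), L (Finsupp.single x n) = n • E x.2 := by
      intro x n
      simp [L]
    have haug : ∀ u : Unit × G →₀ k, (aug k G).hom (L u) = J k j u := by
      intro u
      have h : (aug k G).hom.toLinearMap ∘ₗ L = J k j := by
        apply Finsupp.lhom_ext
        intro x n
        change (aug k G).hom (L (Finsupp.single x n)) = J k j (Finsupp.single x n)
        have e : (aug k G).hom (n • E x.2) = n * (aug k G).hom (E x.2) := map_smul _ _ _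
        rw [hL, e, hE2, J_single]
      exact LinearMap.congr_fun h u
    have hdiff : ∀ u : Unit × G →₀ k, frRho k Unit G z (L u) - L u =
        u - S k s ((frMap k Unit π).hom u) := by
      intro u
      have h : frRho k Unit G z ∘ₗ L - L =
          LinearMap.id - S k s ∘ₗ (frMap k Unit π).hom.toLinearMap := by
        apply Finsupp.lhom_ext
        intro x n
        change frRho k Unit G z (L (Finsupp.single x n)) - L (Finsupp.single x n) =
          Finsupp.single x n - S k s ((frMap k Unit π).hom (Finsupp.single x n))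
        rw [hL, map_smul, ← smul_sub, hE1, ← hj, frMap_single, S_single, smul_sub,
          Finsupp.smul_single, Finsupp.smul_single, smul_eq_mul, mul_one]
      exact LinearMap.congr_fun h u
    refine ⟨⟨L w.1, ?_⟩, Subtype.ext ?_⟩
    · rw [LinearMap.mem_ker]
      change (aug k G).hom (L w.1) = 0
      rw [haug]
      exact hw1
    · change w.1 = frRho k Unit G z (L w.1) - L w.1
      rw [hdiff, hw2, map_zero, sub_zero]
  · intro y hy
    have h1 := (red_free (k := k) hπ Unit).inj y.1 (congrArg Subtype.val hy)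
    exact Subtype.ext h1

theorem gysin_infl {π : G →* Q} {z : G} (hπ : CycExt π z) {c : Q → Q → k} (hc : IsCoc c)
    (hf : Fits π z c) (V : Rep.{0} k Q) (i : ℕ) (β : HH k Q V (i + 2)) (hβ : rs π β = 0) :
    ∃ α : HH k Q V i, (cls (k := k) hc).comp α (show 2 + i = i + 2 by omega) = β := by
  obtain ⟨s, hs, j, hj, hcj⟩ := hf
  obtain ⟨p, hp, hp2⟩ := red_Dc' hπ hs j hj hc hcj
  obtain ⟨β', hβ'⟩ := Ext.contravariant_sequence_exact₃ (augSeq k Q) V β
    (Ext.eq_zero_of_projective _) (show 1 + (i + 1) = i + 2 by omega)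
  let F := Rep.resFunctor.{0} (k := k) π
  let f₃ : Zt k G ⟶ F.obj (Zt k Q) :=
    Rep.ofHom { toLinearMap := LinearMap.id, isIntertwining' := fun _ => rfl }
  let f₁ : Iaug k G ⟶ F.obj (Iaug k Q) := p ≫ F.map (dProj (k := k) hc)
  have c₁₂ : kerInc (aug k G) ≫ frMap k Unit π = f₁ ≫ F.map (kerInc (aug k Q)) := by
    apply Rep.hom_ext
    apply Representation.IntertwiningMap.ext
    apply LinearMap.ext
    intro x
    exact (hp2 x).symm
  have c₂₃ : aug k G ≫ f₃ = frMap k Unit π ≫ F.map (aug k Q) := by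
    apply Rep.hom_ext
    apply Representation.IntertwiningMap.ext
    apply LinearMap.ext
    intro x
    exact (aug_frMap π x).symm
  have h1 := cmp_extClass F (augSeq k Q) (augSeq k G) f₁ (frMap k Unit π) f₃ c₁₂ c₂₃
    (𝟙 (F.obj V)) (show 1 + (i + 1) = i + 2 by omega) β'
  have h2 : cmp F f₃ (𝟙 (F.obj V)) (i + 2) β = 0 := by
    rw [cmp_apply]
    have hβ0 : β.mapExactFunctor F = 0 := hβ
    rw [hβ0, Ext.zero_comp, Ext.comp_zero]
  rw [hβ', h2] at h1
  obtain ⟨x₂, hx₂⟩ := Ext.contravariant_sequence_exact₁ (augSeq k G) (F.obj V) _ _ h1.symm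
  have h3 : x₂ = 0 := Ext.eq_zero_of_projective _
  rw [h3, Ext.comp_zero] at hx₂
  have h4 := cmp_precomp F (dProj (k := k) hc) (𝟙 (Iaug k G)) p f₁ (Category.id_comp _)
    (𝟙 (F.obj V)) (i + 1) β'
  rw [← hx₂, Ext.comp_zero] at h4
  have h5 : (Ext.mk₀ (dProj (k := k) hc)).comp β' (zero_add (i + 1)) = 0 := by
    apply (red_bijective hπ hp V (i + 1)).1
    rw [map_zero]
    exact h4
  obtain ⟨α, hα⟩ := Ext.contravariant_sequence_exact₃ (dSeq (k := k) hc) V β' h5
    (show 1 + i = i + 1 by omega)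
  refine ⟨α, ?_⟩
  have h6 := splice_comp (dSeq (k := k) hc) (augSeq k Q) α (show 2 + i = i + 2 by omega)
    (show 1 + i = i + 1 by omega)
  refine h6.trans ?_
  rw [hα]
  exact hβ'

end

end Pool.MP0c3001.DV
end

section

/-!
# S15b: modules which are acyclic for `E` are acyclic for `Q`

`E → Q` is the cyclic central extension `pr_cyc` with kernel generated by `w`; its cocycle is `l * c`
(`pr_fits`), so its Euler class is `e' = l • e`, `e = ecl k hc` (`ecl_zsmul`).  By `gysin_inj_one` (with `E` for `G`)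
`e'.comp` is injective on `H^i(Q;D)`, `i ≥ i₀`.  Let `α ∈ H^i(Q;D)`.  By induction on `s`: `(l ^ s) • β = 0` with
`β ∈ H^j(Q;D)`, `j ≥ i₀`, implies `β = 0`: `s = 0` clear; `s + 1`: `(l ^ s) • (e'.comp β) =
(l ^ (s+1)) • (e.comp β) = 0`, so `e'.comp β = 0` (degree `j + 2`), so `β = 0`.
Finally `(l ^ s) • α = 0` because `(l ^ s)` kills `D` (`coh_kill`-like: `α.comp (mk₀ ((l ^ s) • 𝟙)) = (l ^ s) • α`,
and `(l ^ s) • 𝟙 D = 0` by `hs`).
-/

set_option autoImplicit false

namespace Pool.MP0c3001.DV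

open CategoryTheory CategoryTheory.Abelian Limits

noncomputable section

variable {k : Type} [CommRing k] {G Q E : Type} [Group G] [Group Q] [Group E] {ι : G →* E} {w : E}
  {z : G} {l : ℕ}

private theorem s15b_comp {C : Type*} [Category* C] [Abelian C] [HasExt.{0} C] {X Y : C} {n : ℕ}
    (N : ℕ) (y : Ext.{0} X Y n) : y.comp (Ext.mk₀ (N • 𝟙 Y)) (add_zero n) = N • y := by
  induction N with
  | zero => rw [zero_smul, zero_smul, Ext.mk₀_zero, Ext.comp_zero]
  | succ N ih => rw [succ_nsmul, succ_nsmul, Ext.mk₀_add, Ext.comp_add, ih, Ext.comp_mk₀_id]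

private theorem s15b_id (D : Rep.{0} k Q) (n : ℕ) (v : D.V) : (n • 𝟙 D).hom v = n • v := by
  induction n with
  | zero =>
    rw [zero_smul, zero_smul]
    rfl
  | succ n ih =>
    rw [succ_nsmul, succ_nsmul, ← ih]
    rfl

theorem coh_zero (h : RootExt ι w z l) {π : G →* Q} (hπ : CycExt π z) {c : Q → Q → ℤ}
    (hc : IsCoc c) (hf : FitsZ π z c) (D : Rep.{0} k Q) (s : ℕ) (hs : ∀ v : D.V, (l ^ s) • v = 0)
    (i₀ : ℕ) (h1 : 1 ≤ i₀)
    (h0 : ∀ i, i₀ < i → ∀ x : HH k E ((Rep.resFunctor.{0} (k := k) (h.pr hπ.map_z)).obj D) i, x = 0)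
    (i : ℕ) (hi : i₀ ≤ i) (α : HH k Q D i) : α = 0 := by
  have hQ : CycExt (h.pr hπ.map_z) w := pr_cyc h hπ
  have hF : FitsZ (h.pr hπ.map_z) w (fun a b => (l : ℤ) * c a b) := pr_fits h hπ hf
  have hlc : IsCoc (fun a b => (l : ℤ) * c a b) := fitsZ_isCoc hQ hF
  have hF' : Fits (k := k) (h.pr hπ.map_z) w
      (fun a b => Int.castAddHom k ((l : ℤ) * c a b)) := by
    obtain ⟨s, hs', j, hj, hcj⟩ := hF
    exact ⟨s, hs', j, hj, fun q' q => congrArg (fun m : ℤ => (m : k)) (hcj q' q)⟩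
  have he : ecl k hlc = (l : ℤ) • ecl k hc := ecl_zsmul hc hlc (l : ℤ) (fun _ _ => rfl)
  -- injectivity of the product with `l e`
  have hinj : ∀ (j : ℕ), i₀ ≤ j → ∀ β : HH k Q D j,
      (ecl k hlc).comp β (show 2 + j = j + 2 by omega) = 0 → β = 0 := by
    intro j hj β hβ
    exact gysin_inj_one hQ (hlc.map (Int.castAddHom k)) hF' D j (by omega)
      (fun x => h0 (j + 1) (by omega) x) β hβ
  have key : ∀ (m : ℕ) (j : ℕ), i₀ ≤ j → ∀ β : HH k Q D j, (l ^ m) • β = 0 → β = 0 := by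
    intro m
    induction m with
    | zero =>
      intro j hj β hβ
      rwa [pow_zero, one_smul] at hβ
    | succ m ih =>
      intro j hj β hβ
      apply hinj j hj β
      apply ih (j + 2) (by omega)
      have e1 : (ecl k hlc).comp β (show 2 + j = j + 2 by omega) =
          (ecl k hc).comp (l • β) (show 2 + j = j + 2 by omega) := by
        rw [he, zsmul_comp', comp_nsmul', natCast_zsmul]
      rw [e1, ← comp_nsmul', smul_smul, ← pow_succ, hβ, Ext.comp_zero]
  apply key s i hi α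
  have e3 : (l ^ s) • 𝟙 D = 0 := by
    apply Rep.hom_ext
    apply Representation.IntertwiningMap.ext
    apply LinearMap.ext
    intro v
    change ((l ^ s) • 𝟙 D).hom v = 0
    rw [s15b_id, hs v]
  rw [← s15b_comp, e3, Ext.mk₀_zero, Ext.comp_zero]

end

end Pool.MP0c3001.DV
end
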