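import Pool.Agent.Lib.MP_0c3001_gt.Mg.G013
import Pool.Agent.Lib.MP_0c3001_gt.Mg.G015

section

/-!
# S06: the chain map `b`

`Kills k G m N`, `N ≥ 1`.  The augmented complex of lists: `L_i` = free `k`-module on the lists of
length `i` (as a `Rep k G`: e.g. the submodule of `List G →₀ k` of the elements supported on the
lists of length `i`, `G` acting by `Finsupp.lmapDomain` of `lsm g`), `d = kx dk : L_{i+1} → L_i`
(`dk_len`, `dk_equi`), `d d = 0` (`dk_dk`), exact in all degrees `≥ 0` (`L_1 → L_0` is onto) by the
homotopy `ck` (`dk_ck`).  `L_0 ≅ Zt k G` (only the empty list), and `L_{i+1}` is projective: it is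
isomorphic to `Fr k (lists of length i) G` by `(x, a) ↦ a :: (a x) = lsm a (1 :: x)`
(`fr_projective`; alternatively show projectivity directly by lifting on the basis elements
`1 :: x`).

Let `A_0 = L_0`, `A_n = ker (d : L_n → L_{n-1})` for `n ≥ 1`, `P_n = L_{n+1}`:
`0 → A_{n+1} → P_n → A_n → 0`.  `tower_extend` with `N - 1` (as `N ≥ 1`; `m` kills
`Ext^N(L_0,V) = H^N(G;V)`): there is a `G`-map `f : L_N → A_N` with `f = m` on `A_N`.  Define the
kernel `b x = m • single x 1` if `x.length < N`, `b x = m • single x 1 - f(single x 1)` if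
`x.length = N`, `b x = 0` if `x.length > N`.  Then `kcomp b dk = kcomp dk b`: length `< N` clear;
length `N`: `d (m x - f x) = m d x` since `f x ∈ A_N`; length `N + 1`: `b (d x) = m d x - f (d x) = 0`
since `d x ∈ A_N`; length `> N + 1`: `0 = 0`.  `b [] = single [] m` since `N ≥ 1`.
-/

set_option autoImplicit false

namespace Pool.MP0c3001.DV

open CategoryTheory CategoryTheory.Abelian Limits

noncomputable section

variable {k : Type} [CommRing k] {G : Type} [Group G]

namespace S06aux

/-- The action of `G` on the lists. -/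
def lrRho (k : Type) [CommRing k] (G : Type) [Group G] : Representation k G (List G →₀ k) where
  toFun g := Finsupp.lmapDomain k k (lsm g)
  map_one' := by
    apply Finsupp.lhom_ext
    intro x c
    simp [lsm_one]
  map_mul' g h := by
    apply Finsupp.lhom_ext
    intro x c
    simp [lsm_lsm]

lemma lrRho_apply (g : G) (v : List G →₀ k) : lrRho k G g v = v.mapDomain (lsm g) := rfl

abbrev LR (k : Type) [CommRing k] (G : Type) [Group G] : Rep.{0} k G := Rep.of (lrRho k G)

/-- supported in length `n` -/
abbrev Su (k : Type) [CommRing k] (G : Type) (n : ℕ) : Submodule k (List G →₀ k) :=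
  Finsupp.supported k k {x : List G | x.length = n}

lemma mem_Su {n : ℕ} {v : List G →₀ k} : v ∈ Su k G n ↔ ∀ x, v x ≠ 0 → x.length = n := by
  rw [Finsupp.mem_supported]
  constructor
  · intro h x hx
    exact h (Finsupp.mem_support_iff.2 hx)
  · intro h x hx
    exact h x (Finsupp.mem_support_iff.1 hx)

lemma single_mem_Su {n : ℕ} {x : List G} (hx : x.length = n) (c : k) :
    Finsupp.single x c ∈ Su k G n := Finsupp.single_mem_supported k c hx

lemma Su_inv (n : ℕ) (g : G) {v : List G →₀ k} (hv : v ∈ Su k G n) :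
    v.mapDomain (lsm g) ∈ Su k G n := by
  rw [Finsupp.mapDomain]
  refine Submodule.finsuppSum_mem _ _ _ _ (fun x hx => ?_)
  refine single_mem_Su ?_ _
  rw [lsm_length]
  exact mem_Su.1 hv x hx

lemma kx_single (t : Ker k G) (x : List G) (c : k) : kx t (Finsupp.single x c) = c • t x := by
  simp [kx]

/-- an equivariant kernel gives an equivariant map -/
lemma kx_equi {t : Ker k G} (ht : Equi t) (g : G) (v : List G →₀ k) :
    kx t (v.mapDomain (lsm g)) = (kx t v).mapDomain (lsm g) := by
  have h : (kx t) ∘ₗ (Finsupp.lmapDomain k k (lsm g)) =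
      (Finsupp.lmapDomain k k (lsm g)) ∘ₗ (kx t) := by
    apply Finsupp.lhom_ext
    intro x c
    simp only [LinearMap.comp_apply, Finsupp.lmapDomain_apply, Finsupp.mapDomain_single, kx_single]
    rw [ht g x, Finsupp.mapDomain_smul]
  exact LinearMap.congr_fun h v

lemma kx_kcomp (t t' : Ker k G) (v : List G →₀ k) : kx t' (kx t v) = kx (kcomp t t') v := by
  have h : (kx t') ∘ₗ (kx t) = kx (kcomp t t') := by
    apply Finsupp.lhom_ext
    intro x c
    simp only [LinearMap.comp_apply, kx_single, map_smul]
    rfl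
  exact LinearMap.congr_fun h v

lemma kx_zero (v : List G →₀ k) : kx (0 : Ker k G) v = 0 := by
  have h : kx (0 : Ker k G) = 0 := by
    apply Finsupp.lhom_ext
    intro x c
    rw [kx_single]
    simp
  rw [h]
  rfl

lemma kx_dk_dk (v : List G →₀ k) : kx dk (kx dk v) = 0 := by
  rw [kx_kcomp, dk_dk, kx_zero]

lemma kx_homotopy (v : List G →₀ k) : kx dk (kx ck v) + kx ck (kx dk v) = v := by
  have h : (kx (dk : Ker k G)) ∘ₗ (kx ck) + (kx ck) ∘ₗ (kx dk) = LinearMap.id := by
    apply Finsupp.lhom_ext
    intro x c
    simp only [LinearMap.comp_apply, LinearMap.add_apply, kx_single, map_smul, LinearMap.id_apply]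
    rw [← smul_add]
    have := dk_ck (k := k) x
    change kx dk (ck x) + kx ck (dk x) = _ at this
    rw [this]
    simp
  exact LinearMap.congr_fun h v

lemma kx_mem_Su {t : Ker k G} {n n' : ℕ}
    (ht : ∀ x : List G, x.length = n → t x ∈ Su k G n') {v : List G →₀ k} (hv : v ∈ Su k G n) :
    kx t v ∈ Su k G n' := by
  rw [kx, Finsupp.linearCombination_apply]
  refine Submodule.finsuppSum_mem _ _ _ _ (fun x hx => ?_)
  exact Submodule.smul_mem _ _ (ht x (mem_Su.1 hv x hx))

lemma dk_mem_Su {n : ℕ} (x : List G) (hx : x.length = n + 1) : (dk x : List G →₀ k) ∈ Su k G n := by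
  rw [mem_Su]
  intro y hy
  have := dk_len hy
  omega

lemma ck_mem_Su {n : ℕ} (x : List G) (hx : x.length = n) : (ck x : List G →₀ k) ∈ Su k G (n + 1) :=
  single_mem_Su (by simp [hx]) _

/-- the cycles in length `n` -/
abbrev Sa (k : Type) [CommRing k] (G : Type) (n : ℕ) : Submodule k (List G →₀ k) :=
  Su k G n ⊓ LinearMap.ker (kx (dk : Ker k G))

lemma mem_Sa {n : ℕ} {v : List G →₀ k} : v ∈ Sa k G n ↔ v ∈ Su k G n ∧ kx dk v = 0 := Iff.rfl

lemma Sa_inv (n : ℕ) (g : G) {v : List G →₀ k} (hv : v ∈ Sa k G n) :
    v.mapDomain (lsm g) ∈ Sa k G n := by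
  refine ⟨Su_inv n g hv.1, ?_⟩
  change kx dk _ = 0
  have h2 : kx dk v = 0 := hv.2
  rw [kx_equi dk_equi, h2, Finsupp.mapDomain_zero]

variable (k G) in
/-- `A_n` -/
abbrev An (n : ℕ) : Rep.{0} k G :=
  Rep.subrepresentation (LR k G) (Sa k G n) (fun g _ hv => Sa_inv n g hv)

variable (k G) in
/-- `P_n` -/
abbrev Pn (n : ℕ) : Rep.{0} k G :=
  Rep.subrepresentation (LR k G) (Su k G (n + 1)) (fun g _ hv => Su_inv (n + 1) g hv)

variable (k G) in
/-- the inclusion -/
def inc (n : ℕ) : An k G (n + 1) ⟶ Pn k G n :=
  Rep.ofHom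
    { toLinearMap := Submodule.inclusion (inf_le_left : Sa k G (n + 1) ≤ Su k G (n + 1))
      isIntertwining' := fun _ => rfl }

lemma inc_val (n : ℕ) (v : (An k G (n + 1)).V) : ((inc k G n).hom v).1 = v.1 := rfl

variable (k G) in
/-- the differential -/
def pro (n : ℕ) : Pn k G n ⟶ An k G n :=
  Rep.ofHom
    { toLinearMap := (kx (dk : Ker k G)).restrict (p := Su k G (n + 1)) (q := Sa k G n)
        (fun v hv => ⟨kx_mem_Su (fun x hx => dk_mem_Su x hx) hv, kx_dk_dk v⟩)
      isIntertwining' := by
        intro g
        apply LinearMap.ext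
        intro v
        apply Subtype.ext
        exact kx_equi dk_equi g v.1 }

lemma pro_val (n : ℕ) (v : (Pn k G n).V) : ((pro k G n).hom v).1 = kx dk v.1 := rfl

lemma inc_pro (n : ℕ) : inc k G n ≫ pro k G n = 0 := by
  apply Rep.hom_ext
  apply Representation.IntertwiningMap.ext
  apply LinearMap.ext
  intro v
  apply Subtype.ext
  exact v.2.2

lemma shex (n : ℕ) : (ShortComplex.mk (inc k G n) (pro k G n) (inc_pro n)).ShortExact := by
  apply shortExact_of
  · intro v w h
    apply Subtype.ext
    have h1 : ((inc k G n).hom v).1 = ((inc k G n).hom w).1 := congrArg (fun u => u.1) h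
    exact h1
  · intro v
    refine ⟨⟨kx ck v.1, kx_mem_Su (fun x hx => ck_mem_Su x hx) v.2.1⟩, ?_⟩
    apply Subtype.ext
    rw [pro_val]
    have h := kx_homotopy v.1
    have h2 : kx dk v.1 = 0 := v.2.2
    rw [h2, map_zero, add_zero] at h
    exact h
  · intro v hv
    refine ⟨⟨v.1, v.2, ?_⟩, ?_⟩
    · exact congrArg Subtype.val hv
    · rfl

/-- the section into the free module -/
def secK (k : Type) [CommRing k] (G : Type) [Group G] :
    (List G →₀ k) →ₗ[k] (List G × G →₀ k) :=
  Finsupp.linearCombination k fun x : List G =>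
    match x with
    | [] => 0
    | a :: t => Finsupp.single (lsm a⁻¹ t, a) 1

lemma secK_nil (c : k) : secK k G (Finsupp.single [] c) = 0 := by
  simp [secK]

lemma secK_cons (a : G) (t : List G) (c : k) :
    secK k G (Finsupp.single (a :: t) c) = Finsupp.single (lsm a⁻¹ t, a) c := by
  simp [secK]

lemma secK_equi (g : G) (v : List G →₀ k) :
    secK k G (v.mapDomain (lsm g)) = frRho k (List G) G g (secK k G v) := by
  have h : (secK k G) ∘ₗ (Finsupp.lmapDomain k k (lsm g)) =
      (frRho k (List G) G g) ∘ₗ (secK k G) := by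
    apply Finsupp.lhom_ext
    intro x c
    simp only [LinearMap.comp_apply, Finsupp.lmapDomain_apply, Finsupp.mapDomain_single]
    cases x with
    | nil =>
      have : lsm g ([] : List G) = [] := rfl
      rw [this, secK_nil, map_zero]
    | cons a t =>
      have : lsm g (a :: t) = (g * a) :: lsm g t := rfl
      rw [this, secK_cons, secK_cons, frRho_single, lsm_lsm]
      simp
  exact LinearMap.congr_fun h v

variable (k G) in
def iP (n : ℕ) : Pn k G n ⟶ Fr k (List G) G :=
  Rep.ofHom
    { toLinearMap := (secK k G) ∘ₗ (Su k G (n + 1)).subtype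
      isIntertwining' := by
        intro g
        apply LinearMap.ext
        intro v
        exact secK_equi g v.1 }

open Classical in
variable (k G) in
def rP (n : ℕ) : Fr k (List G) G ⟶ Pn k G n :=
  frLift (Pn k G n) (fun s => if h : s.length = n then
    ⟨Finsupp.single (1 :: s) 1, single_mem_Su (by simp [h]) 1⟩ else 0)

lemma rP_single (n : ℕ) (a : G) (t : List G) (h : t.length = n) (c : k) :
    ((rP k G n).hom (Finsupp.single (lsm a⁻¹ t, a) c)).1 = Finsupp.single (a :: t) c := by
  unfold rP
  rw [frLift_single]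
  have h' : (lsm a⁻¹ t).length = n := by rw [lsm_length, h]
  rw [dif_pos h']
  change c • (Finsupp.single (1 :: lsm a⁻¹ t) (1 : k)).mapDomain (lsm a) = _
  rw [Finsupp.mapDomain_single]
  have : lsm a (1 :: lsm a⁻¹ t) = a :: t := by
    change (a * 1) :: lsm a (lsm a⁻¹ t) = a :: t
    rw [lsm_lsm, mul_inv_cancel, mul_one, lsm_one]
  rw [this]
  simp

lemma iP_rP (n : ℕ) : iP k G n ≫ rP k G n = 𝟙 _ := by
  apply Rep.hom_ext
  apply Representation.IntertwiningMap.ext
  apply LinearMap.ext
  intro v
  apply Subtype.ext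
  let T : (List G →₀ k) →ₗ[k] (List G →₀ k) :=
    (Su k G (n + 1)).subtype ∘ₗ (rP k G n).hom.toLinearMap ∘ₗ (secK k G)
  have hT : ∀ (x : List G) (c : k), x.length = n + 1 →
      T (Finsupp.single x c) = Finsupp.single x c := by
    intro x c hx
    cases x with
    | nil => simp at hx
    | cons a t =>
      change ((rP k G n).hom (secK k G (Finsupp.single (a :: t) c))).1 = _
      rw [secK_cons]
      exact rP_single n a t (by simpa using hx) c
  have h2 : T v.1 = v.1 := by
    conv_lhs => rw [← Finsupp.sum_single v.1]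
    rw [map_finsuppSum]
    conv_rhs => rw [← Finsupp.sum_single v.1]
    refine Finsupp.sum_congr fun x hx => ?_
    exact hT x _ (mem_Su.1 v.2 x (Finsupp.mem_support_iff.1 hx))
  exact h2

lemma Pn_proj (n : ℕ) : Projective (Pn k G n) where
  factors {E X} f e he := by
    refine ⟨iP k G n ≫ Projective.factorThru (rP k G n ≫ f) e, ?_⟩
    rw [Category.assoc, Projective.factorThru_comp, ← Category.assoc, iP_rP, Category.id_comp]

variable (k G) in
/-- `Zt → A_0` -/
def toA : Zt k G ⟶ An k G 0 :=
  Rep.ofHom
    { toLinearMap := LinearMap.codRestrict (Sa k G 0) (Finsupp.lsingle [])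
        (fun c => ⟨single_mem_Su rfl c, by
          change kx dk (Finsupp.single [] c) = 0
          rw [kx_single]
          simp [dk]⟩)
      isIntertwining' := by
        intro g
        apply LinearMap.ext
        intro c
        apply Subtype.ext
        change Finsupp.single [] c = (Finsupp.single ([] : List G) c).mapDomain (lsm g)
        rw [Finsupp.mapDomain_single]
        rfl }

variable (k G) in
/-- `A_0 → Zt` -/
def ofA : An k G 0 ⟶ Zt k G :=
  Rep.ofHom
    { toLinearMap := (Finsupp.lapply []) ∘ₗ (Sa k G 0).subtype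
      isIntertwining' := by
        intro g
        apply LinearMap.ext
        intro v
        change (v.1.mapDomain (lsm g)) [] = v.1 []
        have h : lsm g ([] : List G) = [] := rfl
        conv_lhs => rw [← h]
        exact Finsupp.mapDomain_apply (lsm_injective g) _ _ }

lemma ofA_toA : ofA k G ≫ toA k G = 𝟙 _ := by
  apply Rep.hom_ext
  apply Representation.IntertwiningMap.ext
  apply LinearMap.ext
  intro v
  apply Subtype.ext
  change Finsupp.single [] (v.1 []) = v.1
  ext x
  by_cases hx : x = []
  · subst hx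
    simp
  · rw [Finsupp.single_eq_of_ne hx]
    by_contra h
    have := mem_Su.1 v.2.1 x (Ne.symm h)
    exact hx (List.length_eq_zero_iff.1 this)

lemma kills_A {m N : ℕ} (h : Kills k G m N) (V : Rep.{0} k G) (i : ℕ) (hi : N ≤ i)
    (x : Ext.{0} (An k G 0) V i) : m • x = 0 := by
  have h1 : x = (Ext.mk₀ (ofA k G)).comp ((Ext.mk₀ (toA k G)).comp x (zero_add i)) (zero_add i) := by
    rw [Ext.mk₀_comp_mk₀_assoc, ofA_toA, Ext.mk₀_id_comp]
  rw [h1, ← comp_nsmul', h V i hi, Ext.comp_zero]

end S06aux

open S06aux in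
theorem exists_chainB {m N : ℕ} (hN : 1 ≤ N) (h : Kills k G m N) :
    ∃ b : Ker k G, ChainB b m N := by
  classical
  obtain ⟨N, rfl⟩ : ∃ n, N = n + 1 := ⟨N - 1, by omega⟩
  obtain ⟨f, hf⟩ := tower_extend (A := An k G) (P := Pn k G) (ι := inc k G) (p := pro k G)
    (w := inc_pro) shex Pn_proj N m (fun V x => kills_A h V (N + 1) le_rfl x)
  let F : (List G →₀ k) →ₗ[k] (List G →₀ k) :=
    (Sa k G (N + 1)).subtype ∘ₗ f.hom.toLinearMap ∘ₗ
      (Finsupp.restrictDom k k {x : List G | x.length = N + 1})
  have hFS : ∀ v, F v ∈ Sa k G (N + 1) := fun v => Subtype.prop _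
  have hFv : ∀ v (hv : v ∈ Su k G (N + 1)), F v = (f.hom ⟨v, hv⟩).1 := by
    intro v hv
    have : (Finsupp.restrictDom k k {x : List G | x.length = N + 1}) v = ⟨v, hv⟩ :=
      LinearMap.congr_fun (Finsupp.restrictDom_comp_subtype (M := k) (R := k)
        {x : List G | x.length = N + 1}) ⟨v, hv⟩
    change (f.hom ((Finsupp.restrictDom k k {x : List G | x.length = N + 1}) v)).1 = _
    rw [this]
  have hFm : ∀ v (hv : v ∈ Sa k G (N + 1)), F v = (m : k) • v := by
    intro v hv
    rw [hFv v hv.1]
    have h1 := congrArg (fun φ : An k G (N + 1) ⟶ An k G (N + 1) => (φ.hom ⟨v, hv⟩).1) hf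
    have h2 : ((m • 𝟙 (An k G (N + 1)) : An k G (N + 1) ⟶ An k G (N + 1)).hom ⟨v, hv⟩).1 =
        (m : k) • v := by
      have e : ∀ n : ℕ, ((n • 𝟙 (An k G (N + 1)) : An k G (N + 1) ⟶ An k G (N + 1)).hom
          ⟨v, hv⟩).1 = (n : k) • v := by
        intro n
        induction n with
        | zero =>
          rw [zero_smul, Nat.cast_zero, zero_smul]
          rfl
        | succ n ih =>
          rw [succ_nsmul, Nat.cast_succ, add_smul, one_smul, ← ih]
          rfl
      exact e m
    rw [← h2]
    exact h1
  have hFg : ∀ (g : G) (x : List G), x.length = N + 1 →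
      F (Finsupp.single (lsm g x) 1) = (F (Finsupp.single x 1)).mapDomain (lsm g) := by
    intro g x hx
    have hx' : (lsm g x).length = N + 1 := by rw [lsm_length, hx]
    rw [hFv _ (single_mem_Su hx' 1), hFv _ (single_mem_Su hx 1)]
    have h1 := Rep.hom_comm_apply f g (⟨Finsupp.single x 1, single_mem_Su hx 1⟩ : (Pn k G N).V)
    have h2 : (Pn k G N).ρ g (⟨Finsupp.single x 1, single_mem_Su hx 1⟩ : (Pn k G N).V) =
        ⟨Finsupp.single (lsm g x) 1, single_mem_Su hx' 1⟩ := by
      apply Subtype.ext
      change (Finsupp.single x (1 : k)).mapDomain (lsm g) = _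
      rw [Finsupp.mapDomain_single]
    rw [h2] at h1
    rw [h1]
    rfl
  let b : Ker k G := fun x =>
    if x.length < N + 1 then Finsupp.single x (m : k)
    else if x.length = N + 1 then Finsupp.single x (m : k) - F (Finsupp.single x 1)
    else 0
  have b1 : ∀ x : List G, x.length < N + 1 → b x = Finsupp.single x (m : k) := fun x hx => if_pos hx
  have b2 : ∀ x : List G, x.length = N + 1 →
      b x = Finsupp.single x (m : k) - F (Finsupp.single x 1) := by
    intro x hx
    change (if _ then _ else _) = _
    rw [if_neg (by omega), if_pos hx]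
  have b3 : ∀ x : List G, N + 1 < x.length → b x = 0 := by
    intro x hx
    change (if _ then _ else _) = _
    rw [if_neg (by omega), if_neg (by omega)]
  -- values of the linear extension of `b`
  have k1 : ∀ (n : ℕ) (v : List G →₀ k), n < N + 1 → v ∈ Su k G n → kx b v = (m : k) • v := by
    intro n v hn hv
    rw [kx, Finsupp.linearCombination_apply]
    conv_rhs => rw [← Finsupp.sum_single v, Finsupp.smul_sum]
    refine Finsupp.sum_congr fun x hx => ?_
    have hx' := mem_Su.1 hv x (Finsupp.mem_support_iff.1 hx)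
    rw [b1 x (by omega), Finsupp.smul_single, Finsupp.smul_single, smul_eq_mul, smul_eq_mul,
      mul_comm]
  have k2 : ∀ v : List G →₀ k, v ∈ Su k G (N + 1) → kx b v = (m : k) • v - F v := by
    intro v hv
    rw [kx, Finsupp.linearCombination_apply]
    conv_rhs => rw [← Finsupp.sum_single v, Finsupp.smul_sum, map_finsuppSum, ← Finsupp.sum_sub]
    refine Finsupp.sum_congr fun x hx => ?_
    have hx' := mem_Su.1 hv x (Finsupp.mem_support_iff.1 hx)
    rw [b2 x hx', smul_sub, ← map_smul, Finsupp.smul_single, Finsupp.smul_single,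
      Finsupp.smul_single, smul_eq_mul, smul_eq_mul, smul_eq_mul, mul_one, mul_comm (m : k)]
  have k3 : ∀ (n : ℕ) (v : List G →₀ k), N + 1 < n → v ∈ Su k G n → kx b v = 0 := by
    intro n v hn hv
    rw [kx, Finsupp.linearCombination_apply]
    refine Finset.sum_eq_zero fun x hx => ?_
    have hx' := mem_Su.1 hv x (Finsupp.mem_support_iff.1 hx)
    change v x • b x = 0
    rw [b3 x (by omega), smul_zero]
  refine ⟨b, ?_, ?_, ?_, ?_, ?_⟩
  · intro x y hy
    rcases lt_trichotomy x.length (N + 1) with hx | hx | hx
    · rw [b1 x hx] at hy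
      exact mem_Su.1 (single_mem_Su (k := k) (rfl : x.length = x.length) (m : k)) y hy
    · rw [b2 x hx] at hy
      rw [hx]
      exact mem_Su.1 (Submodule.sub_mem _ (single_mem_Su hx (m : k)) (hFS _).1) y hy
    · rw [b3 x hx] at hy
      exact absurd rfl hy
  · intro g x
    rcases lt_trichotomy x.length (N + 1) with hx | hx | hx
    · rw [b1 x hx, b1 _ (by rw [lsm_length]; exact hx), Finsupp.mapDomain_single]
    · rw [b2 x hx, b2 _ (by rw [lsm_length]; exact hx), hFg g x hx]
      have : ∀ u v : List G →₀ k, (u - v).mapDomain (lsm g) =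
          u.mapDomain (lsm g) - v.mapDomain (lsm g) := fun u v =>
        map_sub (Finsupp.lmapDomain k k (lsm g)) u v
      rw [this, Finsupp.mapDomain_single]
    · rw [b3 x hx, b3 _ (by rw [lsm_length]; exact hx), Finsupp.mapDomain_zero]
  · exact b1 [] (by simp)
  · exact b3
  · funext x
    change kx dk (b x) = kx b (dk x)
    have hd : (dk x : List G →₀ k) ∈ Su k G (x.length - 1) := by
      rw [mem_Su]
      intro y hy
      have := dk_len hy
      omega
    rcases lt_trichotomy x.length (N + 1) with hx | hx | hx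
    · rw [b1 x hx, kx_single, k1 _ _ (by omega) hd]
    · rw [b2 x hx, map_sub, kx_single, k1 _ _ (by omega) hd]
      have : kx dk (F (Finsupp.single x 1)) = 0 := (hFS _).2
      rw [this, sub_zero]
    · rw [b3 x hx, map_zero]
      rcases Nat.lt_or_ge (N + 2) x.length with h2 | h2
      · rw [k3 _ _ (by omega) hd]
      · have h3 : x.length - 1 = N + 1 := by omega
        rw [h3] at hd
        have hda : (dk x : List G →₀ k) ∈ Sa k G (N + 1) := by
          refine ⟨hd, ?_⟩
          exact congrFun dk_dk x
        rw [k2 _ hd, hFm _ hda, sub_self]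

end

end Pool.MP0c3001.DV
end

section

/-!
# S13: `m^l` kills `H^i(E;D)` for `i ≥ l N` if all `M_d(D)`, `d ≥ 1`, are acyclic

`exists_chainB` gives `b`.  Apply `dual_tower` to `M n = Md h hz D n`, `δ n = mdD h hz D n`,
`β n = mdB h hz hb D n`, `μ = m ^ l`, `n₀ = l * N`:
`hcomm`: `bst_dl` (with `mdD_apply`, `mdB_apply`); `hex`: if `δ f = 0`, `f ∈ Sd (n+1)`, then
`f = δ (h f) + h (δ f) = δ (h f)` with `h = cop ck 0` (`dl_homotopy`, `ck_mem_Sd`); `hinj`: if `f ∈ Sd 0`,
`δ f = 0`, then `f = h δ f + δ h f = 0` (`ck_Sd_zero`); `hdd`: `dl_sq`; `h0`: `bst_zero`; `htop`: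
`bst_top`.
Finally `D ≅ Md h hz D 0` (the functions supported on the tuple of empty lists; evaluation at
`fun _ => []` is an isomorphism of representations: `mlRho_ι`, `mlRho_w` and `RootExt.induct`, the sign
of `wOp` at the empty tuple is `1`, `rot z (fun _ => []) = fun _ => []`); transport
`x ∈ H^i(E;D)` along this isomorphism.
-/

set_option autoImplicit false

namespace Pool.MP0c3001.DV

open CategoryTheory CategoryTheory.Abelian Limits

noncomputable section

variable {k : Type} [CommRing k] {G E : Type} [Group G] [Group E] {l : ℕ} [NeZero l]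
  {ι : G →* E} {w : E} {z : G}

theorem kills_of_acyclic (h : RootExt ι w z l) (hz : ∀ g : G, z * g = g * z) {m N : ℕ}
    (hN : 1 ≤ N) (hK : Kills k G m N) (D : Rep.{0} k E)
    (hacy : ∀ d i, 1 ≤ d → 1 ≤ i → ∀ x : HH k E (Md h hz D d) i, x = 0)
    (i : ℕ) (hi : l * N ≤ i) (x : HH k E D i) : (m ^ l) • x = 0 := by
  obtain ⟨b, hb⟩ := exists_chainB hN hK
  -- the tower gives the statement for `M_0(D)`
  have key : ∀ y : HH k E (Md h hz D 0) i, (m ^ l) • y = 0 := by
    intro y
    refine dual_tower (fun n => Md h hz D n) (fun n => mdD h hz D n) (fun n => mdB h hz hb D n)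
      ?_ ?_ ?_ ?_ (fun n i hn hi x => hacy n i hn hi x) (m ^ l) (l * N) ?_ ?_ i hi y
    · intro n
      apply Rep.hom_ext
      apply Representation.IntertwiningMap.ext
      apply LinearMap.ext
      intro f
      apply Subtype.ext
      exact (LinearMap.congr_fun (bst_dl (k := k) (D := D.V) (l := l) hb) f.1).symm
    · intro f f' hff
      have h1 : dl k f.1 = dl k f'.1 := congrArg Subtype.val hff
      apply Subtype.ext
      have h2 : ∀ u : (Md h hz D 0).V, cop (ck : Ker k G) (0 : Fin l) (dl k u.1) = u.1 := by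
        intro u
        have h3 := LinearMap.congr_fun (dl_homotopy (k := k) (G := G) (D := D.V) (l := l)) u.1
        have h4 : cop (ck : Ker k G) (0 : Fin l) (dl k u.1) +
            dl k (cop (ck : Ker k G) (0 : Fin l) u.1) = u.1 := h3
        rw [ck_Sd_zero u.2, map_zero, add_zero] at h4
        exact h4
      rw [← h2 f, ← h2 f', h1]
    · intro n f hf
      have h1 : dl k f.1 = 0 := congrArg Subtype.val hf
      refine ⟨⟨cop (ck : Ker k G) (0 : Fin l) f.1, ck_mem_Sd f.2⟩, ?_⟩
      apply Subtype.ext
      have h3 := LinearMap.congr_fun (dl_homotopy (k := k) (G := G) (D := D.V) (l := l)) f.1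
      have h4 : cop (ck : Ker k G) (0 : Fin l) (dl k f.1) +
          dl k (cop (ck : Ker k G) (0 : Fin l) f.1) = f.1 := h3
      rw [h1, map_zero, zero_add] at h4
      exact h4
    · intro n f
      apply Subtype.ext
      exact LinearMap.congr_fun (dl_sq (k := k) (G := G) (D := D.V) (l := l)) f.1
    · intro f
      apply Subtype.ext
      exact bst_zero hb f.2
    · intro n hn f
      apply Subtype.ext
      exact bst_top hb hn f.2
  -- `M_0(D)` is isomorphic to `D`
  have hnil : rot z (fun _ => [] : ML G l) = fun _ => [] := by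
    funext j
    simp only [rot]
    split_ifs
    · rfl
    · rfl
  have hev : ∀ (x : E) (f : ML G l → D.V),
      mlRho h hz D x f (fun _ => []) = D.ρ x (f (fun _ => [])) := by
    intro x
    refine h.induct (p := fun x => ∀ f : ML G l → D.V,
      mlRho h hz D x f (fun _ => []) = D.ρ x (f (fun _ => []))) ?_ ?_ ?_ x
    · intro g f
      rw [mlRho_ι]
      rfl
    · intro f
      rw [mlRho_w]
      change ((-1 : k) ^ (([] : List G).length *
        (tot (fun _ => [] : ML G l) - ([] : List G).length))) •
          D.ρ w (f (rot z (fun _ => []))) = D.ρ w (f (fun _ => []))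
      rw [hnil, List.length_nil, Nat.zero_mul, pow_zero, one_smul]
    · intro x y hx hy f
      rw [map_mul, map_mul]
      change mlRho h hz D x (mlRho h hz D y f) (fun _ => []) = D.ρ x (D.ρ y (f (fun _ => [])))
      rw [hx, hy]
  have htot : ∀ y : ML G l, tot y = 0 → y = fun _ => [] := by
    intro y hy
    funext j
    exact List.eq_nil_of_length_eq_zero ((Finset.sum_eq_zero_iff.1 hy) j (Finset.mem_univ j))
  have htot0 : tot (fun _ => [] : ML G l) = 0 := by
    simp [tot]
  have hmem : ∀ v : D.V, (fun y : ML G l => if tot y = 0 then v else 0) ∈ Sd k D.V G l 0 := by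
    intro v y hy
    exact if_neg hy
  have hinc : ∀ f : (Md h hz D 0).V,
      (fun y : ML G l => if tot y = 0 then f.1 (fun _ => []) else 0) = f.1 := by
    intro f
    funext y
    by_cases hy : tot y = 0
    · rw [if_pos hy, ← htot y hy]
    · rw [if_neg hy]
      exact (f.2 y hy).symm
  let ev : Md h hz D 0 ⟶ D := Rep.ofHom
    { toLinearMap :=
        { toFun := fun f => f.1 (fun _ => [])
          map_add' := fun _ _ => rfl
          map_smul' := fun _ _ => rfl }
      isIntertwining' := by
        intro x
        apply LinearMap.ext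
        intro f
        exact hev x f.1 }
  let inc : D ⟶ Md h hz D 0 := Rep.ofHom
    { toLinearMap :=
        { toFun := fun v => ⟨fun y => if tot y = 0 then v else 0, hmem v⟩
          map_add' := by
            intro v v'
            apply Subtype.ext
            funext y
            change (if tot y = 0 then v + v' else 0) =
              (if tot y = 0 then v else 0) + (if tot y = 0 then v' else 0)
            split_ifs
            · rfl
            · exact (add_zero 0).symm
          map_smul' := by
            intro a v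
            apply Subtype.ext
            funext y
            change (if tot y = 0 then a • v else 0) = a • (if tot y = 0 then v else 0)
            split_ifs
            · rfl
            · exact (smul_zero a).symm }
      isIntertwining' := by
        intro x
        apply LinearMap.ext
        intro v
        apply Subtype.ext
        have h1 := hinc ⟨mlRho h hz D x (fun y => if tot y = 0 then v else 0),
          mlRho_mem h hz D 0 x _ (hmem v)⟩
        refine Eq.trans ?_ h1
        funext y
        change (if tot y = 0 then D.ρ x v else 0) = if tot y = 0 then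
          mlRho h hz D x (fun y => if tot y = 0 then v else 0) (fun _ => []) else 0
        rw [hev, if_pos htot0] }
  have hid : inc ≫ ev = 𝟙 D := by
    apply Rep.hom_ext
    apply Representation.IntertwiningMap.ext
    apply LinearMap.ext
    intro v
    change (if tot (fun _ => [] : ML G l) = 0 then v else 0) = v
    rw [if_pos htot0]
  have h1 := key (x.comp (Ext.mk₀ inc) (add_zero i))
  have h2 : x = (x.comp (Ext.mk₀ inc) (add_zero i)).comp (Ext.mk₀ ev) (add_zero i) := by
    rw [Ext.comp_assoc_of_third_deg_zero, Ext.mk₀_comp_mk₀, hid, Ext.comp_mk₀_id]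
  rw [h2]
  have h3 := map_nsmul ((Ext.mk₀ ev).postcomp (Zt k E) (add_zero i)) (m ^ l)
    (x.comp (Ext.mk₀ inc) (add_zero i))
  rw [h1, map_zero] at h3
  exact h3.symm

end

end Pool.MP0c3001.DV
end
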