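import Pool.Agent.Lib.MP_0c3001_gt.DV.Defs
import Pool.Agent.Lib.MP_0c3001_gt.Mg.G010

section

/-!
# FU: finite generation in the Gysin sequence of one module

Let `D = Dc hc`, `φ : Ext^i(D,V) ≅ Ext^i(Iaug k G, res V)` (`Dc_bij`; compare `gysin_fg`, `fg_Iaug`, `gys_fg`).
* `gysin_up`: `i ≥ 1`.  `Ext^i(Iaug k Q, V)` injects into `H^{i+1}(Q;V)` (`(augSeq k Q).extClass.comp`, injective for
  `i ≥ 1`, `kills_Iaug`) so it is finitely generated; `Ext^i(D,V)` is in the middle of the exact sequence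
  `Ext^i(Iaug k Q,V) → Ext^i(D,V) → Ext^i(Zt,V)` (`Ext.contravariant_sequence_exact₂ (dSeq hc)`), so it is
  finitely generated (`fg_of_exact`); so is `Ext^i(Iaug k G, res V)`, which maps onto `H^{i+1}(G;res V)` by
  `(augSeq k G).extClass.comp` (`Ext.contravariant_sequence_exact₃`, `Ext^{i+1}(Fr,·) = 0`).
* `gysin_down`: all `Ext^i(Iaug k G, res V)` are finitely generated (proof of `fg_Iaug`, using `Module.Finite ℤ V.V`
  and the hypothesis instead of `FgCoh`), so are all `Ext^i(D,V)`; `H^0(Q;V)` is a subgroup of `V`; `gys_fg`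
  (proof of `gysin_fg`).
-/

set_option autoImplicit false

namespace Pool.MP0c3001.DV

open CategoryTheory CategoryTheory.Abelian Limits

noncomputable section

variable {k : Type} [CommRing k] {G Q : Type} [Group G] [Group Q]

/-- `Ext^i(Iaug, W)` is finitely generated, `i ≥ 1` -/
private lemma FU_Iaug_pos (W : Rep.{0} k G) (i : ℕ) (hi : 1 ≤ i) (h0 : Module.Finite ℤ (HH k G W i))
    (h1 : Module.Finite ℤ (HH k G W (i + 1))) : Module.Finite ℤ (Ext.{0} (Iaug k G) W i) := by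
  obtain ⟨i, rfl⟩ : ∃ i', i = i' + 1 := ⟨i - 1, by omega⟩
  refine fg_of_exact (0 : HH k G W (i + 1) →+ _)
    ((augSeq k G).extClass.precomp W (show 1 + (i + 1) = i + 2 by omega)) (fun b hb => ?_) h0 h1
  obtain ⟨x₂, hx₂⟩ := Ext.contravariant_sequence_exact₁ (augSeq k G) W b
    (show 1 + (i + 1) = i + 2 by omega) hb
  have h0 : x₂ = 0 := Ext.eq_zero_of_projective _
  refine ⟨0, ?_⟩
  rw [← hx₂, h0, Ext.comp_zero]
  rfl

private lemma FU_Iaug_zero (W : Rep.{0} k G) (hW : Module.Finite ℤ W.V)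
    (h1 : Module.Finite ℤ (HH k G W 1)) : Module.Finite ℤ (Ext.{0} (Iaug k G) W 0) := by
  have h2 : Module.Finite ℤ (Ext.{0} (Fr k Unit G) W 0) := by
    have e : Ext.{0} (Fr k Unit G) W 0 ≃+ (Fr k Unit G ⟶ W) := Ext.addEquiv₀
    let ev : (Fr k Unit G ⟶ W) →+ W.V :=
      { toFun := fun f => f.hom (Finsupp.single ((), 1) 1)
        map_zero' := rfl
        map_add' := fun f g => rfl }
    have hinj : Function.Injective (ev.comp e.toAddMonoidHom) := by
      have hev : Function.Injective ev := fun f g hfg => fr_hom_ext (fun s => hfg)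
      exact hev.comp e.injective
    exact Module.Finite.of_injective (ev.comp e.toAddMonoidHom).toIntLinearMap hinj
  refine fg_of_exact ((Ext.mk₀ (kerInc (aug k G))).precomp W (zero_add 0))
    ((augSeq k G).extClass.precomp W (show 1 + 0 = 1 by omega)) (fun b hb => ?_) h2 h1
  exact Ext.contravariant_sequence_exact₁ (augSeq k G) W b (show 1 + 0 = 1 by omega) hb

private lemma FU_Zt (V : Rep.{0} k Q) (hV : Module.Finite ℤ V.V) :
    Module.Finite ℤ (Ext.{0} (Zt k Q) V 0) := by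
  have e : Ext.{0} (Zt k Q) V 0 ≃+ (Zt k Q ⟶ V) := Ext.addEquiv₀
  let ev : (Zt k Q ⟶ V) →+ V.V :=
    { toFun := fun f => f.hom (1 : k)
      map_zero' := rfl
      map_add' := fun f g => rfl }
  have hinj : Function.Injective (ev.comp e.toAddMonoidHom) := by
    have hev : Function.Injective ev := by
      intro f g hfg
      exact trivHom_ext hfg
    exact hev.comp e.injective
  exact Module.Finite.of_injective (ev.comp e.toAddMonoidHom).toIntLinearMap hinj

theorem gysin_up {π : G →* Q} {z : G} (hπ : CycExt π z) {c : Q → Q → k} (hc : IsCoc c)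
    (hf : Fits π z c) (V : Rep.{0} k Q) (i : ℕ) (hi : 1 ≤ i)
    (h0 : Module.Finite ℤ (HH k Q V i)) (h1 : Module.Finite ℤ (HH k Q V (i + 1))) :
    Module.Finite ℤ (HH k G ((Rep.resFunctor.{0} (k := k) π).obj V) (i + 1)) := by
  have hI : Module.Finite ℤ (Ext.{0} (Iaug k Q) V i) := FU_Iaug_pos V i hi h0 h1
  have hD : Module.Finite ℤ (Ext.{0} (Dc (k := k) hc) V i) := by
    refine fg_of_exact (A := Ext.{0} (Iaug k Q) V i) (C := HH k Q V i)
      ((Ext.mk₀ (dProj (k := k) hc)).precomp V (zero_add i))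
      ((Ext.mk₀ (dInc (k := k) hc)).precomp V (zero_add i)) (fun b hb => ?_) hI h0
    exact Ext.contravariant_sequence_exact₂ (dSeq (k := k) hc) V b hb
  obtain ⟨φ, hφ⟩ := Dc_bij hπ hc hf V i
  have hG : Module.Finite ℤ (Ext.{0} (Iaug k G) ((Rep.resFunctor.{0} (k := k) π).obj V) i) :=
    Module.Finite.of_surjective φ.toIntLinearMap hφ.2
  refine Module.Finite.of_surjective
    ((augSeq k G).extClass.precomp ((Rep.resFunctor.{0} (k := k) π).obj V)
      (show 1 + i = i + 1 by omega)).toIntLinearMap fun b => ?_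
  obtain ⟨x, hx⟩ := Ext.contravariant_sequence_exact₃ (augSeq k G)
    ((Rep.resFunctor.{0} (k := k) π).obj V) b (Ext.eq_zero_of_projective _)
    (show 1 + i = i + 1 by omega)
  exact ⟨x, hx⟩

theorem gysin_down {π : G →* Q} {z : G} (hπ : CycExt π z) {c : Q → Q → k} (hc : IsCoc c)
    (hf : Fits π z c) (V : Rep.{0} k Q) (hV : Module.Finite ℤ V.V)
    (h0 : ∀ i, Module.Finite ℤ (HH k G ((Rep.resFunctor.{0} (k := k) π).obj V) i)) (i : ℕ) :
    Module.Finite ℤ (HH k Q V i) := by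
  have hX : ∀ i, Module.Finite ℤ (Ext.{0} (Dc (k := k) hc) V i) := by
    intro i
    obtain ⟨φ, hφ⟩ := Dc_bij hπ hc hf V i
    have hG : Module.Finite ℤ (Ext.{0} (Iaug k G) ((Rep.resFunctor.{0} (k := k) π).obj V) i) := by
      rcases Nat.eq_zero_or_pos i with rfl | hi
      · exact FU_Iaug_zero _ hV (h0 1)
      · exact FU_Iaug_pos _ i hi (h0 i) (h0 (i + 1))
    exact Module.Finite.of_injective φ.toIntLinearMap hφ.1
  exact (gys_fg (dSeq (k := k) hc) (augSeq k Q) V hX (FU_Zt V hV) i).1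

end

end Pool.MP0c3001.DV
end

section

/-!
# G2a: lifts of the centralizer of a root

For `h ∈ Cn r` choose `t ∈ G` with `p t = h`.  The commutator `y = t * g * t⁻¹ * g⁻¹` satisfies
`p y = 1` (`h` commutes with `r = p g`), so `y ∈ ker p ≤ ker π` is central.  `t * g * t⁻¹ = y * g`, so
`t * g ^ l * t⁻¹ = (y g) ^ l = y ^ l * g ^ l`.  `g ^ l` is in `π.ker` (`π (g ^ l) = ϖ (r ^ l) = ϖ z = 1`), hence central,
so `y ^ l = 1` and `y = 1` (`htf`).
-/

set_option autoImplicit false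

namespace Pool.MP0c3001.DV

variable {G G' Q : Type} [Group G] [Group G'] [Group Q] {z : G'} {l : ℕ}

theorem exists_lifts (π : G →* Q) (p : G →* G') (hp : Function.Surjective p) {ϖ : G' →* Q}
    (hϖ : CycExt ϖ z) (hϖp : ∀ g, ϖ (p g) = π g) (hcen : π.ker ≤ Subgroup.center G)
    (hpk : p.ker ≤ π.ker) (htf : ∀ b ∈ π.ker, ∀ n : ℕ, 0 < n → b ^ n = 1 → b = 1)
    (hl : 0 < l) (r : Rt z l) (g : G) (hg : p g = r.1) :
    ∃ t : Cn r.1 → G, (∀ h, p (t h) = h.1) ∧ ∀ h, t h * g = g * t h := by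
  have h0 : ∀ h : Cn r.1, ∃ t : G, p t = h.1 := fun h => hp h.1
  choose t ht using h0
  refine ⟨t, ht, fun h => ?_⟩
  have hh : h.1 * r.1 = r.1 * h.1 := mem_Cn.1 h.2
  have hy : t h * g * (t h)⁻¹ * g⁻¹ ∈ π.ker := by
    apply hpk
    rw [MonoidHom.mem_ker, map_mul, map_mul, map_mul, map_inv, map_inv, ht, hg, hh]
    group
  have hyc := Subgroup.mem_center_iff.1 (hcen hy)
  have hgl : g ^ l ∈ π.ker := by
    rw [MonoidHom.mem_ker, map_pow, ← hϖp, hg, ← map_pow, r.2]
    exact hϖ.map_z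
  have hglc := Subgroup.mem_center_iff.1 (hcen hgl)
  have h1 : (t h * g * (t h)⁻¹) ^ l = g ^ l := by
    rw [conj_pow, hglc (t h), mul_inv_cancel_right]
  have h2 : t h * g * (t h)⁻¹ = (t h * g * (t h)⁻¹ * g⁻¹) * g := by
    rw [inv_mul_cancel_right]
  have h3 : Commute (t h * g * (t h)⁻¹ * g⁻¹) g := (hyc g).symm
  rw [h2, h3.mul_pow] at h1
  have h4 : (t h * g * (t h)⁻¹ * g⁻¹) ^ l = 1 := by
    have h5 : (t h * g * (t h)⁻¹ * g⁻¹) ^ l * g ^ l = 1 * g ^ l := by rw [one_mul]; exact h1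
    exact mul_right_cancel h5
  have h5 := htf _ hy l hl h4
  have h6 : t h * g * (t h)⁻¹ = g := mul_inv_eq_one.1 h5
  exact mul_inv_eq_iff_eq_mul.1 h6

end Pool.MP0c3001.DV
end
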