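import Pool.Agent.Lib.MP_0c3001_gt.DV.Defs
import Pool.Agent.Lib.MP_0c3001_gt.Mg.G009

section

/-!
# Multiplication with a class of degree two on the total cohomology (definitions; complete)
-/

set_option autoImplicit false

namespace Pool.MP0c3001.DV

open CategoryTheory CategoryTheory.Abelian Limits

noncomputable section

variable {k : Type} [CommRing k] {Q Q' : Type} [Group Q] [Group Q']

/-- the total cohomology -/
abbrev TH (k : Type) [CommRing k] (Q : Type) [Group Q] (V : Rep.{0} k Q) : Type :=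
  ∀ i : ℕ, HH k Q V i

/-- the function `x ↦ e x` -/
def opF (e : HH k Q (Zt k Q) 2) (V : Rep.{0} k Q) (x : TH k Q V) : TH k Q V
  | 0 => 0
  | 1 => 0
  | i + 2 => e.comp (x i) (show 2 + i = i + 2 by omega)

/-- multiplication with `e` -/
def opE (e : HH k Q (Zt k Q) 2) (V : Rep.{0} k Q) : Module.End ℤ (TH k Q V) :=
  AddMonoidHom.toIntLinearMap
    { toFun := opF e V
      map_zero' := by
        funext i
        match i with
        | 0 => rfl
        | 1 => rfl
        | i + 2 => exact (e.precomp V (show 2 + i = i + 2 by omega)).map_zero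
      map_add' := by
        intro x y
        funext i
        match i with
        | 0 => exact (add_zero _).symm
        | 1 => exact (add_zero _).symm
        | i + 2 => exact Ext.comp_add e (x i) (y i) (show 2 + i = i + 2 by omega) }

lemma opE_zero' (e : HH k Q (Zt k Q) 2) (V : Rep.{0} k Q) (x : TH k Q V) : opE e V x 0 = 0 := rfl

lemma opE_one' (e : HH k Q (Zt k Q) 2) (V : Rep.{0} k Q) (x : TH k Q V) : opE e V x 1 = 0 := rfl

lemma opE_add_two (e : HH k Q (Zt k Q) 2) (V : Rep.{0} k Q) (x : TH k Q V) (i : ℕ) :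
    opE e V x (i + 2) = e.comp (x i) (show 2 + i = i + 2 by omega) := rfl

/-- change of the coefficients -/
def postM {V W : Rep.{0} k Q} (f : V ⟶ W) : TH k Q V →ₗ[ℤ] TH k Q W :=
  AddMonoidHom.toIntLinearMap
    { toFun := fun x i => (x i).comp (Ext.mk₀ f) (add_zero i)
      map_zero' := by
        funext i
        exact (((Ext.mk₀ f).postcomp (Zt k Q) (add_zero i)).map_zero)
      map_add' := by
        intro x y
        funext i
        exact (((Ext.mk₀ f).postcomp (Zt k Q) (add_zero i)).map_add (x i) (y i)) }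

/-- restriction -/
def resM (φ : Q' →* Q) (V : Rep.{0} k Q) :
    TH k Q V →ₗ[ℤ] TH k Q' ((Rep.resFunctor.{0} (k := k) φ).obj V) :=
  AddMonoidHom.toIntLinearMap
    { toFun := fun x i => rs φ (x i)
      map_zero' := by
        funext i
        exact ((Rep.resFunctor.{0} (k := k) φ).mapExtAddHom (Zt k Q) V i).map_zero
      map_add' := by
        intro x y
        funext i
        exact ((Rep.resFunctor.{0} (k := k) φ).mapExtAddHom (Zt k Q) V i).map_add _ _ }

/-- the classes concentrated in degree `2 i` -/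
def evA (k : Type) [CommRing k] (Q : Type) [Group Q] (V : Rep.{0} k Q) (i : ℕ) :
    Submodule ℤ (TH k Q V) where
  carrier := {x | ∀ j, j ≠ 2 * i → x j = 0}
  zero_mem' := fun _ _ => rfl
  add_mem' := by
    intro x y hx hy j hj
    rw [Pi.add_apply, hx j hj, hy j hj, add_zero]
  smul_mem' := by
    intro n x hx j hj
    rw [Pi.smul_apply, hx j hj, smul_zero]

end

end Pool.MP0c3001.DV
end

section

/-!
# O1: the operators `opE`

All statements are checked degree by degree (`funext i`, cases `0, 1, i + 2`: `opE_zero'`, `opE_one'`, `opE_add_two`).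
* `opE_add`, `opE_zsmul`: `Ext.add_comp`, `zsmul_comp'`.
* `opE_commute`: in degree `i + 4` both sides are `(e.comp e').comp (x i)` (associativity `Ext.comp_assoc`);
  lower degrees `0` (degrees `0..3`).
* `opE_postM`: associativity.  `opE_resM`: `rs_comp`.
* `opE_pow_apply`: induction over `n` (`epow e (n+1) = e.comp (epow e n)`; it is convenient to prove at the
  same time that the power vanishes in degrees `< 2 n`: `opE_pow_low`).
* `opE_pow_zero`: `epow e n` divisible by `l` and `l V = 0`: `comp_dvd_zero`, every degree is `< 2 n` or of the form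
  `2 n + i`.
* `th_kill`: `coh_kill` in each degree.
* `opE_evA`: `opE` maps `evA i` to `evA (i + 1)`.
* `evA_fg`: `evA k Q V i` is isomorphic to `H^{2 i}(Q;V)` (`Pi.single`), so it is finitely generated if
  `FgCoh k Q` and `V` is finite over `k`.
-/

set_option autoImplicit false

namespace Pool.MP0c3001.DV

open CategoryTheory CategoryTheory.Abelian Limits

noncomputable section

variable {k : Type} [CommRing k] {Q Q' : Type} [Group Q] [Group Q']

theorem opE_add (e e' : HH k Q (Zt k Q) 2) (V : Rep.{0} k Q) :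
    opE (e + e') V = opE e V + opE e' V := by
  refine LinearMap.ext fun x => funext fun i => ?_
  match i with
  | 0 => exact (add_zero _).symm
  | 1 => exact (add_zero _).symm
  | i + 2 => exact Ext.add_comp e e' (x i) (show 2 + i = i + 2 by omega)

theorem opE_zsmul (n : ℤ) (e : HH k Q (Zt k Q) 2) (V : Rep.{0} k Q) :
    opE (n • e) V = n • opE e V := by
  refine LinearMap.ext fun x => funext fun i => ?_
  match i with
  | 0 => exact (smul_zero n).symm
  | 1 => exact (smul_zero n).symm
  | i + 2 => exact zsmul_comp' n e (x i) (show 2 + i = i + 2 by omega)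

theorem opE_commute {e e' : HH k Q (Zt k Q) 2}
    (h : e.comp e' (rfl : 2 + 2 = 4) = e'.comp e (rfl : 2 + 2 = 4)) (V : Rep.{0} k Q) :
    Commute (opE e V) (opE e' V) := by
  refine LinearMap.ext fun x => funext fun i => ?_
  match i with
  | 0 => rfl
  | 1 => rfl
  | 2 =>
    have h1 : (opE e V * opE e' V) x 2 = e.comp (0 : HH k Q V 0) (show 2 + 0 = 2 by omega) := rfl
    have h2 : (opE e' V * opE e V) x 2 = e'.comp (0 : HH k Q V 0) (show 2 + 0 = 2 by omega) := rfl
    rw [h1, h2, Ext.comp_zero, Ext.comp_zero]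
  | 3 =>
    have h1 : (opE e V * opE e' V) x 3 = e.comp (0 : HH k Q V 1) (show 2 + 1 = 3 by omega) := rfl
    have h2 : (opE e' V * opE e V) x 3 = e'.comp (0 : HH k Q V 1) (show 2 + 1 = 3 by omega) := rfl
    rw [h1, h2, Ext.comp_zero, Ext.comp_zero]
  | i + 4 =>
    have h1 : (opE e V * opE e' V) x (i + 4) =
        e.comp (e'.comp (x i) (show 2 + i = i + 2 by omega)) (show 2 + (i + 2) = i + 4 by omega) :=
      rfl
    have h2 : (opE e' V * opE e V) x (i + 4) =
        e'.comp (e.comp (x i) (show 2 + i = i + 2 by omega)) (show 2 + (i + 2) = i + 4 by omega) :=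
      rfl
    have h3 : (e.comp e' (rfl : 2 + 2 = 4)).comp (x i) (show 4 + i = i + 4 by omega) =
        e.comp (e'.comp (x i) (show 2 + i = i + 2 by omega)) (show 2 + (i + 2) = i + 4 by omega) :=
      Ext.comp_assoc _ _ _ _ _ (by omega)
    have h4 : (e'.comp e (rfl : 2 + 2 = 4)).comp (x i) (show 4 + i = i + 4 by omega) =
        e'.comp (e.comp (x i) (show 2 + i = i + 2 by omega)) (show 2 + (i + 2) = i + 4 by omega) :=
      Ext.comp_assoc _ _ _ _ _ (by omega)
    rw [h1, h2, ← h3, ← h4, h]

theorem opE_postM (e : HH k Q (Zt k Q) 2) {V W : Rep.{0} k Q} (f : V ⟶ W) (x : TH k Q V) :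
    postM f (opE e V x) = opE e W (postM f x) := by
  refine funext fun i => ?_
  match i with
  | 0 =>
    have h1 : (0 : HH k Q V 0).comp (Ext.mk₀ f) (add_zero 0) = 0 := by rw [Ext.zero_comp]
    exact h1
  | 1 =>
    have h1 : (0 : HH k Q V 1).comp (Ext.mk₀ f) (add_zero 1) = 0 := by rw [Ext.zero_comp]
    exact h1
  | i + 2 =>
    exact Ext.comp_assoc_of_third_deg_zero e (x i) (Ext.mk₀ f) (show 2 + i = i + 2 by omega)

theorem opE_resM (φ : Q' →* Q) (e : HH k Q (Zt k Q) 2) (V : Rep.{0} k Q) (x : TH k Q V) :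
    resM φ V (opE e V x) = opE (rs φ e : HH k Q' (Zt k Q') 2) _ (resM φ V x) := by
  refine funext fun i => ?_
  match i with
  | 0 => exact ((Rep.resFunctor.{0} (k := k) φ).mapExtAddHom (Zt k Q) V 0).map_zero
  | 1 => exact ((Rep.resFunctor.{0} (k := k) φ).mapExtAddHom (Zt k Q) V 1).map_zero
  | i + 2 => exact rs_comp φ e (x i) (show 2 + i = i + 2 by omega)

theorem opE_pow_low (e : HH k Q (Zt k Q) 2) (V : Rep.{0} k Q) (n : ℕ) (x : TH k Q V) (j : ℕ)
    (hj : j < 2 * n) : (opE e V ^ n) x j = 0 := by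
  induction n generalizing j with
  | zero => omega
  | succ n ih =>
    rw [pow_succ', Module.End.mul_apply]
    match j, hj with
    | 0, _ => rfl
    | 1, _ => rfl
    | j + 2, hj =>
      rw [opE_add_two, ih j (by omega), Ext.comp_zero]

theorem opE_pow_apply (e : HH k Q (Zt k Q) 2) (V : Rep.{0} k Q) (n : ℕ) (x : TH k Q V) (i : ℕ) :
    (opE e V ^ n) x (2 * n + i) = (epow e n).comp (x i) rfl := by
  induction n generalizing i with
  | zero =>
    have h1 : ∀ j (hj : 2 * 0 + i = j), (opE e V ^ 0) x j = (epow e 0).comp (x i) hj := by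
      intro j hj
      obtain rfl : j = i := by omega
      exact (Ext.mk₀_id_comp (x j)).symm
    exact h1 _ rfl
  | succ n ih =>
    have h1 : ∀ j (hj : 2 * (n + 1) + i = j),
        (opE e V ^ (n + 1)) x j = (epow e (n + 1)).comp (x i) hj := by
      intro j hj
      obtain ⟨l, rfl⟩ : ∃ l, j = l + 2 := ⟨2 * n + i, by omega⟩
      obtain rfl : l = 2 * n + i := by omega
      rw [pow_succ', Module.End.mul_apply, opE_add_two, ih i]
      exact (Ext.comp_assoc (a₁₂ := 2 * (n + 1)) (a₂₃ := 2 * n + i) e (epow e n) (x i)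
        (by omega) rfl (by omega)).symm
    exact h1 _ rfl

theorem opE_pow_zero (e : HH k Q (Zt k Q) 2) (n l : ℕ) (he : Dvd l (epow e n))
    (V : Rep.{0} k Q) (hV : ∀ v : V.V, l • v = 0) : opE e V ^ n = 0 := by
  refine LinearMap.ext fun x => funext fun j => ?_
  by_cases hj : j < 2 * n
  · exact opE_pow_low e V n x j hj
  · obtain ⟨i, rfl⟩ : ∃ i, j = 2 * n + i := ⟨j - 2 * n, by omega⟩
    rw [opE_pow_apply]
    exact comp_dvd_zero V l hV (epow e n) he (x i) rfl

theorem th_kill (V : Rep.{0} k Q) (l : ℕ) (hV : ∀ v : V.V, l • v = 0) :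
    ((l : ℕ) : Module.End ℤ (TH k Q V)) = 0 := by
  refine LinearMap.ext fun x => funext fun i => ?_
  have h1 : ((l : ℕ) : Module.End ℤ (TH k Q V)) x = l • x := by
    rw [← nsmul_one l, LinearMap.smul_apply, Module.End.one_apply]
  rw [h1]
  exact coh_kill V (Zt k Q) l hV (x i)

theorem opE_evA (e : HH k Q (Zt k Q) 2) (V : Rep.{0} k Q) (i : ℕ) (x : TH k Q V)
    (hx : x ∈ evA k Q V i) : opE e V x ∈ evA k Q V (i + 1) := by
  intro j hj
  match j, hj with
  | 0, _ => rfl
  | 1, _ => rfl
  | j + 2, hj =>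
    rw [opE_add_two, hx j (by omega), Ext.comp_zero]

theorem evA_fg (h : FgCoh k Q) (V : Rep.{0} k Q) (hV : Module.Finite k V.V) (i : ℕ) :
    (evA k Q V i).FG := by
  have hfin : Module.Finite ℤ (HH k Q V (2 * i)) := h V hV (2 * i)
  have hsup : evA k Q V i =
      LinearMap.range (LinearMap.single ℤ (fun j : ℕ => HH k Q V j) (2 * i)) := by
    apply le_antisymm
    · intro x hx
      refine ⟨x (2 * i), funext fun j => ?_⟩
      by_cases hj : j = 2 * i
      · subst hj
        exact Pi.single_eq_same _ _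
      · rw [LinearMap.single_apply, Pi.single_eq_of_ne hj, hx j hj]
    · rintro _ ⟨y, rfl⟩ j hj
      rw [LinearMap.single_apply, Pi.single_eq_of_ne hj]
  rw [hsup]
  exact (Submodule.fg_top _).mp (Module.Finite.fg_top)

end

end Pool.MP0c3001.DV
end

section

/-!
# G1: the intermediate quotient of a primitive linear form, with compatibilities

Copy of `primitive_data` (Prim.lean), `p = QuotientGroup.mk' (uSub π e x)`, `ϖ = QuotientGroup.lift ..`,
`z = p a.1` with `chi e x a = 1`.  New: `ϖ (p g) = π g` (`rfl` in the proof) and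
`p a' = z ^ chi e x a'` for `a' ∈ π.ker` (the fact `hpeq` in the proof, with `h = 1`).
-/

set_option autoImplicit false

namespace Pool.MP0c3001.DV

open CategoryTheory CategoryTheory.Abelian Limits

noncomputable section

variable {G Q : Type} [Group G] [Group Q]

theorem primitive_data' (π : G →* Q) (hπ : Function.Surjective π)
    (hcen : π.ker ≤ Subgroup.center G) {r : ℕ}
    (e : Additive π.ker ≃+ (Fin (r + 1) → ℤ)) (x v : Fin (r + 1) → ℤ)
    (hv : ∑ j, x j * v j = 1) :
    ∃ (G' : Type) (_ : Group G') (p : G →* G') (ϖ : G' →* Q) (z : G'),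
      Function.Surjective p ∧ p.ker ≤ π.ker ∧
        Nonempty (Additive p.ker ≃+ (Fin r → ℤ)) ∧ CycExt ϖ z ∧ (∀ g, ϖ (p g) = π g) ∧
        ∀ a : π.ker, p (a : G) = z ^ (chi e x (Additive.ofMul a)) := by
  have hU : uSub π e x ≤ Subgroup.center G := (uSub_le π e x).trans hcen
  have : (uSub π e x).Normal := by
    constructor
    intro n hn g
    have := (Subgroup.mem_center_iff.1 (hU hn)) g
    rw [this, mul_assoc, mul_inv_cancel, mul_one]
    exact hn
  let a : π.ker := (e.symm v).toMul
  have ha : chi e x (Additive.ofMul a) = 1 := by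
    change ∑ j, x j * e (e.symm v) j = 1
    rw [e.apply_symm_apply]
    exact hv
  have hacen : ∀ g : G, g * a.1 = a.1 * g := Subgroup.mem_center_iff.1 (hcen a.2)
  -- χ on powers
  have hpow : ∀ n : ℤ, chi e x (Additive.ofMul (a ^ n)) = n := by
    intro n
    have : Additive.ofMul (a ^ n) = n • Additive.ofMul a := rfl
    rw [this, map_zsmul, ha]; simp
  let p := QuotientGroup.mk' (uSub π e x)
  let ϖ := QuotientGroup.lift (uSub π e x) π (fun g hg => hg.1)
  have hϖ : ∀ g : G, ϖ (p g) = π g := fun g => rfl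
  have hp : ∀ g : G, p g = 1 ↔ g ∈ uSub π e x := fun g => QuotientGroup.eq_one_iff g
  have hpsurj : Function.Surjective p := QuotientGroup.mk'_surjective _
  have hpeq : ∀ g h : G, π g = π h → ∀ n : ℤ,
      (∀ hh : g * h⁻¹ ∈ π.ker, chi e x (Additive.ofMul ⟨g * h⁻¹, hh⟩) = n) →
      p g = p a.1 ^ n * p h := by
    intro g h hgh n hn
    have hh : g * h⁻¹ ∈ π.ker := by
      rw [MonoidHom.mem_ker, map_mul, map_inv, hgh, mul_inv_cancel]
    have h1 : p (g * h⁻¹ * (a.1 ^ n)⁻¹) = 1 := by
      rw [hp]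
      have h2 : g * h⁻¹ * (a.1 ^ n)⁻¹ = ((⟨g * h⁻¹, hh⟩ * (a ^ n)⁻¹ : π.ker) : G) := by simp
      rw [h2]
      refine ⟨Subtype.mem _, ?_⟩
      have h3 : Additive.ofMul (⟨((⟨g * h⁻¹, hh⟩ * (a ^ n)⁻¹ : π.ker) : G), Subtype.mem _⟩ : π.ker)
          = Additive.ofMul (⟨g * h⁻¹, hh⟩ : π.ker) - Additive.ofMul (a ^ n) := by
        rw [sub_eq_add_neg]; rfl
      rw [h3, map_sub, hn hh, hpow, sub_self]
    rw [map_mul, map_mul, map_inv, map_inv, map_zpow] at h1
    have h4 : p g * (p h)⁻¹ = p a.1 ^ n := by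
      rw [mul_inv_eq_one] at h1; exact h1
    rw [← h4]; group
  refine ⟨G ⧸ uSub π e x, inferInstance, p, ϖ, p a.1, hpsurj, ?_, ?_, ?_, hϖ, ?_⟩
  · intro g hg
    exact ((hp g).1 hg).1
  · let χ' : (Fin (r + 1) → ℤ) →+ ℤ := (chi e x).comp e.symm.toAddMonoidHom
    obtain ⟨f⟩ := exists_ker_equiv r (AddEquiv.refl (Fin (r + 1) → ℤ)) χ' (by
      intro n
      refine ⟨e (Additive.ofMul (a ^ n)), ?_⟩
      change chi e x (e.symm (e (Additive.ofMul (a ^ n)))) = n
      rw [e.symm_apply_apply, hpow n])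
    refine ⟨AddEquiv.trans ?_ f⟩
    refine
      { toFun := fun u => ⟨e (Additive.ofMul ⟨u.toMul.1, ((hp _).1 u.toMul.2).1⟩), by
          change chi e x (e.symm (e _)) = 0
          rw [e.symm_apply_apply]
          exact ((hp _).1 u.toMul.2).2⟩
        invFun := fun w => Additive.ofMul ⟨(e.symm w.1).toMul.1,
          (hp _).2 ⟨(e.symm w.1).toMul.2, w.2⟩⟩
        left_inv := fun u => by
          apply Additive.toMul.injective
          apply Subtype.ext
          change (e.symm (e (Additive.ofMul _))).toMul.1 = _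
          rw [e.symm_apply_apply]
          rfl
        right_inv := fun w => by
          apply Subtype.ext
          change e (Additive.ofMul ⟨(e.symm w.1).toMul.1, _⟩) = w.1
          exact e.apply_symm_apply w.1
        map_add' := fun u w => by
          apply Subtype.ext
          exact map_add e (Additive.ofMul (⟨u.toMul.1, ((hp _).1 u.toMul.2).1⟩ : π.ker))
            (Additive.ofMul (⟨w.toMul.1, ((hp _).1 w.toMul.2).1⟩ : π.ker)) }
  · refine ⟨?_, ?_, ?_, ?_, ?_⟩
    · intro q
      obtain ⟨g, rfl⟩ := hπ q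
      exact ⟨p g, rfl⟩
    · rw [hϖ]; exact a.2
    · intro g hg
      obtain ⟨g, rfl⟩ := hpsurj g
      rw [hϖ] at hg
      have hg1 : g * (1 : G)⁻¹ ∈ π.ker := by simpa using hg
      refine ⟨chi e x (Additive.ofMul ⟨g * (1 : G)⁻¹, hg1⟩), ?_⟩
      have := hpeq g 1 (by rw [hg, map_one])
        (chi e x (Additive.ofMul ⟨g * (1 : G)⁻¹, hg1⟩)) (fun hh => rfl)
      rw [this, map_one, mul_one]
    · intro n hn
      rw [← map_zpow] at hn
      obtain ⟨h1, h2⟩ := (hp _).1 hn
      have h3 : Additive.ofMul (⟨a.1 ^ n, h1⟩ : π.ker) = Additive.ofMul (a ^ n) := rfl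
      rw [h3, hpow] at h2
      exact h2
    · intro g
      obtain ⟨g, rfl⟩ := hpsurj g
      rw [← map_mul, ← map_mul, hacen g]
  · intro b
    have hb : (b : G) * (1 : G)⁻¹ ∈ π.ker := by simp
    have h := hpeq (b : G) 1 (by rw [map_one]; exact b.2)
      (chi e x (Additive.ofMul b)) (fun hh => by
        have h1 : (⟨(b : G) * (1 : G)⁻¹, hh⟩ : π.ker) = b := Subtype.ext (by simp)
        rw [h1])
    rw [h, map_one, mul_one]

end

end Pool.MP0c3001.DV
end
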