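import Pool.Agent.Lib.MP_0c3001_gt.DV.Defs

section

/-!
# N1: the 3×3 lemma: connecting homomorphisms anticommute

Rows `A, B, C`: `0 → A₁ → A₂ → A₃ → 0` etc., columns `0 → A_j → B_j → C_j → 0`, all squares commute.  Then
`[column 3] [row A] = - [row C] [column 1]` in `Ext²(C₃, A₁)`.

Proof.  Let `q = pB ≫ v₃ = v₂ ≫ pC : B₂ ⟶ C₃` (onto) and `P = kerRep q` (elements `b ∈ B₂` with `q b = 0`),
`S₂ : 0 → P → B₂ → C₃ → 0` (`kerSeq_shortExact`).  Maps
`p₁ : P ⟶ A₃`: `u₃ (p₁ b) = pB b` (exists since `v₃ (pB b) = 0`; unique as `u₃` is injective);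
`p₂ : P ⟶ C₁`: `iC (p₂ b) = v₂ b` (exists since `pC (v₂ b) = 0`).
`p = biprod.lift p₁ p₂ : P ⟶ A₃ ⊞ C₁`.  `κ : A₁ ⟶ P`, `a ↦ u₂ (iA a) = iB (u₁ a)`.  The sequence
`S₁ : 0 → A₁ → P → A₃ ⊞ C₁ → 0` is short exact (`shortExact_of`): `κ` injective; if `p b = 0` then `pB b = 0`, so
`b = iB b'`, and `iC (v₁ b') = v₂ (iB b') = 0`, so `v₁ b' = 0`, `b' = u₁ a`; onto: for `a₃ = pA a₂`, `b = u₂ a₂ ∈ P` has
`p₁ b = a₃`, `p₂ b = 0`; for `c₁ = v₁ b₁`, `b = iB b₁` has `p₁ b = 0`, `p₂ b = c₁`; every element of `A₃ ⊞ C₁` is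
`inl a₃ + inr c₁` (`biprod.total`).
Naturality (`ShortComplex.ShortExact.extClass_naturality`, as in the proof of `cls_map` in Dmod.lean), with
`E₂ = S₂.extClass ∈ Ext¹(C₃,P)`, `E₁ = S₁.extClass ∈ Ext¹(A₃ ⊞ C₁, A₁)`:
`E₂.comp (mk₀ p₁) = h₃.extClass` (map `(p₁, pB, 𝟙)` from `S₂` to column 3);
`E₂.comp (mk₀ p₂) = hC.extClass` (map `(p₂, v₂, 𝟙)` from `S₂` to row C);
`(mk₀ biprod.inl).comp E₁ = hA.extClass` (map `(𝟙, A₂ ⟶ P by u₂, biprod.inl)` from row A to `S₁`);
`(mk₀ biprod.inr).comp E₁ = h₁.extClass` (map `(𝟙, B₁ ⟶ P by iB, biprod.inr)` from column 1 to `S₁`).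
Hence `h₃.extClass.comp hA.extClass + hC.extClass.comp h₁.extClass = E₂.comp (mk₀ (p₁ ≫ inl + p₂ ≫ inr)).comp E₁ =
E₂.comp ((mk₀ p).comp E₁) = 0` (`ShortComplex.ShortExact.comp_extClass`).
-/

set_option autoImplicit false

namespace Pool.MP0c3001.DV

open CategoryTheory CategoryTheory.Abelian Limits

noncomputable section

variable {k : Type} [CommRing k] {G : Type} [Group G]

private def kerLift {A B D : Rep.{0} k G} (g : B ⟶ D) (f : A ⟶ B)
    (h : ∀ a : A.V, g.hom (f.hom a) = 0) : A ⟶ kerRep g :=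
  Rep.ofHom
    { toLinearMap := LinearMap.codRestrict (LinearMap.ker g.hom.toLinearMap) f.hom.toLinearMap h
      isIntertwining' := by
        intro x
        apply LinearMap.ext
        intro v
        apply Subtype.ext
        change f.hom (A.ρ x v) = B.ρ x (f.hom v)
        exact Rep.hom_comm_apply f x v }

private theorem kerLift_apply {A B D : Rep.{0} k G} (g : B ⟶ D) (f : A ⟶ B)
    (h : ∀ a : A.V, g.hom (f.hom a) = 0) (a : A.V) : ((kerLift g f h).hom a).1 = f.hom a := rfl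

private theorem rep_ext {A B : Rep.{0} k G} {f g : A ⟶ B} (h : ∀ a : A.V, f.hom a = g.hom a) :
    f = g := by
  apply Rep.hom_ext
  apply Representation.IntertwiningMap.ext
  apply LinearMap.ext
  intro v
  exact h v

private theorem kerLift_inc {A B D : Rep.{0} k G} (g : B ⟶ D) (f : A ⟶ B)
    (h : ∀ a : A.V, g.hom (f.hom a) = 0) : kerLift g f h ≫ kerInc g = f :=
  rep_ext fun _ => rfl

private theorem hom_eq {A B : Rep.{0} k G} {f g : A ⟶ B} (h : f = g) (a : A.V) :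
    f.hom a = g.hom a := by rw [h]

private theorem exact_elt {A B C : Rep.{0} k G} {f : A ⟶ B} {g : B ⟶ C} {w : f ≫ g = 0}
    (h : (ShortComplex.mk f g w).ShortExact) (b : B.V) (hb : g.hom b = 0) :
    ∃ a : A.V, f.hom a = b := by
  have h3 : (ShortComplex.mk f g w).Exact := h.exact
  rw [← ShortComplex.exact_map_iff_of_faithful (ShortComplex.mk f g w)
    (forget₂ (Rep.{0} k G) (ModuleCat.{0} k))] at h3
  rw [ShortComplex.moduleCat_exact_iff] at h3
  exact h3 b hb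

private theorem inj_of {A B C : Rep.{0} k G} {f : A ⟶ B} {g : B ⟶ C} {w : f ≫ g = 0}
    (h : (ShortComplex.mk f g w).ShortExact) : Function.Injective f.hom :=
  (Rep.mono_iff_injective f).1 h.mono_f

private theorem surj_of {A B C : Rep.{0} k G} {f : A ⟶ B} {g : B ⟶ C} {w : f ≫ g = 0}
    (h : (ShortComplex.mk f g w).ShortExact) : Function.Surjective g.hom :=
  (Rep.epi_iff_surjective g).1 h.epi_g

theorem three_by_three {A₁ A₂ A₃ B₁ B₂ B₃ C₁ C₂ C₃ : Rep.{0} k G}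
    {iA : A₁ ⟶ A₂} {pA : A₂ ⟶ A₃} {wA : iA ≫ pA = 0}
    {iB : B₁ ⟶ B₂} {pB : B₂ ⟶ B₃} {wB : iB ≫ pB = 0}
    {iC : C₁ ⟶ C₂} {pC : C₂ ⟶ C₃} {wC : iC ≫ pC = 0}
    {u₁ : A₁ ⟶ B₁} {v₁ : B₁ ⟶ C₁} {w₁ : u₁ ≫ v₁ = 0}
    {u₂ : A₂ ⟶ B₂} {v₂ : B₂ ⟶ C₂} {w₂ : u₂ ≫ v₂ = 0}
    {u₃ : A₃ ⟶ B₃} {v₃ : B₃ ⟶ C₃} {w₃ : u₃ ≫ v₃ = 0}
    (hA : (ShortComplex.mk iA pA wA).ShortExact) (_hB : (ShortComplex.mk iB pB wB).ShortExact)
    (hC : (ShortComplex.mk iC pC wC).ShortExact) (h₁ : (ShortComplex.mk u₁ v₁ w₁).ShortExact)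
    (_h₂ : (ShortComplex.mk u₂ v₂ w₂).ShortExact) (h₃ : (ShortComplex.mk u₃ v₃ w₃).ShortExact)
    (c₁ : iA ≫ u₂ = u₁ ≫ iB) (c₂ : pA ≫ u₃ = u₂ ≫ pB) (c₃ : iB ≫ v₂ = v₁ ≫ iC)
    (c₄ : pB ≫ v₃ = v₂ ≫ pC) :
    h₃.extClass.comp hA.extClass (rfl : 1 + 1 = 2) =
      -(hC.extClass.comp h₁.extClass (rfl : 1 + 1 = 2)) := by
  have m3 : Mono u₃ := h₃.mono_f
  have mC : Mono iC := hC.mono_f
  let q : B₂ ⟶ C₃ := pB ≫ v₃
  have hq : Function.Surjective q.hom := by
    intro c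
    obtain ⟨b, hb⟩ := surj_of h₃ c
    obtain ⟨b', hb'⟩ := surj_of _hB b
    refine ⟨b', ?_⟩
    change v₃.hom (pB.hom b') = c
    rw [hb', hb]
  have hS2 := kerSeq_shortExact q hq
  have hz : kerInc q ≫ q = 0 := kerInc_zero q
  have hz1 : (kerInc q ≫ pB) ≫ v₃ = 0 := by
    rw [Category.assoc]
    exact hz
  have hz2 : (kerInc q ≫ v₂) ≫ pC = 0 := by
    rw [Category.assoc, ← c₄]
    exact hz
  obtain ⟨p₁, hp₁⟩ : ∃ p₁ : kerRep q ⟶ A₃, p₁ ≫ u₃ = kerInc q ≫ pB :=
    h₃.exact.lift' (kerInc q ≫ pB) hz1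
  obtain ⟨p₂, hp₂⟩ : ∃ p₂ : kerRep q ⟶ C₁, p₂ ≫ iC = kerInc q ≫ v₂ :=
    hC.exact.lift' (kerInc q ≫ v₂) hz2
  have e1 : ∀ a : A₂.V, q.hom (u₂.hom a) = 0 := by
    intro a
    have h : u₂ ≫ q = 0 := by
      change u₂ ≫ pB ≫ v₃ = 0
      rw [c₄, ← Category.assoc, w₂, zero_comp]
    exact hom_eq h a
  have e2 : ∀ b : B₁.V, q.hom (iB.hom b) = 0 := by
    intro b
    have h : iB ≫ q = 0 := by
      change iB ≫ pB ≫ v₃ = 0
      rw [← Category.assoc, wB, zero_comp]
    exact hom_eq h b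
  let a₂ : A₂ ⟶ kerRep q := kerLift q u₂ e1
  let b₁ : B₁ ⟶ kerRep q := kerLift q iB e2
  have ha₂ : a₂ ≫ kerInc q = u₂ := kerLift_inc q u₂ e1
  have hb₁ : b₁ ≫ kerInc q = iB := kerLift_inc q iB e2
  let κ : A₁ ⟶ kerRep q := iA ≫ a₂
  have hκ : κ = u₁ ≫ b₁ := by
    apply rep_ext
    intro a
    apply Subtype.ext
    exact hom_eq c₁ a
  have a₂p₁ : a₂ ≫ p₁ = pA := by
    rw [← cancel_mono u₃, Category.assoc, hp₁, ← Category.assoc, ha₂, c₂]
  have a₂p₂ : a₂ ≫ p₂ = 0 := by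
    rw [← cancel_mono iC, Category.assoc, hp₂, ← Category.assoc, ha₂, w₂, zero_comp]
  have b₁p₁ : b₁ ≫ p₁ = 0 := by
    rw [← cancel_mono u₃, Category.assoc, hp₁, ← Category.assoc, hb₁, wB, zero_comp]
  have b₁p₂ : b₁ ≫ p₂ = v₁ := by
    rw [← cancel_mono iC, Category.assoc, hp₂, ← Category.assoc, hb₁, c₃]
  let p : kerRep q ⟶ A₃ ⊞ C₁ := biprod.lift p₁ p₂
  have hp : p = p₁ ≫ biprod.inl + p₂ ≫ biprod.inr := biprod.lift_eq
  have a₂p : a₂ ≫ p = pA ≫ biprod.inl := by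
    rw [hp, Preadditive.comp_add, ← Category.assoc, ← Category.assoc, a₂p₁, a₂p₂, zero_comp,
      add_zero]
  have b₁p : b₁ ≫ p = v₁ ≫ biprod.inr := by
    rw [hp, Preadditive.comp_add, ← Category.assoc, ← Category.assoc, b₁p₁, b₁p₂, zero_comp,
      zero_add]
  have κp : κ ≫ p = 0 := by
    change (iA ≫ a₂) ≫ p = 0
    rw [Category.assoc, a₂p, ← Category.assoc, wA, zero_comp]
  have hS1 : (ShortComplex.mk κ p κp).ShortExact := by
    refine shortExact_of κ p κp ?_ ?_ ?_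
    · intro x y hxy
      have h1 : u₂.hom (iA.hom x) = u₂.hom (iA.hom y) := congrArg Subtype.val hxy
      exact inj_of hA (inj_of _h₂ h1)
    · intro x
      obtain ⟨y, hy⟩ := surj_of hA ((biprod.fst : A₃ ⊞ C₁ ⟶ A₃).hom x)
      obtain ⟨z, hz⟩ := surj_of h₁ ((biprod.snd : A₃ ⊞ C₁ ⟶ C₁).hom x)
      refine ⟨a₂.hom y + b₁.hom z, ?_⟩
      rw [map_add]
      have h1 : p.hom (a₂.hom y) = (biprod.inl : A₃ ⟶ A₃ ⊞ C₁).hom (pA.hom y) := hom_eq a₂p y
      have h2 : p.hom (b₁.hom z) = (biprod.inr : C₁ ⟶ A₃ ⊞ C₁).hom (v₁.hom z) := hom_eq b₁p z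
      have hy' : pA.hom y = (biprod.fst : A₃ ⊞ C₁ ⟶ A₃).hom x := hy
      have hz' : v₁.hom z = (biprod.snd : A₃ ⊞ C₁ ⟶ C₁).hom x := hz
      rw [h1, h2, hy', hz']
      exact hom_eq (biprod.total : (biprod.fst : A₃ ⊞ C₁ ⟶ A₃) ≫ biprod.inl +
        (biprod.snd : A₃ ⊞ C₁ ⟶ C₁) ≫ biprod.inr = 𝟙 (A₃ ⊞ C₁)) x
    · intro b hb
      have hb1 : p₁.hom b = 0 := by
        have h : p ≫ (biprod.fst : A₃ ⊞ C₁ ⟶ A₃) = p₁ := biprod.lift_fst _ _
        rw [← hom_eq h b]
        change (biprod.fst : A₃ ⊞ C₁ ⟶ A₃).hom (p.hom b) = 0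
        rw [hb, map_zero]
      have hb2 : p₂.hom b = 0 := by
        have h : p ≫ (biprod.snd : A₃ ⊞ C₁ ⟶ C₁) = p₂ := biprod.lift_snd _ _
        rw [← hom_eq h b]
        change (biprod.snd : A₃ ⊞ C₁ ⟶ C₁).hom (p.hom b) = 0
        rw [hb, map_zero]
      have h1 : pB.hom b.1 = 0 := by
        have h : u₃.hom (p₁.hom b) = pB.hom b.1 := hom_eq hp₁ b
        rw [← h, hb1, map_zero]
      obtain ⟨b', hb'⟩ := exact_elt _hB b.1 h1
      have h2 : iC.hom (v₁.hom b') = 0 := by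
        have h : v₂.hom (iB.hom b') = iC.hom (v₁.hom b') := hom_eq c₃ b'
        have h' : iC.hom (p₂.hom b) = v₂.hom b.1 := hom_eq hp₂ b
        rw [← h, hb', ← h', hb2, map_zero]
      have h3 : v₁.hom b' = 0 := inj_of hC (by rw [h2, map_zero])
      obtain ⟨a, ha⟩ := exact_elt h₁ b' h3
      refine ⟨a, ?_⟩
      apply Subtype.ext
      change u₂.hom (iA.hom a) = b.1
      have h4 : u₂.hom (iA.hom a) = iB.hom (u₁.hom a) := hom_eq c₁ a
      rw [h4, ha, hb']
  -- naturality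
  let f₁ : ShortComplex.mk (kerInc q) q (kerInc_zero q) ⟶ ShortComplex.mk u₃ v₃ w₃ :=
    { τ₁ := p₁
      τ₂ := pB
      τ₃ := 𝟙 _
      comm₁₂ := hp₁
      comm₂₃ := (Category.comp_id _).symm }
  let f₂ : ShortComplex.mk (kerInc q) q (kerInc_zero q) ⟶ ShortComplex.mk iC pC wC :=
    { τ₁ := p₂
      τ₂ := v₂
      τ₃ := 𝟙 _
      comm₁₂ := hp₂
      comm₂₃ := by
        change v₂ ≫ pC = (pB ≫ v₃) ≫ 𝟙 _
        rw [Category.comp_id, c₄] }
  let f₃ : ShortComplex.mk iA pA wA ⟶ ShortComplex.mk κ p κp :=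
    { τ₁ := 𝟙 _
      τ₂ := a₂
      τ₃ := biprod.inl
      comm₁₂ := Category.id_comp _
      comm₂₃ := a₂p }
  let f₄ : ShortComplex.mk u₁ v₁ w₁ ⟶ ShortComplex.mk κ p κp :=
    { τ₁ := 𝟙 _
      τ₂ := b₁
      τ₃ := biprod.inr
      comm₁₂ := by
        change 𝟙 _ ≫ κ = u₁ ≫ b₁
        rw [Category.id_comp, hκ]
      comm₂₃ := b₁p }
  have n1 : hS2.extClass.comp (Ext.mk₀ p₁) (add_zero 1) = h₃.extClass :=
    (ShortComplex.ShortExact.extClass_naturality.{0} hS2 h₃ f₁).trans (Ext.mk₀_id_comp _)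
  have n2 : hS2.extClass.comp (Ext.mk₀ p₂) (add_zero 1) = hC.extClass :=
    (ShortComplex.ShortExact.extClass_naturality.{0} hS2 hC f₂).trans (Ext.mk₀_id_comp _)
  have n3 : (Ext.mk₀ (biprod.inl : A₃ ⟶ A₃ ⊞ C₁)).comp hS1.extClass (zero_add 1) = hA.extClass :=
    (ShortComplex.ShortExact.extClass_naturality.{0} hA hS1 f₃).symm.trans (Ext.comp_mk₀_id _)
  have n4 : (Ext.mk₀ (biprod.inr : C₁ ⟶ A₃ ⊞ C₁)).comp hS1.extClass (zero_add 1) = h₁.extClass :=
    (ShortComplex.ShortExact.extClass_naturality.{0} h₁ hS1 f₄).symm.trans (Ext.comp_mk₀_id _)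
  have key : h₃.extClass.comp hA.extClass (rfl : 1 + 1 = 2) +
      hC.extClass.comp h₁.extClass (rfl : 1 + 1 = 2) = 0 := by
    rw [← n1, ← n2, ← n3, ← n4]
    rw [Ext.comp_assoc_of_second_deg_zero, Ext.comp_assoc_of_second_deg_zero,
      Ext.mk₀_comp_mk₀_assoc, Ext.mk₀_comp_mk₀_assoc, ← Ext.comp_add, ← Ext.add_comp,
      ← Ext.mk₀_add, ← hp]
    have h0 : (Ext.mk₀ p).comp hS1.extClass (zero_add 1) = 0 :=
      ShortComplex.ShortExact.comp_extClass.{0} hS1
    rw [h0, Ext.comp_zero]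
  exact eq_neg_of_add_eq_zero_left key

end

end Pool.MP0c3001.DV
end

section

/-!
# The functorial 2-extension `0 → V → D_c(V) → k[Q] ⊗ V → V → 0` (definitions; complete)
-/

set_option autoImplicit false

namespace Pool.MP0c3001.DV

open CategoryTheory CategoryTheory.Abelian Limits

noncomputable section

variable {k : Type} [CommRing k] {Q : Type} [Group Q]

/-- The diagonal action on `k[Q] ⊗ V`. -/
def fvRho (V : Rep.{0} k Q) : Representation k Q (Unit × Q →₀ V.V) where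
  toFun q := (Finsupp.lmapDomain V.V k (fun x : Unit × Q => (x.1, q * x.2))) ∘ₗ
    (Finsupp.mapRange.linearMap (V.ρ q))
  map_one' := by
    apply Finsupp.lhom_ext
    intro x v
    simp
  map_mul' q q' := by
    apply Finsupp.lhom_ext
    intro x v
    simp [Finsupp.mapDomain_single, mul_assoc]

lemma fvRho_single (V : Rep.{0} k Q) (q : Q) (x : Unit × Q) (v : V.V) :
    fvRho V q (Finsupp.single x v) = Finsupp.single (x.1, q * x.2) (V.ρ q v) := by
  simp [fvRho, Finsupp.mapDomain_single]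

/-- `k[Q] ⊗ V`. -/
abbrev FV (V : Rep.{0} k Q) : Rep.{0} k Q := Rep.of (fvRho V)

/-- The augmentation `k[Q] ⊗ V → V`. -/
def fvAug (V : Rep.{0} k Q) : FV V ⟶ V :=
  Rep.ofHom
    { toLinearMap := Finsupp.lsum ℕ (fun _ : Unit × Q => (LinearMap.id : V.V →ₗ[k] V.V))
      isIntertwining' := by
        intro q
        apply Finsupp.lhom_ext
        intro x v
        change Finsupp.lsum ℕ (fun _ : Unit × Q => (LinearMap.id : V.V →ₗ[k] V.V))
          (fvRho V q (Finsupp.single x v)) =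
          V.ρ q (Finsupp.lsum ℕ (fun _ : Unit × Q => (LinearMap.id : V.V →ₗ[k] V.V))
            (Finsupp.single x v))
        rw [fvRho_single]
        simp }

lemma fvAug_single (V : Rep.{0} k Q) (x : Unit × Q) (v : V.V) :
    (fvAug V).hom (Finsupp.single x v) = v := by
  change Finsupp.lsum ℕ (fun _ : Unit × Q => (LinearMap.id : V.V →ₗ[k] V.V))
    (Finsupp.single x v) = v
  simp

lemma fvAug_surj (V : Rep.{0} k Q) : Function.Surjective (fvAug V).hom := fun v =>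
  ⟨Finsupp.single ((), 1) v, fvAug_single V _ v⟩

/-- The kernel `I(V)` of the augmentation. -/
abbrev IV (V : Rep.{0} k Q) : Rep.{0} k Q := kerRep (fvAug V)

/-- `0 → I(V) → k[Q] ⊗ V → V → 0`. -/
theorem ivSeq (V : Rep.{0} k Q) :
    (ShortComplex.mk (kerInc (fvAug V)) (fvAug V) (kerInc_zero _)).ShortExact :=
  kerSeq_shortExact _ (fvAug_surj V)

/-- The linear map `k[Q] ⊗ V → V`, `p ⊗ v ↦ c q p • q v`. -/
def phiV (c : Q → Q → ℤ) (V : Rep.{0} k Q) (q : Q) : (Unit × Q →₀ V.V) →ₗ[k] V.V :=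
  Finsupp.lsum ℕ (fun x : Unit × Q => ((c q x.2 : ℤ) : k) • (V.ρ q : V.V →ₗ[k] V.V))

lemma phiV_single (c : Q → Q → ℤ) (V : Rep.{0} k Q) (q : Q) (x : Unit × Q) (v : V.V) :
    phiV c V q (Finsupp.single x v) = ((c q x.2 : ℤ) : k) • V.ρ q v := by
  simp [phiV]

lemma phiV_mul {c : Q → Q → ℤ} (hc : IsCoc c) (V : Rep.{0} k Q) (q' q : Q)
    (w : Unit × Q →₀ V.V) :
    phiV c V (q' * q) w + ((c q' q : ℤ) : k) • V.ρ (q' * q) ((fvAug V).hom w) =
      V.ρ q' (phiV c V q w) + phiV c V q' (fvRho V q w) := by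
  induction w using Finsupp.induction_linear with
  | zero =>
    have h0 : (fvAug V).hom (0 : Unit × Q →₀ V.V) = 0 := map_zero _
    rw [h0]
    simp only [map_zero, smul_zero, add_zero]
  | add f g hf hg =>
    have e : (fvAug V).hom (f + g : Unit × Q →₀ V.V) =
        (fvAug V).hom f + (fvAug V).hom g := map_add _ _ _
    rw [e]
    simp only [map_add, smul_add]
    calc phiV c V (q' * q) f + phiV c V (q' * q) g +
          (((c q' q : ℤ) : k) • V.ρ (q' * q) ((fvAug V).hom f) +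
            ((c q' q : ℤ) : k) • V.ρ (q' * q) ((fvAug V).hom g))
        = (phiV c V (q' * q) f + ((c q' q : ℤ) : k) • V.ρ (q' * q) ((fvAug V).hom f)) +
          (phiV c V (q' * q) g + ((c q' q : ℤ) : k) • V.ρ (q' * q) ((fvAug V).hom g)) := by abel
      _ = _ := by rw [hf, hg]; abel
  | single x v =>
    rw [fvAug_single, fvRho_single, phiV_single, phiV_single, phiV_single, map_smul, map_mul]
    have h1 := hc q' q x.2
    have h2 : ((c (q' * q) x.2 : ℤ) : k) + ((c q' q : ℤ) : k) =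
        ((c q x.2 : ℤ) : k) + ((c q' (q * x.2) : ℤ) : k) := by
      rw [← Int.cast_add, ← Int.cast_add, h1]
    change ((c (q' * q) x.2 : ℤ) : k) • V.ρ q' (V.ρ q v) + ((c q' q : ℤ) : k) • V.ρ q' (V.ρ q v) =
      ((c q x.2 : ℤ) : k) • V.ρ q' (V.ρ q v) + ((c q' (q * x.2) : ℤ) : k) • V.ρ q' (V.ρ q v)
    rw [← add_smul, ← add_smul, h2]

lemma phiV_one {c : Q → Q → ℤ} (hc : IsCoc c) (V : Rep.{0} k Q)
    (w : Unit × Q →₀ V.V) (hw : (fvAug V).hom w = 0) : phiV c V 1 w = 0 := by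
  have h := phiV_mul hc V 1 1 w
  rw [hw, map_zero, smul_zero, add_zero, mul_one] at h
  have e : fvRho V 1 w = w := by
    rw [map_one]
    rfl
  have e' : V.ρ 1 (phiV c V 1 w) = phiV c V 1 w := by
    rw [map_one]
    rfl
  rw [e, e'] at h
  exact left_eq_add.1 h

/-- The action on `D_c(V) = V × I(V)`. -/
def dvRho {c : Q → Q → ℤ} (hc : IsCoc c) (V : Rep.{0} k Q) :
    Representation k Q (V.V × (IV V).V) where
  toFun q := LinearMap.prod
    ((V.ρ q : V.V →ₗ[k] V.V) ∘ₗ LinearMap.fst k V.V _ +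
      (phiV c V q ∘ₗ (LinearMap.ker (fvAug V).hom.toLinearMap).subtype) ∘ₗ LinearMap.snd k V.V _)
    ((IV V).ρ q ∘ₗ LinearMap.snd k V.V _)
  map_one' := by
    apply LinearMap.ext
    rintro ⟨v, w⟩
    refine Prod.ext ?_ ?_
    · change V.ρ 1 v + phiV c V 1 w.1 = v
      rw [phiV_one hc V w.1 w.2, add_zero, map_one]
      rfl
    · change (IV V).ρ 1 w = w
      rw [map_one]
      rfl
  map_mul' q' q := by
    apply LinearMap.ext
    rintro ⟨v, w⟩
    refine Prod.ext ?_ ?_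
    · change V.ρ (q' * q) v + phiV c V (q' * q) w.1 =
        V.ρ q' (V.ρ q v + phiV c V q w.1) + phiV c V q' (fvRho V q w.1)
      have h := phiV_mul hc V q' q w.1
      have hw : (fvAug V).hom w.1 = 0 := w.2
      rw [hw, map_zero, smul_zero, add_zero] at h
      rw [h, map_add, map_mul]
      exact (add_assoc _ _ _).symm
    · change (IV V).ρ (q' * q) w = (IV V).ρ q' ((IV V).ρ q w)
      rw [map_mul]
      rfl

/-- `D_c(V)`. -/
abbrev DM {c : Q → Q → ℤ} (hc : IsCoc c) (V : Rep.{0} k Q) : Rep.{0} k Q := Rep.of (dvRho hc V)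

lemma dvRho_apply {c : Q → Q → ℤ} (hc : IsCoc c) (V : Rep.{0} k Q) (q : Q)
    (x : V.V × (IV V).V) :
    dvRho hc V q x = (V.ρ q x.1 + phiV c V q x.2.1, (IV V).ρ q x.2) := rfl

/-- `V → D_c(V)`. -/
def dvInc {c : Q → Q → ℤ} (hc : IsCoc c) (V : Rep.{0} k Q) : V ⟶ DM hc V :=
  Rep.ofHom
    { toLinearMap := LinearMap.inl k V.V _
      isIntertwining' := by
        intro q
        apply LinearMap.ext
        intro v
        refine Prod.ext ?_ ?_
        · change V.ρ q v = V.ρ q v + phiV c V q 0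
          rw [map_zero, add_zero]
        · change (0 : (IV V).V) = (IV V).ρ q 0
          rw [map_zero] }

/-- `D_c(V) → I(V)`. -/
def dvProj {c : Q → Q → ℤ} (hc : IsCoc c) (V : Rep.{0} k Q) : DM hc V ⟶ IV V :=
  Rep.ofHom { toLinearMap := LinearMap.snd k V.V _, isIntertwining' := fun q => rfl }

lemma dvInc_proj {c : Q → Q → ℤ} (hc : IsCoc c) (V : Rep.{0} k Q) :
    dvInc hc V ≫ dvProj hc V = 0 := by
  apply Rep.hom_ext
  apply Representation.IntertwiningMap.ext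
  apply LinearMap.ext
  intro v
  rfl

/-- `0 → V → D_c(V) → I(V) → 0`. -/
theorem dvSeq {c : Q → Q → ℤ} (hc : IsCoc c) (V : Rep.{0} k Q) :
    (ShortComplex.mk (dvInc hc V) (dvProj hc V) (dvInc_proj hc V)).ShortExact := by
  apply shortExact_of
  · intro x y hxy
    exact congrArg Prod.fst hxy
  · intro w
    exact ⟨(0, w), rfl⟩
  · rintro ⟨v, w⟩ hw
    have hw' : w = 0 := hw
    subst hw'
    exact ⟨v, rfl⟩

/-- The class of `0 → V → D_c(V) → k[Q] ⊗ V → V → 0`. -/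
def ecV {c : Q → Q → ℤ} (hc : IsCoc c) (V : Rep.{0} k Q) : Ext.{0} V V 2 :=
  splice (dvSeq hc V) (ivSeq V)

/-! ## Functoriality -/

/-- `k[Q] ⊗ f`. -/
def fvMap {V W : Rep.{0} k Q} (f : V ⟶ W) : FV V ⟶ FV W :=
  Rep.ofHom
    { toLinearMap := Finsupp.mapRange.linearMap f.hom.toLinearMap
      isIntertwining' := by
        intro q
        apply Finsupp.lhom_ext
        intro x v
        change Finsupp.mapRange.linearMap f.hom.toLinearMap (fvRho V q (Finsupp.single x v)) =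
          fvRho W q (Finsupp.mapRange.linearMap f.hom.toLinearMap (Finsupp.single x v))
        rw [fvRho_single, Finsupp.mapRange.linearMap_apply, Finsupp.mapRange.linearMap_apply,
          Finsupp.mapRange_single, Finsupp.mapRange_single, fvRho_single]
        congr 1
        exact Rep.hom_comm_apply f q v }

lemma fvMap_single {V W : Rep.{0} k Q} (f : V ⟶ W) (x : Unit × Q) (v : V.V) :
    (fvMap f).hom (Finsupp.single x v) = Finsupp.single x (f.hom v) := by
  change Finsupp.mapRange.linearMap f.hom.toLinearMap (Finsupp.single x v) = _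
  rw [Finsupp.mapRange.linearMap_apply, Finsupp.mapRange_single]
  rfl

lemma fvMap_aug {V W : Rep.{0} k Q} (f : V ⟶ W) : fvMap f ≫ fvAug W = fvAug V ≫ f := by
  apply Rep.hom_ext
  apply Representation.IntertwiningMap.ext
  apply Finsupp.lhom_ext
  intro x v
  change (fvAug W).hom ((fvMap f).hom (Finsupp.single x v)) =
    f.hom ((fvAug V).hom (Finsupp.single x v))
  rw [fvMap_single, fvAug_single, fvAug_single]

/-- `I(f)`. -/
def ivMap {V W : Rep.{0} k Q} (f : V ⟶ W) : IV V ⟶ IV W :=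
  Rep.ofHom
    { toLinearMap := LinearMap.codRestrict _
        ((fvMap f).hom.toLinearMap ∘ₗ (LinearMap.ker (fvAug V).hom.toLinearMap).subtype)
        (fun w => by
          have h := congrArg (fun g => g.hom w.1) (fvMap_aug f)
          change (fvAug W).hom ((fvMap f).hom w.1) = f.hom ((fvAug V).hom w.1) at h
          have hw : (fvAug V).hom w.1 = 0 := w.2
          rw [hw, map_zero] at h
          exact h)
      isIntertwining' := by
        intro q
        apply LinearMap.ext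
        intro w
        apply Subtype.ext
        exact Rep.hom_comm_apply (fvMap f) q w.1 }

lemma ivMap_apply {V W : Rep.{0} k Q} (f : V ⟶ W) (w : (IV V).V) :
    ((ivMap f).hom w).1 = (fvMap f).hom w.1 := rfl

lemma phiV_map (c : Q → Q → ℤ) {V W : Rep.{0} k Q} (f : V ⟶ W) (q : Q)
    (w : Unit × Q →₀ V.V) : phiV c W q ((fvMap f).hom w) = f.hom (phiV c V q w) := by
  induction w using Finsupp.induction_linear with
  | zero =>
    have h0 : (fvMap f).hom (0 : Unit × Q →₀ V.V) = 0 := map_zero _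
    rw [h0, map_zero, map_zero, map_zero]
  | add u v hu hv =>
    have e : (fvMap f).hom (u + v : Unit × Q →₀ V.V) =
        (fvMap f).hom u + (fvMap f).hom v := map_add _ _ _
    rw [e, map_add, map_add, map_add, hu, hv]
  | single x v =>
    rw [fvMap_single, phiV_single, phiV_single, map_smul]
    congr 1
    exact (Rep.hom_comm_apply f q v).symm

/-- `D_c(f)`. -/
def dvMap {c : Q → Q → ℤ} (hc : IsCoc c) {V W : Rep.{0} k Q} (f : V ⟶ W) : DM hc V ⟶ DM hc W :=
  Rep.ofHom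
    { toLinearMap := LinearMap.prodMap f.hom.toLinearMap (ivMap f).hom.toLinearMap
      isIntertwining' := by
        intro q
        apply LinearMap.ext
        rintro ⟨v, w⟩
        refine Prod.ext ?_ ?_
        · change f.hom (V.ρ q v + phiV c V q w.1) = W.ρ q (f.hom v) + phiV c W q ((fvMap f).hom w.1)
          rw [map_add, phiV_map]
          congr 1
          exact Rep.hom_comm_apply f q v
        · exact Rep.hom_comm_apply (ivMap f) q w }

lemma dvMap_apply {c : Q → Q → ℤ} (hc : IsCoc c) {V W : Rep.{0} k Q} (f : V ⟶ W)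
    (x : V.V × (IV V).V) : (dvMap hc f).hom x = (f.hom x.1, (ivMap f).hom x.2) := rfl

end

end Pool.MP0c3001.DV
end

section

/-!
# N2: exactness of `V ↦ k[Q] ⊗ V, I(V), D_c(V)`

`S : 0 → X → Y → Z → 0` with maps `f, g`.  Use `shortExact_of` and elements; `f` is injective, `g` is onto and
`g y = 0 → ∃ x, f x = y` (from `S` short exact: `Rep.mono_iff_injective`, `Rep.epi_iff_surjective`,
`ShortComplex.ShortExact` gives exactness on elements: see the lemma `se_elem` below, which is to be proved first,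
e.g. through the forgetful functor to `ModuleCat`, as in the proof of `shortExact_of`).
* `fv_exact`: coordinatewise (`Finsupp.mapRange`; for the exactness choose preimages coordinatewise, a finitely
  supported function is the sum of its `single`s).
* `iv_exact`: `I(Y) → I(Z)` is onto: `w ∈ I(Z)`, `w = fvMap g w'`, `g (aug w') = aug w = 0`, `aug w' = f x`, replace `w'` by
  `w' - fvMap f (single ((),1) x)`.  Exactness in the middle: from `fv_exact`, and `f` injective.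
* `dv_exact`: product of `S` and `I(S)`.
* commutativity of the squares: `dvInc`, `dvProj`, `kerInc`.
-/

set_option autoImplicit false

namespace Pool.MP0c3001.DV

open CategoryTheory CategoryTheory.Abelian Limits

noncomputable section

variable {k : Type} [CommRing k] {Q : Type} [Group Q] {X Y Z : Rep.{0} k Q} {f : X ⟶ Y}
  {g : Y ⟶ Z} {w : f ≫ g = 0}

theorem se_elem (h : (ShortComplex.mk f g w).ShortExact) :
    Function.Injective f.hom ∧ Function.Surjective g.hom ∧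
      ∀ y : Y.V, g.hom y = 0 → ∃ x : X.V, f.hom x = y := by
  have h1 : Mono f := h.mono_f
  have h2 : Epi g := h.epi_g
  refine ⟨(Rep.mono_iff_injective f).1 h1, (Rep.epi_iff_surjective g).1 h2, ?_⟩
  have h3 := h.exact
  rw [← ShortComplex.exact_map_iff_of_faithful (ShortComplex.mk f g w)
    (forget₂ (Rep.{0} k Q) (ModuleCat.{0} k))] at h3
  rw [ShortComplex.moduleCat_exact_iff] at h3
  intro y hy
  exact h3 y hy

private theorem comp_elem (w : f ≫ g = 0) (x : X.V) : g.hom (f.hom x) = 0 := by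
  have h := congrArg (fun t : X ⟶ Z => t.hom x) w
  exact h

theorem fvMap_zero (w : f ≫ g = 0) : fvMap f ≫ fvMap g = 0 := by
  apply Rep.hom_ext
  apply Representation.IntertwiningMap.ext
  apply Finsupp.lhom_ext
  intro x v
  change (fvMap g).hom ((fvMap f).hom (Finsupp.single x v)) = 0
  rw [fvMap_single, fvMap_single, comp_elem w, Finsupp.single_zero]

private theorem fvMap_comp_elem (w : f ≫ g = 0) (u : Unit × Q →₀ X.V) :
    (fvMap g).hom ((fvMap f).hom u) = 0 := by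
  have h := congrArg (fun t : FV X ⟶ FV Z => t.hom u) (fvMap_zero w)
  exact h

theorem ivMap_zero (w : f ≫ g = 0) : ivMap f ≫ ivMap g = 0 := by
  apply Rep.hom_ext
  apply Representation.IntertwiningMap.ext
  apply LinearMap.ext
  intro u
  apply Subtype.ext
  change (fvMap g).hom ((fvMap f).hom u.1) = 0
  exact fvMap_comp_elem w u.1

theorem dvMap_zero {c : Q → Q → ℤ} (hc : IsCoc c) (w : f ≫ g = 0) :
    dvMap hc f ≫ dvMap hc g = 0 := by
  apply Rep.hom_ext
  apply Representation.IntertwiningMap.ext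
  apply LinearMap.ext
  rintro ⟨v, u⟩
  change (g.hom (f.hom v), (ivMap g).hom ((ivMap f).hom u)) = 0
  rw [comp_elem w]
  refine Prod.ext rfl (Subtype.ext ?_)
  exact fvMap_comp_elem w u.1

private theorem fvMap_eq {V W : Rep.{0} k Q} (f : V ⟶ W) (u : Unit × Q →₀ V.V) (x : Unit × Q) :
    ((fvMap f).hom u : Unit × Q →₀ W.V) x = f.hom (u x) := rfl

private theorem fv_inj {V W : Rep.{0} k Q} {f : V ⟶ W} (hf : Function.Injective f.hom) :
    Function.Injective (fvMap f).hom := by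
  intro a b hab
  apply Finsupp.ext
  intro x
  apply hf
  have h := congrArg (fun t : Unit × Q →₀ W.V => t x) hab
  exact h

private theorem fv_surj {V W : Rep.{0} k Q} {f : V ⟶ W} (hf : Function.Surjective f.hom) :
    Function.Surjective (fvMap f).hom := by
  intro b
  obtain ⟨a, ha⟩ := Finsupp.mapRange_surjective (α := Unit × Q) f.hom (map_zero f.hom) hf b
  exact ⟨a, ha⟩

private theorem fv_mid (hf : Function.Injective f.hom)
    (hfg : ∀ y : Y.V, g.hom y = 0 → ∃ x : X.V, f.hom x = y) (u : Unit × Q →₀ Y.V)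
    (hu : (fvMap g).hom u = 0) : ∃ a : Unit × Q →₀ X.V, (fvMap f).hom a = u := by
  classical
  have h0 : ∀ x : Unit × Q, g.hom (u x) = 0 := by
    intro x
    have h := congrArg (fun t : Unit × Q →₀ Z.V => t x) hu
    exact h
  choose s hs using hfg
  let a : Y.V → X.V := fun y => if h : g.hom y = 0 then s y h else 0
  have ha : ∀ y : Y.V, g.hom y = 0 → f.hom (a y) = y := by
    intro y hy
    have : a y = s y hy := dif_pos hy
    rw [this, hs]
  have ha0 : a 0 = 0 := by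
    apply hf
    rw [ha 0 (map_zero g.hom), map_zero]
  refine ⟨Finsupp.mapRange a ha0 u, ?_⟩
  apply Finsupp.ext
  intro x
  rw [fvMap_eq, Finsupp.mapRange_apply]
  exact ha _ (h0 x)

theorem fv_exact (h : (ShortComplex.mk f g w).ShortExact) :
    (ShortComplex.mk (fvMap f) (fvMap g) (fvMap_zero w)).ShortExact := by
  obtain ⟨h1, h2, h3⟩ := se_elem h
  exact shortExact_of _ _ _ (fv_inj h1) (fv_surj h2) (fun u hu => fv_mid h1 h3 u hu)

private theorem aug_map {V W : Rep.{0} k Q} (f : V ⟶ W) (u : Unit × Q →₀ V.V) :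
    (fvAug W).hom ((fvMap f).hom u) = f.hom ((fvAug V).hom u) := by
  have h := congrArg (fun t : FV V ⟶ W => t.hom u) (fvMap_aug f)
  exact h

private theorem iv_inj {V W : Rep.{0} k Q} {f : V ⟶ W} (hf : Function.Injective f.hom) :
    Function.Injective (ivMap f).hom := by
  intro a b hab
  apply Subtype.ext
  exact fv_inj hf (congrArg Subtype.val hab)

private theorem iv_surj (w : f ≫ g = 0) (h2 : Function.Surjective g.hom)
    (h3 : ∀ y : Y.V, g.hom y = 0 → ∃ x : X.V, f.hom x = y) :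
    Function.Surjective (ivMap g).hom := by
  rintro ⟨b, hb⟩
  obtain ⟨b', hb'⟩ := fv_surj h2 b
  have h4 : g.hom ((fvAug Y).hom b') = 0 := by
    rw [← aug_map, hb']
    exact hb
  obtain ⟨x, hx⟩ := h3 _ h4
  have h5 : (fvAug Y).hom (b' - (fvMap f).hom (Finsupp.single ((), 1) x)) = 0 := by
    have e : (fvAug Y).hom (b' - (fvMap f).hom (Finsupp.single ((), 1) x)) =
        (fvAug Y).hom b' - (fvAug Y).hom ((fvMap f).hom (Finsupp.single ((), 1) x)) :=
      map_sub _ _ _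
    rw [e, aug_map, fvAug_single, hx, sub_self]
  refine ⟨⟨b' - (fvMap f).hom (Finsupp.single ((), 1) x), h5⟩, Subtype.ext ?_⟩
  change (fvMap g).hom (b' - (fvMap f).hom (Finsupp.single ((), 1) x)) = b
  have e : (fvMap g).hom (b' - (fvMap f).hom (Finsupp.single ((), 1) x)) =
      (fvMap g).hom b' - (fvMap g).hom ((fvMap f).hom (Finsupp.single ((), 1) x)) :=
    map_sub _ _ _
  rw [e, fvMap_comp_elem w, sub_zero, hb']

private theorem iv_mid (h1 : Function.Injective f.hom)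
    (h3 : ∀ y : Y.V, g.hom y = 0 → ∃ x : X.V, f.hom x = y) (u : (IV Y).V)
    (hu : (ivMap g).hom u = 0) : ∃ a : (IV X).V, (ivMap f).hom a = u := by
  obtain ⟨a, ha⟩ := fv_mid h1 h3 u.1 (congrArg Subtype.val hu)
  have h4 : (fvAug X).hom a = 0 := by
    apply h1
    rw [← aug_map, ha, map_zero]
    exact u.2
  exact ⟨⟨a, h4⟩, Subtype.ext ha⟩

theorem iv_exact (h : (ShortComplex.mk f g w).ShortExact) :
    (ShortComplex.mk (ivMap f) (ivMap g) (ivMap_zero w)).ShortExact := by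
  obtain ⟨h1, h2, h3⟩ := se_elem h
  exact shortExact_of _ _ _ (iv_inj h1) (iv_surj w h2 h3) (fun u hu => iv_mid h1 h3 u hu)

theorem dv_exact {c : Q → Q → ℤ} (hc : IsCoc c) (h : (ShortComplex.mk f g w).ShortExact) :
    (ShortComplex.mk (dvMap hc f) (dvMap hc g) (dvMap_zero hc w)).ShortExact := by
  obtain ⟨h1, h2, h3⟩ := se_elem h
  apply shortExact_of
  · rintro ⟨a, u⟩ ⟨b, v⟩ hab
    refine Prod.ext ?_ ?_
    · exact h1 (congrArg Prod.fst hab)
    · exact iv_inj h1 (congrArg Prod.snd hab)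
  · rintro ⟨b, v⟩
    obtain ⟨a, ha⟩ := h2 b
    obtain ⟨u, hu⟩ := iv_surj w h2 h3 v
    exact ⟨(a, u), Prod.ext ha hu⟩
  · rintro ⟨b, v⟩ hb
    obtain ⟨a, ha⟩ := h3 b (congrArg Prod.fst hb)
    obtain ⟨u, hu⟩ := iv_mid h1 h3 v (congrArg Prod.snd hb)
    exact ⟨(a, u), Prod.ext ha hu⟩

theorem dvInc_nat {c : Q → Q → ℤ} (hc : IsCoc c) (f : X ⟶ Y) :
    f ≫ dvInc hc Y = dvInc hc X ≫ dvMap hc f := by
  apply Rep.hom_ext
  apply Representation.IntertwiningMap.ext
  apply LinearMap.ext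
  intro v
  change (f.hom v, (0 : (IV Y).V)) = (f.hom v, (ivMap f).hom 0)
  have h0 : (ivMap f).hom 0 = 0 := map_zero _
  rw [h0]

theorem dvProj_nat {c : Q → Q → ℤ} (hc : IsCoc c) (f : X ⟶ Y) :
    dvMap hc f ≫ dvProj hc Y = dvProj hc X ≫ ivMap f := by
  apply Rep.hom_ext
  apply Representation.IntertwiningMap.ext
  apply LinearMap.ext
  intro v
  rfl

theorem kerInc_nat (f : X ⟶ Y) :
    ivMap f ≫ kerInc (fvAug Y) = kerInc (fvAug X) ≫ fvMap f := by
  apply Rep.hom_ext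
  apply Representation.IntertwiningMap.ext
  apply LinearMap.ext
  intro v
  rfl

end

end Pool.MP0c3001.DV
end
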