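import Pool.Agent.Lib.MP_0c3001_gt.Mg.G009
import Pool.Agent.Lib.MP_0c3001_gt.Mg.G024
import Pool.Agent.Lib.MP_0c3001_gt.Mg.G023

section

/-!
# KU2: degree shift by two over `G × ℤ/l`

`P = Multiplicative (ZMod l)`, `V = infl P V₀` (`P` acts trivially), `l V = 0`, `M = Mp P V` (action `pAct`), `σ = ofAdd 1 ∈ P`.
* `Σ : M ⟶ V`, `f ↦ ∑ x, f x` (`P` is finite since `l > 0`), equivariant (reindex the sum by `x ↦ p⁻¹ x`), onto
  (`Pi.single`); `K = kerRep Σ`; `S₁ : 0 → K → M → V → 0` (`kerSeq_shortExact`).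
* `T : M ⟶ K`, `(T f)(x) = f (x σ) - f x` (equivariant since `P` is commutative; `∑ T f = 0`), kernel: the constant
  functions (`f (x σ) = f x` for all `x` and `σ` generates `P`), image: everything (`u` with `∑ u = 0`: put
  `f (σ ^ j) = ∑_{i < j} u (σ ^ i)`, `0 ≤ j < l`); `S₂ : 0 → V → M → K → 0` with `mpConst` (`shortExact_of`).
* Every `β ∈ H^i(Γ;M)` is `α.comp (mk₀ mpConst)` (`const_surj`), so `β.comp (mk₀ Σ) = α.comp (mk₀ (mpConst ≫ Σ)) = 0` as
  `mpConst ≫ Σ = l • 𝟙 = 0`, and `β.comp (mk₀ T) = 0` as `mpConst ≫ T = 0`.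
* So `H^i(V) → H^{i+1}(K)`, `x ↦ x.comp S₁.extClass`, is injective (`Ext.covariant_sequence_exact₃`: if
  `x.comp extClass = 0` then `x = β.comp (mk₀ Σ) = 0`), and `H^{i+1}(K) → H^{i+2}(V)`, `x ↦ x.comp S₂.extClass`, is
  injective.  `φ` is the composite (`postcomp` of the two classes).
-/

set_option autoImplicit false

namespace Pool.MP0c3001.DV

open CategoryTheory CategoryTheory.Abelian Limits

noncomputable section

variable {k : Type} [CommRing k] {G : Type} [Group G]

/-- a function on `ℤ/l` with sum zero is a difference -/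
private theorem KU2_cyc (n : ℕ) {A : Type} [AddCommGroup A] (u : ZMod (n + 1) → A)
    (h : ∑ x, u x = 0) : ∃ f : ZMod (n + 1) → A, ∀ a, f (a + 1) - f a = u a := by
  have htot : ∑ i ∈ Finset.range (n + 1), u (i : ZMod (n + 1)) = 0 := by
    rw [← h]
    have h1 := Fin.sum_univ_eq_sum_range (fun i : ℕ => u (i : ZMod (n + 1))) (n + 1)
    rw [← h1]
    apply Finset.sum_congr rfl
    intro x _
    congr 1
    exact Fin.cast_val_eq_self x
  refine ⟨fun a => ∑ i ∈ Finset.range a.val, u (i : ZMod (n + 1)), fun a => ?_⟩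
  have hv : (a + 1).val = (a.val + 1) % (n + 1) := by
    rw [ZMod.val_add, ZMod.val_one_eq_one_mod, Nat.add_mod_mod]
  have ha : ((a.val : ℕ) : ZMod (n + 1)) = a := ZMod.natCast_zmod_val a
  have hlt : a.val < n + 1 := ZMod.val_lt a
  change ∑ i ∈ Finset.range (a + 1).val, u (i : ZMod (n + 1)) -
    ∑ i ∈ Finset.range a.val, u (i : ZMod (n + 1)) = u a
  rcases Nat.lt_or_ge (a.val + 1) (n + 1) with hc | hc
  · rw [hv, Nat.mod_eq_of_lt hc, Finset.sum_range_succ, ha]
    abel
  · have he : a.val = n := by omega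
    have h0 : (a + 1).val = 0 := by rw [hv, he, Nat.mod_self]
    rw [h0, Finset.range_zero, Finset.sum_empty]
    rw [Finset.sum_range_succ] at htot
    have hn1 : ((a.val : ℕ) : ZMod (n + 1)) = (n : ZMod (n + 1)) :=
      congrArg (fun m : ℕ => (m : ZMod (n + 1))) he
    have hn : (n : ZMod (n + 1)) = a := hn1.symm.trans ha
    rw [hn] at htot
    rw [he]
    rw [zero_sub]
    exact neg_eq_of_add_eq_zero_right htot

/-- invariant functions on `ℤ/l` are constant -/
private theorem KU2_const (n : ℕ) {A : Type} (f : ZMod (n + 1) → A)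
    (h : ∀ a, f (a + 1) = f a) (a : ZMod (n + 1)) : f a = f 0 := by
  have h1 : ∀ m : ℕ, f (m : ZMod (n + 1)) = f 0 := by
    intro m
    induction m with
    | zero => rw [Nat.cast_zero]
    | succ m ih => rw [Nat.cast_succ, h, ih]
  have ha : ((a.val : ℕ) : ZMod (n + 1)) = a := ZMod.natCast_zmod_val a
  rw [← ha]
  exact h1 _

private theorem KU2_ext {A B : Rep.{0} k G} {f g : A ⟶ B} (h : ∀ a : A.V, f.hom a = g.hom a) :
    f = g := by
  apply Rep.hom_ext
  apply Representation.IntertwiningMap.ext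
  apply LinearMap.ext
  intro v
  exact h v

/-- The corestriction of a morphism to a kernel. -/
private def KU2_kerLift {A B D : Rep.{0} k G} (g : B ⟶ D) (f : A ⟶ B)
    (h : ∀ a : A.V, g.hom (f.hom a) = 0) : A ⟶ kerRep g :=
  Rep.ofHom
    { toLinearMap := LinearMap.codRestrict (LinearMap.ker g.hom.toLinearMap) f.hom.toLinearMap h
      isIntertwining' := by
        intro x
        apply LinearMap.ext
        intro v
        apply Subtype.ext
        change f.hom (A.ρ x v) = B.ρ x (f.hom v)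
        exact Rep.hom_comm_apply f x v }

/-- The sum of the values. -/
private def KU2_sum (X : Type) [Fintype X] [MulAction G X] (V : Rep.{0} k G) : Mp X V ⟶ V :=
  Rep.ofHom
    { toLinearMap :=
        { toFun := fun f => ∑ x : X, f x
          map_add' := fun f f' => Finset.sum_add_distrib
          map_smul' := fun c f => by
            change ∑ x : X, c • (f x) = c • ∑ x : X, f x
            rw [Finset.smul_sum] }
      isIntertwining' := by
        intro g
        apply LinearMap.ext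
        intro f
        change ∑ x : X, V.ρ g (f (g⁻¹ • x)) = V.ρ g (∑ x : X, f x)
        rw [map_sum]
        exact Equiv.sum_comp (MulAction.toPerm (g⁻¹ : G)) (fun x : X => V.ρ g (f x)) }

private theorem KU2_sum_apply (X : Type) [Fintype X] [MulAction G X] (V : Rep.{0} k G)
    (f : X → V.V) : (KU2_sum X V).hom f = ∑ x : X, f x := rfl

/-- `(T f)(x) = f (x σ) - f x`. -/
private def KU2_diff (P : Type) [CommGroup P] (σ : P) (V : Rep.{0} k (G × P)) :
    @Mp k _ (G × P) _ P (pAct G P) V ⟶ @Mp k _ (G × P) _ P (pAct G P) V :=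
  Rep.ofHom
    { toLinearMap :=
        { toFun := fun f x => f (x * σ) - f x
          map_add' := fun f f' => by
            funext x
            change (f (x * σ) + f' (x * σ)) - (f x + f' x) =
              (f (x * σ) - f x) + (f' (x * σ) - f' x)
            abel
          map_smul' := fun c f => by
            funext x
            change c • f (x * σ) - c • f x = c • (f (x * σ) - f x)
            rw [smul_sub] }
      isIntertwining' := by
        intro g
        apply LinearMap.ext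
        intro f
        funext x
        change V.ρ g (f (g.2⁻¹ * (x * σ))) - V.ρ g (f (g.2⁻¹ * x)) =
          V.ρ g (f (g.2⁻¹ * x * σ) - f (g.2⁻¹ * x))
        rw [map_sub, mul_assoc] }

theorem kun_step (l : ℕ) (hl : 0 < l) (V₀ : Rep.{0} k G) (hV : ∀ v : V₀.V, l • v = 0) (i : ℕ) :
    ∃ φ : HH k (G × Multiplicative (ZMod l)) (infl (Multiplicative (ZMod l)) V₀) i →+
      HH k (G × Multiplicative (ZMod l)) (infl (Multiplicative (ZMod l)) V₀) (i + 2),
      Function.Injective φ := by
  obtain ⟨n, rfl⟩ : ∃ n, l = n + 1 := ⟨l - 1, by omega⟩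
  let P : Type := Multiplicative (ZMod (n + 1))
  let V : Rep.{0} k (G × P) := infl P V₀
  let iA : MulAction (G × P) P := pAct G P
  let iF : Fintype P := ZMod.fintype (n + 1)
  let M : Rep.{0} k (G × P) := @Mp k _ (G × P) _ P (pAct G P) V
  let σ : P := Multiplicative.ofAdd (1 : ZMod (n + 1))
  let S : M ⟶ V := @KU2_sum k _ (G × P) _ P iF (pAct G P) V
  let T : M ⟶ M := KU2_diff P σ V
  have hS : ∀ f : P → V.V, S.hom f = ∑ x : P, f x := fun f =>
    @KU2_sum_apply k _ (G × P) _ P iF (pAct G P) V f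
  have hT : ∀ (f : P → V.V) (x : P), (T.hom f : P → V.V) x = f (x * σ) - f x := fun f x => rfl
  have hST : ∀ f : M.V, S.hom (T.hom f) = 0 := by
    intro f
    rw [hS]
    have h1 : ∑ x : P, (T.hom f : P → V.V) x = ∑ x : P, (f (x * σ) - f x) := rfl
    rw [h1, Finset.sum_sub_distrib]
    have h2 : ∑ x : P, f (x * σ) = ∑ x : P, f x :=
      Equiv.sum_comp (Equiv.mulRight σ) (fun x : P => f x)
    exact sub_eq_zero.2 h2
  have hSsurj : Function.Surjective S.hom := by
    intro v
    refine ⟨(fun x : P => if x = 1 then v else 0), ?_⟩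
    rw [hS]
    rw [Finset.sum_eq_single (1 : P)]
    · exact if_pos rfl
    · intro b _ hb
      exact if_neg hb
    · intro hb
      exact absurd (Finset.mem_univ _) hb
  have hS₁ := kerSeq_shortExact S hSsurj
  let C : V ⟶ M := @mpConst k _ (G × P) _ P (pAct G P) V
  have hC : ∀ (v : V.V) (x : P), (C.hom v : P → V.V) x = v := fun v x => rfl
  let T' : M ⟶ kerRep S := KU2_kerLift S T hST
  have hCT : C ≫ T' = 0 := by
    apply KU2_ext
    intro v
    apply Subtype.ext
    funext x
    exact sub_self v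
  have hCS : C ≫ S = 0 := by
    apply KU2_ext
    intro v
    change ∑ x : P, (v : V.V) = 0
    rw [Finset.sum_const, Finset.card_univ]
    have hc : Fintype.card P = n + 1 := ZMod.card (n + 1)
    rw [hc]
    exact hV v
  have hS₂ : (ShortComplex.mk C T' hCT).ShortExact := by
    apply shortExact_of
    · intro v v' hv
      exact congrFun hv (1 : P)
    · rintro ⟨u, hu⟩
      have hu' : ∑ x : ZMod (n + 1), (fun a : ZMod (n + 1) =>
          (u : P → V.V) (Multiplicative.ofAdd a)) x = 0 := hu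
      obtain ⟨f, hf⟩ := KU2_cyc n (fun a : ZMod (n + 1) =>
          (u : P → V.V) (Multiplicative.ofAdd a)) hu'
      refine ⟨(fun x : P => f (Multiplicative.toAdd x)), ?_⟩
      apply Subtype.ext
      funext x
      exact hf (Multiplicative.toAdd x)
    · intro f hf
      have h1 : ∀ x : P, (f : P → V.V) (x * σ) = (f : P → V.V) x := by
        intro x
        have h2 := congrFun (congrArg Subtype.val hf) x
        exact sub_eq_zero.1 h2
      refine ⟨(f : P → V.V) 1, ?_⟩
      funext x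
      have h3 := KU2_const n (fun a : ZMod (n + 1) => (f : P → V.V) (Multiplicative.ofAdd a))
        (fun a => h1 (Multiplicative.ofAdd a)) (Multiplicative.toAdd x)
      exact h3.symm
  have hcs : ∀ (i : ℕ) (W : Rep.{0} k (G × P)) (f : M ⟶ W) (_ : C ≫ f = 0)
      (β : HH k (G × P) M i), β.comp (Ext.mk₀ f) (add_zero i) = 0 := by
    intro i W f hf β
    obtain ⟨α, hα⟩ := const_surj P V₀ i β
    have h1 : β = α.comp (Ext.mk₀ C) (add_zero i) := hα.symm
    rw [h1, Ext.comp_assoc_of_third_deg_zero, Ext.mk₀_comp_mk₀, hf, Ext.mk₀_zero,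
      Ext.comp_zero]
  refine ⟨(hS₂.extClass.postcomp (Zt k (G × P)) (rfl : (i + 1) + 1 = i + 2)).comp
    (hS₁.extClass.postcomp (Zt k (G × P)) (rfl : i + 1 = i + 1)), ?_⟩
  rw [injective_iff_map_eq_zero]
  intro x hx
  have hx1 : (x.comp hS₁.extClass (rfl : i + 1 = i + 1)).comp hS₂.extClass
      (rfl : (i + 1) + 1 = i + 2) = 0 := hx
  obtain ⟨β, hβ⟩ := Ext.covariant_sequence_exact₃ (Zt k (G × P)) hS₂
    (x.comp hS₁.extClass (rfl : i + 1 = i + 1)) rfl hx1
  have hx2 : x.comp hS₁.extClass (rfl : i + 1 = i + 1) = 0 := by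
    rw [← hβ]
    exact hcs (i + 1) _ T' hCT β
  obtain ⟨β', hβ'⟩ := Ext.covariant_sequence_exact₃ (Zt k (G × P)) hS₁ x rfl hx2
  rw [← hβ']
  exact hcs i _ S hCS β'

end

end Pool.MP0c3001.DV
end

section

/-!
# KU3: finiteness for `G × ℤ/l` in large degrees gives finiteness for `G` in all degrees

`H^a(G;V₀) → H^a(G × P; V)`, `x ↦ rs (fst) x`, is injective: `rs (inl) (rs fst x) = rs id x = x` (`rs_rs`, `rs_id`,
`MonoidHom.inl`).  By `kun_step` and induction on `j` there is an injective homomorphism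
`H^a(G × P;V) →+ H^{a + 2 j}(G × P;V)`; take `j` with `a + 2 j ≥ i₀`; `Module.Finite.of_injective`
(`ℤ` noetherian).
-/

set_option autoImplicit false

namespace Pool.MP0c3001.DV

open CategoryTheory CategoryTheory.Abelian Limits

noncomputable section

variable {k : Type} [CommRing k] {G : Type} [Group G]

private theorem ku3_id {S : Type} [Group S] {V W : Rep.{0} k S} (f : S →* S)
    (hf : f = MonoidHom.id S) (hV : (Rep.resFunctor.{0} (k := k) f).obj V = V)
    (hW : (Rep.resFunctor.{0} (k := k) f).obj W = W) {i : ℕ} (x : Ext.{0} V W i) :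
    cast (by rw [hV, hW]) (rs f x) = x := by
  subst hf
  exact rs_id x

private theorem ku3_inj (l : ℕ) (V₀ : Rep.{0} k G) (a : ℕ) :
    ∃ φ : HH k G V₀ a →+
      HH k (G × Multiplicative (ZMod l)) (infl (Multiplicative (ZMod l)) V₀) a,
      Function.Injective φ := by
  let P : Type := Multiplicative (ZMod l)
  let φ : HH k G V₀ a →+ HH k (G × P) (infl P V₀) a :=
    { toFun := fun x => rs (MonoidHom.fst G P) x
      map_zero' := by
        have h := rs_nsmul (MonoidHom.fst G P) 0 (0 : HH k G V₀ a)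
        rw [zero_smul, zero_smul] at h
        exact h
      map_add' := fun x y => rs_add (MonoidHom.fst G P) x y }
  refine ⟨φ, ?_⟩
  have key : ∀ x : HH k G V₀ a, (rs (MonoidHom.inl G P) (φ x) : HH k G V₀ a) = x := by
    intro x
    have e1 := rs_rs (k := k) (MonoidHom.fst G P) (MonoidHom.inl G P) x
    have e2 := ku3_id ((MonoidHom.fst G P).comp (MonoidHom.inl G P)) (by
      apply MonoidHom.ext; intro g; rfl) rfl rfl x
    exact e1.trans e2
  intro x y hxy
  have h1 := key x
  have h2 := key y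
  rw [hxy] at h1
  exact h1.symm.trans h2

private theorem ku3_iter (l : ℕ) (hl : 0 < l) (V₀ : Rep.{0} k G) (hV : ∀ v : V₀.V, l • v = 0)
    (a j : ℕ) :
    ∃ φ : HH k G V₀ a →+
      HH k (G × Multiplicative (ZMod l)) (infl (Multiplicative (ZMod l)) V₀) (a + 2 * j),
      Function.Injective φ := by
  induction j with
  | zero => exact ku3_inj l V₀ a
  | succ j ih =>
    obtain ⟨φ, hφ⟩ := ih
    obtain ⟨ψ, hψ⟩ := kun_step l hl V₀ hV (a + 2 * j)
    exact ⟨ψ.comp φ, hψ.comp hφ⟩

theorem kun_fg (l : ℕ) (hl : 0 < l) (V₀ : Rep.{0} k G) (hV : ∀ v : V₀.V, l • v = 0) (i₀ : ℕ)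
    (h : ∀ i, i₀ ≤ i → Module.Finite ℤ
      (HH k (G × Multiplicative (ZMod l)) (infl (Multiplicative (ZMod l)) V₀) i)) (a : ℕ) :
    Module.Finite ℤ (HH k G V₀ a) := by
  obtain ⟨φ, hφ⟩ := ku3_iter l hl V₀ hV a i₀
  have := h (a + 2 * i₀) (by omega)
  exact Module.Finite.of_injective φ.toIntLinearMap hφ

end

end Pool.MP0c3001.DV
end

section

/-!
# N3: Euler classes commute

* `ecV_nat`: `ecV hc Z = (ivSeq Z).extClass.comp (dvSeq hc Z).extClass`.  `three_by_three` with rows
  `A = S`, `B = (dvMap f, dvMap g)` (`dv_exact`), `C = (ivMap f, ivMap g)` (`iv_exact`) and columns `dvSeq hc X, Y, Z`: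
  `(dvSeq hc Z).extClass.comp h.extClass = - (iv_exact h).extClass.comp (dvSeq hc X).extClass`;
  `three_by_three` with rows `A = (ivMap f, ivMap g)`, `B = (fvMap f, fvMap g)` (`fv_exact`), `C = S` and columns
  `ivSeq X, Y, Z`: `(ivSeq Z).extClass.comp (iv_exact h).extClass = - h.extClass.comp (ivSeq X).extClass`.
  Combine (associativity, two signs cancel).
* `ecV_trivial`: there is a commutative diagram of the sequences `dSeq (hc.map ..)`, `augSeq k Q` and `dvSeq hc (Zt k Q)`,
  `ivSeq (Zt k Q)`: the identity on underlying modules: `Fr k Unit Q` and `FV (Zt k Q)` have the same underlying module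
  `Unit × Q →₀ k` and the same action (`frRho_single`, `fvRho_single`, the action on `Zt` is trivial), the same
  augmentation; `phiV c (Zt k Q) q = phi (fun q p => ((c q p : ℤ) : k)) q` (on `single`).  Apply
  `extClass_naturality` twice (as in `cls_map`).
* `ecl_comm`: write `e' = ecl k hc' = τ₁.comp τ₂`, `τ₁ = (augSeq k Q).extClass`, `τ₂ = (dSeq _).extClass` (`cls`, `splice`).
  `ecl k hc = ecV hc (Zt k Q)`, so `e.comp e' = (ecV hc Zt).comp τ₁ .comp τ₂ = τ₁ (ecV hc Iaug) τ₂ = τ₁ τ₂ (ecV hc Zt)`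
  by `ecV_nat` for `augSeq` and `dSeq`.
-/

set_option autoImplicit false

namespace Pool.MP0c3001.DV

open CategoryTheory CategoryTheory.Abelian Limits

noncomputable section

variable {k : Type} [CommRing k] {Q : Type} [Group Q]

theorem ecV_nat {c : Q → Q → ℤ} (hc : IsCoc c) {X Y Z : Rep.{0} k Q} {f : X ⟶ Y} {g : Y ⟶ Z}
    {w : f ≫ g = 0} (h : (ShortComplex.mk f g w).ShortExact) :
    (ecV hc Z).comp h.extClass (rfl : 2 + 1 = 3) = h.extClass.comp (ecV hc X) (by rfl : 1 + 2 = 3) := by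
  have E1 := three_by_three h (dv_exact hc h) (iv_exact h) (dvSeq hc X) (dvSeq hc Y) (dvSeq hc Z)
    (dvInc_nat hc f) (dvInc_nat hc g) (dvProj_nat hc f) (dvProj_nat hc g)
  have E2 := three_by_three (iv_exact h) (fv_exact h) h (ivSeq X) (ivSeq Y) (ivSeq Z)
    (kerInc_nat f) (kerInc_nat g) (fvMap_aug f) (fvMap_aug g)
  have a1 : (ecV hc Z).comp h.extClass (rfl : 2 + 1 = 3) =
      (ivSeq Z).extClass.comp ((dvSeq hc Z).extClass.comp h.extClass (rfl : 1 + 1 = 2))
        (by rfl : 1 + 2 = 3) :=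
    Ext.comp_assoc (a₁₂ := 2) (a₂₃ := 2) _ _ _ (by omega) (by omega) (by omega)
  have a2 : (ivSeq Z).extClass.comp ((iv_exact h).extClass.comp (dvSeq hc X).extClass
      (rfl : 1 + 1 = 2)) (by rfl : 1 + 2 = 3) =
      ((ivSeq Z).extClass.comp (iv_exact h).extClass (rfl : 1 + 1 = 2)).comp
        (dvSeq hc X).extClass (rfl : 2 + 1 = 3) :=
    (Ext.comp_assoc (a₁₂ := 2) (a₂₃ := 2) _ _ _ (by omega) (by omega) (by omega)).symm
  have a3 : (h.extClass.comp (ivSeq X).extClass (rfl : 1 + 1 = 2)).comp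
        (dvSeq hc X).extClass (rfl : 2 + 1 = 3) = h.extClass.comp (ecV hc X) (by rfl : 1 + 2 = 3) :=
    Ext.comp_assoc (a₁₂ := 2) (a₂₃ := 2) _ _ _ (by omega) (by omega) (by omega)
  rw [a1, E1, Ext.comp_neg, a2, E2, Ext.neg_comp, neg_neg, a3]

private lemma N3_rho (q : Q) (w : Unit × Q →₀ k) :
    frRho k Unit Q q w = fvRho (Zt k Q) q w := by
  induction w using Finsupp.induction_linear with
  | zero => rw [map_zero, map_zero]
  | add u v hu hv => rw [map_add, map_add, hu, hv]
  | single x v =>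
    rw [frRho_single, fvRho_single]
    rfl

private lemma N3_aug (w : Unit × Q →₀ k) :
    (fvAug (Zt k Q)).hom w = (aug k Q).hom w := by
  induction w using Finsupp.induction_linear with
  | zero =>
    have h1 : (fvAug (Zt k Q)).hom (0 : Unit × Q →₀ k) = 0 := map_zero _
    have h2 : (aug k Q).hom (0 : Unit × Q →₀ k) = 0 := map_zero _
    rw [h1, h2]
  | add u v hu hv =>
    have h1 : (fvAug (Zt k Q)).hom (u + v : Unit × Q →₀ k) =
      (fvAug (Zt k Q)).hom u + (fvAug (Zt k Q)).hom v := map_add _ _ _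
    have h2 : (aug k Q).hom (u + v : Unit × Q →₀ k) =
      (aug k Q).hom u + (aug k Q).hom v := map_add _ _ _
    rw [h1, h2, hu, hv]
  | single x v => exact (fvAug_single (Zt k Q) x v).trans (aug_single x v).symm

private lemma N3_phi (c : Q → Q → ℤ) (q : Q) (w : Unit × Q →₀ k) :
    phiV c (Zt k Q) q w = phi (k := k) (fun a b => Int.castAddHom k (c a b)) q w := by
  induction w using Finsupp.induction_linear with
  | zero =>
    have h1 : phiV c (Zt k Q) q (0 : Unit × Q →₀ k) = 0 := map_zero _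
    rw [h1, map_zero]
  | add u v hu hv =>
    have h1 : phiV c (Zt k Q) q (u + v : Unit × Q →₀ k) =
      phiV c (Zt k Q) q u + phiV c (Zt k Q) q v := map_add _ _ _
    rw [h1, map_add, hu, hv]
  | single x v =>
    have h1 := phiV_single c (Zt k Q) q x v
    refine h1.trans ?_
    rw [phi_single]
    exact mul_comm _ _

theorem ecV_trivial {c : Q → Q → ℤ} (hc : IsCoc c) : ecV hc (Zt k Q) = ecl k hc := by
  let ψ : IV (Zt k Q) ⟶ Iaug k Q := Rep.ofHom
    { toLinearMap :=
        { toFun := fun w => ⟨w.1, (N3_aug w.1).symm.trans w.2⟩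
          map_add' := fun _ _ => rfl
          map_smul' := fun _ _ => rfl }
      isIntertwining' := by
        intro q
        apply LinearMap.ext
        intro w
        apply Subtype.ext
        exact (N3_rho (k := k) q w.1).symm }
  let Φ : FV (Zt k Q) ⟶ Fr k Unit Q := Rep.ofHom
    { toLinearMap := LinearMap.id
      isIntertwining' := by
        intro q
        apply LinearMap.ext
        intro w
        exact (N3_rho (k := k) q w).symm }
  let Ψ : DM hc (Zt k Q) ⟶ Dc (k := k) (hc.map (Int.castAddHom k)) := Rep.ofHom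
    { toLinearMap := LinearMap.prodMap LinearMap.id ψ.hom.toLinearMap
      isIntertwining' := by
        intro q
        apply LinearMap.ext
        rintro ⟨v, w⟩
        refine Prod.ext ?_ ?_
        · change v + phiV c (Zt k Q) q w.1 =
            v + phi (k := k) (fun a b => Int.castAddHom k (c a b)) q w.1
          rw [N3_phi]
        · exact Rep.hom_comm_apply ψ q w }
  let f₂ : (ShortComplex.mk (kerInc (fvAug (Zt k Q))) (fvAug (Zt k Q)) (kerInc_zero _)) ⟶
      (ShortComplex.mk (kerInc (aug k Q)) (aug k Q) (kerInc_zero _)) :=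
    { τ₁ := ψ
      τ₂ := Φ
      τ₃ := 𝟙 _
      comm₁₂ := by
        apply Rep.hom_ext
        apply Representation.IntertwiningMap.ext
        apply LinearMap.ext
        intro w
        rfl
      comm₂₃ := by
        apply Rep.hom_ext
        apply Representation.IntertwiningMap.ext
        apply LinearMap.ext
        intro w
        exact (N3_aug w).symm }
  let f₁ : (ShortComplex.mk (dvInc hc (Zt k Q)) (dvProj hc (Zt k Q)) (dvInc_proj hc (Zt k Q))) ⟶
      (ShortComplex.mk (dInc (k := k) (hc.map (Int.castAddHom k))) (dProj _)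
        (dInc_proj (hc.map (Int.castAddHom k)))) :=
    { τ₁ := 𝟙 _
      τ₂ := Ψ
      τ₃ := ψ
      comm₁₂ := by
        apply Rep.hom_ext
        apply Representation.IntertwiningMap.ext
        apply LinearMap.ext
        intro v
        refine Prod.ext rfl ?_
        change (0 : (Iaug k Q).V) = ψ.hom 0
        rw [map_zero]
      comm₂₃ := by
        apply Rep.hom_ext
        apply Representation.IntertwiningMap.ext
        apply LinearMap.ext
        intro w
        rfl }
  have hn₁ := ShortComplex.ShortExact.extClass_naturality.{0} (dvSeq hc (Zt k Q))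
    (dSeq (k := k) (hc.map (Int.castAddHom k))) f₁
  have hn₂ := ShortComplex.ShortExact.extClass_naturality.{0} (ivSeq (Zt k Q)) (augSeq k Q) f₂
  have e1 : (dvSeq hc (Zt k Q)).extClass = (Ext.mk₀ ψ).comp
      (dSeq (k := k) (hc.map (Int.castAddHom k))).extClass (zero_add 1) :=
    (Ext.comp_mk₀_id _).symm.trans hn₁
  have e2 : (ivSeq (Zt k Q)).extClass.comp (Ext.mk₀ ψ) (add_zero 1) = (augSeq k Q).extClass :=
    hn₂.trans (Ext.mk₀_id_comp _)
  change (ivSeq (Zt k Q)).extClass.comp (dvSeq hc (Zt k Q)).extClass rfl =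
    (augSeq k Q).extClass.comp (dSeq (k := k) (hc.map (Int.castAddHom k))).extClass rfl
  rw [e1, ← e2]
  exact (Ext.comp_assoc (a₁₂ := 1) (a₂₃ := 1) _ _ _ (by omega) (by omega) (by omega)).symm

theorem ecl_comm {c c' : Q → Q → ℤ} (hc : IsCoc c) (hc' : IsCoc c') :
    (ecl k hc).comp (ecl k hc') (rfl : 2 + 2 = 4) = (ecl k hc').comp (ecl k hc) (rfl : 2 + 2 = 4) := by
  have n1 := ecV_nat hc (augSeq k Q)
  have n2 := ecV_nat hc (dSeq (k := k) (hc'.map (Int.castAddHom k)))
  have hV : ecl k hc = ecV hc (Zt k Q) := (ecV_trivial hc).symm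
  have hV' : ecl k hc = ecV hc (Rep.trivial k Q k) := (ecV_trivial hc).symm
  change (ecl k hc).comp ((augSeq k Q).extClass.comp
      (dSeq (k := k) (hc'.map (Int.castAddHom k))).extClass (rfl : 1 + 1 = 2)) (rfl : 2 + 2 = 4) =
    ((augSeq k Q).extClass.comp
      (dSeq (k := k) (hc'.map (Int.castAddHom k))).extClass (rfl : 1 + 1 = 2)).comp (ecl k hc)
        (rfl : 2 + 2 = 4)
  have a1 : (ecV hc (Zt k Q)).comp ((augSeq k Q).extClass.comp
      (dSeq (k := k) (hc'.map (Int.castAddHom k))).extClass (rfl : 1 + 1 = 2)) (rfl : 2 + 2 = 4) =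
      ((ecV hc (Zt k Q)).comp (augSeq k Q).extClass (rfl : 2 + 1 = 3)).comp
        (dSeq (k := k) (hc'.map (Int.castAddHom k))).extClass (rfl : 3 + 1 = 4) :=
    (Ext.comp_assoc (a₁₂ := 3) (a₂₃ := 2) _ _ _ (by omega) (by omega) (by omega)).symm
  have a2 : ((augSeq k Q).extClass.comp (ecV hc (Iaug k Q)) (by rfl : 1 + 2 = 3)).comp
        (dSeq (k := k) (hc'.map (Int.castAddHom k))).extClass (rfl : 3 + 1 = 4) =
      (augSeq k Q).extClass.comp ((ecV hc (Iaug k Q)).comp
        (dSeq (k := k) (hc'.map (Int.castAddHom k))).extClass (rfl : 2 + 1 = 3))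
          (by rfl : 1 + 3 = 4) :=
    Ext.comp_assoc (a₁₂ := 3) (a₂₃ := 3) _ _ _ (by omega) (by omega) (by omega)
  have a3 : (augSeq k Q).extClass.comp
      ((dSeq (k := k) (hc'.map (Int.castAddHom k))).extClass.comp (ecV hc (Rep.trivial k Q k))
        (by rfl : 1 + 2 = 3)) (by rfl : 1 + 3 = 4) =
      ((augSeq k Q).extClass.comp
        (dSeq (k := k) (hc'.map (Int.castAddHom k))).extClass (rfl : 1 + 1 = 2)).comp
          (ecV hc (Rep.trivial k Q k)) (rfl : 2 + 2 = 4) :=
    (Ext.comp_assoc (a₁₂ := 2) (a₂₃ := 3) _ _ _ (by omega) (by omega) (by omega)).symm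
  rw [hV, a1, n1, a2, n2, a3]

end

end Pool.MP0c3001.DV
end

section

/-!
# G4: the hypotheses of the linear algebra for the Euler classes

Let `x₀ = Pi.single 0 1`, `x₁ = Pi.single 1 1`, `e₀ = ex .. x₀`, `e₁ = ex .. x₁`, `X = opE e₀ (Zt k Q)`, `Y = opE e₁ (Zt k Q)`.
* `ex_zsmul`: `cls_map` (or from `ex_add` by `map_zsmul` for the additive map `x ↦ ex .. x`).
* `ex_commute`: `ex .. x = ecl k (isCoc_fs π s hs hcen (chi e x))` definitionally; `ecl_comm`.
* `prim_op`: `x = a • x₀ + b • x₁`, `v = u • x₀ + w • x₁` with `a u + b w = 1`, so `∑ j, x j * v j = 1`.  `primitive_data'`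
  gives `G', p, ϖ, z`; `fits_of` (Bary.lean) gives `Fits ϖ z (cxk .. x)`; `hgood` gives `Kills k G' m d`.  `i₀ = d + 1`.
  `a • X + b • Y = opE (ex .. x) _` (`ex_add`, `ex_zsmul`, `opE_add`, `opE_zsmul`).  Kernel: `gysin_inj` in degree `2 i`;
  image: `gysin_surj` in degree `2 i`; an element of `evA k Q _ i` is determined by its component in degree `2 i`
  (`Pi.single`), `opE_add_two`.
* (`nu_op` in G4b): `primitive_data'` for `x₀` (`v = x₀`), `Kills k G' m₀ d`, `N = d + 1` (so `Kills k G' m₀ N`).  Kernel property: `gysin_inj`.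
  For `l ∤ m₀`: `root_dvd` gives for every root `r` some `a` with `l ∣ epow (rs .. (ex (x₁ - a • x₀))) N`, and
  `ex (x₁ - a • x₀) = e₁ - a • e₀`.  `nu_dvd` (commutation: `ex_commute`): for `x ∈ evA i` the component of `ν ^ N x` in degree
  `2 (i + l N) ≥ l N` is `l • y'`.  `ν ^ N x ∈ evA (i + l N)` (`opE_evA`, induction), so `y = Pi.single (2 (i + l N)) y'`.
-/

set_option autoImplicit false

namespace Pool.MP0c3001.DV

open CategoryTheory CategoryTheory.Abelian Limits

noncomputable section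

variable {k : Type} [CommRing k] {G Q : Type} [Group G] [Group Q]

theorem ex_zsmul (π : G →* Q) (s : Q → G) (hs : IsSec π s) (hcen : π.ker ≤ Subgroup.center G)
    {R : ℕ} (e : Additive π.ker ≃+ (Fin R → ℤ)) (n : ℤ) (x : Fin R → ℤ) :
    ex k π s hs hcen e (n • x) = n • ex k π s hs hcen e x := by
  exact map_zsmul (AddMonoidHom.mk' (fun x => ex k π s hs hcen e x) (ex_add k π s hs hcen e)) n x

theorem ex_commute (π : G →* Q) (s : Q → G) (hs : IsSec π s) (hcen : π.ker ≤ Subgroup.center G)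
    {R : ℕ} (e : Additive π.ker ≃+ (Fin R → ℤ)) (x y : Fin R → ℤ) :
    (ex k π s hs hcen e x).comp (ex k π s hs hcen e y) (rfl : 2 + 2 = 4) =
      (ex k π s hs hcen e y).comp (ex k π s hs hcen e x) (rfl : 2 + 2 = 4) := by
  exact ecl_comm (isCoc_fs π s hs hcen (chi e x)) (isCoc_fs π s hs hcen (chi e y))

theorem prim_op (π : G →* Q) (hπ : Function.Surjective π) (s : Q → G) (hs : IsSec π s)
    (hcen : π.ker ≤ Subgroup.center G) {r : ℕ} (e : Additive π.ker ≃+ (Fin (r + 2) → ℤ))
    (hgood : ∀ (G' : Type) [Group G'] (p : G →* G'), Function.Surjective p → p.ker ≤ π.ker →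
      Nonempty (Additive p.ker ≃+ (Fin (r + 1) → ℤ)) → ∃ m d : ℕ, 0 < m ∧ Kills k G' m d)
    (a b : ℤ) (hab : IsCoprime a b) :
    ∃ m i₀ : ℕ, 0 < m ∧ ∀ i, i₀ ≤ i →
      (∀ x ∈ evA k Q (Zt k Q) i,
        (a • opE (ex k π s hs hcen e (Pi.single 0 1)) (Zt k Q) +
          b • opE (ex k π s hs hcen e (Pi.single 1 1)) (Zt k Q)) x = 0 → m • x = 0) ∧
      ∀ y ∈ evA k Q (Zt k Q) (i + 1), ∃ x ∈ evA k Q (Zt k Q) i,
        (a • opE (ex k π s hs hcen e (Pi.single 0 1)) (Zt k Q) +
          b • opE (ex k π s hs hcen e (Pi.single 1 1)) (Zt k Q)) x = m • y := by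
  obtain ⟨u, w, huw⟩ := hab
  set x₀ : Fin (r + 2) → ℤ := Pi.single 0 1 with hx₀
  set x₁ : Fin (r + 2) → ℤ := Pi.single 1 1 with hx₁
  have v00 : x₀ 0 = 1 := by rw [hx₀, Pi.single_eq_same]
  have v01 : x₀ 1 = 0 := by
    rw [hx₀, Pi.single_eq_of_ne]
    exact one_ne_zero
  have v10 : x₁ 0 = 0 := by
    rw [hx₁, Pi.single_eq_of_ne]
    exact zero_ne_one
  have v11 : x₁ 1 = 1 := by rw [hx₁, Pi.single_eq_same]
  have v0 : ∀ j : Fin r, x₀ j.succ.succ = 0 := by
    intro j
    rw [hx₀, Pi.single_eq_of_ne]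
    exact Fin.succ_ne_zero _
  have hv : ∑ j, (a • x₀ + b • x₁) j * (u • x₀ + w • x₁) j = 1 := by
    rw [Fin.sum_univ_succ, Fin.sum_univ_succ]
    have e1 : ∀ j : Fin r, (a • x₀ + b • x₁) j.succ.succ *
        (u • x₀ + w • x₁) j.succ.succ = 0 := by
      intro j
      have v1 : x₁ j.succ.succ = 0 := by
        rw [hx₁, Pi.single_eq_of_ne]
        intro h
        have := congrArg Fin.val h
        simp at this
      simp only [Pi.add_apply, Pi.smul_apply, v0, v1, smul_zero, add_zero, mul_zero]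
    have e2 : (Fin.succ (0 : Fin (r + 1)) : Fin (r + 2)) = 1 := rfl
    rw [Finset.sum_eq_zero (fun j _ => e1 j), e2]
    simp only [Pi.add_apply, Pi.smul_apply, v00, v01, v10, v11, smul_eq_mul]
    linarith
  obtain ⟨G', _, p, ϖ, z, hp, hpk, he', hcyc, hϖ, hx⟩ :=
    primitive_data' π hπ hcen e (a • x₀ + b • x₁) (u • x₀ + w • x₁) hv
  obtain ⟨m, d, hm, hK⟩ := hgood G' p hp hpk he'
  have hf := fits_of (k := k) π p ϖ hϖ hcyc s hs e (a • x₀ + b • x₁) hx
  have hc := isCoc_cxk k π s hs hcen e (a • x₀ + b • x₁)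
  have hop : a • opE (ex k π s hs hcen e x₀) (Zt k Q) + b • opE (ex k π s hs hcen e x₁) (Zt k Q) =
      opE (ex k π s hs hcen e (a • x₀ + b • x₁)) (Zt k Q) := by
    rw [ex_add, ex_zsmul, ex_zsmul, opE_add, opE_zsmul, opE_zsmul]
  rw [hop]
  refine ⟨m, d + 1, hm, ?_⟩
  intro i hi
  refine ⟨?_, ?_⟩
  · intro x hxA h0
    funext j
    by_cases hj : j = 2 * i
    · subst hj
      have h1 : (ex k π s hs hcen e (a • x₀ + b • x₁)).comp (x (2 * i))
          (show 2 + 2 * i = 2 * i + 2 by omega) = 0 := congrFun h0 (2 * i + 2)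
      exact gysin_inj hcyc hc hf hK (Zt k Q) (2 * i) (by omega) (by omega) (x (2 * i)) h1
    · change m • x j = 0
      rw [hxA j hj, smul_zero]
  · intro y hy
    obtain ⟨α, hα⟩ := gysin_surj hcyc hc hf hK (Zt k Q) (2 * i) (by omega) (y (2 * i + 2))
    refine ⟨Pi.single (2 * i) α, fun j hj => Pi.single_eq_of_ne hj α, ?_⟩
    funext j
    match j with
    | 0 =>
      change (0 : HH k Q (Zt k Q) 0) = m • y 0
      rw [hy 0 (by omega), smul_zero]
    | 1 =>
      change (0 : HH k Q (Zt k Q) 1) = m • y 1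
      rw [hy 1 (by omega), smul_zero]
    | j + 2 =>
      change (ex k π s hs hcen e (a • x₀ + b • x₁)).comp
        ((Pi.single (2 * i) α : TH k Q (Zt k Q)) j) (show 2 + j = j + 2 by omega) = m • y (j + 2)
      by_cases hj : j = 2 * i
      · subst hj
        rw [Pi.single_eq_same]
        exact hα
      · rw [Pi.single_eq_of_ne hj, Ext.comp_zero, hy (j + 2) (by omega), smul_zero]

end

end Pool.MP0c3001.DV
end
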