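import Mathlib

section

/-!
# ZI: a chain of `l`-th roots of an element of infinite order generates a copy of `ℤ[1/l]`

`D = {g | ∃ (n : ℕ) (a : ℤ), g = u n ^ a}` is a subgroup: `u n = u (n + j) ^ (l ^ j)` (induction), so two
elements can be written with the same `n`, and powers of `u n` multiply.  `z = u 0 ^ 1 ∈ D`.  Every `u n` has
infinite order: `u n ^ a = 1` gives `z ^ a = (u n) ^ (l ^ n a) = 1`.
Isomorphism: `Θ : D → Localization.Away (l : ℤ)`, `u n ^ a ↦ a / l ^ n` (`IsLocalization.mk'` or `algebraMap a * (invSelf) ^ n`,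
`IsLocalization.Away.invSelf`).  Well defined: `u n ^ a = u m ^ b` gives with `u n = u (n+m) ^ (l ^ m)`,
`u m = u (n+m) ^ (l ^ n)`: `a l ^ m = b l ^ n`.  Homomorphism: common `n`.  Injective: `a / l ^ n = 0` gives `a = 0`
(`ℤ` is a domain, the powers of `l` are non zero divisors, `IsLocalization.injective`).  Surjective: every
element of the localization is `a / l ^ n` (`IsLocalization.Away.surj` or `IsLocalization.mk'_surjective`).
One may also define the map in the other direction.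
-/

set_option autoImplicit false

namespace Pool.MP0c3001.DV

private theorem root_pow {G : Type} [Group G] (l : ℕ) (u : ℕ → G) (h : ∀ n, u (n + 1) ^ l = u n)
    (n j : ℕ) : u (n + j) ^ ((l : ℤ) ^ j) = u n := by
  induction j with
  | zero => simp
  | succ j ih =>
    rw [pow_succ' (l : ℤ) j, zpow_mul, zpow_natCast, ← Nat.add_assoc, h (n + j)]
    exact ih

private theorem root_inf {G : Type} [Group G] (l : ℕ) (z : G)
    (hz : ∀ n : ℤ, z ^ n = 1 → n = 0) (u : ℕ → G) (h0 : u 0 = z) (h : ∀ n, u (n + 1) ^ l = u n)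
    (n : ℕ) (a : ℤ) (ha : u n ^ a = 1) : a = 0 := by
  apply hz
  have h1 := root_pow l u h 0 n
  rw [Nat.zero_add, h0] at h1
  rw [← h1, ← zpow_mul, mul_comm, zpow_mul, ha, one_zpow]

private theorem root_eq {G : Type} [Group G] (l : ℕ) (z : G)
    (hz : ∀ n : ℤ, z ^ n = 1 → n = 0) (u : ℕ → G) (h0 : u 0 = z) (h : ∀ n, u (n + 1) ^ l = u n)
    (n m : ℕ) (a b : ℤ) (hab : u n ^ a = u m ^ b) : (l : ℤ) ^ m * a = (l : ℤ) ^ n * b := by
  have h1 := root_pow l u h n m
  have h2 := root_pow l u h m n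
  rw [Nat.add_comm m n] at h2
  have h3 : u (n + m) ^ ((l : ℤ) ^ m * a - (l : ℤ) ^ n * b) = 1 := by
    rw [zpow_sub, zpow_mul, zpow_mul, h1, h2, hab, mul_inv_cancel]
  have h4 := root_inf l z hz u h0 h (n + m) _ h3
  linarith

private noncomputable def vl (l : ℕ) (n : ℕ) (a : ℤ) : Localization.Away (l : ℤ) :=
  algebraMap ℤ (Localization.Away (l : ℤ)) a * (IsLocalization.Away.invSelf (l : ℤ)) ^ n

private theorem vl_mul (l : ℕ) (n : ℕ) (a : ℤ) :
    vl l n a * algebraMap ℤ (Localization.Away (l : ℤ)) ((l : ℤ) ^ n) =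
      algebraMap ℤ (Localization.Away (l : ℤ)) a := by
  unfold vl
  rw [map_pow, mul_assoc, ← mul_pow]
  have : IsLocalization.Away.invSelf (S := Localization.Away (l : ℤ)) (l : ℤ) *
      algebraMap ℤ (Localization.Away (l : ℤ)) (l : ℤ) = 1 := by
    rw [mul_comm]
    exact IsLocalization.Away.mul_invSelf (l : ℤ)
  rw [this, one_pow, mul_one]

private theorem isUnit_pow (l : ℕ) (n : ℕ) :
    IsUnit (algebraMap ℤ (Localization.Away (l : ℤ)) ((l : ℤ) ^ n)) := by
  rw [map_pow]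
  exact (IsLocalization.Away.algebraMap_isUnit (l : ℤ)).pow n

private theorem vl_eq (l : ℕ) (n m : ℕ) (a b : ℤ) (h : (l : ℤ) ^ m * a = (l : ℤ) ^ n * b) :
    vl l n a = vl l m b := by
  have h1 := isUnit_pow l (n + m)
  apply h1.mul_right_cancel
  have h2 : algebraMap ℤ (Localization.Away (l : ℤ)) ((l : ℤ) ^ (n + m)) =
      algebraMap ℤ (Localization.Away (l : ℤ)) ((l : ℤ) ^ n) *
        algebraMap ℤ (Localization.Away (l : ℤ)) ((l : ℤ) ^ m) := by
    rw [pow_add, map_mul]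
  have e1 : vl l n a * algebraMap ℤ (Localization.Away (l : ℤ)) ((l : ℤ) ^ (n + m)) =
      algebraMap ℤ (Localization.Away (l : ℤ)) ((l : ℤ) ^ m * a) := by
    rw [h2, ← mul_assoc, vl_mul, map_mul, mul_comm]
  have e2 : vl l m b * algebraMap ℤ (Localization.Away (l : ℤ)) ((l : ℤ) ^ (n + m)) =
      algebraMap ℤ (Localization.Away (l : ℤ)) ((l : ℤ) ^ n * b) := by
    rw [h2, mul_comm (algebraMap ℤ (Localization.Away (l : ℤ)) ((l : ℤ) ^ n)), ← mul_assoc, vl_mul,
      map_mul, mul_comm]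
  rw [e1, e2, h]

private theorem vl_add (l : ℕ) (n m : ℕ) (a b : ℤ) :
    vl l (n + m) ((l : ℤ) ^ m * a + (l : ℤ) ^ n * b) = vl l n a + vl l m b := by
  have h1 := isUnit_pow l (n + m)
  apply h1.mul_right_cancel
  rw [vl_mul, add_mul, map_add]
  have h2 : algebraMap ℤ (Localization.Away (l : ℤ)) ((l : ℤ) ^ (n + m)) =
      algebraMap ℤ (Localization.Away (l : ℤ)) ((l : ℤ) ^ n) *
        algebraMap ℤ (Localization.Away (l : ℤ)) ((l : ℤ) ^ m) := by
    rw [pow_add, map_mul]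
  have e1 : vl l n a * algebraMap ℤ (Localization.Away (l : ℤ)) ((l : ℤ) ^ (n + m)) =
      algebraMap ℤ (Localization.Away (l : ℤ)) ((l : ℤ) ^ m * a) := by
    rw [h2, ← mul_assoc, vl_mul, map_mul, mul_comm]
  have e2 : vl l m b * algebraMap ℤ (Localization.Away (l : ℤ)) ((l : ℤ) ^ (n + m)) =
      algebraMap ℤ (Localization.Away (l : ℤ)) ((l : ℤ) ^ n * b) := by
    rw [h2, mul_comm (algebraMap ℤ (Localization.Away (l : ℤ)) ((l : ℤ) ^ n)), ← mul_assoc, vl_mul,
      map_mul, mul_comm]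
  rw [e1, e2]

theorem exists_zinv {G : Type} [Group G] (l : ℕ) (hl : 1 < l) (z : G)
    (hz : ∀ n : ℤ, z ^ n = 1 → n = 0) (u : ℕ → G) (h0 : u 0 = z) (h : ∀ n, u (n + 1) ^ l = u n) :
    ∃ D : Subgroup G, z ∈ D ∧ Nonempty (D ≃* Multiplicative (Localization.Away (l : ℤ))) := by
  classical
  let D : Subgroup G :=
    { carrier := {g | ∃ (n : ℕ) (a : ℤ), g = u n ^ a}
      one_mem' := ⟨0, 0, by simp⟩
      mul_mem' := by
        rintro g g' ⟨n, a, rfl⟩ ⟨m, b, rfl⟩
        refine ⟨n + m, (l : ℤ) ^ m * a + (l : ℤ) ^ n * b, ?_⟩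
        have h1 := root_pow l u h n m
        have h2 := root_pow l u h m n
        rw [Nat.add_comm m n] at h2
        rw [zpow_add, zpow_mul, zpow_mul, h1, h2]
      inv_mem' := by
        rintro g ⟨n, a, rfl⟩
        exact ⟨n, -a, by rw [zpow_neg]⟩ }
  have hD : ∀ g : D, ∃ (n : ℕ) (a : ℤ), (g : G) = u n ^ a := fun g => g.2
  choose N A hNA using hD
  have spec : ∀ (g : D) (n : ℕ) (a : ℤ), (g : G) = u n ^ a → vl l (N g) (A g) = vl l n a := by
    intro g n a hg
    apply vl_eq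
    apply root_eq l z hz u h0 h
    rw [← hNA g, hg]
  let Θ : D →* Multiplicative (Localization.Away (l : ℤ)) :=
    { toFun := fun g => Multiplicative.ofAdd (vl l (N g) (A g))
      map_one' := by
        rw [spec 1 0 0 (by simp)]
        simp [vl]
      map_mul' := by
        intro g g'
        rw [← ofAdd_add, ← vl_add]
        congr 1
        apply spec
        have h1 := root_pow l u h (N g) (N g')
        have h2 := root_pow l u h (N g') (N g)
        rw [Nat.add_comm (N g') (N g)] at h2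
        rw [zpow_add, zpow_mul, zpow_mul, h1, h2, Subgroup.coe_mul, hNA g, hNA g'] }
  have hΘ : ∀ (g : D) (n : ℕ) (a : ℤ), (g : G) = u n ^ a → Θ g = Multiplicative.ofAdd (vl l n a) :=
    fun g n a hg => congrArg Multiplicative.ofAdd (spec g n a hg)
  refine ⟨D, ⟨0, 1, by rw [h0, zpow_one]⟩, ⟨MulEquiv.ofBijective Θ ⟨?_, ?_⟩⟩⟩
  · rw [injective_iff_map_eq_one]
    intro g hg
    have h1 : vl l (N g) (A g) = 0 := by
      have h2 := hΘ g (N g) (A g) (hNA g)
      rw [h2] at hg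
      exact ofAdd_eq_one.1 hg
    have h3 := vl_mul l (N g) (A g)
    rw [h1, zero_mul] at h3
    have hinj : Function.Injective (algebraMap ℤ (Localization.Away (l : ℤ))) := by
      apply IsLocalization.injective (Localization.Away (l : ℤ)) (M := Submonoid.powers (l : ℤ))
      apply powers_le_nonZeroDivisors_of_noZeroDivisors
      have : (l : ℤ) ≠ 0 := by
        have : l ≠ 0 := by omega
        exact_mod_cast this
      exact this
    have h4 : A g = 0 := by
      apply hinj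
      rw [map_zero]
      exact h3.symm
    apply Subtype.ext
    rw [hNA g, h4, zpow_zero]
    rfl
  · intro x
    obtain ⟨n, a, hx⟩ := IsLocalization.Away.surj (l : ℤ) (Multiplicative.toAdd x)
    refine ⟨⟨u n ^ a, n, a, rfl⟩, ?_⟩
    rw [hΘ _ n a rfl]
    have h1 : vl l n a = Multiplicative.toAdd x := by
      apply (isUnit_pow l n).mul_right_cancel
      rw [vl_mul, map_pow]
      exact hx.symm
    rw [h1]
    rfl

end Pool.MP0c3001.DV
end

section

/-!
# LA3p: the computation modulo `l` of section 6.4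

(a) `m ^ n • Y ^ n x = X ^ n (φ ^ n x)` for `x ∈ A i` (induction on `n`: `m ^ (n+1) • Y ^ (n+1) x = m • Y (X ^ n (φ ^ n x)) =
X ^ n (m • Y (φ ^ n x)) = X ^ (n+1) (φ ^ (n+1) x)`; `X, Y` commute).
(b) `m ^ l • (Y ^ l - Y X ^ (l-1)) x = X ^ l (ψ x)` with `ψ = φ ^ l - (m ^ (l-1)) • φ`
(`m ^ l • Y X ^ (l-1) x = m ^ (l-1) • X ^ (l-1) (m • Y x) = m ^ (l-1) • X ^ l (φ x)`), and by induction on `n`
`m ^ (l n) • ν ^ n x = X ^ (l n) (ψ ^ n x)`, `ν = Y ^ l - Y X ^ (l-1)`.
(c) for `y ∈ A (i + n)` there is `x' ∈ A i` with `X ^ n x' = m ^ n • y` (induction on `n`, `hsurj`).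
(d) for `x' ∈ A i`: `X ^ n x' = 0` implies `x' = 0` (`hinj`, `hX`).
(e) Let `x ∈ A i`, `ν ^ N x = l • y` (`hnu`).  With `x'` from (c) for `n = l N`: `m ^ (l N) • X ^ (l N) (ψ ^ N x) =
m ^ (2 l N) • l • y = l • m ^ (l N) • X ^ (l N) x'`; so `X ^ (l N) (m ^ (l N) • ψ ^ N x - l • m ^ (l N) • x') = 0`.  Simpler:
`X ^ (l N) (ψ ^ N x) = m ^ (l N) • l • y = l • X ^ (l N) x'`, hence `ψ ^ N x = l • x'` by (d).
(f) Fermat: `l ∣ m ^ (l-1) - 1` (`ZMod.pow_card_sub_one_eq_one`), so `ψ - (φ ^ l - φ) = l • χ` with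
`χ = -((m ^ (l-1) - 1) / l) • φ`, which commutes with `φ`; `ψ ^ N - (φ ^ l - φ) ^ N = l • (..)` (`Commute`:
`sub_dvd_pow_sub_pow`-like, or `Commute.add_pow`; e.g. induct on `N`: there is `χ_N` with
`(φ ^ l - φ) ^ N = ψ ^ N + l • χ_N`).  So `(φ ^ l - φ) ^ N x = l • (x' + χ_N x)`.
-/

set_option autoImplicit false

namespace Pool.MP0c3001.DV

private theorem la3p_a {M : Type} [AddCommGroup M] (X Y : Module.End ℤ M) (hXY : Commute X Y)
    (A : ℕ → Submodule ℤ M) (i m : ℕ)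
    (φ : Module.End ℤ (A i)) (hφ : ∀ x : A i, X (φ x : M) = m • Y (x : M)) (n : ℕ) (x : A i) :
    (m ^ n) • ((Y ^ n) (x : M)) = (X ^ n) (((φ ^ n) x : A i) : M) := by
  induction n with
  | zero => simp
  | succ n ih =>
    have h1 : (Y ^ (n + 1)) (x : M) = Y ((Y ^ n) (x : M)) := by
      rw [pow_succ']; rfl
    have h2 : ((φ ^ (n + 1)) x : A i) = φ ((φ ^ n) x) := by
      rw [pow_succ']; rfl
    have h3 : (X ^ (n + 1)) ((φ ((φ ^ n) x) : A i) : M) = (X ^ n) (X ((φ ((φ ^ n) x) : A i) : M)) := by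
      rw [pow_succ]; rfl
    have h4 : (X ^ n) (Y (((φ ^ n) x : A i) : M)) = Y ((X ^ n) (((φ ^ n) x : A i) : M)) := by
      have := (hXY.pow_left n).eq
      exact LinearMap.congr_fun this (((φ ^ n) x : A i) : M)
    rw [h1, h2, h3, hφ, map_nsmul, h4, ← ih, map_nsmul, smul_smul, pow_succ']

private theorem la3p_b {M : Type} [AddCommGroup M] (X Y : Module.End ℤ M) (hXY : Commute X Y)
    (A : ℕ → Submodule ℤ M) (i m : ℕ)
    (φ : Module.End ℤ (A i)) (hφ : ∀ x : A i, X (φ x : M) = m • Y (x : M)) (k : ℕ) (x : A i) :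
    (m ^ (k + 1)) • ((Y ^ (k + 1) - Y * X ^ k) (x : M)) =
      (X ^ (k + 1)) (((φ ^ (k + 1) - (m ^ k) • φ) x : A i) : M) := by
  have h1 : (Y ^ (k + 1) - Y * X ^ k) (x : M) = (Y ^ (k + 1)) (x : M) - Y ((X ^ k) (x : M)) := rfl
  have h2 : (((φ ^ (k + 1) - (m ^ k) • φ) x : A i) : M) =
      (((φ ^ (k + 1)) x : A i) : M) - (m ^ k) • ((φ x : A i) : M) := by
    rw [LinearMap.sub_apply, LinearMap.smul_apply]
    simp
  have h3 : (X ^ (k + 1)) ((φ x : A i) : M) = (X ^ k) (X ((φ x : A i) : M)) := by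
    rw [pow_succ]; rfl
  have h4 : (X ^ k) (Y (x : M)) = Y ((X ^ k) (x : M)) := by
    have := (hXY.pow_left k).eq
    exact LinearMap.congr_fun this (x : M)
  rw [h1, h2, smul_sub, map_sub, map_nsmul, la3p_a X Y hXY A i m φ hφ (k + 1) x, h3, hφ, map_nsmul,
    h4, smul_smul, ← pow_succ]

private theorem la3p_b2 {M : Type} [AddCommGroup M] (X ν : Module.End ℤ M) (hc : Commute X ν)
    (A : ℕ → Submodule ℤ M) (i m l : ℕ) (ψ : Module.End ℤ (A i))
    (h : ∀ x : A i, (m ^ l) • (ν (x : M)) = (X ^ l) ((ψ x : A i) : M)) (n : ℕ) (x : A i) :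
    (m ^ (l * n)) • ((ν ^ n) (x : M)) = (X ^ (l * n)) (((ψ ^ n) x : A i) : M) := by
  induction n with
  | zero => simp
  | succ n ih =>
    have h1 : (ν ^ (n + 1)) (x : M) = ν ((ν ^ n) (x : M)) := by
      rw [pow_succ']; rfl
    have h2 : ((ψ ^ (n + 1)) x : A i) = ψ ((ψ ^ n) x) := by
      rw [pow_succ']; rfl
    have h3 : (X ^ (l * (n + 1))) ((ψ ((ψ ^ n) x) : A i) : M) =
        (X ^ (l * n)) ((X ^ l) ((ψ ((ψ ^ n) x) : A i) : M)) := by
      rw [mul_add, mul_one, pow_add]; rfl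
    have h4 : (X ^ (l * n)) (ν (((ψ ^ n) x : A i) : M)) =
        ν ((X ^ (l * n)) (((ψ ^ n) x : A i) : M)) := by
      have := (hc.pow_left (l * n)).eq
      exact LinearMap.congr_fun this (((ψ ^ n) x : A i) : M)
    rw [h1, h2, h3, ← h, map_nsmul, h4, ← ih, map_nsmul, smul_smul, mul_add, mul_one, pow_add,
      mul_comm]

private theorem la3p_c {M : Type} [AddCommGroup M] (X : Module.End ℤ M)
    (A : ℕ → Submodule ℤ M) (i m : ℕ)
    (hsurj : ∀ j, i ≤ j → ∀ y ∈ A (j + 1), ∃ x ∈ A j, X x = m • y) (n : ℕ) :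
    ∀ y ∈ A (i + n), ∃ x ∈ A i, (X ^ n) x = (m ^ n) • y := by
  induction n with
  | zero => intro y hy; exact ⟨y, hy, by simp⟩
  | succ n ih =>
    intro y hy
    obtain ⟨z, hz, hzy⟩ := hsurj (i + n) (Nat.le_add_right _ _) y hy
    obtain ⟨x, hx, hxz⟩ := ih z hz
    refine ⟨x, hx, ?_⟩
    have h1 : (X ^ (n + 1)) x = X ((X ^ n) x) := by
      rw [pow_succ']; rfl
    rw [h1, hxz, map_nsmul, hzy, smul_smul, pow_succ]

private theorem la3p_d {M : Type} [AddCommGroup M] (X : Module.End ℤ M)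
    (A : ℕ → Submodule ℤ M) (hX : ∀ i, ∀ x ∈ A i, X x ∈ A (i + 1)) (i : ℕ)
    (hinj : ∀ j, i ≤ j → ∀ x ∈ A j, X x = 0 → x = 0) (n : ℕ) :
    ∀ x ∈ A i, (X ^ n) x ∈ A (i + n) ∧ ((X ^ n) x = 0 → x = 0) := by
  induction n with
  | zero => intro x hx; exact ⟨by simpa using hx, by simp⟩
  | succ n ih =>
    intro x hx
    have h1 : (X ^ (n + 1)) x = X ((X ^ n) x) := by
      rw [pow_succ']; rfl
    obtain ⟨hm, hz⟩ := ih x hx
    rw [h1]
    exact ⟨hX _ _ hm, fun h => hz (hinj (i + n) (Nat.le_add_right _ _) _ hm h)⟩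

theorem la_modl {M : Type} [AddCommGroup M] (X Y : Module.End ℤ M) (hXY : Commute X Y)
    (A : ℕ → Submodule ℤ M) (hX : ∀ i, ∀ x ∈ A i, X x ∈ A (i + 1)) (i m : ℕ)
    (φ : Module.End ℤ (A i)) (hφ : ∀ x : A i, X (φ x : M) = m • Y (x : M))
    (hinj : ∀ j, i ≤ j → ∀ x ∈ A j, X x = 0 → x = 0)
    (hsurj : ∀ j, i ≤ j → ∀ y ∈ A (j + 1), ∃ x ∈ A j, X x = m • y)
    (l : ℕ) (hl : l.Prime) (hlm : ¬ l ∣ m) (N : ℕ)
    (hnu : ∀ x ∈ A i, ∃ y ∈ A (i + l * N), ((Y ^ l - Y * X ^ (l - 1)) ^ N) x = l • y) (x : A i) :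
    ∃ x' : A i, ((φ ^ l - φ) ^ N) x = l • x' := by
  obtain ⟨k, rfl⟩ : ∃ k, l = k + 1 := ⟨l - 1, by have := hl.one_lt; omega⟩
  have hk : k + 1 - 1 = k := by omega
  rw [hk] at hnu
  set ψ : Module.End ℤ (A i) := φ ^ (k + 1) - (m ^ k) • φ with hψ
  set ν : Module.End ℤ M := Y ^ (k + 1) - Y * X ^ k with hν
  have hc : Commute X ν := by
    rw [hν]
    exact (hXY.pow_right _).sub_right (hXY.mul_right ((Commute.refl X).pow_right _))
  have hb := la3p_b2 X ν hc A i m (k + 1) ψ (la3p_b X Y hXY A i m φ hφ k) N x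
  obtain ⟨y, hy, hyx⟩ := hnu x (x.2)
  obtain ⟨x', hx', hxy'⟩ := la3p_c X A i m hsurj ((k + 1) * N) y hy
  have he : (((ψ ^ N) x : A i) : M) = (k + 1) • x' := by
    have h0 : (X ^ ((k + 1) * N)) ((((ψ ^ N) x : A i) : M) - (k + 1) • x') = 0 := by
      rw [map_sub, ← hb, hyx, map_nsmul, hxy', smul_comm, sub_self]
    have := (la3p_d X A hX i hinj ((k + 1) * N) _
      ((A i).sub_mem ((ψ ^ N) x).2 ((A i).nsmul_mem hx' (k + 1)))).2 h0
    exact sub_eq_zero.mp this
  have hfer : ∃ c : ℤ, (m : ℤ) ^ k = 1 + (k + 1 : ℕ) * c := by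
    have hp : Fact (k + 1).Prime := ⟨hl⟩
    have hne : (m : ZMod (k + 1)) ≠ 0 := by
      intro h
      exact hlm ((ZMod.natCast_eq_zero_iff m (k + 1)).mp h)
    have h1 : (m : ZMod (k + 1)) ^ (k + 1 - 1) = 1 := ZMod.pow_card_sub_one_eq_one hne
    rw [hk] at h1
    have h2 : (((m : ℤ) ^ k - 1 : ℤ) : ZMod (k + 1)) = 0 := by
      push_cast
      rw [h1, sub_self]
    obtain ⟨c, hc⟩ := (ZMod.intCast_zmod_eq_zero_iff_dvd _ (k + 1)).mp h2
    exact ⟨c, by linarith⟩
  obtain ⟨c, hc'⟩ := hfer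
  have hdiff : (φ ^ (k + 1) - φ) - ψ = (k + 1 : ℕ) • (c • φ) := by
    have h1 : (m ^ k) • φ = ((m : ℤ) ^ k) • φ := by
      rw [← natCast_zsmul]
      push_cast
      rfl
    rw [hψ, h1, hc', add_smul, one_smul, mul_smul, natCast_zsmul]
    abel
  have hcomm : Commute (φ ^ (k + 1) - φ) ψ := by
    have hs : Commute φ ψ := by
      rw [hψ]
      exact ((Commute.refl φ).pow_right _).sub_right ((Commute.refl φ).smul_right _)
    exact (hs.pow_left _).sub_left hs
  obtain ⟨z, hz⟩ := hcomm.sub_dvd_pow_sub_pow N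
  rw [hdiff] at hz
  have hfin : (φ ^ (k + 1) - φ) ^ N = ψ ^ N + (k + 1 : ℕ) • ((c • φ) * z) := by
    rw [← smul_mul_assoc, ← hz]
    abel
  refine ⟨⟨x', hx'⟩ + ((c • φ) * z) x, ?_⟩
  rw [hfin, LinearMap.add_apply, LinearMap.smul_apply, smul_add]
  congr 1
  apply Subtype.ext
  rw [he]
  rfl

end Pool.MP0c3001.DV
end

section

/-!
# O2: a nilpotent product modulo `l`

`Z = Y - a • X` commutes with `X`, `Z ^ N = 0`.  `Y = Z + a • X`.  `Commute.add_pow_prime_eq` and `(l : R) = 0`: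
`Y ^ l = Z ^ l + (a • X) ^ l = Z ^ l + a ^ l • X ^ l`, and `Y X ^ (l-1) = Z X ^ (l-1) + a • X ^ l`.  Fermat: `l ∣ a ^ l - a`
(`ZMod.pow_card`, `ZMod.intCast_zmod_eq_zero_iff_dvd`), so `(a ^ l - a) • X ^ l = 0` and
`Y ^ l - Y X ^ (l-1) = Z (Z ^ (l-1) - X ^ (l-1))`.  The factors commute, so the `N`-th power is
`Z ^ N (..) ^ N = 0` (`Commute.mul_pow`).
-/

set_option autoImplicit false

namespace Pool.MP0c3001.DV

theorem nu_pow_zero {R : Type*} [Ring R] (l : ℕ) (hl : l.Prime) (hR : (l : R) = 0) (X Y : R)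
    (h : Commute X Y) (a : ℤ) (N : ℕ) (hz : (Y - a • X) ^ N = 0) :
    (Y ^ l - Y * X ^ (l - 1)) ^ N = 0 := by
  obtain ⟨Z, hZ⟩ : ∃ Z, Z = Y - a • X := ⟨_, rfl⟩
  have hZX : Commute Z X := by
    rw [hZ]
    exact h.symm.sub_left ((Commute.refl X).smul_left a)
  have hY : Y = Z + a • X := by
    rw [hZ, sub_add_cancel]
  have hl1 : l - 1 + 1 = l := Nat.succ_pred_eq_of_pos hl.pos
  have hXl : X * X ^ (l - 1) = X ^ l := by
    rw [← pow_succ', hl1]
  have hZl : Z * Z ^ (l - 1) = Z ^ l := by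
    rw [← pow_succ', hl1]
  have hYl : Y ^ l = Z ^ l + a ^ l • X ^ l := by
    rw [hY, (hZX.smul_right a).add_pow_prime_eq hl, hR, smul_pow]
    simp only [zero_mul, add_zero]
  have hfer : (a ^ l - a) • X ^ l = 0 := by
    have h1 : (l : ℤ) ∣ a ^ l - a := by
      have := Fact.mk hl
      rw [← ZMod.intCast_zmod_eq_zero_iff_dvd]
      push_cast
      rw [ZMod.pow_card, sub_self]
    obtain ⟨b, hb⟩ := h1
    rw [hb, mul_smul, zsmul_eq_mul, Int.cast_natCast, hR, zero_mul]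
  have hkey : Y ^ l - Y * X ^ (l - 1) = Z * (Z ^ (l - 1) - X ^ (l - 1)) := by
    have h2 : Y * X ^ (l - 1) = Z * X ^ (l - 1) + a • X ^ l := by
      rw [hY, add_mul, smul_mul_assoc, hXl]
    rw [hYl, h2, mul_sub, hZl]
    rw [sub_smul] at hfer
    have h3 : a ^ l • X ^ l = a • X ^ l := sub_eq_zero.1 hfer
    rw [h3]
    abel
  have hcomm : Commute Z (Z ^ (l - 1) - X ^ (l - 1)) :=
    ((Commute.refl Z).pow_right _).sub_right (hZX.pow_right _)
  rw [hkey, hcomm.mul_pow, hZ, hz, zero_mul]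

end Pool.MP0c3001.DV
end

section

/-!
# UX: abstract abelian group theory for Theorem U

* `coord_succ`: coordinates on `U ⊔ ⟨u⟩`.
* `fin_quot`: a torsion free abelian group without free subgroups of large rank is finite modulo `D`.
* `abs_chain`: the chain argument.
-/

set_option autoImplicit false

namespace Pool.MP0c3001.DV

theorem coord_succ {A : Type} [AddCommGroup A] (U : AddSubgroup A) {r : ℕ} (e : U ≃+ (Fin r → ℤ))
    (u : A) (hu : ∀ j : ℤ, j • u ∈ U → j = 0) :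
    ∃ f : (U ⊔ AddSubgroup.zmultiples u : AddSubgroup A) ≃+ (Fin (r + 1) → ℤ),
      ∀ (b : (U ⊔ AddSubgroup.zmultiples u : AddSubgroup A)) (j : ℤ) (y : U),
        (b : A) = j • u + y → f b 0 = j ∧ ∀ i : Fin r, f b i.succ = e y i := by
  have hmem : ∀ b : A, b ∈ U ⊔ AddSubgroup.zmultiples u ↔ ∃ (j : ℤ) (y : U), b = j • u + y := by
    intro b
    rw [AddSubgroup.mem_sup]
    constructor
    · rintro ⟨y, hy, z, hz, rfl⟩
      obtain ⟨j, rfl⟩ := AddSubgroup.mem_zmultiples_iff.1 hz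
      exact ⟨j, ⟨y, hy⟩, add_comm _ _⟩
    · rintro ⟨j, y, rfl⟩
      exact ⟨y, y.2, j • u, AddSubgroup.mem_zmultiples_iff.2 ⟨j, rfl⟩, add_comm _ _⟩
  have huniq : ∀ (j j' : ℤ) (y y' : U), j • u + (y : A) = j' • u + y' → j = j' ∧ y = y' := by
    intro j j' y y' h
    have h1 : (j - j') • u = ((y' - y : U) : A) := by
      rw [sub_smul, AddSubgroup.coe_sub]
      rw [sub_eq_sub_iff_add_eq_add, h, add_comm]
    have h2 : j - j' = 0 := hu _ (by rw [h1]; exact (y' - y : U).2)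
    have h3 : j = j' := sub_eq_zero.1 h2
    subst h3
    exact ⟨rfl, Subtype.ext (add_left_cancel h)⟩
  let g : (Fin (r + 1) → ℤ) →+ (U ⊔ AddSubgroup.zmultiples u : AddSubgroup A) :=
    { toFun := fun v => ⟨v 0 • u + (e.symm (fun i => v i.succ) : U),
        (hmem _).2 ⟨v 0, e.symm (fun i => v i.succ), rfl⟩⟩
      map_zero' := by
        apply Subtype.ext
        change (0 : ℤ) • u + ((e.symm (fun i => (0 : ℤ)) : U) : A) = 0
        have h1 : e.symm (fun _ => (0 : ℤ)) = 0 := map_zero e.symm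
        rw [h1, zero_smul, zero_add]
        rfl
      map_add' := fun v w => by
        apply Subtype.ext
        change (v 0 + w 0) • u + ((e.symm (fun i => v i.succ + w i.succ) : U) : A) =
          (v 0 • u + (e.symm (fun i => v i.succ) : U)) + (w 0 • u + (e.symm (fun i => w i.succ) : U))
        have h1 : e.symm (fun i => v i.succ + w i.succ) =
            e.symm (fun i => v i.succ) + e.symm (fun i => w i.succ) := map_add e.symm _ _
        rw [h1, AddSubgroup.coe_add, add_smul]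
        abel }
  have hg : Function.Bijective g := by
    constructor
    · intro v w h
      have h1 := congrArg Subtype.val h
      obtain ⟨h2, h3⟩ := huniq _ _ _ _ h1
      have h4 := e.symm.injective h3
      funext i
      refine Fin.cases h2 (fun i => ?_) i
      exact congrFun h4 i
    · rintro ⟨b, hb⟩
      obtain ⟨j, y, rfl⟩ := (hmem b).1 hb
      refine ⟨Fin.cons j (e y), Subtype.ext ?_⟩
      change (Fin.cons j (e y) : Fin (r + 1) → ℤ) 0 • u +
        ((e.symm (fun i => (Fin.cons j (e y) : Fin (r + 1) → ℤ) i.succ) : U) : A) = j • u + y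
      have h1 : (fun i : Fin r => (Fin.cons j (e y) : Fin (r + 1) → ℤ) i.succ) = e y := by
        funext i; rw [Fin.cons_succ]
      rw [Fin.cons_zero, h1, e.symm_apply_apply]
  let G : (Fin (r + 1) → ℤ) ≃+ (U ⊔ AddSubgroup.zmultiples u : AddSubgroup A) :=
    AddEquiv.ofBijective g hg
  refine ⟨G.symm, fun b j y hb => ?_⟩
  have h1 : G.symm b = (Fin.cons j (e y) : Fin (r + 1) → ℤ) := by
    rw [AddEquiv.symm_apply_eq]
    apply Subtype.ext
    rw [hb]
    change _ = (Fin.cons j (e y) : Fin (r + 1) → ℤ) 0 • u +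
        ((e.symm (fun i => (Fin.cons j (e y) : Fin (r + 1) → ℤ) i.succ) : U) : A)
    have h1 : (fun i : Fin r => (Fin.cons j (e y) : Fin (r + 1) → ℤ) i.succ) = e y := by
      funext i; rw [Fin.cons_succ]
    rw [Fin.cons_zero, h1, e.symm_apply_apply]
  rw [h1]
  exact ⟨Fin.cons_zero _ _, fun i => by rw [Fin.cons_succ]⟩

theorem fin_quot {A : Type} [AddCommGroup A] (htf : ∀ (n : ℕ) (x : A), 0 < n → n • x = 0 → x = 0)
    (n : ℕ) (hrank : ∀ (U : AddSubgroup A) (r : ℕ), Nonempty (U ≃+ (Fin r → ℤ)) → r ≤ n)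
    (D : ℕ) (hD : 0 < D) : ∃ F : Set A, F.Finite ∧ ∀ c, ∃ f ∈ F, ∃ c', c = f + D • c' := by
  classical
  -- a finite set of elements which are pairwise incongruent modulo `D` has at most `D ^ n` elements
  have hbound : ∀ T : Finset A, (∀ t ∈ T, ∀ t' ∈ T, ∀ c, t = t' + D • c → t = t') →
      T.card ≤ D ^ n := by
    intro T hT
    let U : Submodule ℤ A := Submodule.span ℤ (T : Set A)
    have hfin : Module.Finite ℤ U := Module.Finite.span_of_finite ℤ T.finite_toSet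
    have htor : Module.IsTorsionFree ℤ U := by
      refine Module.IsTorsionFree.of_smul_eq_zero fun r t hrt => ?_
      by_cases hr : r = 0
      · exact Or.inl hr
      · right
        have hn : 0 < r.natAbs := Int.natAbs_pos.2 hr
        apply Subtype.ext
        apply htf r.natAbs _ hn
        have h0 : r • (t : A) = 0 := congrArg Subtype.val hrt
        rcases Int.natAbs_eq r with h1 | h1
        · rw [← natCast_zsmul, ← h1]; exact h0
        · have h2 : ((r.natAbs : ℤ)) • (t : A) = 0 := by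
            rw [← neg_eq_zero, ← neg_smul, ← h1]; exact h0
          rw [← natCast_zsmul]; exact h2
    have hfree : Module.Free ℤ U := inferInstance
    let b := Module.finBasis ℤ U
    let r := Module.finrank ℤ U
    let e : U ≃+ (Fin r → ℤ) := b.equivFun.toAddEquiv
    have hr : r ≤ n := hrank U.toAddSubgroup r ⟨e⟩
    have : NeZero D := ⟨hD.ne'⟩
    let φ : T → (Fin r → ZMod D) := fun t i => ((e ⟨t.1, Submodule.subset_span t.2⟩ i : ℤ) : ZMod D)
    have hφ : Function.Injective φ := by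
      intro t t' h
      have h1 : ∀ i, ∃ v : ℤ, e ⟨t.1, Submodule.subset_span t.2⟩ i =
          e ⟨t'.1, Submodule.subset_span t'.2⟩ i + D * v := by
        intro i
        have h2 : ((e ⟨t.1, Submodule.subset_span t.2⟩ i : ℤ) : ZMod D) =
            ((e ⟨t'.1, Submodule.subset_span t'.2⟩ i : ℤ) : ZMod D) := congrFun h i
        have h3 := (ZMod.intCast_eq_intCast_iff_dvd_sub _ _ D).1 h2.symm
        obtain ⟨v, hv⟩ := h3
        exact ⟨v, by linarith⟩
      choose v hv using h1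
      have h4 : (⟨t.1, Submodule.subset_span t.2⟩ : U) =
          ⟨t'.1, Submodule.subset_span t'.2⟩ + D • e.symm v := by
        apply e.injective
        rw [map_add, map_nsmul, e.apply_symm_apply]
        funext i
        rw [hv i]
        simp
      have h5 := congrArg Subtype.val h4
      exact Subtype.ext (hT t t.2 t' t'.2 _ h5)
    have h6 := Fintype.card_le_of_injective φ hφ
    rw [Fintype.card_coe, Fintype.card_pi, Finset.prod_const, ZMod.card, Finset.card_univ,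
      Fintype.card_fin] at h6
    exact h6.trans (Nat.pow_le_pow_right hD hr)
  -- a maximal one
  have hex : ∃ k, ∃ T : Finset A, (∀ t ∈ T, ∀ t' ∈ T, ∀ c, t = t' + D • c → t = t') ∧ T.card = k ∧
      ∀ T' : Finset A, (∀ t ∈ T', ∀ t' ∈ T', ∀ c, t = t' + D • c → t = t') → T'.card ≤ k := by
    let P : ℕ → Prop := fun k => ∃ T : Finset A,
      (∀ t ∈ T, ∀ t' ∈ T, ∀ c, t = t' + D • c → t = t') ∧ T.card = k
    have h0 : P 0 := ⟨∅, by simp, rfl⟩
    have hk := Nat.findGreatest_spec (P := P) (Nat.zero_le (D ^ n)) h0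
    obtain ⟨T, hT, hTk⟩ := hk
    refine ⟨Nat.findGreatest P (D ^ n), T, hT, hTk, ?_⟩
    intro T' hT'
    exact Nat.le_findGreatest (hbound T' hT') ⟨T', hT', rfl⟩
  obtain ⟨k, T, hT, hTk, hmax⟩ := hex
  refine ⟨(T : Set A), T.finite_toSet, fun c => ?_⟩
  by_contra hcon
  push Not at hcon
  have hc : c ∉ T := fun h => hcon c h 0 (by rw [smul_zero, add_zero])
  have h1 : (insert c T).card = k + 1 := by rw [Finset.card_insert_of_notMem hc, hTk]
  have h2 := hmax (insert c T) ?_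
  · omega
  · intro t ht t' ht' x hx
    rw [Finset.mem_insert] at ht ht'
    rcases ht with rfl | ht
    · rcases ht' with rfl | ht'
      · rfl
      · exact absurd hx (hcon t' ht' x)
    · rcases ht' with rfl | ht'
      · refine absurd ?_ (hcon t ht (-x))
        rw [hx, smul_neg]
        abel
      · exact hT t ht t' ht' x hx

end Pool.MP0c3001.DV
end

section

/-!
# UY: the chain argument of Theorem U, abstract form

`A` torsion free abelian, `Good U m` a predicate on subgroups (quotient by `U` good with constant `m`).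
-/

set_option autoImplicit false

namespace Pool.MP0c3001.DV

private def Chn {A : Type} [AddCommGroup A] (Good : AddSubgroup A → ℕ → Prop) (r : ℕ)
    (U : AddSubgroup A) (M : ℕ) : Prop :=
  Nonempty (U ≃+ (Fin r → ℤ)) ∧ (∃ m, 0 < m ∧ Good U m) ∧ 0 < M ∧
    ∀ c : A, (∀ j : ℤ, j • c ∈ U → j = 0) →
      (∀ m, 0 < m → ¬ Good (U ⊔ AddSubgroup.zmultiples c) m) →
      ∃ (w : A) (g : ℕ) (y : A), 0 < g ∧ y ∈ U ∧ g • w = M • c + y ∧
        ∀ m, 0 < m → ¬ Good (AddSubgroup.zmultiples w) m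

private lemma chn_zero {A : Type} [AddCommGroup A] (Good : AddSubgroup A → ℕ → Prop)
    (hbot : Good ⊥ 1) : Chn Good 0 ⊥ 1 := by
  refine ⟨⟨?_⟩, ⟨1, one_pos, hbot⟩, one_pos, ?_⟩
  · have : Unique (⊥ : AddSubgroup A) := ⟨⟨0⟩, fun x => Subsingleton.elim _ _⟩
    exact AddEquiv.mk' (Equiv.ofUnique _ _) (fun _ _ => Subsingleton.elim _ _)
  · intro c _ hc
    rw [bot_sup_eq] at hc
    exact ⟨c, 1, 0, one_pos, AddSubgroup.zero_mem _, by rw [add_zero], hc⟩

private lemma chn_succ {A : Type} [AddCommGroup A] (Good : AddSubgroup A → ℕ → Prop)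
    (hK : ∀ (r : ℕ) (U' : AddSubgroup A) (u c : A) (m : ℕ), 0 < m → Nonempty (U' ≃+ (Fin r → ℤ)) →
      (∀ j : ℤ, j • u ∈ U' → j = 0) →
      (∀ j : ℤ, j • c ∈ U' ⊔ AddSubgroup.zmultiples u → j = 0) →
      Good (U' ⊔ AddSubgroup.zmultiples u) m →
      (∀ m', 0 < m' → ¬ Good (U' ⊔ AddSubgroup.zmultiples u ⊔ AddSubgroup.zmultiples c) m') →
      ∃ (w : A) (g : ℕ) (y : A), 0 < g ∧ y ∈ U' ⊔ AddSubgroup.zmultiples u ∧ g • w = m • c + y ∧
        ∀ m', 0 < m' → ¬ Good (U' ⊔ AddSubgroup.zmultiples w) m')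
    (r : ℕ) (U' : AddSubgroup A) (M : ℕ) (hP : Chn Good r U' M) (u : A)
    (hu : ∀ j : ℤ, j • u ∈ U' → j = 0) (m : ℕ) (hm : 0 < m)
    (hG : Good (U' ⊔ AddSubgroup.zmultiples u) m) :
    Chn Good (r + 1) (U' ⊔ AddSubgroup.zmultiples u) (m * M) := by
  obtain ⟨⟨e⟩, _, hM, hP⟩ := hP
  refine ⟨?_, ⟨m, hm, hG⟩, Nat.mul_pos hm hM, ?_⟩
  · obtain ⟨f, _⟩ := coord_succ U' e u hu
    exact ⟨f⟩
  · intro c hc hbad
    obtain ⟨w₁, g₁, y₁, hg₁, hy₁, hw₁, hb₁⟩ := hK r U' u c m hm ⟨e⟩ hu hc hG hbad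
    have hle : U' ≤ U' ⊔ AddSubgroup.zmultiples u := le_sup_left
    have hind : ∀ j : ℤ, j • w₁ ∈ U' → j = 0 := by
      intro j hj
      have h1 : (j * m) • c ∈ U' ⊔ AddSubgroup.zmultiples u := by
        have h2 : (j * m) • c = (g₁ : ℤ) • (j • w₁) - j • y₁ := by
          rw [smul_comm, natCast_zsmul, hw₁, smul_add, add_sub_cancel_right, mul_smul,
            natCast_zsmul]
        rw [h2]
        exact AddSubgroup.sub_mem _ (AddSubgroup.zsmul_mem _ (hle hj) _)
          (AddSubgroup.zsmul_mem _ hy₁ _)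
      have h3 := hc _ h1
      rcases mul_eq_zero.1 h3 with h4 | h4
      · exact h4
      · exact absurd h4 (by exact_mod_cast hm.ne')
    obtain ⟨w, g, y, hg, hy, hw, hb⟩ := hP w₁ hind hb₁
    refine ⟨w, g₁ * g, M • y₁ + g₁ • y, Nat.mul_pos hg₁ hg, ?_, ?_, hb⟩
    · exact AddSubgroup.add_mem _ (AddSubgroup.nsmul_mem _ hy₁ _)
        (AddSubgroup.nsmul_mem _ (hle hy) _)
    · rw [mul_smul, hw, smul_add, smul_comm g₁ M, hw₁, smul_add, ← mul_smul, mul_comm M m,
        add_assoc]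

theorem abs_chain {A : Type} [AddCommGroup A]
    (htf : ∀ (n : ℕ) (x : A), 0 < n → n • x = 0 → x = 0)
    (n : ℕ) (hrank : ∀ (U : AddSubgroup A) (r : ℕ), Nonempty (U ≃+ (Fin r → ℤ)) → r ≤ n)
    (Good : AddSubgroup A → ℕ → Prop) (hbot : Good ⊥ 1)
    (htor : ∀ (U : AddSubgroup A) (m : ℕ) (x : A), Good U m → (∃ j : ℤ, j ≠ 0 ∧ j • x ∈ U) →
      m • x ∈ U)
    (hK : ∀ (r : ℕ) (U' : AddSubgroup A) (u c : A) (m : ℕ), 0 < m → Nonempty (U' ≃+ (Fin r → ℤ)) →
      (∀ j : ℤ, j • u ∈ U' → j = 0) →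
      (∀ j : ℤ, j • c ∈ U' ⊔ AddSubgroup.zmultiples u → j = 0) →
      Good (U' ⊔ AddSubgroup.zmultiples u) m →
      (∀ m', 0 < m' → ¬ Good (U' ⊔ AddSubgroup.zmultiples u ⊔ AddSubgroup.zmultiples c) m') →
      ∃ (w : A) (g : ℕ) (y : A), 0 < g ∧ y ∈ U' ⊔ AddSubgroup.zmultiples u ∧ g • w = m • c + y ∧
        ∀ m', 0 < m' → ¬ Good (U' ⊔ AddSubgroup.zmultiples w) m') :
    ∃ S : Set A, S.Finite ∧ ∀ x : A, x ∈ AddSubgroup.closure
      (S ∪ {w | ∀ m, 0 < m → ¬ Good (AddSubgroup.zmultiples w) m}) := by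
  classical
  let P : ℕ → Prop := fun r => ∃ (U : AddSubgroup A) (M : ℕ), Chn Good r U M
  have h0 : P 0 := ⟨⊥, 1, chn_zero Good hbot⟩
  obtain ⟨U, M, hC⟩ := Nat.findGreatest_spec (P := P) (Nat.zero_le n) h0
  have hmax : ∀ r, P r → r ≤ Nat.findGreatest P n := by
    rintro r ⟨U', M', hC'⟩
    exact Nat.le_findGreatest (hrank U' r hC'.1) ⟨U', M', hC'⟩
  generalize Nat.findGreatest P n = r at hC hmax
  have hChn := hC
  obtain ⟨⟨e⟩, ⟨m, hm, hG⟩, hM, hC⟩ := hC
  set W : Set A := {w | ∀ m, 0 < m → ¬ Good (AddSubgroup.zmultiples w) m} with hW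
  -- every multiple `(m M) c` lies in `U + ⟨W⟩`
  have hall : ∀ c : A, (m * M) • c ∈ U ⊔ AddSubgroup.closure W := by
    intro c
    by_cases hc : ∃ j : ℤ, j ≠ 0 ∧ j • c ∈ U
    · have h1 := htor U m c hG hc
      rw [mul_comm, mul_smul]
      exact AddSubgroup.nsmul_mem _ ((le_sup_left : U ≤ _) h1) _
    · push Not at hc
      have hind : ∀ j : ℤ, j • c ∈ U → j = 0 := by
        intro j hj
        by_contra hne
        exact hc j hne hj
      have hbad : ∀ m, 0 < m → ¬ Good (U ⊔ AddSubgroup.zmultiples c) m := by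
        intro m' hm' hG'
        have h1 := hmax (r + 1) ⟨_, _, chn_succ Good hK r U M hChn c hind m' hm' hG'⟩
        omega
      obtain ⟨w, g, y, hg, hy, hw, hb⟩ := hC c hind hbad
      have h1 : M • c = g • w - y := by rw [hw, add_sub_cancel_right]
      rw [mul_smul, h1]
      refine AddSubgroup.nsmul_mem _ (AddSubgroup.sub_mem _ ?_ ((le_sup_left : U ≤ _) hy)) _
      exact (le_sup_right : AddSubgroup.closure W ≤ _)
        (AddSubgroup.nsmul_mem _ (AddSubgroup.subset_closure (show w ∈ W from hb)) _)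
  obtain ⟨F, hF, hFc⟩ := fin_quot htf n hrank (m * M) (Nat.mul_pos hm hM)
  let B : Set A := Set.range fun i : Fin r => ((e.symm (Pi.single i 1) : U) : A)
  refine ⟨F ∪ B, hF.union (Set.finite_range _), fun x => ?_⟩
  have hU : U ≤ AddSubgroup.closure ((F ∪ B) ∪ W) := by
    intro y hy
    have h1 : (⟨y, hy⟩ : U) = ∑ i, (e ⟨y, hy⟩ i) • e.symm (Pi.single i 1) := by
      apply e.injective
      rw [map_sum]
      funext j
      rw [Finset.sum_apply, Finset.sum_eq_single j]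
      · rw [map_zsmul, e.apply_symm_apply]
        simp
      · intro i _ hi
        rw [map_zsmul, e.apply_symm_apply]
        simp [Pi.single_eq_of_ne hi.symm]
      · intro h; exact absurd (Finset.mem_univ j) h
    have h2 : y = ∑ i, (e ⟨y, hy⟩ i) • ((e.symm (Pi.single i 1) : U) : A) := by
      have h3 := congrArg (fun z : U => (z : A)) h1
      simpa using h3
    rw [h2]
    refine AddSubgroup.sum_mem _ fun i _ => AddSubgroup.zsmul_mem _ ?_ _
    exact AddSubgroup.subset_closure (Or.inl (Or.inr ⟨i, rfl⟩))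
  have hWle : AddSubgroup.closure W ≤ AddSubgroup.closure ((F ∪ B) ∪ W) :=
    AddSubgroup.closure_mono Set.subset_union_right
  obtain ⟨f, hf, c', hx⟩ := hFc x
  rw [hx]
  exact AddSubgroup.add_mem _ (AddSubgroup.subset_closure (Or.inl (Or.inl hf)))
    ((sup_le hU hWle) (hall c'))

end Pool.MP0c3001.DV
end
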