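import Pool.Agent.Lib.MP_0c3001_gt.Mg.G014
import Pool.Agent.Lib.MP_0c3001_gt.Mg.G016
import Pool.Agent.Lib.MP_0c3001_gt.Mg.G015
import Pool.Agent.Lib.MP_0c3001_gt.Mg.G009
import Pool.Agent.Lib.MP_0c3001_gt.Mg.G011
import Pool.Agent.Lib.MP_0c3001_gt.Mg.G010
import Pool.Agent.Lib.MP_0c3001_gt.Mg.G018
import Pool.Agent.Lib.MP_0c3001_gt.Mg.G019
import Pool.Agent.Lib.MP_0c3001_gt.Mg.G023
import Pool.Agent.Lib.MP_0c3001_gt.Mg.G021

section

/-!
# S16: localisation (Smith theory): `H^i(Q;V) = H^i(Q;Map(R,V))` for large `i`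

Let `R = Rt z l`, `V` killed by `l ^ s`.  Choose `E` (`exists_rootExt`, `E` with `RootExt ι w z l`) and `c`
(`exists_fitsZ`).  `G` has no `l`-torsion: `g ^ l = 1`, `g ≠ 1` gives `orderOf g = l ∣ m`
(`orderOf_dvd_of_kills`).

* `root_empty`: `R` empty: `M_d(D)`, `D = res V`, is acyclic (`acyclic_noroot`), so `m ^ l` kills `H^i(E;res V)` for
  `i ≥ l N` (`kills_of_acyclic`); it is also killed by `l ^ s`, and `l ∤ m`, so it is `0`
  (`eq_zero_of_coprime`, `coh_kill`).  `coh_zero` with `i₀ = l * N - 1` (`≥ 1`): `H^i(Q;V) = 0` for `i ≥ l N - 1`.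
* `Dr_zero`: `R` not empty: the same with `D = Dr hπ l V` (killed by `l ^ s` as a submodule of the functions with
  values in `V`), `acyclic_roots`.
* `loc_inj`, `loc_surj`: `R` empty: by `root_empty` `α = 0`; for the surjectivity `β = 0` as
  `Map(∅,V) = 0` (every element of `MR hπ l V` is equal to `0`, so `β = β.comp (mk₀ (𝟙)) = β.comp (mk₀ 0) = 0`).
  `R` not empty: the exact sequence `drSeq` and `H^j(Q;Dr) = 0` for `j ≥ l N - 1`
  (`Ext.covariant_sequence_exact₂`, `Ext.covariant_sequence_exact₁`; `i ≥ l N ≥ 2`).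
-/

set_option autoImplicit false

namespace Pool.MP0c3001.DV

open CategoryTheory CategoryTheory.Abelian Limits

noncomputable section

variable {k : Type} [CommRing k] {G Q : Type} [Group G] [Group Q] {z : G} {l : ℕ}

private lemma s16_tor (hk : Function.Bijective (Int.cast : ℤ → k)) (hl : l.Prime) {m N : ℕ}
    (hlm : ¬ l ∣ m) (hK : Kills k G m N) (g : G) (hg : g ^ l = 1) : g = 1 := by
  by_contra h1
  have : Fact l.Prime := ⟨hl⟩
  have h2 : orderOf g = l := orderOf_eq_prime hg h1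
  have h3 := orderOf_dvd_of_kills hk hK g (isOfFinOrder_iff_pow_eq_one.2 ⟨l, hl.pos, hg⟩)
  rw [h2] at h3
  exact hlm h3

private lemma s16_core {π : G →* Q} (hπ : CycExt π z)
    (hl : l.Prime) {m N : ℕ} (hlm : ¬ l ∣ m) (hN : 1 ≤ N) (hK : Kills k G m N)
    {E : Type} [Group E] {ι : G →* E} {w : E} [NeZero l] (h : RootExt ι w z l)
    (D : Rep.{0} k Q) (s : ℕ) (hs : ∀ v : D.V, (l ^ s) • v = 0)
    (hacy : ∀ d i, 1 ≤ d → 1 ≤ i → ∀ x : HH k E
      (Md h hπ.cen ((Rep.resFunctor.{0} (k := k) (h.pr hπ.map_z)).obj D) d) i, x = 0)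
    (i : ℕ) (hi : l * N ≤ i + 1) (α : HH k Q D i) : α = 0 := by
  obtain ⟨c, hc, hf⟩ := exists_fitsZ hπ
  have h2 : 2 ≤ l * N := le_trans hl.two_le (Nat.le_mul_of_pos_right l hN)
  refine coh_zero h hπ hc hf D s hs (l * N - 1) (by omega) ?_ i (by omega) α
  intro j hj x
  have hcop : Nat.Coprime (m ^ l) (l ^ s) :=
    Nat.Coprime.pow _ _ ((Nat.Prime.coprime_iff_not_dvd hl).2 hlm).symm
  exact eq_zero_of_coprime hcop x
    (kills_of_acyclic h hπ.cen hN hK _ hacy j (by omega) x) (coh_kill ((Rep.resFunctor.{0} (k := k) (h.pr hπ.map_z)).obj D) (Zt k E) (l ^ s) hs x)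

theorem root_empty (hk : Function.Bijective (Int.cast : ℤ → k)) {π : G →* Q} (hπ : CycExt π z)
    (hl : l.Prime) {m N : ℕ} (hlm : ¬ l ∣ m) (hN : 1 ≤ N) (hK : Kills k G m N)
    (hR : IsEmpty (Rt z l)) (V : Rep.{0} k Q) (s : ℕ) (hs : ∀ v : V.V, (l ^ s) • v = 0)
    (i : ℕ) (hi : l * N ≤ i + 1) (α : HH k Q V i) : α = 0 := by
  have : NeZero l := ⟨hl.ne_zero⟩
  obtain ⟨E, hE, ι, w, h⟩ := exists_rootExt z hπ.cen hπ.ord l hl.pos
  refine s16_core hπ hl hlm hN hK h V s hs ?_ i hi α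
  intro d j hd hj x
  exact acyclic_noroot h hπ.cen hl (fun r hr => hR.false ⟨r, hr⟩) _ d j hd hj x

theorem Dr_zero (hk : Function.Bijective (Int.cast : ℤ → k)) {π : G →* Q} (hπ : CycExt π z)
    (hl : l.Prime) {m N : ℕ} (hlm : ¬ l ∣ m) (hN : 1 ≤ N) (hK : Kills k G m N)
    (hR : Nonempty (Rt z l)) (V : Rep.{0} k Q) (s : ℕ) (hs : ∀ v : V.V, (l ^ s) • v = 0)
    (i : ℕ) (hi : l * N ≤ i + 1) (α : HH k Q (Dr hπ l V) i) : α = 0 := by
  have : NeZero l := ⟨hl.ne_zero⟩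
  obtain ⟨E, hE, ι, w, h⟩ := exists_rootExt z hπ.cen hπ.ord l hl.pos
  refine s16_core hπ hl hlm hN hK h (Dr hπ l V) s ?_ ?_ i hi α
  · intro v
    apply Subtype.ext
    funext r r'
    exact hs (v.1 r r')
  · intro d j hd hj x
    exact acyclic_roots h hl hπ (s16_tor hk hl hlm hK) hR V d j hd hj x

theorem loc_inj (hk : Function.Bijective (Int.cast : ℤ → k)) {π : G →* Q} (hπ : CycExt π z)
    (hl : l.Prime) {m N : ℕ} (hlm : ¬ l ∣ m) (hN : 1 ≤ N) (hK : Kills k G m N)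
    (V : Rep.{0} k Q) (s : ℕ) (hs : ∀ v : V.V, (l ^ s) • v = 0)
    (i : ℕ) (hi : l * N ≤ i) (α : HH k Q V i)
    (hα : α.comp (Ext.mk₀ (mrConst hπ l V)) (add_zero i) = 0) : α = 0 := by
  have h2 : 2 ≤ l * N := le_trans hl.two_le (Nat.le_mul_of_pos_right l hN)
  rcases isEmpty_or_nonempty (Rt z l) with hR | hR
  · exact root_empty hk hπ hl hlm hN hK hR V s hs i (by omega) α
  · obtain ⟨x, hx⟩ := Ext.covariant_sequence_exact₁ (Zt k Q) (drSeq hπ l V) α hα
      (show (i - 1) + 1 = i by omega)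
    have h0 : x = 0 := Dr_zero hk hπ hl hlm hN hK hR V s hs (i - 1) (by omega) x
    rw [← hx, h0, Ext.zero_comp]

theorem loc_surj (hk : Function.Bijective (Int.cast : ℤ → k)) {π : G →* Q} (hπ : CycExt π z)
    (hl : l.Prime) {m N : ℕ} (hlm : ¬ l ∣ m) (hN : 1 ≤ N) (hK : Kills k G m N)
    (V : Rep.{0} k Q) (s : ℕ) (hs : ∀ v : V.V, (l ^ s) • v = 0)
    (i : ℕ) (hi : l * N ≤ i) (β : HH k Q (MR hπ l V) i) :
    ∃ α : HH k Q V i, α.comp (Ext.mk₀ (mrConst hπ l V)) (add_zero i) = β := by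
  rcases isEmpty_or_nonempty (Rt z l) with hR | hR
  · refine ⟨0, ?_⟩
    have h1 : (1 : ℕ) • β = 0 := by
      refine coh_kill (MR hπ l V) (Zt k Q) 1 ?_ β
      intro v
      funext r
      exact (hR.false r).elim
    rw [one_nsmul] at h1
    rw [h1, Ext.zero_comp]
  · have h0 : β.comp (Ext.mk₀ (drMap hπ l V)) (add_zero i) = 0 :=
      Dr_zero hk hπ hl hlm hN hK hR V s hs i (by omega) _
    exact Ext.covariant_sequence_exact₂ (Zt k Q) (drSeq hπ l V) β h0

end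

end Pool.MP0c3001.DV
end

section

/-!
# F2: finitely many conjugacy classes of roots; finiteness for the stabilizers

`FgL k Q l i₀`: `H^i(Q;k/l)` is finitely generated for `i ≥ i₀` (hence finite, as it is killed by `l`).

* `fg_finite`: a finitely generated abelian group killed by `l > 0` is finite
  (`Module.finite_of_fg_torsion`-like; e.g. `Module.Finite ℤ A` and `l • x = 0` for all `x`: a quotient of
  `(ℤ/l)^n`).
* `orbits_finite`: take `κ` with `2 κ ≥ max i₀ (l N)`, `V = Vq k Q l`, `c` from `exists_fitsZ`, `e = ecl k hc`,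
  `x = (epow e κ).comp (mk₀ (qm k Q l)) ∈ H^{2κ}(Q;V)`.  For an orbit `o ⊂ R = Rt z l` (of the action `conjAct hπ l`) let
  `j_o : V ⟶ MR hπ l V`, `v ↦ (r ↦ if r ∈ o then v else 0)` (equivariant since `o` is invariant and by the definition
  of the action; classical decidability) and `a_o = x.comp (mk₀ j_o) ∈ H^{2κ}(Q;MR)`.  Then
  `evx r a_o = rs (Qr..).subtype x` if `r ∈ o` and `= 0` if `r ∉ o` (as for `evx_const`: `cmp_apply`,
  `Ext.mapExactFunctor_comp`, `res (j_o) ≫ mpEv = 𝟙` or `0`), and `rs x = (rs (epow e κ)).comp qm ≠ 0` (`rs_qm`,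
  `euler_ne`).  So `o ↦ a_o` is injective on the set of orbits.  `H^{2κ}(Q;MR)` is finite: it is a quotient of
  `H^{2κ}(Q;V)` (`loc_surj`), which is finite (`fg_finite`, `coh_kill`, `vq_kill`).  So the set of orbits is
  finite; choose representatives.
* `fgL_Qr`: for `i ≥ max i₀ (l N)` the map `evx r ∘ (mrConst)_* : H^i(Q;V) → H^i(Q_r;res V)` is onto (`loc_surj`,
  `evx_surj`), so `H^i(Q_r;k/l)` is finitely generated.
-/

set_option autoImplicit false

namespace Pool.MP0c3001.DV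

open CategoryTheory CategoryTheory.Abelian Limits

noncomputable section

variable {k : Type} [CommRing k] {G Q : Type} [Group G] [Group Q] {z : G} {l : ℕ}

variable (k Q) in
/-- All `H^i(Q;k/l)` with `i ≥ i₀` are finitely generated. -/
def FgL (l i₀ : ℕ) : Prop := ∀ i, i₀ ≤ i → Module.Finite ℤ (HH k Q (Vq k Q l) i)

private theorem F2_evx {G : Type} [Group G] (X : Type) [MulAction G X] (V : Rep.{0} k G)
    (f : V ⟶ Mp X V) (x : X) {i : ℕ} (α : HH k G V i) :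
    evx X V x i (α.comp (Ext.mk₀ f) (add_zero i)) =
      (rs (MulAction.stabilizer G x).subtype α).comp
        (Ext.mk₀ ((Rep.resFunctor.{0} (k := k) (MulAction.stabilizer G x).subtype).map f ≫
          mpEv X V x)) (add_zero i) := by
  unfold evx
  rw [cmp_apply, Ext.mapExactFunctor_comp, Ext.mapExactFunctor_mk₀]
  refine (Ext.mk₀_id_comp _).trans ?_
  refine (Ext.comp_assoc (a₂₃ := 0) _ _ _ _ (by omega) (by omega)).trans ?_
  rw [Ext.mk₀_comp_mk₀]

/-- the map `v ↦ (x ↦ v if x is in the orbit of x₀, 0 otherwise)` -/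
private def F2_j {G : Type} [Group G] (X : Type) [MulAction G X] (V : Rep.{0} k G) (x₀ : X) :
    V ⟶ Mp X V :=
  Rep.ofHom
    { toLinearMap :=
        { toFun := fun v => Set.indicator (MulAction.orbit G x₀) (fun _ => v)
          map_add' := fun v w => Set.indicator_add _ _ _
          map_smul' := fun c v => Set.indicator_const_smul _ c _ }
      isIntertwining' := by
        intro g
        apply LinearMap.ext
        intro v
        funext x
        change Set.indicator (MulAction.orbit G x₀) (fun _ => V.ρ g v) x =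
          V.ρ g (Set.indicator (MulAction.orbit G x₀) (fun _ => v) (g⁻¹ • x))
        have hiff : x ∈ MulAction.orbit G x₀ ↔ g⁻¹ • x ∈ MulAction.orbit G x₀ := by
          constructor
          · rintro ⟨h, rfl⟩
            exact ⟨g⁻¹ * h, mul_smul _ _ _⟩
          · rintro ⟨h, hh⟩
            refine ⟨g * h, ?_⟩
            change (g * h) • x₀ = x
            rw [mul_smul, show h • x₀ = g⁻¹ • x from hh, smul_inv_smul]
        by_cases h : x ∈ MulAction.orbit G x₀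
        · rw [Set.indicator_of_mem h, Set.indicator_of_mem (hiff.1 h)]
        · rw [Set.indicator_of_notMem h, Set.indicator_of_notMem (fun h' => h (hiff.2 h')),
            map_zero] }

private theorem F2_j_pos {G : Type} [Group G] (X : Type) [MulAction G X] (V : Rep.{0} k G)
    (x₀ x : X) (h : ∃ g : G, g • x₀ = x) :
    (Rep.resFunctor.{0} (k := k) (MulAction.stabilizer G x).subtype).map (F2_j X V x₀) ≫
      mpEv X V x = 𝟙 _ := by
  apply Rep.hom_ext
  apply Representation.IntertwiningMap.ext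
  apply LinearMap.ext
  intro v
  change Set.indicator (M := V.V) (MulAction.orbit G x₀) (fun _ => v) x = v
  exact Set.indicator_of_mem (M := V.V) h (fun _ => v)

private theorem F2_j_neg {G : Type} [Group G] (X : Type) [MulAction G X] (V : Rep.{0} k G)
    (x₀ x : X) (h : ¬ ∃ g : G, g • x₀ = x) :
    (Rep.resFunctor.{0} (k := k) (MulAction.stabilizer G x).subtype).map (F2_j X V x₀) ≫
      mpEv X V x = 0 := by
  apply Rep.hom_ext
  apply Representation.IntertwiningMap.ext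
  apply LinearMap.ext
  intro v
  change Set.indicator (M := V.V) (MulAction.orbit G x₀) (fun _ => v) x = 0
  exact Set.indicator_of_notMem (M := V.V) h (fun _ => v)

/-- if `α` is not zero on any stabilizer and the cohomology of `Map(X,V)` is finite, then there are
finitely many orbits -/
private theorem F2_fin {G : Type} [Group G] (X : Type) [MulAction G X] (V : Rep.{0} k G) {i : ℕ}
    (α : HH k G V i) (hα : ∀ x : X, rs (MulAction.stabilizer G x).subtype α ≠ 0)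
    (hf : Finite (HH k G (Mp X V) i)) :
    ∃ S : Finset X, ∀ x : X, ∃ q : G, ∃ x' ∈ S, q • x' = x := by
  classical
  let Φ : X → HH k G (Mp X V) i := fun x => α.comp (Ext.mk₀ (F2_j X V x)) (add_zero i)
  have hΦ : ∀ x x' : X, Φ x' = Φ x → ∃ q : G, q • x' = x := by
    intro x x' h
    by_contra hne
    apply hα x
    have h1 := F2_evx X V (F2_j X V x) x α
    have h2 := F2_evx X V (F2_j X V x') x α
    rw [F2_j_pos X V x x ⟨1, one_smul _ _⟩, Ext.comp_mk₀_id] at h1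
    rw [F2_j_neg X V x' x hne, Ext.mk₀_zero, Ext.comp_zero] at h2
    rw [← h1]
    exact (congrArg (evx X V x i) h).symm.trans h2
  have hr : (Set.range Φ).Finite := Set.toFinite _
  refine ⟨hr.toFinset.attach.image fun y => ((Set.Finite.mem_toFinset hr).1 y.2).choose, ?_⟩
  intro x
  have hx : Φ x ∈ hr.toFinset := (Set.Finite.mem_toFinset hr).2 ⟨x, rfl⟩
  have h1 := ((Set.Finite.mem_toFinset hr).1 hx).choose_spec
  obtain ⟨q, hq⟩ := hΦ x _ h1
  exact ⟨q, _, Finset.mem_image.2 ⟨⟨Φ x, hx⟩, Finset.mem_attach _ _, rfl⟩, hq⟩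

theorem fg_finite {A : Type} [AddCommGroup A] [Module.Finite ℤ A] {l : ℕ} (hl : 0 < l)
    (h : ∀ x : A, l • x = 0) : Finite A := by
  apply Module.finite_of_fg_torsion (M := A)
  intro x
  refine ⟨⟨(l : ℤ), mem_nonZeroDivisors_of_ne_zero (by exact_mod_cast hl.ne')⟩, ?_⟩
  change (l : ℤ) • x = 0
  rw [natCast_zsmul]
  exact h x

theorem orbits_finite (hk : Function.Bijective (Int.cast : ℤ → k)) {π : G →* Q}
    (hπ : CycExt π z) (hl : l.Prime) {m N : ℕ} (hlm : ¬ l ∣ m) (hN : 1 ≤ N) (hK : Kills k G m N)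
    {i₀ : ℕ} (hfin : FgL k Q l i₀) :
    ∃ S : Finset (Rt z l), ∀ r : Rt z l, ∃ q : Q, ∃ r' ∈ S, (conjAct hπ l).smul q r' = r := by
  obtain ⟨c, hc, hf⟩ := exists_fitsZ hπ
  have hs : ∀ v : (Vq k Q l).V, (l ^ 1) • v = 0 := fun v => by
    rw [pow_one]
    exact vq_kill l v
  obtain ⟨κ, hκ⟩ : ∃ κ, i₀ + l * N = κ := ⟨_, rfl⟩
  have hκ1 : i₀ ≤ 2 * κ := by omega
  have hκ2 : l * N ≤ 2 * κ := by omega
  have h1 : Module.Finite ℤ (HH k Q (Vq k Q l) (2 * κ)) := hfin _ hκ1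
  have h2 : Finite (HH k Q (Vq k Q l) (2 * κ)) :=
    fg_finite hl.pos fun x => coh_kill (Vq k Q l) (Zt k Q) l (vq_kill l) x
  have h3 : Finite (HH k Q (MR hπ l (Vq k Q l)) (2 * κ)) := by
    apply Finite.of_surjective (fun α : HH k Q (Vq k Q l) (2 * κ) =>
      α.comp (Ext.mk₀ (mrConst hπ l (Vq k Q l))) (add_zero _))
    intro β
    exact loc_surj hk hπ hl hlm hN hK (Vq k Q l) 1 hs _ hκ2 β
  apply @F2_fin k _ Q _ (Rt z l) (conjAct hπ l) (Vq k Q l) (2 * κ)
    ((epow (ecl k hc) κ).comp (Ext.mk₀ (qm k Q l)) (add_zero (2 * κ))) ?_ h3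
  intro r h0
  apply euler_ne hk hπ hl hlm hN hK hc hf r κ
  exact (rs_qm (Qr hπ l r).subtype l (epow (ecl k hc) κ)).symm.trans h0

theorem fgL_Qr (hk : Function.Bijective (Int.cast : ℤ → k)) {π : G →* Q}
    (hπ : CycExt π z) (hl : l.Prime) {m N : ℕ} (hlm : ¬ l ∣ m) (hN : 1 ≤ N) (hK : Kills k G m N)
    {i₀ : ℕ} (hfin : FgL k Q l i₀) (r : Rt z l) : ∃ i₁, FgL k (Qr hπ l r) l i₁ := by
  have hs : ∀ v : (Vq k Q l).V, (l ^ 1) • v = 0 := fun v => by
    rw [pow_one]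
    exact vq_kill l v
  refine ⟨i₀ + l * N, fun i hi => ?_⟩
  have h1 : Module.Finite ℤ (HH k Q (Vq k Q l) i) := hfin _ (by omega)
  let f : HH k Q (Vq k Q l) i →+ HH k (Qr hπ l r) (Vq k (Qr hπ l r) l) i :=
    (@evx k _ Q _ (Rt z l) (conjAct hπ l) (Vq k Q l) r i).comp
      ((Ext.mk₀ (mrConst hπ l (Vq k Q l))).postcomp (Zt k Q) (add_zero i))
  apply Module.Finite.of_surjective f.toIntLinearMap
  intro β
  obtain ⟨α, hα⟩ := @evx_surj k _ Q _ (Rt z l) (conjAct hπ l) (Vq k Q l) r i β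
  obtain ⟨α', hα'⟩ := loc_surj hk hπ hl hlm hN hK (Vq k Q l) 1 hs i (by omega) α
  exact ⟨α', (congrArg _ hα').trans hα⟩

end

end Pool.MP0c3001.DV
end

section

/-!
# F4: finiteness for the centralizer of a root (assembly)

* `fgL_centralizer`: `fgL_Qr` gives `i₁` with `H^i(Q_r;k/l)` finitely generated for `i ≥ i₁`.  `exists_mu`
  (`mu : Cn r × ℤ/l → Q_r`, cyclic central extension with kernel generated by `((rc r)⁻¹, ofAdd 1)`), a cocycle by
  `exists_fitsZ` (cast to `k`: `Fits`), `gysin_up` with `V = Vq k (Qr hπ l r) l`: `H^i(Cn r × ℤ/l; res V)` is finitely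
  generated for `i ≥ i₁ + 2`.  The module `res V` is the trivial module `k/l = infl _ (Vq k (Cn r.1) l)`
  (definitionally).  `kun_fg` (`vq_kill`): `H^a(Cn r;k/l)` is finitely generated for all `a`.
* `fin_step`: `gysin_down` for `π₁ : Cn r → Q₁` and `V = Vq k Q₁ l` (`Vq` is a finitely generated abelian group: `k` is a
  quotient of `ℤ` by `hk`).
* `fgL_of_fgCoh`: `FgCoh` for `V = Vq k Q l`, which is finite over `k`.
-/

set_option autoImplicit false

namespace Pool.MP0c3001.DV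

open CategoryTheory CategoryTheory.Abelian Limits

noncomputable section

variable {k : Type} [CommRing k] {G Q : Type} [Group G] [Group Q] {z : G} {l : ℕ}

private lemma fits_cast {π : G →* Q} {c : Q → Q → ℤ} (hf : FitsZ π z c) :
    Fits π z (fun q p => Int.castAddHom k (c q p)) := by
  obtain ⟨s, hs, j, hj, hcj⟩ := hf
  exact ⟨s, hs, j, hj, fun q' q => congrArg (Int.castAddHom k) (hcj q' q)⟩

private lemma vq_finite (l : ℕ) : Module.Finite k (Vq k Q l).V :=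
  inferInstanceAs (Module.Finite k (k ⧸ Ideal.span {(l : k)}))

theorem fgL_of_fgCoh (h : FgCoh k Q) (l : ℕ) : FgL k Q l 0 := by
  intro i _
  exact h (Vq k Q l) (vq_finite l) i

theorem fgL_centralizer (hk : Function.Bijective (Int.cast : ℤ → k)) {π : G →* Q}
    (hπ : CycExt π z) (hl : l.Prime) {m N : ℕ} (hlm : ¬ l ∣ m) (hN : 1 ≤ N) (hK : Kills k G m N)
    {i₀ : ℕ} (hfin : FgL k Q l i₀) (r : Rt z l) : FgL k (Cn r.1) l 0 := by
  obtain ⟨i₁, h₁⟩ := fgL_Qr hk hπ hl hlm hN hK hfin r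
  obtain ⟨mu, _, _, hmu⟩ := exists_mu hπ hl.pos r
  obtain ⟨c, hc, hf⟩ := exists_fitsZ hmu
  intro a _
  refine kun_fg l hl.pos (Vq k (Cn r.1) l) (vq_kill l) (i₁ + 2) (fun i hi => ?_) a
  obtain ⟨i, rfl⟩ : ∃ i', i = i' + 1 := ⟨i - 1, by omega⟩
  exact gysin_up hmu (hc.map (Int.castAddHom k)) (fits_cast hf) (Vq k (Qr hπ l r) l) i (by omega)
    (h₁ i (by omega)) (h₁ (i + 1) (by omega))

theorem fin_step (hk : Function.Bijective (Int.cast : ℤ → k)) {π : G →* Q}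
    (hπ : CycExt π z) (hl : l.Prime) {m N : ℕ} (hlm : ¬ l ∣ m) (hN : 1 ≤ N) (hK : Kills k G m N)
    {i₀ : ℕ} (hfin : FgL k Q l i₀) (r : Rt z l) {Q₁ : Type} [Group Q₁] {π₁ : Cn r.1 →* Q₁}
    (hπ₁ : CycExt π₁ (rc r)) : FgL k Q₁ l 0 := by
  obtain ⟨c, hc, hf⟩ := exists_fitsZ hπ₁
  have h0 := fgL_centralizer hk hπ hl hlm hN hK hfin r
  intro i _
  exact gysin_down hπ₁ (hc.map (Int.castAddHom k)) (fits_cast hf) (Vq k Q₁ l)
    (int_finite_of_finite hk _ (vq_finite l)) (fun i => h0 i (Nat.zero_le i)) i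

end

end Pool.MP0c3001.DV
end

section

/-!
# L3: no roots of order `l ^ K` makes a power of the Euler class almost zero modulo all `l ^ s`

Induction over `K`.  `K = 0`: `x = z` is a root, nothing to prove.  `K + 1`: let `c₁, κ₁` be the constants for `K`;
put `a = a₁ + κ₁`, `κ = l * N + κ₁`.  Let `hr : ∀ x, x ^ (l ^ (K+1)) ≠ z`, `e = ecl k hc`.
For `r : Rt z l`: `root_cyc` gives `π₁ : Cn r.1 →* Q₁`; `Cn r.1` satisfies `Kills k _ m N` (`Kills.subgroup`); `rc r`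
has no `l ^ K`-th root `x` (it would satisfy `x.1 ^ (l ^ (K+1)) = (x.1 ^ (l ^ K)) ^ l = r.1 ^ l = z`).  By induction
`(l ^ a₁) • (epow e₁ κ₁).comp qm = 0` over `Q₁`, all `s`.  Restrict along `φ` of `euler_root`
(`rs_nsmul`, `rs_qm`, `rs_epow`): `(l ^ a₁) • (epow (l • e_r) κ₁).comp qm = 0` where `e_r = rs (Qr..).subtype e`, and
`epow (l • e_r) κ₁ = l ^ κ₁ • epow e_r κ₁` (induction, `epow_nsmul`).  So
`x := (l ^ a) • (epow e κ₁).comp (mk₀ qm)` restricts to `0` on all `Q_r`: `evx r (x.comp (mk₀ mrConst)) = rs x = 0`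
(`evx_const`; `Qr` is the stabilizer for the action `conjAct hπ l`), so `x.comp (mk₀ mrConst) = 0` (`evx_inj`).
Then `y := (epow e (l * N)).comp x` satisfies `y.comp (mk₀ mrConst) = 0`, its degree `2 (l N) + 2 κ₁` is
`≥ l N`, so `y = 0` (`loc_inj`, `Vq k Q (l ^ s)` is killed by `l ^ s`: `vq_kill`).  And
`y = (l ^ a) • (epow e κ).comp qm` (`epow_add`, associativity).
-/

set_option autoImplicit false

namespace Pool.MP0c3001.DV

open CategoryTheory CategoryTheory.Abelian Limits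

noncomputable section

variable {k : Type} [CommRing k]

private theorem L3_epow_add {Q : Type} [Group Q] (e : HH k Q (Zt k Q) 2) (b : ℕ) (a : ℕ) :
    ∀ (n : ℕ) (_ : n = a + b) (h : 2 * a + 2 * b = 2 * n),
      (epow e a).comp (epow e b) h = epow e n := by
  induction a with
  | zero =>
    intro n hn h
    obtain rfl : n = b := by omega
    exact Ext.mk₀_id_comp _
  | succ a ih =>
    intro n hn h
    obtain ⟨n', rfl⟩ : ∃ n', n = n' + 1 := ⟨a + b, by omega⟩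
    have e1 : (epow e (a + 1)).comp (epow e b) h =
        e.comp ((epow e a).comp (epow e b) (show 2 * a + 2 * b = 2 * n' by omega)) (by omega) :=
      Ext.comp_assoc (a₁₂ := 2 * (a + 1)) (a₂₃ := 2 * n') _ _ _ (by omega) (by omega) (by omega)
    rw [e1, ih n' (by omega) (by omega)]
    rfl

theorem epow_add {Q : Type} [Group Q] (e : HH k Q (Zt k Q) 2) (a b : ℕ)
    (h : 2 * a + 2 * b = 2 * (a + b)) : (epow e a).comp (epow e b) h = epow e (a + b) := by
  exact L3_epow_add e b a (a + b) rfl h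

theorem epow_nsmul {Q : Type} [Group Q] (e : HH k Q (Zt k Q) 2) (n a : ℕ) :
    epow (n • e) a = (n ^ a) • epow e a := by
  induction a with
  | zero => rw [pow_zero, one_nsmul]; rfl
  | succ a ih =>
    have e1 : epow (n • e) (a + 1) = (n • e).comp (epow (n • e) a) (by omega) := rfl
    have e2 : epow e (a + 1) = e.comp (epow e a) (by omega) := rfl
    rw [e1, e2, ih, nsmul_comp', comp_nsmul', ← mul_nsmul', pow_succ, mul_comm n (n ^ a)]

private theorem L3_push {Q₁ Q' : Type} [Group Q₁] [Group Q'] (φ : Q' →* Q₁)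
    (e₁ : HH k Q₁ (Zt k Q₁) 2) (e' : HH k Q' (Zt k Q') 2) (l : ℕ)
    (he : l • e' = (rs φ e₁ : HH k Q' (Zt k Q') 2)) (n a κ : ℕ)
    (h : (l ^ a) • ((epow e₁ κ).comp (Ext.mk₀ (qm k Q₁ n)) (add_zero (2 * κ))) = 0) :
    (l ^ (a + κ)) • ((epow e' κ).comp (Ext.mk₀ (qm k Q' n)) (add_zero (2 * κ))) = 0 := by
  have h3 : (rs φ (0 : HH k Q₁ (Vq k Q₁ n) (2 * κ)) : HH k Q' (Vq k Q' n) (2 * κ)) = 0 := by
    have := rs_nsmul φ 0 (0 : HH k Q₁ (Vq k Q₁ n) (2 * κ))
    rw [zero_nsmul, zero_nsmul] at this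
    exact this
  obtain ⟨X, hX⟩ : ∃ X : HH k Q' (Zt k Q') (2 * κ), X = rs φ (epow e₁ κ) := ⟨_, rfl⟩
  have h2 : (l ^ a) • (X.comp (Ext.mk₀ (qm k Q' n)) (add_zero (2 * κ))) = 0 := by
    have a1 : (rs φ ((epow e₁ κ).comp (Ext.mk₀ (qm k Q₁ n)) (add_zero (2 * κ))) :
        HH k Q' (Vq k Q' n) (2 * κ)) = X.comp (Ext.mk₀ (qm k Q' n)) (add_zero (2 * κ)) := by
      subst hX
      exact rs_qm φ n (epow e₁ κ)
    rw [← a1]
    have a2 := congrArg (fun x => (rs φ x : HH k Q' (Vq k Q' n) (2 * κ))) h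
    exact ((rs_nsmul φ (l ^ a) _).symm.trans a2).trans h3
  have hX2 : X = l ^ κ • epow e' κ := by
    rw [hX, rs_epow, ← he, epow_nsmul]
  rw [hX2, nsmul_comp', ← mul_nsmul', ← pow_add] at h2
  exact h2

private theorem L3_pull {Q Q' : Type} [Group Q] [Group Q'] (φ : Q' →* Q)
    (e : HH k Q (Zt k Q) 2) (e' : HH k Q' (Zt k Q') 2)
    (he : (rs φ e : HH k Q' (Zt k Q') 2) = e') (N n κ : ℕ) :
    (rs φ (n • ((epow e κ).comp (Ext.mk₀ (qm k Q N)) (add_zero (2 * κ)))) :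
      HH k Q' (Vq k Q' N) (2 * κ)) =
      n • ((epow e' κ).comp (Ext.mk₀ (qm k Q' N)) (add_zero (2 * κ))) := by
  subst he
  have a1 := rs_qm φ N (epow e κ)
  have a2 := rs_epow φ e κ
  rw [a2] at a1
  exact (rs_nsmul φ n _).trans (congrArg (fun x => n • x) a1)

theorem noroot_pow (hk : Function.Bijective (Int.cast : ℤ → k)) (l : ℕ) (hl : l.Prime) (m N : ℕ)
    (hlm : ¬ l ∣ m) (hN : 1 ≤ N) (K : ℕ) :
    ∃ a κ : ℕ, ∀ (G Q : Type) [Group G] [Group Q] (π : G →* Q) (z : G), CycExt π z →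
      Kills k G m N → (∀ x : G, x ^ (l ^ K) ≠ z) →
      ∀ (c : Q → Q → ℤ) (hc : IsCoc c), FitsZ π z c → ∀ s : ℕ,
        (l ^ a) • ((epow (ecl k hc) κ).comp (Ext.mk₀ (qm k Q (l ^ s))) (add_zero (2 * κ))) = 0 := by
  induction K with
  | zero =>
    refine ⟨0, 0, ?_⟩
    intro G Q _ _ π z hπ hK hr
    exact absurd (by rw [pow_zero, pow_one]) (hr z)
  | succ K ih =>
    obtain ⟨a₁, κ₁, ih⟩ := ih
    refine ⟨a₁ + κ₁, l * N + κ₁, ?_⟩
    intro G Q _ _ π z hπ hK hr c hc hf s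
    have key : ∀ r : Rt z l, (rs (Qr hπ l r).subtype
        ((l ^ (a₁ + κ₁)) • ((epow (ecl k hc) κ₁).comp (Ext.mk₀ (qm k Q (l ^ s)))
          (add_zero (2 * κ₁)))) :
        HH k (Qr hπ l r) (Vq k (Qr hπ l r) (l ^ s)) (2 * κ₁)) = 0 := by
      intro r
      obtain ⟨Q₁, _, π₁, hπ₁⟩ := root_cyc hπ hl.pos r
      obtain ⟨c₁, hc₁, hf₁⟩ := exists_fitsZ hπ₁
      have hr₁ : ∀ x : Cn r.1, x ^ (l ^ K) ≠ rc r := by
        intro x hx
        apply hr x.1
        have h1 : x.1 ^ (l ^ K) = r.1 := congrArg Subtype.val hx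
        rw [pow_succ, pow_mul, h1, r.2]
      have h1 := ih (Cn r.1) Q₁ π₁ (rc r) hπ₁ (hK.subgroup _) hr₁ c₁ hc₁ hf₁ s
      obtain ⟨φ, hφ, he⟩ := euler_root (k := k) hπ r hc hf hπ₁ hc₁ hf₁
      have h4 := L3_push φ (ecl k hc₁) _ l he (l ^ s) a₁ κ₁ h1
      exact (L3_pull (Qr hπ l r).subtype (ecl k hc) _ rfl (l ^ s) (l ^ (a₁ + κ₁)) κ₁).trans h4
    have hx : ((l ^ (a₁ + κ₁)) • ((epow (ecl k hc) κ₁).comp (Ext.mk₀ (qm k Q (l ^ s)))
        (add_zero (2 * κ₁)))).comp (Ext.mk₀ (mrConst hπ l (Vq k Q (l ^ s)))) (add_zero (2 * κ₁)) = 0 := by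
      apply @evx_inj k _ Q _ (Rt z l) (conjAct hπ l) (Vq k Q (l ^ s)) (2 * κ₁)
      intro r
      exact (@evx_const k _ Q _ (Rt z l) (conjAct hπ l) (Vq k Q (l ^ s)) r (2 * κ₁) _).trans (key r)
    have hd : 2 * (l * N) + 2 * κ₁ = 2 * (l * N + κ₁) := by ring
    have hy : (epow (ecl k hc) (l * N)).comp
        ((l ^ (a₁ + κ₁)) • ((epow (ecl k hc) κ₁).comp (Ext.mk₀ (qm k Q (l ^ s)))
          (add_zero (2 * κ₁)))) hd = 0 := by
      have hlN : l * N ≤ 2 * (l * N + κ₁) := by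
        have : l * N ≤ 2 * (l * N) := by omega
        omega
      apply loc_inj hk hπ hl hlm hN hK (Vq k Q (l ^ s)) s (vq_kill (l ^ s)) _ hlN
      have e1 : ((epow (ecl k hc) (l * N)).comp
          ((l ^ (a₁ + κ₁)) • ((epow (ecl k hc) κ₁).comp (Ext.mk₀ (qm k Q (l ^ s)))
            (add_zero (2 * κ₁)))) hd).comp (Ext.mk₀ (mrConst hπ l (Vq k Q (l ^ s)))) (add_zero _) =
          (epow (ecl k hc) (l * N)).comp
          (((l ^ (a₁ + κ₁)) • ((epow (ecl k hc) κ₁).comp (Ext.mk₀ (qm k Q (l ^ s)))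
            (add_zero (2 * κ₁)))).comp (Ext.mk₀ (mrConst hπ l (Vq k Q (l ^ s)))) (add_zero _)) hd :=
        Ext.comp_assoc (a₂₃ := 2 * κ₁) _ _ _ _ (by omega) (by omega)
      rw [e1, hx, Ext.comp_zero]
    rw [comp_nsmul'] at hy
    have e2 : (epow (ecl k hc) (l * N)).comp ((epow (ecl k hc) κ₁).comp
        (Ext.mk₀ (qm k Q (l ^ s))) (add_zero (2 * κ₁))) hd =
        (epow (ecl k hc) (l * N + κ₁)).comp (Ext.mk₀ (qm k Q (l ^ s))) (add_zero _) := by
      rw [← epow_add (ecl k hc) (l * N) κ₁ hd]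
      exact (Ext.comp_assoc (a₁₂ := 2 * (l * N + κ₁)) (a₂₃ := 2 * κ₁) _ _ _ _ _ (by omega)).symm
    rw [e2] at hy
    exact hy

end

end Pool.MP0c3001.DV
end

section

/-!
# L4: if `z` has no root of order `l ^ K`, then some `(m', d)` holds for `G/z`

`exists_fitsZ` gives `c`; `e = ecl k hc`.  `noroot_pow`: `(l ^ a) • (epow e κ)` is divisible by all `l ^ s`
(`dvd_of_qm` for `x = (l ^ a) • epow e κ`, `nsmul_comp'`), and `H^{2κ}(Q;k)` is finitely generated over `ℤ` (`FgCoh` for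
`V = Zt k Q`, `k` is finite over itself), so `t • (l ^ a) • epow e κ = 0` with `t > 0`
(`torsion_of_divisible`).  `step_kills` with `e`, `m`, `d = N`, the hypothesis from `gysin_inj` (`FitsZ` gives `Fits` for
the cocycle cast to `k`: `ecl k hc = cls (hc.map ..)`; `N ≥ 1`), `n = κ`, `m' = t * l ^ a`:
`Kills k Q (t * l ^ a * m ^ κ) N`; `m > 0` since `l ∤ m`.
-/

set_option autoImplicit false

namespace Pool.MP0c3001.DV

open CategoryTheory CategoryTheory.Abelian Limits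

noncomputable section

variable {k : Type} [CommRing k]

theorem kills_of_noroot (hk : Function.Bijective (Int.cast : ℤ → k)) {G Q : Type} [Group G]
    [Group Q] {π : G →* Q} {z : G} (hπ : CycExt π z) {l : ℕ} (hl : l.Prime) {m N : ℕ}
    (hlm : ¬ l ∣ m) (hN : 1 ≤ N) (hK : Kills k G m N) (hfg : FgCoh k Q) (K : ℕ)
    (hr : ∀ x : G, x ^ (l ^ K) ≠ z) : ∃ m' d : ℕ, 0 < m' ∧ Kills k Q m' d := by
  obtain ⟨c, hc, hf⟩ := exists_fitsZ hπ
  obtain ⟨a, κ, hnr⟩ := noroot_pow hk l hl m N hlm hN K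
  have h1 := hnr G Q π z hπ hK hr c hc hf
  have hfit : Fits π z (fun q p => (Int.castAddHom k) (c q p)) := by
    obtain ⟨s, hs, j, hj, hcj⟩ := hf
    refine ⟨s, hs, j, hj, fun q' q => ?_⟩
    change ((c q' q : ℤ) : k) = _
    rw [hcj]
  have hdiv : ∀ s : ℕ, ∃ y : HH k Q (Zt k Q) (2 * κ),
      (l ^ a) • epow (ecl k hc) κ = (l ^ s) • y := by
    intro s
    have h2 : Dvd (l ^ s) ((l ^ a) • epow (ecl k hc) κ) := by
      apply dvd_of_qm hk (pow_pos hl.pos s)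
      rw [nsmul_comp']
      exact h1 s
    exact h2
  have hkf : Module.Finite k (Zt k Q).V := Module.Finite.self k
  have : Module.Finite ℤ (HH k Q (Zt k Q) (2 * κ)) := hfg (Zt k Q) hkf _
  obtain ⟨t, ht, hx⟩ := torsion_of_divisible hl.two_le _ hdiv
  have hm : 0 < m := by
    rcases Nat.eq_zero_or_pos m with h | h
    · exact absurd (h ▸ dvd_zero l) hlm
    · exact h
  refine ⟨t * l ^ a * m ^ κ, N, ?_, ?_⟩
  · exact Nat.mul_pos (Nat.mul_pos ht (pow_pos hl.pos a)) (pow_pos hm κ)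
  · refine step_kills (ecl k hc) m N ?_ κ (t * l ^ a) ?_
    · intro V i hi α hα
      exact gysin_inj hπ (hc.map (Int.castAddHom k)) hfit hK V i (by omega) (by omega) α hα
    · rw [mul_nsmul']
      exact hx

end

end Pool.MP0c3001.DV
end

section

/-!
# G3: `ν ^ N`, `ν = Y ^ l - Y X ^ (l-1)`, is divisible by `l` in large degrees

`X = opE e₀ (Zt k Q)`, `Y = opE e₁ (Zt k Q)`.  Let `W = Vq k Q l`, `T = postM (qm k Q l)`; `T` commutes with `opE` (`opE_postM`),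
so `T (ν ^ N x) = ν_W ^ N (T x)` with `ν_W = Y_W ^ l - Y_W X_W ^ (l-1)`, `X_W = opE e₀ W`, ... (induction: powers, sums and
products of operators which intertwine).  Let `u = T (ν ^ N x)`; by `dvd_of_qm` it suffices to show `u i = 0`.
`loc_inj` (`V = W`, `s = 1`, `vq_kill`): it suffices that `(u i).comp (mk₀ (mrConst hϖ l W)) = 0`; by `evx_inj`, `evx_const` it
suffices that `rs (Qr hϖ l r).subtype (u i) = 0` for all `r`.  This is the degree `i` part of `resM _ W u =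
ν_r ^ N (resM _ W (T x))` (`opE_resM`), where `ν_r = Y_r ^ l - Y_r X_r ^ (l-1)`, `X_r = opE (rs e₀) (res W)`, .. in
`Module.End ℤ (TH k (Qr hϖ l r) (res W))`.  In this ring `l = 0` (`th_kill`), `X_r, Y_r` commute (`opE_commute`, `rs_comp`
applied to `hcomm`), and `(Y_r - a • X_r) ^ N = opE (rs (e₁ - a • e₀)) ^ N = 0` (`opE_add`, `opE_zsmul`, `rs_add`, `rs_zsmul`,
`opE_pow_zero` with the hypothesis `h r`).  `nu_pow_zero`.
-/

set_option autoImplicit false

namespace Pool.MP0c3001.DV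

open CategoryTheory CategoryTheory.Abelian Limits

noncomputable section

variable {k : Type} [CommRing k] {G Q : Type} [Group G] [Group Q] {z : G} {l : ℕ}

private theorem g3_pow {M M' : Type} [AddCommGroup M] [AddCommGroup M'] (T : M →ₗ[ℤ] M')
    (A : Module.End ℤ M) (A' : Module.End ℤ M') (h : ∀ x, T (A x) = A' (T x)) (n : ℕ) (x : M) :
    T ((A ^ n) x) = (A' ^ n) (T x) := by
  induction n generalizing x with
  | zero => rfl
  | succ n ih =>
    rw [pow_succ, pow_succ, Module.End.mul_apply, Module.End.mul_apply, ih, h]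

private theorem g3_nu {M M' : Type} [AddCommGroup M] [AddCommGroup M'] (T : M →ₗ[ℤ] M')
    (X Y : Module.End ℤ M) (X' Y' : Module.End ℤ M') (hX : ∀ x, T (X x) = X' (T x))
    (hY : ∀ x, T (Y x) = Y' (T x)) (l N : ℕ) (x : M) :
    T (((Y ^ l - Y * X ^ (l - 1)) ^ N) x) = ((Y' ^ l - Y' * X' ^ (l - 1)) ^ N) (T x) := by
  apply g3_pow
  intro x
  rw [LinearMap.sub_apply, LinearMap.sub_apply, map_sub, g3_pow T Y Y' hY, Module.End.mul_apply,
    Module.End.mul_apply, hY, g3_pow T X X' hX]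

private def g3_rz (φ : Q →* G) (e : HH k G (Zt k G) 2) : HH k Q (Zt k Q) 2 := rs φ e

private theorem g3_rz_sub (φ : Q →* G) (e₀ e₁ : HH k G (Zt k G) 2) (a : ℤ) :
    g3_rz φ (e₁ - a • e₀) = g3_rz φ e₁ + (-a) • g3_rz φ e₀ := by
  have h2 : e₁ - a • e₀ = e₁ + (-a) • e₀ := by rw [neg_smul, sub_eq_add_neg]
  rw [h2]
  refine Eq.trans (rs_add φ e₁ ((-a) • e₀)) ?_
  have h3 : g3_rz φ ((-a) • e₀) = (-a) • g3_rz φ e₀ := rs_zsmul φ (-a) e₀
  exact congrArg (fun t : HH k Q (Zt k Q) 2 => g3_rz φ e₁ + t) h3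

private theorem g3_res (φ : Q →* G) (e₀ e₁ : HH k G (Zt k G) 2)
    (hcomm : e₀.comp e₁ (rfl : 2 + 2 = 4) = e₁.comp e₀ (rfl : 2 + 2 = 4)) (a : ℤ) (N : ℕ)
    (hl : l.Prime) (W : Rep.{0} k Q) (hW : ∀ v : W.V, l • v = 0)
    (h : Dvd l (epow (g3_rz φ (e₁ - a • e₀)) N)) :
    ((opE (g3_rz φ e₁) W) ^ l - opE (g3_rz φ e₁) W * (opE (g3_rz φ e₀) W) ^ (l - 1)) ^ N = 0 := by
  apply nu_pow_zero l hl (th_kill W l hW) _ _ _ a N
  · have h3 := opE_pow_zero _ N l h W hW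
    rw [g3_rz_sub, opE_add, opE_zsmul, neg_smul, ← sub_eq_add_neg] at h3
    exact h3
  · apply opE_commute
    have h1 := congrArg (fun t => rs φ t) hcomm
    have h2 := rs_comp φ e₀ e₁ (rfl : 2 + 2 = 4)
    have h3 := rs_comp φ e₁ e₀ (rfl : 2 + 2 = 4)
    exact (h2.symm.trans h1).trans h3

theorem nu_dvd (hk : Function.Bijective (Int.cast : ℤ → k)) {ϖ : G →* Q} (hϖ : CycExt ϖ z)
    (hl : l.Prime) {m N : ℕ} (hlm : ¬ l ∣ m) (hN : 1 ≤ N) (hK : Kills k G m N)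
    (e₀ e₁ : HH k Q (Zt k Q) 2)
    (hcomm : e₀.comp e₁ (rfl : 2 + 2 = 4) = e₁.comp e₀ (rfl : 2 + 2 = 4))
    (h : ∀ r : Rt z l, ∃ a : ℤ, Dvd l
      (epow (rs (Qr hϖ l r).subtype (e₁ - a • e₀) : HH k (Qr hϖ l r) (Zt k (Qr hϖ l r)) 2) N))
    (x : TH k Q (Zt k Q)) (i : ℕ) (hi : l * N ≤ i) :
    Dvd l ((((opE e₁ (Zt k Q)) ^ l - opE e₁ (Zt k Q) * (opE e₀ (Zt k Q)) ^ (l - 1)) ^ N) x i) := by
  apply dvd_of_qm hk hl.pos
  have h1 := g3_nu (postM (qm k Q l)) (opE e₀ (Zt k Q)) (opE e₁ (Zt k Q)) (opE e₀ (Vq k Q l))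
    (opE e₁ (Vq k Q l)) (fun y => opE_postM e₀ (qm k Q l) y) (fun y => opE_postM e₁ (qm k Q l) y)
    l N x
  have h2 := congrFun h1 i
  refine Eq.trans h2 ?_
  apply loc_inj hk hϖ hl hlm hN hK (Vq k Q l) 1 (fun v => by rw [pow_one]; exact vq_kill l v) i hi
  let _ : MulAction Q (Rt z l) := conjAct hϖ l
  apply evx_inj (k := k) (Rt z l) (Vq k Q l)
  intro r
  rw [evx_const]
  obtain ⟨a, ha⟩ := h r
  have h3 := g3_nu (resM (Qr hϖ l r).subtype (Vq k Q l)) (opE e₀ (Vq k Q l)) (opE e₁ (Vq k Q l))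
    (opE (g3_rz (Qr hϖ l r).subtype e₀) _) (opE (g3_rz (Qr hϖ l r).subtype e₁) _)
    (fun y => opE_resM _ e₀ _ y) (fun y => opE_resM _ e₁ _ y) l N (postM (qm k Q l) x)
  have h4 := g3_res (Qr hϖ l r).subtype e₀ e₁ hcomm a N hl
    ((Rep.resFunctor.{0} (k := k) (Qr hϖ l r).subtype).obj (Vq k Q l))
    (fun v => vq_kill (Q := Q) l v) ha
  rw [h4] at h3
  exact congrFun h3 i

end

end Pool.MP0c3001.DV
end
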