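import Pool.Agent.Lib.MP_0c3001_gt.Mg.G007

section

/-!
# The centre modulo the finite residual
-/

set_option autoImplicit false

namespace Pool.MP0c3001

open CategoryTheory CategoryTheory.Abelian Limits LatticeBound

noncomputable section

section AG

variable {A : Type} [AddCommGroup A]

theorem card_incongruent (htf : ∀ (m : ℕ) (c : A), 0 < m → m • c = 0 → c = 0) (n : ℕ)
    (hn : ∀ f : (Fin (n + 1) → ℤ) →+ A, ¬ Function.Injective f) (L : ℕ) (hL : 0 < L)
    (T : Finset A) (hT : ∀ a ∈ T, ∀ a' ∈ T, (∃ b, a - a' = L • b) → a = a') :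
    T.card ≤ L ^ n := by
  classical
  let B : Submodule ℤ A := Submodule.span ℤ (T : Set A)
  have hfin : Module.Finite ℤ B := Module.Finite.span_of_finite ℤ T.finite_toSet
  have htfB : Module.IsTorsionFree ℤ B := by
    have hA : Module.IsTorsionFree ℤ A := by
      refine ⟨fun z hz => ?_⟩
      have hz0 : z ≠ 0 := hz.ne_zero
      intro a b hab
      have hab' : z • a = z • b := hab
      have h1 : z • (a - b) = 0 := by rw [smul_sub, hab', sub_self]
      have h2 : z.natAbs • (a - b) = 0 := by
        rcases Int.natAbs_eq z with h3 | h3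
        · rw [h3, natCast_zsmul] at h1
          exact h1
        · rw [h3, neg_smul, natCast_zsmul, neg_eq_zero] at h1
          exact h1
      exact sub_eq_zero.1 (htf _ _ (Int.natAbs_pos.2 hz0) h2)
    infer_instance
  have hfree : Module.Free ℤ B := Module.free_of_finite_type_torsion_free'
  let b := Module.finBasis ℤ B
  have hle : Module.finrank ℤ B ≤ n := by
    by_contra h
    have h' : n + 1 ≤ Module.finrank ℤ B := by omega
    let f : (Fin (n + 1) → ℤ) →+ A :=
      { toFun := fun v => ∑ i, v i • ((b (Fin.castLE h' i) : B) : A)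
        map_zero' := by simp
        map_add' := fun v w => by simp [add_smul, Finset.sum_add_distrib] }
    refine hn f ?_
    rw [injective_iff_map_eq_zero]
    intro v hv
    have hli := b.linearIndependent.comp (Fin.castLE h') (Fin.castLE_injective h')
    have hv' : ∑ i, v i • (b ∘ Fin.castLE h') i = 0 := by
      apply Subtype.ext
      have h1 : ∑ i, v i • ((b (Fin.castLE h' i) : B) : A) = 0 := hv
      rw [Submodule.coe_zero, ← h1]
      simp
    funext i
    exact Fintype.linearIndependent_iff.1 hli v hv' i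
  have hmem : ∀ a ∈ T, a ∈ B := fun a ha => Submodule.subset_span ha
  have : NeZero L := ⟨hL.ne'⟩
  let g : T → (Fin (Module.finrank ℤ B) → ZMod L) := fun a i =>
    ((b.repr ⟨a.1, hmem a.1 a.2⟩ i : ℤ) : ZMod L)
  have hg : Function.Injective g := by
    intro a a' haa
    apply Subtype.ext
    refine hT a.1 a.2 a'.1 a'.2 ?_
    have h1 : ∀ i, (L : ℤ) ∣ b.repr ⟨a.1, hmem a.1 a.2⟩ i - b.repr ⟨a'.1, hmem a'.1 a'.2⟩ i := by
      intro i
      have h2 := congrFun haa i
      have h3 : (((b.repr ⟨a.1, hmem a.1 a.2⟩ i - b.repr ⟨a'.1, hmem a'.1 a'.2⟩ i : ℤ)) :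
          ZMod L) = 0 := by
        rw [Int.cast_sub, sub_eq_zero]
        exact h2
      exact (ZMod.intCast_zmod_eq_zero_iff_dvd _ _).1 h3
    choose v hv using h1
    refine ⟨((∑ i, v i • b i : B) : A), ?_⟩
    have h4 : (⟨a.1, hmem a.1 a.2⟩ : B) - ⟨a'.1, hmem a'.1 a'.2⟩ = L • ∑ i, v i • b i := by
      apply b.repr.injective
      ext i
      rw [map_sub, Finsupp.sub_apply, hv, map_nsmul, Finsupp.smul_apply, map_sum,
        Finsupp.finsetSum_apply]
      rw [Finset.sum_eq_single i]
      · rw [map_zsmul, Finsupp.smul_apply, b.repr_self, Finsupp.single_eq_same]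
        simp
      · intro j _ hj
        rw [map_zsmul, Finsupp.smul_apply, b.repr_self, Finsupp.single_eq_of_ne hj.symm, smul_zero]
      · intro h; exact absurd (Finset.mem_univ _) h
    have h5 := congrArg (Subtype.val) h4
    exact h5
  have h1 := Fintype.card_le_of_injective g hg
  rw [Fintype.card_coe, Fintype.card_fun, ZMod.card, Fintype.card_fin] at h1
  exact h1.trans (Nat.pow_le_pow_right hL hle)

theorem exists_finite_reps (htf : ∀ (m : ℕ) (c : A), 0 < m → m • c = 0 → c = 0) (n : ℕ)
    (hn : ∀ f : (Fin (n + 1) → ℤ) →+ A, ¬ Function.Injective f) (L : ℕ) (hL : 0 < L) :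
    ∃ S : Finset A, ∀ a : A, ∃ s ∈ S, ∃ b, a = s + L • b := by
  classical
  by_contra hcon
  push Not at hcon
  have key : ∀ j : ℕ, ∃ T : Finset A, T.card = j ∧
      ∀ a ∈ T, ∀ a' ∈ T, (∃ b, a - a' = L • b) → a = a' := by
    intro j
    induction j with
    | zero => exact ⟨∅, rfl, by simp⟩
    | succ j ih =>
      obtain ⟨T, hT, hTT⟩ := ih
      obtain ⟨a, ha⟩ := hcon T
      have haT : a ∉ T := by
        intro h
        exact ha a h 0 (by simp)
      refine ⟨insert a T, by rw [Finset.card_insert_of_notMem haT, hT], ?_⟩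
      intro x hx y hy ⟨b, hb⟩
      rcases Finset.mem_insert.1 hx with rfl | hx'
      · rcases Finset.mem_insert.1 hy with rfl | hy'
        · rfl
        · exact absurd (by rw [← hb]; abel) (ha y hy' b)
      · rcases Finset.mem_insert.1 hy with rfl | hy'
        · refine absurd ?_ (ha x hx' (-b))
          rw [smul_neg, ← hb]; abel
        · exact hTT x hx' y hy' ⟨b, hb⟩
  obtain ⟨T, hT, hTT⟩ := key (L ^ n + 1)
  have := card_incongruent htf n hn L hL T hTT
  omega

end AG

variable {k : Type} [CommRing k]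

/-- **Theorem P** (cohomological form): a central subgroup is finitely generated modulo the finite
residual. -/
theorem center_mod_residual (hk : Function.Bijective (Int.cast : ℤ → k)) {G : Type} [Group G]
    (n : ℕ) (hcd : Kills k G 1 (n + 1)) (hfg : FgCoh k G) (C : Subgroup G)
    (hC : C ≤ Subgroup.center G) :
    ∃ F : Subgroup G, F.FG ∧ F ≤ C ∧
      ∀ c ∈ C, ∃ f ∈ F, ∀ H : Subgroup G, H.FiniteIndex → f⁻¹ * c ∈ H := by
  classical
  have hcomm : ∀ a b : C, a * b = b * a := fun a b =>
    Subtype.ext ((Subgroup.mem_center_iff.1 (hC b.2)) a.1)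
  let _ : CommGroup C := { (inferInstance : Group C) with mul_comm := hcomm }
  -- `G` is torsion free
  have htf : ∀ (m : ℕ) (c : Additive C), 0 < m → m • c = 0 → c = 0 := by
    intro m c hm hmc
    have h1 : c.toMul ^ m = 1 := hmc
    have h2 : (c.toMul : G) ^ m = 1 := by rw [← Subgroup.coe_pow, h1]; rfl
    have h3 : IsOfFinOrder (c.toMul : G) := isOfFinOrder_iff_pow_eq_one.2 ⟨m, hm, h2⟩
    have h4 := orderOf_dvd_of_kills hk hcd (c.toMul : G) h3
    have h5 : orderOf (c.toMul : G) = 1 := Nat.dvd_one.1 h4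
    have h6 : (c.toMul : G) = 1 := orderOf_eq_one_iff.1 h5
    exact Additive.toMul.injective (Subtype.ext h6)
  have hrank : ∀ f : (Fin (n + 1) → ℤ) →+ Additive C, ¬ Function.Injective f := by
    intro f hf
    let f' : Zr (n + 1) →* G := C.subtype.comp
      ({ toFun := fun v => (f v.toAdd).toMul
         map_one' := by
           have : f 0 = 0 := map_zero f
           exact this
         map_mul' := fun a b => by
           have : f (a.toAdd + b.toAdd) = f a.toAdd + f b.toAdd := map_add f _ _
           exact this } : Zr (n + 1) →* C)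
    refine no_embed hk hcd f' ?_
    intro a b hab
    have h1 : (f a.toAdd).toMul = (f b.toAdd).toMul := Subtype.ext hab
    exact hf (show f a.toAdd = f b.toAdd from h1)
  -- quotients with property `P`
  let P : ℕ → Prop := fun r => ∃ (H : Type) (_ : Group H) (p : G →* H),
    Function.Surjective p ∧ p.ker ≤ C ∧ Nonempty (Additive p.ker ≃+ (Fin r → ℤ)) ∧
      FgCoh k H ∧ ∃ m, 0 < m ∧ Kills k H m (n + 1)
  have hP0 : P 0 := by
    refine ⟨G, inferInstance, MonoidHom.id G, Function.surjective_id, ?_, ?_, hfg, 1, one_pos, hcd⟩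
    · intro g hg
      have : g = 1 := hg
      rw [this]
      exact C.one_mem
    · refine ⟨⟨⟨fun _ => 0, fun _ => 0, ?_, ?_⟩, ?_⟩⟩
      · intro a
        apply Additive.toMul.injective
        apply Subtype.ext
        have : (a.toMul : G) = 1 := a.toMul.2
        exact this.symm
      · intro a
        exact Subsingleton.elim _ _
      · intro a b
        exact Subsingleton.elim _ _
  have hPn : ∀ r, n < r → ¬ P r := by
    rintro r hr ⟨H, _, p, -, hpC, ⟨e⟩, -⟩
    let ι : (Fin (n + 1) → ℤ) →+ (Fin r → ℤ) :=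
      { toFun := fun v i => if h : (i : ℕ) < n + 1 then v ⟨i, h⟩ else 0
        map_zero' := by
          funext i
          simp
        map_add' := fun v w => by
          funext i
          change (if h : (i : ℕ) < n + 1 then (v + w) ⟨i, h⟩ else 0) =
            (if h : (i : ℕ) < n + 1 then v ⟨i, h⟩ else 0) +
            (if h : (i : ℕ) < n + 1 then w ⟨i, h⟩ else 0)
          by_cases h : (i : ℕ) < n + 1
          · rw [dif_pos h, dif_pos h, dif_pos h]
            rfl
          · rw [dif_neg h, dif_neg h, dif_neg h, add_zero] }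
    have hι : Function.Injective ι := by
      intro v w hvw
      funext i
      have h1 := congrFun hvw (Fin.castLE (by omega) i)
      have h2 : ((Fin.castLE (show n + 1 ≤ r by omega) i : Fin r) : ℕ) < n + 1 := i.2
      change (if h : ((Fin.castLE (show n + 1 ≤ r by omega) i : Fin r) : ℕ) < n + 1 then
        v ⟨_, h⟩ else 0) = (if h : ((Fin.castLE (show n + 1 ≤ r by omega) i : Fin r) : ℕ) < n + 1
        then w ⟨_, h⟩ else 0) at h1
      rw [dif_pos h2, dif_pos h2] at h1
      exact h1
    let f : Additive p.ker →+ Additive C :=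
      { toFun := fun a => Additive.ofMul ⟨a.toMul.1, hpC a.toMul.2⟩
        map_zero' := rfl
        map_add' := fun _ _ => rfl }
    refine hrank ((f.comp e.symm.toAddMonoidHom).comp ι) ?_
    have hf : Function.Injective f := by
      intro a b hab
      have h1 : (⟨a.toMul.1, hpC a.toMul.2⟩ : C) = ⟨b.toMul.1, hpC b.toMul.2⟩ := hab
      have h2 : (a.toMul : G) = (b.toMul : G) := congrArg (fun x : C => (x : G)) h1
      exact Additive.toMul.injective (Subtype.ext h2)
    exact (hf.comp e.symm.injective).comp hι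
  obtain ⟨r, hPr, hPr'⟩ : ∃ r, P r ∧ ¬ P (r + 1) := by
    by_contra hcon
    push Not at hcon
    have h1 : ∀ r, P r := by
      intro r
      induction r with
      | zero => exact hP0
      | succ r ih => exact hcon r ih
    exact hPn (n + 1) (Nat.lt_succ_self n) (h1 _)
  obtain ⟨H, _, p, hp, hpC, ⟨e'⟩, hfgH, m, hm, hkills⟩ := hPr
  obtain ⟨D, hD⟩ := gysin_rk_bound (k := k) (G := H) hk hfgH (n + 1)
  -- the key claim
  have key : ∀ c ∈ C, ∃ t : ℕ, t ∣ m * D.factorial ∧ ∃ u ∈ p.ker,
      ∀ H' : Subgroup G, H'.FiniteIndex → u⁻¹ * c ^ t ∈ H' := by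
    intro c hc
    by_cases hord : ∀ j : ℤ, p c ^ j = 1 → j = 0
    · obtain ⟨Q, _, ϖ, π, hϖ, hcyc, hπ, hπC, e, he⟩ :=
        exists_step p hp C hC hpC e' c hc hord
      have hcen : π.ker ≤ Subgroup.center G := hπC.trans hC
      obtain ⟨s, hs⟩ := exists_isSec π hπ
      have hfits := fits_of (k := k) π p ϖ hϖ hcyc s hs e (Pi.single 0 1) he
      have hcoc := isCoc_cxk k π s hs hcen e (Pi.single 0 1)
      have hfgQ : FgCoh k Q := gysin_fg hk hcyc hcoc hfits hfgH
      have hinj : ∀ (V : Rep.{0} k Q) (i : ℕ), n + 1 ≤ i → ∀ α : HH k Q V i,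
          (ex k π s hs hcen e (Pi.single 0 1)).comp α (show 2 + i = i + 2 by omega) = 0 →
            m • α = 0 := fun V i hi α hα =>
        gysin_inj hcyc hcoc hfits hkills V i (by omega) (by omega) α hα
      have hsurj : ∀ (V : Rep.{0} k Q) (i : ℕ), n + 1 ≤ i → ∀ β : HH k Q V (i + 2),
          ∃ α : HH k Q V i, (ex k π s hs hcen e (Pi.single 0 1)).comp α
            (show 2 + i = i + 2 by omega) = m • β := fun V i hi β =>
        gysin_surj hcyc hcoc hfits hkills V i (by omega) β
      obtain ⟨w, hw, hwres⟩ := barycentre hk π hπ hcen s hs e (Pi.single 0 1) hfgQ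
        (2 * (n + 1)) m hm (fun V => hinj V _ (by omega)) (fun V => hsurj V _ (by omega))
      -- the rank is positive
      have hkfin : Module.Finite k k := inferInstance
      have hfin := hfgQ (Zt k Q) hkfin (2 * (n + 1))
      have hpos : 0 < rk (HH k Q (Zt k Q) (2 * (n + 1))) := by
        refine rk_pos _ (epow (ex k π s hs hcen e (Pi.single 0 1)) (n + 1)) ?_
        intro t ht h0
        apply hPr'
        refine ⟨Q, inferInstance, π, hπ, hπC, ⟨e⟩, hfgQ, t * m ^ (n + 1),
          Nat.mul_pos ht (pow_pos hm _), ?_⟩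
        exact step_kills (ex k π s hs hcen e (Pi.single 0 1)) m _ hinj (n + 1) t h0
      have hle := hD Q ϖ (p c) hcyc _ hcoc hfits hfgQ
      generalize rk (HH k Q (Zt k Q) (2 * (n + 1))) = d at hw hpos hle
      refine ⟨m * d, Nat.mul_dvd_mul_left m (Nat.dvd_factorial hpos hle),
        c ^ (m * d) * (w : G)⁻¹, ?_, ?_⟩
      · have h1 := he w
        rw [hw] at h1
        have h2 : ((m : ℤ) * (d : ℤ)) = ((m * d : ℕ) : ℤ) := by push_cast; ring
        rw [h2, zpow_natCast] at h1
        rw [MonoidHom.mem_ker, map_mul, map_inv, map_pow, h1, mul_inv_cancel]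
      · intro H' hH'
        have h1 : (c ^ (m * d) * (w : G)⁻¹)⁻¹ * c ^ (m * d) = w := by group
        rw [h1]
        exact hwres H' hH'
    · push Not at hord
      obtain ⟨j, hj, hj0⟩ := hord
      have h1 : IsOfFinOrder (p c) := by
        rw [isOfFinOrder_iff_zpow_eq_one]
        exact ⟨j, hj0, hj⟩
      have h2 := orderOf_dvd_of_kills hk hkills _ h1
      have h3 : p c ^ m = 1 := orderOf_dvd_iff_pow_eq_one.1 h2
      refine ⟨m, Dvd.intro _ rfl, c ^ m, ?_, fun H' _ => ?_⟩
      · rw [MonoidHom.mem_ker, map_pow, h3]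
      · rw [inv_mul_cancel]
        exact H'.one_mem
  have hL : 0 < m * D.factorial := Nat.mul_pos hm (Nat.factorial_pos D)
  generalize m * D.factorial = L at key hL
  obtain ⟨S, hS⟩ := exists_finite_reps htf n hrank L hL
  let S' : Set G := (fun a : Additive C => (a.toMul : G)) '' (S : Set (Additive C))
  have hS'fin : S'.Finite := S.finite_toSet.image _
  have hkerfg : p.ker.FG := by
    rw [← Group.fg_iff_subgroup_fg, GroupFG.iff_add_fg]
    have h1 : AddGroup.FG (Fin r → ℤ) := by
      rw [← Module.Finite.iff_addGroup_fg]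
      infer_instance
    exact AddGroup.fg_of_surjective (f := e'.symm.toAddMonoidHom) e'.symm.surjective
  refine ⟨p.ker ⊔ Subgroup.closure S', hkerfg.sup ?_, sup_le hpC ?_, ?_⟩
  · exact ⟨hS'fin.toFinset, by rw [Set.Finite.coe_toFinset]⟩
  · rw [Subgroup.closure_le]
    rintro _ ⟨a, _, rfl⟩
    exact a.toMul.2
  · intro c hc
    obtain ⟨s, hs, b, hb⟩ := hS (Additive.ofMul ⟨c, hc⟩)
    have hcb : c = (s.toMul : G) * (b.toMul : G) ^ L := by
      have h1 := congrArg (fun a : Additive C => (a.toMul : G)) hb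
      exact h1
    obtain ⟨t, htL, u, hu, hures⟩ := key (b.toMul : G) b.toMul.2
    obtain ⟨q, hq⟩ := htL
    refine ⟨(s.toMul : G) * u ^ q, Subgroup.mul_mem _ ?_ ?_, ?_⟩
    · exact Subgroup.mem_sup_right (Subgroup.subset_closure ⟨s, hs, rfl⟩)
    · exact Subgroup.mem_sup_left (p.ker.pow_mem hu q)
    · intro H' hH'
      have hucen : ∀ g : G, Commute u g := fun g =>
        ((Subgroup.mem_center_iff.1 (hC (hpC hu))) g).symm
      have h1 : ((s.toMul : G) * u ^ q)⁻¹ * c = (u⁻¹ * (b.toMul : G) ^ t) ^ q := by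
        have h2 : (u⁻¹ * (b.toMul : G) ^ t) ^ q = (u⁻¹) ^ q * ((b.toMul : G) ^ t) ^ q :=
          (Commute.inv_left (hucen _)).mul_pow q
        rw [h2, ← pow_mul, ← hq, hcb, mul_inv_rev, inv_pow, mul_assoc, inv_mul_cancel_left]
      rw [h1]
      exact H'.pow_mem (hures H' hH') q

end

end Pool.MP0c3001
end

section

/-!
# G6a: two facts on quotients by free abelian central subgroups

* `fgCoh_quot`: induction over `r` (for all `Q`), as in the theorem `claim` (Main.lean), only the part on `FgCoh`:
  `r = 0`: `FgCoh.of_bijective`; `r + 1`: `exists_isSec`, `primitive_data` for `x = v = Pi.single 0 1`, `gysin_fg`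
  (`isCoc_cxk`), the induction hypothesis for `p : G →* G'` (`p.ker ≤ π.ker ≤ center`).
* `fg_of_good`: copy the theorems `center_fg` (Main.lean) and `center_mod_residual` (ProfMain.lean): `C` is
  commutative and torsion free (`orderOf_dvd_of_kills` with `m = 1`), it contains no `ℤ^(n+1)` (`no_embed`, see the
  `hrank` part of `center_mod_residual`; turn an isomorphism `U ≃+ (Fin (n+1) → ℤ)` into an injective map);
  `exists_maximal_free` gives `U ≅ ℤ^r` with `C/U` torsion; the quotient `G ⧸ U'` (part `hquot` of `center_fg`) has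
  `p.ker ≤ C`, `p.ker ≅ ℤ^r`; by `hgood` some `m > 0` kills its cohomology in large degrees, so the image of every
  `c ∈ C`, which has finite order, has order dividing `m`; so `m • c ∈ U`, and `fg_of_bounded` (end of `center_fg`).
-/

set_option autoImplicit false

namespace Pool.MP0c3001.DV

open CategoryTheory CategoryTheory.Abelian Limits

noncomputable section

variable {k : Type} [CommRing k]

theorem fgCoh_quot (hk : Function.Bijective (Int.cast : ℤ → k)) {G : Type} [Group G]
    (hfg : FgCoh k G) (r : ℕ) :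
    ∀ (Q : Type) [Group Q] (π : G →* Q), Function.Surjective π → π.ker ≤ Subgroup.center G →
      Nonempty (Additive π.ker ≃+ (Fin r → ℤ)) → FgCoh k Q := by
  induction r with
  | zero =>
    intro Q _ π hπ _ ⟨e⟩
    have hinj : Function.Injective π := by
      rw [injective_iff_map_eq_one]
      intro g hg
      have h1 : (Additive.ofMul (⟨g, hg⟩ : π.ker)) = 0 := e.injective (Subsingleton.elim _ _)
      exact congrArg Subtype.val (Additive.ofMul.injective h1)
    exact hfg.of_bijective π ⟨hinj, hπ⟩
  | succ r ih =>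
    intro Q _ π hπ hcen ⟨e⟩
    obtain ⟨s, hs⟩ := exists_isSec π hπ
    have hx0 : ∑ j, (Pi.single 0 1 : Fin (r + 1) → ℤ) j *
        (Pi.single 0 1 : Fin (r + 1) → ℤ) j = 1 := by
      rw [Finset.sum_eq_single 0]
      · simp
      · intro b _ hb; simp [hb]
      · simp
    obtain ⟨G', hG', p, ϖ, z, hp, hpker, hpe, hcyc, hfits⟩ :=
      primitive_data k π hπ hcen s hs e _ _ hx0
    have hfg' := ih G' p hp (hpker.trans hcen) hpe
    exact gysin_fg hk hcyc (isCoc_cxk k π s hs hcen e _) hfits hfg'

theorem fg_of_good (hk : Function.Bijective (Int.cast : ℤ → k)) {G : Type} [Group G] (n : ℕ)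
    (hcd : Kills k G 1 (n + 1)) (C : Subgroup G) (hC : C ≤ Subgroup.center G)
    (hgood : ∀ (r : ℕ) (Q : Type) [Group Q] (p : G →* Q), Function.Surjective p → p.ker ≤ C →
      Nonempty (Additive p.ker ≃+ (Fin r → ℤ)) → ∃ m d : ℕ, 0 < m ∧ Kills k Q m d) : C.FG := by
  have hcomm : ∀ a b : C, a * b = b * a := fun a b =>
    Subtype.ext ((Subgroup.mem_center_iff.1 (hC b.2)) a.1)
  let _ : CommGroup C := { (inferInstance : Group C) with mul_comm := hcomm }
  -- `G` is torsion free
  have htf : ∀ (m : ℕ) (c : Additive C), 0 < m → m • c = 0 → c = 0 := by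
    intro m c hm hmc
    have h1 : c.toMul ^ m = 1 := hmc
    have h2 : (c.toMul : G) ^ m = 1 := by rw [← Subgroup.coe_pow, h1]; rfl
    have h3 : IsOfFinOrder (c.toMul : G) := isOfFinOrder_iff_pow_eq_one.2 ⟨m, hm, h2⟩
    have h4 := orderOf_dvd_of_kills hk hcd (c.toMul : G) h3
    have h5 : orderOf (c.toMul : G) = 1 := Nat.dvd_one.1 h4
    have h6 : (c.toMul : G) = 1 := orderOf_eq_one_iff.1 h5
    exact Additive.toMul.injective (Subtype.ext h6)
  have hrank0 : ∀ f : (Fin (n + 1) → ℤ) →+ Additive C, ¬ Function.Injective f := by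
    intro f hf
    let f' : Zr (n + 1) →* G := C.subtype.comp
      ({ toFun := fun v => (f v.toAdd).toMul
         map_one' := by
           have : f 0 = 0 := map_zero f
           exact this
         map_mul' := fun a b => by
           have : f (a.toAdd + b.toAdd) = f a.toAdd + f b.toAdd := map_add f _ _
           exact this } : Zr (n + 1) →* C)
    refine no_embed hk hcd f' ?_
    intro a b hab
    have h1 : (f a.toAdd).toMul = (f b.toAdd).toMul := Subtype.ext hab
    exact hf (show f a.toAdd = f b.toAdd from h1)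
  -- quotients by free subgroups of `C`
  have hquot : ∀ (r : ℕ) (U : AddSubgroup (Additive C)), Nonempty (U ≃+ (Fin r → ℤ)) →
      ∃ (Q : Type) (_ : Group Q) (π : G →* Q), Function.Surjective π ∧
        (∀ c : C, π c = 1 ↔ Additive.ofMul c ∈ U) ∧
        (∃ m d : ℕ, 0 < m ∧ Kills k Q m d) := by
    intro r U ⟨f⟩
    let U' : Subgroup G := (AddSubgroup.toSubgroup' U).map C.subtype
    have hU' : ∀ g : G, g ∈ U' ↔ ∃ h : g ∈ C, Additive.ofMul (⟨g, h⟩ : C) ∈ U := by
      intro g
      constructor
      · rintro ⟨c, hc, rfl⟩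
        exact ⟨c.2, hc⟩
      · rintro ⟨h, h'⟩
        exact ⟨⟨g, h⟩, h', rfl⟩
    have hU'C : U' ≤ C := fun g hg => ((hU' g).1 hg).1
    have : U'.Normal := by
      constructor
      intro x hx g
      have := (Subgroup.mem_center_iff.1 (hC (hU'C hx))) g
      rw [this, mul_assoc, mul_inv_cancel, mul_one]
      exact hx
    have hker : (QuotientGroup.mk' U').ker = U' := QuotientGroup.ker_mk' _
    have hmem : ∀ g : G, g ∈ (QuotientGroup.mk' U').ker ↔ g ∈ U' := fun g => by rw [hker]
    have heq : Nonempty (Additive (QuotientGroup.mk' U').ker ≃+ (Fin r → ℤ)) := by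
      refine ⟨AddEquiv.trans ?_ f⟩
      exact
        { toFun := fun u => ⟨Additive.ofMul ⟨u.toMul.1, hU'C ((hmem _).1 u.toMul.2)⟩,
            ((hU' _).1 ((hmem _).1 u.toMul.2)).2⟩
          invFun := fun w => Additive.ofMul ⟨w.1.toMul.1,
            (hmem _).2 ((hU' _).2 ⟨w.1.toMul.2, w.2⟩)⟩
          left_inv := fun u => rfl
          right_inv := fun w => rfl
          map_add' := fun u w => rfl }
    obtain ⟨m, d, hm, hkills⟩ := hgood r (G ⧸ U') (QuotientGroup.mk' U')
      (QuotientGroup.mk'_surjective _) (by rw [hker]; exact hU'C) heq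
    refine ⟨G ⧸ U', inferInstance, QuotientGroup.mk' U', QuotientGroup.mk'_surjective _, ?_,
      m, d, hm, hkills⟩
    intro c
    have : (QuotientGroup.mk' U') c = 1 ↔ (c : G) ∈ U' := QuotientGroup.eq_one_iff _
    rw [this, hU']
    constructor
    · rintro ⟨h, h'⟩; exact h'
    · intro h; exact ⟨c.2, h⟩
  -- the rank is at most `n`
  have hrank : ∀ U : AddSubgroup (Additive C), ¬ Nonempty (U ≃+ (Fin (n + 1) → ℤ)) := by
    rintro U ⟨f⟩
    exact hrank0 (U.subtype.comp f.symm.toAddMonoidHom)
      (Subtype.val_injective.comp f.symm.injective)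
  obtain ⟨r, U, hr, hU, htors⟩ := exists_maximal_free n (Additive C) htf hrank
  obtain ⟨Q, _, π, hπ, hπU, m, d, hm, hkills⟩ := hquot r U hU
  -- bounded exponent
  have hexp : ∀ c : Additive C, m • c ∈ U := by
    intro c
    obtain ⟨t, ht, hct⟩ := htors c
    have h1 : π (c.toMul : G) ^ t = 1 := by
      have : π ((c.toMul ^ t : C) : G) = 1 := (hπU _).2 hct
      rw [← map_pow]; exact this
    have h2 : IsOfFinOrder (π (c.toMul : G)) := isOfFinOrder_iff_pow_eq_one.2 ⟨t, ht, h1⟩
    have h3 := orderOf_dvd_of_kills hk hkills _ h2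
    have h4 : π (c.toMul : G) ^ m = 1 := orderOf_dvd_iff_pow_eq_one.1 h3
    have h5 : π ((c.toMul ^ m : C) : G) = 1 := by
      rw [Subgroup.coe_pow, map_pow]; exact h4
    exact (hπU _).1 h5
  obtain ⟨f⟩ := hU
  have hfgC := fg_of_bounded (Additive C) htf U r f m hm hexp
  have h1 : Group.FG C := GroupFG.iff_add_fg.2 hfgC
  exact (Group.fg_iff_subgroup_fg C).1 h1

end

end Pool.MP0c3001.DV
end
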