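import Pool.Agent.Lib.MP_0c3001_gt.Mg.G017
import Pool.Agent.Lib.MP_0c3001_gt.Mg.G021

section

/-!
# CH: the chain of roots

`PP k l m N g`: `g` is the image of a central element `z` of infinite order of a group `H ↪ G₀` with
`Kills k H m N`, the cohomology of `H/z` with coefficients `k/l` is finitely generated in large degrees, and `z` has
roots of all orders `l ^ K` in `H`.

* `pp_step`: `orbits_finite` gives a finite set `S` of `l`-th roots of `z` in `H` which represents all classes.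
  Claim: some `r ∈ S` has roots of all orders `l ^ K`.  Otherwise choose for each `r ∈ S` some `K_r` without root of
  order `l ^ K_r`, and `K ≥ K_r` for all `r ∈ S` (`Finset.sup`); if `r` had a root `y` of order `l ^ K` then
  `y ^ (l ^ (K - K_r))` would be a root of order `l ^ K_r`, so no `r ∈ S` has a root of order `l ^ K`.  Take `x` with
  `x ^ (l ^ (K+1)) = z`; `r₀ = x ^ (l ^ K)` is an `l`-th root of `z` with the root `x` of order `l ^ K`;
  `r₀ = q • r = g r g⁻¹` (`conjAct_smul`, `π g = q`) with `r ∈ S`, so `g⁻¹ x g` is a root of `r` of order `l ^ K`,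
  contradiction.  A root `y` of `r` commutes with `r`, so it lies in `Cn r.1`.  Put `H' = Cn r.1`, `z' = rc r`,
  `f' = f ∘ subtype`: `Kills.subgroup`, `root_cyc`, `fin_step`.  `g' = f r.1`.
* `pp_chain`: build the sequence with `Nat.rec` on `{g // PP k l m N g}` (`Classical.choose` of `pp_step`).
-/

set_option autoImplicit false

namespace Pool.MP0c3001.DV

open CategoryTheory CategoryTheory.Abelian Limits

noncomputable section

variable {k : Type} [CommRing k]

variable (k) in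
def PP (l m N : ℕ) {G₀ : Type} [Group G₀] (g : G₀) : Prop :=
  ∃ (H : Type) (_ : Group H) (f : H →* G₀) (z : H), Function.Injective f ∧ f z = g ∧
    Kills k H m N ∧
    (∃ (Q : Type) (_ : Group Q) (π : H →* Q), CycExt π z ∧ ∃ i₀, FgL k Q l i₀) ∧
    ∀ K : ℕ, ∃ x : H, x ^ (l ^ K) = z

theorem pp_step (hk : Function.Bijective (Int.cast : ℤ → k)) {l : ℕ} (hl : l.Prime) {m N : ℕ}
    (hlm : ¬ l ∣ m) (hN : 1 ≤ N) {G₀ : Type} [Group G₀] {g : G₀} (h : PP k l m N g) :
    ∃ g' : G₀, g' ^ l = g ∧ PP k l m N g' := by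
  obtain ⟨H, _, f, z, hf, hfz, hK, ⟨Q, _, π, hπ, i₀, hfin⟩, hroot⟩ := h
  obtain ⟨S, hS⟩ := orbits_finite hk hπ hl hlm hN hK hfin
  have claim : ∃ r ∈ S, ∀ K : ℕ, ∃ y : H, y ^ (l ^ K) = r.1 := by
    by_contra hcon
    have hcon' : ∀ r : Rt z l, r ∈ S → ∃ K : ℕ, ∀ y : H, y ^ (l ^ K) ≠ r.1 := by
      intro r hr
      by_contra hn
      apply hcon
      refine ⟨r, hr, fun K => ?_⟩
      by_contra hy
      exact hn ⟨K, fun y hyr => hy ⟨y, hyr⟩⟩
    choose! Kf hKf using hcon'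
    obtain ⟨x, hx⟩ := hroot (S.sup Kf + 1)
    have hx0 : (x ^ (l ^ S.sup Kf)) ^ l = z := by
      rw [← pow_mul, ← pow_succ]
      exact hx
    obtain ⟨q, r, hr, hqr⟩ := hS ⟨x ^ (l ^ S.sup Kf), hx0⟩
    obtain ⟨a, rfl⟩ := hπ.surj q
    have h1 := conjAct_smul hπ a r
    rw [hqr] at h1
    have h2 : x ^ (l ^ S.sup Kf) = a * r.1 * a⁻¹ := h1
    have hle : Kf r ≤ S.sup Kf := Finset.le_sup hr
    apply hKf r hr ((a⁻¹ * x * a) ^ (l ^ (S.sup Kf - Kf r)))
    rw [← pow_mul, ← pow_add, Nat.sub_add_cancel hle]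
    have h3 : (a⁻¹ * x * a) ^ (l ^ S.sup Kf) = a⁻¹ * x ^ (l ^ S.sup Kf) * a := by
      have h4 := conj_pow (i := l ^ S.sup Kf) (a := a⁻¹) (b := x)
      rw [inv_inv] at h4
      exact h4
    rw [h3, h2]
    simp only [mul_assoc, inv_mul_cancel, mul_one, inv_mul_cancel_left]
  obtain ⟨r, hr, hroots⟩ := claim
  obtain ⟨Q₁, _, π₁, hπ₁⟩ := root_cyc hπ hl.pos r
  refine ⟨f r.1, by rw [← map_pow, r.2, hfz], Cn r.1, inferInstance, f.comp (Cn r.1).subtype, rc r,
    ?_, rfl, Kills.subgroup hK _,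
    ⟨Q₁, inferInstance, π₁, hπ₁, 0, fin_step hk hπ hl hlm hN hK hfin r hπ₁⟩, ?_⟩
  · intro a b hab
    exact Subtype.ext (hf hab)
  · intro K
    obtain ⟨y, hy⟩ := hroots K
    refine ⟨⟨y, mem_Cn.2 ?_⟩, Subtype.ext hy⟩
    rw [← hy]
    exact (Commute.self_pow y _).eq

theorem pp_chain (hk : Function.Bijective (Int.cast : ℤ → k)) {l : ℕ} (hl : l.Prime) {m N : ℕ}
    (hlm : ¬ l ∣ m) (hN : 1 ≤ N) {G₀ : Type} [Group G₀] {g : G₀} (h : PP k l m N g) :
    ∃ u : ℕ → G₀, u 0 = g ∧ ∀ n, u (n + 1) ^ l = u n := by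
  classical
  let F : {a : G₀ // PP k l m N a} → {a : G₀ // PP k l m N a} := fun a =>
    ⟨(pp_step hk hl hlm hN a.2).choose, (pp_step hk hl hlm hN a.2).choose_spec.2⟩
  have hF : ∀ a, (F a).1 ^ l = a.1 := fun a => (pp_step hk hl hlm hN a.2).choose_spec.1
  let v : ℕ → {a : G₀ // PP k l m N a} := fun n => Nat.rec ⟨g, h⟩ (fun _ a => F a) n
  exact ⟨fun n => (v n).1, rfl, fun n => hF (v n)⟩

end

end Pool.MP0c3001.DV
end

section

/-!
# MC: bad central elements lie in copies of `ℤ[1/l]` for every prime `l`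

`l ∤ 1` (`m = 1`, `N = n + 1`).  `FgCoh k Q` by `gysin_fg` (cocycle from `exists_fitsZ`, cast to `k`).  For every `K`
there is `x` with `x ^ (l ^ K) = z`: otherwise `kills_of_noroot` contradicts `hbad`.  So `PP k l 1 (n + 1) z` holds with
`H = G`, `f = id`, `Q`, `π`, `fgL_of_fgCoh`.  `pp_chain`, `exists_zinv` (`hπ.ord`).
-/

set_option autoImplicit false

namespace Pool.MP0c3001.DV

open CategoryTheory CategoryTheory.Abelian Limits

noncomputable section

variable {k : Type} [CommRing k]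

theorem bad_divisible (hk : Function.Bijective (Int.cast : ℤ → k)) {G : Type} [Group G] (n : ℕ)
    (hcd : Kills k G 1 (n + 1)) (hfg : FgCoh k G) {Q : Type} [Group Q] {π : G →* Q} {z : G}
    (hπ : CycExt π z) (hbad : ∀ m d : ℕ, 0 < m → ¬ Kills k Q m d) (l : ℕ) (hl : l.Prime) :
    ∃ D : Subgroup G, z ∈ D ∧ Nonempty (D ≃* Multiplicative (Localization.Away (l : ℤ))) := by
  obtain ⟨c, hc, s, hs, j, hj, hcj⟩ := exists_fitsZ hπ
  have hf : Fits (k := k) π z (fun a b => (Int.castAddHom k) (c a b)) :=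
    ⟨s, hs, j, hj, fun q' q => by
      change ((c q' q : ℤ) : k) = _
      rw [hcj]⟩
  have hfgQ : FgCoh k Q := gysin_fg hk hπ (hc.map (Int.castAddHom k)) hf hfg
  have hl1 : ¬ l ∣ 1 := fun h => hl.one_lt.ne' (Nat.dvd_one.1 h)
  have hN : 1 ≤ n + 1 := Nat.le_add_left 1 n
  have hroot : ∀ K : ℕ, ∃ x : G, x ^ (l ^ K) = z := by
    intro K
    by_contra hcon
    push Not at hcon
    obtain ⟨m', d, hm', hK'⟩ := kills_of_noroot hk hπ hl hl1 hN hcd hfgQ K hcon
    exact hbad m' d hm' hK'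
  have hP : PP k l 1 (n + 1) z :=
    ⟨G, inferInstance, MonoidHom.id G, z, Function.injective_id, rfl, hcd,
      ⟨Q, inferInstance, π, hπ, 0, fgL_of_fgCoh hfgQ l⟩, hroot⟩
  obtain ⟨u, hu0, hu⟩ := pp_chain hk hl hl1 hN hP
  exact exists_zinv l hl.one_lt z hπ.ord u hu0 hu

end

end Pool.MP0c3001.DV
end
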