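import Mathlib

section

/-!
Chains of lists: `Ch A` is the free abelian group on the lists of elements of `A`, all lengths
together, with the boundary `bd (a :: l) = l - a :: bd l`.
-/

set_option autoImplicit false

namespace Pool.Agent.MP_0c3001_gt.Br

/-- Chains of lists. -/
abbrev Ch (A : Type*) := List A →₀ ℤ

variable {A B C : Type*}

/-- The chain of one list. -/
noncomputable abbrev sg (l : List A) : Ch A := Finsupp.single l 1

/-- The cone operator. -/
noncomputable def cone (a : A) : Ch A →ₗ[ℤ] Ch A := Finsupp.lmapDomain ℤ ℤ (List.cons a)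

/-- Functoriality. -/
noncomputable def mp (f : A → B) : Ch A →ₗ[ℤ] Ch B := Finsupp.lmapDomain ℤ ℤ (List.map f)

/-- The boundary of a list. -/
noncomputable def bdl : List A → Ch A
  | [] => 0
  | a :: l => sg l - cone a (bdl l)

/-- The boundary. -/
noncomputable def bd : Ch A →ₗ[ℤ] Ch A := Finsupp.linearCombination ℤ bdl

/-- All lists of the chain have the property `P`. -/
def Spt (P : List A → Prop) (c : Ch A) : Prop := ∀ l ∈ c.support, P l

theorem cone_sg (a : A) (l : List A) : cone a (sg l) = sg (a :: l) := by
  simp [cone, Finsupp.lmapDomain_apply, Finsupp.mapDomain_single]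

theorem mp_sg (f : A → B) (l : List A) : mp f (sg l) = sg (l.map f) := by
  simp [mp, Finsupp.lmapDomain_apply, Finsupp.mapDomain_single]

theorem bd_sg (l : List A) : bd (sg l) = bdl l := by
  simp [bd]

@[simp] theorem bd_nil : bd (sg ([] : List A)) = 0 := by
  rw [bd_sg]; rfl

theorem bd_cons (a : A) (l : List A) : bd (sg (a :: l)) = sg l - cone a (bd (sg l)) := by
  rw [bd_sg, bd_sg]; rfl

/-- Two linear maps agree if they agree on lists. -/
theorem lin_ext {N : Type*} [AddCommGroup N] {F F' : Ch A →ₗ[ℤ] N}
    (h : ∀ l, F (sg l) = F' (sg l)) : F = F' := by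
  apply Finsupp.lhom_ext'
  intro l
  apply LinearMap.ext_ring
  simpa using h l

theorem bd_cone (a : A) (c : Ch A) : bd (cone a c) = c - cone a (bd c) := by
  have : (bd.comp (cone a) : Ch A →ₗ[ℤ] Ch A) = LinearMap.id - (cone a).comp bd := by
    apply lin_ext
    intro l
    simp only [LinearMap.comp_apply, LinearMap.sub_apply, LinearMap.id_apply]
    rw [cone_sg, bd_cons]
  have h := LinearMap.congr_fun this c
  simpa using h

theorem bd_bd (c : Ch A) : bd (bd c) = 0 := by
  have : (bd.comp bd : Ch A →ₗ[ℤ] Ch A) = 0 := by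
    apply lin_ext
    intro l
    simp only [LinearMap.comp_apply, LinearMap.zero_apply]
    induction l with
    | nil => simp
    | cons a l ih =>
      rw [bd_cons, map_sub, bd_cone, ih]
      simp
  have h := LinearMap.congr_fun this c
  simpa using h

theorem mp_cone (f : A → B) (a : A) (c : Ch A) : mp f (cone a c) = cone (f a) (mp f c) := by
  have : ((mp f).comp (cone a) : Ch A →ₗ[ℤ] Ch B) = (cone (f a)).comp (mp f) := by
    apply lin_ext
    intro l
    simp only [LinearMap.comp_apply]
    rw [cone_sg, mp_sg, mp_sg, cone_sg]; rfl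
  have h := LinearMap.congr_fun this c
  simpa using h

theorem bd_mp (f : A → B) (c : Ch A) : bd (mp f c) = mp f (bd c) := by
  have : (bd.comp (mp f) : Ch A →ₗ[ℤ] Ch B) = (mp f).comp bd := by
    apply lin_ext
    intro l
    simp only [LinearMap.comp_apply]
    induction l with
    | nil => simp [mp_sg]
    | cons a l ih =>
      rw [mp_sg, List.map_cons, bd_cons, bd_cons, map_sub, mp_cone, ← ih, mp_sg]
  have h := LinearMap.congr_fun this c
  simpa using h

theorem mp_mp (f : A → B) (g : B → C) (c : Ch A) : mp g (mp f c) = mp (g ∘ f) c := by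
  have : ((mp g).comp (mp f) : Ch A →ₗ[ℤ] Ch C) = mp (g ∘ f) := by
    apply lin_ext
    intro l
    simp only [LinearMap.comp_apply]
    rw [mp_sg, mp_sg, mp_sg, List.map_map]
  have h := LinearMap.congr_fun this c
  simpa using h

theorem mp_id (c : Ch A) : mp (id : A → A) c = c := by
  have : (mp (id : A → A) : Ch A →ₗ[ℤ] Ch A) = LinearMap.id := by
    apply lin_ext
    intro l
    rw [mp_sg, List.map_id]; rfl
  have h := LinearMap.congr_fun this c
  simpa using h

theorem mp_congr {f g : A → B} {P : List A → Prop} {c : Ch A} (hc : Spt P c)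
    (h : ∀ l, P l → ∀ x ∈ l, f x = g x) : mp f c = mp g c := by
  classical
  simp only [mp, Finsupp.lmapDomain_apply, Finsupp.mapDomain]
  apply Finsupp.sum_congr
  intro l hl
  congr 1
  exact List.map_congr_left (h l (hc l hl))

theorem Spt.zero {P : List A → Prop} : Spt P (0 : Ch A) := by
  intro l hl; simp at hl

theorem Spt.add {P : List A → Prop} {c d : Ch A} (hc : Spt P c) (hd : Spt P d) :
    Spt P (c + d) := by
  classical
  intro l hl
  rcases Finset.mem_union.mp (Finsupp.support_add hl) with h | h
  · exact hc l h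
  · exact hd l h

theorem Spt.neg {P : List A → Prop} {c : Ch A} (hc : Spt P c) : Spt P (-c) := by
  intro l hl
  rw [Finsupp.support_neg] at hl
  exact hc l hl

theorem Spt.sub {P : List A → Prop} {c d : Ch A} (hc : Spt P c) (hd : Spt P d) :
    Spt P (c - d) := by
  rw [sub_eq_add_neg]; exact hc.add hd.neg

theorem Spt.smul {P : List A → Prop} {c : Ch A} (n : ℤ) (hc : Spt P c) : Spt P (n • c) := by
  intro l hl
  exact hc l (Finsupp.support_smul hl)

theorem Spt.sum {ι : Type*} {s : Finset ι} {P : List A → Prop} {c : ι → Ch A}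
    (hc : ∀ i ∈ s, Spt P (c i)) : Spt P (∑ i ∈ s, c i) := by
  classical
  induction s using Finset.induction_on with
  | empty => simpa using Spt.zero
  | insert i s hi ih =>
    rw [Finset.sum_insert hi]
    exact (hc i (Finset.mem_insert_self _ _)).add
      (ih fun j hj => hc j (Finset.mem_insert_of_mem hj))

theorem Spt.mono {P Q : List A → Prop} {c : Ch A} (hc : Spt P c) (h : ∀ l, P l → Q l) :
    Spt Q c := fun l hl => h l (hc l hl)

theorem Spt.sg {P : List A → Prop} {l : List A} (h : P l) : Spt P (sg l) := by
  intro l' hl'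
  rw [Finsupp.mem_support_single] at hl'
  rw [hl'.1]; exact h

/-- A linear map sends chains with support in `P` to chains with support in `Q` if it does so for
lists. -/
theorem Spt.lin {P : List A → Prop} {Q : List B → Prop} {c : Ch A} (hc : Spt P c)
    (F : Ch A →ₗ[ℤ] Ch B) (hF : ∀ l, P l → Spt Q (F (Finsupp.single l 1))) : Spt Q (F c) := by
  have h : c = ∑ l ∈ c.support, c l • Finsupp.single l (1 : ℤ) := by
    conv_lhs => rw [← Finsupp.sum_single c]
    simp [Finsupp.sum]
  rw [h, map_sum]
  apply Spt.sum
  intro l hl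
  rw [map_smul]
  exact (hF l (hc l hl)).smul _

theorem Spt.cone {P : List A → Prop} {c : Ch A} {a : A} (hc : Spt (fun l => P (a :: l)) c) :
    Spt P (Br.cone a c) := by
  refine Spt.lin (Q := P) hc (Br.cone a) ?_
  intro l hl
  rw [cone_sg]
  exact Spt.sg hl

theorem Spt.mp {P : List B → Prop} {c : Ch A} {f : A → B} (hc : Spt (fun l => P (l.map f)) c) :
    Spt P (Br.mp f c) := by
  refine Spt.lin (Q := P) hc (Br.mp f) ?_
  intro l hl
  rw [mp_sg]
  exact Spt.sg hl

/-- The faces of a list are sublists with one element less. -/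
theorem spt_bdl (l : List A) : Spt (fun s => s.Sublist l ∧ s.length + 1 = l.length) (bdl l) := by
  induction l with
  | nil => exact Spt.zero
  | cons a l ih =>
    apply Spt.sub
    · exact Spt.sg ⟨List.sublist_cons_self a l, rfl⟩
    · apply Spt.cone
      refine ih.mono fun s hs => ⟨hs.1.cons_cons a, ?_⟩
      simp [hs.2]

theorem Spt.bd {P Q : List A → Prop} {c : Ch A} (hc : Spt P c)
    (h : ∀ l s, P l → s.Sublist l → s.length + 1 = l.length → Q s) : Spt Q (Br.bd c) := by
  refine Spt.lin (Q := Q) hc Br.bd ?_
  intro l hl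
  rw [bd_sg]
  exact (spt_bdl l).mono fun s hs => h l s hl hs.1 hs.2

/-- Every chain is an integer combination of its lists. -/
theorem sum_sg (c : Ch A) : c = ∑ l ∈ c.support, c l • sg l := by
  conv_lhs => rw [← Finsupp.sum_single c]
  simp [Finsupp.sum]

/-- Two linear maps agree on a chain if they agree on its lists. -/
theorem lin_congr {N : Type*} [AddCommGroup N] {F F' : Ch A →ₗ[ℤ] N} {P : List A → Prop}
    {c : Ch A} (hc : Spt P c) (h : ∀ l, P l → F (sg l) = F' (sg l)) : F c = F' c := by
  rw [sum_sg c, map_sum, map_sum]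
  apply Finset.sum_congr rfl
  intro l hl
  rw [map_smul, map_smul, h l (hc l hl)]

end Pool.Agent.MP_0c3001_gt.Br
end

section

/-!
Existence of equivariant linear maps of list chains by recursion on the length.
-/

set_option autoImplicit false

namespace Pool.Agent.MP_0c3001_gt.Br

section

variable {G A B : Type*} [Group G] [MulAction G A] [MulAction G B]

/-- The action of `g` on chains. -/
noncomputable abbrev act (g : G) : Ch A →ₗ[ℤ] Ch A := mp (fun a => g • a)

theorem act_act (g h : G) (c : Ch A) : act g (act h c) = act (g * h) c := by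
  rw [act, act, mp_mp]
  congr 2
  funext a
  simp [mul_smul]

theorem act_one (c : Ch A) : act (1 : G) c = c := by
  have : (fun a : A => (1 : G) • a) = id := by funext a; simp
  rw [act, this, mp_id]

/-- The orbit relation on lists. -/
def orel (G A : Type*) [Group G] [MulAction G A] : Setoid (List A) where
  r l l' := ∃ g : G, l' = l.map (fun a => g • a)
  iseqv := by
    refine ⟨fun l => ⟨1, by simp⟩, ?_, ?_⟩
    · rintro l l' ⟨g, rfl⟩
      exact ⟨g⁻¹, by simp [List.map_map, Function.comp_def]⟩
    · rintro l l' l'' ⟨g, rfl⟩ ⟨h, rfl⟩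
      exact ⟨h * g, by simp [List.map_map, Function.comp_def, mul_smul]⟩

/-- A representative of the orbit of a list. -/
noncomputable def rep (G : Type*) {A : Type*} [Group G] [MulAction G A] (l : List A) : List A :=
  (Quotient.mk (orel G A) l).out

theorem exists_rep (l : List A) : ∃ g : G, l = (rep G l).map (fun a => g • a) := by
  have h : (orel G A) (rep G l) l := Quotient.exact (Quotient.out_eq (Quotient.mk (orel G A) l))
  exact h

theorem rep_map (g : G) (l : List A) : rep G (l.map (fun a => g • a)) = rep G l := by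
  unfold rep
  congr 1
  apply Quotient.sound
  exact ⟨g⁻¹, by simp [List.map_map, Function.comp_def]⟩

/-- The element which moves the representative to the list. -/
noncomputable def gg (G : Type*) {A : Type*} [Group G] [MulAction G A] (l : List A) : G :=
  (exists_rep (G := G) l).choose

theorem gg_spec (l : List A) : l = (rep G l).map (fun a => gg G l • a) :=
  (exists_rep (G := G) l).choose_spec

theorem length_rep (l : List A) : (rep G l).length = l.length := by
  conv_rhs => rw [gg_spec (G := G) l]
  simp

theorem gg_map (hfree : ∀ (g : G) (a : A), g • a = a → g = 1) (g : G) {l : List A}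
    (hl : l ≠ []) : gg G (l.map (fun a => g • a)) = g * gg G l := by
  have h1 := gg_spec (G := G) (l.map (fun a => g • a))
  rw [rep_map] at h1
  have h2 : l.map (fun a => g • a) = (rep G l).map (fun a => (g * gg G l) • a) := by
    conv_lhs => rw [gg_spec (G := G) l]
    simp [List.map_map, Function.comp_def, mul_smul]
  generalize gg G (l.map (fun a => g • a)) = u at h1 ⊢
  rw [h2] at h1
  have hne : rep G l ≠ [] := by
    intro h
    apply hl
    have := length_rep (G := G) l
    rw [h] at this
    exact List.length_eq_zero_iff.mp this.symm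
  obtain ⟨a, t, hat⟩ := List.exists_cons_of_ne_nil hne
  rw [hat] at h1
  simp only [List.map_cons, List.cons.injEq] at h1
  have h3 := h1.1
  have h4 : (u⁻¹ * (g * gg G l)) • a = a := by
    rw [mul_smul, h3, smul_smul]
    simp
  have h5 := hfree _ _ h4
  rw [inv_mul_eq_one] at h5
  exact h5

/-- Existence of an equivariant linear map `F` with `bd (F c) = K c + e • F (bd c)`, with control
of the values on lists. -/
theorem exists_rec
    (hfree : ∀ (g : G) (a : A), g • a = a → g = 1)
    (K : Ch A →ₗ[ℤ] Ch B) (e : ℤ)
    (hK : ∀ c, bd (K c) + e • K (bd c) = 0)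
    (hKG : ∀ (g : G) c, K (act g c) = act g (K c))
    (F0 : Ch B) (hF0 : bd F0 = K (sg [])) (hF0G : ∀ g : G, act g F0 = F0)
    (L L' : List A → Submodule ℤ (Ch B))
    (hLG : ∀ (g : G) l c, c ∈ L l → act g c ∈ L (l.map (fun a => g • a)))
    (hL0 : F0 ∈ L [])
    (hface : ∀ l s, s.Sublist l → s.length + 1 = l.length → L s ≤ L' l)
    (hKL : ∀ a l, K (sg (a :: l)) ∈ L' (a :: l))
    (hfill : ∀ a l y, y ∈ L' (a :: l) → bd y = 0 → ∃ c ∈ L (a :: l), bd c = y) :
    ∃ F : Ch A →ₗ[ℤ] Ch B, (∀ (g : G) c, F (act g c) = act g (F c)) ∧ F (sg []) = F0 ∧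
      (∀ c, bd (F c) = K c + e • F (bd c)) ∧ ∀ l, F (sg l) ∈ L l := by
  classical
  let lc : (List A → Ch B) → (Ch A →ₗ[ℤ] Ch B) := fun f => Finsupp.linearCombination ℤ f
  have lc_sg : ∀ f l, lc f (sg l) = f l := by intro f l; simp [lc]
  let yy : (List A → Ch B) → List A → Ch B := fun f l => K (sg l) + e • lc f (bdl l)
  let fil : List A → Ch B → Ch B := fun l y =>
    if h : ∃ c ∈ L l, bd c = y then h.choose else 0
  let fill : (List A → Ch B) → List A → Ch B := fun f l => fil l (yy f l)
  let step : (List A → Ch B) → List A → Ch B := fun f l => act (gg G l) (fill f (rep G l))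
  let f : ℕ → List A → Ch B := fun n => Nat.rec (fun _ => F0)
    (fun n fn l => if l.length ≤ n then fn l else step fn l) n
  have f_zero : ∀ l, f 0 l = F0 := fun l => rfl
  have f_succ : ∀ n l, f (n + 1) l = if l.length ≤ n then f n l else step (f n) l :=
    fun n l => rfl
  let φ : List A → Ch B := fun l => f l.length l
  have f_eq : ∀ m l, l.length ≤ m → f m l = φ l := by
    intro m
    induction m with
    | zero =>
      intro l hl
      have : l.length = 0 := by omega
      simp only [φ, this]
    | succ m ih =>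
      intro l hl
      by_cases h : l.length ≤ m
      · rw [f_succ, if_pos h, ih l h]
      · have : l.length = m + 1 := by omega
        simp only [φ, this]
  have lc_congr : ∀ m l, l.length = m + 1 → lc (f m) (bdl l) = lc φ (bdl l) := by
    intro m l hl
    refine lin_congr (P := fun s => s.length = m) ?_ ?_
    · exact (spt_bdl l).mono fun s hs => by omega
    · intro s hs
      rw [lc_sg, lc_sg, f_eq m s (le_of_eq hs)]
  have φ_cons : ∀ l, l ≠ [] → φ l = act (gg G l) (fill φ (rep G l)) := by
    intro l hl
    obtain ⟨m, hm⟩ : ∃ m, l.length = m + 1 := by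
      cases l with
      | nil => exact absurd rfl hl
      | cons a t => exact ⟨t.length, rfl⟩
    have h1 : φ l = step (f m) l := by
      simp only [φ, hm]
      rw [f_succ, if_neg (by omega)]
    rw [h1]
    simp only [step, fill, yy]
    rw [lc_congr m (rep G l) (by rw [length_rep]; exact hm)]
  have φ_nil : φ [] = F0 := rfl
  -- the main induction
  have main : ∀ n, ∀ l : List A, l.length ≤ n → φ l ∈ L l ∧ bd (φ l) = K (sg l) + e • lc φ (bdl l) ∧
      ∀ g : G, φ (l.map (fun a => g • a)) = act g (φ l) := by
    intro n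
    induction n with
    | zero =>
      intro l hl
      have : l = [] := List.length_eq_zero_iff.mp (by omega)
      subst this
      refine ⟨hL0, ?_, ?_⟩
      · rw [φ_nil, hF0]; simp [bdl]
      · intro g
        simp only [List.map_nil, φ_nil]
        exact (hF0G g).symm
    | succ n ih =>
      intro l hl
      by_cases hn : l.length ≤ n
      · exact ih l hn
      have hln : l.length = n + 1 := by omega
      have hl0 : l ≠ [] := by intro h; rw [h] at hln; simp at hln
      set r := rep G l with hr
      have hrn : r.length = n + 1 := by rw [hr, length_rep]; exact hln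
      obtain ⟨a, t, hat⟩ : ∃ a t, r = a :: t := by
        apply List.exists_cons_of_ne_nil
        intro h; rw [h] at hrn; simp at hrn
      have hsub : Spt (fun s => s.Sublist r ∧ s.length = n) (bdl r) :=
        (spt_bdl r).mono fun s hs => ⟨hs.1, by omega⟩
      -- boundary of F on short chains
      have hbd : ∀ c : Ch A, Spt (fun s => s.length ≤ n) c →
          bd (lc φ c) = K c + e • lc φ (bd c) := by
        intro c hc
        have := lin_congr (F := bd.comp (lc φ)) (F' := K + e • (lc φ).comp bd) hc (by
          intro s hs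
          simp only [LinearMap.comp_apply, LinearMap.add_apply, LinearMap.smul_apply]
          rw [lc_sg, bd_sg]
          exact (ih s hs).2.1)
        simpa using this
      have hequiv : ∀ (g : G) (c : Ch A), Spt (fun s => s.length ≤ n) c →
          lc φ (act g c) = act g (lc φ c) := by
        intro g c hc
        have := lin_congr (F := (lc φ).comp (act g)) (F' := (act g).comp (lc φ)) hc (by
          intro s hs
          simp only [LinearMap.comp_apply]
          rw [act, mp_sg, lc_sg, lc_sg]
          exact (ih s hs).2.2 g)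
        simpa using this
      have hy1 : yy φ r ∈ L' r := by
        apply Submodule.add_mem
        · rw [hat]; exact hKL a t
        · apply Submodule.smul_mem
          rw [sum_sg (bdl r), map_sum]
          apply Submodule.sum_mem
          intro s hs
          rw [map_smul]
          apply Submodule.smul_mem
          have h := hsub s hs
          rw [lc_sg]
          exact hface r s h.1 (by omega) ((ih s (by omega)).1)
      have hy2 : bd (yy φ r) = 0 := by
        simp only [yy]
        rw [map_add, map_smul, hbd (bdl r) (hsub.mono fun s hs => by omega)]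
        rw [← bd_sg r, bd_bd, map_zero, smul_zero, add_zero]
        exact hK (sg r)
      have hex : ∃ c ∈ L r, bd c = yy φ r := by
        have := hfill a t (yy φ r) (by rw [← hat]; exact hy1) hy2
        rw [← hat] at this
        exact this
      have hfr : fill φ r ∈ L r ∧ bd (fill φ r) = yy φ r := by
        simp only [fill, fil]
        rw [dif_pos hex]
        exact hex.choose_spec
      have hlr : l = r.map (fun a => gg G l • a) := gg_spec (G := G) l
      have hφl : φ l = act (gg G l) (fill φ r) := φ_cons l hl0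
      refine ⟨?_, ?_, ?_⟩
      · rw [hφl]
        have := hLG (gg G l) r _ hfr.1
        rwa [← hlr] at this
      · rw [hφl, act, bd_mp, hfr.2]
        simp only [yy]
        rw [map_add, map_smul]
        have h1 := hKG (gg G l) (sg r)
        rw [act, mp_sg, ← hlr] at h1
        rw [h1]
        have h2 := hequiv (gg G l) (bdl r) (hsub.mono fun s hs => by omega)
        rw [act] at h2
        rw [← h2]
        congr 3
        rw [← bd_sg r, ← bd_mp, mp_sg, ← hlr, bd_sg]
      · intro g
        have hne : l.map (fun a => g • a) ≠ [] := by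
          intro h; exact hl0 (List.map_eq_nil_iff.mp h)
        rw [φ_cons _ hne, rep_map, gg_map hfree g hl0, hφl, act_act]
  refine ⟨lc φ, ?_, ?_, ?_, ?_⟩
  · intro g c
    have : (lc φ).comp (act g) = (act g).comp (lc φ) := by
      apply lin_ext
      intro l
      simp only [LinearMap.comp_apply]
      rw [act, mp_sg, lc_sg, lc_sg]
      exact (main l.length l le_rfl).2.2 g
    have h := LinearMap.congr_fun this c
    simpa using h
  · rw [lc_sg, φ_nil]
  · intro c
    have : bd.comp (lc φ) = K + e • (lc φ).comp bd := by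
      apply lin_ext
      intro l
      simp only [LinearMap.comp_apply, LinearMap.add_apply, LinearMap.smul_apply]
      rw [lc_sg, bd_sg]
      exact (main l.length l le_rfl).2.1
    have h := LinearMap.congr_fun this c
    simpa using h
  · intro l
    rw [lc_sg]
    exact (main l.length l le_rfl).1

end

end Pool.Agent.MP_0c3001_gt.Br
end

section

/-!
Corollaries of the recursion principle: existence of chain maps and of chain homotopies with
control of the support.
-/

set_option autoImplicit false

namespace Pool.Agent.MP_0c3001_gt.Br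

/-- The submodule of the chains with support in `P`. -/
def sptSub {A : Type*} (P : List A → Prop) : Submodule ℤ (Ch A) where
  carrier := {c | Spt P c}
  add_mem' := fun h h' => Spt.add h h'
  zero_mem' := Spt.zero
  smul_mem' := fun n _ h => Spt.smul n h

theorem mem_sptSub {A : Type*} {P : List A → Prop} {c : Ch A} : c ∈ sptSub P ↔ Spt P c :=
  Iff.rfl

section

variable {G A B : Type*} [Group G] [MulAction G A] [MulAction G B]

/-- Existence of an equivariant chain map with control of the support. -/
theorem exists_lift_equiv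
    (hfree : ∀ (g : G) (a : A), g • a = a → g = 1)
    (P P' : List A → List B → Prop)
    (hPG : ∀ (g : G) l t, P l t → P (l.map (fun a => g • a)) (t.map (fun b => g • b)))
    (h0 : P [] [])
    (hface : ∀ l s, s.Sublist l → s.length + 1 = l.length → ∀ t, P s t → P' l t)
    (hfill : ∀ a l y, Spt (P' (a :: l)) y → bd y = 0 → ∃ c, Spt (P (a :: l)) c ∧ bd c = y) :
    ∃ F : Ch A →ₗ[ℤ] Ch B, (∀ (g : G) c, F (act g c) = act g (F c)) ∧ F (sg []) = sg [] ∧
      (∀ c, bd (F c) = F (bd c)) ∧ ∀ l, Spt (P l) (F (sg l)) := by
  obtain ⟨F, h1, h2, h3, h4⟩ := exists_rec hfree (0 : Ch A →ₗ[ℤ] Ch B) 1 (by simp) (by simp)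
    (sg []) (by simp) (by intro g; rw [act, mp_sg]; rfl)
    (fun l => sptSub (P l)) (fun l => sptSub (P' l))
    (by
      intro g l c hc
      exact Spt.mp (hc.mono fun t ht => hPG g l t ht))
    (Spt.sg h0)
    (by intro l s hs hl c hc; exact hc.mono (hface l s hs hl))
    (by intro a l; simp)
    (by
      intro a l y hy hb
      obtain ⟨c, hc, hcb⟩ := hfill a l y hy hb
      exact ⟨c, hc, hcb⟩)
  exact ⟨F, h1, h2, fun c => by simpa using h3 c, h4⟩

/-- Existence of an equivariant chain homotopy between a chain map and the map of chains given by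
a map of elements, with control of the support. -/
theorem exists_homotopy_equiv
    (hfree : ∀ (g : G) (a : A), g • a = a → g = 1)
    (R : Ch A →ₗ[ℤ] Ch B) (hR0 : R (sg []) = sg []) (hRb : ∀ c, bd (R c) = R (bd c))
    (hRG : ∀ (g : G) c, R (act g c) = act g (R c))
    (v : A → B) (hv : ∀ (g : G) a, v (g • a) = g • v a)
    (Q : List A → B → Prop)
    (hQG : ∀ (g : G) l b, Q l b → Q (l.map (fun a => g • a)) (g • b))
    (hQ : ∀ l s, s.Sublist l → ∀ b, Q s b → Q l b)
    (hQv : ∀ l, ∀ a ∈ l, Q l (v a))
    (hQR : ∀ l, Spt (fun t => t.length = l.length ∧ ∀ b ∈ t, Q l b) (R (sg l))) :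
    ∃ H : Ch A →ₗ[ℤ] Ch B, (∀ (g : G) c, H (act g c) = act g (H c)) ∧ H (sg []) = 0 ∧
      (∀ c, bd (H c) = R c - mp v c - H (bd c)) ∧
      ∀ l, Spt (fun t => t.length = l.length + 1 ∧ ∀ b ∈ t, Q l b) (H (sg l)) := by
  obtain ⟨F, h1, h2, h3, h4⟩ := exists_rec hfree (R - mp v) (-1)
    (by
      intro c
      simp only [LinearMap.sub_apply, map_sub, hRb, bd_mp]
      simp)
    (by
      intro g c
      simp only [LinearMap.sub_apply, map_sub, hRG, act, mp_mp]
      congr 3
      funext a
      exact hv g a)
    0 (by simp [hR0, mp_sg]) (by simp)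
    (fun l => sptSub (fun t => t.length = l.length + 1 ∧ ∀ b ∈ t, Q l b))
    (fun l => sptSub (fun t => t.length = l.length ∧ ∀ b ∈ t, Q l b))
    (by
      intro g l c hc
      refine Spt.mp (hc.mono ?_)
      intro t ht
      refine ⟨by simpa using ht.1, ?_⟩
      intro b hb
      obtain ⟨b', hb', rfl⟩ := List.mem_map.mp hb
      exact hQG g l b' (ht.2 b' hb'))
    Spt.zero
    (by
      intro l s hs hl c hc
      refine hc.mono fun t ht => ⟨by omega, fun b hb => hQ l s hs b (ht.2 b hb)⟩)
    (by
      intro a l
      refine Spt.sub (hQR (a :: l)) ?_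
      rw [mp_sg]
      refine Spt.sg ⟨by simp, ?_⟩
      intro b hb
      obtain ⟨x, hx, rfl⟩ := List.mem_map.mp hb
      exact hQv _ x hx)
    (by
      intro a l y hy hb
      refine ⟨cone (v a) y, ?_, ?_⟩
      · refine Spt.cone (hy.mono ?_)
        intro t ht
        refine ⟨by simp [ht.1], ?_⟩
        intro b hb
        rcases List.mem_cons.mp hb with rfl | hb
        · exact hQv _ a (by simp)
        · exact ht.2 b hb
      · rw [bd_cone, hb, map_zero, sub_zero])
  refine ⟨F, h1, h2, ?_, h4⟩
  intro c
  rw [h3 c]
  simp [sub_eq_add_neg]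

end

section

variable {A B : Type*}

/-- The trivial action of the trivial group. -/
@[reducible] def trivAct (A : Type*) : MulAction PUnit.{1} A where
  smul := fun _ a => a
  one_smul := fun _ => rfl
  mul_smul := fun _ _ _ => rfl

/-- Existence of a chain map with control of the support. -/
theorem exists_lift
    (P P' : List A → List B → Prop)
    (h0 : P [] [])
    (hface : ∀ l s, s.Sublist l → s.length + 1 = l.length → ∀ t, P s t → P' l t)
    (hfill : ∀ a l y, Spt (P' (a :: l)) y → bd y = 0 → ∃ c, Spt (P (a :: l)) c ∧ bd c = y) :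
    ∃ F : Ch A →ₗ[ℤ] Ch B, F (sg []) = sg [] ∧
      (∀ c, bd (F c) = F (bd c)) ∧ ∀ l, Spt (P l) (F (sg l)) := by
  let _ := trivAct A
  let _ := trivAct B
  obtain ⟨F, -, h2, h3, h4⟩ := exists_lift_equiv (G := PUnit.{1}) (A := A) (B := B)
    (fun g a _ => rfl) P P'
    (fun g l t h => by
      show P (l.map (fun a => a)) (t.map (fun a => a))
      rw [List.map_id', List.map_id']; exact h) h0 hface hfill
  exact ⟨F, h2, h3, h4⟩

/-- Existence of a chain homotopy with control of the support. -/
theorem exists_homotopy
    (R : Ch A →ₗ[ℤ] Ch B) (hR0 : R (sg []) = sg []) (hRb : ∀ c, bd (R c) = R (bd c))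
    (v : A → B) (Q : List A → B → Prop)
    (hQ : ∀ l s, s.Sublist l → ∀ b, Q s b → Q l b)
    (hQv : ∀ l, ∀ a ∈ l, Q l (v a))
    (hQR : ∀ l, Spt (fun t => t.length = l.length ∧ ∀ b ∈ t, Q l b) (R (sg l))) :
    ∃ H : Ch A →ₗ[ℤ] Ch B, H (sg []) = 0 ∧
      (∀ c, bd (H c) = R c - mp v c - H (bd c)) ∧
      ∀ l, Spt (fun t => t.length = l.length + 1 ∧ ∀ b ∈ t, Q l b) (H (sg l)) := by
  let _ := trivAct A
  let _ := trivAct B
  have e3 : ∀ (g : PUnit.{1}) (c : Ch A), act g c = c := fun g c => mp_id c
  have e4 : ∀ (g : PUnit.{1}) (c : Ch B), act g c = c := fun g c => mp_id c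
  obtain ⟨F, -, h2, h3, h4⟩ := exists_homotopy_equiv (G := PUnit.{1}) (A := A) (B := B)
    (fun g a _ => rfl) R hR0 hRb (fun g c => by rw [e3, e4]) v (fun g a => rfl) Q
    (fun g l b h => by
      show Q (l.map (fun a => a)) b
      rw [List.map_id']; exact h) hQ hQv hQR
  exact ⟨F, h2, h3, h4⟩

end

end Pool.Agent.MP_0c3001_gt.Br
end

section

/-!
Points of the universal cover: pairs of a point and a class of paths from the base point.
-/

set_option autoImplicit false

open CategoryTheory

namespace Pool.Agent.MP_0c3001_gt.Br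

/-- The arrow of the fundamental groupoid of a path. -/
def arr {M : Type} [TopologicalSpace M] {x y : M} (γ : Path x y) :
    FundamentalGroupoid.mk x ⟶ FundamentalGroupoid.mk y :=
  Path.Homotopic.Quotient.mk γ

section

variable {M : Type} [TopologicalSpace M] {x₀ : M}

theorem arr_trans {x y z : M} (γ : Path x y) (γ' : Path y z) :
    arr (γ.trans γ') = arr γ ≫ arr γ' := rfl

theorem arr_refl (x : M) : arr (Path.refl x) = 𝟙 _ := rfl

theorem arr_eq_iff {x y : M} (γ γ' : Path x y) : arr γ = arr γ' ↔ γ.Homotopic γ' :=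
  Path.Homotopic.Quotient.eq

theorem arr_surj {x y : M} (a : FundamentalGroupoid.mk x ⟶ FundamentalGroupoid.mk y) :
    ∃ γ : Path x y, arr γ = a :=
  Path.Homotopic.Quotient.mk_surjective a

theorem arr_symm {x y : M} (γ : Path x y) : arr γ.symm = Groupoid.inv (arr γ) := rfl

/-- A point with a class of paths from the base point. -/
structure Cov (x₀ : M) where
  /-- the point -/
  pt : M
  /-- the class of paths -/
  cl : FundamentalGroupoid.mk x₀ ⟶ FundamentalGroupoid.mk pt

theorem Cov.ext_cl {a b : Cov x₀} (h : a.pt = b.pt)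
    (h' : a.cl ≫ eqToHom (congrArg FundamentalGroupoid.mk h) = b.cl) : a = b := by
  cases a; cases b
  cases h
  simp at h'
  rw [h']

/-- The action of the fundamental group. -/
noncomputable instance : MulAction (FundamentalGroup M x₀) (Cov x₀) where
  smul g a := ⟨a.pt, (g⁻¹ : FundamentalGroup M x₀) ≫ a.cl⟩
  one_smul a := by
    show Cov.mk a.pt (((1 : FundamentalGroup M x₀)⁻¹ : FundamentalGroup M x₀) ≫ a.cl) = a
    rw [inv_one]
    show Cov.mk a.pt (𝟙 _ ≫ a.cl) = a
    rw [Category.id_comp]
  mul_smul g h a := by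
    show Cov.mk a.pt (((g * h)⁻¹ : FundamentalGroup M x₀) ≫ a.cl) =
      Cov.mk a.pt ((g⁻¹ : FundamentalGroup M x₀) ≫ (h⁻¹ : FundamentalGroup M x₀) ≫ a.cl)
    rw [mul_inv_rev]
    show Cov.mk a.pt ((g⁻¹ ≫ h⁻¹) ≫ a.cl) = _
    rw [Category.assoc]

theorem smul_pt (g : FundamentalGroup M x₀) (a : Cov x₀) : (g • a).pt = a.pt := rfl

theorem smul_cl (g : FundamentalGroup M x₀) (a : Cov x₀) :
    (g • a).cl = (g⁻¹ : FundamentalGroup M x₀) ≫ a.cl := rfl

end

section

variable {M : Type} [MetricSpace M] {x₀ : M}

/-- `b` is joined to `a` by a path of diameter `< d`, compatibly with the classes of paths. -/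
def Close (d : ℝ) (a b : Cov x₀) : Prop :=
  ∃ γ : Path a.pt b.pt, (∀ s t, dist (γ s) (γ t) < d) ∧ b.cl = a.cl ≫ arr γ

/-- Lists of pairwise close points. -/
def Cl (d : ℝ) (l : List (Cov x₀)) : Prop := ∀ a ∈ l, ∀ b ∈ l, Close d a b

end

section
open CategoryTheory

namespace CoA

open Pool.Agent.MP_0c3001_gt.Br

variable {M : Type} [MetricSpace M] {x₀ : M}

theorem smul_free (g : FundamentalGroup M x₀) (a : Cov x₀) (h : g • a = a) : g = 1 := by
  obtain ⟨p, c⟩ := a
  have h1 : (Cov.mk p ((g⁻¹ : FundamentalGroup M x₀) ≫ c) : Cov x₀) = Cov.mk p c := h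
  have h2 : ((g⁻¹ : FundamentalGroup M x₀) ≫ c) = c := by
    injection h1
  have h3 : (g⁻¹ : FundamentalGroup M x₀) = (𝟙 (FundamentalGroupoid.mk x₀) : FundamentalGroup M x₀) := by
    have h4 := congrArg (fun t => t ≫ Groupoid.inv c) h2
    have h5 : ((g⁻¹ : FundamentalGroup M x₀) ≫ c) ≫ Groupoid.inv c = (g⁻¹ : FundamentalGroup M x₀) := by
      rw [Category.assoc, Groupoid.comp_inv, Category.comp_id]
    have h6 : c ≫ Groupoid.inv c = 𝟙 _ := Groupoid.comp_inv c
    exact h5.symm.trans (h4.trans h6)
  have h7 : g⁻¹ = 1 := h3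
  exact inv_eq_one.1 h7

theorem close_refl {d : ℝ} (hd : 0 < d) (a : Cov x₀) : Close d a a := by
  refine ⟨Path.refl _, fun s t => ?_, ?_⟩
  · simpa using hd
  · rw [arr_refl, Category.comp_id]

theorem close_mono {d e : ℝ} (hde : d ≤ e) {a b : Cov x₀} (h : Close d a b) : Close e a b := by
  obtain ⟨γ, h1, h2⟩ := h
  exact ⟨γ, fun s t => (h1 s t).trans_le hde, h2⟩

theorem close_smul {d : ℝ} (g : FundamentalGroup M x₀) {a b : Cov x₀} (h : Close d a b) :
    Close d (g • a) (g • b) := by
  obtain ⟨γ, h1, h2⟩ := h
  refine ⟨γ, h1, ?_⟩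
  show (g⁻¹ : FundamentalGroup M x₀) ≫ b.cl = ((g⁻¹ : FundamentalGroup M x₀) ≫ a.cl) ≫ arr γ
  rw [h2, Category.assoc]

end CoA
end

/-- TASK Co1. The action is free. Proof: if `g⁻¹ ≫ a.cl = a.cl` then `g⁻¹ = 1`, as `a.cl` is an
isomorphism. -/
alias smul_free := CoA.smul_free

section

variable {M : Type} [MetricSpace M] {x₀ : M}


end

/-- TASK Co2. -/
alias close_refl := CoA.close_refl

section

variable {M : Type} [MetricSpace M] {x₀ : M}


end

section
open CategoryTheory

namespace CoB

open Pool.Agent.MP_0c3001_gt.Br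

variable {M : Type} [MetricSpace M] {x₀ : M}

theorem close_symm {d : ℝ} {a b : Cov x₀} (h : Close d a b) : Close d b a := by
  obtain ⟨γ, h1, h2⟩ := h
  refine ⟨γ.symm, fun s t => ?_, ?_⟩
  · rw [Path.symm_apply, Path.symm_apply]
    exact h1 _ _
  · rw [arr_symm, h2, Category.assoc, Groupoid.comp_inv, Category.comp_id]

theorem close_trans {d e : ℝ} {a b c : Cov x₀} (h : Close d a b) (h' : Close e b c) :
    Close (d + e) a c := by
  obtain ⟨γ, h1, h2⟩ := h
  obtain ⟨γ', h1', h2'⟩ := h'
  have hd : 0 < d := dist_nonneg.trans_lt (h1 0 0)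
  have he : 0 < e := dist_nonneg.trans_lt (h1' 0 0)
  have hval : ∀ s, (∃ t, (γ.trans γ') s = γ t) ∨ ∃ t, (γ.trans γ') s = γ' t := by
    intro s
    rw [Path.trans_apply]
    split_ifs with hs
    · exact Or.inl ⟨_, rfl⟩
    · exact Or.inr ⟨_, rfl⟩
  have hb : γ 1 = γ' 0 := by rw [Path.target, Path.source]
  refine ⟨γ.trans γ', fun s t => ?_, ?_⟩
  · rcases hval s with ⟨s', hs⟩ | ⟨s', hs⟩ <;> rcases hval t with ⟨t', ht⟩ | ⟨t', ht⟩ <;>
      rw [hs, ht]
    · have := h1 s' t'
      linarith
    · have h3 := dist_triangle (γ s') (γ 1) (γ' t')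
      have h4 := h1 s' 1
      have h5 := h1' 0 t'
      rw [← hb] at h5
      linarith
    · have h3 := dist_triangle (γ' s') (γ 1) (γ t')
      have h4 := h1 1 t'
      have h5 := h1' s' 0
      rw [← hb] at h5
      linarith
    · have := h1' s' t'
      linarith
  · rw [arr_trans, h2', h2, Category.assoc]

theorem eq_of_close {d : ℝ} (hd : ∀ (x : M) (γ : Path x x), (∀ s t, dist (γ s) (γ t) < d) →
    γ.Homotopic (Path.refl x)) {a b : Cov x₀} (h : Close d a b) (hpt : a.pt = b.pt) : a = b := by
  obtain ⟨p, c⟩ := a
  obtain ⟨q, c'⟩ := b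
  obtain ⟨γ, h1, h2⟩ := h
  simp only at hpt
  subst hpt
  have h3 := hd _ γ h1
  have h4 : arr γ = 𝟙 _ := by
    rw [← arr_refl]
    exact (arr_eq_iff _ _).2 h3
  simp only at h2
  rw [h4, Category.comp_id] at h2
  rw [h2]

end CoB
end

/-- TASK Co3. -/
alias close_symm := CoB.close_symm

section

variable {M : Type} [MetricSpace M] {x₀ : M}


end

/-- TASK Co4. Proof: concatenate the paths; two points of the concatenation have distance at most
the sum of the distances to the middle point. -/
alias close_trans := CoB.close_trans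

section

variable {M : Type} [MetricSpace M] {x₀ : M}


end

/-- TASK Co5. -/
alias close_mono := CoA.close_mono

section

variable {M : Type} [MetricSpace M] {x₀ : M}


end

/-- TASK Co6. -/
alias close_smul := CoA.close_smul

section

variable {M : Type} [MetricSpace M] {x₀ : M}


end

/-- TASK Co7. If short loops are null-homotopic, a close point over the same point of `M` is equal.
Proof: `cases` on the equality of the points; the path is a short loop, so its arrow is `𝟙`. -/
alias eq_of_close := CoB.eq_of_close

section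

variable {M : Type} [MetricSpace M] {x₀ : M}


end

end Pool.Agent.MP_0c3001_gt.Br
end

section

/-!
An equivariant chain map which sorts the lists on which a label determines the elements.
-/

set_option autoImplicit false

namespace Pool.Agent.MP_0c3001_gt.Br

section

variable {X : Type}

/-- The label determines the elements of the list. -/
def Gd (lab : X → ℕ) (l : List X) : Prop := ∀ a ∈ l, ∀ b ∈ l, lab a = lab b → a = b

/-- The labels are strictly increasing. -/
def Inc (lab : X → ℕ) (l : List X) : Prop := l.Pairwise (fun a b => lab a < lab b)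

open Classical in
/-- The cone, but `0` on the lists which start with `b`. -/
noncomputable def cs (b : X) : Ch X →ₗ[ℤ] Ch X :=
  Finsupp.linearCombination ℤ (fun t => if t.head? = some b then 0 else sg (b :: t))

end

section
namespace OrA

open Pool.Agent.MP_0c3001_gt.Br

variable {X : Type}

theorem cs_sg (b : X) (t : List X) (h : t.head? ≠ some b) : cs b (sg t) = sg (b :: t) := by
  classical
  rw [cs, Finsupp.linearCombination_single, one_smul, if_neg h]

theorem cs_sg_cons (b : X) (t : List X) : cs b (sg (b :: t)) = 0 := by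
  classical
  rw [cs, Finsupp.linearCombination_single, one_smul]
  exact if_pos rfl

theorem length_le_of_inc {lab : X → ℕ} {t : List X} {N : ℕ} (h : Inc lab t)
    (hN : ∀ x ∈ t, lab x < N) : t.length ≤ N := by
  have h1 : (t.map lab).Nodup := by
    have h2 : t.Pairwise (fun a b => lab a ≠ lab b) := List.Pairwise.imp (fun hab => ne_of_lt hab) h
    exact List.pairwise_map.2 h2
  have h3 : (t.map lab).toFinset ⊆ Finset.range N := by
    intro k hk
    rw [List.mem_toFinset, List.mem_map] at hk
    obtain ⟨x, hx, rfl⟩ := hk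
    exact Finset.mem_range.2 (hN x hx)
  have h4 := Finset.card_le_card h3
  rw [List.toFinset_card_of_nodup h1, List.length_map, Finset.card_range] at h4
  exact h4

end OrA
end

/-- TASK Or1. -/
alias cs_sg := OrA.cs_sg

section

variable {X : Type}


end

/-- TASK Or2. -/
alias cs_sg_cons := OrA.cs_sg_cons

section

variable {X : Type}


end

section
namespace Or3

open Pool.Agent.MP_0c3001_gt.Br

variable {X : Type}

/-- `cs b` is the cone on chains without lists that start with `b`. -/
theorem cs_eq_cone (b : X) {c : Ch X} (hc : Spt (fun t => t.head? ≠ some b) c) :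
    cs b c = cone b c := by
  have h : c = ∑ l ∈ c.support, c l • Finsupp.single l (1 : ℤ) := by
    conv_lhs => rw [← Finsupp.sum_single c]
    simp [Finsupp.sum]
  rw [h, map_sum, map_sum]
  apply Finset.sum_congr rfl
  intro l hl
  rw [map_smul, map_smul]
  congr 1
  exact (cs_sg b l (hc l hl)).trans (cone_sg b l).symm

/-- `cs b` kills the cones. -/
theorem cs_cone (b : X) (c : Ch X) : cs b (cone b c) = 0 := by
  have h : ((cs b).comp (cone b) : Ch X →ₗ[ℤ] Ch X) = 0 := by
    apply lin_ext
    intro l
    simp only [LinearMap.comp_apply, LinearMap.zero_apply]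
    rw [cone_sg, cs_sg_cons]
  simpa using LinearMap.congr_fun h c

theorem bd_cs_sg (lab : X → ℕ) (b : X) {t : List X}
    (ht : Inc lab t ∧ ∀ x ∈ t, x = b ∨ lab b < lab x) :
    bd (cs b (sg t)) = sg t - cs b (bd (sg t)) := by
  by_cases hh : t.head? = some b
  · obtain ⟨s, rfl⟩ : ∃ s, t = b :: s := by
      cases t with
      | nil => simp at hh
      | cons a s =>
        simp only [List.head?_cons, Option.some.injEq] at hh
        exact ⟨s, by rw [hh]⟩
    have hb : b ∉ s := by
      intro hb
      have := (List.pairwise_cons.1 ht.1).1 b hb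
      exact lt_irrefl _ this
    have hs : cs b (sg s) = cone b (sg s) := by
      apply cs_eq_cone
      apply Spt.sg
      intro h
      apply hb
      exact List.mem_of_mem_head? h
    rw [cs_sg_cons, map_zero, bd_cons, map_sub, cs_cone, sub_zero, hs, cone_sg, sub_self]
  · have hb : b ∉ t := by
      intro hb
      cases t with
      | nil => simp at hb
      | cons a s =>
        have hab : a ≠ b := by
          intro h
          apply hh
          rw [h]; rfl
        have h1 : b ∈ s := by
          rcases List.mem_cons.1 hb with h | h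
          · exact absurd h.symm hab
          · exact h
        have h2 := (List.pairwise_cons.1 ht.1).1 b h1
        rcases ht.2 a (by simp) with h3 | h3
        · exact hab h3
        · exact lt_irrefl _ (h2.trans h3)
    have h2 : cs b (bd (sg t)) = cone b (bd (sg t)) := by
      apply cs_eq_cone
      rw [bd_sg]
      refine (spt_bdl t).mono ?_
      intro l hl h
      exact hb (hl.1.subset (List.mem_of_mem_head? h))
    rw [h2, cs_sg b t hh, bd_cons]

theorem bd_cs (lab : X → ℕ) (b : X) {c : Ch X}
    (hc : Spt (fun t => Inc lab t ∧ ∀ x ∈ t, x = b ∨ lab b < lab x) c) :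
    bd (cs b c) = c - cs b (bd c) := by
  have h : c = ∑ l ∈ c.support, c l • Finsupp.single l (1 : ℤ) := by
    conv_lhs => rw [← Finsupp.sum_single c]
    simp [Finsupp.sum]
  rw [h]
  simp only [map_sum, map_smul]
  rw [← Finset.sum_sub_distrib]
  apply Finset.sum_congr rfl
  intro l hl
  rw [← smul_sub]
  congr 1
  exact bd_cs_sg lab b (hc l hl)

end Or3
end

/-- TASK Or3. `cs b` is a contraction of the complex of the increasing lists whose elements are `b` or
have a larger label. Proof: it suffices to treat `sg t` (`lin_congr`). If `t` does not start with `b`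
then `b ∉ t` (a later element equal to `b` would have a larger label than the head, whose label is at
least `lab b`), so no list of `bd (sg t)` starts with `b` (`spt_bdl`: sublists of `t`) and
`cs b (bd (sg t)) = cone b (bd (sg t))`; `bd_cons`. If `t = b :: s` then `b ∉ s`, `cs b (sg t) = 0` and
`bd (sg t) = sg s - cone b (bd (sg s))`, so `cs b (bd (sg t)) = sg (b :: s) - 0`. -/
alias bd_cs := Or3.bd_cs

section

variable {X : Type}


end

section
namespace Or4

open Pool.Agent.MP_0c3001_gt.Br

variable {X : Type}

theorem spt_cs (lab : X → ℕ) (b : X) {c : Ch X} {m : ℕ} {l : List X} (hb : b ∈ l)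
    (hc : Spt (fun t => t.length = m ∧ (∀ x ∈ t, x ∈ l) ∧ Inc lab t ∧
      ∀ x ∈ t, x = b ∨ lab b < lab x) c) :
    Spt (fun t => t.length = m + 1 ∧ (∀ x ∈ t, x ∈ l) ∧ Inc lab t) (cs b c) := by
  refine Spt.lin hc (cs b) ?_
  rintro t ⟨h1, h2, h3, h4⟩
  by_cases hh : t.head? = some b
  · obtain ⟨s, rfl⟩ : ∃ s, t = b :: s := by
      cases t with
      | nil => simp at hh
      | cons a s =>
        simp only [List.head?_cons, Option.some.injEq] at hh
        exact ⟨s, by rw [hh]⟩
    have h5 : cs b (Finsupp.single (b :: s) 1) = 0 := cs_sg_cons b s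
    rw [h5]
    exact Spt.zero
  · have h5 : cs b (Finsupp.single t 1) = sg (b :: t) := cs_sg b t hh
    rw [h5]
    apply Spt.sg
    refine ⟨by simp [h1], ?_, ?_⟩
    · intro x hx
      rcases List.mem_cons.1 hx with rfl | hx
      · exact hb
      · exact h2 x hx
    · refine List.pairwise_cons.2 ⟨?_, h3⟩
      have hbt : b ∉ t := by
        intro hbt
        cases t with
        | nil => simp at hbt
        | cons a s =>
          have hab : a ≠ b := by
            intro h
            apply hh
            rw [h]; rfl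
          have h1 : b ∈ s := by
            rcases List.mem_cons.1 hbt with h | h
            · exact absurd h.symm hab
            · exact h
          have h2 := (List.pairwise_cons.1 h3).1 b h1
          rcases h4 a (by simp) with h3 | h3
          · exact hab h3
          · exact lt_irrefl _ (h2.trans h3)
      intro x hx
      rcases h4 x hx with h | h
      · exact absurd (h ▸ hx) hbt
      · exact h

end Or4
end

/-- TASK Or4. Supports of `cs b c`. -/
alias spt_cs := Or4.spt_cs

section

variable {X : Type}


end

section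
namespace Or5

open Pool.Agent.MP_0c3001_gt.Br

section

variable {X : Type}

theorem map_good {G : Type} [Group G] [MulAction G X] (lab : X → ℕ)
    (hlab : ∀ (g : G) a, lab (g • a) = lab a) (g : G) {l : List X}
    (h : Gd lab (l.map (fun a => g • a))) : Gd lab l := by
  intro a ha b hb hab
  have := h (g • a) (List.mem_map.2 ⟨a, ha, rfl⟩) (g • b) (List.mem_map.2 ⟨b, hb, rfl⟩)
    (by rw [hlab, hlab, hab])
  exact smul_left_cancel g this

theorem good_sub (lab : X → ℕ) {l s : List X} (hs : s.Sublist l) (h : Gd lab l) : Gd lab s :=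
  fun a ha b hb hab => h a (hs.subset ha) b (hs.subset hb) hab

theorem exists_min (lab : X → ℕ) (a : X) (l : List X) :
    ∃ b ∈ a :: l, ∀ x ∈ a :: l, lab b ≤ lab x := by
  induction l generalizing a with
  | nil =>
    refine ⟨a, List.mem_cons_self, ?_⟩
    intro x hx
    rw [List.mem_singleton.1 hx]
  | cons c l ih =>
    obtain ⟨b, hb, hmin⟩ := ih c
    rcases le_total (lab a) (lab b) with h | h
    · refine ⟨a, List.mem_cons_self, ?_⟩
      intro x hx
      rcases List.mem_cons.1 hx with rfl | hx
      · exact le_rfl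
      · exact h.trans (hmin x hx)
    · refine ⟨b, List.mem_cons_of_mem _ hb, ?_⟩
      intro x hx
      rcases List.mem_cons.1 hx with rfl | hx
      · exact h
      · exact hmin x hx

/-- TASK Or5. The sorting chain map. -/
theorem exists_sort {G : Type} [Group G] [MulAction G X]
    (hfree : ∀ (g : G) (a : X), g • a = a → g = 1) (lab : X → ℕ)
    (hlab : ∀ (g : G) a, lab (g • a) = lab a) :
    ∃ S : Ch X →ₗ[ℤ] Ch X, (∀ (g : G) c, S (act g c) = act g (S c)) ∧ S (sg []) = sg [] ∧
      (∀ c, bd (S c) = S (bd c)) ∧
      ∀ l, Spt (fun t => t.length = l.length ∧ (Gd lab l → (∀ x ∈ t, x ∈ l) ∧ Inc lab t))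
        (S (sg l)) := by
  apply exists_lift_equiv hfree
    (fun l t => t.length = l.length ∧ (Gd lab l → (∀ x ∈ t, x ∈ l) ∧ Inc lab t))
    (fun l t => t.length + 1 = l.length ∧ (Gd lab l → (∀ x ∈ t, x ∈ l) ∧ Inc lab t))
  · rintro g l t ⟨h1, h2⟩
    refine ⟨by simpa using h1, ?_⟩
    intro h
    obtain ⟨h3, h4⟩ := h2 (map_good lab hlab g h)
    refine ⟨?_, ?_⟩
    · intro x hx
      obtain ⟨y, hy, rfl⟩ := List.mem_map.1 hx
      exact List.mem_map.2 ⟨y, h3 y hy, rfl⟩
    · unfold Inc at h4 ⊢
      rw [List.pairwise_map]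
      refine h4.imp ?_
      intro a b hab
      rw [hlab, hlab]
      exact hab
  · refine ⟨rfl, ?_⟩
    intro _
    refine ⟨?_, List.Pairwise.nil⟩
    intro x hx
    simp at hx
  · rintro l s hs hl t ⟨h1, h2⟩
    refine ⟨by omega, ?_⟩
    intro h
    obtain ⟨h3, h4⟩ := h2 (good_sub lab hs h)
    exact ⟨fun x hx => hs.subset (h3 x hx), h4⟩
  · intro a l y hy hb
    by_cases hgood : Gd lab (a :: l)
    · obtain ⟨b, hbm, hmin⟩ := exists_min lab a l
      have hlt : ∀ x ∈ a :: l, x = b ∨ lab b < lab x := by
        intro x hx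
        rcases (hmin x hx).lt_or_eq with h | h
        · exact Or.inr h
        · exact Or.inl (hgood b hbm x hx h).symm
      have hy1 : Spt (fun t => Inc lab t ∧ ∀ x ∈ t, x = b ∨ lab b < lab x) y := by
        refine hy.mono ?_
        rintro t ⟨h1, h2⟩
        obtain ⟨h3, h4⟩ := h2 hgood
        exact ⟨h4, fun x hx => hlt x (h3 x hx)⟩
      have hy2 : Spt (fun t => t.length = l.length ∧ (∀ x ∈ t, x ∈ a :: l) ∧ Inc lab t ∧
          ∀ x ∈ t, x = b ∨ lab b < lab x) y := by
        refine hy.mono ?_
        rintro t ⟨h1, h2⟩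
        obtain ⟨h3, h4⟩ := h2 hgood
        exact ⟨by simpa using h1, h3, h4, fun x hx => hlt x (h3 x hx)⟩
      refine ⟨cs b y, ?_, ?_⟩
      · refine (spt_cs lab b hbm hy2).mono ?_
        rintro t ⟨h1, h2, h3⟩
        exact ⟨by simpa using h1, fun _ => ⟨h2, h3⟩⟩
      · rw [bd_cs lab b hy1, hb, map_zero, sub_zero]
    · refine ⟨cone a y, ?_, ?_⟩
      · refine Spt.cone (hy.mono ?_)
        rintro t ⟨h1, _⟩
        exact ⟨by simpa using h1, fun h => absurd h hgood⟩
      · rw [bd_cone, hb, map_zero, sub_zero]

end

end Or5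
end

/-- TASK Or5. The sorting chain map.
Proof: `exists_lift_equiv` with
`P l t := t.length = l.length ∧ (Gd lab l → (∀ x ∈ t, x ∈ l) ∧ Inc lab t)` and
`P' l t := t.length + 1 = l.length ∧ (Gd lab l → (∀ x ∈ t, x ∈ l) ∧ Inc lab t)`. For `hfill`: if
`a :: l` is not good take `cone a y`. If it is good let `b ∈ a :: l` have minimal label; the other
elements of `a :: l` have a larger label (goodness); take `cs b y` (`bd_cs`, `spt_cs`). -/
alias exists_sort := Or5.exists_sort

section

variable {X : Type}


end

/-- TASK Or6. An increasing list with labels `< N` has at most `N` elements. -/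
alias length_le_of_inc := OrA.length_le_of_inc

section

variable {X : Type}


end

end Pool.Agent.MP_0c3001_gt.Br
end
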