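import Mathlib
import Pool.Agent.Lib.MP_0c3001_gt.Mg.G001

section

/-!
Cycles of fine lists in a bounded convex set bound chains of fine lists.
-/

set_option autoImplicit false

namespace Pool.Agent.MP_0c3001_gt.Br

/-- The elements of the list are in `S` and have pairwise distances `< r`. -/
def Fine {E : Type*} [PseudoMetricSpace E] (S : Set E) (r : ℝ) (l : List E) : Prop :=
  ∀ x ∈ l, x ∈ S ∧ ∀ y ∈ l, dist x y < r


section
namespace Fi1

open Pool.Agent.MP_0c3001_gt.Br

/-- TASK Fi1. -/
theorem exists_prism {A B : Type*} (f g : A → B) {z : Ch A} {P : List A → Prop} {m : ℕ}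
    (hz : Spt (fun l => l.length = m ∧ P l) z) (hbd : bd z = 0) :
    ∃ c : Ch B, Spt (fun t => t.length = m + 1 ∧ ∃ l, P l ∧ ∀ b ∈ t, ∃ x ∈ l, b = f x ∨ b = g x) c ∧
      bd c = mp g z - mp f z := by
  obtain ⟨H, _, h2, h3⟩ := exists_homotopy (A := A) (B := B) (mp g)
    (by rw [mp_sg, List.map_nil]) (fun c => bd_mp g c) f
    (fun l b => ∃ x ∈ l, b = f x ∨ b = g x)
    (by
      rintro l s hs b ⟨x, hx, hb⟩
      exact ⟨x, hs.subset hx, hb⟩)
    (by
      intro l a ha
      exact ⟨a, ha, Or.inl rfl⟩)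
    (by
      intro l
      rw [mp_sg]
      apply Spt.sg
      refine ⟨List.length_map _, ?_⟩
      intro b hb
      obtain ⟨x, hx, rfl⟩ := List.mem_map.1 hb
      exact ⟨x, hx, Or.inr rfl⟩)
  refine ⟨H z, ?_, ?_⟩
  · refine Spt.lin hz H ?_
    intro l hl
    refine (h3 l).mono ?_
    rintro t ⟨ht1, ht2⟩
    exact ⟨by rw [ht1, hl.1], l, hl.2, ht2⟩
  · rw [h2, hbd, map_zero, sub_zero]

end Fi1
end

/-- TASK Fi1. Two maps `f`, `g` have homologous images of a cycle.
Proof: apply `exists_homotopy` with `R = mp g`, `v = f` and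
`Q l b := ∃ x ∈ l, b = f x ∨ b = g x` (`mp_sg`, `bd_mp`), and take `c = H z`; `Spt.lin` gives the
support. -/
alias exists_prism := Fi1.exists_prism


section
namespace Fi2

open Pool.Agent.MP_0c3001_gt.Br

/-- TASK Fi2. -/
theorem exists_finer {E : Type*} [PseudoMetricSpace E] {S : Set E} {r : ℝ} (hr : 0 < r) {m : ℕ}
    {z : Ch E} (hz : Spt (fun l => l.length = m ∧ Fine S r l) z) :
    ∃ r' : ℝ, 0 < r' ∧ r' < r ∧ Spt (fun l => l.length = m ∧ Fine S r' l) z := by
  classical
  let T : Finset ℝ := insert (r / 2) (z.support.biUnion fun l =>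
    l.toFinset.biUnion fun x => l.toFinset.image fun y => (dist x y + r) / 2)
  have hTne : T.Nonempty := ⟨r / 2, Finset.mem_insert_self _ _⟩
  have hlt : ∀ t ∈ T, t < r := by
    intro t ht
    rcases Finset.mem_insert.1 ht with h | h
    · rw [h]; linarith
    · obtain ⟨l, hl, h⟩ := Finset.mem_biUnion.1 h
      obtain ⟨x, hx, h⟩ := Finset.mem_biUnion.1 h
      obtain ⟨y, hy, rfl⟩ := Finset.mem_image.1 h
      have := ((hz l hl).2 x (List.mem_toFinset.1 hx)).2 y (List.mem_toFinset.1 hy)
      linarith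
  refine ⟨T.max' hTne, ?_, ?_, ?_⟩
  · have := T.le_max' (r / 2) (Finset.mem_insert_self _ _)
    linarith
  · exact hlt _ (T.max'_mem hTne)
  · intro l hl
    refine ⟨(hz l hl).1, fun x hx => ⟨((hz l hl).2 x hx).1, fun y hy => ?_⟩⟩
    have h1 := ((hz l hl).2 x hx).2 y hy
    have h2 : (dist x y + r) / 2 ∈ T := by
      apply Finset.mem_insert_of_mem
      exact Finset.mem_biUnion.2 ⟨l, hl, Finset.mem_biUnion.2 ⟨x, List.mem_toFinset.2 hx,
        Finset.mem_image.2 ⟨y, List.mem_toFinset.2 hy, rfl⟩⟩⟩
    have h3 := T.le_max' _ h2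
    linarith

end Fi2
end

/-- TASK Fi2. Finitely many lists which are fine for `r` are fine for some `r' < r`.
Proof: finite maximum over `z.support` and the pairs of elements (if there is none, take any
`r'` with `0 < r' < r`). -/
alias exists_finer := Fi2.exists_finer


section
namespace Fi3

open Pool.Agent.MP_0c3001_gt.Br

/-- TASK Fi3. Fine cycles in a bounded convex set bound fine chains. -/
theorem exists_fine_bounding {E : Type*} [NormedAddCommGroup E] [NormedSpace ℝ E] {S : Set E}
    (hS : Convex ℝ S) (hb : Bornology.IsBounded S) (hne : S.Nonempty) {r : ℝ} (hr : 0 < r) {m : ℕ}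
    {z : Ch E} (hz : Spt (fun l => l.length = m ∧ Fine S r l) z) (hbd : bd z = 0) :
    ∃ c : Ch E, Spt (fun l => l.length = m + 1 ∧ Fine S r l) c ∧ bd c = z := by
  obtain ⟨r', hr'0, hr'r, hz'⟩ := exists_finer hr hz
  obtain ⟨b, hbS⟩ := hne
  obtain ⟨D, hD⟩ := hb.subset_closedBall b
  have hD' : ∀ x ∈ S, dist x b ≤ D := fun x hx => hD hx
  obtain ⟨N, hN⟩ := exists_nat_gt (max 0 D / (r - r'))
  have hrr : 0 < r - r' := by linarith
  have hN0 : (0 : ℝ) < N := lt_of_le_of_lt (div_nonneg (le_max_left _ _) hrr.le) hN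
  have hN1 : D / N < r - r' := by
    rw [div_lt_iff₀ hN0]
    have h1 := (div_lt_iff₀ hrr).1 hN
    have h2 := le_max_right 0 D
    linarith
  let h : ℕ → E → E := fun i x => x + ((i : ℝ) / N) • (b - x)
  have hh : ∀ i x, h i x = x + ((i : ℝ) / N) • (b - x) := fun i x => rfl
  have hmap : ∀ i, i ≤ N → ∀ x ∈ S, h i x ∈ S := by
    intro i hi x hx
    have h1 : (i : ℝ) / N ≤ 1 := by
      rw [div_le_one hN0]
      exact_mod_cast hi
    have h2 : (0 : ℝ) ≤ (i : ℝ) / N := by positivity
    have h3 := hS.add_smul_sub_mem hx hbS ⟨h2, h1⟩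
    exact h3
  have hdist : ∀ i, i ≤ N → ∀ x y, dist (h i x) (h i y) ≤ dist x y := by
    intro i hi x y
    have h1 : (i : ℝ) / N ≤ 1 := by
      rw [div_le_one hN0]
      exact_mod_cast hi
    have h2 : (0 : ℝ) ≤ (i : ℝ) / N := by positivity
    rw [dist_eq_norm, dist_eq_norm, hh, hh]
    have h3 : x + ((i : ℝ) / N) • (b - x) - (y + ((i : ℝ) / N) • (b - y)) =
        (1 - (i : ℝ) / N) • (x - y) := by module
    rw [h3, norm_smul, Real.norm_of_nonneg (by linarith)]
    exact mul_le_of_le_one_left (norm_nonneg _) (by linarith)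
  have hstep : ∀ i, ∀ x ∈ S, dist (h i x) (h (i + 1) x) < r - r' := by
    intro i x hx
    rw [dist_eq_norm, hh, hh]
    have h3 : x + ((i : ℝ) / N) • (b - x) - (x + (((i + 1 : ℕ) : ℝ) / N) • (b - x)) =
        ((1 : ℝ) / N) • (x - b) := by
      push_cast
      rw [add_div]
      module
    rw [h3, norm_smul, Real.norm_of_nonneg (by positivity), ← dist_eq_norm]
    calc (1 : ℝ) / N * dist x b ≤ (1 : ℝ) / N * D :=
          mul_le_mul_of_nonneg_left (hD' x hx) (by positivity)
      _ = D / N := by ring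
      _ < r - r' := hN1
  have hprism : ∀ i : ℕ, ∃ c : Ch E, i < N → (Spt (fun l => l.length = m + 1 ∧ Fine S r l) c ∧
      bd c = mp (h (i + 1)) z - mp (h i) z) := by
    intro i
    by_cases hi : i < N
    · obtain ⟨c, hc, hcb⟩ := exists_prism (h i) (h (i + 1)) hz' hbd
      refine ⟨c, fun _ => ⟨hc.mono ?_, hcb⟩⟩
      rintro t ⟨ht, l, hl, htl⟩
      refine ⟨ht, fun u hu => ?_⟩
      obtain ⟨x, hx, hux⟩ := htl u hu
      refine ⟨?_, fun v hv => ?_⟩
      · rcases hux with rfl | rfl
        · exact hmap i hi.le x (hl x hx).1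
        · exact hmap (i + 1) hi x (hl x hx).1
      · obtain ⟨y, hy, hvy⟩ := htl v hv
        have hxy : dist x y < r' := (hl x hx).2 y hy
        have h1 : dist (h i x) (h i y) ≤ dist x y := hdist i hi.le x y
        have h2 : dist (h (i + 1) x) (h (i + 1) y) ≤ dist x y := hdist (i + 1) hi x y
        rcases hux with rfl | rfl
        · rcases hvy with rfl | rfl
          · linarith
          · have h3 := dist_triangle (h i x) (h i y) (h (i + 1) y)
            have h4 := hstep i y (hl y hy).1
            linarith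
        · rcases hvy with rfl | rfl
          · have h3 := dist_triangle (h (i + 1) x) (h i x) (h i y)
            have h4 := hstep i x (hl x hx).1
            rw [dist_comm] at h4
            linarith
          · linarith
    · exact ⟨0, fun h => absurd h hi⟩
  choose c hc using hprism
  have hN00 : h 0 = id := by
    funext x
    rw [hh]
    simp
  have hNN : ∀ x, h N x = b := by
    intro x
    rw [hh, div_self hN0.ne']
    module
  refine ⟨cone b (mp (h N) z) - ∑ i ∈ Finset.range N, c i, ?_, ?_⟩
  · refine Spt.sub (Spt.cone (Spt.mp (hz'.mono ?_))) (Spt.sum fun i hi =>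
      (hc i (Finset.mem_range.1 hi)).1)
    rintro l ⟨hl, _⟩
    have h0 : ∀ u ∈ b :: l.map (h N), u = b := by
      intro u hu
      rcases List.mem_cons.1 hu with rfl | hu
      · rfl
      · obtain ⟨x, _, rfl⟩ := List.mem_map.1 hu
        exact hNN x
    refine ⟨by simp [hl], fun u hu => ⟨?_, fun v hv => ?_⟩⟩
    · rw [h0 u hu]
      exact hbS
    · rw [h0 u hu, h0 v hv, dist_self]
      exact hr
  · rw [map_sub, bd_cone, bd_mp, hbd, map_zero, map_zero, sub_zero, map_sum]
    have h1 : ∑ i ∈ Finset.range N, bd (c i) =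
        ∑ i ∈ Finset.range N, (mp (h (i + 1)) z - mp (h i) z) :=
      Finset.sum_congr rfl fun i hi => (hc i (Finset.mem_range.1 hi)).2
    rw [h1, Finset.sum_range_sub (fun i => mp (h i) z), hN00, mp_id]
    abel

end Fi3
end

/-- TASK Fi3. Fine cycles in a bounded convex set bound fine chains.
Proof: take `r' < r` from `exists_finer` and `b ∈ S`, and a natural number `N > 0` with
`dist x b / N < r - r'` for all `x ∈ S` (`S` is bounded). Let `h i x = x + (i / N) • (b - x)`,
`i ≤ N`; `h i` maps `S` to `S`, `h 0 = id`, `h N x = b`, `dist (h i x) (h i y) ≤ dist x y`,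
`dist (h i x) (h (i + 1) x) = dist x b / N < r - r'`. By `exists_prism` there is `c i` with
`bd (c i) = mp (h (i + 1)) z - mp (h i) z` and support in the fine lists of length `m + 1` (the
distance of `h i x` or `h (i + 1) x` to `h i y` or `h (i + 1) y` is `< r' + (r - r')`).
`c := cone b (mp (h N) z) - ∑ i < N, c i`; `bd (cone b (mp (h N) z)) = mp (h N) z` by `bd_cone`,
since `mp (h N) z` is a cycle; its lists consist of `b` only. -/
alias exists_fine_bounding := Fi3.exists_fine_bounding

end Pool.Agent.MP_0c3001_gt.Br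
end

section

/-!
Local extension in compact manifolds.
-/

set_option autoImplicit false

open Metric

namespace Pool.Agent.MP_0c3001_gt.Br

/-- Small balls of `M` factor through small images of the unit ball of a Euclidean space. -/
def BallProp (M : Type) [MetricSpace M] : Prop :=
  ∃ n : ℕ, ∀ η : ℝ, 0 < η → ∃ δ : ℝ, 0 < δ ∧ ∀ x : M,
    ∃ (ψ : EuclideanSpace ℝ (Fin n) → M) (θ : M → EuclideanSpace ℝ (Fin n)),
      ContinuousOn ψ (ball 0 1) ∧ ContinuousOn θ (ball x δ) ∧ Set.MapsTo θ (ball x δ) (ball 0 1) ∧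
      (∀ y ∈ ball x δ, ψ (θ y) = y) ∧ ∀ b ∈ ball (0 : EuclideanSpace ℝ (Fin n)) 1,
        ∀ b' ∈ ball (0 : EuclideanSpace ℝ (Fin n)) 1, dist (ψ b) (ψ b') < η


section
open Metric

namespace Ch1

theorem ballProp_of_chartedSpace (n : ℕ) (M : Type) [MetricSpace M] [CompactSpace M]
    [ChartedSpace (EuclideanSpace ℝ (Fin n)) M] : BallProp M := by
  refine ⟨n, fun η hη => ?_⟩
  have key : ∀ x : M, ∃ r : ℝ, 0 < r ∧
      closedBall (chartAt (EuclideanSpace ℝ (Fin n)) x x) r ⊆
        (chartAt (EuclideanSpace ℝ (Fin n)) x).target ∧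
      ∀ z ∈ ball (chartAt (EuclideanSpace ℝ (Fin n)) x x) r,
        dist ((chartAt (EuclideanSpace ℝ (Fin n)) x).symm z) x < η / 3 := by
    intro x
    have hx : x ∈ (chartAt (EuclideanSpace ℝ (Fin n)) x).source := mem_chart_source _ x
    generalize (chartAt (EuclideanSpace ℝ (Fin n)) x) = φ at hx
    have ht : φ x ∈ φ.target := φ.map_source hx
    obtain ⟨r1, hr1, hb1⟩ := Metric.isOpen_iff.1 φ.open_target (φ x) ht
    have hc : ContinuousAt φ.symm (φ x) := φ.continuousAt_symm ht
    obtain ⟨r2, hr2, hb2⟩ := Metric.continuousAt_iff.1 hc (η/3) (by positivity)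
    refine ⟨min (r1/2) r2, by positivity, ?_, ?_⟩
    · intro z hz
      apply hb1
      rw [mem_closedBall] at hz
      rw [mem_ball]
      have : min (r1/2) r2 ≤ r1/2 := min_le_left _ _
      linarith
    · intro z hz
      have := @hb2 z (lt_of_lt_of_le (mem_ball.1 hz) (min_le_right _ _))
      rwa [φ.left_inv hx] at this
  choose r hr hcb hd using key
  obtain ⟨δ, hδ, hL⟩ := lebesgue_number_lemma_of_metric (isCompact_univ (X := M))
    (c := fun x => (chartAt (EuclideanSpace ℝ (Fin n)) x).source ∩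
      (chartAt (EuclideanSpace ℝ (Fin n)) x) ⁻¹'
        ball (chartAt (EuclideanSpace ℝ (Fin n)) x x) (r x))
    (fun x => (chartAt (EuclideanSpace ℝ (Fin n)) x).isOpen_inter_preimage isOpen_ball)
    (fun x _ => Set.mem_iUnion.2 ⟨x, mem_chart_source _ x, mem_ball_self (hr x)⟩)
  refine ⟨δ, hδ, fun x' => ?_⟩
  obtain ⟨x, hx⟩ := hL x' (Set.mem_univ _)
  have hrx := hr x
  have hcx := hcb x
  have hdx := hd x
  generalize r x = ρ at hrx hcx hdx hx
  generalize (chartAt (EuclideanSpace ℝ (Fin n)) x) = φ at hcx hdx hx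
  have hmem : ∀ b ∈ ball (0 : EuclideanSpace ℝ (Fin n)) 1, φ x + ρ • b ∈ ball (φ x) ρ := by
    intro b hb
    rw [mem_ball, dist_eq_norm, add_sub_cancel_left, norm_smul, Real.norm_eq_abs,
      abs_of_pos hrx]
    have : ‖b‖ < 1 := by simpa using hb
    nlinarith
  have hmaps : ∀ b ∈ ball (0 : EuclideanSpace ℝ (Fin n)) 1, φ x + ρ • b ∈ φ.target :=
    fun b hb => hcx (ball_subset_closedBall (hmem b hb))
  refine ⟨fun b => φ.symm (φ x + ρ • b), fun y => ρ⁻¹ • (φ y - φ x), ?_, ?_, ?_, ?_, ?_⟩
  · exact φ.continuousOn_symm.comp (by fun_prop) hmaps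
  · have h1 : ContinuousOn φ (ball x' δ) := φ.continuousOn.mono (fun y hy => (hx hy).1)
    have h2 : ContinuousOn (fun y => φ y - φ x) (ball x' δ) := h1.sub continuousOn_const
    exact h2.const_smul ρ⁻¹
  · intro y hy
    have h2 := (hx hy).2
    rw [Set.mem_preimage, mem_ball, dist_eq_norm] at h2
    rw [mem_ball, dist_zero_right, norm_smul, norm_inv, Real.norm_eq_abs, abs_of_pos hrx]
    rw [inv_mul_lt_iff₀ hrx, mul_one]
    exact h2
  · intro y hy
    have h1 := (hx hy).1
    have : φ x + ρ • ρ⁻¹ • (φ y - φ x) = φ y := by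
      rw [smul_inv_smul₀ hrx.ne']
      abel
    show φ.symm (φ x + ρ • ρ⁻¹ • (φ y - φ x)) = y
    rw [this]
    exact φ.left_inv h1
  · intro b hb b' hb'
    have e1 := hdx _ (hmem b hb)
    have e2 := hdx _ (hmem b' hb')
    have e3 := dist_triangle_right (φ.symm (φ x + ρ • b)) (φ.symm (φ x + ρ • b')) x
    show dist (φ.symm (φ x + ρ • b)) (φ.symm (φ x + ρ • b')) < η
    linarith

end Ch1
end

/-- TASK Ch1. Proof: for `x : M` let `φ = chartAt _ x`; `φ.symm` is continuous on the open set
`φ.target`, so there is `r > 0` with `closedBall (φ x) r ⊆ φ.target` and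
`dist (φ.symm z) x < η / 3` for `z ∈ ball (φ x) r`. The set
`U x = φ.source ∩ φ ⁻¹' ball (φ x) r` is open and contains `x`. Let `δ` be a Lebesgue number of
the cover `U` (`lebesgue_number_lemma_of_metric` for the compact set `Set.univ`). For `x'`
choose `x` with `ball x' δ ⊆ U x`, and let `ψ b = φ.symm (φ x + r • b)`,
`θ y = r⁻¹ • (φ y - φ x)`. -/
alias ballProp_of_chartedSpace := Ch1.ballProp_of_chartedSpace

/-- Local extension with the constants `η`, `δ`. -/
def LocExt (M : Type) [MetricSpace M] (η δ : ℝ) : Prop :=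
  ∀ (Y : Type) [TopologicalSpace Y] [NormalSpace Y] (A : Set Y) (f : Y → M), IsClosed A →
    ContinuousOn f A → (∀ a ∈ A, ∀ b ∈ A, dist (f a) (f b) < δ) →
    ∃ F : Y → M, Continuous F ∧ Set.EqOn F f A ∧ ∀ y y', dist (F y) (F y') < η


section
open Metric

namespace Ch2

theorem exists_locExt {M : Type} [MetricSpace M] (hM : BallProp M) (η : ℝ) (hη : 0 < η) :
    ∃ δ : ℝ, 0 < δ ∧ LocExt M η δ := by
  obtain ⟨n, hn⟩ := hM
  obtain ⟨δ, hδ, hx⟩ := hn η hη
  refine ⟨δ, hδ, ?_⟩
  intro Y _ _ A f hA hf hfd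
  rcases isEmpty_or_nonempty Y with hY | hY
  · refine ⟨f, ?_, fun _ _ => rfl, fun y => (hY.false y).elim⟩
    exact continuous_of_const (fun y => (hY.false y).elim)
  rcases A.eq_empty_or_nonempty with hAe | ⟨a, ha⟩
  · obtain ⟨y0⟩ := hY
    refine ⟨fun _ => f y0, continuous_const, ?_, ?_⟩
    · rw [hAe]; exact fun y hy => hy.elim
    · intro y y'
      simpa using hη
  obtain ⟨ψ, θ, hψ, hθ, hm, hinv, hsm⟩ := hx (f a)
  have hfm : Set.MapsTo f A (ball (f a) δ) := fun b hb => mem_ball.2 (hfd b hb a ha)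
  let g : C(A, EuclideanSpace ℝ (Fin n)) :=
    ⟨fun x => θ (f x), continuousOn_iff_continuous_domRestrict.1 (hθ.comp hf hfm)⟩
  have hg : ∀ x, g x ∈ ball (0 : EuclideanSpace ℝ (Fin n)) 1 := fun x => hm (hfm x.2)
  have := Metric.instTietzeExtensionBall (𝕜 := ℝ) (E := EuclideanSpace ℝ (Fin n))
    (r := 1) one_pos
  obtain ⟨G, hG1, hG2⟩ := ContinuousMap.exists_forall_mem_restrict_eq hA g hg
  refine ⟨fun y => ψ (G y), ?_, ?_, ?_⟩
  · exact hψ.comp_continuous G.continuous hG1
  · intro y hy
    have h1 : G y = θ (f y) := by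
      have := DFunLike.congr_fun hG2 (⟨y, hy⟩ : A)
      exact this
    show ψ (G y) = f y
    rw [h1]
    exact hinv _ (hfm hy)
  · intro y y'
    exact hsm _ (hG1 y) _ (hG1 y')

end Ch2
end

/-- TASK Ch2. Proof: take `δ`, `ψ`, `θ` from `BallProp`. If `A` is empty take a constant map (if
`Y` is empty take `f`). Otherwise let `a ∈ A`, `x = f a`: `f` maps `A` to `ball x δ`, so `θ ∘ f` is
continuous on `A` with values in `ball 0 1`. By the Tietze extension theorem
(`Metric.instTietzeExtensionBall` with `𝕜 = ℝ`, `r = 1`, `ContinuousMap.exists_restrict_eq` or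
`ContinuousMap.exists_extension'`) it extends to a continuous map of `Y` to `ball 0 1`; compose with
`ψ`. -/
alias exists_locExt := Ch2.exists_locExt


section
open Metric

namespace Ch3

open Pool.Agent.MP_0c3001_gt.Br

/-- TASK Ch3. Near points are joined by short paths. -/
theorem exists_short_path {M : Type} [MetricSpace M] (hM : BallProp M) (η : ℝ) (hη : 0 < η) :
    ∃ δ : ℝ, 0 < δ ∧ ∀ x y : M, dist x y < δ → ∃ γ : Path x y, ∀ s t, dist (γ s) (γ t) < η := by
  obtain ⟨n, hn⟩ := hM
  obtain ⟨δ, hδ, h⟩ := hn η hη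
  refine ⟨δ, hδ, fun x y hxy => ?_⟩
  obtain ⟨ψ, θ, hψ, hθ, hm, hψθ, hd⟩ := h x
  have hx : x ∈ ball x δ := mem_ball_self hδ
  have hy : y ∈ ball x δ := by rw [mem_ball, dist_comm]; exact hxy
  have hin : ∀ t : unitInterval, AffineMap.lineMap (θ x) (θ y) (t : ℝ) ∈
      ball (0 : EuclideanSpace ℝ (Fin n)) 1 := fun t =>
    (convex_ball _ _).segment_subset (hm hx) (hm hy)
      (by
        rw [segment_eq_image_lineMap]
        exact ⟨t, t.2, rfl⟩)
  refine ⟨{ toFun := fun t => ψ (AffineMap.lineMap (θ x) (θ y) (t : ℝ))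
            continuous_toFun := ?_
            source' := ?_
            target' := ?_ }, fun s t => hd _ (hin s) _ (hin t)⟩
  · exact hψ.comp_continuous (AffineMap.lineMap_continuous.comp continuous_subtype_val) hin
  · simp [hψθ x hx]
  · simp [hψθ y hy]

end Ch3
end

/-- TASK Ch3. Near points are joined by short paths.
Proof: apply `BallProp`: for `y ∈ ball x δ` compose the segment from `θ x` to `θ y` in the ball with
`ψ`. -/
alias exists_short_path := Ch3.exists_short_path


section
open Metric

namespace Ch4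

open Pool.Agent.MP_0c3001_gt.Br

/-- TASK Ch4. Short loops are null-homotopic. -/
theorem exists_short_loop {M : Type} [MetricSpace M] (hM : BallProp M) :
    ∃ δ : ℝ, 0 < δ ∧ ∀ (x : M) (γ : Path x x), (∀ s t, dist (γ s) (γ t) < δ) →
      γ.Homotopic (Path.refl x) := by
  obtain ⟨n, hn⟩ := hM
  obtain ⟨δ, hδ, h⟩ := hn 1 one_pos
  refine ⟨δ, hδ, fun x γ hγ => ?_⟩
  obtain ⟨ψ, θ, hψ, hθ, hm, hψθ, _⟩ := h x
  have hx : x ∈ ball x δ := mem_ball_self hδ
  have hγm : ∀ t, γ t ∈ ball x δ := by
    intro t
    have := hγ t 0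
    rw [γ.source] at this
    exact this
  have hin : ∀ p : unitInterval × unitInterval,
      AffineMap.lineMap (θ (γ p.2)) (θ x) (p.1 : ℝ) ∈ ball (0 : EuclideanSpace ℝ (Fin n)) 1 :=
    fun p => (convex_ball _ _).segment_subset (hm (hγm p.2)) (hm hx)
      (by
        rw [segment_eq_image_lineMap]
        exact ⟨p.1, p.1.2, rfl⟩)
  have hcont : Continuous fun p : unitInterval × unitInterval =>
      AffineMap.lineMap (θ (γ p.2)) (θ x) (p.1 : ℝ) := by
    have h1 : Continuous fun p : unitInterval × unitInterval => θ (γ p.2) :=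
      (hθ.comp_continuous γ.continuous hγm).comp continuous_snd
    simp only [AffineMap.lineMap_apply_module]
    exact ((continuous_const.sub (continuous_subtype_val.comp continuous_fst)).smul h1).add
      ((continuous_subtype_val.comp continuous_fst).smul continuous_const)
  refine ⟨{ toFun := fun p => ψ (AffineMap.lineMap (θ (γ p.2)) (θ x) (p.1 : ℝ))
            continuous_toFun := hψ.comp_continuous hcont hin
            map_zero_left := ?_
            map_one_left := ?_
            prop' := ?_ }⟩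
  · intro t
    simp [hψθ _ (hγm t)]
  · intro t
    simp [hψθ x hx]
  · intro s t ht
    rcases ht with rfl | ht
    · simp [hψθ x hx]
    · rw [Set.mem_singleton_iff] at ht
      subst ht
      simp [hψθ x hx]

end Ch4
end

/-- TASK Ch4. Short loops are null-homotopic.
Proof: take `δ` from `BallProp` for `η = 1`. The loop `θ ∘ γ` in the ball is homotopic to a constant
loop, since the ball is convex (straight line homotopy; or `SimplyConnectedSpace` for the subtype,
`Convex.contractibleSpace`, `SimplyConnectedSpace.paths_homotopic`); compose the homotopy with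
`ψ`; `ψ (θ (γ t)) = γ t`. -/
alias exists_short_loop := Ch4.exists_short_loop

end Pool.Agent.MP_0c3001_gt.Br
end

section

/-!
Finite nets, and finiteness of the number of orbits.
-/

set_option autoImplicit false

open CategoryTheory

namespace Pool.Agent.MP_0c3001_gt.Br

section

variable {M : Type} [MetricSpace M] {x₀ : M}

end

section
open CategoryTheory

namespace Ne1

open Pool.Agent.MP_0c3001_gt.Br

variable {M : Type} [MetricSpace M]

/-- An equivariant map, close to the identity, to the points over a finite set. -/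
theorem exists_net [CompactSpace M] (hM : BallProp M) (x₀ : M) {d : ℝ} (hd : 0 < d) :
    ∃ (C : Finset M) (f : Cov x₀ → Cov x₀),
      (∀ (g : FundamentalGroup M x₀) a, f (g • a) = g • f a) ∧ (∀ a, Close d a (f a)) ∧
      ∀ a, (f a).pt ∈ C := by
  obtain ⟨δ, hδ, hshort⟩ := exists_short_path hM d hd
  obtain ⟨t, -, htf, hcov⟩ := finite_cover_balls_of_compact
    (isCompact_univ : IsCompact (Set.univ : Set M)) hδ
  have h1 : ∀ x : M, ∃ y ∈ htf.toFinset, dist x y < δ := by
    intro x
    have hx := hcov (Set.mem_univ x)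
    rw [Set.mem_iUnion₂] at hx
    obtain ⟨y, hy, hxy⟩ := hx
    exact ⟨y, htf.mem_toFinset.2 hy, hxy⟩
  choose c hc hcd using h1
  have h2 : ∀ x : M, ∃ γ : Path x (c x), ∀ s t, dist (γ s) (γ t) < d := fun x =>
    hshort x (c x) (hcd x)
  choose γ hγ using h2
  refine ⟨htf.toFinset, fun a => ⟨c a.pt, a.cl ≫ arr (γ a.pt)⟩, ?_, ?_, ?_⟩
  · intro g a
    change (⟨c a.pt, ((g⁻¹ : FundamentalGroup M x₀) ≫ a.cl) ≫ arr (γ a.pt)⟩ : Cov x₀) =
      ⟨c a.pt, (g⁻¹ : FundamentalGroup M x₀) ≫ (a.cl ≫ arr (γ a.pt))⟩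
    rw [Category.assoc]
  · intro a
    exact ⟨γ a.pt, hγ a.pt, rfl⟩
  · intro a
    exact hc a.pt

end Ne1
end

/-- TASK Ne1. An equivariant map, close to the identity, to the points over a finite set.
Proof: let `δ` be the constant of `exists_short_path` for `η = d`, and `C` a finite set such that the
balls of radius `δ` around the points of `C` cover `M` (`CompactSpace`,
`finite_cover_balls_of_compact`). For `x : M` choose `c x ∈ C` with `dist x (c x) < δ` and a path
`γ x` from `x` to `c x` with distances `< d`. Let `f a = ⟨c a.pt, a.cl ≫ arr (γ a.pt)⟩`. Equivariance: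
`smul_pt`, `smul_cl` and `Category.assoc` (definitional up to the last). -/
alias exists_net := Ne1.exists_net

section

variable {M : Type} [MetricSpace M] {x₀ : M}


end

section
open CategoryTheory

namespace Ne2

open Pool.Agent.MP_0c3001_gt.Br

variable {M : Type} [MetricSpace M] {x₀ : M}

theorem exists_lab {X : Type} (C : Finset X) :
    ∃ lab : X → ℕ, (∀ x ∈ C, lab x < C.card) ∧ ∀ x ∈ C, ∀ y ∈ C, lab x = lab y → x = y := by
  classical
  refine ⟨fun x => C.toList.idxOf x, fun x hx => ?_, fun x hx y hy h => ?_⟩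
  · rw [← Finset.length_toList]
    exact List.idxOf_lt_length_iff.2 (Finset.mem_toList.2 hx)
  · exact (List.idxOf_inj (Finset.mem_toList.2 hx)).1 h

theorem exists_smul_eq {a b : Cov x₀} (h : a.pt = b.pt) :
    ∃ g : FundamentalGroup M x₀, g • a = b := by
  obtain ⟨p, c⟩ := a
  obtain ⟨q, e⟩ := b
  cases h
  refine ⟨((e ≫ Groupoid.inv c : FundamentalGroup M x₀))⁻¹, ?_⟩
  show Cov.mk p (((((e ≫ Groupoid.inv c : FundamentalGroup M x₀))⁻¹)⁻¹ : FundamentalGroup M x₀) ≫ c) =
    Cov.mk p e
  rw [inv_inv]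
  show Cov.mk p ((e ≫ Groupoid.inv c) ≫ c) = Cov.mk p e
  rw [Category.assoc, Groupoid.inv_comp, Category.comp_id]

end Ne2
end

/-- TASK Ne2. Labels of the points of a finite set.
Proof: `lab x = C.toList.idxOf x` (`List.idxOf_lt_length_iff`, `List.idxOf_inj`). -/
alias exists_lab := Ne2.exists_lab

section

variable {M : Type} [MetricSpace M] {x₀ : M}


end

/-- TASK Ne3. The action is transitive on the points over a point of `M`.
Proof: `cases` on the equality; `g⁻¹ = b.cl ≫ Groupoid.inv a.cl`. -/
alias exists_smul_eq := Ne2.exists_smul_eq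

section

variable {M : Type} [MetricSpace M] {x₀ : M}


end

section
open CategoryTheory

namespace Ne4

open Pool.Agent.MP_0c3001_gt.Br

variable {M : Type} [MetricSpace M] {x₀ : M}

/-- TASK Ne4. Two lists of pairwise close points over the same list of points of `M` are in the same
orbit. Proof: clear if they are empty. Otherwise let `a`, `a'` be their first elements and
`g • a = a'` (`exists_smul_eq`). For corresponding elements `b`, `b'`: `Close d (g • a) (g • b)`
(`close_smul`) and `Close d a' b'`, so `Close (d + d) (g • b) b'` (`close_symm`, `close_trans`), and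
`(g • b).pt = b.pt = b'.pt`, so `g • b = b'` (`eq_of_close`). -/
theorem orbit_of_pts {d : ℝ} (hd : ∀ (x : M) (γ : Path x x), (∀ s t, dist (γ s) (γ t) < d + d) →
    γ.Homotopic (Path.refl x)) {l l' : List (Cov x₀)} (hl : Cl d l) (hl' : Cl d l')
    (h : l.map Cov.pt = l'.map Cov.pt) :
    ∃ g : FundamentalGroup M x₀, l' = l.map (fun a => g • a) := by
  cases l with
  | nil =>
    refine ⟨1, ?_⟩
    rw [List.map_nil] at h ⊢
    exact List.map_eq_nil_iff.1 h.symm
  | cons a l₁ =>
    cases l' with
    | nil => simp at h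
    | cons a' l₁' =>
      have hpt : a.pt = a'.pt := by
        rw [List.map_cons, List.map_cons] at h
        exact (List.cons_eq_cons.1 h).1
      obtain ⟨g, hg⟩ := exists_smul_eq hpt
      refine ⟨g, ?_⟩
      have key : ∀ b ∈ a :: l₁, ∀ b' ∈ a' :: l₁', b.pt = b'.pt → g • b = b' := by
        intro b hb b' hb' hbb
        have h1 : Close d a b := hl a List.mem_cons_self b hb
        have h2 : Close d a' b' := hl' a' List.mem_cons_self b' hb'
        have h3 := close_smul g h1
        rw [hg] at h3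
        exact eq_of_close hd (close_trans (close_symm h3) h2) hbb
      have main : ∀ (m m' : List (Cov x₀)), (∀ b ∈ m, b ∈ a :: l₁) → (∀ b ∈ m', b ∈ a' :: l₁') →
          m.map Cov.pt = m'.map Cov.pt → m' = m.map (fun a => g • a) := by
        intro m
        induction m with
        | nil =>
          intro m' _ _ hm
          rw [List.map_nil] at hm ⊢
          exact List.map_eq_nil_iff.1 hm.symm
        | cons b m ih =>
          intro m' hm1 hm2 hm
          cases m' with
          | nil => simp at hm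
          | cons b' m' =>
            rw [List.map_cons, List.map_cons] at hm
            obtain ⟨e1, e2⟩ := List.cons_eq_cons.1 hm
            rw [List.map_cons, key b (hm1 b List.mem_cons_self) b' (hm2 b' List.mem_cons_self) e1,
              ← ih m' (fun c hc => hm1 c (List.mem_cons_of_mem _ hc))
                (fun c hc => hm2 c (List.mem_cons_of_mem _ hc)) e2]
      exact main _ _ (fun _ hb => hb) (fun _ hb => hb) h

end Ne4
end

/-- TASK Ne4. Two lists of pairwise close points over the same list of points of `M` are in the same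
orbit. Proof: clear if they are empty. Otherwise let `a`, `a'` be their first elements and
`g • a = a'` (`exists_smul_eq`). For corresponding elements `b`, `b'`: `Close d (g • a) (g • b)`
(`close_smul`) and `Close d a' b'`, so `Close (d + d) (g • b) b'` (`close_symm`, `close_trans`), and
`(g • b).pt = b.pt = b'.pt`, so `g • b = b'` (`eq_of_close`). -/
alias orbit_of_pts := Ne4.orbit_of_pts

section

variable {M : Type} [MetricSpace M] {x₀ : M}


end

section
open CategoryTheory Pool.Agent.MP_0c3001_gt.Br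

namespace Ne5

variable {M : Type} [MetricSpace M] {x₀ : M}

theorem exists_orbits {d : ℝ} (hd : ∀ (x : M) (γ : Path x x),
    (∀ s t, dist (γ s) (γ t) < d + d) → γ.Homotopic (Path.refl x)) (C : Finset M) (N : ℕ) :
    ∃ Z : Finset (List (Cov x₀)), ∀ l : List (Cov x₀), l.length ≤ N → (∀ a ∈ l, a.pt ∈ C) → Cl d l →
      ∃ z ∈ Z, ∃ g : FundamentalGroup M x₀, l = z.map (fun a => g • a) := by
  classical
  have hfin : ((List.map (Subtype.val : {x // x ∈ C} → M)) ''
      {l : List {x // x ∈ C} | l.length ≤ N}).Finite :=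
    (List.finite_length_le {x // x ∈ C} N).image _
  let P : List M → Prop := fun m => ∃ l : List (Cov x₀), Cl d l ∧ l.map Cov.pt = m
  let pick : List M → List (Cov x₀) := fun m => if h : P m then h.choose else []
  have hpick : ∀ m, P m → Cl d (pick m) ∧ (pick m).map Cov.pt = m := by
    intro m hm
    simp only [pick]
    rw [dif_pos hm]
    exact hm.choose_spec
  refine ⟨hfin.toFinset.image pick, fun l hlen hC hcl => ?_⟩
  have hP : P (l.map Cov.pt) := ⟨l, hcl, rfl⟩
  obtain ⟨h1, h2⟩ := hpick _ hP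
  refine ⟨pick (l.map Cov.pt), Finset.mem_image_of_mem _ ?_, orbit_of_pts hd h1 hcl h2⟩
  rw [Set.Finite.mem_toFinset]
  refine ⟨l.attach.map fun a => ⟨a.1.pt, hC a.1 a.2⟩, ?_, ?_⟩
  · simpa using hlen
  · rw [List.map_map]
    have : (Subtype.val ∘ fun a : {x // x ∈ l} => (⟨a.1.pt, hC a.1 a.2⟩ : {x // x ∈ C})) =
        fun a => Cov.pt a.1 := rfl
    rw [this]
    exact List.attach_map_subtype_val l ▸ by simp
end Ne5
end

/-- TASK Ne5. Up to the action there are finitely many lists of length `≤ N` of pairwise close points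
over a finite set. Proof: the set of the lists over `C` of length `≤ N` is finite
(`List.finite_length_le`-like; e.g. `Set.Finite` of the union of `List.ofFn '' univ`); choose, for
each such list which is of the form `l.map Cov.pt` with `Cl d l`, one such `l`; `Z` is the set of the
chosen lists. Use `orbit_of_pts`. -/
alias exists_orbits := Ne5.exists_orbits

section

variable {M : Type} [MetricSpace M] {x₀ : M}


end

end Pool.Agent.MP_0c3001_gt.Br
end
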