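import Mathlib
import Pool.Agent.Lib.MP_0c3001_gt.Basic

section

/-!
# Invariance of the cohomological properties under isomorphisms of groups
-/

set_option autoImplicit false

namespace Pool.MP0c3001

open CategoryTheory CategoryTheory.Abelian Limits

noncomputable section

variable {k : Type} [CommRing k] {G Q : Type} [Group G] [Group Q]

theorem res_isEquivalence (π : G →* Q) (hπ : Function.Bijective π) :
    (Rep.resFunctor.{0} (k := k) π).IsEquivalence := by
  have h1 : (Rep.resFunctor.{0} (k := k) π).Full := Rep.full_res π hπ.2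
  have h2 : (Rep.resFunctor.{0} (k := k) π).EssSurj := by
    constructor
    intro V
    let ρ : Q →* G := (MulEquiv.ofBijective π hπ).symm.toMonoidHom
    refine ⟨Rep.res ρ V, ⟨?_⟩⟩
    refine Rep.mkIso (Representation.Equiv.mk (LinearEquiv.refl k V.V) ?_)
    intro g
    have : ρ (π g) = g := (MulEquiv.ofBijective π hπ).symm_apply_apply g
    apply LinearMap.ext
    intro x
    change V.ρ (ρ (π g)) x = V.ρ g x
    rw [this]
  exact { }

theorem ext_bij (π : G →* Q) (hπ : Function.Bijective π) (V : Rep.{0} k Q) (i : ℕ) :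
    Function.Bijective ((Rep.resFunctor.{0} (k := k) π).mapExtAddHom (Zt k Q) V i) := by
  have h0 := res_isEquivalence (k := k) π hπ
  exact Functor.mapExt_bijective_of_preservesProjectiveObjects _ _ _ _

theorem Kills.of_bijective {m d : ℕ} (h : Kills k G m d) (π : G →* Q)
    (hπ : Function.Bijective π) : Kills k Q m d := by
  intro V i hi x
  apply (ext_bij π hπ V i).1
  rw [map_nsmul, map_zero]
  exact h _ i hi _

theorem FgCoh.of_bijective (h : FgCoh k G) (π : G →* Q) (hπ : Function.Bijective π) :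
    FgCoh k Q := by
  intro V hV i
  have h1 : Module.Finite ℤ (Ext.{0} ((Rep.resFunctor.{0} (k := k) π).obj (Zt k Q))
    ((Rep.resFunctor.{0} (k := k) π).obj V) i) := h (Rep.res π V) hV i
  exact Module.Finite.of_injective
    ((Rep.resFunctor.{0} (k := k) π).mapExtAddHom (Zt k Q) V i).toIntLinearMap (ext_bij π hπ V i).1

end

end Pool.MP0c3001
end

section

/-!
# Group theoretic and abelian group lemmas
-/

set_option autoImplicit false

namespace Pool.MP0c3001

variable {G : Type} [Group G]

/-- Characters of finite quotients: if `a ∈ A ≤ Z(G)` is not contained in the finite index subgroup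
`H`, then there are a subgroup `K ≥ A` of finite index, `N ≥ 1` and a homomorphism
`ψ : K → ℤ/N` with `ψ(a) ≠ 0`. -/
theorem exists_char (A : Subgroup G) (hA : A ≤ Subgroup.center G) (a : G) (ha : a ∈ A)
    (H : Subgroup G) (hH : H.FiniteIndex) (haH : a ∉ H) :
    ∃ (K : Subgroup G) (_ : K.FiniteIndex) (hAK : A ≤ K) (N : ℕ) (_ : 0 < N)
      (ψ : K →* Multiplicative (ZMod N)), ψ ⟨a, hAK ha⟩ ≠ 1 := by
  classical
  let φ : G →* G ⧸ H.normalCore := QuotientGroup.mk' H.normalCore
  have hfin : Finite (G ⧸ H.normalCore) := inferInstance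
  let B : Subgroup (G ⧸ H.normalCore) := A.map φ
  have hcomm : ∀ x y : B, x * y = y * x := by
    rintro ⟨_, x, hx, rfl⟩ ⟨_, y, hy, rfl⟩
    apply Subtype.ext
    change φ x * φ y = φ y * φ x
    rw [← map_mul, ← map_mul, Subgroup.mem_center_iff.1 (hA hy) x]
  let : CommGroup B := { (inferInstance : Group B) with mul_comm := hcomm }
  obtain ⟨ι, _, n, hn, ⟨e⟩⟩ := CommGroup.equiv_prod_multiplicative_zmod_of_finite B
  have hAK : A ≤ B.comap φ := Subgroup.le_comap_map _ _
  let b : B := ⟨φ a, hAK ha⟩
  have hb : b ≠ 1 := by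
    intro h
    have h1 : φ a = 1 := congrArg Subtype.val h
    have h2 : a ∈ H.normalCore := (QuotientGroup.eq_one_iff a).1 h1
    exact haH (Subgroup.normalCore_le H h2)
  have hne : e b ≠ 1 := fun h => hb (e.injective (h.trans (map_one e).symm))
  obtain ⟨i, hi⟩ := Function.ne_iff.1 hne
  have hK : (B.comap φ).FiniteIndex := by
    have h1 : H.normalCore ≤ B.comap φ := by
      intro x hx
      have : φ x = 1 := (QuotientGroup.eq_one_iff x).2 hx
      rw [Subgroup.mem_comap, this]
      exact B.one_mem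
    exact Subgroup.finiteIndex_of_le h1
  refine ⟨B.comap φ, hK, hAK, n i, by have := hn i; omega,
    ((Pi.evalMonoidHom _ i).comp e.toMonoidHom).comp
      ((φ.comp (B.comap φ).subtype).codRestrict B fun x => x.2), hi⟩

/-- The kernel of a surjective homomorphism `ℤ^{r+1} → ℤ` is isomorphic to `ℤ^r`. -/
theorem exists_ker_equiv (r : ℕ) {A : Type} [AddCommGroup A] (e : A ≃+ (Fin (r + 1) → ℤ))
    (χ : A →+ ℤ) (hχ : Function.Surjective χ) : Nonempty (χ.ker ≃+ (Fin r → ℤ)) := by
  let E : A ≃ₗ[ℤ] (Fin (r + 1) → ℤ) := e.toIntLinearEquiv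
  have hfin : Module.Finite ℤ A := Module.Finite.equiv E.symm
  have hfree : Module.Free ℤ A := Module.Free.of_equiv E.symm
  have hrk : Module.finrank ℤ A = r + 1 := by
    rw [E.finrank_eq, Module.finrank_pi, Fintype.card_fin]
  let f : A →ₗ[ℤ] ℤ := χ.toIntLinearMap
  have hf : Function.Surjective f := hχ
  have h1 := Submodule.finrank_quotient_add_finrank (LinearMap.ker f)
  have h2 : Module.finrank ℤ (A ⧸ LinearMap.ker f) = 1 := by
    rw [(f.quotKerEquivOfSurjective hf).finrank_eq, Module.finrank_self]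
  have h3 : Module.finrank ℤ (LinearMap.ker f) = r := by omega
  let B := Module.finBasisOfFinrankEq ℤ (LinearMap.ker f) h3
  let g : χ.ker ≃+ LinearMap.ker f :=
    { toFun := fun x => ⟨x.1, x.2⟩
      invFun := fun x => ⟨x.1, x.2⟩
      left_inv := fun _ => rfl
      right_inv := fun _ => rfl
      map_add' := fun _ _ => rfl }
  exact ⟨g.trans B.equivFun.toAddEquiv⟩

/-- Every non-zero vector of `ℤ^r` is a positive multiple of a vector `x` such that the linear form
`v ↦ ∑ x_j v_j` is surjective (divide by the gcd of the coordinates). -/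
theorem exists_primitive (r : ℕ) (c : Fin r → ℤ) (hc : c ≠ 0) :
    ∃ (d : ℕ) (x : Fin r → ℤ), 0 < d ∧ c = d • x ∧ ∃ v : Fin r → ℤ, ∑ j, x j * v j = 1 := by
  obtain ⟨g, hg⟩ := (IsPrincipalIdealRing.principal (Ideal.span (Set.range c))).principal
  have hd : Ideal.span (Set.range c) = Ideal.span {((g.natAbs : ℕ) : ℤ)} := by
    rw [Int.span_natAbs, hg]
  generalize g.natAbs = d at hd
  have hdiv : ∀ j, (d : ℤ) ∣ c j := fun j => by
    rw [← Ideal.mem_span_singleton, ← hd]
    exact Ideal.subset_span ⟨j, rfl⟩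
  choose x hx using hdiv
  have hd0 : 0 < d := by
    rcases Nat.eq_zero_or_pos d with h | h
    · exfalso
      apply hc
      funext j
      rw [hx, h]
      simp
    · exact h
  have hmem : (d : ℤ) ∈ Ideal.span (Set.range c) := by
    rw [hd]
    exact Ideal.mem_span_singleton_self _
  obtain ⟨v, hv⟩ := Ideal.mem_span_range_iff_exists_fun.1 hmem
  refine ⟨d, x, hd0, ?_, v, ?_⟩
  · funext j
    rw [hx, Pi.smul_apply, nsmul_eq_mul]
  · have h1 : (d : ℤ) * ∑ j, x j * v j = d * 1 := by
      rw [mul_one, Finset.mul_sum]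
      conv_rhs => rw [← hv]
      refine Finset.sum_congr rfl fun j _ => ?_
      rw [hx]
      ring
    exact mul_left_cancel₀ (by exact_mod_cast hd0.ne') h1


/-- `C` is a torsion-free abelian group; if all `ℤ^{n+1}` do not embed into `C`, there is a maximal
free subgroup: `U ≤ C`, `U ≅ ℤ^r`, `r ≤ n`, and `C/U` is a torsion group. -/
theorem exists_maximal_free (n : ℕ) (C : Type) [AddCommGroup C]
    (htf : ∀ (m : ℕ) (c : C), 0 < m → m • c = 0 → c = 0)
    (hn : ∀ U : AddSubgroup C, ¬ Nonempty (U ≃+ (Fin (n + 1) → ℤ))) :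
    ∃ (r : ℕ) (U : AddSubgroup C), r ≤ n ∧ Nonempty (U ≃+ (Fin r → ℤ)) ∧
      ∀ c : C, ∃ m : ℕ, 0 < m ∧ m • c ∈ U := by
  classical
  have hP : ∃ k : ℕ, ¬ ∃ f : (Fin k → ℤ) →+ C, Function.Injective f := by
    refine ⟨n + 1, ?_⟩
    rintro ⟨f, hf⟩
    exact hn f.range ⟨(AddMonoidHom.ofInjective hf).symm⟩
  have hle : Nat.find hP ≤ n + 1 := by
    refine Nat.find_min' hP ?_
    rintro ⟨f, hf⟩
    exact hn f.range ⟨(AddMonoidHom.ofInjective hf).symm⟩
  have hspec := Nat.find_spec hP
  have hmin := fun k (hk : k < Nat.find hP) => not_not.1 (Nat.find_min hP hk)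
  generalize Nat.find hP = k at hle hspec hmin
  cases k with
  | zero =>
    exact absurd ⟨0, Function.injective_of_subsingleton _⟩ hspec
  | succ r =>
    obtain ⟨f, hf⟩ := hmin r (Nat.lt_succ_self r)
    refine ⟨r, f.range, by omega, ⟨(AddMonoidHom.ofInjective hf).symm⟩, ?_⟩
    intro c
    by_contra hc
    have hc' : ∀ m : ℕ, 0 < m → m • c ∉ f.range := fun m hm h => hc ⟨m, hm, h⟩
    apply hspec
    let f' : (Fin (r + 1) → ℤ) →+ C :=
      { toFun := fun x => x 0 • c + f (fun i => x i.succ)
        map_zero' := by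
          have h1 : (fun i : Fin r => (0 : Fin (r + 1) → ℤ) i.succ) = 0 := rfl
          rw [h1, map_zero, Pi.zero_apply, zero_smul, add_zero]
        map_add' := fun x y => by
          have h1 : (fun i : Fin r => (x + y) i.succ) = (fun i : Fin r => x i.succ) + fun i => y i.succ := rfl
          rw [h1, map_add, Pi.add_apply, add_smul]
          abel }
    refine ⟨f', ?_⟩
    rw [injective_iff_map_eq_zero]
    intro x hx
    have hx1 : x 0 • c + f (fun i => x i.succ) = 0 := hx
    have hx0 : x 0 = 0 := by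
      by_contra h0
      have h1 : x 0 • c = f (-fun i => x i.succ) := by
        rw [map_neg]
        exact eq_neg_of_add_eq_zero_left hx1
      have h2 : (x 0).natAbs • c ∈ f.range := by
        rcases Int.natAbs_eq (x 0) with h3 | h3
        · rw [h3, natCast_zsmul] at h1
          exact ⟨_, h1.symm⟩
        · rw [h3, neg_smul, natCast_zsmul] at h1
          exact ⟨-(-fun i => x i.succ), by rw [map_neg, ← h1, neg_neg]⟩
      exact hc' _ (Int.natAbs_pos.2 h0) h2
    rw [hx0, zero_smul, zero_add] at hx1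
    have h4 : (fun i : Fin r => x i.succ) = 0 := (injective_iff_map_eq_zero f).1 hf _ hx1
    funext i
    refine Fin.cases ?_ (fun j => ?_) i
    · exact hx0
    · exact congrFun h4 j

theorem fg_of_bounded (C : Type) [AddCommGroup C]
    (htf : ∀ (m : ℕ) (c : C), 0 < m → m • c = 0 → c = 0) (U : AddSubgroup C) (r : ℕ)
    (e : U ≃+ (Fin r → ℤ)) (m : ℕ) (hm : 0 < m) (h : ∀ c : C, m • c ∈ U) :
    AddGroup.FG C := by
  let f : C →+ (Fin r → ℤ) :=
    { toFun := fun c => e ⟨m • c, h c⟩
      map_zero' := by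
        have h1 : (⟨m • (0 : C), h 0⟩ : U) = 0 := Subtype.ext (smul_zero m)
        rw [h1, map_zero]
      map_add' := fun a b => by
        have h1 : (⟨m • (a + b), h (a + b)⟩ : U) = ⟨m • a, h a⟩ + ⟨m • b, h b⟩ :=
          Subtype.ext (smul_add m a b)
        rw [h1, map_add] }
  have hf : Function.Injective f := by
    intro a b hab
    have h1 : (⟨m • a, h a⟩ : U) = ⟨m • b, h b⟩ := e.injective hab
    have h2 : m • a = m • b := congrArg Subtype.val h1
    have h3 : m • (a - b) = 0 := by rw [smul_sub, h2, sub_self]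
    exact sub_eq_zero.1 (htf m _ hm h3)
  have h4 : Module.Finite ℤ C := Module.Finite.of_injective f.toIntLinearMap hf
  exact Module.Finite.iff_addGroup_fg.1 h4

end Pool.MP0c3001
end
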