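import Pool.Agent.Lib.MP_0c3001_gt.Mg.G003
import Pool.Agent.Lib.MP_0c3001_gt.Mg.G002
import Pool.Agent.Lib.MP_0c3001_gt.Mg.G001
import Pool.Agent.Lib.MP_0c3001_gt.Basic
import Pool.Agent.Lib.MP_0c3001_gt.Dmod
import Pool.Agent.Lib.MP_0c3001_gt.Fset
import Pool.Agent.Lib.MP_0c3001_gt.Mg.G005

section

/-!
Essential acyclicity: cycles of lists with pairwise very close elements bound chains of lists with
pairwise close elements.
-/

set_option autoImplicit false

open unitInterval CategoryTheory

namespace Pool.Agent.MP_0c3001_gt.Br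

section

variable {ι : Type} [Fintype ι] [DecidableEq ι] {M : Type} [MetricSpace M] {x₀ : M}

end

section
namespace EA1

open Pool.Agent.MP_0c3001_gt.Br

theorem fine_mono {E : Type*} [PseudoMetricSpace E] {S T : Set E} {r : ℝ} {l : List E}
    (hST : S ⊆ T) (h : Fine S r l) : Fine T r l :=
  fun x hx => ⟨hST (h x hx).1, (h x hx).2⟩

/-- TASK EA1. A subdivision chain map. -/
theorem exists_R (ι : Type) [Fintype ι] [DecidableEq ι] {ρ : ℝ} (hρ : 0 < ρ) :
    ∃ R : Ch ι →ₗ[ℤ] Ch (ι → ℝ), R (sg []) = sg [] ∧ (∀ c, bd (R c) = R (bd c)) ∧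
      ∀ l, Spt (fun t => t.length = l.length ∧ Fine (face l.toFinset) ρ t) (R (sg l)) := by
  apply exists_lift (fun l t => t.length = l.length ∧ Fine (face l.toFinset) ρ t)
    (fun l t => t.length + 1 = l.length ∧ Fine (face l.toFinset) ρ t)
  · refine ⟨rfl, ?_⟩
    intro x hx
    simp at hx
  · intro l s hs hl t ht
    refine ⟨by rw [ht.1, hl], fine_mono (face_mono ?_) ht.2⟩
    intro x hx
    rw [List.mem_toFinset] at hx ⊢
    exact hs.subset hx
  · intro a l y hy hb
    have hy' : Spt (fun t => t.length = l.length ∧ Fine (face (a :: l).toFinset) ρ t) y := by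
      refine hy.mono ?_
      rintro t ⟨h1, h2⟩
      refine ⟨?_, h2⟩
      simpa using h1
    have hbound : Bornology.IsBounded (face (a :: l).toFinset : Set (ι → ℝ)) :=
      (isCompact_stdSimplex ℝ ι).isBounded.subset fun w hw => hw.1
    have hne : (face (a :: l).toFinset : Set (ι → ℝ)).Nonempty := by
      refine ⟨vx a, vx_mem_face ?_⟩
      rw [List.mem_toFinset]
      exact List.mem_cons_self
    obtain ⟨c, hc, hcb⟩ := exists_fine_bounding (convex_face _) hbound hne hρ hy' hb
    refine ⟨c, hc.mono ?_, hcb⟩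
    rintro t ⟨h1, h2⟩
    exact ⟨by simpa using h1, h2⟩

end EA1
end

/-- TASK EA1. A subdivision chain map.
Proof: `exists_lift` with `P l t := t.length = l.length ∧ Fine (face l.toFinset) ρ t` and
`P' l t := t.length + 1 = l.length ∧ Fine (face l.toFinset) ρ t`. For `hface` use `face_mono`
(`Fine` is monotone in the set); for `hfill` use `exists_fine_bounding` for `S = face (a :: l).toFinset`
(`convex_face`; bounded since it is contained in `stdSimplex`; it contains `vx a`) with
`m = l.length`. -/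
alias exists_R := EA1.exists_R

section

variable {ι : Type} [Fintype ι] [DecidableEq ι] {M : Type} [MetricSpace M] {x₀ : M}


end

section
namespace EA2

open Pool.Agent.MP_0c3001_gt.Br

variable {ι : Type} [Fintype ι] [DecidableEq ι]

/-- TASK EA2. The homotopy between the subdivision and the identity, in `Cov x₀`. -/
theorem exists_H {X : Type} (v : ι → X) (Ψ : (ι → ℝ) → X) (hΨ : ∀ i, Ψ (vx i) = v i) {ρ : ℝ}
    (R : Ch ι →ₗ[ℤ] Ch (ι → ℝ)) (hR0 : R (sg []) = sg []) (hRb : ∀ c, bd (R c) = R (bd c))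
    (hR : ∀ l, Spt (fun t => t.length = l.length ∧ Fine (face l.toFinset) ρ t) (R (sg l))) :
    ∃ H : Ch ι →ₗ[ℤ] Ch X, (∀ c, bd (H c) = mp Ψ (R c) - mp v c - H (bd c)) ∧
      ∀ l, Spt (fun t => t.length = l.length + 1 ∧ ∀ b ∈ t, ∃ w ∈ face l.toFinset, b = Ψ w)
        (H (sg l)) := by
  obtain ⟨H, _, h2, h3⟩ := exists_homotopy ((mp Ψ).comp R)
    (by rw [LinearMap.comp_apply, hR0, mp_sg]; rfl)
    (fun c => by rw [LinearMap.comp_apply, LinearMap.comp_apply, bd_mp, hRb]) v
    (fun l b => ∃ w ∈ face l.toFinset, b = Ψ w)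
    (by
      rintro l s hs b ⟨w, hw, rfl⟩
      refine ⟨w, face_mono ?_ hw, rfl⟩
      intro x hx
      exact List.mem_toFinset.2 (hs.subset (List.mem_toFinset.1 hx)))
    (by
      intro l a ha
      exact ⟨vx a, vx_mem_face (List.mem_toFinset.2 ha), (hΨ a).symm⟩)
    (by
      intro l
      rw [LinearMap.comp_apply]
      refine Spt.mp ((hR l).mono ?_)
      rintro t ⟨ht, hf⟩
      refine ⟨by simp [ht], ?_⟩
      intro b hb
      obtain ⟨w, hw, rfl⟩ := List.mem_map.1 hb
      exact ⟨w, (hf w hw).1, rfl⟩)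
  exact ⟨H, h2, h3⟩

end EA2
end

/-- TASK EA2. The homotopy between the subdivision and the identity, in `Cov x₀`.
Proof: `exists_homotopy` for the chain map `mp Ψ ∘ R`, the map `v` and
`Q l b := ∃ w ∈ face l.toFinset, b = Ψ w` (`v a = Ψ (vx a)`, `vx_mem_face`). -/
alias exists_H := EA2.exists_H

section

variable {ι : Type} [Fintype ι] [DecidableEq ι] {M : Type} [MetricSpace M] {x₀ : M}


end

section
open unitInterval CategoryTheory

namespace EA3

open Pool.Agent.MP_0c3001_gt.Br

variable {ι : Type} [Fintype ι] [DecidableEq ι] {M : Type} [MetricSpace M] {x₀ : M}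

theorem exists_rho {φ : (ι → ℝ) → M} (hφ : ContinuousOn φ (stdSimplex ℝ ι)) {d : ℝ} (hd : 0 < d) :
    ∃ ρ : ℝ, 0 < ρ ∧ ∀ w ∈ stdSimplex ℝ ι, ∀ w' ∈ stdSimplex ℝ ι, dist w w' < ρ →
      ∀ u ∈ segment ℝ w w', ∀ u' ∈ segment ℝ w w', dist (φ u) (φ u') < d := by
  have hc : IsCompact (stdSimplex ℝ ι) := isCompact_stdSimplex ℝ ι
  have hu := hc.uniformContinuousOn_of_continuous hφ
  obtain ⟨ρ, hρ, h⟩ := Metric.uniformContinuousOn_iff.1 hu d hd
  refine ⟨ρ, hρ, fun w hw w' hw' hww u hu u' hu' => ?_⟩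
  have hconv : Convex ℝ (stdSimplex ℝ ι) := convex_stdSimplex ℝ ι
  have hsub : segment ℝ w w' ⊆ stdSimplex ℝ ι := hconv.segment_subset hw hw'
  refine h u (hsub hu) u' (hsub hu') (lt_of_le_of_lt ?_ hww)
  obtain ⟨a, b, ha, hb, hab, rfl⟩ := hu
  obtain ⟨a', b', ha', hb', hab', rfl⟩ := hu'
  have h1 : (a • w + b • w') - (a' • w + b' • w') = (b' - b) • (w - w') := by
    have e1 : a = 1 - b := by linarith
    have e2 : a' = 1 - b' := by linarith
    rw [e1, e2]
    module
  rw [dist_eq_norm, h1, norm_smul, dist_eq_norm]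
  have h2 : ‖b' - b‖ ≤ 1 := by
    rw [Real.norm_eq_abs, abs_le]
    constructor <;> linarith
  exact mul_le_of_le_one_left (norm_nonneg _) h2

end EA3
end

/-- TASK EA3. Uniform continuity on the simplex (compact). The points of the segment from `w` to `w'`
have distance `≤ dist w w' < ρ`. -/
alias exists_rho := EA3.exists_rho

section

variable {ι : Type} [Fintype ι] [DecidableEq ι] {M : Type} [MetricSpace M] {x₀ : M}


end

section
open unitInterval CategoryTheory

namespace EA4

open Pool.Agent.MP_0c3001_gt.Br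

variable {ι : Type} [Fintype ι] [DecidableEq ι] {M : Type} [MetricSpace M] {x₀ : M}

theorem ea_core [Nonempty ι] (v : ι → Cov x₀) {d d' : ℝ} (hd : 0 < d) {e : ℕ → ℝ} {m : ℕ}
    (hs : Scale M d' e m) (he : ∀ k, e k ≤ d)
    (hπ : ∀ k, 2 ≤ k → ∀ x : M, Subsingleton (HomotopyGroup (Fin k) M x)) {z : Ch ι}
    (hz : Spt (fun l => l.length = m ∧ ∀ i ∈ l, ∀ j ∈ l, Close d' (v i) (v j)) z)
    (hbd : bd z = 0) :
    ∃ c : Ch (Cov x₀), Spt (fun t => t.length = m + 1 ∧ Cl d t) c ∧ bd c = mp v z := by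
  obtain ⟨φ, hφ, hφv, hφe, hφs⟩ := exists_good v hs hπ
  obtain ⟨Ψ, hΨ, hΨd⟩ := exists_tilde v hφ hφv hφe
  obtain ⟨ρ, hρ, hρd⟩ := exists_rho hφ hd
  obtain ⟨R, hR0, hRb, hR⟩ := exists_R ι hρ
  obtain ⟨H, hHb, hH⟩ := exists_H v Ψ hΨ R hR0 hRb hR
  let i₀ : ι := Classical.arbitrary ι
  refine ⟨mp Ψ (R (cone i₀ z)) - H z, ?_, ?_⟩
  · refine Spt.sub ?_ ?_
    · refine Spt.mp ?_
      have h1 : Spt (fun l : List ι => l.length = m + 1) (cone i₀ z) :=
        Spt.cone (hz.mono fun l hl => by simp [hl.1])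
      refine h1.lin R fun l hl => (hR l).mono fun t ht => ⟨?_, ?_⟩
      · rw [List.length_map, ht.1, hl]
      · intro a ha b hb
        obtain ⟨w, hw, rfl⟩ := List.mem_map.1 ha
        obtain ⟨w', hw', rfl⟩ := List.mem_map.1 hb
        have hwf := (ht.2 w hw).1
        have hwf' := (ht.2 w' hw').1
        exact hΨd d w hwf.1 w' hwf'.1 (hρd w hwf.1 w' hwf'.1 ((ht.2 w hw).2 w' hw'))
    · refine hz.lin H fun l hl => (hH l).mono fun t ht => ⟨?_, ?_⟩
      · rw [ht.1, hl.1]
      · have hcard : l.toFinset.card ≤ m := by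
          rw [← hl.1]; exact List.toFinset_card_le l
        have hsm : SmallFace v d' l.toFinset := fun i hi j hj =>
          hl.2 i (List.mem_toFinset.1 hi) j (List.mem_toFinset.1 hj)
        intro a ha b hb
        obtain ⟨w, hw, rfl⟩ := ht.2 a ha
        obtain ⟨w', hw', rfl⟩ := ht.2 b hb
        refine hΨd d w hw.1 w' hw'.1 ?_
        intro u hu u' hu'
        have hseg : segment ℝ w w' ⊆ face l.toFinset := (convex_face _).segment_subset hw hw'
        exact lt_of_lt_of_le (hφs _ hcard hsm u (hseg hu) u' (hseg hu')) (he _)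
  · rw [map_sub, bd_mp, hRb, bd_cone, hbd, hHb, hbd]
    simp

end EA4
end

/-- TASK EA4. Cycles of lists of elements of a finite set with pairwise very close images.
Proof: take `φ` from `exists_good v hs hπ`, `Ψ` from `exists_tilde`, `ρ` from `exists_rho` for `d`, `R` from
`exists_R`, `H` from `exists_H`, and let `c = mp Ψ (R (cone i₀ z)) - H z` for some `i₀ : ι`. By
`bd_mp`, `bd_cone` and `bd z = 0`: `bd c = mp Ψ (R z) - (mp Ψ (R z) - mp v z) = mp v z`. Supports
(`Spt.lin`, `Spt.cone`, `Spt.mp`): the lists of `mp Ψ (R (cone i₀ z))` have length `m + 1` and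
their elements are `Ψ w` with `w` in the simplex, pairwise with `dist w w' < ρ`, so they are
pairwise close (`d`). The lists of `H (sg l)`, for `l` in the support of `z`, have length `m + 1` and
elements `Ψ w` with `w ∈ face T`, `T = l.toFinset`, `T.card ≤ m` and `SmallFace v d' T`; for
`w w' ∈ face T` the segment is in `face T` (`convex_face`), so the distances of the values of `φ` are
`< e T.card ≤ d`. -/
alias ea_core := EA4.ea_core

section

variable {ι : Type} [Fintype ι] [DecidableEq ι] {M : Type} [MetricSpace M] {x₀ : M}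


end


section
namespace EA5

open Pool.Agent.MP_0c3001_gt.Br

theorem exists_index {X : Type} [Nonempty X] (z : Ch X) (hbd : bd z = 0) :
    ∃ (s : Finset X) (z' : Ch s), s.Nonempty ∧ mp (fun x : s => (x : X)) z' = z ∧ bd z' = 0 ∧
      ∀ P : List X → Prop, Spt P z → Spt (fun l => P (l.map (fun x : s => (x : X)))) z' := by
  classical
  obtain ⟨a⟩ := (inferInstance : Nonempty X)
  set s : Finset X := insert a (z.support.biUnion fun l => l.toFinset) with hs
  have ha : a ∈ s := Finset.mem_insert_self _ _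
  let r : X → s := fun x => if h : x ∈ s then ⟨x, h⟩ else ⟨a, ha⟩
  have hr : ∀ x ∈ s, ((r x : s) : X) = x := by
    intro x hx
    simp only [r, dif_pos hx]
  have hmem : ∀ l ∈ z.support, ∀ x ∈ l, x ∈ s := by
    intro l hl x hx
    exact Finset.mem_insert_of_mem (Finset.mem_biUnion.mpr ⟨l, hl, List.mem_toFinset.mpr hx⟩)
  have hmap : ∀ l ∈ z.support, (l.map r).map (fun x : s => (x : X)) = l := by
    intro l hl
    rw [List.map_map]
    conv_rhs => rw [← List.map_id l]
    apply List.map_congr_left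
    intro x hx
    exact hr x (hmem l hl x hx)
  refine ⟨s, mp r z, ⟨a, ha⟩, ?_, ?_, ?_⟩
  · rw [mp_mp]
    have h := mp_congr (f := (fun x : s => (x : X)) ∘ r) (g := id)
      (P := fun l => ∀ x ∈ l, x ∈ s) (c := z) (fun l hl => hmem l hl)
      (fun l hl x hx => hr x (hl x hx))
    rw [h, mp_id]
  · rw [bd_mp, hbd, map_zero]
  · intro P hP
    apply Spt.mp
    intro l hl
    rw [hmap l hl]
    exact hP l hl

end EA5
end

/-- TASK EA5. Every cycle comes from a finite set.
Proof: let `s` be the finite set of the elements of the lists of `z.support` and one more element `a`,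
`ι = s` (subtype), `r x = x` for `x ∈ s` and `r x = a` otherwise, `z' = mp r z`. Then `mp Subtype.val z'`
is `z` (`mp_mp`, `mp_congr`, `mp_id`), `bd z' = mp r (bd z) = 0`. -/
alias exists_index := EA5.exists_index


section
open unitInterval CategoryTheory

namespace EA6

theorem ea {M : Type} [MetricSpace M] (hM : BallProp M)
    (hπ : ∀ k, 2 ≤ k → ∀ x : M, Subsingleton (HomotopyGroup (Fin k) M x)) (x₀ : M) (m : ℕ) {d : ℝ}
    (hd : 0 < d) :
    ∃ d' : ℝ, 0 < d' ∧ ∀ z : Ch (Cov x₀), Spt (fun l => l.length = m ∧ Cl d' l) z → bd z = 0 →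
      ∃ c, Spt (fun l => l.length = m + 1 ∧ Cl d l) c ∧ bd c = z := by
  classical
  obtain ⟨d', e, hd', hs, he⟩ := exists_scale hM m hd
  refine ⟨d', hd', fun z hz hbd => ?_⟩
  have : Nonempty (Cov x₀) := ⟨⟨x₀, 𝟙 _⟩⟩
  obtain ⟨s, z', hne, hmp, hbd', hP⟩ := exists_index z hbd
  have : Nonempty s := hne.to_subtype
  have h1 := hP _ hz
  have h2 : Spt (fun l : List s => l.length = m ∧ ∀ i ∈ l, ∀ j ∈ l,
      Close d' (i : Cov x₀) (j : Cov x₀)) z' := by
    intro l hl
    obtain ⟨h3, h4⟩ := h1 l hl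
    refine ⟨by simpa using h3, fun i hi j hj => ?_⟩
    exact h4 _ (List.mem_map_of_mem hi) _ (List.mem_map_of_mem hj)
  obtain ⟨c, hc1, hc2⟩ := ea_core (fun x : s => (x : Cov x₀)) hd hs he hπ h2 hbd'
  exact ⟨c, hc1, by rw [hc2, hmp]⟩

end EA6
end

/-- TASK EA6. Essential acyclicity.
Proof: take `d'`, `e` from `exists_scale hM m hd`; for a cycle `z` use `exists_index` and
`ea_core` for `v = Subtype.val` (the space `Cov x₀` contains `⟨x₀, 𝟙 _⟩`). -/
alias ea := EA6.ea


section
open unitInterval CategoryTheory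

namespace EA7

open Pool.Agent.MP_0c3001_gt.Br

theorem exists_scales {M : Type} [MetricSpace M] (hM : BallProp M)
    (hπ : ∀ k, 2 ≤ k → ∀ x : M, Subsingleton (HomotopyGroup (Fin k) M x)) (x₀ : M) (L : ℕ) {d : ℝ}
    (hd : 0 < d) :
    ∃ D : ℕ → ℝ, (∀ k, 0 < D k) ∧ (∀ k, D k ≤ d) ∧ ∀ k < L, ∀ z : Ch (Cov x₀),
      Spt (fun l => l.length = k ∧ Cl (D k) l) z → bd z = 0 →
        ∃ c, Spt (fun l => l.length = k + 1 ∧ Cl (D (k + 1)) l) c ∧ bd c = z := by
  have h0 : ∀ (m : ℕ) (e : ℝ), ∃ e' : ℝ, 0 < e → 0 < e' ∧ ∀ z : Ch (Cov x₀),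
      Spt (fun l => l.length = m ∧ Cl e' l) z → bd z = 0 →
      ∃ c, Spt (fun l => l.length = m + 1 ∧ Cl e l) c ∧ bd c = z := by
    intro m e
    by_cases he : 0 < e
    · obtain ⟨e', he', h⟩ := ea hM hπ x₀ m he
      exact ⟨e', fun _ => ⟨he', h⟩⟩
    · exact ⟨0, fun h => absurd h he⟩
  choose g hg using h0
  let s : ℕ → ℝ := fun n => Nat.rec d (fun j sj => min sj (g (L - (j + 1)) sj)) n
  have s0 : s 0 = d := rfl
  have s1 : ∀ j, s (j + 1) = min (s j) (g (L - (j + 1)) (s j)) := fun _ => rfl
  have spos : ∀ j, 0 < s j := by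
    intro j
    induction j with
    | zero => rw [s0]; exact hd
    | succ j ih => rw [s1]; exact lt_min ih (hg _ _ ih).1
  have sle : ∀ j, s j ≤ d := by
    intro j
    induction j with
    | zero => rw [s0]
    | succ j ih => rw [s1]; exact (min_le_left _ _).trans ih
  refine ⟨fun k => s (L - k), fun k => spos _, fun k => sle _, ?_⟩
  intro k hk z hz hbd
  obtain ⟨j, hj⟩ : ∃ j, L = k + 1 + j := ⟨L - (k + 1), by omega⟩
  have e1 : L - k = j + 1 := by omega
  have e2 : L - (k + 1) = j := by omega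
  have e3 : L - (j + 1) = k := by omega
  have h1 := (hg k (s j) (spos j)).2 z
  simp only [e2]
  refine h1 (hz.mono fun l hl => ⟨hl.1, fun a ha b hb => ?_⟩) hbd
  have h2 := hl.2 a ha b hb
  simp only [e1, s1, e3] at h2
  exact close_mono (min_le_right _ _) h2

end EA7
end

/-- TASK EA7. Scales for all lengths up to `L`.
Proof: by downward induction: `D k = d` for `k ≥ L` and, for `k < L`, `D k` is the minimum of
`D (k + 1)` and of the `d'` of `ea` for `m = k` and `D (k + 1)` (the property is inherited by smaller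
`d'`, `close_mono`). It is convenient to define `s 0 = d`, `s (j + 1)` = the minimum for `m = L - (j + 1)`
and `s j`, and `D k = s (L - k)`. -/
alias exists_scales := EA7.exists_scales


section
namespace EA8

open Pool.Agent.MP_0c3001_gt.Br

/-- TASK EA8. An equivariant chain map to lists of pairwise close elements. -/
theorem exists_alpha {M : Type} [MetricSpace M] (hM : BallProp M)
    (hπ : ∀ k, 2 ≤ k → ∀ x : M, Subsingleton (HomotopyGroup (Fin k) M x)) (x₀ : M) (L : ℕ) {d : ℝ}
    (hd : 0 < d) :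
    ∃ F : Ch (Cov x₀) →ₗ[ℤ] Ch (Cov x₀),
      (∀ (g : FundamentalGroup M x₀) c, F (act g c) = act g (F c)) ∧ F (sg []) = sg [] ∧
      (∀ c, bd (F c) = F (bd c)) ∧
      ∀ l, Spt (fun t => t.length = l.length ∧ (l.length ≤ L → Cl d t)) (F (sg l)) := by
  obtain ⟨D, -, hDd, hfill⟩ := exists_scales hM hπ x₀ L hd
  obtain ⟨F, h1, h2, h3, h4⟩ := exists_lift_equiv (G := FundamentalGroup M x₀) (A := Cov x₀)
    (B := Cov x₀) (fun g a h => smul_free g a h)
    (fun l t => t.length = l.length ∧ (l.length ≤ L → Cl (D l.length) t))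
    (fun l t => t.length + 1 = l.length ∧ (l.length ≤ L → Cl (D (l.length - 1)) t))
    (by
      rintro g l t ⟨h1, h2⟩
      refine ⟨by simpa using h1, ?_⟩
      intro hl a ha b hb
      rw [List.length_map] at hl ⊢
      obtain ⟨a', ha', rfl⟩ := List.mem_map.1 ha
      obtain ⟨b', hb', rfl⟩ := List.mem_map.1 hb
      exact close_smul g (h2 hl a' ha' b' hb'))
    (by
      refine ⟨rfl, ?_⟩
      intro _ a ha
      simp at ha)
    (by
      rintro l s hs hl t ⟨h1, h2⟩
      refine ⟨by omega, ?_⟩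
      intro hL
      have h3 : l.length - 1 = s.length := by omega
      rw [h3]
      exact h2 (by omega))
    (by
      intro a l y hy hb
      by_cases hL : l.length + 1 ≤ L
      · have hy' : Spt (fun t => t.length = l.length ∧ Cl (D l.length) t) y := by
          refine hy.mono ?_
          rintro t ⟨h1, h2⟩
          rw [List.length_cons] at h1 h2
          refine ⟨by omega, ?_⟩
          have := h2 hL
          rwa [Nat.add_sub_cancel] at this
        obtain ⟨c, hc, hcb⟩ := hfill l.length (by omega) y hy' hb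
        refine ⟨c, hc.mono ?_, hcb⟩
        rintro t ⟨h1, h2⟩
        rw [List.length_cons]
        exact ⟨h1, fun _ => h2⟩
      · refine ⟨cone a y, ?_, ?_⟩
        · refine Spt.cone (hy.mono ?_)
          rintro t ⟨h1, _⟩
          rw [List.length_cons] at h1 ⊢
          rw [List.length_cons]
          exact ⟨h1, fun h => absurd h hL⟩
        · rw [bd_cone, hb, map_zero, sub_zero])
  refine ⟨F, h1, h2, h3, ?_⟩
  intro l
  refine (h4 l).mono ?_
  rintro t ⟨h5, h6⟩
  refine ⟨h5, ?_⟩
  intro hL a ha b hb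
  exact close_mono (hDd _) (h6 hL a ha b hb)

end EA8
end

/-- TASK EA8. An equivariant chain map to lists of pairwise close elements.
Proof: take `D` from `exists_scales` and apply `exists_lift_equiv` with
`P l t := t.length = l.length ∧ (l.length ≤ L → Cl (D l.length) t)` and
`P' l t := t.length + 1 = l.length ∧ (l.length ≤ L → Cl (D (l.length - 1)) t)`
(`smul_free`, `close_smul`). For `hfill`, `l` of length `k`: if `k + 1 ≤ L` use the property of `D`;
otherwise take `cone a y` (`bd_cone`). At the end use `close_mono`. -/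
alias exists_alpha := EA8.exists_alpha

end Pool.Agent.MP_0c3001_gt.Br
end

section

/-!
The fundamental group of a closed aspherical manifold is finitely dominated, in terms of chains
of lists.
-/

set_option autoImplicit false

open CategoryTheory

namespace Pool.Agent.MP_0c3001_gt.Br

/-- There is an equivariant chain endomorphism of `Ch X` which is the identity on the empty list
and whose values on lists involve only finitely many orbits of lists. -/
def FDX (G X : Type) [Group G] [MulAction G X] : Prop :=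
  ∃ b : Ch X →ₗ[ℤ] Ch X, (∀ (g : G) c, b (act g c) = act g (b c)) ∧ b (sg []) = sg [] ∧
    (∀ c, bd (b c) = b (bd c)) ∧ (∀ l, Spt (fun t => t.length = l.length) (b (sg l))) ∧
    ∃ Z : Finset (List X), ∀ l,
      Spt (fun t => ∃ z ∈ Z, ∃ g : G, t = z.map (fun a => g • a)) (b (sg l))


section
open CategoryTheory

namespace FD1

open Pool.Agent.MP_0c3001_gt.Br

theorem exists_trunc {G X : Type} [Group G] [MulAction G X] (N : ℕ) (b₀ : Ch X →ₗ[ℤ] Ch X)
    (hG : ∀ (g : G) c, b₀ (act g c) = act g (b₀ c)) (h0 : b₀ (sg []) = sg [])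
    (hb : ∀ c, bd (b₀ c) = b₀ (bd c)) (hN : ∀ l : List X, l.length = N + 1 → b₀ (sg l) = 0) :
    ∃ b : Ch X →ₗ[ℤ] Ch X, (∀ (g : G) c, b (act g c) = act g (b c)) ∧ b (sg []) = sg [] ∧
      (∀ c, bd (b c) = b (bd c)) ∧ (∀ l : List X, l.length ≤ N → b (sg l) = b₀ (sg l)) ∧
      ∀ l : List X, N < l.length → b (sg l) = 0 := by
  classical
  let b : Ch X →ₗ[ℤ] Ch X :=
    Finsupp.linearCombination ℤ (fun l : List X => if l.length ≤ N then b₀ (sg l) else 0)
  have hle : ∀ l : List X, l.length ≤ N → b (sg l) = b₀ (sg l) := by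
    intro l hl
    simp only [b, Finsupp.linearCombination_single, one_smul, if_pos hl]
  have hgt : ∀ l : List X, N < l.length → b (sg l) = 0 := by
    intro l hl
    simp only [b, Finsupp.linearCombination_single, one_smul, if_neg (not_le.mpr hl)]
  refine ⟨b, ?_, ?_, ?_, hle, hgt⟩
  · intro g c
    have h1 : b.comp (act g) = (act g).comp b := by
      apply lin_ext
      intro l
      rw [LinearMap.comp_apply, LinearMap.comp_apply]
      by_cases hl : l.length ≤ N
      · rw [hle l hl, ← hG, act, mp_sg, hle _ (by rw [List.length_map]; exact hl)]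
      · rw [hgt l (not_le.mp hl), map_zero, act, mp_sg,
          hgt _ (by rw [List.length_map]; exact not_le.mp hl)]
    exact LinearMap.congr_fun h1 c
  · rw [hle [] (Nat.zero_le _), h0]
  · intro c
    have h1 : bd.comp b = b.comp bd := by
      apply lin_ext
      intro l
      rw [LinearMap.comp_apply, LinearMap.comp_apply]
      by_cases hl : l.length ≤ N
      · rw [hle l hl, hb, bd_sg]
        exact lin_congr (F := b₀) (F' := b) (spt_bdl l)
          (fun s hs => (hle s (by have := hs.2; omega)).symm)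
      · rw [hgt l (not_le.mp hl), map_zero, bd_sg]
        by_cases hl' : l.length = N + 1
        · have h2 : b (bdl l) = b₀ (bdl l) :=
            lin_congr (F := b) (F' := b₀) (spt_bdl l)
              (fun s hs => hle s (by have := hs.2; omega))
          rw [h2, ← bd_sg, ← hb, hN l hl', map_zero]
        · have h2 : b (bdl l) = (0 : Ch X →ₗ[ℤ] Ch X) (bdl l) :=
            lin_congr (F := b) (F' := 0) (spt_bdl l)
              (fun s hs => by
                rw [hgt s (by have := hs.2; omega)]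
                rfl)
          rw [h2]
          rfl
    exact LinearMap.congr_fun h1 c

end FD1
end

/-- TASK FD1. Truncation: a chain map which vanishes on lists of length `N + 1` can be replaced by one
which vanishes on all lists of length `> N`.
Proof: `b = Finsupp.linearCombination ℤ (fun l => if l.length ≤ N then b₀ (sg l) else 0)`. Chain map:
check on `sg l`. If `l.length ≤ N` then `b = b₀` on `bd (sg l)` (`spt_bdl`, `lin_congr`). If
`l.length = N + 1` then `b (bd (sg l)) = b₀ (bd (sg l)) = bd (b₀ (sg l)) = 0`. If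
`l.length > N + 1` then `b (bd (sg l)) = 0`. -/
alias exists_trunc := FD1.exists_trunc


section
open CategoryTheory

namespace FD2

open Pool.Agent.MP_0c3001_gt.Br

theorem spt_comp {M : Type} [MetricSpace M] {x₀ : M} {d : ℝ} {N : ℕ}
    (hloop : ∀ (x : M) (γ : Path x x), (∀ s t, dist (γ s) (γ t) < d + (d + d)) →
      γ.Homotopic (Path.refl x))
    (α : Ch (Cov x₀) →ₗ[ℤ] Ch (Cov x₀))
    (hα : ∀ l, Spt (fun t => t.length = l.length ∧ (l.length ≤ N + 1 → Cl d t)) (α (sg l)))
    (C : Finset M) (f : Cov x₀ → Cov x₀) (hf : ∀ a, Close d a (f a)) (hfC : ∀ a, (f a).pt ∈ C)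
    (lab : M → ℕ) (hlab : ∀ x ∈ C, ∀ y ∈ C, lab x = lab y → x = y)
    (S : Ch (Cov x₀) →ₗ[ℤ] Ch (Cov x₀))
    (hS : ∀ l, Spt (fun t => t.length = l.length ∧
      (Gd (fun a => lab a.pt) l → (∀ x ∈ t, x ∈ l) ∧ Inc (fun a => lab a.pt) t)) (S (sg l)))
    (l : List (Cov x₀)) (hl : l.length ≤ N + 1) :
    Spt (fun u => u.length = l.length ∧ (∀ a ∈ u, a.pt ∈ C) ∧ Cl (d + (d + d)) u ∧
      Inc (fun a => lab a.pt) u) (S (mp f (α (sg l)))) := by
  have h1 : Spt (fun t' : List (Cov x₀) => ∃ t : List (Cov x₀), t' = t.map f ∧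
      t.length = l.length ∧ Cl d t) (mp f (α (sg l))) :=
    Spt.mp ((hα l).mono fun t ht => ⟨t, rfl, ht.1, ht.2 hl⟩)
  refine Spt.lin h1 S ?_
  rintro t' ⟨t, rfl, htl, htc⟩
  have hcl : Cl (d + (d + d)) (t.map f) := by
    intro a' ha' b' hb'
    obtain ⟨a, ha, rfl⟩ := List.mem_map.mp ha'
    obtain ⟨b, hb, rfl⟩ := List.mem_map.mp hb'
    exact close_trans (close_symm (hf a)) (close_trans (htc a ha b hb) (hf b))
  have hpt : ∀ a ∈ t.map f, a.pt ∈ C := by
    intro a' ha'
    obtain ⟨a, ha, rfl⟩ := List.mem_map.mp ha'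
    exact hfC a
  have hgd : Gd (fun a : Cov x₀ => lab a.pt) (t.map f) := by
    intro a ha b hb hab
    exact eq_of_close hloop (hcl a ha b hb) (hlab _ (hpt a ha) _ (hpt b hb) hab)
  refine (hS (t.map f)).mono ?_
  intro u hu
  obtain ⟨hu1, hu2⟩ := hu
  obtain ⟨hu3, hu4⟩ := hu2 hgd
  refine ⟨?_, fun a ha => hpt a (hu3 a ha), fun a ha b hb => hcl a (hu3 a ha) b (hu3 b hb), hu4⟩
  rw [hu1, List.length_map, htl]

end FD2
end

/-- TASK FD2. The combination of the chain maps: on lists of length `≤ N + 1` the chain map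
`S ∘ mp f ∘ α` has support in the increasing lists of pairwise close points over `C`.
Here `d` is the scale. Proof: `Spt.lin` three times: a list `t` of `α (sg l)` has pairwise `Close d`
elements, so the elements `f a` of `t.map f` are pairwise `Close (d + (d + d))`: `Close d (f a) a`,
`Close d a b`, `Close d b (f b)`. If two of them have the same label, they are over the same point of
`C`, so they are equal by `eq_of_close`: `t.map f` is good. So the lists `u` of
`S (sg (t.map f))` have the same length, elements in `t.map f` and increasing labels. -/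
alias spt_comp := FD2.spt_comp


section
open CategoryTheory

namespace FD3

open Pool.Agent.MP_0c3001_gt.Br

theorem fdx_cov {M : Type} [MetricSpace M] [CompactSpace M] (hM : BallProp M)
    (hπ : ∀ k, 2 ≤ k → ∀ x : M, Subsingleton (HomotopyGroup (Fin k) M x)) (x₀ : M) :
    FDX (FundamentalGroup M x₀) (Cov x₀) := by
  classical
  obtain ⟨δ, hδ, hδl⟩ := exists_short_loop hM
  obtain ⟨d, hd⟩ : ∃ d : ℝ, d = δ / 6 := ⟨_, rfl⟩
  have hd0 : 0 < d := by rw [hd]; positivity
  have hd1 : d + (d + d) ≤ δ := by rw [hd]; linarith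
  have hd2 : d + (d + d) + (d + (d + d)) ≤ δ := by rw [hd]; linarith
  have hl1 : ∀ (x : M) (γ : Path x x), (∀ s t, dist (γ s) (γ t) < d + (d + d)) →
      γ.Homotopic (Path.refl x) := fun x γ h => hδl x γ (fun s t => (h s t).trans_le hd1)
  have hl2 : ∀ (x : M) (γ : Path x x),
      (∀ s t, dist (γ s) (γ t) < d + (d + d) + (d + (d + d))) →
      γ.Homotopic (Path.refl x) := fun x γ h => hδl x γ (fun s t => (h s t).trans_le hd2)
  obtain ⟨C, f, hfG, hfc, hfC⟩ := exists_net hM x₀ hd0
  obtain ⟨lab, hlt, hinj⟩ := exists_lab C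
  obtain ⟨α, hαG, hα0, hαb, hαs⟩ := exists_alpha hM hπ x₀ (C.card + 1) hd0
  obtain ⟨S, hSG, hS0, hSb, hSs⟩ := exists_sort (G := FundamentalGroup M x₀) (X := Cov x₀)
    smul_free (fun a : Cov x₀ => lab a.pt) (fun _ _ => rfl)
  have hfG' : ∀ (g : FundamentalGroup M x₀) (c : Ch (Cov x₀)),
      mp f (act g c) = act g (mp f c) := by
    intro g c
    rw [act, mp_mp, mp_mp]
    congr 2
    funext a
    exact hfG g a
  let b₀ : Ch (Cov x₀) →ₗ[ℤ] Ch (Cov x₀) := S.comp ((mp f).comp α)
  have hb₀ : ∀ c, b₀ c = S (mp f (α c)) := fun _ => rfl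
  have hcomp : ∀ l : List (Cov x₀), l.length ≤ C.card + 1 →
      Spt (fun u => u.length = l.length ∧ (∀ a ∈ u, a.pt ∈ C) ∧ Cl (d + (d + d)) u ∧
        Inc (fun a => lab a.pt) u) (b₀ (sg l)) := fun l hl =>
    spt_comp hl1 α hαs C f hfc hfC lab hinj S hSs l hl
  have hN : ∀ l : List (Cov x₀), l.length = C.card + 1 → b₀ (sg l) = 0 := by
    intro l hl
    rw [← Finsupp.support_eq_empty, Finset.eq_empty_iff_forall_notMem]
    intro u hu
    obtain ⟨h1, h2, -, h4⟩ := hcomp l hl.le u hu
    have h5 := length_le_of_inc h4 (N := C.card) (fun x hx => hlt _ (h2 x hx))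
    omega
  obtain ⟨b, hbG, hb0, hbb, hble, hbgt⟩ := exists_trunc (G := FundamentalGroup M x₀) C.card b₀
    (fun g c => by rw [hb₀, hb₀, hαG, hfG', hSG])
    (by rw [hb₀, hα0, mp_sg, List.map_nil, hS0])
    (fun c => by rw [hb₀, hb₀, hSb, bd_mp, hαb]) hN
  obtain ⟨Z, hZ⟩ := exists_orbits (x₀ := x₀) hl2 C C.card
  refine ⟨b, hbG, hb0, hbb, ?_, Z, ?_⟩
  · intro l
    by_cases hl : l.length ≤ C.card
    · rw [hble l hl]
      exact (hcomp l (by omega)).mono fun u hu => hu.1
    · rw [hbgt l (not_le.mp hl)]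
      exact Spt.zero
  · intro l
    by_cases hl : l.length ≤ C.card
    · rw [hble l hl]
      exact (hcomp l (by omega)).mono fun u hu => hZ u (by rw [hu.1]; exact hl) hu.2.1 hu.2.2.1
    · rw [hbgt l (not_le.mp hl)]
      exact Spt.zero

end FD3
end

/-- TASK FD3. The fundamental group acts on `Cov x₀` with the property `FDX`.
Proof: let `δ` be the constant of `exists_short_loop` and `d = δ / 6`. Take `C`, `f` from
`exists_net`, `lab` from `exists_lab`, `N = C.card`, `α` from `exists_alpha` for `L = N + 1`, `S` from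
`exists_sort` for `fun a => lab a.pt` (`smul_free`, `smul_pt`). The map `b₀ = S ∘ mp f ∘ α` is an
equivariant chain map (`mp_mp` for the equivariance of `mp f`) and vanishes on lists of length `N + 1`:
by `spt_comp` and `length_le_of_inc` (labels `< N`) its support is empty. Take `b` from
`exists_trunc` and `Z` from `exists_orbits` for `d + (d + d)`, `C`, `N`. The lengths: for
`l.length ≤ N` by `spt_comp`, otherwise `b (sg l) = 0`. -/
alias fdx_cov := FD3.fdx_cov


section
open Pool.Agent.MP_0c3001_gt.Br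

namespace FD4

theorem FDX.transfer {G X Y : Type} [Group G] [MulAction G X] [MulAction G Y] (h : FDX G X)
    (p : X → Y) (hp : ∀ (g : G) x, p (g • x) = g • p x) (q : Y → X)
    (hq : ∀ (g : G) y, q (g • y) = g • q y) : FDX G Y := by
  classical
  obtain ⟨b, hG, h0, hb, hl, Z, hZ⟩ := h
  refine ⟨(mp p).comp (b.comp (mp q)), ?_, ?_, ?_, ?_, Z.image (List.map p), ?_⟩
  · intro g c
    simp only [LinearMap.comp_apply]
    have h1 : mp q (act g c) = act g (mp q c) := by
      rw [act, act, mp_mp, mp_mp]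
      congr 1
      exact congrArg mp (funext fun y => hq g y)
    rw [h1, hG, act, act, mp_mp, mp_mp]
    congr 1
    exact congrArg mp (funext fun x => hp g x)
  · simp only [LinearMap.comp_apply]
    rw [mp_sg, List.map_nil, h0, mp_sg, List.map_nil]
  · intro c
    simp only [LinearMap.comp_apply]
    rw [bd_mp, hb, bd_mp]
  · intro l
    simp only [LinearMap.comp_apply]
    rw [mp_sg]
    apply Spt.mp
    refine (hl (l.map q)).mono fun t ht => ?_
    rw [List.length_map, ht, List.length_map]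
  · intro l
    simp only [LinearMap.comp_apply]
    rw [mp_sg]
    apply Spt.mp
    refine (hZ (l.map q)).mono fun t ht => ?_
    obtain ⟨z, hz, g, rfl⟩ := ht
    refine ⟨z.map p, Finset.mem_image_of_mem _ hz, g, ?_⟩
    rw [List.map_map, List.map_map]
    congr 1
    exact funext fun x => hp g x

theorem FDX.self {G X : Type} [Group G] [MulAction G X]
    (hfree : ∀ (g : G) (a : X), g • a = a → g = 1) (h : FDX G X) (x : X) : FDX G G := by
  refine FD4.FDX.transfer h (fun x' => gg G [x']) ?_ (fun g => g • x) ?_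
  · intro g x'
    exact gg_map hfree g (l := [x']) (by simp)
  · intro g y
    exact mul_smul g y x

end FD4
end

/-- TASK FD4. Transfer to another free action, in particular to the group itself.
Proof: `b' = mp p ∘ b ∘ mp q`, `Z' = Z.image (List.map p)` (`mp_mp`, `bd_mp`, `mp_sg`). -/
alias FDX.transfer := FD4.FDX.transfer


/-- TASK FD5. Proof: `FDX.transfer` for `p x = gg G [x]` (`gg_map`) and `q g = g • x`. -/
alias FDX.self := FD4.FDX.self

/-- Closed aspherical topological manifolds. -/
theorem fdx_fundamentalGroup (n : ℕ) (M : Type) [TopologicalSpace M] [T2Space M]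
    [SecondCountableTopology M] [ChartedSpace (EuclideanSpace ℝ (Fin n)) M] [CompactSpace M]
    (hπ : ∀ (k : ℕ) (x : M), 2 ≤ k → Subsingleton (HomotopyGroup (Fin k) M x)) (x₀ : M) :
    FDX (FundamentalGroup M x₀) (FundamentalGroup M x₀) := by
  let _ : MetricSpace M := TopologicalSpace.metrizableSpaceMetric M
  have hM : BallProp M := ballProp_of_chartedSpace n M
  exact FDX.self (smul_free (x₀ := x₀)) (fdx_cov hM (fun k hk x => hπ k x hk) x₀) ⟨x₀, 𝟙 _⟩

end Pool.Agent.MP_0c3001_gt.Br
end

section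

/-!
Cohomology of groups with the property `FDX`.
-/

set_option autoImplicit false

open CategoryTheory CategoryTheory.Abelian Pool.MP0c3001

namespace Pool.Agent.MP_0c3001_gt.Br

section

variable {k : Type} [CommRing k] {G : Type} [Group G]

/-- The value of a morphism from the standard resolution on a tuple. -/
noncomputable def ev {V : Rep.{0} k G} {n : ℕ} (f : (Rep.standardComplex k G).X n ⟶ V)
    (x : Fin (n + 1) → G) : V.V :=
  f.hom (MonoidAlgebra.single x 1 : MonoidAlgebra k (Fin (n + 1) → G))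

theorem ev_ext {V : Rep.{0} k G} {n : ℕ} {f f' : (Rep.standardComplex k G).X n ⟶ V}
    (h : ∀ x, ev f x = ev f' x) : f = f' := by
  apply Rep.hom_ext
  apply Representation.IntertwiningMap.ext
  apply MonoidAlgebra.lhom_ext'
  intro x
  apply LinearMap.ext_ring
  exact h x

theorem ev_smul {V : Rep.{0} k G} {n : ℕ} (f : (Rep.standardComplex k G).X n ⟶ V) (g : G)
    (x : Fin (n + 1) → G) : ev f (fun i => g * x i) = V.ρ g (ev f x) := by
  unfold ev
  rw [← Rep.hom_comm_apply]
  congr 1
  exact (Representation.linearize_single (k := k) (G := G)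
    (X := Action.ofMulAction G (Fin (n + 1) → G)) g x).symm

theorem ev_d {V : Rep.{0} k G} {n : ℕ} (f : (Rep.standardComplex k G).X n ⟶ V)
    (x : Fin (n + 2) → G) : ev ((Rep.standardComplex k G).d (n + 1) n ≫ f) x =
      ∑ i : Fin (n + 2), ((-1 : ℤ) ^ (i : ℕ)) • ev f (fun j => x (i.succAbove j)) := by
  have h := Rep.standardComplex.d_apply k G
    (MonoidAlgebra.single x 1 : MonoidAlgebra k (Fin (n + 1 + 1) → G))
  have h' : ev ((Rep.standardComplex k G).d (n + 1) n ≫ f) x = f.hom
      (((Rep.standardComplex k G).d (n + 1) n).hom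
        (MonoidAlgebra.single x 1 : MonoidAlgebra k (Fin (n + 1 + 1) → G))) := rfl
  rw [h', h, Rep.standardComplex.d_of]
  let L : MonoidAlgebra k (Fin (n + 1) → G) →ₗ[k] V.V := f.hom.toLinearMap
  change L (∑ p : Fin (n + 1 + 1), MonoidAlgebra.single (x ∘ p.succAbove) ((-1 : k) ^ p.val)) = _
  rw [map_sum]
  apply Finset.sum_congr rfl
  intro i _
  change _ = ((-1 : ℤ) ^ (i : ℕ)) • L (MonoidAlgebra.single (fun j => x (i.succAbove j)) 1)
  rw [← mul_one ((-1 : k) ^ i.val), ← smul_eq_mul, ← MonoidAlgebra.smul_single, map_smul]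
  rw [← Int.cast_smul_eq_zsmul k]
  push_cast
  rfl

theorem exists_ev {V : Rep.{0} k G} {n : ℕ} (F : (Fin (n + 1) → G) → V.V)
    (hF : ∀ (g : G) x, F (fun i => g * x i) = V.ρ g (F x)) :
    ∃ f : (Rep.standardComplex k G).X n ⟶ V, ∀ x, ev f x = F x := by
  let L : MonoidAlgebra k (Fin (n + 1) → G) →ₗ[k] V.V :=
    (Finsupp.lift V.V k (Fin (n + 1) → G) F) ∘ₗ (MonoidAlgebra.coeffLinearEquiv k).toLinearMap
  have hL : ∀ x r, L (MonoidAlgebra.single x r) = r • F x := by
    intro x r
    simp [L]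
  let f : (Rep.ofMulAction k G (Fin (n + 1) → G)) ⟶ V := Rep.ofHom
    { toLinearMap := L
      isIntertwining' := by
        intro g
        apply MonoidAlgebra.lhom_ext'
        intro x
        apply LinearMap.ext_ring
        have h1 := Representation.linearize_single (k := k) (G := G)
          (X := Action.ofMulAction G (Fin (n + 1) → G)) g x
        change L (Representation.linearize k G (Action.ofMulAction G (Fin (n + 1) → G)) g
          (MonoidAlgebra.single x 1)) = V.ρ g (L (MonoidAlgebra.single x 1))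
        rw [h1]
        change L (MonoidAlgebra.single (fun i => g * x i) 1) = V.ρ g (L (MonoidAlgebra.single x 1))
        rw [hL, hL, hF, one_smul, one_smul] }
  refine ⟨f, fun x => ?_⟩
  have := hL x 1
  rw [one_smul] at this
  exact this

/-- The linear map on chains of lists given by a morphism from the standard resolution: lists of
length `n + 1` are tuples, other lists are mapped to `0`. -/
noncomputable def lf {V : Rep.{0} k G} {n : ℕ} (f : (Rep.standardComplex k G).X n ⟶ V) :
    Ch G →ₗ[ℤ] V.V :=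
  Finsupp.linearCombination ℤ (fun l : List G =>
    if h : l.length = n + 1 then ev f (fun i => l.get (i.cast h.symm)) else 0)

end

section
open CategoryTheory CategoryTheory.Abelian Pool.MP0c3001 Pool.Agent.MP_0c3001_gt.Br

namespace HoA

variable {k : Type} [CommRing k] {G : Type} [Group G]

theorem lf_ofFn {V : Rep.{0} k G} {n : ℕ} (f : (Rep.standardComplex k G).X n ⟶ V)
    (x : Fin (n + 1) → G) : lf f (sg (List.ofFn x)) = ev f x := by
  have h : (List.ofFn x).length = n + 1 := List.length_ofFn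
  simp only [lf, Finsupp.linearCombination_single, one_smul]
  rw [dif_pos h]
  congr 1
  funext i
  rw [List.get_ofFn]
  rfl

theorem lf_of_ne {V : Rep.{0} k G} {n : ℕ} (f : (Rep.standardComplex k G).X n ⟶ V) {l : List G}
    (hl : l.length ≠ n + 1) : lf f (sg l) = 0 := by
  simp only [lf, Finsupp.linearCombination_single, one_smul]
  rw [dif_neg hl]

omit [Group G] in
theorem exists_ofFn {n : ℕ} {l : List G} (hl : l.length = n) : ∃ x : Fin n → G, l = List.ofFn x := by
  subst hl
  exact ⟨l.get, (List.ofFn_get l).symm⟩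

theorem lf_act {V : Rep.{0} k G} {n : ℕ} (f : (Rep.standardComplex k G).X n ⟶ V) (g : G)
    (c : Ch G) : lf f (act g c) = V.ρ g (lf f c) := by
  have h : (lf f).comp (act g) = ((V.ρ g).toAddMonoidHom.toIntLinearMap).comp (lf f) := by
    apply lin_ext
    intro l
    change lf f (mp _ (sg l)) = V.ρ g (lf f (sg l))
    rw [mp_sg]
    by_cases hl : l.length = n + 1
    · obtain ⟨x, rfl⟩ := exists_ofFn hl
      rw [List.map_ofFn, lf_ofFn, lf_ofFn]
      exact ev_smul f g x
    · rw [lf_of_ne f hl, lf_of_ne f (by rwa [List.length_map]), map_zero]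
  exact LinearMap.congr_fun h c

end HoA
end

/-- TASK Ho1. -/
alias lf_ofFn := HoA.lf_ofFn

section

variable {k : Type} [CommRing k] {G : Type} [Group G]


end

/-- TASK Ho2. -/
alias lf_of_ne := HoA.lf_of_ne

section

variable {k : Type} [CommRing k] {G : Type} [Group G]


end

/-- TASK Ho3. A list of length `n` is `List.ofFn x` for some `x : Fin n → G`. -/
alias exists_ofFn := HoA.exists_ofFn

section

variable {k : Type} [CommRing k] {G : Type} [Group G]


end

/-- TASK Ho4. Proof: check on lists (`lin_ext`), with `ev_smul`, `lf_of_ne`, `exists_ofFn`. -/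
alias lf_act := HoA.lf_act

section

variable {k : Type} [CommRing k] {G : Type} [Group G]


end

section
open CategoryTheory CategoryTheory.Abelian Pool.MP0c3001
open Pool.Agent.MP_0c3001_gt.Br

namespace Ho5

variable {G : Type}

/-- TASK Ho5. The boundary of a tuple. -/
theorem bd_ofFn {n : ℕ} (x : Fin (n + 1) → G) :
    bd (sg (List.ofFn x)) =
      ∑ i : Fin (n + 1), ((-1 : ℤ) ^ (i : ℕ)) • sg (List.ofFn (fun j => x (i.succAbove j))) := by
  induction n with
  | zero =>
    rw [List.ofFn_succ, bd_cons, List.ofFn_zero, bd_nil, map_zero, sub_zero]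
    simp
  | succ n ih =>
    rw [List.ofFn_succ, bd_cons, ih, map_sum]
    rw [Fin.sum_univ_succ (fun i : Fin (n + 1 + 1) => ((-1 : ℤ) ^ (i : ℕ)) •
      sg (List.ofFn (fun j => x (i.succAbove j))))]
    have h0 : ((-1 : ℤ) ^ ((0 : Fin (n + 1 + 1)) : ℕ)) •
        sg (List.ofFn (fun j => x ((0 : Fin (n + 1 + 1)).succAbove j))) =
        sg (List.ofFn (fun i : Fin (n + 1) => x i.succ)) := by
      simp
    rw [h0, sub_eq_add_neg, ← Finset.sum_neg_distrib]
    congr 1
    refine Finset.sum_congr rfl fun i _ => ?_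
    rw [map_smul, cone_sg]
    have h1 : List.ofFn (fun j : Fin (n + 1) => x (i.succ.succAbove j)) =
        x 0 :: List.ofFn (fun j : Fin n => x (i.succAbove j).succ) := by
      rw [List.ofFn_succ]
      simp
    rw [h1, Fin.val_succ, pow_succ]
    simp
end Ho5
end

/-- TASK Ho5. The boundary of a tuple. Proof: induction on `n` (`List.ofFn_succ`, `bd_cons`,
`Fin.sum_univ_succ`, `Fin.succ_succAbove_zero`-like lemmas; `cone` is linear). -/
alias bd_ofFn := Ho5.bd_ofFn

section

variable {k : Type} [CommRing k] {G : Type} [Group G]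


end

section
open CategoryTheory CategoryTheory.Abelian Pool.MP0c3001
open Pool.Agent.MP_0c3001_gt.Br

namespace Ho6

variable {k : Type} [CommRing k] {G : Type} [Group G]

/-- TASK Ho6. -/
theorem lf_d {V : Rep.{0} k G} {n : ℕ} (f : (Rep.standardComplex k G).X n ⟶ V) (c : Ch G) :
    lf ((Rep.standardComplex k G).d (n + 1) n ≫ f) c = lf f (bd c) := by
  have h : lf ((Rep.standardComplex k G).d (n + 1) n ≫ f) = (lf f).comp bd := by
    apply lin_ext
    intro l
    rw [LinearMap.comp_apply]
    by_cases hl : l.length = n + 2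
    · obtain ⟨x, rfl⟩ := exists_ofFn hl
      rw [lf_ofFn, ev_d, bd_ofFn, map_sum]
      refine Finset.sum_congr rfl fun i _ => ?_
      rw [map_smul, lf_ofFn]
    · rw [lf_of_ne _ hl]
      have h1 : Spt (fun t : List G => t.length ≠ n + 1) (bd (sg l)) := by
        rw [bd_sg]
        refine (spt_bdl l).mono fun s hs => ?_
        have := hs.2
        omega
      have h2 : (lf f) (bd (sg l)) = (0 : Ch G →ₗ[ℤ] V.V) (bd (sg l)) :=
        lin_congr h1 fun t ht => by rw [lf_of_ne _ ht, LinearMap.zero_apply]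
      rw [h2, LinearMap.zero_apply]
  rw [h, LinearMap.comp_apply]
end Ho6
end

/-- TASK Ho6. Proof: check on lists: for a list of length `n + 2` use `exists_ofFn`, `ev_d` and `bd_ofFn`; for other
lists both sides are `0` (`spt_bdl`: the lists of `bd (sg l)` have length `l.length - 1`;
`lin_congr`). -/
alias lf_d := Ho6.lf_d

section

variable {k : Type} [CommRing k] {G : Type} [Group G]


end

section
open CategoryTheory CategoryTheory.Abelian Pool.MP0c3001
open Pool.Agent.MP_0c3001_gt.Br

namespace Ho7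

variable {k : Type} [CommRing k] {G : Type} [Group G]

/-- TASK Ho7. -/
theorem exists_lf {V : Rep.{0} k G} (n : ℕ) (F : Ch G →ₗ[ℤ] V.V)
    (hF : ∀ (g : G) c, F (act g c) = V.ρ g (F c)) :
    ∃ f : (Rep.standardComplex k G).X n ⟶ V, ∀ l : List G, l.length = n + 1 →
      lf f (sg l) = F (sg l) := by
  obtain ⟨f, hf⟩ := exists_ev (V := V) (n := n) (fun x => F (sg (List.ofFn x))) (fun g x => by
    rw [← hF]
    congr 1
    rw [act, mp_sg, List.map_ofFn]
    rfl)
  refine ⟨f, fun l hl => ?_⟩
  obtain ⟨x, rfl⟩ := exists_ofFn hl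
  rw [lf_ofFn, hf]
end Ho7
end

/-- TASK Ho7. Proof: `exists_ev` for `fun x => F (sg (List.ofFn x))`
(`act g (sg (List.ofFn x)) = sg (List.ofFn (fun i => g * x i))`), then `lf_ofFn`, `exists_ofFn`. -/
alias exists_lf := Ho7.exists_lf

section

variable {k : Type} [CommRing k] {G : Type} [Group G]


end

section
open CategoryTheory CategoryTheory.Abelian Pool.MP0c3001 Pool.Agent.MP_0c3001_gt.Br

namespace Ho8

variable {k : Type} [CommRing k] {G : Type} [Group G]

theorem exists_fdx_homotopy (b : Ch G →ₗ[ℤ] Ch G) (hG : ∀ (g : G) c, b (act g c) = act g (b c))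
    (h0 : b (sg []) = sg []) (hb : ∀ c, bd (b c) = b (bd c))
    (hl : ∀ l, Spt (fun t => t.length = l.length) (b (sg l))) :
    ∃ H : Ch G →ₗ[ℤ] Ch G, (∀ (g : G) c, H (act g c) = act g (H c)) ∧
      (∀ c, bd (H c) = b c - c - H (bd c)) ∧
      ∀ l, Spt (fun t => t.length = l.length + 1) (H (sg l)) := by
  obtain ⟨H, h1, -, h3, h4⟩ := exists_homotopy_equiv (G := G) (A := G) (B := G)
    (fun g a h => by simpa using h) b h0 hb hG id (fun g a => rfl) (fun _ _ => True)
    (fun _ _ _ _ => trivial) (fun _ _ _ _ _ => trivial) (fun _ _ _ => trivial)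
    (fun l => (hl l).mono fun t ht => ⟨ht, fun _ _ => trivial⟩)
  refine ⟨H, h1, fun c => ?_, fun l => (h4 l).mono fun t ht => ht.1⟩
  rw [h3 c, mp_id]

end Ho8
end

/-- TASK Ho8. The homotopy between the chain map of `FDX` and the identity. Proof:
`exists_homotopy_equiv` for `R = b`, `v = id`, `Q = fun _ _ => True` (`mp_id`). -/
alias exists_fdx_homotopy := Ho8.exists_fdx_homotopy

section

variable {k : Type} [CommRing k] {G : Type} [Group G]


end

section
open CategoryTheory CategoryTheory.Abelian Pool.MP0c3001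
open Pool.Agent.MP_0c3001_gt.Br

namespace Ho9

variable {k : Type} [CommRing k] {G : Type} [Group G]

/-- TASK Ho9. A cocycle which vanishes on the values of `b` is a coboundary. -/
theorem exists_d_comp (b : Ch G →ₗ[ℤ] Ch G) (hG : ∀ (g : G) c, b (act g c) = act g (b c))
    (h0 : b (sg []) = sg []) (hb : ∀ c, bd (b c) = b (bd c))
    (hl : ∀ l, Spt (fun t => t.length = l.length) (b (sg l)))
    {V : Rep.{0} k G} {n : ℕ} (f : (Rep.standardComplex k G).X (n + 1) ⟶ V)
    (hf : (Rep.standardComplex k G).d (n + 2) (n + 1) ≫ f = 0)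
    (h : ∀ l : List G, l.length = n + 2 → lf f (b (sg l)) = 0) :
    ∃ h : (Rep.standardComplex k G).X n ⟶ V, (Rep.standardComplex k G).d (n + 1) n ≫ h = f := by
  obtain ⟨H, hHG, hH, _⟩ := exists_fdx_homotopy b hG h0 hb hl
  have hFG : ∀ (g : G) c, (-(lf f).comp H : Ch G →ₗ[ℤ] V.V) (act g c) =
      V.ρ g ((-(lf f).comp H : Ch G →ₗ[ℤ] V.V) c) := by
    intro g c
    rw [LinearMap.neg_apply, LinearMap.neg_apply, LinearMap.comp_apply, LinearMap.comp_apply,
      hHG, lf_act, map_neg]
  obtain ⟨u, hu⟩ := exists_lf n (-(lf f).comp H : Ch G →ₗ[ℤ] V.V) hFG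
  refine ⟨u, ?_⟩
  apply ev_ext
  intro x
  rw [← lf_ofFn, ← lf_ofFn, lf_d]
  set l := List.ofFn x with hldef
  have hlen : l.length = n + 2 := by rw [hldef, List.length_ofFn]
  have h1 : lf u (bd (sg l)) = (-(lf f).comp H : Ch G →ₗ[ℤ] V.V) (bd (sg l)) := by
    refine lin_congr (P := fun t : List G => t.length = n + 1) ?_ hu
    rw [bd_sg]
    refine (spt_bdl l).mono fun s hs => ?_
    have := hs.2
    omega
  rw [h1, LinearMap.neg_apply, LinearMap.comp_apply]
  have h2 : lf f (bd (H (sg l))) = 0 := by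
    rw [← lf_d, hf]
    have h3 : (lf (0 : (Rep.standardComplex k G).X (n + 2) ⟶ V)) = 0 := by
      apply lin_ext
      intro t
      rw [LinearMap.zero_apply]
      by_cases ht : t.length = n + 2 + 1
      · obtain ⟨y, rfl⟩ := exists_ofFn ht
        rw [lf_ofFn]
        rfl
      · exact lf_of_ne _ ht
    rw [h3, LinearMap.zero_apply]
  rw [hH, map_sub, map_sub, h l hlen, zero_sub] at h2
  have h4 := sub_eq_zero.1 h2
  rw [← h4, neg_neg]
end Ho9
end

/-- TASK Ho9. A cocycle which vanishes on the values of `b` is a coboundary.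
Proof: take `H` from `exists_fdx_homotopy`. For `l` of length `n + 2`:
`0 = lf (d ≫ f) (H (sg l)) = lf f (bd (H (sg l))) = lf f (b (sg l)) - lf f (sg l) - lf f (H (bd (sg l)))`,
so `lf f (sg l) = F (bd (sg l))` for `F = - lf f ∘ H`, which is equivariant (`lf_act`). Take `h` from
`exists_lf n F`; `F (bd (sg l)) = lf h (bd (sg l)) = lf (d ≫ h) (sg l)` (`lin_congr`: the lists of
`bd (sg l)` have length `n + 1`). Conclude by `ev_ext` (`lf_ofFn`). -/
alias exists_d_comp := Ho9.exists_d_comp

section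

variable {k : Type} [CommRing k] {G : Type} [Group G]


end

section
open CategoryTheory CategoryTheory.Abelian Pool.MP0c3001 Pool.Agent.MP_0c3001_gt.Br

namespace Ho10

variable {k : Type} [CommRing k] {G : Type} [Group G]

theorem exists_vanish (h : FDX G G) : ∃ D : ℕ, ∀ (V : Rep.{0} k G) (i : ℕ), D ≤ i →
    Subsingleton (HH k G V i) := by
  obtain ⟨b, hG, h0, hb, hl, Z, hZ⟩ := h
  refine ⟨Z.sup List.length + 1, fun V i hi => ?_⟩
  obtain ⟨n, rfl⟩ : ∃ n, i = n + 1 := ⟨i - 1, by omega⟩
  have hzero : ∀ l : List G, l.length = n + 2 → b (sg l) = 0 := by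
    intro l hlen
    rw [← Finsupp.support_eq_empty, Finset.eq_empty_iff_forall_notMem]
    intro t ht
    obtain ⟨z, hz, g, rfl⟩ := hZ l t ht
    have h1 := hl l _ ht
    have h2 : z.length ≤ Z.sup List.length := Finset.le_sup hz
    simp only [List.length_map] at h1
    omega
  suffices hx : ∀ x : HH k G V (n + 1), x = 0 from ⟨fun x y => by rw [hx x, hx y]⟩
  intro x
  obtain ⟨f, hf, rfl⟩ := (Rep.standardResolution k G).extMk_surjective x (n + 2) rfl
  rw [ProjectiveResolution.extMk_eq_zero_iff (p := n) (hp := rfl)]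
  exact exists_d_comp b hG h0 hb hl f hf (fun l hlen => by rw [hzero l hlen, map_zero])

end Ho10
end

/-- TASK Ho10. Vanishing in large degrees.
Proof: let `b`, `Z` be from `FDX`, and `D` larger than the length of all elements of `Z` and `1 ≤ D`. For
`i ≥ D` write `i = n + 1`. By `ProjectiveResolution.extMk_surjective` for
`Rep.standardResolution k G` (its complex is `Rep.standardComplex k G`) every `x` is `extMk f`, and
`extMk f = 0` by `ProjectiveResolution.extMk_eq_zero_iff` and `exists_d_comp`: the lists of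
`b (sg l)`, `l.length = n + 2`, have length `n + 2` and are images of lists of `Z`, so
`b (sg l) = 0`. -/
alias exists_vanish := Ho10.exists_vanish

section

variable {k : Type} [CommRing k] {G : Type} [Group G]


end

section
open CategoryTheory CategoryTheory.Abelian Pool.MP0c3001 Pool.Agent.MP_0c3001_gt.Br

namespace Ho11

variable {k : Type} [CommRing k] {G : Type} [Group G]

theorem noetherian_int (hk : Function.Bijective (Int.cast : ℤ → k)) (M : Type)
    [AddCommGroup M] [Module k M] (hM : Module.Finite k M) : IsNoetherian ℤ M := by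
  have h1 : Module.Finite ℤ k :=
    Module.Finite.of_surjective (Int.castAddHom k).toIntLinearMap hk.2
  have h2 : Module.Finite ℤ M := Module.Finite.trans k M
  exact isNoetherian_of_isNoetherianRing_of_finite ℤ M

theorem finite_zero (hk : Function.Bijective (Int.cast : ℤ → k)) {V : Rep.{0} k G}
    (hV : Module.Finite k V.V) : Module.Finite ℤ (HH k G V 0) := by
  have h2 : IsNoetherian ℤ V.V := noetherian_int hk V.V hV
  let e : HH k G V 0 ≃+ (Zt k G ⟶ V) := Ext.addEquiv₀
  let ev1 : (Zt k G ⟶ V) →+ V.V :=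
    { toFun := fun f => f.hom (1 : k)
      map_zero' := rfl
      map_add' := fun f g => rfl }
  have hinj : Function.Injective ev1 := by
    intro f g hfg
    apply Rep.hom_ext
    apply Representation.IntertwiningMap.ext
    apply LinearMap.ext_ring
    exact hfg
  have hinj2 : Function.Injective (ev1.comp e.toAddMonoidHom) := hinj.comp e.injective
  exact Module.Finite.of_injective (ev1.comp e.toAddMonoidHom).toIntLinearMap hinj2

end Ho11
end

/-- TASK Ho11. Degree `0`: `HH k G V 0` is `Zt ⟶ V` (`Ext.homEquiv₀`, `Ext.addEquiv₀`), which embeds into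
`V` by evaluation at `1`; `V` is a finite module over `ℤ`, since `k` is generated by `1` as an abelian
group, and `ℤ` is noetherian. -/
alias finite_zero := Ho11.finite_zero

section

variable {k : Type} [CommRing k] {G : Type} [Group G]


end

section
open CategoryTheory CategoryTheory.Abelian Pool.MP0c3001 Pool.Agent.MP_0c3001_gt.Br

namespace Ho12

variable {k : Type} [CommRing k] {G : Type} [Group G]

theorem noetherian_int (hk : Function.Bijective (Int.cast : ℤ → k)) (M : Type)
    [AddCommGroup M] [Module k M] (hM : Module.Finite k M) : IsNoetherian ℤ M := by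
  have h1 : Module.Finite ℤ k :=
    Module.Finite.of_surjective (Int.castAddHom k).toIntLinearMap hk.2
  have h2 : Module.Finite ℤ M := Module.Finite.trans k M
  exact isNoetherian_of_isNoetherianRing_of_finite ℤ M

theorem lf_add {V : Rep.{0} k G} {n : ℕ} (f g : (Rep.standardComplex k G).X n ⟶ V) (l : List G) :
    lf (f + g) (sg l) = lf f (sg l) + lf g (sg l) := by
  simp only [lf, Finsupp.linearCombination_single, one_smul]
  split_ifs with h
  · rfl
  · rw [add_zero]

theorem lf_zero {V : Rep.{0} k G} {n : ℕ} (l : List G) :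
    lf (0 : (Rep.standardComplex k G).X n ⟶ V) (sg l) = 0 := by
  simp only [lf, Finsupp.linearCombination_single, one_smul]
  split_ifs with h
  · rfl
  · rfl

/-- The cocycles. -/
def cocyc (V : Rep.{0} k G) (n : ℕ) : AddSubgroup ((Rep.standardComplex k G).X (n + 1) ⟶ V) where
  carrier := {f | (Rep.standardComplex k G).d (n + 2) (n + 1) ≫ f = 0}
  zero_mem' := by simp
  add_mem' := by
    intro a b ha hb
    simp only [Set.mem_ofPred_eq] at ha hb ⊢
    rw [Preadditive.comp_add, ha, hb, add_zero]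
  neg_mem' := by
    intro a ha
    simp only [Set.mem_ofPred_eq] at ha ⊢
    rw [Preadditive.comp_neg, ha, neg_zero]

theorem finite_succ (hk : Function.Bijective (Int.cast : ℤ → k)) (h : FDX G G) {V : Rep.{0} k G}
    (hV : Module.Finite k V.V) (n : ℕ) : Module.Finite ℤ (HH k G V (n + 1)) := by
  obtain ⟨b, hG, h0, hb, hl, Z, hZ⟩ := h
  have hN : IsNoetherian ℤ V.V := noetherian_int hk V.V hV
  let e : cocyc V n →+ HH k G V (n + 1) :=
    { toFun := fun f => (Rep.standardResolution k G).extMk f.1 (n + 2) rfl f.2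
      map_zero' := (Rep.standardResolution k G).extMk_zero (n + 2) rfl
      map_add' := fun f g =>
        ((Rep.standardResolution k G).add_extMk f.1 g.1 (n + 2) rfl f.2 g.2).symm }
  let r : cocyc V n →+ (Z → V.V) :=
    { toFun := fun f z => lf f.1 (sg z.1)
      map_zero' := by
        funext z
        exact lf_zero z.1
      map_add' := fun f g => by
        funext z
        exact lf_add f.1 g.1 z.1 }
  have he : Function.Surjective e := by
    intro x
    obtain ⟨f, hf, rfl⟩ := (Rep.standardResolution k G).extMk_surjective x (n + 2) rfl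
    exact ⟨⟨f, hf⟩, rfl⟩
  have hker : ∀ f : cocyc V n, r f = 0 → e f = 0 := by
    intro f hf
    have hz : ∀ z ∈ Z, lf f.1 (sg z) = 0 := fun z hz => congrFun hf ⟨z, hz⟩
    refine ((Rep.standardResolution k G).extMk_eq_zero_iff f.1 (n + 2) rfl f.2 n rfl).2 ?_
    refine exists_d_comp b hG h0 hb hl f.1 f.2 (fun l _ => ?_)
    have := lin_congr (F := lf f.1) (F' := 0) (hZ l) ?_
    · rw [this]; rfl
    · rintro t ⟨z, hzZ, g, rfl⟩
      have h3 : act g (sg z) = sg (z.map (fun a => g • a)) := mp_sg _ _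
      rw [← h3, lf_act, hz z hzZ, map_zero]
      rfl
  let eL := e.toIntLinearMap
  let rL := r.toIntLinearMap
  have hkerL : LinearMap.ker rL ≤ LinearMap.ker eL := fun f hf => hker f hf
  have hfin : Module.Finite ℤ (LinearMap.range rL) := inferInstance
  have hfin2 : Module.Finite ℤ (cocyc V n ⧸ LinearMap.ker rL) :=
    Module.Finite.equiv rL.quotKerEquivRange.symm
  refine Module.Finite.of_surjective ((LinearMap.ker rL).liftQ eL hkerL) ?_
  intro x
  obtain ⟨f, hf⟩ := he x
  exact ⟨(LinearMap.ker rL).mkQ f, hf⟩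

end Ho12
end

/-- TASK Ho12. Finiteness in positive degrees.
Proof: `V` is a finite module over `ℤ` (see `finite_zero`). Let `K` be the additive subgroup of the
`f : X (n + 1) ⟶ V` with `d ≫ f = 0`; `e : K → HH k G V (n + 1)`, `f ↦ extMk f` is additive
(`add_extMk`) and surjective (`extMk_surjective`), and `r : K → (Z → V)`, `r f z = lf f (sg z)`, is
additive. If `r f = 0` then `lf f (b (sg l)) = 0` for all `l` (the lists of `b (sg l)` are `g • z`;
`lf_act`), so `e f = 0` by `exists_d_comp`. The group `Z → V` is a noetherian `ℤ`-module, so the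
range of `r` is finite, and `HH` is a quotient of it. -/
alias finite_succ := Ho12.finite_succ

section

variable {k : Type} [CommRing k] {G : Type} [Group G]


theorem fgCoh_of_fdx (hk : Function.Bijective (Int.cast : ℤ → k)) (h : FDX G G) :
    FgCoh k G := by
  intro V hV i
  rcases i with _ | n
  · exact finite_zero hk hV
  · exact finite_succ hk h hV n

end

end Pool.Agent.MP_0c3001_gt.Br
end

section

/-!
# Groups whose cohomology is killed by an integer in degrees `≥ 1`; finite groups
-/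

set_option autoImplicit false

namespace Pool.MP0c3001

open CategoryTheory CategoryTheory.Abelian Limits

noncomputable section

variable {k : Type} [CommRing k] {Γ : Type} [Group Γ]

theorem exists_invariant {m : ℕ} (h : Kills k Γ m 1) :
    ∃ v : Unit × Γ →₀ k, (∀ g : Γ, frRho k Unit Γ g v = v) ∧ (aug k Γ).hom v = (m : k) := by
  have h1 : m • (augSeq k Γ).extClass = 0 := h (Iaug k Γ) 1 le_rfl _
  have h2 : (Ext.mk₀ (m • 𝟙 (Zt k Γ))).comp (augSeq k Γ).extClass (zero_add 1) = 0 := by
    have e1 : Ext.mk₀ (m • 𝟙 (Zt k Γ)) = m • Ext.mk₀ (𝟙 (Zt k Γ)) := by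
      have := map_nsmul (Ext.addEquiv₀ (X := Zt k Γ) (Y := Zt k Γ)).symm m (𝟙 (Zt k Γ))
      exact this
    rw [e1, nsmul_comp', Ext.mk₀_id_comp]
    exact h1
  obtain ⟨x, hx⟩ := Ext.covariant_sequence_exact₃ (Zt k Γ) (augSeq k Γ) _ (zero_add 1) h2
  obtain ⟨f, rfl⟩ := (Ext.mk₀_bijective (Zt k Γ) (Fr k Unit Γ)).2 x
  have h3 : f ≫ aug k Γ = m • 𝟙 (Zt k Γ) := by
    apply (Ext.mk₀_bijective (Zt k Γ) (Zt k Γ)).1
    rw [← hx, Ext.mk₀_comp_mk₀]
  refine ⟨f.hom (1 : k), ?_, ?_⟩
  · intro g
    have h4 := Rep.hom_comm_apply f g (1 : k)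
    exact h4.symm
  · have h5 : (f ≫ aug k Γ).hom (1 : k) = (m • 𝟙 (Zt k Γ)).hom (1 : k) := by rw [h3]
    have h6 : (f ≫ aug k Γ).hom (1 : k) = (aug k Γ).hom (f.hom (1 : k)) := rfl
    rw [← h6, h5]
    have h7 : ∀ n : ℕ, (n • 𝟙 (Zt k Γ)).hom (1 : k) = (n : k) := by
      intro n
      induction n with
      | zero =>
        rw [zero_smul, Nat.cast_zero]
        rfl
      | succ n ih =>
        rw [succ_nsmul, Nat.cast_succ, ← ih]
        rfl
    exact h7 m

theorem finite_of_kills (hk : Function.Bijective (Int.cast : ℤ → k)) {m : ℕ} (hm : 0 < m)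
    (h : Kills k Γ m 1) : Finite Γ := by
  obtain ⟨v, hv, hva⟩ := exists_invariant h
  have hm0 : (m : k) ≠ 0 := by
    intro h0
    have h1 : ((m : ℤ) : k) = ((0 : ℤ) : k) := by
      rw [Int.cast_natCast, h0, Int.cast_zero]
    have h2 : (m : ℤ) = 0 := hk.1 h1
    omega
  have hv0 : v ≠ 0 := by
    intro h0
    apply hm0
    rw [← hva, h0]
    exact map_zero _
  obtain ⟨x, hx⟩ := Finsupp.support_nonempty_iff.mpr hv0
  have hval : ∀ g : Γ, v (x.1, g * x.2) = v x := by
    intro g
    have h1 : (frRho k Unit Γ g v) (x.1, g * x.2) = v x := by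
      have h2 : Function.Injective (fun y : Unit × Γ => (y.1, g * y.2)) := by
        intro a b hab
        have h3 := congrArg Prod.snd hab
        have h4 : g * a.2 = g * b.2 := h3
        exact Prod.ext rfl (mul_left_cancel h4)
      exact Finsupp.mapDomain_apply h2 v x
    rw [hv g] at h1
    exact h1
  have hinj : Function.Injective (fun g : Γ => (⟨(x.1, g * x.2), by
      rw [Finset.mem_coe, Finsupp.mem_support_iff, hval g]
      exact Finsupp.mem_support_iff.mp hx⟩ : (v.support : Set (Unit × Γ)))) := by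
    intro a b hab
    have h1 := congrArg (fun z => z.1.2) hab
    have h2 : a * x.2 = b * x.2 := h1
    exact mul_right_cancel h2
  have : Finite (v.support : Set (Unit × Γ)) := v.support.finite_toSet
  exact Finite.of_injective _ hinj


/-- `Kills` passes to subgroups (Shapiro's lemma). -/
theorem Kills.subgroup {m d : ℕ} (h : Kills k Γ m d) (K : Subgroup Γ) : Kills k K m d := by
  intro V i hi x
  have hS := shapiro_bijective (Rep.resFunctor (k := k) K.subtype)
    (Rep.resCoindAdjunction k K.subtype) (Zt k Γ) V i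
  have hS2 : ∀ y : Ext.{0} ((Rep.resFunctor (k := k) K.subtype).obj (Zt k Γ)) V i, m • y = 0 := by
    intro y
    obtain ⟨z, hz⟩ := hS.2 y
    have hz0 : m • z = 0 := h _ i hi z
    have e := map_nsmul (cmp (Rep.resFunctor (k := k) K.subtype)
      (𝟙 ((Rep.resFunctor (k := k) K.subtype).obj (Zt k Γ)))
      ((Rep.resCoindAdjunction k K.subtype).counit.app V) i) m z
    have e2 : m • z = 0 := hz0
    have e3 : (cmp (Rep.resFunctor (k := k) K.subtype)
      (𝟙 ((Rep.resFunctor (k := k) K.subtype).obj (Zt k Γ)))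
      ((Rep.resCoindAdjunction k K.subtype).counit.app V) i) (m • z) = 0 := by
      rw [e2]; exact map_zero _
    have e4 := e.symm.trans e3
    rw [← hz]
    exact e4
  exact hS2 x

/-- The underlying linear map of the averaging map from the coinduced module. -/
def projLin [Fintype Γ] (V : Rep.{0} k Γ) :
    Representation.coindV (⊥ : Subgroup Γ).subtype (Rep.res (⊥ : Subgroup Γ).subtype V).ρ →ₗ[k]
      V.V :=
  ∑ g : Γ, (V.ρ g⁻¹) ∘ₗ (LinearMap.proj g) ∘ₗ
        (Representation.coindV (⊥ : Subgroup Γ).subtype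
          (Rep.res (⊥ : Subgroup Γ).subtype V).ρ).subtype

lemma projLin_apply [Fintype Γ] (V : Rep.{0} k Γ)
    (f : Representation.coindV (⊥ : Subgroup Γ).subtype
      (Rep.res (⊥ : Subgroup Γ).subtype V).ρ) :
    projLin V f = ∑ g : Γ, V.ρ g⁻¹ (f.1 g) := by
  unfold projLin
  rw [LinearMap.sum_apply]
  rfl

/-- The averaging map from the coinduced module. -/
def proj [Fintype Γ] (V : Rep.{0} k Γ) :
    Rep.coind (⊥ : Subgroup Γ).subtype (Rep.res (⊥ : Subgroup Γ).subtype V) ⟶ V :=
  Rep.ofHom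
    { toLinearMap := projLin V
      isIntertwining' := by
        intro h
        apply LinearMap.ext
        intro f
        change projLin V ((Representation.coind (⊥ : Subgroup Γ).subtype
          (Rep.res (⊥ : Subgroup Γ).subtype V).ρ) h f) = V.ρ h (projLin V f)
        rw [projLin_apply, projLin_apply, map_sum]
        change ∑ g : Γ, V.ρ g⁻¹ (f.1 (g * h)) = _
        rw [← Equiv.sum_comp (Equiv.mulRight h) (fun g => V.ρ h (V.ρ g⁻¹ (f.1 g)))]
        apply Finset.sum_congr rfl
        intro g _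
        change _ = V.ρ h (V.ρ (g * h)⁻¹ (f.1 (g * h)))
        rw [← Module.End.mul_apply, ← map_mul]
        congr 2
        group }

lemma proj_surjective [Fintype Γ] (V : Rep.{0} k Γ) : Function.Surjective (proj V).hom := by
  classical
  intro v
  have hmem : (fun g : Γ => if g = 1 then v else 0) ∈
      Representation.coindV (⊥ : Subgroup Γ).subtype
      (Rep.res (⊥ : Subgroup Γ).subtype V).ρ := by
    rw [Representation.mem_coindV]
    intro g h
    obtain rfl : g = 1 := Subsingleton.elim _ _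
    rw [map_one, one_mul, map_one]
    rfl
  refine ⟨⟨_, hmem⟩, ?_⟩
  change projLin V ⟨_, hmem⟩ = v
  rw [projLin_apply, Finset.sum_eq_single 1]
  · simp
  · intro b _ hb
    simp [hb]
  · simp

/-- The cohomology of the coinduced module vanishes in positive degrees. -/
lemma coind_zero (W : Rep.{0} k (⊥ : Subgroup Γ)) (i : ℕ) (hi : 1 ≤ i)
    (x : Ext.{0} (Zt k Γ) (Rep.coind (⊥ : Subgroup Γ).subtype W) i) : x = 0 := by
  have hS := shapiro_bijective (Rep.resFunctor (k := k) (⊥ : Subgroup Γ).subtype)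
    (Rep.resCoindAdjunction k (⊥ : Subgroup Γ).subtype) (Zt k Γ) W i
  have hP : Projective ((Rep.resFunctor (k := k) (⊥ : Subgroup Γ).subtype).obj (Zt k Γ)) := by
    have : Projective (Rep.trivial k (⊥ : Subgroup Γ) k) :=
      Rep.trivial_projective_of_subsingleton
    exact this
  obtain ⟨j, rfl⟩ : ∃ j, i = j + 1 := ⟨i - 1, by omega⟩
  apply hS.1
  have h1 : ∀ y : Ext.{0} ((Rep.resFunctor (k := k) (⊥ : Subgroup Γ).subtype).obj (Zt k Γ))
      ((𝟭 (Rep.{0} k (⊥ : Subgroup Γ))).obj W) (j + 1), y = 0 := fun y =>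
    Ext.eq_zero_of_projective _
  exact (h1 _).trans (h1 _).symm

theorem Kills.lower [Finite Γ] {m d : ℕ} (hd : 1 ≤ d) (h : Kills k Γ m (d + 1)) :
    Kills k Γ m d := by
  intro V i hi x
  rcases Nat.lt_or_ge d i with hlt | hge
  · exact h V i hlt x
  obtain rfl : i = d := by omega
  have : Fintype Γ := Fintype.ofFinite Γ
  have hS := kerSeq_shortExact (proj V) (proj_surjective V)
  have h1 : (m • x).comp hS.extClass rfl = 0 := by
    rw [nsmul_comp']
    exact h _ (i + 1) le_rfl _
  obtain ⟨y, hy⟩ := Ext.covariant_sequence_exact₃ _ hS (m • x) rfl h1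
  have h2 : y = 0 := coind_zero _ i hd y
  rw [← hy, h2]
  exact map_zero ((Ext.mk₀ (proj V)).postcomp (Zt k Γ) (add_zero i))


theorem kills_one [Finite Γ] {m d : ℕ} (h : Kills k Γ m d) : Kills k Γ m 1 := by
  induction d with
  | zero => exact fun V i _ => h V i (Nat.zero_le _)
  | succ d ih =>
    rcases Nat.eq_zero_or_pos d with h0 | h0
    · subst h0
      exact h
    · exact ih (h.lower h0)

theorem aug_eq_sum [Fintype Γ] (v : Unit × Γ →₀ k) :
    (aug k Γ).hom v = ∑ g : Γ, v ((), g) := by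
  have h1 : v = ∑ x : Unit × Γ, Finsupp.single x (v x) := (Finsupp.univ_sum_single v).symm
  have h2 : (aug k Γ).hom v = ∑ x : Unit × Γ, v x := by
    calc (aug k Γ).hom v = (aug k Γ).hom (∑ x : Unit × Γ, Finsupp.single x (v x)) :=
          congrArg _ h1
      _ = ∑ x : Unit × Γ, (aug k Γ).hom (Finsupp.single x (v x)) := map_sum _ _ _
      _ = ∑ x : Unit × Γ, v x := Finset.sum_congr rfl fun x _ => aug_single x (v x)
  rw [h2, Fintype.sum_prod_type]
  simp

theorem card_dvd_of_kills (hk : Function.Bijective (Int.cast : ℤ → k)) [Finite Γ] {m d : ℕ}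
    (h : Kills k Γ m d) : Nat.card Γ ∣ m := by
  obtain ⟨v, hv, hva⟩ := exists_invariant (kills_one h)
  have : Fintype Γ := Fintype.ofFinite Γ
  have hval : ∀ g : Γ, v ((), g) = v ((), 1) := by
    intro g
    have h1 : (frRho k Unit Γ g v) ((), g * 1) = v ((), 1) := by
      have h2 : Function.Injective (fun y : Unit × Γ => (y.1, g * y.2)) := by
        intro a b hab
        have h3 := congrArg Prod.snd hab
        have h4 : g * a.2 = g * b.2 := h3
        exact Prod.ext rfl (mul_left_cancel h4)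
      exact Finsupp.mapDomain_apply h2 v ((), 1)
    rw [hv g, mul_one] at h1
    exact h1
  rw [aug_eq_sum, Finset.sum_congr rfl fun g _ => hval g, Finset.sum_const, Finset.card_univ,
    nsmul_eq_mul] at hva
  obtain ⟨z, hz⟩ := hk.2 (v ((), 1))
  have h1 : (((Fintype.card Γ : ℤ) * z : ℤ) : k) = ((m : ℤ) : k) := by
    rw [Int.cast_mul, hz, Int.cast_natCast, Int.cast_natCast, hva]
  have h2 : (Fintype.card Γ : ℤ) * z = m := hk.1 h1
  have h3 : (Fintype.card Γ : ℤ) ∣ (m : ℤ) := ⟨z, h2.symm⟩
  rw [Nat.card_eq_fintype_card]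
  exact_mod_cast h3

theorem orderOf_dvd_of_kills (hk : Function.Bijective (Int.cast : ℤ → k)) {m d : ℕ}
    (h : Kills k Γ m d) (g : Γ) (hg : IsOfFinOrder g) : orderOf g ∣ m := by
  have : Finite (Subgroup.zpowers g) := hg.finite_zpowers
  have h1 := card_dvd_of_kills hk (h.subgroup (Subgroup.zpowers g))
  rwa [Nat.card_zpowers] at h1


end

end Pool.MP0c3001
end

section

/-!
# The Gysin sequence of a cyclic central extension
-/

set_option autoImplicit false

namespace Pool.MP0c3001

open CategoryTheory CategoryTheory.Abelian Limits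

noncomputable section

variable {k : Type} [CommRing k] {G Q : Type} [Group G] [Group Q]

lemma kills_Iaug {m d : ℕ} (h : Kills k G m d) (V : Rep.{0} k G) (i : ℕ) (hi : 1 ≤ i)
    (hd : d ≤ i + 1) (x : Ext.{0} (Iaug k G) V i) : m • x = 0 := by
  obtain ⟨i, rfl⟩ : ∃ i', i = i' + 1 := ⟨i - 1, by omega⟩
  have h1 : (augSeq k G).extClass.comp (m • x) (show 1 + (i + 1) = i + 2 by omega) = 0 := by
    rw [comp_nsmul']
    exact h V (i + 2) (by omega) _
  obtain ⟨x₂, hx₂⟩ := Ext.contravariant_sequence_exact₁ (augSeq k G) V _ _ h1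
  have h0 : x₂ = 0 := Ext.eq_zero_of_projective _
  rw [← hx₂, h0, Ext.comp_zero]

lemma int_finite_of_finite (hk : Function.Bijective (Int.cast : ℤ → k)) (M : Type)
    [AddCommGroup M] [Module k M] (h : Module.Finite k M) : Module.Finite ℤ M := by
  obtain ⟨s, hs⟩ := h.fg_top
  refine ⟨⟨s, ?_⟩⟩
  rw [eq_top_iff]
  intro x _
  have hx : x ∈ Submodule.span k (s : Set M) := by rw [hs]; trivial
  induction hx using Submodule.span_induction with
  | mem x hx => exact Submodule.subset_span hx
  | zero => exact Submodule.zero_mem _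
  | add x y _ _ hx hy => exact Submodule.add_mem _ (hx trivial) (hy trivial)
  | smul a x _ hx =>
    obtain ⟨n, rfl⟩ := hk.2 a
    rw [Int.cast_smul_eq_zsmul]
    exact Submodule.smul_mem _ n (hx trivial)

lemma fg_Iaug (hk : Function.Bijective (Int.cast : ℤ → k)) (h : FgCoh k G) (V : Rep.{0} k G)
    (hV : Module.Finite k V.V) (i : ℕ) : Module.Finite ℤ (Ext.{0} (Iaug k G) V i) := by
  cases i with
  | zero =>
    have h1 : Module.Finite ℤ (Ext.{0} (Fr k Unit G) V 0) := by
      have hV' : Module.Finite ℤ V.V := int_finite_of_finite hk V.V hV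
      have e : Ext.{0} (Fr k Unit G) V 0 ≃+ (Fr k Unit G ⟶ V) := Ext.addEquiv₀
      let ev : (Fr k Unit G ⟶ V) →+ V.V :=
        { toFun := fun f => f.hom (Finsupp.single ((), 1) 1)
          map_zero' := rfl
          map_add' := fun f g => rfl }
      have hinj : Function.Injective (ev.comp e.toAddMonoidHom) := by
        have hev : Function.Injective ev := fun f g hfg => fr_hom_ext (fun s => hfg)
        exact hev.comp e.injective
      exact Module.Finite.of_injective (ev.comp e.toAddMonoidHom).toIntLinearMap hinj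
    refine fg_of_exact ((Ext.mk₀ (kerInc (aug k G))).precomp V (zero_add 0))
      ((augSeq k G).extClass.precomp V (show 1 + 0 = 1 by omega)) (fun b hb => ?_) h1 (h V hV 1)
    exact Ext.contravariant_sequence_exact₁ (augSeq k G) V b (show 1 + 0 = 1 by omega) hb
  | succ i =>
    refine fg_of_exact (0 : HH k G V 0 →+ _)
      ((augSeq k G).extClass.precomp V (show 1 + (i + 1) = i + 2 by omega)) (fun b hb => ?_)
      (h V hV 0) (h V hV (i + 2))
    obtain ⟨x₂, hx₂⟩ := Ext.contravariant_sequence_exact₁ (augSeq k G) V b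
      (show 1 + (i + 1) = i + 2 by omega) hb
    have h0 : x₂ = 0 := Ext.eq_zero_of_projective _
    refine ⟨0, ?_⟩
    rw [← hx₂, h0, Ext.comp_zero]
    rfl

/-- the cocycle `c` fits to the cyclic central extension `π` with kernel generated by `z`. -/
def Fits (π : G →* Q) (z : G) (c : Q → Q → k) : Prop :=
  ∃ (s : Q → G) (_ : IsSec π s) (j : G → ℤ), (∀ g, g = z ^ j g * s (π g)) ∧
    ∀ q' q, c q' q = (j (s q' * s q) : k)

theorem Dc_bij {π : G →* Q} {z : G} (hπ : CycExt π z) {c : Q → Q → k} (hc : IsCoc c)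
    (hf : Fits π z c) (V : Rep.{0} k Q) (i : ℕ) :
    ∃ φ : Ext.{0} (Dc (k := k) hc) V i →+ Ext.{0} (Iaug k G) ((Rep.resFunctor π).obj V) i,
      Function.Bijective φ := by
  obtain ⟨s, hs, j, hj, hcj⟩ := hf
  obtain ⟨p, hp⟩ := RedDc.red_Dc hπ hs j hj hc hcj
  exact ⟨_, red_bijective hπ hp V i⟩

theorem Dc_kills {π : G →* Q} {z : G} (hπ : CycExt π z) {c : Q → Q → k} (hc : IsCoc c)
    (hf : Fits π z c) {m d : ℕ} (h : Kills k G m d) (V : Rep.{0} k Q) (i : ℕ) (hi : 1 ≤ i)
    (hd : d ≤ i + 1) (x : Ext.{0} (Dc (k := k) hc) V i) : m • x = 0 := by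
  obtain ⟨φ, hφ⟩ := Dc_bij hπ hc hf V i
  apply hφ.1
  rw [map_nsmul, map_zero]
  exact kills_Iaug h _ i hi hd _

/-- the kernel of the product with the Euler class is killed -/
theorem gysin_inj {π : G →* Q} {z : G} (hπ : CycExt π z) {c : Q → Q → k} (hc : IsCoc c)
    (hf : Fits π z c) {m d : ℕ} (h : Kills k G m d) (V : Rep.{0} k Q) (i : ℕ) (hi : 1 ≤ i)
    (hd : d ≤ i + 1) (α : HH k Q V i)
    (hα : (cls (k := k) hc).comp α (show 2 + i = i + 2 by omega) = 0) : m • α = 0 :=
  gys_inj (dSeq (k := k) hc) (augSeq k Q) V i m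
    (fun x => Dc_kills hπ hc hf h V i hi hd x) α hα

/-- the cokernel of the product with the Euler class is killed -/
theorem gysin_surj {π : G →* Q} {z : G} (hπ : CycExt π z) {c : Q → Q → k} (hc : IsCoc c)
    (hf : Fits π z c) {m d : ℕ} (h : Kills k G m d) (V : Rep.{0} k Q) (i : ℕ)
    (hd : d ≤ i + 2) (β : HH k Q V (i + 2)) :
    ∃ α : HH k Q V i, (cls (k := k) hc).comp α (show 2 + i = i + 2 by omega) = m • β :=
  gys_surj (dSeq (k := k) hc) (augSeq k Q) V i m
    (fun x => Dc_kills hπ hc hf h V (i + 1) (by omega) (by omega) x) β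

lemma trivHom_ext {V : Rep.{0} k Q} {f g : Zt k Q ⟶ V} (h : f.hom (1 : k) = g.hom (1 : k)) :
    f = g := by
  apply Rep.hom_ext
  apply Representation.IntertwiningMap.ext
  apply LinearMap.ext
  intro x
  have hx : x = (x : k) • (1 : k) := by simp
  change f.hom x = g.hom x
  rw [hx]
  have e1 : f.hom ((x : k) • (1 : k)) = (x : k) • f.hom (1 : k) := map_smul f.hom _ _
  have e2 : g.hom ((x : k) • (1 : k)) = (x : k) • g.hom (1 : k) := map_smul g.hom _ _
  rw [e1, e2, h]

/-- finite generation passes to the quotient -/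
theorem gysin_fg (hk : Function.Bijective (Int.cast : ℤ → k)) {π : G →* Q} {z : G}
    (hπ : CycExt π z) {c : Q → Q → k} (hc : IsCoc c) (hf : Fits π z c) (h : FgCoh k G) :
    FgCoh k Q := by
  intro V hV i
  have hX : ∀ i, Module.Finite ℤ (Ext.{0} (Dc (k := k) hc) V i) := by
    intro i
    obtain ⟨φ, hφ⟩ := Dc_bij hπ hc hf V i
    have := fg_Iaug hk h ((Rep.resFunctor π).obj V) hV i
    exact Module.Finite.of_injective φ.toIntLinearMap hφ.1
  have hZ : Module.Finite ℤ (Ext.{0} (Zt k Q) V 0) := by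
    have hV' : Module.Finite ℤ V.V := int_finite_of_finite hk V.V hV
    have e : Ext.{0} (Zt k Q) V 0 ≃+ (Zt k Q ⟶ V) := Ext.addEquiv₀
    let ev : (Zt k Q ⟶ V) →+ V.V :=
      { toFun := fun f => f.hom (1 : k)
        map_zero' := rfl
        map_add' := fun f g => rfl }
    have hinj : Function.Injective (ev.comp e.toAddMonoidHom) := by
      have hev : Function.Injective ev := by
        intro f g hfg
        exact trivHom_ext hfg
      exact hev.comp e.injective
    exact Module.Finite.of_injective (ev.comp e.toAddMonoidHom).toIntLinearMap hinj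
  exact (gys_fg (dSeq (k := k) hc) (augSeq k Q) V hX hZ i).1

/-- powers of a class of degree two -/
def epow (e : HH k Q (Zt k Q) 2) : (n : ℕ) → HH k Q (Zt k Q) (2 * n)
  | 0 => Ext.mk₀ (𝟙 _)
  | n + 1 => e.comp (epow e n) (by omega)

theorem epow_inj (e : HH k Q (Zt k Q) 2) (m d : ℕ)
    (h : ∀ (V : Rep.{0} k Q) (i : ℕ), d ≤ i → ∀ α : HH k Q V i,
      e.comp α (show 2 + i = i + 2 by omega) = 0 → m • α = 0) (n : ℕ) (V : Rep.{0} k Q) (i : ℕ)
    (hi : d ≤ i) (y : HH k Q V i) (l : ℕ) (hl : 2 * n + i = l)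
    (hy : (epow e n).comp y hl = 0) : m ^ n • y = 0 := by
  induction n generalizing y l with
  | zero =>
    obtain rfl : l = i := by omega
    rw [pow_zero, one_nsmul]
    have : (Ext.mk₀ (𝟙 (Zt k Q))).comp y hl = 0 := hy
    rwa [Ext.mk₀_id_comp] at this
  | succ n ih =>
    obtain ⟨l', hl'⟩ : ∃ l', 2 * n + i = l' := ⟨_, rfl⟩
    have e1 : (epow e (n + 1)).comp y hl = e.comp ((epow e n).comp y hl') (by omega) :=
      Ext.comp_assoc (a₁₂ := 2 * (n + 1)) (a₂₃ := l') _ _ _ (by omega) (by omega) (by omega)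
    rw [e1] at hy
    obtain rfl : l = l' + 2 := by omega
    have h2 := h V l' (by omega) _ hy
    rw [← comp_nsmul'] at h2
    have h3 := ih (m • y) l' hl' h2
    rw [pow_succ, mul_nsmul']
    exact h3

theorem step_kills (e : HH k Q (Zt k Q) 2) (m d : ℕ)
    (h : ∀ (V : Rep.{0} k Q) (i : ℕ), d ≤ i → ∀ α : HH k Q V i,
      e.comp α (show 2 + i = i + 2 by omega) = 0 → m • α = 0) (n m' : ℕ)
    (hn : m' • epow e n = 0) : Kills k Q (m' * m ^ n) d := by
  intro V i hi x
  have h1 : (epow e n).comp (m' • x) (rfl : 2 * n + i = _) = 0 := by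
    rw [comp_nsmul', ← nsmul_comp', hn, Ext.zero_comp]
  have h2 := epow_inj e m d h n V i hi (m' • x) _ rfl h1
  rw [mul_comm, mul_nsmul']
  exact h2

end

end Pool.MP0c3001
end

section

/-!
# Central extensions with free abelian kernel: the classes `e_x`
-/

set_option autoImplicit false

namespace Pool.MP0c3001

open CategoryTheory CategoryTheory.Abelian Limits

noncomputable section

variable {G Q : Type} [Group G] [Group Q]

/-- The linear form `v ↦ ∑ x_j v_j` on the kernel. -/
def chi {π : G →* Q} {r : ℕ} (e : Additive π.ker ≃+ (Fin r → ℤ)) (x : Fin r → ℤ) :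
    Additive π.ker →+ ℤ where
  toFun a := ∑ j, x j * e a j
  map_zero' := by simp
  map_add' a b := by simp [mul_add, Finset.sum_add_distrib]

/-- The integral cocycle `c_x`. -/
def cx (π : G →* Q) (s : Q → G) (hs : IsSec π s) {r : ℕ} (e : Additive π.ker ≃+ (Fin r → ℤ))
    (x : Fin r → ℤ) (q' q : Q) : ℤ := chi e x (Additive.ofMul (fs π s hs q' q))

variable (k : Type) [CommRing k]

/-- `c_x` with values in `k`. -/
def cxk (π : G →* Q) (s : Q → G) (hs : IsSec π s) {r : ℕ} (e : Additive π.ker ≃+ (Fin r → ℤ))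
    (x : Fin r → ℤ) (q' q : Q) : k := (cx π s hs e x q' q : k)

lemma isCoc_cxk (π : G →* Q) (s : Q → G) (hs : IsSec π s) (hcen : π.ker ≤ Subgroup.center G)
    {r : ℕ} (e : Additive π.ker ≃+ (Fin r → ℤ)) (x : Fin r → ℤ) : IsCoc (cxk k π s hs e x) :=
  (isCoc_fs π s hs hcen (chi e x)).map (Int.castAddHom k)

/-- The class `e_x ∈ H²(Q;k)`. -/
def ex (π : G →* Q) (s : Q → G) (hs : IsSec π s) (hcen : π.ker ≤ Subgroup.center G)
    {r : ℕ} (e : Additive π.ker ≃+ (Fin r → ℤ)) (x : Fin r → ℤ) : HH k Q (Zt k Q) 2 :=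
  cls (k := k) (isCoc_cxk k π s hs hcen e x)

lemma ex_add (π : G →* Q) (s : Q → G) (hs : IsSec π s) (hcen : π.ker ≤ Subgroup.center G)
    {r : ℕ} (e : Additive π.ker ≃+ (Fin r → ℤ)) (x y : Fin r → ℤ) :
    ex k π s hs hcen e (x + y) = ex k π s hs hcen e x + ex k π s hs hcen e y := by
  -- universal cocycle with values in `Fin r → k`
  have hu : IsCoc (fun q' q : Q => fun j : Fin r =>
      ((e (Additive.ofMul (fs π s hs q' q)) j : ℤ) : k)) := by
    have := isCoc_fs π s hs hcen (e.toAddMonoidHom)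
    intro q' q p
    funext j
    have h := congrFun (this q' q p) j
    simp only [Pi.add_apply] at h ⊢
    rw [← Int.cast_add, ← Int.cast_add]
    exact congrArg _ h
  let θ : (Fin r → ℤ) → ((Fin r → k) →ₗ[k] k) := fun x => ∑ j, (x j : k) • LinearMap.proj j
  have hθ : ∀ x : Fin r → ℤ, ex k π s hs hcen e x =
      (cls (k := k) hu).comp (Ext.mk₀ (trivMap (Q := Q) (θ x))) (add_zero 2) := by
    intro x
    apply cls_map
    intro q' q
    simp [θ, cxk, cx, chi]
  have hadd : trivMap (Q := Q) (θ (x + y)) = trivMap (Q := Q) (θ x) + trivMap (Q := Q) (θ y) := by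
    apply Rep.hom_ext
    apply Representation.IntertwiningMap.ext
    apply LinearMap.ext
    intro v
    change θ (x + y) v = θ x v + θ y v
    simp [θ, add_mul, Finset.sum_add_distrib]
  rw [hθ, hθ, hθ, hadd, Ext.mk₀_add, Ext.comp_add]

end

end Pool.MP0c3001
end

section

/-!
# The intermediate quotient attached to a primitive linear form on the kernel
-/

set_option autoImplicit false

namespace Pool.MP0c3001

open CategoryTheory CategoryTheory.Abelian Limits

noncomputable section

variable {G Q : Type} [Group G] [Group Q]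

/-- The subgroup `U = ker χ_x ≤ ker π ≤ G`. -/
def uSub (π : G →* Q) {r : ℕ} (e : Additive π.ker ≃+ (Fin r → ℤ)) (x : Fin r → ℤ) :
    Subgroup G where
  carrier := {g | ∃ h : g ∈ π.ker, chi e x (Additive.ofMul ⟨g, h⟩) = 0}
  mul_mem' := by
    rintro a b ⟨ha, ha'⟩ ⟨hb, hb'⟩
    refine ⟨π.ker.mul_mem ha hb, ?_⟩
    have : (Additive.ofMul (⟨a * b, π.ker.mul_mem ha hb⟩ : π.ker)) =
      Additive.ofMul (⟨a, ha⟩ : π.ker) + Additive.ofMul (⟨b, hb⟩ : π.ker) := rfl
    rw [this, map_add, ha', hb', add_zero]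
  one_mem' := by
    refine ⟨π.ker.one_mem, ?_⟩
    have : (Additive.ofMul (⟨1, π.ker.one_mem⟩ : π.ker)) = 0 := rfl
    rw [this, map_zero]
  inv_mem' := by
    rintro a ⟨ha, ha'⟩
    refine ⟨π.ker.inv_mem ha, ?_⟩
    have : (Additive.ofMul (⟨a⁻¹, π.ker.inv_mem ha⟩ : π.ker)) =
      - Additive.ofMul (⟨a, ha⟩ : π.ker) := rfl
    rw [this, map_neg, ha', neg_zero]

lemma uSub_le (π : G →* Q) {r : ℕ} (e : Additive π.ker ≃+ (Fin r → ℤ)) (x : Fin r → ℤ) :
    uSub π e x ≤ π.ker := fun _ hg => hg.1

theorem primitive_data (k : Type) [CommRing k] (π : G →* Q) (hπ : Function.Surjective π)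
    (hcen : π.ker ≤ Subgroup.center G) (s : Q → G) (hs : IsSec π s) {r : ℕ}
    (e : Additive π.ker ≃+ (Fin (r + 1) → ℤ)) (x v : Fin (r + 1) → ℤ)
    (hv : ∑ j, x j * v j = 1) :
    ∃ (G' : Type) (_ : Group G') (p : G →* G') (ϖ : G' →* Q) (z : G'),
      Function.Surjective p ∧ p.ker ≤ π.ker ∧
        Nonempty (Additive p.ker ≃+ (Fin r → ℤ)) ∧ CycExt ϖ z ∧
        Fits (k := k) ϖ z (cxk k π s hs e x) := by
  have hU : uSub π e x ≤ Subgroup.center G := (uSub_le π e x).trans hcen
  have : (uSub π e x).Normal := by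
    constructor
    intro n hn g
    have := (Subgroup.mem_center_iff.1 (hU hn)) g
    rw [this, mul_assoc, mul_inv_cancel, mul_one]
    exact hn
  let a : π.ker := (e.symm v).toMul
  have ha : chi e x (Additive.ofMul a) = 1 := by
    change ∑ j, x j * e (e.symm v) j = 1
    rw [e.apply_symm_apply]
    exact hv
  have hacen : ∀ g : G, g * a.1 = a.1 * g := Subgroup.mem_center_iff.1 (hcen a.2)
  -- χ on powers
  have hpow : ∀ n : ℤ, chi e x (Additive.ofMul (a ^ n)) = n := by
    intro n
    have : Additive.ofMul (a ^ n) = n • Additive.ofMul a := rfl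
    rw [this, map_zsmul, ha]; simp
  let p := QuotientGroup.mk' (uSub π e x)
  let ϖ := QuotientGroup.lift (uSub π e x) π (fun g hg => hg.1)
  have hϖ : ∀ g : G, ϖ (p g) = π g := fun g => rfl
  have hp : ∀ g : G, p g = 1 ↔ g ∈ uSub π e x := fun g => QuotientGroup.eq_one_iff g
  have hpsurj : Function.Surjective p := QuotientGroup.mk'_surjective _
  have hpeq : ∀ g h : G, π g = π h → ∀ n : ℤ,
      (∀ hh : g * h⁻¹ ∈ π.ker, chi e x (Additive.ofMul ⟨g * h⁻¹, hh⟩) = n) →
      p g = p a.1 ^ n * p h := by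
    intro g h hgh n hn
    have hh : g * h⁻¹ ∈ π.ker := by
      rw [MonoidHom.mem_ker, map_mul, map_inv, hgh, mul_inv_cancel]
    have h1 : p (g * h⁻¹ * (a.1 ^ n)⁻¹) = 1 := by
      rw [hp]
      have h2 : g * h⁻¹ * (a.1 ^ n)⁻¹ = ((⟨g * h⁻¹, hh⟩ * (a ^ n)⁻¹ : π.ker) : G) := by simp
      rw [h2]
      refine ⟨Subtype.mem _, ?_⟩
      have h3 : Additive.ofMul (⟨((⟨g * h⁻¹, hh⟩ * (a ^ n)⁻¹ : π.ker) : G), Subtype.mem _⟩ : π.ker)
          = Additive.ofMul (⟨g * h⁻¹, hh⟩ : π.ker) - Additive.ofMul (a ^ n) := by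
        rw [sub_eq_add_neg]; rfl
      rw [h3, map_sub, hn hh, hpow, sub_self]
    rw [map_mul, map_mul, map_inv, map_inv, map_zpow] at h1
    have h4 : p g * (p h)⁻¹ = p a.1 ^ n := by
      rw [mul_inv_eq_one] at h1; exact h1
    rw [← h4]; group
  refine ⟨G ⧸ uSub π e x, inferInstance, p, ϖ, p a.1, hpsurj, ?_, ?_, ?_, ?_⟩
  · intro g hg
    exact ((hp g).1 hg).1
  · let χ' : (Fin (r + 1) → ℤ) →+ ℤ := (chi e x).comp e.symm.toAddMonoidHom
    obtain ⟨f⟩ := exists_ker_equiv r (AddEquiv.refl (Fin (r + 1) → ℤ)) χ' (by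
      intro n
      refine ⟨e (Additive.ofMul (a ^ n)), ?_⟩
      change chi e x (e.symm (e (Additive.ofMul (a ^ n)))) = n
      rw [e.symm_apply_apply, hpow n])
    refine ⟨AddEquiv.trans ?_ f⟩
    refine
      { toFun := fun u => ⟨e (Additive.ofMul ⟨u.toMul.1, ((hp _).1 u.toMul.2).1⟩), by
          change chi e x (e.symm (e _)) = 0
          rw [e.symm_apply_apply]
          exact ((hp _).1 u.toMul.2).2⟩
        invFun := fun w => Additive.ofMul ⟨(e.symm w.1).toMul.1,
          (hp _).2 ⟨(e.symm w.1).toMul.2, w.2⟩⟩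
        left_inv := fun u => by
          apply Additive.toMul.injective
          apply Subtype.ext
          change (e.symm (e (Additive.ofMul _))).toMul.1 = _
          rw [e.symm_apply_apply]
          rfl
        right_inv := fun w => by
          apply Subtype.ext
          change e (Additive.ofMul ⟨(e.symm w.1).toMul.1, _⟩) = w.1
          exact e.apply_symm_apply w.1
        map_add' := fun u w => by
          apply Subtype.ext
          exact map_add e (Additive.ofMul (⟨u.toMul.1, ((hp _).1 u.toMul.2).1⟩ : π.ker))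
            (Additive.ofMul (⟨w.toMul.1, ((hp _).1 w.toMul.2).1⟩ : π.ker)) }
  · refine ⟨?_, ?_, ?_, ?_, ?_⟩
    · intro q
      obtain ⟨g, rfl⟩ := hπ q
      exact ⟨p g, rfl⟩
    · rw [hϖ]; exact a.2
    · intro g hg
      obtain ⟨g, rfl⟩ := hpsurj g
      rw [hϖ] at hg
      have hg1 : g * (1 : G)⁻¹ ∈ π.ker := by simpa using hg
      refine ⟨chi e x (Additive.ofMul ⟨g * (1 : G)⁻¹, hg1⟩), ?_⟩
      have := hpeq g 1 (by rw [hg, map_one])
        (chi e x (Additive.ofMul ⟨g * (1 : G)⁻¹, hg1⟩)) (fun hh => rfl)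
      rw [this, map_one, mul_one]
    · intro n hn
      rw [← map_zpow] at hn
      obtain ⟨h1, h2⟩ := (hp _).1 hn
      have h3 : Additive.ofMul (⟨a.1 ^ n, h1⟩ : π.ker) = Additive.ofMul (a ^ n) := rfl
      rw [h3, hpow] at h2
      exact h2
    · intro g
      obtain ⟨g, rfl⟩ := hpsurj g
      rw [← map_mul, ← map_mul, hacen g]
  · -- the section `p ∘ s` and coordinates
    have hj : ∀ g' : G ⧸ uSub π e x, ∃ n : ℤ, g' = p a.1 ^ n * p (s (ϖ g')) := by
      intro g'
      obtain ⟨g, rfl⟩ := hpsurj g'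
      have hh : g * (s (ϖ (p g)))⁻¹ ∈ π.ker := by
        rw [MonoidHom.mem_ker, map_mul, map_inv, hs.sec, hϖ, mul_inv_cancel]
      exact ⟨_, hpeq g (s (ϖ (p g))) (by rw [hs.sec, hϖ])
        (chi e x (Additive.ofMul ⟨g * (s (ϖ (p g)))⁻¹, hh⟩)) (fun hh => rfl)⟩
    choose j hj using hj
    refine ⟨fun q => p (s q), ⟨fun q => by rw [hϖ, hs.sec], by rw [hs.one, map_one]⟩, j,
      fun g' => hj g', fun q' q => ?_⟩
    have h1 := hj (p (s q') * p (s q))
    have h2 : ϖ (p (s q') * p (s q)) = q' * q := by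
      rw [map_mul, hϖ, hϖ, hs.sec, hs.sec]
    rw [h2] at h1
    have h3 := hpeq (s q' * s q) (s (q' * q)) (by rw [map_mul, hs.sec, hs.sec, hs.sec])
      (cx π s hs e x q' q) (fun hh => rfl)
    rw [map_mul, h1] at h3
    have h4 : p a.1 ^ (j (p (s q') * p (s q))) = p a.1 ^ (cx π s hs e x q' q) :=
      mul_right_cancel h3
    have h5 : p a.1 ^ (j (p (s q') * p (s q)) - cx π s hs e x q' q) = 1 := by
      rw [zpow_sub, h4, mul_inv_cancel]
    have h6 : j (p (s q') * p (s q)) = cx π s hs e x q' q := by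
      rw [← map_zpow] at h5
      obtain ⟨h7, h8⟩ := (hp _).1 h5
      have h9 : Additive.ofMul (⟨a.1 ^ (j (p (s q') * p (s q)) - cx π s hs e x q' q), h7⟩ : π.ker)
        = Additive.ofMul (a ^ (j (p (s q') * p (s q)) - cx π s hs e x q' q)) := rfl
      rw [h9, hpow] at h8
      omega
    change (cx π s hs e x q' q : k) = _
    rw [h6]

end

end Pool.MP0c3001
end
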