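import Mathlib
import Pool.Agent.Lib.MP_0c3001_gt.Mg.G001
import Pool.Agent.Lib.MP_0c3001_gt.Mg.G002

section

/-!
Faces and skeleta of the standard simplex on a finite set.
-/

set_option autoImplicit false

namespace Pool.Agent.MP_0c3001_gt.Br

section

variable {ι : Type} [Fintype ι] [DecidableEq ι]

/-- The face of the standard simplex with vertices in `T`. -/
def face (T : Finset ι) : Set (ι → ℝ) := {w | w ∈ stdSimplex ℝ ι ∧ ∀ i ∉ T, w i = 0}

/-- The boundary of the face. -/
def bdry (T : Finset ι) : Set (ι → ℝ) := {w | w ∈ face T ∧ ∃ i ∈ T, w i = 0}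

/-- The union of the faces with at most `c` vertices. -/
def sk (ι : Type) [Fintype ι] [DecidableEq ι] (c : ℕ) : Set (ι → ℝ) :=
  {w | ∃ T : Finset ι, T.card ≤ c ∧ w ∈ face T}

/-- The vertex `i`. -/
def vx (i : ι) : ι → ℝ := Pi.single i 1

/-- The point with parameter `t` on the edge from `i` to `j`. -/
def seg (i j : ι) (t : ℝ) : ι → ℝ := (1 - t) • vx i + t • vx j

end

section
namespace SiA

open Pool.Agent.MP_0c3001_gt.Br

section

variable {ι : Type} [Fintype ι] [DecidableEq ι]

/-- TASK Si1. -/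
theorem isClosed_face (T : Finset ι) : IsClosed (face T) := by
  have h : face T = stdSimplex ℝ ι ∩ ⋂ i ∈ {i : ι | i ∉ T}, {w : ι → ℝ | w i = 0} := by
    ext w
    simp only [face, Set.mem_setOf_eq, Set.mem_inter_iff, Set.mem_iInter]
  rw [h]
  refine (isClosed_stdSimplex ℝ ι).inter (isClosed_biInter fun i _ => ?_)
  exact isClosed_eq (continuous_apply i) continuous_const

/-- TASK Si2. -/
theorem convex_face (T : Finset ι) : Convex ℝ (face T) := by
  intro x hx y hy a b ha hb hab
  refine ⟨convex_stdSimplex ℝ ι hx.1 hy.1 ha hb hab, fun i hi => ?_⟩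
  rw [Pi.add_apply, Pi.smul_apply, Pi.smul_apply, hx.2 i hi, hy.2 i hi]
  simp

/-- TASK Si3. -/
theorem face_mono {S T : Finset ι} (h : S ⊆ T) : face S ⊆ face T :=
  fun _ hw => ⟨hw.1, fun i hi => hw.2 i fun hi' => hi (h hi')⟩

/-- TASK Si4. -/
theorem vx_mem_face {T : Finset ι} {i : ι} (h : i ∈ T) : vx i ∈ face T := by
  refine ⟨single_mem_stdSimplex ℝ i, fun j hj => ?_⟩
  unfold vx
  rw [Pi.single_apply, if_neg]
  rintro rfl
  exact hj h

/-- TASK Si12. -/
theorem sk_mono {c d : ℕ} (h : c ≤ d) : sk ι c ⊆ sk ι d :=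
  fun _ ⟨T, hT, hw⟩ => ⟨T, hT.trans h, hw⟩

/-- TASK Si14. -/
theorem seg_mem_face {T : Finset ι} {i j : ι} (hi : i ∈ T) (hj : j ∈ T) {t : ℝ} (h0 : 0 ≤ t)
    (h1 : t ≤ 1) : seg i j t ∈ face T :=
  convex_face T (vx_mem_face hi) (vx_mem_face hj) (sub_nonneg.2 h1) h0 (by ring)

end

end SiA
end

/-- TASK Si1. -/
alias isClosed_face := SiA.isClosed_face

section

variable {ι : Type} [Fintype ι] [DecidableEq ι]


end

/-- TASK Si2. -/
alias convex_face := SiA.convex_face

section

variable {ι : Type} [Fintype ι] [DecidableEq ι]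


end

/-- TASK Si3. -/
alias face_mono := SiA.face_mono

section

variable {ι : Type} [Fintype ι] [DecidableEq ι]


end

/-- TASK Si4. -/
alias vx_mem_face := SiA.vx_mem_face

section

variable {ι : Type} [Fintype ι] [DecidableEq ι]


end

section
namespace SiB

open Pool.Agent.MP_0c3001_gt.Br

section

variable {ι : Type} [Fintype ι] [DecidableEq ι]

/-- TASK Si5. A point of two faces is in the face of the intersection. -/
theorem face_inter (S T : Finset ι) : face S ∩ face T = face (S ∩ T) := by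
  ext w
  constructor
  · rintro ⟨h1, h2⟩
    refine ⟨h1.1, fun i hi => ?_⟩
    by_cases hS : i ∈ S
    · exact h2.2 i fun hT => hi (Finset.mem_inter.2 ⟨hS, hT⟩)
    · exact h1.2 i hS
  · intro h
    exact ⟨⟨h.1, fun i hi => h.2 i fun h' => hi (Finset.mem_inter.1 h').1⟩,
      ⟨h.1, fun i hi => h.2 i fun h' => hi (Finset.mem_inter.1 h').2⟩⟩

/-- TASK Si6. The boundary of a face is the union of the faces of `T.erase i`. -/
theorem mem_bdry_iff (T : Finset ι) (w : ι → ℝ) : w ∈ bdry T ↔ ∃ i ∈ T, w ∈ face (T.erase i) := by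
  constructor
  · rintro ⟨h, i, hi, hw⟩
    refine ⟨i, hi, h.1, fun j hj => ?_⟩
    by_cases hji : j = i
    · rw [hji, hw]
    · exact h.2 j fun hT => hj (Finset.mem_erase.2 ⟨hji, hT⟩)
  · rintro ⟨i, hi, h⟩
    exact ⟨⟨h.1, fun j hj => h.2 j fun h' => hj (Finset.mem_of_mem_erase h')⟩, i, hi,
      h.2 i (Finset.notMem_erase i T)⟩

/-- TASK Si7. -/
theorem isClosed_bdry (T : Finset ι) : IsClosed (bdry T) := by
  have h : bdry T = ⋃ i ∈ T, face (T.erase i) := by
    ext w
    rw [mem_bdry_iff]
    simp only [Set.mem_iUnion, exists_prop]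
  rw [h]
  exact T.finite_toSet.isClosed_biUnion fun i _ => isClosed_face _

/-- TASK Si8. The boundary of a face with `c + 1` vertices is its intersection with the
skeleton `sk ι c`. -/
theorem face_inter_sk (T : Finset ι) {c : ℕ} (h : T.card = c + 1) : face T ∩ sk ι c = bdry T := by
  ext w
  constructor
  · rintro ⟨h1, S, hS, h2⟩
    obtain ⟨i, hi, hi'⟩ : ∃ i ∈ T, i ∉ S := by
      by_contra hcon
      push Not at hcon
      have := Finset.card_le_card (show T ⊆ S from hcon)
      omega
    exact ⟨h1, i, hi, h2.2 i hi'⟩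
  · intro hw
    obtain ⟨i, hi, h2⟩ := (mem_bdry_iff T w).1 hw
    refine ⟨hw.1, T.erase i, ?_, h2⟩
    rw [Finset.card_erase_of_mem hi, h]
    omega

end

end SiB
end

/-- TASK Si5. A point of two faces is in the face of the intersection. -/
alias face_inter := SiB.face_inter

section

variable {ι : Type} [Fintype ι] [DecidableEq ι]


end

/-- TASK Si6. The boundary of a face is the union of the faces of `T.erase i`. -/
alias mem_bdry_iff := SiB.mem_bdry_iff

section

variable {ι : Type} [Fintype ι] [DecidableEq ι]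


end

/-- TASK Si7. -/
alias isClosed_bdry := SiB.isClosed_bdry

section

variable {ι : Type} [Fintype ι] [DecidableEq ι]


end

/-- TASK Si8. The boundary of a face with `c + 1` vertices is its intersection with the
skeleton `sk ι c`. Proof: `⊆` by `mem_bdry_iff`; `⊇`: if `w ∈ face T ∩ face S`, `S.card ≤ c`, some
`i ∈ T` is not in `S`. -/
alias face_inter_sk := SiB.face_inter_sk

section

variable {ι : Type} [Fintype ι] [DecidableEq ι]


end

section
namespace SiC

open Pool.Agent.MP_0c3001_gt.Br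

section

variable {ι : Type} [Fintype ι] [DecidableEq ι]

/-- TASK Si9. Proof: a point of the simplex has a coordinate `≠ 0`. -/
theorem sk_zero : sk ι 0 = ∅ := by
  ext w
  simp only [Set.mem_empty_iff_false, iff_false]
  rintro ⟨T, hT, hw⟩
  have h0 : T = ∅ := Finset.card_eq_zero.1 (Nat.le_zero.1 hT)
  have h1 : ∑ i, w i = 0 := Finset.sum_eq_zero fun i _ => hw.2 i (by rw [h0]; exact Finset.notMem_empty i)
  have h2 := hw.1.2
  rw [h1] at h2
  exact zero_ne_one h2

/-- TASK Si10. Proof: `T = univ`. -/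
theorem sk_card : sk ι (Fintype.card ι) = stdSimplex ℝ ι := by
  ext w
  constructor
  · rintro ⟨T, _, hw⟩
    exact hw.1
  · intro hw
    exact ⟨Finset.univ, le_of_eq Finset.card_univ, hw, fun i hi => absurd (Finset.mem_univ i) hi⟩

/-- TASK Si11. Proof: finite union of closed sets. -/
theorem isClosed_sk (c : ℕ) : IsClosed (sk ι c) := by
  have h : sk ι c = ⋃ T ∈ {T : Finset ι | T.card ≤ c}, face T := by
    ext w
    simp only [sk, Set.mem_setOf_eq, Set.mem_iUnion, exists_prop]
  rw [h]
  exact (Set.toFinite _).isClosed_biUnion fun T _ => isClosed_face T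

end

end SiC
end

/-- TASK Si9. Proof: a point of the simplex has a coordinate `≠ 0`. -/
alias sk_zero := SiC.sk_zero

section

variable {ι : Type} [Fintype ι] [DecidableEq ι]


end

/-- TASK Si10. Proof: `T = univ`. -/
alias sk_card := SiC.sk_card

section

variable {ι : Type} [Fintype ι] [DecidableEq ι]


end

/-- TASK Si11. Proof: finite union of closed sets. -/
alias isClosed_sk := SiC.isClosed_sk

section

variable {ι : Type} [Fintype ι] [DecidableEq ι]


end

/-- TASK Si12. -/
alias sk_mono := SiA.sk_mono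

section

variable {ι : Type} [Fintype ι] [DecidableEq ι]


end

section
namespace SiD

open Pool.Agent.MP_0c3001_gt.Br

section

variable {ι : Type} [Fintype ι] [DecidableEq ι]

/-- TASK Si13. Extension from a skeleton to the next one: given `φ` on `sk ι c` and, for every
face with `c + 1` vertices, a map which agrees with `φ` on the boundary, they can be glued. -/
theorem glue_skeleton {M : Type} [TopologicalSpace M] (c : ℕ) (φ : (ι → ℝ) → M)
    (hφ : ContinuousOn φ (sk ι c)) (F : Finset ι → (ι → ℝ) → M)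
    (hF : ∀ T : Finset ι, T.card = c + 1 → ContinuousOn (F T) (face T) ∧
      Set.EqOn (F T) φ (bdry T)) :
    ∃ ψ : (ι → ℝ) → M, ContinuousOn ψ (sk ι (c + 1)) ∧ Set.EqOn ψ φ (sk ι c) ∧
      ∀ T : Finset ι, T.card = c + 1 → Set.EqOn ψ (F T) (face T) := by
  classical
  let P : (ι → ℝ) → Prop := fun w => ∃ T : Finset ι, T.card = c + 1 ∧ w ∈ face T
  let ψ : (ι → ℝ) → M := fun w =>
    if w ∈ sk ι c then φ w else if h : P w then F h.choose w else φ w
  have h1 : Set.EqOn ψ φ (sk ι c) := by
    intro w hw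
    simp only [ψ]
    rw [if_pos hw]
  have h2 : ∀ T : Finset ι, T.card = c + 1 → Set.EqOn ψ (F T) (face T) := by
    intro T hT w hw
    by_cases hs : w ∈ sk ι c
    · rw [h1 hs]
      have hb : w ∈ bdry T := by
        rw [← face_inter_sk T hT]
        exact ⟨hw, hs⟩
      exact ((hF T hT).2 hb).symm
    · have hP : P w := ⟨T, hT, hw⟩
      have e : hP.choose = T := by
        by_contra hne
        apply hs
        have h3 := hP.choose_spec
        have h4 : w ∈ face (hP.choose ∩ T) := by
          rw [← face_inter]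
          exact ⟨h3.2, hw⟩
        refine ⟨hP.choose ∩ T, ?_, h4⟩
        have h5 : hP.choose ∩ T ⊂ T := by
          refine ⟨Finset.inter_subset_right, fun hsub => hne ?_⟩
          have h6 : T ⊆ hP.choose := fun i hi => (Finset.mem_inter.1 (hsub hi)).1
          exact (Finset.eq_of_subset_of_card_le h6 (by rw [h3.1, hT])).symm
        have h7 := Finset.card_lt_card h5
        omega
      simp only [ψ]
      rw [if_neg hs, dif_pos hP, e]
  refine ⟨ψ, ?_, h1, h2⟩
  have h3 : sk ι (c + 1) = ⋃ o : Option {T : Finset ι // T.card = c + 1},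
      Option.elim o (sk ι c) (fun T => face T.1) := by
    ext w
    simp only [Set.mem_iUnion]
    constructor
    · rintro ⟨T, hT, hw⟩
      rcases Nat.lt_or_ge T.card (c + 1) with h | h
      · exact ⟨none, T, by omega, hw⟩
      · exact ⟨some ⟨T, by omega⟩, hw⟩
    · rintro ⟨o, ho⟩
      rcases o with _ | T
      · obtain ⟨T, hT, hw⟩ := ho
        exact ⟨T, by omega, hw⟩
      · exact ⟨T.1, T.2.le, ho⟩
  rw [h3]
  refine LocallyFinite.continuousOn_iUnion (locallyFinite_of_finite _) (fun o => ?_) (fun o => ?_)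
  · rcases o with _ | T
    · exact isClosed_sk c
    · exact isClosed_face T.1
  · rcases o with _ | T
    · exact hφ.congr h1
    · exact (hF T.1 T.2).1.congr (h2 T.1 T.2)

end

end SiD
end

/-- TASK Si13. Extension from a skeleton to the next one: given `φ` on `sk ι c` and, for every
face with `c + 1` vertices, a map which agrees with `φ` on the boundary, they can be glued.
Proof: let `ψ w = φ w` if `w ∈ sk ι c`, otherwise `ψ w = F T w` for a chosen `T` with
`T.card = c + 1`, `w ∈ face T` (if there is one). If `w ∈ face T`, `T.card = c + 1`, then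
`ψ w = F T w`: clear if `w ∈ sk ι c` (`face_inter_sk`), and otherwise `T` is determined by `w`: if
`w ∈ face T ∩ face T'` and `T ≠ T'`, then `T ∩ T'` has at most `c` elements and `w ∈ sk ι c`
(`face_inter`). The set `sk ι (c + 1)` is the union of the closed set `sk ι c` and the finitely many
closed sets `face T`, `T.card = c + 1`, and `ψ` is continuous on each of them
(`ContinuousOn.union_of_isClosed` or `LocallyFinite.continuousOn_iUnion`). -/
alias glue_skeleton := SiD.glue_skeleton

section

variable {ι : Type} [Fintype ι] [DecidableEq ι]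


end

/-- TASK Si14. -/
alias seg_mem_face := SiA.seg_mem_face

section

variable {ι : Type} [Fintype ι] [DecidableEq ι]


end

end Pool.Agent.MP_0c3001_gt.Br
end

section

/-!
Maps of a sphere to a space with trivial homotopy groups extend to the ball.
-/

set_option autoImplicit false

open Metric unitInterval

namespace Pool.Agent.MP_0c3001_gt.Br

/-- The vector `w x` of the construction below; `‖x.1‖` is the sup norm. -/
noncomputable def wv {k : ℕ} (x : (Fin k → ℝ) × ℝ) : (Fin k → ℝ) × ℝ :=
  ((1 - max ‖x.1‖ ((1 - x.2) / 2)) • x.1, 1 - 2 * max ‖x.1‖ ((1 - x.2) / 2))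


section
open Metric unitInterval

namespace Sp1

open Pool.Agent.MP_0c3001_gt.Br

/-- TASK Sp1. For `‖x‖ = 1` and `0 ≤ s ≤ 1` the vector `(1 - s) • x + s • wv x` is not zero. -/
theorem wv_ne {k : ℕ} {x : (Fin k → ℝ) × ℝ} (hx : ‖x‖ = 1) {s : ℝ} (h0 : 0 ≤ s) (h1 : s ≤ 1) :
    (1 - s) • x + s • wv x ≠ 0 := by
  intro h
  obtain ⟨y, t⟩ := x
  unfold wv at h
  set ρ := max ‖y‖ ((1 - t) / 2) with hρ
  have hy : ‖y‖ ≤ 1 := by
    rw [← hx]
    exact norm_fst_le (y, t)
  have ht : |t| ≤ 1 := by
    rw [← hx, ← Real.norm_eq_abs]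
    exact norm_snd_le (y, t)
  have ht' := abs_le.1 ht
  have hρ0 : 0 ≤ ρ := le_max_of_le_left (norm_nonneg y)
  have hρ1 : ρ ≤ 1 := max_le hy (by linarith)
  have e1 : (1 - s * ρ) • y = 0 := by
    have := congrArg Prod.fst h
    simp only [Prod.fst_add, Prod.smul_fst, Prod.fst_zero] at this
    rw [← this, smul_smul, ← add_smul]
    congr 1
    ring
  have e2 : (1 - s) * t + s * (1 - 2 * ρ) = 0 := by
    have := congrArg Prod.snd h
    simpa using this
  rcases smul_eq_zero.1 e1 with h2 | h2
  · have h3 : s * ρ = 1 := by linarith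
    have h4 : s = 1 := by nlinarith
    have h5 : ρ = 1 := by rw [h4, one_mul] at h3; exact h3
    rw [h4, h5] at e2
    norm_num at e2
  · have h3 : |t| = 1 := by
      rw [Prod.norm_mk, h2, norm_zero, Real.norm_eq_abs, max_eq_right (abs_nonneg t)] at hx
      exact hx
    rw [h2, norm_zero] at hρ
    rcases (abs_eq zero_le_one).1 h3 with h4 | h4
    · rw [h4] at hρ e2
      have h5 : ρ = 0 := by rw [hρ]; norm_num
      rw [h5] at e2
      linarith
    · rw [h4] at hρ e2
      have h5 : ρ = 1 := by rw [hρ]; norm_num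
      rw [h5] at e2
      linarith

end Sp1
end

/-- TASK Sp1. For `‖x‖ = 1` and `0 ≤ s ≤ 1` the vector `(1 - s) • x + s • wv x` is not zero.
Proof: let `ρ = max ‖y‖ ((1 - t) / 2)`, `x = (y, t)`, so `0 ≤ ρ ≤ 1`. The vector is
`((1 - s ρ) • y, (1 - s) t + s (1 - 2 ρ))`. If it is `0`, then either `s ρ = 1`, so `s = ρ = 1`, and
the last coordinate is `-1`; or `y = 0`, so `|t| = 1`: if `t = 1` then `ρ = 0` and the last
coordinate is `1`; if `t = -1` then `ρ = 1` and the last coordinate is `-1`. -/
alias wv_ne := Sp1.wv_ne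


section
open Metric unitInterval

namespace Sp2

open Pool.Agent.MP_0c3001_gt.Br

theorem wv_cont {k : ℕ} : Continuous (wv (k := k)) := by
  unfold wv
  fun_prop

theorem wv_face {k : ℕ} {x : (Fin k → ℝ) × ℝ} (hx : ‖x‖ = 1) (h : x.2 = -1 ∨ ‖x.1‖ = 1) :
    wv x = (0, -1) := by
  have h1 : ‖x.1‖ ≤ 1 := hx ▸ norm_fst_le x
  have h2 : |x.2| ≤ 1 := by
    have := norm_snd_le x
    rwa [hx, Real.norm_eq_abs] at this
  have h3 := abs_le.1 h2
  have hρ : max ‖x.1‖ ((1 - x.2) / 2) = 1 := by
    apply le_antisymm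
    · exact max_le h1 (by linarith)
    · rcases h with h | h
      · rw [h]; exact le_max_of_le_right (by norm_num)
      · rw [h]; exact le_max_left _ _
  unfold wv
  rw [hρ]
  norm_num

theorem exists_K (k : ℕ) : ∃ K : ((Fin k → ℝ) × ℝ) × ℝ → (Fin k → ℝ) × ℝ,
    ContinuousOn K (sphere 0 1 ×ˢ Set.Icc 0 1) ∧
    Set.MapsTo K (sphere 0 1 ×ˢ Set.Icc 0 1) (sphere 0 1) ∧
    (∀ x ∈ sphere (0 : (Fin k → ℝ) × ℝ) 1, K (x, 0) = x) ∧
    ∀ x ∈ sphere (0 : (Fin k → ℝ) × ℝ) 1, (x.2 = -1 ∨ ‖x.1‖ = 1) → K (x, 1) = (0, -1) := by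
  let v : ((Fin k → ℝ) × ℝ) × ℝ → (Fin k → ℝ) × ℝ := fun p => (1 - p.2) • p.1 + p.2 • wv p.1
  have hv : Continuous v := by
    have := wv_cont (k := k)
    fun_prop
  have hv0 : ∀ p ∈ (sphere (0 : (Fin k → ℝ) × ℝ) 1 ×ˢ Set.Icc (0 : ℝ) 1), v p ≠ 0 := by
    rintro ⟨x, s⟩ ⟨hx, hs⟩
    exact wv_ne (by simpa using hx) hs.1 hs.2
  refine ⟨fun p => ‖v p‖⁻¹ • v p, ?_, ?_, ?_, ?_⟩
  · exact (hv.norm.continuousOn.inv₀ fun p hp => norm_ne_zero_iff.2 (hv0 p hp)).smul
      hv.continuousOn
  · intro p hp
    have := norm_ne_zero_iff.2 (hv0 p hp)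
    simp only [mem_sphere_iff_norm, sub_zero]
    rw [norm_smul, norm_inv, norm_norm, inv_mul_cancel₀ this]
  · intro x hx
    have h1 : ‖x‖ = 1 := by simpa using hx
    have h2 : v (x, 0) = x := by simp [v]
    show ‖v (x, 0)‖⁻¹ • v (x, 0) = x
    rw [h2, h1, inv_one, one_smul]
  · intro x hx hf
    have h1 : ‖x‖ = 1 := by simpa using hx
    have h2 : v (x, 1) = (0, -1) := by simp [v, wv_face h1 hf]
    show ‖v (x, 1)‖⁻¹ • v (x, 1) = (0, -1)
    rw [h2]
    have h3 : ‖((0 : Fin k → ℝ), (-1 : ℝ))‖ = 1 := by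
      rw [Prod.norm_def]; simp
    rw [h3, inv_one, one_smul]

end Sp2
end

/-- TASK Sp2. A homotopy `K` of the sphere which starts with the identity and ends with a map that is
constant outside the open top face. Here the sphere is that of the norm `max ‖y‖ |t|`.
Proof: `K (x, s) = ‖v‖⁻¹ • v` with `v = (1 - s) • x + s • wv x`, continuous by `wv_ne`. If `t = -1`
or `‖y‖ = 1` then `ρ = 1`, so `wv x = (0, -1)`. -/
alias exists_K := Sp2.exists_K


section
open Metric unitInterval

namespace Sp3

open Pool.Agent.MP_0c3001_gt.Br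

theorem norm_one_of {k : ℕ} {y : Fin k → ℝ} (hy : ‖y‖ ≤ 1) {t : ℝ} (ht : |t| = 1) :
    (y, t) ∈ sphere (0 : (Fin k → ℝ) × ℝ) 1 := by
  rw [mem_sphere_zero_iff_norm, Prod.norm_def]
  simp only [Real.norm_eq_abs, ht]
  exact max_eq_right hy

theorem norm_aff {k : ℕ} (u : Fin k → I) : ‖(fun i => 2 * (u i : ℝ) - 1)‖ ≤ 1 := by
  rw [pi_norm_le_iff_of_nonneg zero_le_one]
  intro i
  rw [Real.norm_eq_abs, abs_le]
  have h0 := (u i).2.1
  have h1 := (u i).2.2
  constructor <;> linarith

theorem norm_aff_boundary {k : ℕ} (u : Fin k → I) (hu : ∃ i, u i = 0 ∨ u i = 1) :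
    ‖(fun i => 2 * (u i : ℝ) - 1)‖ = 1 := by
  apply le_antisymm (norm_aff u)
  obtain ⟨i, hi⟩ := hu
  have h := norm_le_pi_norm (fun i => 2 * (u i : ℝ) - 1) i
  refine le_trans ?_ h
  rcases hi with hi | hi <;> rw [hi] <;> simp <;> norm_num

theorem extend_of_const {k : ℕ} {M : Type} [TopologicalSpace M]
    (hπ : ∀ x : M, Subsingleton (HomotopyGroup (Fin k) M x)) (g : (Fin k → ℝ) × ℝ → M)
    (hg : ContinuousOn g (sphere 0 1)) (b : M)
    (hb : ∀ x ∈ sphere (0 : (Fin k → ℝ) × ℝ) 1, (x.2 = -1 ∨ ‖x.1‖ = 1) → g x = b) :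
    ∃ N : (Fin k → ℝ) × ℝ → M, ContinuousOn N (closedBall 0 1) ∧ Set.EqOn N g (sphere 0 1) := by
  have hmem : ∀ u : Fin k → I, ((fun i => 2 * (u i : ℝ) - 1), (1 : ℝ)) ∈
      sphere (0 : (Fin k → ℝ) × ℝ) 1 := fun u => norm_one_of (norm_aff u) (by simp)
  let ω : GenLoop (Fin k) M b := ⟨⟨fun u => g ((fun i => 2 * (u i : ℝ) - 1), 1), by
    apply hg.comp_continuous _ hmem
    fun_prop⟩, by
    intro u hu
    exact hb _ (hmem u) (Or.inr (norm_aff_boundary u hu))⟩
  have hω : ω.1 = ω.1 := rfl
  have hh : GenLoop.Homotopic ω GenLoop.const := by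
    have hs := hπ b
    have : (Quotient.mk (GenLoop.Homotopic.setoid (Fin k) b) ω : HomotopyGroup (Fin k) M b) =
      Quotient.mk (GenLoop.Homotopic.setoid (Fin k) b) GenLoop.const :=
        @Subsingleton.elim (HomotopyGroup (Fin k) M b) hs _ _
    exact Quotient.exact this
  obtain ⟨H⟩ := hh
  let P : ℝ → I := Set.projIcc 0 1 zero_le_one
  have hP : Continuous P := continuous_projIcc
  refine ⟨fun x => H (P ((1 - x.2) / 2), fun i => P ((x.1 i + 1) / 2)), ?_, ?_⟩
  · apply Continuous.continuousOn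
    apply H.continuous.comp
    fun_prop
  · intro x hx
    have hn : ‖x‖ = 1 := by simpa using hx
    have h1 : ‖x.1‖ ≤ 1 := by rw [← hn]; exact norm_fst_le x
    have h2 : |x.2| ≤ 1 := by
      have := norm_snd_le x
      rw [hn] at this
      exact this
    have hi : ∀ i, |x.1 i| ≤ 1 := fun i => le_trans (norm_le_pi_norm x.1 i) h1
    have hPi : ∀ i, ((P ((x.1 i + 1) / 2) : I) : ℝ) = (x.1 i + 1) / 2 := by
      intro i
      have := abs_le.mp (hi i)
      simp only [P]
      rw [Set.projIcc_of_mem zero_le_one (show (x.1 i + 1) / 2 ∈ Set.Icc (0:ℝ) 1 from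
        ⟨by linarith [this.1], by linarith [this.2]⟩)]
    show H (P ((1 - x.2) / 2), fun i => P ((x.1 i + 1) / 2)) = g x
    by_cases hb1 : ‖x.1‖ = 1
    · -- boundary
      rw [hb x hx (Or.inr hb1)]
      have hex : (fun i => P ((x.1 i + 1) / 2)) ∈ Cube.boundary (Fin k) := by
        obtain ⟨i, hi'⟩ : ∃ i, |x.1 i| = 1 := by
          by_contra hcon
          push Not at hcon
          have : ‖x.1‖ < 1 := by
            rw [pi_norm_lt_iff zero_lt_one]
            intro i
            exact lt_of_le_of_ne (hi i) (hcon i)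
          exact (ne_of_lt this) hb1
        refine ⟨i, ?_⟩
        rcases (abs_eq zero_le_one).mp hi' with h | h
        · right
          apply Subtype.ext
          rw [hPi, h]; norm_num
        · left
          apply Subtype.ext
          rw [hPi, h]; norm_num
      have := H.eq_fst (P ((1 - x.2) / 2)) hex
      rw [this]
      exact ω.2 _ hex
    · have h3 : |x.2| = 1 := by
        rw [Prod.norm_def] at hn
        rcases max_choice ‖x.1‖ ‖x.2‖ with h | h
        · rw [h] at hn; exact absurd hn hb1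
        · rw [h] at hn; exact hn
      rcases (abs_eq zero_le_one).mp h3 with h | h
      · have hS : P ((1 - x.2) / 2) = 0 := by
          rw [h]; simp [P]
        rw [hS, H.apply_zero]
        show g ((fun i => 2 * ((P ((x.1 i + 1) / 2) : I) : ℝ) - 1), 1) = g x
        congr 1
        apply Prod.ext
        · funext i
          show 2 * ((P ((x.1 i + 1) / 2) : I) : ℝ) - 1 = x.1 i
          rw [hPi]; ring
        · exact h.symm
      · have hS : P ((1 - x.2) / 2) = 1 := by
          rw [h]; simp [P]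
        rw [hS, H.apply_one, hb x hx (Or.inl h)]
        rfl

end Sp3
end

/-- TASK Sp3. If the homotopy groups are trivial, a map `g` on the sphere which is constant outside
the open top face extends to the ball.
Proof: for `k` coordinates let `ω : I^(Fin k) → M`, `ω u = g (2 u - 1, 1)` (the point
`(fun i => 2 * u i - 1, 1)` has norm `1`). If `u` is in the boundary of the cube, the first component
has norm `1`, so `ω u = b`: `ω` is a `GenLoop (Fin k)` at `b`. As `HomotopyGroup (Fin k) M b` is a
subsingleton, `ω` is homotopic to the constant one (`Quotient.exact`, `GenLoop.Homotopic`,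
`ContinuousMap.HomotopyRel`): `H (0, u) = ω u`, `H (1, u) = b`, `H (s, u) = b` for `u` in the
boundary. Let `N (y, t) = H ((1 - t) / 2, (y + 1) / 2)` (with `Set.projIcc` to get elements of
`I`). -/
alias extend_of_const := Sp3.extend_of_const


section
open Metric unitInterval

namespace Sp4

open Pool.Agent.MP_0c3001_gt.Br

/-- TASK Sp4. Homotopy extension for the ball: if the end of a homotopy of maps of the sphere
extends to the ball then so does the beginning. -/
theorem extend_of_homotopy {E : Type} [NormedAddCommGroup E] [NormedSpace ℝ E] {M : Type}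
    [TopologicalSpace M] (K' : E × ℝ → M) (hK : ContinuousOn K' (sphere 0 1 ×ˢ Set.Icc 0 1))
    (N : E → M) (hN : ContinuousOn N (closedBall 0 1))
    (hNK : ∀ x ∈ sphere (0 : E) 1, N x = K' (x, 1)) :
    ∃ F : E → M, ContinuousOn F (closedBall 0 1) ∧ ∀ x ∈ sphere (0 : E) 1, F x = K' (x, 0) := by
  classical
  let F : E → M := fun x => if ‖x‖ ≤ 1 / 2 then N ((2 : ℝ) • x) else K' (‖x‖⁻¹ • x, 2 - 2 * ‖x‖)
  have hA : Set.EqOn F (fun x => N ((2 : ℝ) • x)) {x : E | ‖x‖ ≤ 1 / 2} := by
    intro x hx
    simp only [F]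
    exact if_pos hx
  have hB : Set.EqOn F (fun x => K' (‖x‖⁻¹ • x, 2 - 2 * ‖x‖)) {x : E | 1 / 2 ≤ ‖x‖ ∧ ‖x‖ ≤ 1} := by
    intro x hx
    simp only [F]
    split_ifs with h
    · have h1 : ‖x‖ = 1 / 2 := le_antisymm h hx.1
      have h2 : (2 : ℝ) • x ∈ sphere (0 : E) 1 := by
        rw [mem_sphere_zero_iff_norm, norm_smul, h1]
        norm_num
      rw [hNK _ h2, h1]
      norm_num
    · rfl
  refine ⟨F, ?_, ?_⟩
  · have hU : closedBall (0 : E) 1 = {x : E | ‖x‖ ≤ 1 / 2} ∪ {x : E | 1 / 2 ≤ ‖x‖ ∧ ‖x‖ ≤ 1} := by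
      ext x
      rw [mem_closedBall_zero_iff]
      constructor
      · intro h
        rcases le_total ‖x‖ (1 / 2) with h1 | h1
        · exact Or.inl h1
        · exact Or.inr ⟨h1, h⟩
      · rintro (h | h)
        · have h' : ‖x‖ ≤ 1 / 2 := h
          linarith
        · exact h.2
    rw [hU]
    refine ContinuousOn.union_of_isClosed ?_ ?_ ?_ ?_
    · refine ContinuousOn.congr ?_ hA
      refine hN.comp (continuous_const_smul (2 : ℝ)).continuousOn fun x hx => ?_
      rw [mem_closedBall_zero_iff, norm_smul]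
      have hx' : ‖x‖ ≤ 1 / 2 := hx
      rw [Real.norm_eq_abs, abs_of_pos (by norm_num : (0 : ℝ) < 2)]
      linarith
    · refine ContinuousOn.congr ?_ hB
      refine hK.comp ?_ fun x hx => ?_
      · refine ContinuousOn.prodMk ?_ ?_
        · refine ContinuousOn.smul (ContinuousOn.inv₀ continuous_norm.continuousOn ?_)
            continuousOn_id
          intro x hx
          have := hx.1
          exact ne_of_gt (by linarith)
        · exact (continuous_const.sub (continuous_const.mul continuous_norm)).continuousOn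
      · have h1 : 0 < ‖x‖ := by
          have := hx.1
          linarith
        refine ⟨?_, ?_, ?_⟩
        · rw [mem_sphere_zero_iff_norm, norm_smul, norm_inv, norm_norm, inv_mul_cancel₀ h1.ne']
        · have := hx.2
          change 0 ≤ 2 - 2 * ‖x‖
          linarith
        · have := hx.1
          change 2 - 2 * ‖x‖ ≤ 1
          linarith
    · exact isClosed_le continuous_norm continuous_const
    · exact (isClosed_le continuous_const continuous_norm).inter
        (isClosed_le continuous_norm continuous_const)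
  · intro x hx
    have h1 : ‖x‖ = 1 := mem_sphere_zero_iff_norm.1 hx
    rw [hB ⟨by rw [h1]; norm_num, h1.le⟩]
    simp only
    rw [h1, inv_one, one_smul]
    norm_num

end Sp4
end

/-- TASK Sp4. Homotopy extension for the ball: if the end of a homotopy of maps of the sphere
extends to the ball then so does the beginning.
Proof: `F x = K' (‖x‖⁻¹ • x, 2 - 2 ‖x‖)` for `‖x‖ ≥ 1 / 2` and `F x = N (2 • x)` for
`‖x‖ ≤ 1 / 2`; they agree for `‖x‖ = 1 / 2`; glue on the two closed sets. -/
alias extend_of_homotopy := Sp4.extend_of_homotopy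


section
open Metric unitInterval

namespace Sp5

open Pool.Agent.MP_0c3001_gt.Br

theorem sphere_extension {k : ℕ} {M : Type} [TopologicalSpace M]
    (hπ : ∀ x : M, Subsingleton (HomotopyGroup (Fin k) M x)) (f : (Fin k → ℝ) × ℝ → M)
    (hf : ContinuousOn f (sphere 0 1)) :
    ∃ F : (Fin k → ℝ) × ℝ → M, ContinuousOn F (closedBall 0 1) ∧
      Set.EqOn F f (sphere 0 1) := by
  obtain ⟨K, hKc, hKm, hK0, hK1⟩ := exists_K k
  have hfK : ContinuousOn (fun z => f (K z)) (sphere (0 : (Fin k → ℝ) × ℝ) 1 ×ˢ Set.Icc (0 : ℝ) 1) :=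
    hf.comp hKc hKm
  have hg : ContinuousOn (fun x : (Fin k → ℝ) × ℝ => f (K (x, 1))) (sphere 0 1) := by
    refine hfK.comp (f := fun x : (Fin k → ℝ) × ℝ => (x, (1 : ℝ))) (by fun_prop) ?_
    intro x hx
    exact ⟨hx, by simp⟩
  obtain ⟨N, hNc, hN⟩ := extend_of_const hπ (fun x => f (K (x, 1))) hg (f (0, -1))
    (fun x hx h => by simp only [hK1 x hx h])
  obtain ⟨F, hFc, hF⟩ := extend_of_homotopy (fun z => f (K z)) hfK N hNc (fun x hx => hN hx)
  refine ⟨F, hFc, ?_⟩
  intro x hx
  rw [hF x hx, hK0 x hx]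

end Sp5
end

/-- TASK Sp5. Extension from the sphere to the ball. Proof: `exists_K`; `extend_of_const` for
`g x = f (K (x, 1))`, `b = f (0, -1)`; `extend_of_homotopy` for `K' = f ∘ K`. -/
alias sphere_extension := Sp5.sphere_extension


section
open Metric unitInterval

namespace Sp6

open Pool.Agent.MP_0c3001_gt.Br

/-- TASK Sp6. Extension from the frontier of a convex body of dimension `k + 1`.
Proof: `E` and `(Fin k → ℝ) × ℝ` have the same dimension, so there is a continuous linear
equivalence (`ContinuousLinearEquiv.ofFinrankEq`); it maps `C` to a bounded closed convex set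
with non-empty interior, and its frontier to the frontier. By
`exists_homeomorph_image_interior_closure_frontier_eq_unitBall` there is a homeomorphism which maps
this set to the closed unit ball and its frontier to the sphere. Transport
`sphere_extension`. -/
theorem body_extension {k : ℕ} {M : Type} [TopologicalSpace M]
    (hπ : ∀ x : M, Subsingleton (HomotopyGroup (Fin k) M x))
    {E : Type} [NormedAddCommGroup E] [NormedSpace ℝ E] [FiniteDimensional ℝ E]
    (hdim : Module.finrank ℝ E = k + 1) {C : Set E} (hC : Convex ℝ C) (hcl : IsClosed C)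
    (hbd : Bornology.IsBounded C) (hint : (interior C).Nonempty) (f : E → M)
    (hf : ContinuousOn f (frontier C)) :
    ∃ F : E → M, ContinuousOn F C ∧ Set.EqOn F f (frontier C) := by
  have hfr : Module.finrank ℝ E = Module.finrank ℝ ((Fin k → ℝ) × ℝ) := by
    rw [hdim, Module.finrank_prod, Module.finrank_fin_fun, Module.finrank_self]
  let e : E ≃L[ℝ] ((Fin k → ℝ) × ℝ) := ContinuousLinearEquiv.ofFinrankEq hfr
  have hproper : ProperSpace E := FiniteDimensional.proper ℝ E
  have hcomp : IsCompact C := isCompact_of_isClosed_isBounded hcl hbd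
  have hcont : Continuous (e : E → (Fin k → ℝ) × ℝ) := e.continuous
  have hb' : Bornology.IsBounded (e '' C) := (hcomp.image hcont).isBounded
  have hc' : Convex ℝ (e '' C) := hC.linear_image e.toLinearEquiv.toLinearMap
  have hi : e '' interior C = interior (e '' C) := e.toHomeomorph.image_interior C
  have hcl' : e '' closure C = closure (e '' C) := e.toHomeomorph.image_closure C
  have hfr' : e '' frontier C = frontier (e '' C) := e.toHomeomorph.image_frontier C
  have hne : (interior (e '' C)).Nonempty := by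
    rw [← hi]
    exact hint.image _
  obtain ⟨h, -, h2, h3⟩ := exists_homeomorph_image_interior_closure_frontier_eq_unitBall hc' hne hb'
  let Φ : E ≃ₜ ((Fin k → ℝ) × ℝ) := e.toHomeomorph.trans h
  have hΦ : ∀ x, Φ x = h (e x) := fun _ => rfl
  have hΦC : ∀ x ∈ C, Φ x ∈ closedBall (0 : (Fin k → ℝ) × ℝ) 1 := by
    intro x hx
    rw [← h2, ← hcl', hcl.closure_eq, hΦ]
    exact ⟨e x, ⟨x, hx, rfl⟩, rfl⟩
  have hΦF : ∀ x ∈ frontier C, Φ x ∈ sphere (0 : (Fin k → ℝ) × ℝ) 1 := by
    intro x hx
    rw [← h3, ← hfr', hΦ]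
    exact ⟨e x, ⟨x, hx, rfl⟩, rfl⟩
  have hΦS : ∀ y ∈ sphere (0 : (Fin k → ℝ) × ℝ) 1, Φ.symm y ∈ frontier C := by
    intro y hy
    rw [← h3, ← hfr'] at hy
    obtain ⟨z, ⟨x, hx, rfl⟩, rfl⟩ := hy
    have : Φ.symm (h (e x)) = x := Φ.symm_apply_apply x
    rw [this]
    exact hx
  obtain ⟨F', hF1, hF2⟩ := sphere_extension hπ (f ∘ Φ.symm)
    (hf.comp Φ.symm.continuous.continuousOn hΦS)
  refine ⟨F' ∘ Φ, hF1.comp Φ.continuous.continuousOn hΦC, ?_⟩
  intro x hx
  have h4 := hF2 (hΦF x hx)
  rw [Function.comp_apply, h4, Function.comp_apply, Φ.symm_apply_apply]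

end Sp6
end

/-- TASK Sp6. Extension from the frontier of a convex body of dimension `k + 1`.
Proof: `E` and `(Fin k → ℝ) × ℝ` have the same dimension, so there is a continuous linear
equivalence (`ContinuousLinearEquiv.ofFinrankEq`); it maps `C` to a bounded closed convex set
with non-empty interior, and its frontier to the frontier. By
`exists_homeomorph_image_interior_closure_frontier_eq_unitBall` there is a homeomorphism which maps
this set to the closed unit ball and its frontier to the sphere. Transport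
`sphere_extension`. -/
alias body_extension := Sp6.body_extension

end Pool.Agent.MP_0c3001_gt.Br
end

section

/-!
Extension from the boundary of a face of the standard simplex to the face.
-/

set_option autoImplicit false

namespace Pool.Agent.MP_0c3001_gt.Br

/-- The corner simplex. -/
def corner (m : ℕ) : Set (Fin m → ℝ) := {y | (∀ j, 0 ≤ y j) ∧ ∑ j, y j ≤ 1}


section
namespace FaA

open Pool.Agent.MP_0c3001_gt.Br

theorem convex_corner (m : ℕ) : Convex ℝ (corner m) := by
  intro x hx y hy a b ha hb hab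
  refine ⟨fun j => ?_, ?_⟩
  · simp only [Pi.add_apply, Pi.smul_apply, smul_eq_mul]
    exact add_nonneg (mul_nonneg ha (hx.1 j)) (mul_nonneg hb (hy.1 j))
  · simp only [Pi.add_apply, Pi.smul_apply, smul_eq_mul, Finset.sum_add_distrib, ← Finset.mul_sum]
    have h1 := hx.2
    have h2 := hy.2
    nlinarith

theorem isClosed_corner (m : ℕ) : IsClosed (corner m) := by
  have h : corner m = (⋂ j : Fin m, {y : Fin m → ℝ | 0 ≤ y j}) ∩ {y | ∑ j, y j ≤ 1} := by
    ext y
    simp [corner]
  rw [h]
  refine IsClosed.inter (isClosed_iInter fun j => ?_) ?_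
  · exact isClosed_le continuous_const (continuous_apply j)
  · exact isClosed_le (continuous_finsetSum _ fun j _ => continuous_apply j) continuous_const

theorem isBounded_corner (m : ℕ) : Bornology.IsBounded (corner m) := by
  refine (Metric.isBounded_closedBall (x := (0 : Fin m → ℝ)) (r := 1)).subset ?_
  intro y hy
  rw [Metric.mem_closedBall, dist_zero_right, pi_norm_le_iff_of_nonneg zero_le_one]
  intro j
  rw [Real.norm_eq_abs, abs_of_nonneg (hy.1 j)]
  exact (Finset.single_le_sum (fun i _ => hy.1 i) (Finset.mem_univ j)).trans hy.2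

theorem interior_corner_nonempty (m : ℕ) : (interior (corner m)).Nonempty := by
  refine ⟨fun _ => 1 / ((m : ℝ) + 1), ?_⟩
  have hm : (0 : ℝ) < (m : ℝ) + 1 := by positivity
  refine mem_interior.2 ⟨(⋂ j : Fin m, {y : Fin m → ℝ | 0 < y j}) ∩ {y | ∑ j, y j < 1}, ?_, ?_, ?_⟩
  · rintro y ⟨h1, h2⟩
    rw [Set.mem_iInter] at h1
    exact ⟨fun j => le_of_lt (h1 j), le_of_lt h2⟩
  · refine IsOpen.inter (isOpen_iInter_of_finite fun j => ?_) ?_
    · exact isOpen_lt continuous_const (continuous_apply j)
    · exact isOpen_lt (continuous_finsetSum _ fun j _ => continuous_apply j) continuous_const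
  · refine ⟨Set.mem_iInter.2 fun j => ?_, ?_⟩
    · show (0 : ℝ) < 1 / ((m : ℝ) + 1)
      positivity
    · show ∑ _j : Fin m, 1 / ((m : ℝ) + 1) < 1
      rw [Finset.sum_const, Finset.card_univ, Fintype.card_fin, nsmul_eq_mul, mul_one_div,
        div_lt_one hm]
      linarith

end FaA
end

/-- TASK Fa1. -/
alias convex_corner := FaA.convex_corner


/-- TASK Fa2. -/
alias isClosed_corner := FaA.isClosed_corner


/-- TASK Fa3. -/
alias isBounded_corner := FaA.isBounded_corner


section
namespace Fa4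

theorem open_strict (m : ℕ) : IsOpen {y : Fin m → ℝ | (∀ j, 0 < y j) ∧ ∑ j, y j < 1} := by
  have h1 : IsOpen {y : Fin m → ℝ | ∀ j, 0 < y j} := by
    have : {y : Fin m → ℝ | ∀ j, 0 < y j} = ⋂ j, {y : Fin m → ℝ | 0 < y j} := by
      ext y; simp
    rw [this]
    exact isOpen_iInter_of_finite (fun j => isOpen_lt continuous_const (continuous_apply j))
  have h2 : IsOpen {y : Fin m → ℝ | ∑ j, y j < 1} :=
    isOpen_lt (continuous_finsetSum _ (fun j _ => continuous_apply j)) continuous_const
  exact h1.inter h2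

theorem sum_add_single {m : ℕ} (y : Fin m → ℝ) (j : Fin m) (ε : ℝ) :
    ∑ i, (y + ε • (Pi.single j (1:ℝ) : Fin m → ℝ)) i = ∑ i, y i + ε := by
  simp only [Pi.add_apply, Pi.smul_apply, smul_eq_mul, Finset.sum_add_distrib]
  rw [← Finset.mul_sum]
  simp

theorem tend {m : ℕ} (y v : Fin m → ℝ) :
    Filter.Tendsto (fun ε : ℝ => y + ε • v) (nhdsWithin 0 (Set.Ioi 0)) (nhds y) := by
  have : Filter.Tendsto (fun ε : ℝ => y + ε • v) (nhds 0) (nhds (y + (0:ℝ) • v)) :=
    (Continuous.tendsto (by fun_prop) 0)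
  rw [zero_smul, add_zero] at this
  exact this.mono_left nhdsWithin_le_nhds

theorem not_int {m : ℕ} (y v : Fin m → ℝ) (h : ∀ ε : ℝ, 0 < ε → y + ε • v ∉ corner m) :
    y ∉ interior (corner m) := by
  intro hy
  have h1 := (tend y v).eventually (mem_interior_iff_mem_nhds.1 hy)
  have h2 : ∀ᶠ ε : ℝ in nhdsWithin 0 (Set.Ioi 0), 0 < ε := self_mem_nhdsWithin
  obtain ⟨ε, h3, h4⟩ := (h1.and h2).exists
  exact h ε h4 h3

theorem mem_frontier_corner {m : ℕ} (hm : 0 < m) (y : Fin m → ℝ) :
    y ∈ frontier (corner m) ↔ y ∈ corner m ∧ ((∃ j, y j = 0) ∨ ∑ j, y j = 1) := by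
  rw [(isClosed_corner m).frontier_eq]
  constructor
  · rintro ⟨h1, h2⟩
    refine ⟨h1, ?_⟩
    by_contra hcon
    push Not at hcon
    apply h2
    rw [mem_interior]
    refine ⟨{y : Fin m → ℝ | (∀ j, 0 < y j) ∧ ∑ j, y j < 1}, ?_, open_strict m, ?_⟩
    · rintro z ⟨hz1, hz2⟩
      exact ⟨fun j => (hz1 j).le, hz2.le⟩
    · exact ⟨fun j => lt_of_le_of_ne (h1.1 j) (fun h => hcon.1 j h.symm),
        lt_of_le_of_ne h1.2 hcon.2⟩
  · rintro ⟨h1, h2⟩
    refine ⟨h1, ?_⟩
    rcases h2 with ⟨j, hj⟩ | h2
    · apply not_int y (-(Pi.single j (1:ℝ) : Fin m → ℝ))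
      intro ε hε hc
      have := hc.1 j
      simp [hj] at this
      linarith
    · apply not_int y (Pi.single (⟨0, hm⟩ : Fin m) (1:ℝ) : Fin m → ℝ)
      intro ε hε hc
      have := hc.2
      rw [sum_add_single, h2] at this
      linarith

end Fa4
end

/-- TASK Fa4. The interior is the set of the points with `0 < y j` for all `j` and `∑ y j < 1`, so a
point of the corner simplex is in the frontier if and only if some coordinate is zero or the sum
is `1`. Proof: the set of the points with strict inequalities is open and contained in `corner m`;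
if `y j = 0` then the points `y - ε e_j` are outside, if the sum is `1` (and `m > 0`) the points
`y + ε e_j` are outside. For `m > 0`. -/
alias mem_frontier_corner := Fa4.mem_frontier_corner


/-- TASK Fa5. Proof: the point with all coordinates `1 / (m + 1)`. -/
alias interior_corner_nonempty := FaA.interior_corner_nonempty


section
namespace Fa6

section

variable {ι : Type} [Fintype ι] [DecidableEq ι]

/-- The map to the face. -/
def AA {m : ℕ} (i₀ : ι) (e : Fin m → ι) (y : Fin m → ℝ) : ι → ℝ :=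
  ∑ j, y j • vx (e j) + (1 - ∑ j, y j) • vx i₀

theorem AA_apply {m : ℕ} (i₀ : ι) (e : Fin m → ι) (y : Fin m → ℝ) (i : ι) :
    AA i₀ e y i = ∑ j, y j * (if i = e j then 1 else 0) +
      (1 - ∑ j, y j) * (if i = i₀ then 1 else 0) := by
  simp [AA, vx, Pi.single_apply, Finset.sum_apply]

theorem AA_i₀ {m : ℕ} {i₀ : ι} {e : Fin m → ι} (h0 : ∀ j, e j ≠ i₀) (y : Fin m → ℝ) :
    AA i₀ e y i₀ = 1 - ∑ j, y j := by
  rw [AA_apply]
  have : ∀ j, (if i₀ = e j then (1:ℝ) else 0) = 0 := fun j => if_neg (fun h => h0 j h.symm)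
  simp [this]

theorem AA_e {m : ℕ} {i₀ : ι} {e : Fin m → ι} (h0 : ∀ j, e j ≠ i₀)
    (he : Function.Injective e) (y : Fin m → ℝ) (j : Fin m) :
    AA i₀ e y (e j) = y j := by
  rw [AA_apply, if_neg (h0 j)]
  rw [Finset.sum_eq_single j]
  · simp
  · intro b _ hb
    rw [if_neg (fun h => hb (he h).symm)]
    simp
  · simp

theorem AA_out {m : ℕ} {i₀ : ι} {e : Fin m → ι} (y : Fin m → ℝ) {i : ι} (h : i ≠ i₀)
    (h' : ∀ j, e j ≠ i) : AA i₀ e y i = 0 := by
  rw [AA_apply, if_neg h]
  have : ∀ j, (if i = e j then (1:ℝ) else 0) = 0 := fun j => if_neg (fun h => h' j h.symm)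
  simp [this]

theorem sum_eq {m : ℕ} {T : Finset ι} {i₀ : ι} {e : Fin m → ι} (hi₀ : i₀ ∈ T)
    (he : Function.Injective e) (hr : ∀ i, i ∈ T.erase i₀ ↔ ∃ j, e j = i) (w : ι → ℝ)
    (hw : ∀ i ∉ T, w i = 0) : ∑ i, w i = w i₀ + ∑ j, w (e j) := by
  rw [← Finset.sum_subset (Finset.subset_univ T) (fun i _ hi => hw i hi),
    ← Finset.add_sum_erase T w hi₀]
  congr 1
  have hT : T.erase i₀ = Finset.univ.image e := by
    ext i
    rw [hr i]
    simp
  rw [hT, Finset.sum_image (fun a _ b _ h => he h)]

theorem exists_corner_param {ι : Type} [Fintype ι] [DecidableEq ι] (T : Finset ι) {m : ℕ}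
    (hm : 0 < m) (hT : T.card = m + 1) :
    ∃ (A : (Fin m → ℝ) → (ι → ℝ)) (B : (ι → ℝ) → (Fin m → ℝ)), Continuous A ∧ Continuous B ∧
      Set.MapsTo A (corner m) (face T) ∧ Set.MapsTo B (face T) (corner m) ∧
      (∀ w ∈ face T, A (B w) = w) ∧ (∀ y, B (A y) = y) ∧
      Set.MapsTo A (frontier (corner m)) (bdry T) ∧ Set.MapsTo B (bdry T) (frontier (corner m)) := by
  have hne : T.Nonempty := Finset.card_pos.1 (by omega)
  obtain ⟨i₀, hi₀⟩ := hne
  have hc : (T.erase i₀).card = m := by rw [Finset.card_erase_of_mem hi₀]; omega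
  let E := ((T.erase i₀).equivFinOfCardEq hc).symm
  obtain ⟨e, he, hr⟩ : ∃ e : Fin m → ι, Function.Injective e ∧
      ∀ i, i ∈ T.erase i₀ ↔ ∃ j, e j = i := by
    refine ⟨fun j => (E j : ι), fun a b h => E.injective (Subtype.ext h), fun i => ?_⟩
    constructor
    · intro hi
      exact ⟨E.symm ⟨i, hi⟩, by simp⟩
    · rintro ⟨j, rfl⟩
      exact (E j).2
  have h0 : ∀ j, e j ≠ i₀ := fun j => Finset.ne_of_mem_erase ((hr _).2 ⟨j, rfl⟩)
  have hmT : ∀ j, e j ∈ T := fun j => Finset.mem_of_mem_erase ((hr _).2 ⟨j, rfl⟩)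
  have hcase : ∀ i ∈ T, i = i₀ ∨ ∃ j, e j = i := by
    intro i hi
    by_cases h : i = i₀
    · exact Or.inl h
    · exact Or.inr ((hr i).1 (Finset.mem_erase.2 ⟨h, hi⟩))
  have hout : ∀ (y : Fin m → ℝ), ∀ i ∉ T, AA i₀ e y i = 0 := by
    intro y i hi
    apply AA_out
    · rintro rfl; exact hi hi₀
    · rintro j rfl; exact hi (hmT j)
  have hA : Set.MapsTo (AA i₀ e) (corner m) (face T) := by
    intro y hy
    refine ⟨⟨fun i => ?_, ?_⟩, hout y⟩
    · by_cases hi : i ∈ T
      · rcases hcase i hi with rfl | ⟨j, rfl⟩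
        · rw [AA_i₀ h0]; linarith [hy.2]
        · rw [AA_e h0 he]; exact hy.1 j
      · rw [hout y i hi]
    · rw [sum_eq hi₀ he hr _ (hout y), AA_i₀ h0]
      simp only [AA_e h0 he]
      ring
  have hB : Set.MapsTo (fun w : ι → ℝ => fun j => w (e j)) (face T) (corner m) := by
    intro w hw
    refine ⟨fun j => hw.1.1 _, ?_⟩
    have h1 := sum_eq hi₀ he hr w hw.2
    rw [hw.1.2] at h1
    have h2 := hw.1.1 i₀
    show ∑ j, w (e j) ≤ 1
    linarith
  refine ⟨AA i₀ e, fun w j => w (e j), ?_, by fun_prop, hA, hB, ?_, ?_, ?_, ?_⟩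
  · unfold AA
    exact (continuous_finsetSum _ (fun j _ => (continuous_apply j).smul continuous_const)).add
      ((continuous_const.sub (continuous_finsetSum _ (fun j _ => continuous_apply j))).smul
        continuous_const)
  · intro w hw
    have h1 := sum_eq hi₀ he hr w hw.2
    rw [hw.1.2] at h1
    ext i
    by_cases hi : i ∈ T
    · rcases hcase i hi with rfl | ⟨j, rfl⟩
      · rw [AA_i₀ h0]; linarith
      · rw [AA_e h0 he]
    · rw [hout _ i hi, hw.2 i hi]
  · intro y
    ext j
    exact AA_e h0 he y j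
  · intro y hy
    rw [mem_frontier_corner hm] at hy
    refine ⟨hA hy.1, ?_⟩
    rcases hy.2 with ⟨j, hj⟩ | h
    · exact ⟨e j, hmT j, by rw [AA_e h0 he]; exact hj⟩
    · exact ⟨i₀, hi₀, by rw [AA_i₀ h0]; linarith⟩
  · intro w hw
    rw [mem_frontier_corner hm]
    refine ⟨hB hw.1, ?_⟩
    obtain ⟨i, hi, hwi⟩ := hw.2
    rcases hcase i hi with rfl | ⟨j, rfl⟩
    · right
      have h1 := sum_eq hi₀ he hr w hw.1.2
      rw [hw.1.1.2] at h1
      show ∑ j, w (e j) = 1
      linarith
    · exact Or.inl ⟨j, hwi⟩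

end

end Fa6
end

/-- TASK Fa6. A face with `m + 1` vertices is homeomorphic to the corner simplex, and its boundary
to the frontier. Proof: choose `i₀ ∈ T` and a bijection `e` of `Fin m` with `T.erase i₀`;
`A y = ∑ j, y j • vx (e j) + (1 - ∑ j, y j) • vx i₀`, `B w = fun j => w (e j)`. -/
alias exists_corner_param := Fa6.exists_corner_param


section
namespace Fa7

open Pool.Agent.MP_0c3001_gt.Br

/-- Extension from the boundary of a face. -/
theorem face_extension {ι : Type} [Fintype ι] [DecidableEq ι] {k : ℕ} {M : Type}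
    [TopologicalSpace M] (hπ : ∀ x : M, Subsingleton (HomotopyGroup (Fin k) M x))
    (T : Finset ι) (hT : T.card = k + 2) (φ : (ι → ℝ) → M) (hφ : ContinuousOn φ (bdry T)) :
    ∃ F : (ι → ℝ) → M, ContinuousOn F (face T) ∧ Set.EqOn F φ (bdry T) := by
  obtain ⟨A, B, hA, hB, hA1, hB1, hAB, _, hA2, hB2⟩ :=
    exists_corner_param T (m := k + 1) (Nat.succ_pos k) hT
  obtain ⟨F', hF1, hF2⟩ := body_extension hπ (E := Fin (k + 1) → ℝ)
    (by rw [Module.finrank_fin_fun]) (convex_corner (k + 1)) (isClosed_corner (k + 1))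
    (isBounded_corner (k + 1)) (interior_corner_nonempty (k + 1)) (φ ∘ A)
    (hφ.comp hA.continuousOn hA2)
  refine ⟨F' ∘ B, hF1.comp hB.continuousOn hB1, fun w hw => ?_⟩
  rw [Function.comp_apply, hF2 (hB2 hw), Function.comp_apply, hAB w hw.1]

end Fa7
end

/-- TASK Fa7. Extension from the boundary of a face. Proof: transport `body_extension` for
`C = corner (k + 1)` with the maps `A`, `B` of `exists_corner_param`: extend `φ ∘ A` from the
frontier to `F'` on `corner (k + 1)` and let `F = F' ∘ B`. -/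
alias face_extension := Fa7.face_extension

end Pool.Agent.MP_0c3001_gt.Br
end

section

/-!
Extension of paths to edges and of null-homotopic loops to triangles.
-/

set_option autoImplicit false

open unitInterval

namespace Pool.Agent.MP_0c3001_gt.Br

section

variable {ι : Type} [Fintype ι] [DecidableEq ι] {M : Type} [TopologicalSpace M]

end

section
open unitInterval

namespace Tr1

open Pool.Agent.MP_0c3001_gt.Br

variable {ι : Type} [Fintype ι] [DecidableEq ι] {M : Type} [TopologicalSpace M]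

theorem seg_right {i j : ι} (hij : i ≠ j) (t : ℝ) : seg i j t j = t := by
  simp [seg, vx, hij.symm, Pi.single_apply]

theorem edge_extension {i j : ι} (hij : i ≠ j) {x y : M} (γ : Path x y) :
    ∃ F : (ι → ℝ) → M, Continuous F ∧ (∀ t : I, F (seg i j t) = γ t) ∧ F (vx i) = x ∧ F (vx j) = y ∧
      ∀ w, ∃ t : I, F w = γ t := by
  refine ⟨fun w => γ.extend (w j), γ.continuous_extend.comp (continuous_apply j), ?_, ?_, ?_, ?_⟩
  · intro t
    show γ.extend (seg i j t j) = γ t
    rw [seg_right hij]
    exact γ.extend_apply t.2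
  · show γ.extend (vx i j) = x
    have h : vx i j = (0 : ℝ) := by simp [vx, hij.symm, Pi.single_apply]
    rw [h]
    exact γ.extend_zero
  · show γ.extend (vx j j) = y
    have h : vx j j = (1 : ℝ) := by simp [vx]
    rw [h]
    exact γ.extend_one
  · intro w
    exact ⟨Set.projIcc 0 1 zero_le_one (w j), rfl⟩

end Tr1
end

/-- TASK Tr1. A path gives a map of the edge. Proof: `F w = γ.extend (w j)` (`Path.extend`), and
`seg i j t` has `j`-th coordinate `t`. -/
alias edge_extension := Tr1.edge_extension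

section

variable {ι : Type} [Fintype ι] [DecidableEq ι] {M : Type} [TopologicalSpace M]


end

section
open unitInterval Topology

namespace Tr2

variable {M : Type} [TopologicalSpace M]

theorem aux {x y : M} {p q : Path x y} (H : Path.Homotopy p q) (t0 : I) (z : M)
    (hz : ∀ s, H (s, t0) = z) {U : Set M} (hU : U ∈ 𝓝 z) :
    ∀ᶠ t in 𝓝 t0, ∀ s : I, H (s, t) ∈ U := by
  have h1 : ∀ s ∈ (Set.univ : Set I), ∀ᶠ a : I × I in 𝓝 (t0, s), H (a.2, a.1) ∈ U := by
    intro s _
    have hc : Continuous (fun a : I × I => H (a.2, a.1)) :=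
      (map_continuous H).comp (continuous_snd.prodMk continuous_fst)
    have h2 : Filter.Tendsto (fun a : I × I => H (a.2, a.1)) (𝓝 (t0, s)) (𝓝 z) := by
      have := hc.tendsto (t0, s)
      simpa [hz] using this
    exact h2 hU
  have h3 := (isCompact_univ : IsCompact (Set.univ : Set I)).eventually_forall_of_forall_eventually
    (x₀ := t0) (P := fun t s => H (s, t) ∈ U) h1
  filter_upwards [h3] with t ht s using ht s (Set.mem_univ _)

theorem continuousOn_homotopy {Y : Type} [TopologicalSpace Y] {D : Set Y} {x y : M} {p q : Path x y}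
    (H : Path.Homotopy p q) (s t : Y → I) (ht : ContinuousOn t D)
    (hs : ∀ w ∈ D, t w ≠ 0 → t w ≠ 1 → ContinuousWithinAt s D w) :
    ContinuousOn (fun w => H (s w, t w)) D := by
  intro w hw
  have hend : ∀ (t0 : I) (z : M), (∀ s, H (s, t0) = z) → t w = t0 →
      ContinuousWithinAt (fun w => H (s w, t w)) D w := by
    intro t0 z hz h0
    unfold ContinuousWithinAt
    simp only [h0, hz]
    intro U hU
    have h1 := aux H t0 z hz hU
    have h2 : Filter.Tendsto t (𝓝[D] w) (𝓝 t0) := by
      rw [← h0]; exact ht w hw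
    have h3 := h2.eventually h1
    rw [Filter.mem_map]
    filter_upwards [h3] with v hv using hv (s v)
  by_cases h0 : t w = 0
  · exact hend 0 x (fun s => H.source s) h0
  by_cases h1 : t w = 1
  · exact hend 1 y (fun s => H.target s) h1
  have h2 := hs w hw h0 h1
  exact ((map_continuous H).continuousAt.comp_continuousWithinAt (h2.prodMk (ht w hw)))

end Tr2
end

/-- TASK Tr2. A homotopy relative to the end points can be evaluated along functions which are
continuous only where the parameter of the path is not `0` or `1`.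
Proof: let `w` be a point with `t w = 0` and `U` a neighbourhood of `H (s, 0) = x`. By compactness
of `I` (tube lemma, `generalized_tube_lemma`) there is a neighbourhood `V` of `0` in `I` with
`H (s, t) ∈ U` for all `s` and `t ∈ V`; the same for `t w = 1`. -/
alias continuousOn_homotopy := Tr2.continuousOn_homotopy

section

variable {ι : Type} [Fintype ι] [DecidableEq ι] {M : Type} [TopologicalSpace M]


end

section
open unitInterval

namespace Tr3

open Pool.Agent.MP_0c3001_gt.Br

section

variable {ι : Type} [Fintype ι] [DecidableEq ι] {M : Type} [TopologicalSpace M]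

theorem seg_left {i j : ι} (hij : i ≠ j) (t : ℝ) : seg i j t i = 1 - t := by
  simp [seg, vx, hij]

theorem seg_right {i j : ι} (hij : i ≠ j) (t : ℝ) : seg i j t j = t := by
  simp [seg, vx, hij.symm]

theorem seg_other {i j l : ι} (hi : i ≠ l) (hj : j ≠ l) (t : ℝ) : seg i j t l = 0 := by
  simp [seg, vx, hi.symm, hj.symm]

theorem triangle_extension {i j l : ι} (hij : i ≠ j) (hjl : j ≠ l) (hil : i ≠ l) {x y z : M}
    (a : Path x y) (b : Path y z) (c : Path x z) (h : (a.trans b).Homotopic c) :
    ∃ F : (ι → ℝ) → M, ContinuousOn F (face {i, j, l}) ∧ (∀ t : I, F (seg i j t) = a t) ∧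
      (∀ t : I, F (seg j l t) = b t) ∧ ∀ t : I, F (seg i l t) = c t := by
  obtain ⟨H⟩ := h
  let tt : (ι → ℝ) → ℝ := fun w => w l + w j / 2
  let mm : (ι → ℝ) → ℝ := fun w => 2 * min (tt w) (1 - tt w)
  let T : (ι → ℝ) → I := fun w => Set.projIcc 0 1 zero_le_one (tt w)
  let S : (ι → ℝ) → I := fun w => Set.projIcc 0 1 zero_le_one (1 - w j / mm w)
  have htt : Continuous tt := by fun_prop
  have hmm : Continuous mm := by fun_prop
  have e0 : ∀ t : I, (a.trans b) t = H (0, t) := fun t => (H.apply_zero t).symm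
  refine ⟨fun w => H (S w, T w), ?_, ?_, ?_, ?_⟩
  · apply continuousOn_homotopy H S T (D := face {i, j, l})
    · exact (continuous_projIcc.comp htt).continuousOn
    · intro w hw h0 h1
      have hne : mm w ≠ 0 := by
        intro hm
        have hmin : min (tt w) (1 - tt w) = 0 := by
          have : 2 * min (tt w) (1 - tt w) = 0 := hm
          linarith
        rcases min_choice (tt w) (1 - tt w) with h' | h'
        · apply h0
          have h2 : tt w = 0 := by rw [← h']; exact hmin
          show Set.projIcc 0 1 zero_le_one (tt w) = 0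
          rw [h2]
          exact Set.projIcc_left (h := zero_le_one)
        · apply h1
          have h2 : tt w = 1 := by
            have : 1 - tt w = 0 := by rw [← h']; exact hmin
            linarith
          show Set.projIcc 0 1 zero_le_one (tt w) = 1
          rw [h2]
          exact Set.projIcc_right (h := zero_le_one)
      have hc : ContinuousAt (fun w : ι → ℝ => 1 - w j / mm w) w := by
        apply ContinuousAt.sub continuousAt_const
        exact ContinuousAt.div (continuous_apply j).continuousAt hmm.continuousAt hne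
      exact (continuous_projIcc.continuousAt.comp hc).continuousWithinAt
  · intro t
    have hl : tt (seg i j t) = (t : ℝ) / 2 := by
      simp only [tt]
      rw [seg_other hil hjl, seg_right hij]; ring
    have ht0 := t.2.1
    have ht1 := t.2.2
    have hm : mm (seg i j t) = t := by
      simp only [mm, hl]
      rw [min_eq_left (by linarith)]; ring
    have hT : T (seg i j t) = ⟨(t : ℝ) / 2, by constructor <;> linarith⟩ := by
      show Set.projIcc 0 1 zero_le_one (tt (seg i j t)) = _
      rw [hl]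
      exact Set.projIcc_of_mem _ _
    show H (S (seg i j t), T (seg i j t)) = a t
    by_cases h0 : (t : ℝ) = 0
    · have : t = 0 := Subtype.ext h0
      subst this
      have hT' : T (seg i j ((0 : I) : ℝ)) = 0 := by
        rw [hT]; apply Subtype.ext; simp
      rw [hT', H.source, a.source]
    · have hS : S (seg i j t) = 0 := by
        show Set.projIcc 0 1 zero_le_one (1 - (seg i j (t : ℝ)) j / mm (seg i j t)) = _
        rw [hm, seg_right hij, div_self h0, sub_self]
        exact Set.projIcc_left (h := zero_le_one)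
      rw [hS, hT, ← e0, Path.trans_apply]
      rw [dif_pos (show (t : ℝ) / 2 ≤ 1 / 2 by linarith)]
      congr 1
      apply Subtype.ext
      show 2 * ((t : ℝ) / 2) = t
      ring
  · intro t
    have ht0 := t.2.1
    have ht1 := t.2.2
    have hl : tt (seg j l t) = (1 + (t : ℝ)) / 2 := by
      simp only [tt]
      rw [seg_left hjl, seg_right hjl]; ring
    have hm : mm (seg j l t) = 1 - t := by
      simp only [mm, hl]
      rw [min_eq_right (by linarith)]; ring
    have hT : T (seg j l t) = ⟨(1 + (t : ℝ)) / 2, by constructor <;> linarith⟩ := by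
      show Set.projIcc 0 1 zero_le_one (tt (seg j l t)) = _
      rw [hl]
      exact Set.projIcc_of_mem _ _
    show H (S (seg j l t), T (seg j l t)) = b t
    by_cases h0 : 1 - (t : ℝ) = 0
    · have ht : t = 1 := Subtype.ext (show (t : ℝ) = 1 by linarith)
      subst ht
      have hT' : T (seg j l ((1 : I) : ℝ)) = 1 := by
        rw [hT]; apply Subtype.ext; simp
      rw [hT', H.target, b.target]
    · have hS : S (seg j l t) = 0 := by
        show Set.projIcc 0 1 zero_le_one (1 - (seg j l (t : ℝ)) j / mm (seg j l t)) = _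
        rw [hm, seg_left hjl, div_self h0, sub_self]
        exact Set.projIcc_left (h := zero_le_one)
      rw [hS, hT, ← e0, Path.trans_apply]
      by_cases h1 : (1 + (t : ℝ)) / 2 ≤ 1 / 2
      · have ht : t = 0 := Subtype.ext (show (t : ℝ) = 0 by linarith)
        subst ht
        rw [dif_pos h1]
        have : (⟨2 * ((⟨(1 + ((0 : I) : ℝ)) / 2, by constructor <;> linarith⟩ : I) : ℝ),
          (unitInterval.mul_pos_mem_iff zero_lt_two).2 ⟨by simp, h1⟩⟩ : I) = 1 := by
          apply Subtype.ext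
          simp
        rw [this, a.target, b.source]
      · rw [dif_neg h1]
        congr 1
        apply Subtype.ext
        show 2 * ((1 + (t : ℝ)) / 2) - 1 = t
        ring
  · intro t
    have ht0 := t.2.1
    have ht1 := t.2.2
    have hl : tt (seg i l t) = t := by
      simp only [tt]
      rw [seg_right hil, seg_other hij hjl.symm]; ring
    have hT : T (seg i l t) = t := by
      show Set.projIcc 0 1 zero_le_one (tt (seg i l t)) = _
      rw [hl]
      exact Set.projIcc_of_mem _ t.2
    have hS : S (seg i l t) = 1 := by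
      show Set.projIcc 0 1 zero_le_one (1 - (seg i l (t : ℝ)) j / mm (seg i l t)) = _
      rw [seg_other hij hjl.symm, zero_div, sub_zero]
      exact Set.projIcc_right (h := zero_le_one)
    show H (S (seg i l t), T (seg i l t)) = c t
    rw [hS, hT]
    exact H.apply_one t

end

end Tr3
end

/-- TASK Tr3. If `a`, `b`, `c` are paths from `x` to `y`, from `y` to `z` and from `x` to `z` and
`a.trans b` is homotopic to `c`, then there is a map of the triangle with these paths on the
sides.
Proof: let `H` be a homotopy from `a.trans b` to `c`, so `H (0, t) = (a.trans b) t`,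
`H (1, t) = c t`. For `w ∈ face {i, j, l}` let `t = w l + w j / 2 ∈ [0, 1]` and
`m = 2 * min t (1 - t)`; `w j ≤ m`. Let `F w = H (1 - w j / m, t)` (use `Set.projIcc`;
`w j / m` is continuous where `m ≠ 0`, that is `t ≠ 0, 1`; `continuousOn_homotopy`).
Sides: `w j = 0`: `F w = H (1, w l) = c (w l)`. `w l = 0`: `t = w j / 2`, `m = w j`, so
`F w = (a.trans b) (w j / 2) = a (w j)` (if `m = 0`, then `w = vx i` and `F w = H (_, 0) = x`).
`w i = 0`: `t = (1 + w l) / 2`, `m = 1 - w l = w j`, `F w = (a.trans b) ((1 + w l) / 2) = b (w l)` (if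
`m = 0`, then `w = vx l`). -/
alias triangle_extension := Tr3.triangle_extension

section

variable {ι : Type} [Fintype ι] [DecidableEq ι] {M : Type} [TopologicalSpace M]


end

section
open unitInterval

namespace TrB

open Pool.Agent.MP_0c3001_gt.Br

variable {ι : Type} [Fintype ι] [DecidableEq ι]

/-- A point of a face with two vertices is on the edge. -/
theorem mem_face_pair {i j : ι} (hij : i ≠ j) {w : ι → ℝ} (hw : w ∈ face ({i, j} : Finset ι)) :
    ∃ t : I, w = seg i j t := by
  obtain ⟨⟨h0, h1⟩, h2⟩ := hw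
  have hsum : w i + w j = 1 := by
    have h3 : ∑ k ∈ ({i, j} : Finset ι), w k = ∑ k, w k :=
      Finset.sum_subset (Finset.subset_univ _) fun k _ hk => h2 k hk
    rw [Finset.sum_pair hij] at h3
    rw [h3]
    exact h1
  refine ⟨⟨w j, h0 j, ?_⟩, ?_⟩
  · have := h0 i
    linarith
  · funext k
    change w k = (1 - w j) * (Pi.single i (1 : ℝ) : ι → ℝ) k +
      w j * (Pi.single j (1 : ℝ) : ι → ℝ) k
    by_cases hki : k = i
    · subst hki
      rw [Pi.single_eq_same, Pi.single_eq_of_ne hij]
      linarith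
    · by_cases hkj : k = j
      · subst hkj
        rw [Pi.single_eq_same, Pi.single_eq_of_ne hki]
        linarith
      · rw [Pi.single_eq_of_ne hki, Pi.single_eq_of_ne hkj, h2 k]
        · ring
        · rw [Finset.mem_insert, Finset.mem_singleton]
          exact fun h => h.elim hki hkj

/-- A point of the boundary of a triangle is on one of the three sides. -/
theorem mem_bdry_triangle {i j l : ι} (hij : i ≠ j) (hjl : j ≠ l) (hil : i ≠ l) {w : ι → ℝ}
    (hw : w ∈ bdry ({i, j, l} : Finset ι)) :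
    ∃ t : I, w = seg i j t ∨ w = seg j l t ∨ w = seg i l t := by
  obtain ⟨⟨hs, h0⟩, k, hk, hk0⟩ := hw
  rw [Finset.mem_insert, Finset.mem_insert, Finset.mem_singleton] at hk
  rcases hk with rfl | rfl | rfl
  · obtain ⟨t, ht⟩ := mem_face_pair hjl (w := w) ⟨hs, fun m hm => by
      by_cases hmk : m = k
      · rw [hmk]; exact hk0
      · refine h0 m fun h => ?_
        rw [Finset.mem_insert] at h
        exact h.elim hmk hm⟩
    exact ⟨t, Or.inr (Or.inl ht)⟩
  · obtain ⟨t, ht⟩ := mem_face_pair hil (w := w) ⟨hs, fun m hm => by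
      by_cases hmk : m = k
      · rw [hmk]; exact hk0
      · refine h0 m fun h => ?_
        rw [Finset.mem_insert, Finset.mem_insert, Finset.mem_singleton] at h
        rw [Finset.mem_insert, Finset.mem_singleton] at hm
        rcases h with h | h | h
        · exact hm (Or.inl h)
        · exact hmk h
        · exact hm (Or.inr h)⟩
    exact ⟨t, Or.inr (Or.inr ht)⟩
  · obtain ⟨t, ht⟩ := mem_face_pair hij (w := w) ⟨hs, fun m hm => by
      by_cases hmk : m = k
      · rw [hmk]; exact hk0
      · refine h0 m fun h => ?_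
        rw [Finset.mem_insert, Finset.mem_insert, Finset.mem_singleton] at h
        rw [Finset.mem_insert, Finset.mem_singleton] at hm
        rcases h with h | h | h
        · exact hm (Or.inl h)
        · exact hm (Or.inr h)
        · exact hmk h⟩
    exact ⟨t, Or.inl ht⟩

end TrB
end

/-- TASK Tr4. A point of the boundary of a triangle is on one of the three sides. -/
alias mem_bdry_triangle := TrB.mem_bdry_triangle

section

variable {ι : Type} [Fintype ι] [DecidableEq ι] {M : Type} [TopologicalSpace M]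


end

/-- TASK Tr5. A point of a face with two vertices is on the edge. -/
alias mem_face_pair := TrB.mem_face_pair

section

variable {ι : Type} [Fintype ι] [DecidableEq ι] {M : Type} [TopologicalSpace M]


end

end Pool.Agent.MP_0c3001_gt.Br
end

section

/-!
Maps of a simplex to an aspherical space with given vertices and classes of edges, which are small
on small faces.
-/

set_option autoImplicit false

open unitInterval CategoryTheory

namespace Pool.Agent.MP_0c3001_gt.Br

section

variable {ι : Type} [Fintype ι] [DecidableEq ι] {M : Type} [MetricSpace M] {x₀ : M}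

/-- The edge from `i` to `j` is mapped to a path compatible with the classes. -/
def EdgeOK (v : ι → Cov x₀) (φ : (ι → ℝ) → M) (i j : ι) : Prop :=
  ∃ γ : Path (v i).pt (v j).pt, (∀ t : I, γ t = φ (seg i j t)) ∧ (v j).cl = (v i).cl ≫ arr γ

/-- The vertices of the face are pairwise close. -/
def SmallFace (v : ι → Cov x₀) (d : ℝ) (T : Finset ι) : Prop := ∀ i ∈ T, ∀ j ∈ T, Close d (v i) (v j)

/-- The properties of the map on the skeleton `sk ι c`. Faces with pairwise close vertices and at most
`m` vertices have small images. -/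
structure Good (v : ι → Cov x₀) (d : ℝ) (e : ℕ → ℝ) (m c : ℕ) (φ : (ι → ℝ) → M) : Prop where
  cont : ContinuousOn φ (sk ι c)
  vert : 1 ≤ c → ∀ i, φ (vx i) = (v i).pt
  edge : 2 ≤ c → ∀ i j, i ≠ j → EdgeOK v φ i j
  small : ∀ T : Finset ι, T.card ≤ c → T.card ≤ m → SmallFace v d T →
    ∀ w ∈ face T, ∀ w' ∈ face T, dist (φ w) (φ w') < e T.card

/-- The conditions on the constants: `e 1`, `e 2`, ... are positive, edges of length `d` are small,
and boundaries of size `2 * e k` can be filled with size `e (k + 1)`, if `k + 1 ≤ m`. -/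
structure Scale (M : Type) [MetricSpace M] (d : ℝ) (e : ℕ → ℝ) (m : ℕ) : Prop where
  pos : ∀ k, 0 < e k
  two : d ≤ e 2
  step : ∀ k, 2 ≤ k → k + 1 ≤ m → LocExt M (e (k + 1)) (2 * e k)

/-- What is needed on one new face `T`, `T.card = c + 1`. -/
structure FaceGood (v : ι → Cov x₀) (d : ℝ) (e : ℕ → ℝ) (m c : ℕ) (φ : (ι → ℝ) → M)
    (T : Finset ι) (F : (ι → ℝ) → M) : Prop where
  cont : ContinuousOn F (face T)
  bdry : Set.EqOn F φ (bdry T)
  vert : c = 0 → ∀ i ∈ T, F (vx i) = (v i).pt
  edge : c = 1 → ∀ i ∈ T, ∀ j ∈ T, i ≠ j → EdgeOK v F i j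
  small : T.card ≤ m → SmallFace v d T → ∀ w ∈ face T, ∀ w' ∈ face T, dist (F w) (F w') < e T.card

end

section
open unitInterval CategoryTheory

namespace PhA

open Pool.Agent.MP_0c3001_gt.Br

variable {ι : Type} [Fintype ι] [DecidableEq ι] {M : Type} [MetricSpace M] {x₀ : M}

theorem exists_ne_zero {w : ι → ℝ} (hw : w ∈ stdSimplex ℝ ι) : ∃ i, w i ≠ 0 := by
  by_contra hcon
  push Not at hcon
  have h := hw.2
  rw [Finset.sum_eq_zero (fun i _ => hcon i)] at h
  exact zero_ne_one h

theorem good_zero (v : ι → Cov x₀) (d : ℝ) (e : ℕ → ℝ) (m : ℕ) (φ : (ι → ℝ) → M) :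
    Good v d e m 0 φ := by
  refine ⟨?_, fun h => absurd h (by omega), fun h => absurd h (by omega), ?_⟩
  · rw [sk_zero]
    exact continuousOn_empty _
  · intro T hT _ _ w hw
    exfalso
    have h : T = ∅ := Finset.card_eq_zero.1 (by omega)
    subst h
    obtain ⟨i, hi⟩ := exists_ne_zero hw.1
    exact hi (hw.2 i (Finset.notMem_empty i))

theorem face_step_zero {v : ι → Cov x₀} {d : ℝ} {e : ℕ → ℝ} {m : ℕ} (hs : Scale M d e m)
    {φ : (ι → ℝ) → M} {T : Finset ι} (hT : T.card = 1) : ∃ F, FaceGood v d e m 0 φ T F := by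
  obtain ⟨i, rfl⟩ := Finset.card_eq_one.1 hT
  refine ⟨fun _ => (v i).pt, continuousOn_const, ?_, ?_, ?_, ?_⟩
  · intro w hw
    exfalso
    obtain ⟨hw1, k, hk, hk0⟩ := hw
    rw [Finset.mem_singleton] at hk
    subst hk
    obtain ⟨j, hj⟩ := exists_ne_zero hw1.1
    by_cases hji : j = k
    · rw [hji] at hj
      exact hj hk0
    · exact hj (hw1.2 j (by simpa using hji))
  · intro _ j hj
    rw [Finset.mem_singleton] at hj
    rw [hj]
  · intro h
    exact absurd h (by omega)
  · intro _ _ w _ w' _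
    show dist (v i).pt (v i).pt < _
    rw [dist_self]
    exact hs.pos _

end PhA
end

/-- TASK Ph1. The empty skeleton. Proof: `sk_zero`; a face with no vertices is empty. -/
alias good_zero := PhA.good_zero

section

variable {ι : Type} [Fintype ι] [DecidableEq ι] {M : Type} [MetricSpace M] {x₀ : M}


end

/-- TASK Ph2. Vertices. Proof: `T = {i}`, `face T = {vx i}`, `F` constant; `bdry T` is empty. -/
alias face_step_zero := PhA.face_step_zero

section

variable {ι : Type} [Fintype ι] [DecidableEq ι] {M : Type} [MetricSpace M] {x₀ : M}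


end

section
open unitInterval CategoryTheory

namespace Ph3

open Pool.Agent.MP_0c3001_gt.Br

section

variable {ι : Type} [Fintype ι] [DecidableEq ι] {M : Type} [MetricSpace M] {x₀ : M}

omit [Fintype ι] in
theorem seg_zero (i j : ι) : seg i j 0 = vx i := by
  simp [seg]

omit [Fintype ι] in
theorem seg_one (i j : ι) : seg i j 1 = vx j := by
  simp [seg]

omit [Fintype ι] in
theorem seg_symm (i j : ι) (t : ℝ) : seg j i t = seg i j (1 - t) := by
  simp [seg, add_comm]

theorem exists_edge_path (v : ι → Cov x₀) (d : ℝ) (i j : ι) :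
    ∃ γ : Path (v i).pt (v j).pt, (v j).cl = (v i).cl ≫ arr γ ∧
      (Close d (v i) (v j) → ∀ s t, dist (γ s) (γ t) < d) := by
  by_cases h : Close d (v i) (v j)
  · obtain ⟨γ, h1, h2⟩ := h
    exact ⟨γ, h2, fun _ => h1⟩
  · obtain ⟨γ, hγ⟩ := arr_surj (Groupoid.inv (v i).cl ≫ (v j).cl)
    refine ⟨γ, ?_, fun h' => absurd h' h⟩
    rw [hγ, ← Category.assoc, Groupoid.comp_inv, Category.id_comp]

theorem mem_bdry_pair {i j : ι} (hij : i ≠ j) {w : ι → ℝ} (hw : w ∈ bdry ({i, j} : Finset ι)) :
    w = vx i ∨ w = vx j := by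
  obtain ⟨hw1, l, hl, hl0⟩ := hw
  obtain ⟨t, ht⟩ := mem_face_pair hij hw1
  rw [ht] at hl0 ⊢
  rcases Finset.mem_insert.mp hl with rfl | hl
  · have : (seg l j (t : ℝ)) l = 1 - (t : ℝ) := by simp [seg, vx, hij]
    rw [this] at hl0
    have h1 : (t : ℝ) = 1 := by linarith
    right
    rw [h1, seg_one]
  · rw [Finset.mem_singleton] at hl
    subst hl
    have : (seg i l (t : ℝ)) l = (t : ℝ) := by simp [seg, vx, hij.symm]
    rw [this] at hl0
    left
    rw [hl0, seg_zero]

theorem face_step_one {v : ι → Cov x₀} {d : ℝ} {e : ℕ → ℝ} {m : ℕ} (hs : Scale M d e m)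
    {φ : (ι → ℝ) → M} (hφ : Good v d e m 1 φ) {T : Finset ι} (hT : T.card = 2) :
    ∃ F, FaceGood v d e m 1 φ T F := by
  obtain ⟨i, j, hij, rfl⟩ := Finset.card_eq_two.mp hT
  obtain ⟨γ, hγ, hγd⟩ := exists_edge_path v d i j
  obtain ⟨F, hF, hFs, hFi, hFj, hFall⟩ := edge_extension hij γ
  refine ⟨F, ⟨hF.continuousOn, ?_, by intro h; omega, ?_, ?_⟩⟩
  · intro w hw
    rcases mem_bdry_pair hij hw with rfl | rfl
    · rw [hFi, hφ.vert le_rfl]
    · rw [hFj, hφ.vert le_rfl]
  · intro _ a ha b hb hab
    have hij' : EdgeOK v F i j := ⟨γ, fun t => (hFs t).symm, hγ⟩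
    have hji' : EdgeOK v F j i := by
      refine ⟨γ.symm, fun t => ?_, ?_⟩
      · rw [seg_symm]
        exact (hFs (σ t)).symm
      · rw [arr_symm, hγ, Category.assoc, Groupoid.comp_inv, Category.comp_id]
    simp only [Finset.mem_insert, Finset.mem_singleton] at ha hb
    rcases ha with rfl | rfl <;> rcases hb with rfl | rfl
    · exact absurd rfl hab
    · exact hij'
    · exact hji'
    · exact absurd rfl hab
  · intro _ hsm w _ w' _
    obtain ⟨s, hs'⟩ := hFall w
    obtain ⟨t, ht'⟩ := hFall w'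
    rw [hs', ht', hT]
    exact lt_of_lt_of_le (hγd (hsm i (by simp) j (by simp)) s t) hs.two

end

end Ph3
end

/-- TASK Ph3. Edges. Proof: `T = {i, j}`. If `Close d (v i) (v j)` take the path `γ` from its
definition, otherwise a path `γ` with `arr γ = Groupoid.inv (v i).cl ≫ (v j).cl` (`arr_surj`), and
take `F` from `edge_extension`. The edge from `j` to `i` is `γ.symm`, `seg j i t = seg i j (1 - t)`.
`bdry T = {vx i, vx j}` (`mem_bdry_iff`). If the face is small then `Close d (v i) (v j)`, and all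
distances are `< d ≤ e 2`. -/
alias face_step_one := Ph3.face_step_one

section

variable {ι : Type} [Fintype ι] [DecidableEq ι] {M : Type} [MetricSpace M] {x₀ : M}


end

section
open unitInterval CategoryTheory

namespace Ph4

open Pool.Agent.MP_0c3001_gt.Br

variable {ι : Type} [Fintype ι] [DecidableEq ι] {M : Type} [MetricSpace M] {x₀ : M}

/-- TASK Ph4. Small faces with at least three vertices. -/
theorem face_step_small {v : ι → Cov x₀} {d : ℝ} {e : ℕ → ℝ} {m c : ℕ} (hs : Scale M d e m)
    (hc : 2 ≤ c) {φ : (ι → ℝ) → M} (hφ : Good v d e m c φ) {T : Finset ι} (hT : T.card = c + 1)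
    (hm : T.card ≤ m) (hsm : SmallFace v d T) : ∃ F, FaceGood v d e m c φ T F := by
  have hcont : ContinuousOn φ (bdry T) := by
    refine hφ.cont.mono ?_
    rw [← face_inter_sk T hT]
    exact Set.inter_subset_right
  have hd : ∀ w ∈ bdry T, ∀ w' ∈ bdry T, dist (φ w) (φ w') < 2 * e c := by
    intro w hw w' hw'
    obtain ⟨i, hi, hwi⟩ := (mem_bdry_iff T w).1 hw
    obtain ⟨j, hj, hwj⟩ := (mem_bdry_iff T w').1 hw'
    obtain ⟨k, hk, hki, hkj⟩ : ∃ k ∈ T, k ≠ i ∧ k ≠ j := by
      have h1 : ({i, j} : Finset ι).card < T.card := by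
        have := Finset.card_le_two (a := i) (b := j)
        omega
      obtain ⟨k, hk, hk'⟩ := Finset.exists_mem_notMem_of_card_lt_card h1
      rw [Finset.mem_insert, Finset.mem_singleton, not_or] at hk'
      exact ⟨k, hk, hk'.1, hk'.2⟩
    have key : ∀ (i : ι) (w : ι → ℝ), i ∈ T → k ≠ i → w ∈ face (T.erase i) →
        dist (φ w) (φ (vx k)) < e c := by
      intro i w hi hki hwi
      have hcard : (T.erase i).card = c := by
        rw [Finset.card_erase_of_mem hi, hT]
        rfl
      have h2 := hφ.small (T.erase i) hcard.le (by omega)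
        (fun a ha b hb => hsm a (Finset.mem_of_mem_erase ha) b (Finset.mem_of_mem_erase hb))
        w hwi (vx k) (vx_mem_face (Finset.mem_erase.2 ⟨hki, hk⟩))
      rwa [hcard] at h2
    have h3 := key i w hi hki hwi
    have h4 := key j w' hj hkj hwj
    have h5 := dist_triangle_right (φ w) (φ w') (φ (vx k))
    linarith
  obtain ⟨F, hF, hFe, hFd⟩ := hs.step c hc (by omega) (ι → ℝ) (bdry T) φ (isClosed_bdry T)
    hcont hd
  refine ⟨F, ⟨hF.continuousOn, hFe, ?_, ?_, ?_⟩⟩
  · intro h0
    omega
  · intro h1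
    omega
  · intro _ _ w _ w' _
    rw [hT]
    exact hFd w w'

end Ph4
end

/-- TASK Ph4. Small faces with at least three vertices. Proof: any two points `w`, `w'` of the
boundary are in faces `T.erase i`, `T.erase j` with a common vertex (`T.card ≥ 3`), which are
small (`Good.small`), so `dist (φ w) (φ w') < 2 * e c`; the boundary is closed and contained in
`sk ι c` (`face_inter_sk`). Apply `Scale.step` with `Y = ι → ℝ`, `A = bdry T`. -/
alias face_step_small := Ph4.face_step_small

section

variable {ι : Type} [Fintype ι] [DecidableEq ι] {M : Type} [MetricSpace M] {x₀ : M}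


end

section
open unitInterval CategoryTheory

namespace Ph5

open Pool.Agent.MP_0c3001_gt.Br

variable {ι : Type} [Fintype ι] [DecidableEq ι] {M : Type} [MetricSpace M] {x₀ : M}

/-- Triangles: a continuous map on the face with the given boundary values. -/
theorem face_step_two {v : ι → Cov x₀} {d : ℝ} {e : ℕ → ℝ} {m : ℕ} {φ : (ι → ℝ) → M}
    (hφ : Good v d e m 2 φ) {T : Finset ι} (hT : T.card = 3) :
    ∃ F : (ι → ℝ) → M, ContinuousOn F (face T) ∧ Set.EqOn F φ (bdry T) := by
  obtain ⟨i, j, l, hij, hil, hjl, rfl⟩ := Finset.card_eq_three.1 hT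
  obtain ⟨a, ha1, ha2⟩ := hφ.edge le_rfl i j hij
  obtain ⟨b, hb1, hb2⟩ := hφ.edge le_rfl j l hjl
  obtain ⟨c, hc1, hc2⟩ := hφ.edge le_rfl i l hil
  have harr : arr (a.trans b) = arr c := by
    rw [arr_trans]
    have h : (v i).cl ≫ (arr a ≫ arr b) = (v i).cl ≫ arr c := by
      rw [← Category.assoc, ← ha2, ← hb2, ← hc2]
    exact (cancel_epi (v i).cl).1 h
  obtain ⟨F, hF, hFa, hFb, hFc⟩ := triangle_extension (ι := ι) hij hjl hil a b c
    ((arr_eq_iff _ _).1 harr)
  refine ⟨F, hF, fun w hw => ?_⟩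
  obtain ⟨t, rfl | rfl | rfl⟩ := mem_bdry_triangle hij hjl hil hw
  · rw [hFa t, ha1 t]
  · rw [hFb t, hb1 t]
  · rw [hFc t, hc1 t]

end Ph5
end

/-- TASK Ph5. Other triangles: `F` continuous on the face with the given boundary values.
Proof: `T = {i, j, l}`. By `Good.edge` there are paths `a`, `b`, `c` on the sides with
`(v j).cl = (v i).cl ≫ arr a`, `(v l).cl = (v j).cl ≫ arr b`, `(v l).cl = (v i).cl ≫ arr c`, so
`arr (a.trans b) = arr c` (cancel `(v i).cl`), and the paths are homotopic (`arr_eq_iff`). Apply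
`triangle_extension`; the boundary values are right by `mem_bdry_triangle`. -/
alias face_step_two := Ph5.face_step_two

section

variable {ι : Type} [Fintype ι] [DecidableEq ι] {M : Type} [MetricSpace M] {x₀ : M}


end

section
open unitInterval CategoryTheory

namespace Ph6

open Pool.Agent.MP_0c3001_gt.Br

variable {ι : Type} [Fintype ι] [DecidableEq ι] {M : Type} [MetricSpace M] {x₀ : M}

/-- All faces. -/
theorem face_step {v : ι → Cov x₀} {d : ℝ} {e : ℕ → ℝ} {m c : ℕ} (hs : Scale M d e m)
    (hπ : ∀ k, 2 ≤ k → ∀ x : M, Subsingleton (HomotopyGroup (Fin k) M x))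
    {φ : (ι → ℝ) → M} (hφ : Good v d e m c φ) {T : Finset ι} (hT : T.card = c + 1) :
    ∃ F, FaceGood v d e m c φ T F := by
  rcases Nat.lt_or_ge c 2 with hc | hc
  · rcases Nat.eq_zero_or_pos c with hc0 | hc0
    · subst hc0
      exact face_step_zero hs hT
    · have hc1 : c = 1 := by omega
      subst hc1
      exact face_step_one hs hφ hT
  · by_cases hsm : T.card ≤ m ∧ SmallFace v d T
    · exact face_step_small hs hc hφ hT hsm.1 hsm.2
    · have hF : ∃ F : (ι → ℝ) → M, ContinuousOn F (face T) ∧ Set.EqOn F φ (bdry T) := by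
        rcases Nat.lt_or_ge c 3 with hc3 | hc3
        · have hc2 : c = 2 := by omega
          subst hc2
          exact face_step_two hφ hT
        · have hb : ContinuousOn φ (bdry T) := by
            refine hφ.cont.mono ?_
            rw [← face_inter_sk T hT]
            exact Set.inter_subset_right
          exact face_extension (k := c - 1) (hπ (c - 1) (by omega)) T (by omega) φ hb
      obtain ⟨F, hF1, hF2⟩ := hF
      exact ⟨F, hF1, hF2, fun h => by omega, fun h => by omega,
        fun h1 h2 => absurd ⟨h1, h2⟩ hsm⟩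

end Ph6
end

/-- TASK Ph6. All faces. Proof: by cases `c = 0`, `c = 1`, `c ≥ 2`; in the last case use
`face_step_small` if the face is small with at most `m` vertices, and otherwise
`face_step_two` (`c = 2`) or `face_extension` (`c ≥ 3`, `k = c - 1 ≥ 2`); the fields `vert`, `edge`,
`small` of `FaceGood` are then void. -/
alias face_step := Ph6.face_step

section

variable {ι : Type} [Fintype ι] [DecidableEq ι] {M : Type} [MetricSpace M] {x₀ : M}


end

section
open unitInterval CategoryTheory

namespace Ph7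

open Pool.Agent.MP_0c3001_gt.Br

variable {ι : Type} [Fintype ι] [DecidableEq ι] {M : Type} [MetricSpace M] {x₀ : M}

omit [Fintype ι] in
theorem edgeOK_congr {v : ι → Cov x₀} {φ ψ : (ι → ℝ) → M} {i j : ι} (h : EdgeOK v φ i j)
    (he : ∀ t : I, ψ (seg i j t) = φ (seg i j t)) : EdgeOK v ψ i j := by
  obtain ⟨γ, h1, h2⟩ := h
  exact ⟨γ, fun t => (h1 t).trans (he t).symm, h2⟩

/-- The induction step. -/
theorem good_step {v : ι → Cov x₀} {d : ℝ} {e : ℕ → ℝ} {m c : ℕ} (hs : Scale M d e m)
    (hπ : ∀ k, 2 ≤ k → ∀ x : M, Subsingleton (HomotopyGroup (Fin k) M x))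
    {φ : (ι → ℝ) → M} (hφ : Good v d e m c φ) : ∃ ψ, Good v d e m (c + 1) ψ := by
  have hF : ∀ T : Finset ι, ∃ F, T.card = c + 1 → FaceGood v d e m c φ T F := by
    intro T
    by_cases hT : T.card = c + 1
    · obtain ⟨F, hF⟩ := face_step hs hπ hφ hT
      exact ⟨F, fun _ => hF⟩
    · exact ⟨φ, fun h => absurd h hT⟩
  choose F hF using hF
  obtain ⟨ψ, h1, h2, h3⟩ := glue_skeleton c φ hφ.cont F
    fun T hT => ⟨(hF T hT).cont, (hF T hT).bdry⟩
  have hsub : ∀ T : Finset ι, T.card ≤ c → face T ⊆ sk ι c := fun T hT w hw => ⟨T, hT, hw⟩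
  refine ⟨ψ, h1, ?_, ?_, ?_⟩
  · intro _ i
    have hi : vx i ∈ face ({i} : Finset ι) := vx_mem_face (Finset.mem_singleton_self i)
    rcases Nat.eq_zero_or_pos c with hc | hc
    · have hT : ({i} : Finset ι).card = c + 1 := by rw [Finset.card_singleton, hc]
      rw [h3 _ hT hi]
      exact (hF _ hT).vert hc i (Finset.mem_singleton_self i)
    · rw [h2 (hsub {i} (by rw [Finset.card_singleton]; exact hc) hi)]
      exact hφ.vert hc i
  · intro hc i j hij
    have hcard : ({i, j} : Finset ι).card = 2 := Finset.card_pair hij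
    have hi : i ∈ ({i, j} : Finset ι) := Finset.mem_insert_self i _
    have hj : j ∈ ({i, j} : Finset ι) :=
      Finset.mem_insert_of_mem (Finset.mem_singleton_self j)
    have hseg : ∀ t : I, seg i j t ∈ face ({i, j} : Finset ι) := fun t =>
      seg_mem_face hi hj t.2.1 t.2.2
    rcases Nat.lt_or_ge c 2 with hc2 | hc2
    · have hc1 : c = 1 := by omega
      have hT : ({i, j} : Finset ι).card = c + 1 := by rw [hcard, hc1]
      exact edgeOK_congr ((hF _ hT).edge hc1 i hi j hj hij) fun t => h3 _ hT (hseg t)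
    · exact edgeOK_congr (hφ.edge hc2 i j hij) fun t =>
        h2 (hsub {i, j} (by rw [hcard]; exact hc2) (hseg t))
  · intro T hTc hTm hsm w hw w' hw'
    rcases Nat.lt_or_ge c T.card with hc | hc
    · have hT : T.card = c + 1 := by omega
      rw [h3 T hT hw, h3 T hT hw']
      exact (hF T hT).small hTm hsm w hw w' hw'
    · rw [h2 (hsub T hc hw), h2 (hsub T hc hw')]
      exact hφ.small T hc hTm hsm w hw w' hw'

end Ph7
end

/-- TASK Ph7. The induction step. Proof: choose `F T` for all `T` with `T.card = c + 1`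
(`face_step`; anything for other `T`) and apply `glue_skeleton`. The vertex `vx i` is in the face
`{i}`, `seg i j t` is in the face `{i, j}` (`seg_mem_face`); faces with at most `c` vertices are
contained in `sk ι c`. -/
alias good_step := Ph7.good_step

section

variable {ι : Type} [Fintype ι] [DecidableEq ι] {M : Type} [MetricSpace M] {x₀ : M}


end

section
open unitInterval CategoryTheory

namespace Ph8

open Pool.Agent.MP_0c3001_gt.Br

variable {ι : Type} [Fintype ι] [DecidableEq ι] {M : Type} [MetricSpace M] {x₀ : M}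

theorem exists_good_all [Nonempty ι] (v : ι → Cov x₀) {d : ℝ} {e : ℕ → ℝ} {m : ℕ}
    (hs : Scale M d e m) (hπ : ∀ k, 2 ≤ k → ∀ x : M, Subsingleton (HomotopyGroup (Fin k) M x))
    (c : ℕ) : ∃ φ : (ι → ℝ) → M, Good v d e m c φ := by
  induction c with
  | zero => exact ⟨fun _ => (v (Classical.arbitrary ι)).pt, good_zero v d e m _⟩
  | succ c ih =>
    obtain ⟨φ, hφ⟩ := ih
    exact good_step hs hπ hφ

theorem exists_good [Nonempty ι] (v : ι → Cov x₀) {d : ℝ} {e : ℕ → ℝ} {m : ℕ}
    (hs : Scale M d e m) (hπ : ∀ k, 2 ≤ k → ∀ x : M, Subsingleton (HomotopyGroup (Fin k) M x)) :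
    ∃ φ : (ι → ℝ) → M, ContinuousOn φ (stdSimplex ℝ ι) ∧ (∀ i, φ (vx i) = (v i).pt) ∧
      (∀ i j, i ≠ j → EdgeOK v φ i j) ∧
      ∀ T : Finset ι, T.card ≤ m → SmallFace v d T →
        ∀ w ∈ face T, ∀ w' ∈ face T, dist (φ w) (φ w') < e T.card := by
  obtain ⟨φ, hφ⟩ := exists_good_all v hs hπ (Fintype.card ι + 2)
  refine ⟨φ, ?_, hφ.vert (by omega), hφ.edge (by omega), ?_⟩
  · refine hφ.cont.mono ?_
    rw [← sk_card]
    exact sk_mono (by omega)
  · intro T hT hsm w hw w' hw'
    refine hφ.small T ?_ hT hsm w hw w' hw'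
    have := Finset.card_le_univ T
    omega

end Ph8
end

/-- TASK Ph8. Proof: `good_zero` (any map), `good_step`, `sk_card` (also for larger `c`:
`sk ι c = stdSimplex ℝ ι` for `c = Fintype.card ι`; to have `2 ≤ c` for the edges take
`c = Fintype.card ι + 2`, `sk_mono`). The result: a map which is continuous on the simplex, has the
right vertices and edges, and is small on small faces. -/
alias exists_good := Ph8.exists_good

section

variable {ι : Type} [Fintype ι] [DecidableEq ι] {M : Type} [MetricSpace M] {x₀ : M}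


end

section
open unitInterval CategoryTheory

namespace Ph9

open Pool.Agent.MP_0c3001_gt.Br

theorem locExt_mono {M : Type} [MetricSpace M] {η δ δ' : ℝ} (h : LocExt M η δ) (hd : δ' ≤ δ) :
    LocExt M η δ' := by
  intro Y _ _ A f hA hf hfd
  exact h Y A f hA hf (fun a ha b hb => lt_of_lt_of_le (hfd a ha b hb) hd)

theorem exists_seq {M : Type} [MetricSpace M] (hM : BallProp M) {η : ℝ} (hη : 0 < η) :
    ∃ s : ℕ → ℝ, (∀ j, 0 < s j) ∧ (∀ j, s j ≤ η) ∧ ∀ j, LocExt M (s j) (2 * s (j + 1)) := by
  choose δ hδ hδ' using fun r : {r : ℝ // 0 < r} => exists_locExt hM r.1 r.2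
  let nx : {r : ℝ // 0 < r} → {r : ℝ // 0 < r} := fun r =>
    ⟨min r.1 (δ r / 2), lt_min r.2 (by have := hδ r; linarith)⟩
  let s : ℕ → {r : ℝ // 0 < r} := fun j => nx^[j] ⟨η, hη⟩
  have hs1 : ∀ j, s (j + 1) = nx (s j) := fun j => Function.iterate_succ_apply' nx j _
  refine ⟨fun j => (s j).1, fun j => (s j).2, ?_, ?_⟩
  · intro j
    induction j with
    | zero => exact le_refl _
    | succ j ih =>
      show (s (j + 1)).1 ≤ η
      rw [hs1]
      exact (min_le_left _ _).trans ih
  · intro j
    refine locExt_mono (hδ' (s j)) ?_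
    show 2 * (s (j + 1)).1 ≤ δ (s j)
    rw [hs1]
    have : (nx (s j)).1 ≤ δ (s j) / 2 := min_le_right _ _
    linarith

theorem exists_scale {M : Type} [MetricSpace M] (hM : BallProp M) (m : ℕ) {η : ℝ} (hη : 0 < η) :
    ∃ (d : ℝ) (e : ℕ → ℝ), 0 < d ∧ Scale M d e m ∧ ∀ k, e k ≤ η := by
  obtain ⟨s, hs0, hsη, hs⟩ := exists_seq hM hη
  refine ⟨s (m - 2), fun k => s (m - k), hs0 _, ⟨fun k => hs0 _, le_refl _, ?_⟩, fun k => hsη _⟩
  intro k hk hkm
  show LocExt M (s (m - (k + 1))) (2 * s (m - k))
  have h := hs (m - (k + 1))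
  have e : m - (k + 1) + 1 = m - k := by omega
  rw [e] at h
  exact h

end Ph9
end

/-- TASK Ph9. Existence of scales. Proof: let `s 0 = η`, `s (j + 1) = min (s j) (δ j / 2)` where
`LocExt M (s j) (δ j)`, `δ j > 0` (`exists_locExt`); note that `LocExt M η δ` implies
`LocExt M η δ'` for `δ' ≤ δ`. Let `e k = s (m - k)` and `d = e 2`: if `k + 1 ≤ m` then
`e (k + 1) = s j`, `e k = s (j + 1)` with `j = m - (k + 1)`. -/
alias exists_scale := Ph9.exists_scale

section

variable {ι : Type} [Fintype ι] [DecidableEq ι] {M : Type} [MetricSpace M] {x₀ : M}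


end

end Pool.Agent.MP_0c3001_gt.Br
end

section

/-!
Lifting of a map of a simplex to the points of the universal cover.
-/

set_option autoImplicit false

open unitInterval CategoryTheory

namespace Pool.Agent.MP_0c3001_gt.Br

section

variable {ι : Type} [Fintype ι] [DecidableEq ι] {M : Type} [MetricSpace M] {x₀ : M}

end

section
open unitInterval CategoryTheory

namespace TiA

open Pool.Agent.MP_0c3001_gt.Br

variable {ι : Type} [Fintype ι] [DecidableEq ι] {M : Type} [MetricSpace M] {x₀ : M}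

/-- TASK Ti1. The image of a segment of the simplex is a path. -/
theorem exists_segPath {φ : (ι → ℝ) → M} (hφ : ContinuousOn φ (stdSimplex ℝ ι)) {u w : ι → ℝ}
    (hu : u ∈ stdSimplex ℝ ι) (hw : w ∈ stdSimplex ℝ ι) {x y : M} (hx : φ u = x) (hy : φ w = y) :
    ∃ γ : Path x y, ∀ t : I, γ t = φ ((1 - (t : ℝ)) • u + (t : ℝ) • w) := by
  refine ⟨{ toFun := fun t => φ ((1 - (t : ℝ)) • u + (t : ℝ) • w)
            continuous_toFun := ?_
            source' := ?_
            target' := ?_ }, fun t => rfl⟩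
  · refine hφ.comp_continuous ?_ ?_
    · exact ((continuous_const.sub continuous_subtype_val).smul continuous_const).add
        (continuous_subtype_val.smul continuous_const)
    · intro t
      exact convex_stdSimplex ℝ ι hu hw (sub_nonneg.2 t.2.2) t.2.1 (sub_add_cancel _ _)
  · simp [hx]
  · simp [hy]

/-- TASK Ti3. Proof: `subst`, then `p = q` (`Path.ext`). -/
theorem cov_mk_eq {a : Cov x₀} {y z : M} (h : y = z) (p : Path a.pt y) (q : Path a.pt z)
    (hpq : ∀ t : I, p t = q t) : Cov.mk y (a.cl ≫ arr p) = Cov.mk z (a.cl ≫ arr q) := by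
  subst h
  have : p = q := Path.ext (funext hpq)
  rw [this]

end TiA
end

/-- TASK Ti1. The image of a segment of the simplex is a path.
Proof: `t ↦ φ ((1 - t) • u + t • w)` is continuous since the segment is in the (convex) simplex. -/
alias exists_segPath := TiA.exists_segPath

section

variable {ι : Type} [Fintype ι] [DecidableEq ι] {M : Type} [MetricSpace M] {x₀ : M}


end

section
open unitInterval CategoryTheory

namespace Ti2

open Pool.Agent.MP_0c3001_gt.Br

section

variable {ι : Type} [Fintype ι] [DecidableEq ι] {M : Type} [MetricSpace M] {x₀ : M}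

/-- The segment as a path in the simplex. -/
noncomputable def sp (u w : stdSimplex ℝ ι) : Path u w where
  toFun t := ⟨(1 - (t : ℝ)) • (u : ι → ℝ) + (t : ℝ) • (w : ι → ℝ),
    (convex_stdSimplex ℝ ι) u.2 w.2 (by linarith [t.2.2]) t.2.1 (by ring)⟩
  continuous_toFun := by
    apply Continuous.subtype_mk
    fun_prop
  source' := by
    apply Subtype.ext
    simp
    rfl
  target' := by
    apply Subtype.ext
    simp
    rfl

/-- TASK Ti2. Triangles in the simplex give homotopic paths. -/
theorem triangle_homotopic {φ : (ι → ℝ) → M} (hφ : ContinuousOn φ (stdSimplex ℝ ι))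
    {u w w' : ι → ℝ} (hu : u ∈ stdSimplex ℝ ι) (hw : w ∈ stdSimplex ℝ ι)
    (hw' : w' ∈ stdSimplex ℝ ι) {x y z : M} (p : Path x y) (q : Path y z) (r : Path x z)
    (hp : ∀ t : I, p t = φ ((1 - (t : ℝ)) • u + (t : ℝ) • w))
    (hq : ∀ t : I, q t = φ ((1 - (t : ℝ)) • w + (t : ℝ) • w'))
    (hr : ∀ t : I, r t = φ ((1 - (t : ℝ)) • u + (t : ℝ) • w')) : (p.trans q).Homotopic r := by
  have hx : x = φ u := by
    have := hp 0
    rw [p.source] at this
    simpa using this
  have hy : y = φ w := by
    have := hp 1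
    rw [p.target] at this
    simpa using this
  have hz : z = φ w' := by
    have := hq 1
    rw [q.target] at this
    simpa using this
  subst hx hy hz
  let f : stdSimplex ℝ ι → M := fun s => φ s
  have hf : Continuous f := hφ.domRestrict
  let U : stdSimplex ℝ ι := ⟨u, hu⟩
  let W : stdSimplex ℝ ι := ⟨w, hw⟩
  let W' : stdSimplex ℝ ι := ⟨w', hw'⟩
  have e1 : p = (sp U W).map hf := by
    apply Path.ext
    funext t
    exact hp t
  have e2 : q = (sp W W').map hf := by
    apply Path.ext
    funext t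
    exact hq t
  have e3 : r = (sp U W').map hf := by
    apply Path.ext
    funext t
    exact hr t
  have : ContractibleSpace (stdSimplex ℝ ι) :=
    (convex_stdSimplex ℝ ι).contractibleSpace ⟨u, hu⟩
  have h := SimplyConnectedSpace.paths_homotopic ((sp U W).trans (sp W W')) (sp U W')
  rw [e1, e2, e3, ← Path.map_trans]
  exact h.map ⟨f, hf⟩

end

end Ti2
end

/-- TASK Ti2. Triangles in the simplex give homotopic paths.
Proof: the homotopy `H (s, t) = φ (p (s, t))` with `p (s, t)` the point
`(1 - s) • A t + s • ((1 - t) • u + t • w')`, where `A t = (1 - 2 t) • u + 2 t • w` for `t ≤ 1 / 2`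
and `A t = (2 - 2 t) • w + (2 t - 1) • w'` for `t ≥ 1 / 2` (all points are in the simplex).
(Or: the paths in the subtype of the simplex are homotopic, as the subtype is contractible,
`Convex.contractibleSpace`, `SimplyConnectedSpace.paths_homotopic`; map them by `φ`.) -/
alias triangle_homotopic := Ti2.triangle_homotopic

section

variable {ι : Type} [Fintype ι] [DecidableEq ι] {M : Type} [MetricSpace M] {x₀ : M}


end

/-- TASK Ti3. Proof: `subst`, then `p = q` (`Path.ext`). -/
alias cov_mk_eq := TiA.cov_mk_eq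

section

variable {ι : Type} [Fintype ι] [DecidableEq ι] {M : Type} [MetricSpace M] {x₀ : M}


end

section
open unitInterval CategoryTheory

namespace Ti4

open Pool.Agent.MP_0c3001_gt.Br

variable {ι : Type} [Fintype ι] [DecidableEq ι] {M : Type} [MetricSpace M] {x₀ : M}

theorem exists_tilde [Nonempty ι] (v : ι → Cov x₀) {φ : (ι → ℝ) → M}
    (hφ : ContinuousOn φ (stdSimplex ℝ ι)) (hv : ∀ i, φ (vx i) = (v i).pt)
    (he : ∀ i j, i ≠ j → EdgeOK v φ i j) :
    ∃ Ψ : (ι → ℝ) → Cov x₀, (∀ i, Ψ (vx i) = v i) ∧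
      ∀ d : ℝ, ∀ w ∈ stdSimplex ℝ ι, ∀ w' ∈ stdSimplex ℝ ι,
        (∀ u ∈ segment ℝ w w', ∀ u' ∈ segment ℝ w w', dist (φ u) (φ u') < d) →
          Close d (Ψ w) (Ψ w') := by
  classical
  obtain ⟨i₀⟩ := ‹Nonempty ι›
  have hvx : ∀ i : ι, vx i ∈ stdSimplex ℝ ι := fun i => (vx_mem_face (Finset.mem_singleton_self i)).1
  have hp : ∀ w : (stdSimplex ℝ ι : Set (ι → ℝ)), ∃ γ : Path (v i₀).pt (φ w.1),
      ∀ t : I, γ t = φ ((1 - (t : ℝ)) • vx i₀ + (t : ℝ) • w.1) := fun w =>
    exists_segPath hφ (hvx i₀) w.2 (hv i₀) rfl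
  choose p hp using hp
  have hΨdef : ∀ w : ι → ℝ, ∀ hw : w ∈ stdSimplex ℝ ι,
      (if hw : w ∈ stdSimplex ℝ ι then
        (⟨φ w, (v i₀).cl ≫ arr (p ⟨w, hw⟩)⟩ : Cov x₀) else v i₀) =
      ⟨φ w, (v i₀).cl ≫ arr (p ⟨w, hw⟩)⟩ := fun w hw => dif_pos hw
  refine ⟨fun w => if hw : w ∈ stdSimplex ℝ ι then
        (⟨φ w, (v i₀).cl ≫ arr (p ⟨w, hw⟩)⟩ : Cov x₀) else v i₀, ?_, ?_⟩
  · intro i
    show (if hw : vx i ∈ stdSimplex ℝ ι then
        (⟨φ (vx i), (v i₀).cl ≫ arr (p ⟨vx i, hw⟩)⟩ : Cov x₀) else v i₀) = v i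
    rw [hΨdef (vx i) (hvx i)]
    by_cases hi : i = i₀
    · subst hi
      rw [cov_mk_eq (hv i) (p ⟨vx i, hvx i⟩) (Path.refl _) ?_]
      · rw [arr_refl, Category.comp_id]
      · intro t
        rw [hp]
        show φ ((1 - (t : ℝ)) • vx i + (t : ℝ) • vx i) = (v i).pt
        rw [← add_smul, sub_add_cancel, one_smul]
        exact hv i
    · obtain ⟨γ, hγ, hcl⟩ := he i₀ i (fun h => hi h.symm)
      rw [cov_mk_eq (hv i) (p ⟨vx i, hvx i⟩) γ ?_]
      · rw [← hcl]
      · intro t
        rw [hp, hγ]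
        rfl
  · intro d w hw w' hw' hd
    show Close d (if hw : w ∈ stdSimplex ℝ ι then
        (⟨φ w, (v i₀).cl ≫ arr (p ⟨w, hw⟩)⟩ : Cov x₀) else v i₀)
      (if hw : w' ∈ stdSimplex ℝ ι then
        (⟨φ w', (v i₀).cl ≫ arr (p ⟨w', hw⟩)⟩ : Cov x₀) else v i₀)
    rw [hΨdef w hw, hΨdef w' hw']
    obtain ⟨γ, hγ⟩ := exists_segPath hφ hw hw' (rfl : φ w = φ w) (rfl : φ w' = φ w')
    refine ⟨γ, ?_, ?_⟩
    · intro s t
      rw [hγ, hγ]
      have hseg : ∀ t : I, (1 - (t : ℝ)) • w + (t : ℝ) • w' ∈ segment ℝ w w' := fun t =>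
        ⟨1 - t, t, by have := t.2.2; linarith, t.2.1, by ring, rfl⟩
      exact hd _ (hseg s) _ (hseg t)
    · have h := triangle_homotopic hφ (hvx i₀) hw hw' (p ⟨w, hw⟩) γ (p ⟨w', hw'⟩)
        (hp ⟨w, hw⟩) hγ (hp ⟨w', hw'⟩)
      have h2 := (arr_eq_iff _ _).2 h
      rw [arr_trans] at h2
      show (v i₀).cl ≫ arr (p ⟨w', hw'⟩) = ((v i₀).cl ≫ arr (p ⟨w, hw⟩)) ≫ arr γ
      rw [Category.assoc, h2]

end Ti4
end

/-- TASK Ti4. The lift `Ψ` of `φ`.
Proof: fix a vertex `i₀`. For `w` in the simplex let `p w : Path (v i₀).pt (φ w)` be the path of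
`exists_segPath` for `u = vx i₀` and `Ψ w = ⟨φ w, (v i₀).cl ≫ arr (p w)⟩` (outside the simplex let
`Ψ w = v i₀`). By `cov_mk_eq` and `EdgeOK` (or, if `i = i₀`, since the path is constant)
`Ψ (vx i) = v i`. The last property: let `γ` be the path of `exists_segPath` from `w` to `w'`;
`(p w).trans γ` is homotopic to `p w'` by `triangle_homotopic`, so
`(v i₀).cl ≫ arr (p w') = ((v i₀).cl ≫ arr (p w)) ≫ arr γ`. -/
alias exists_tilde := Ti4.exists_tilde

section

variable {ι : Type} [Fintype ι] [DecidableEq ι] {M : Type} [MetricSpace M] {x₀ : M}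


end

end Pool.Agent.MP_0c3001_gt.Br
end
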