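import Pool.Agent.Lib.MP_0c3001_gt.Dmod
import Pool.Agent.Lib.MP_0c3001_gt.LA
import Pool.Agent.Lib.MP_1ef7cf_nt.Frob2
import Pool.Agent.Lib.MP_0c3001_gt.Mg.G021

section

/-!
# Finite index subgroups: the coefficient module `V_K = coind_K^Q k`
-/

set_option autoImplicit false

namespace Pool.MP0c3001

open CategoryTheory CategoryTheory.Abelian Limits

noncomputable section

variable {k : Type} [CommRing k] {Q : Type} [Group Q]

/-- The module `V_K` (functions `f : Q → k` with `f(κq) = f(q)` for `κ ∈ K`). -/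
abbrev VK (k : Type) [CommRing k] {Q : Type} [Group Q] (K : Subgroup Q) : Rep.{0} k Q :=
  Rep.coind K.subtype (Zt k K)

/-- `V_K` is finitely generated over a Noetherian ring if `K` has finite index (it embeds into the
functions on the finite set of right cosets). -/
theorem vk_finite [IsNoetherianRing k] (K : Subgroup Q) [K.FiniteIndex] :
    Module.Finite k (VK k K).V := by
  have hfin : Finite (Quotient (QuotientGroup.rightRel K)) :=
    Finite.of_equiv _ (QuotientGroup.quotientRightRelEquivQuotientLeftRel K).symm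
  let L : (VK k K).V →ₗ[k] (Quotient (QuotientGroup.rightRel K) → k) :=
    { toFun := fun f x => f.1 x.out
      map_add' := fun _ _ => rfl
      map_smul' := fun _ _ => rfl }
  have hL : Function.Injective L := by
    intro f g hfg
    apply Subtype.ext
    funext q
    have h1 : f.1 (Quotient.mk (QuotientGroup.rightRel K) q).out =
        g.1 (Quotient.mk (QuotientGroup.rightRel K) q).out :=
      congrFun hfg (Quotient.mk (QuotientGroup.rightRel K) q)
    have h2 : q * (Quotient.mk (QuotientGroup.rightRel K) q).out⁻¹ ∈ K :=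
      QuotientGroup.rightRel_apply.1 (Quotient.mk_out q)
    have h3 : ∀ f : (VK k K).V, f.1 q = f.1 (Quotient.mk (QuotientGroup.rightRel K) q).out := by
      intro f
      have h4 := f.2 ⟨_, h2⟩ (Quotient.mk (QuotientGroup.rightRel K) q).out
      have h5 : f.1 (q * (Quotient.mk (QuotientGroup.rightRel K) q).out⁻¹ *
          (Quotient.mk (QuotientGroup.rightRel K) q).out) =
          f.1 (Quotient.mk (QuotientGroup.rightRel K) q).out := h4
      rwa [inv_mul_cancel_right] at h5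
    rw [h3 f, h3 g, h1]
  exact Module.Finite.of_injective L hL

private theorem vk_apply (K : Subgroup Q) (f : (VK k K).V) (κ : K) (q : Q) :
    f.1 (κ.1 * q) = f.1 q := f.2 κ q

private theorem vk_out (K : Subgroup Q) (f : (VK k K).V) (q : Q) :
    f.1 ((q : Q ⧸ K).out)⁻¹ = f.1 q⁻¹ := by
  obtain ⟨h, hh⟩ := QuotientGroup.mk_out_eq_mul K q
  rw [hh, mul_inv_rev]
  exact vk_apply K f h⁻¹ q⁻¹

/-- Constants and summation over the cosets: maps `k → V_K → k` with composite the index. -/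
theorem vk_maps (K : Subgroup Q) [K.FiniteIndex] :
    ∃ (ι : Zt k Q ⟶ VK k K) (σ : VK k K ⟶ Zt k Q), ι ≫ σ = K.index • 𝟙 (Zt k Q) := by
  classical
  have : Fintype (Q ⧸ K) := Subgroup.fintypeQuotientOfFiniteIndex
  let ι : Zt k Q ⟶ VK k K := Rep.ofHom
    { toLinearMap :=
        { toFun := fun c => ⟨fun _ => c, fun _ _ => rfl⟩
          map_add' := fun _ _ => rfl
          map_smul' := fun _ _ => rfl }
      isIntertwining' := fun h => rfl }
  let σ : VK k K ⟶ Zt k Q := Rep.ofHom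
    { toLinearMap :=
        { toFun := fun f => ∑ x : Q ⧸ K, f.1 (x.out)⁻¹
          map_add' := fun f g => Finset.sum_add_distrib
          map_smul' := fun c f => (Finset.mul_sum _ _ _).symm }
      isIntertwining' := by
        intro h
        apply LinearMap.ext
        intro f
        change ∑ x : Q ⧸ K, f.1 ((x.out)⁻¹ * h) = ∑ x : Q ⧸ K, f.1 (x.out)⁻¹
        refine Fintype.sum_equiv (MulAction.toPerm h⁻¹) _ _ fun x => ?_
        have h1 : ((h⁻¹ * x.out : Q) : Q ⧸ K) = h⁻¹ • x := by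
          conv_rhs => rw [← QuotientGroup.out_eq' x]
          rfl
        have h2 := vk_out K f (h⁻¹ * x.out)
        rw [h1] at h2
        rw [MulAction.toPerm_apply, h2, mul_inv_rev, inv_inv] }
  refine ⟨ι, σ, ?_⟩
  apply Rep.hom_ext
  apply Representation.IntertwiningMap.ext
  apply LinearMap.ext
  intro c
  change ∑ x : Q ⧸ K, (c : k) = _
  rw [Finset.sum_const, Finset.card_univ, ← Nat.card_eq_fintype_card]
  have h1 : ∀ (n : ℕ), (n • (𝟙 (Zt k Q) : Zt k Q ⟶ Zt k Q)).hom c = n • (c : k) := by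
    intro n
    induction n with
    | zero => simp only [zero_smul]; rfl
    | succ n ih =>
      rw [succ_nsmul, succ_nsmul, ← ih]
      rfl
  exact (h1 _).symm

/-- Postcomposition with `ι : k → V_K` has kernel killed by the index. -/
theorem vk_inj (K : Subgroup Q) [K.FiniteIndex] :
    ∃ (ι : Zt k Q ⟶ VK k K), ∀ (i : ℕ) (x : HH k Q (Zt k Q) i),
      x.comp (Ext.mk₀ ι) (add_zero i) = 0 → K.index • x = 0 := by
  obtain ⟨ι, σ, h⟩ := vk_maps (k := k) K
  refine ⟨ι, fun i x hx => ?_⟩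
  have h1 : (x.comp (Ext.mk₀ ι) (add_zero i)).comp (Ext.mk₀ σ) (add_zero i) = K.index • x := by
    rw [Ext.comp_assoc_of_third_deg_zero, Ext.mk₀_comp_mk₀, h]
    have h2 : Ext.mk₀ (K.index • 𝟙 (Zt k Q)) = K.index • Ext.mk₀ (𝟙 (Zt k Q)) :=
      map_nsmul (Ext.addEquiv₀ (X := Zt k Q) (Y := Zt k Q)).symm _ _
    rw [h2, comp_nsmul', Ext.comp_mk₀_id]
  rw [← h1, hx, Ext.zero_comp]


/-- If the restriction of `e ∈ H²(Q;k)` to `K` is divisible by `N`, then the product with `e` on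
`H^i(Q;V_K)` is divisible by `N`.
Proof: `Sh = cmp (Rep.resFunctor K.subtype) (𝟙 _) (counit)` is bijective (`shapiro_bijective` with
`Rep.resCoindAdjunction k K.subtype`), and `Sh (e.comp α) = (res e).comp (Sh α)` (`cmp_comp`)
`= N • (y.comp (Sh α))`. -/
theorem vk_dvd (K : Subgroup Q) (e : HH k Q (Zt k Q) 2) (N : ℕ) (y : Ext.{0} (Zt k K) (Zt k K) 2)
    (hy : e.mapExactFunctor (Rep.resFunctor.{0} (k := k) K.subtype) = N • y) (i : ℕ)
    (α : HH k Q (VK k K) i) :
    ∃ β : HH k Q (VK k K) (i + 2), e.comp α (by omega) = N • β := by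
  have hb : ∀ (X : Rep.{0} k Q) (j : ℕ), Function.Bijective
      (cmp (Rep.resFunctor.{0} (k := k) K.subtype)
        (𝟙 ((Rep.resFunctor.{0} (k := k) K.subtype).obj X))
        ((Rep.resCoindAdjunction k K.subtype).counit.app (Zt k K)) j) := fun X j =>
    shapiro_bijective (Rep.resFunctor.{0} (k := k) K.subtype) (Rep.resCoindAdjunction k K.subtype)
      X (Zt k K) j
  obtain ⟨β, hβ⟩ := (hb (Zt k Q) (i + 2)).2 (Ext.comp (Y := Zt k K) y
    (cmp (Rep.resFunctor.{0} (k := k) K.subtype)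
        (𝟙 ((Rep.resFunctor.{0} (k := k) K.subtype).obj (Zt k Q)))
        ((Rep.resCoindAdjunction k K.subtype).counit.app (Zt k K)) i α) (by omega))
  refine ⟨β, (hb (Zt k Q) (i + 2)).1 ?_⟩
  rw [map_nsmul, hβ]
  have h1 := cmp_comp (Rep.resFunctor.{0} (k := k) K.subtype) (show 2 + i = i + 2 by omega)
    ((Rep.resCoindAdjunction k K.subtype).counit.app (Zt k K)) e α
  refine h1.trans ?_
  rw [hy]
  exact nsmul_comp' _ _ _ _

end

end Pool.MP0c3001
end

section

/-!
# Integrality of the trace of a ratio of two classes (pure linear algebra)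
-/

set_option autoImplicit false

namespace Pool.MP0c3001

namespace LatticeBound

open TensorProduct

/-- the rank of an abelian group -/
noncomputable def rk (A : Type) [AddCommGroup A] : ℕ := Module.finrank ℚ (ℚ ⊗[ℤ] A)

theorem rk_pos (A : Type) [AddCommGroup A] [Module.Finite ℤ A] (a : A)
    (ha : ∀ t : ℕ, 0 < t → t • a ≠ 0) : 0 < rk A := by
  have hnt : Nontrivial (ℚ ⊗[ℤ] A) := by
    refine ⟨⟨(1 : ℚ) ⊗ₜ[ℤ] a, 0, ?_⟩⟩
    intro h
    obtain ⟨t, ht, h'⟩ := exists_torsion A a h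
    exact ha t ht h'
  exact Module.finrank_pos

theorem rk_le_of_exact {A B C : Type} [AddCommGroup A] [AddCommGroup B] [AddCommGroup C]
    [Module.Finite ℤ A] [Module.Finite ℤ B] [Module.Finite ℤ C]
    (f : A →+ B) (g : B →+ C) (h : ∀ b, g b = 0 → ∃ a, f a = b) : rk B ≤ rk A + rk C := by
  have h1 : LinearMap.ker (ext g) ≤ LinearMap.range (ext f) := by
    intro v hv
    have hv' : ext g v = 0 := hv
    obtain ⟨t, b, ht, htb⟩ := exists_mul B v
    have h2 : (1 : ℚ) ⊗ₜ[ℤ] g b = 0 := by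
      rw [← ext_tmul, ← htb, map_nsmul, hv', smul_zero]
    obtain ⟨s, hs, hsb⟩ := exists_torsion C _ h2
    rw [← map_nsmul] at hsb
    obtain ⟨a, ha⟩ := h _ hsb
    refine ⟨((s * t : ℕ) : ℚ)⁻¹ • ((1 : ℚ) ⊗ₜ[ℤ] a), ?_⟩
    have hst : ((s * t : ℕ) : ℚ) ≠ 0 := by
      have : 0 < s * t := Nat.mul_pos hs ht
      exact_mod_cast this.ne'
    rw [map_smul, ext_tmul, ha, nsmul_tmul', ← htb, ← mul_nsmul', ← Nat.cast_smul_eq_nsmul ℚ,
      smul_smul, inv_mul_cancel₀ hst, one_smul]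
  have h2 := LinearMap.finrank_range_add_finrank_ker (ext g)
  have h3 : Module.finrank ℚ (LinearMap.range (ext g)) ≤ rk C := Submodule.finrank_le _
  have h4 : Module.finrank ℚ (LinearMap.ker (ext g)) ≤ Module.finrank ℚ (LinearMap.range (ext f)) :=
    Submodule.finrank_mono h1
  have h5 : Module.finrank ℚ (LinearMap.range (ext f)) ≤ rk A := LinearMap.finrank_range_le _
  unfold rk at *
  omega

theorem rk_le_of_injective {A B : Type} [AddCommGroup A] [AddCommGroup B]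
    [Module.Finite ℤ A] [Module.Finite ℤ B] (g : A →+ B) (hg : Function.Injective g) :
    rk A ≤ rk B := by
  have h1 : Function.Injective (ext g) :=
    ext_injective g 1 one_pos fun α hα => by
      rw [one_nsmul]; exact (map_eq_zero_iff g hg).1 hα
  exact LinearMap.finrank_le_finrank_of_injective h1

theorem rk_le_of_surjective {A B : Type} [AddCommGroup A] [AddCommGroup B]
    [Module.Finite ℤ A] [Module.Finite ℤ B] (g : A →+ B) (hg : Function.Surjective g) :
    rk B ≤ rk A := by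
  have h1 : Function.Surjective (ext g) :=
    ext_surjective g 1 one_pos fun β => by
      obtain ⟨α, hα⟩ := hg β
      exact ⟨α, by rw [one_nsmul]; exact hα⟩
  exact LinearMap.finrank_le_finrank_of_surjective h1

/-- **Integrality of traces.** -/
theorem lattice_trace (r : ℕ) (x₀ : Fin r → ℤ) (L₀ L₁ : Type) [AddCommGroup L₀] [AddCommGroup L₁]
    [Module.Finite ℤ L₀] [Module.Finite ℤ L₁] (E : (Fin r → ℤ) →+ L₀ →+ L₁)
    (m : ℕ) (hm : 0 < m) (hinj : ∀ α, E x₀ α = 0 → m • α = 0)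
    (hsur : ∀ β, ∃ α, E x₀ α = m • β) :
    ∃ T : (Fin r → ℤ) →+ ℤ, T x₀ = m * rk L₀ ∧
      ∀ (L₀' L₁' : Type) [AddCommGroup L₀'] [AddCommGroup L₁']
      [Module.Finite ℤ L₀'] (E' : (Fin r → ℤ) →+ L₀' →+ L₁') (ι₀ : L₀ →+ L₀') (ι₁ : L₁ →+ L₁'),
      (∀ c α, ι₁ (E c α) = E' c (ι₀ α)) → (∃ t₀ : ℕ, 0 < t₀ ∧ ∀ α, ι₀ α = 0 → t₀ • α = 0) →
      (∀ α', E' x₀ α' = 0 → m • α' = 0) →
      (∀ β', ∃ α', E' x₀ α' = m • β') →
      ∀ (N : ℕ), 0 < N → ∀ (c : Fin r → ℤ), (∀ α', ∃ β', E' c α' = N • β') →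
        (N : ℤ) ∣ T c := by
  have hbj : Function.Bijective (extHom r E x₀) :=
    ⟨ext_injective (E x₀) m hm hinj, ext_surjective (E x₀) m hm hsur⟩
  let e : ℚ ⊗[ℤ] L₀ ≃ₗ[ℚ] ℚ ⊗[ℤ] L₁ := LinearEquiv.ofBijective (extHom r E x₀) hbj
  have he : ∀ v, e v = extHom r E x₀ v := fun v => rfl
  let τ : (Fin r → ℤ) →+ (ℚ ⊗[ℤ] L₀ →ₗ[ℚ] ℚ ⊗[ℤ] L₀) :=
    AddMonoidHom.mk' (fun c => e.symm.toLinearMap ∘ₗ extHom r E c) fun c d => by
      rw [map_add, LinearMap.comp_add]
  have hτdef : ∀ c v, τ c v = e.symm (extHom r E c v) := fun c v => rfl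
  have hτ0 : τ x₀ = LinearMap.id := by
    apply LinearMap.ext
    intro v
    rw [hτdef, ← he, LinearEquiv.symm_apply_apply]
    rfl
  -- the divisibility of the trace, with rational values
  have key0 : ∀ (L₀' L₁' : Type) [AddCommGroup L₀'] [AddCommGroup L₁']
      [Module.Finite ℤ L₀'] (E' : (Fin r → ℤ) →+ L₀' →+ L₁') (ι₀ : L₀ →+ L₀') (ι₁ : L₁ →+ L₁'),
      (∀ c α, ι₁ (E c α) = E' c (ι₀ α)) → (∃ t₀ : ℕ, 0 < t₀ ∧ ∀ α, ι₀ α = 0 → t₀ • α = 0) →
      (∀ α', E' x₀ α' = 0 → m • α' = 0) →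
      (∀ β', ∃ α', E' x₀ α' = m • β') →
      ∀ (N : ℕ), 0 < N → ∀ (c : Fin r → ℤ), (∀ α', ∃ β', E' c α' = N • β') →
        ∃ n : ℤ, LinearMap.trace ℚ (ℚ ⊗[ℤ] L₀) (m • τ c) = (N : ℚ) * n := by
    intro L₀' L₁' _ _ _ E' ι₀ ι₁ hcomm hker hinj' hsur' N hN c hc
    obtain ⟨t₀, ht₀, hker⟩ := hker
    -- the maps over `ℚ`
    have hιinj : Function.Injective (ext ι₀) := ext_injective ι₀ t₀ ht₀ hker
    have hEinj : Function.Injective (extHom r E' x₀) := ext_injective (E' x₀) m hm hinj'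
    have hcommQ : ∀ (c : Fin r → ℤ) (v : ℚ ⊗[ℤ] L₀),
        ext ι₁ (extHom r E c v) = extHom r E' c (ext ι₀ v) := by
      intro c v
      obtain ⟨t, α, ht, hv⟩ := exists_mul L₀ v
      have h1 : t • (ext ι₁ (extHom r E c v) - extHom r E' c (ext ι₀ v)) = 0 := by
        rw [smul_sub, ← map_nsmul, ← map_nsmul, ← map_nsmul, ← map_nsmul, hv, extHom_tmul,
          ext_tmul, ext_tmul, extHom_tmul, hcomm, sub_self]
      exact sub_eq_zero.mp (nsmul_cancel ht h1)
    -- the lattice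
    let Λ' : AddSubgroup (ℚ ⊗[ℤ] L₀') :=
      (TensorProduct.mk ℤ ℚ L₀' 1).toAddMonoidHom.range
    let Λ : AddSubgroup (ℚ ⊗[ℤ] L₀) := Λ'.comap (ext ι₀).toAddMonoidHom
    have hΛ : ∀ v, v ∈ Λ ↔ ∃ α', (1 : ℚ) ⊗ₜ[ℤ] α' = ext ι₀ v := fun v => Iff.rfl
    -- the key computation
    have key : ∀ (c : Fin r → ℤ) (v : ℚ ⊗[ℤ] L₀) (α' : L₀'), (1 : ℚ) ⊗ₜ[ℤ] α' = ext ι₀ v →
        extHom r E' x₀ (ext ι₀ (m • τ c v)) = m • ((1 : ℚ) ⊗ₜ[ℤ] E' c α') := by
      intro c v α' h
      rw [map_nsmul, map_nsmul, ← hcommQ, hτdef, ← he, LinearEquiv.apply_symm_apply, hcommQ, ← h,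
        extHom_tmul]
    have hdiv : ∀ v : ℚ ⊗[ℤ] L₀, v ∈ Λ → ∃ w ∈ Λ, (m • τ c) v = N • w := by
      intro v hv
      obtain ⟨α', h⟩ := (hΛ v).mp hv
      obtain ⟨β', hβ⟩ := hc α'
      obtain ⟨α'', h''⟩ := hsur' β'
      have hN0 : (N : ℚ) ≠ 0 := by exact_mod_cast hN.ne'
      have h1 : ext ι₀ (m • τ c v) = N • ((1 : ℚ) ⊗ₜ[ℤ] α'') := by
        apply hEinj
        rw [key c v α' h, hβ, map_nsmul, extHom_tmul, h'', nsmul_tmul', nsmul_tmul', smul_comm]
      refine ⟨(N : ℚ)⁻¹ • (m • τ c v), (hΛ _).mpr ⟨α'', ?_⟩, ?_⟩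
      · rw [map_smul, h1, ← Nat.cast_smul_eq_nsmul ℚ N, smul_smul, inv_mul_cancel₀ hN0, one_smul]
      · rw [← Nat.cast_smul_eq_nsmul ℚ N, smul_smul, mul_inv_cancel₀ hN0, one_smul]
        rfl
    -- `Λ` is finitely generated and spans
    have hfg : Λ.FG := by
      have hP : (AddSubgroup.toIntSubmodule Λ).FG := by
        let f : AddSubgroup.toIntSubmodule Λ →ₗ[ℤ] LinearMap.range (TensorProduct.mk ℤ ℚ L₀' 1) :=
          (((ext ι₀).restrictScalars ℤ) ∘ₗ (AddSubgroup.toIntSubmodule Λ).subtype).codRestrict _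
            fun v => (hΛ _).mp v.2
        have hf : Function.Injective f := by
          intro v w h
          have h1 : ext ι₀ v.1 = ext ι₀ w.1 := congrArg Subtype.val h
          exact Subtype.ext (hιinj h1)
        have : IsNoetherian ℤ (AddSubgroup.toIntSubmodule Λ) := isNoetherian_of_injective f hf
        exact Module.Finite.iff_fg.mp inferInstance
      exact (Submodule.fg_iff_addSubgroup_fg _).mp hP
    have hspan : ∀ v : ℚ ⊗[ℤ] L₀, ∃ t : ℕ, 0 < t ∧ t • v ∈ Λ := by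
      intro v
      obtain ⟨t, α, ht, h⟩ := exists_mul L₀ v
      refine ⟨t, ht, (hΛ _).mpr ⟨ι₀ α, ?_⟩⟩
      rw [h, ext_tmul]
    exact trace_dvd (ℚ ⊗[ℤ] L₀) Λ hfg hspan _ N hdiv
  -- the traces are integers
  have hint : ∀ c : Fin r → ℤ, ∃ n : ℤ, LinearMap.trace ℚ (ℚ ⊗[ℤ] L₀) (m • τ c) = n := by
    intro c
    obtain ⟨n, hn⟩ := key0 L₀ L₁ E (AddMonoidHom.id _) (AddMonoidHom.id _) (fun _ _ => rfl)
      ⟨1, one_pos, fun α hα => by rw [one_nsmul]; exact hα⟩ hinj hsur 1 one_pos c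
      (fun α' => ⟨E c α', (one_nsmul _).symm⟩)
    exact ⟨n, by rw [hn, Nat.cast_one, one_mul]⟩
  choose T hT using hint
  refine ⟨AddMonoidHom.mk' T ?_, ?_, ?_⟩
  · intro c d
    have h1 : ((T (c + d) : ℤ) : ℚ) = ((T c + T d : ℤ) : ℚ) := by
      rw [Int.cast_add, ← hT, ← hT, ← hT, map_add, smul_add, map_add]
    exact_mod_cast h1
  · change T x₀ = _
    have h1 : ((T x₀ : ℤ) : ℚ) = ((m * rk L₀ : ℤ) : ℚ) := by
      rw [← hT, hτ0, map_nsmul, LinearMap.trace_id]
      push_cast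
      rw [nsmul_eq_mul]
      rfl
    exact_mod_cast h1
  · intro L₀' L₁' _ _ _ E' ι₀ ι₁ hcomm hker hinj' hsur' N hN c hc
    obtain ⟨n, hn⟩ := key0 L₀' L₁' E' ι₀ ι₁ hcomm hker hinj' hsur' N hN c hc
    change (N : ℤ) ∣ T c
    refine ⟨n, ?_⟩
    rw [hT] at hn
    exact_mod_cast hn

end LatticeBound

end Pool.MP0c3001
end

section

/-!
# LA1: a monic integral polynomial whose roots modulo almost all primes `l` lie in `F_l` has an integral root

Let `L` be the splitting field of `f` over `ℚ` (`Polynomial.SplittingField`, a number field, Galois over `ℚ`) and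
`Θ ⊂ L` the finite set of roots of `f`; they are integral (`f` monic), i.e. in `𝓞 L`.
Let `B` be the set of the primes `q` of `𝓞 ℚ` with `q ∋ m` or which lie under a prime of `L` containing some
`θ - θ' ≠ 0`, `θ, θ' ∈ Θ`; it is finite (a non-zero element of `𝓞 L` lies in finitely many primes,
`Ideal.finite_factors`; likewise `m ≠ 0` in `𝓞 ℚ`).
Suppose `(⊥ : IntermediateField ℚ L) ≠ ⊤`.  `exists_frob` (Frob2.lean, `K = ℚ`, `F = ⊥`): there are a prime `P` of `L` with
`q = und ℚ P ∉ B` and `σ ≠ 1` with `σ x ≡ x ^ (pn q) (mod P)` for all `x ∈ 𝓞 L` (`IsFrob`).  `pn q = l` is a prime number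
(`𝓞 ℚ = ℤ`, absolute norm of a prime ideal of `ℤ`; e.g. `𝓞 ℚ ⧸ q` is a finite field in which every element is the
image of an integer), `l ∈ P`, `l ∤ m`.  By hypothesis `f mod l` divides `(X ^ l - X) ^ M`; evaluate at `θ` modulo `P`:
`(θ ^ l - θ) ^ M ∈ P`, so `σ θ ≡ θ ^ l ≡ θ (mod P)`.  `σ θ ∈ Θ` and `q ∉ B`, so `σ θ = θ`.  So `σ` fixes all roots, `σ = 1`
(`L` is generated by the roots), contradiction.
So `⊥ = ⊤`, i.e. every element of `L` is rational; `f` has a root in `L` (degree `≥ 1`, it splits), which is rational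
and integral, so it is an integer (`IsIntegrallyClosed`, `isInteger_of_is_root_of_monic`).
-/

set_option autoImplicit false

namespace Pool.MP0c3001.DV

open Polynomial

open NumberField IsDedekindDomain Pool.Agent.ST in
private lemma la1_fin {K : Type*} [Field K] [NumberField K] (x : 𝓞 K) (hx : x ≠ 0) :
    {P : PrI K | x ∈ P.asIdeal}.Finite := by
  have h0 : Ideal.span {x} ≠ ⊥ := by
    simpa using hx
  refine (Ideal.finite_factors h0).subset ?_
  intro P hP
  have hP' : x ∈ P.asIdeal := hP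
  exact (Ideal.dvd_span_singleton).2 hP'

open NumberField IsDedekindDomain Pool.Agent.ST in
private lemma la1_prime (q : PrI ℚ) : (pn q).Prime := by
  have hsurj : Function.Surjective (Int.castRingHom (𝓞 ℚ)) := by
    intro x
    refine ⟨Rat.ringOfIntegersEquiv x, ?_⟩
    apply Rat.ringOfIntegersEquiv.injective
    simp
  have hfin : Finite (𝓞 ℚ ⧸ q.asIdeal) := Ideal.finiteQuotientOfFreeOfNeBot q.asIdeal q.ne_bot
  have : q.asIdeal.IsMaximal := q.isMaximal
  let _ : Field (𝓞 ℚ ⧸ q.asIdeal) := Ideal.Quotient.field q.asIdeal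
  obtain ⟨l, hl⟩ := CharP.exists (𝓞 ℚ ⧸ q.asIdeal)
  have hl0 : l ≠ 0 := CharP.char_ne_zero_of_finite (𝓞 ℚ ⧸ q.asIdeal) l
  have hlp : l.Prime := (CharP.char_is_prime_or_zero (𝓞 ℚ ⧸ q.asIdeal) l).resolve_right hl0
  have hbij : Function.Bijective (ZMod.castHom (dvd_refl l) (𝓞 ℚ ⧸ q.asIdeal)) := by
    refine ⟨ZMod.castHom_injective _, ?_⟩
    intro y
    obtain ⟨x, rfl⟩ := Ideal.Quotient.mk_surjective y
    obtain ⟨n, rfl⟩ := hsurj x
    refine ⟨(n : ZMod l), ?_⟩
    simp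
  have hcard : pn q = Nat.card (𝓞 ℚ ⧸ q.asIdeal) := by
    unfold pn
    rw [Ideal.absNorm_apply, Submodule.cardQuot_apply]
  rw [hcard, ← Nat.card_eq_of_bijective _ hbij, Nat.card_zmod]
  exact hlp

open NumberField IsDedekindDomain Pool.Agent.ST in
private lemma la1_pow {L : Type*} [Field L] [NumberField L] (f : ℤ[X]) (P : PrI L) (l : ℕ) (hl : l.Prime)
    (hlP : (l : 𝓞 L) ∈ P.asIdeal) (M : ℕ)
    (h : f.map (Int.castRingHom (ZMod l)) ∣ (X ^ l - X : (ZMod l)[X]) ^ M) (θ : 𝓞 L)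
    (hθ : f.eval₂ (Int.castRingHom (𝓞 L)) θ = 0) : θ ^ l - θ ∈ P.asIdeal := by
  have hz : ((l : ℕ) : 𝓞 L ⧸ P.asIdeal) = 0 := by
    have := (Ideal.Quotient.eq_zero_iff_mem (I := P.asIdeal)).2 hlP
    simpa using this
  have : P.asIdeal.IsPrime := P.isPrime
  have : CharP (𝓞 L ⧸ P.asIdeal) l := (CharP.charP_iff_prime_eq_zero hl).2 hz
  set φ : ZMod l →+* 𝓞 L ⧸ P.asIdeal := ZMod.castHom (dvd_refl l) (𝓞 L ⧸ P.asIdeal) with hφ
  set π := Ideal.Quotient.mk P.asIdeal with hπ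
  have h1 : (f.map (Int.castRingHom (ZMod l))).eval₂ φ (π θ) = 0 := by
    rw [Polynomial.eval₂_map]
    have e : φ.comp (Int.castRingHom (ZMod l)) = π.comp (Int.castRingHom (𝓞 L)) := RingHom.ext_int _ _
    rw [e, ← Polynomial.hom_eval₂, hθ, map_zero]
  obtain ⟨g, hg⟩ := h
  have h2 : ((X ^ l - X : (ZMod l)[X]) ^ M).eval₂ φ (π θ) = 0 := by
    rw [hg, Polynomial.eval₂_mul, h1, zero_mul]
  rw [Polynomial.eval₂_pow, Polynomial.eval₂_sub, Polynomial.eval₂_pow, Polynomial.eval₂_X] at h2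
  have h3 := eq_zero_of_pow_eq_zero h2
  rw [← Ideal.Quotient.eq_zero_iff_mem, map_sub, map_pow]
  exact h3

open NumberField IsDedekindDomain Pool.Agent.ST in
private lemma la1_bot {L : Type*} [Field L] [NumberField L] [Algebra ℚ L] [IsGalois ℚ L] (f : ℤ[X]) (hf : f.Monic)
    (m : ℕ) (hm : 0 < m)
    (h : ∀ l : ℕ, l.Prime → ¬ l ∣ m → ∃ M : ℕ,
      f.map (Int.castRingHom (ZMod l)) ∣ (X ^ l - X : (ZMod l)[X]) ^ M)
    (hgen : ∀ σ : L ≃ₐ[ℚ] L, (∀ θ : 𝓞 L, f.eval₂ (Int.castRingHom (𝓞 L)) θ = 0 → σ • θ = θ) → σ = 1) :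
    (⊥ : IntermediateField ℚ L) = ⊤ := by
  classical
  by_contra hne
  set Θ : Finset (𝓞 L) := (f.map (Int.castRingHom (𝓞 L))).roots.toFinset with hΘ
  have hmon : (f.map (Int.castRingHom (𝓞 L))).Monic := hf.map _
  have hmem : ∀ θ : 𝓞 L, θ ∈ Θ ↔ f.eval₂ (Int.castRingHom (𝓞 L)) θ = 0 := by
    intro θ
    rw [hΘ, Multiset.mem_toFinset, Polynomial.mem_roots hmon.ne_zero, Polynomial.IsRoot.def,
      Polynomial.eval_map]
  set B : Set (PrI ℚ) := {q : PrI ℚ | (m : 𝓞 ℚ) ∈ q.asIdeal} ∪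
    und ℚ '' (⋃ p ∈ (Θ ×ˢ Θ).filter (fun p => p.1 - p.2 ≠ 0), {P : PrI L | p.1 - p.2 ∈ P.asIdeal}) with hB
  have hBfin : B.Finite := by
    refine Set.Finite.union (la1_fin _ ?_) (Set.Finite.image _ ?_)
    · exact_mod_cast hm.ne'
    · refine Set.Finite.biUnion (Finset.finite_toSet _) ?_
      intro p hp
      exact la1_fin _ (Finset.mem_filter.1 hp).2
  obtain ⟨P, hPB, -, σ, hσ, -, hσ1⟩ := exists_frob (⊥ : IntermediateField ℚ L) hne B hBfin
  apply hσ1
  apply hgen
  intro θ hθ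
  have hlp : (pn (und ℚ P)).Prime := la1_prime _
  have hlm : ((pn (und ℚ P) : ℕ) : 𝓞 ℚ) ∈ (und ℚ P).asIdeal := Ideal.absNorm_mem _
  have hlP : ((pn (und ℚ P) : ℕ) : 𝓞 L) ∈ P.asIdeal := by
    have h1 : algebraMap (𝓞 ℚ) (𝓞 L) ((pn (und ℚ P) : ℕ) : 𝓞 ℚ) ∈ P.asIdeal := hlm
    simpa using h1
  have hnd : ¬ pn (und ℚ P) ∣ m := by
    rintro ⟨c, hc⟩
    apply hPB
    left
    change (m : 𝓞 ℚ) ∈ (und ℚ P).asIdeal
    rw [hc, Nat.cast_mul]
    exact Ideal.mul_mem_right _ _ hlm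
  obtain ⟨M, hM⟩ := h _ hlp hnd
  have h1 : θ ^ pn (und ℚ P) - θ ∈ P.asIdeal := la1_pow f P _ hlp hlP M hM θ hθ
  have h2 : σ • θ - θ ∈ P.asIdeal := by
    have h3 := P.asIdeal.add_mem (hσ θ) h1
    rwa [sub_add_sub_cancel] at h3
  by_contra hne2
  apply hPB
  right
  refine ⟨P, ?_, rfl⟩
  have h3 : σ • θ ∈ Θ := by
    rw [hmem]
    have h4 : MulSemiringAction.toRingHom (L ≃ₐ[ℚ] L) (𝓞 L) σ
        (f.eval₂ (Int.castRingHom (𝓞 L)) θ) = 0 := by rw [hθ, map_zero]
    rw [Polynomial.hom_eval₂] at h4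
    have e : (MulSemiringAction.toRingHom (L ≃ₐ[ℚ] L) (𝓞 L) σ).comp (Int.castRingHom (𝓞 L)) =
      Int.castRingHom (𝓞 L) := RingHom.ext_int _ _
    rw [e] at h4
    exact h4
  refine Set.mem_biUnion (x := (σ • θ, θ)) ?_ h2
  refine Finset.mem_coe.2 (Finset.mem_filter.2 ⟨Finset.mem_product.2 ⟨h3, (hmem θ).2 hθ⟩, ?_⟩)
  exact sub_ne_zero.2 hne2

private lemma la1_mid {L : Type*} [Field L] [Algebra ℚ L] (f : ℤ[X]) (hf : f.Monic) (hd : 1 ≤ f.natDegree)
    (m : ℕ) (hm : 0 < m)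
    (h : ∀ l : ℕ, l.Prime → ¬ l ∣ m → ∃ M : ℕ,
      f.map (Int.castRingHom (ZMod l)) ∣ (X ^ l - X : (ZMod l)[X]) ^ M)
    [hsp : IsSplittingField ℚ L (f.map (Int.castRingHom ℚ))] : ∃ a : ℤ, f.eval a = 0 := by
  obtain ⟨g, hg⟩ : ∃ g : ℚ[X], g = f.map (Int.castRingHom ℚ) := ⟨_, rfl⟩
  rw [← hg] at hsp
  have hgm : g.Monic := by rw [hg]; exact hf.map _
  have hfd : Module.Finite ℚ L := Polynomial.IsSplittingField.finiteDimensional L g
  have hnf : NumberField L := NumberField.of_module_finite ℚ L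
  have hn : Normal ℚ L := Normal.of_isSplittingField g
  have hgal : IsGalois ℚ L := ⟨⟩
  have hbot : (⊥ : IntermediateField ℚ L) = ⊤ := la1_bot (L := L) f hf m hm h (by
    intro σ hσ
    have h1 : (σ : L →ₐ[ℚ] L) = AlgHom.id ℚ L := by
      apply AlgHom.ext_of_adjoin_eq_top (Polynomial.IsSplittingField.adjoin_rootSet L g)
      intro θ hθ
      have hθ1 : f.eval₂ (Int.castRingHom L) θ = 0 := by
        have h2 := (Polynomial.mem_rootSet.1 hθ).2
        rw [hg, Polynomial.aeval_def, Polynomial.eval₂_map] at h2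
        rw [← h2]
        congr 1
        exact RingHom.ext_int _ _
      have hint : IsIntegral ℤ θ := ⟨f, hf, by rw [← hθ1]; congr 1⟩
      have h3 := hσ ⟨θ, hint⟩ (by
        apply NumberField.RingOfIntegers.coe_injective
        rw [Polynomial.hom_eval₂, map_zero, ← hθ1]
        congr 1)
      have h4 := congrArg (algebraMap (NumberField.RingOfIntegers L) L) h3
      exact h4
    ext x
    exact DFunLike.congr_fun h1 x)
  have hdeg : (g.map (algebraMap ℚ L)).degree ≠ 0 := by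
    rw [Polynomial.degree_map, hg, hf.degree_map]
    intro h0
    rw [Polynomial.degree_eq_natDegree hf.ne_zero] at h0
    have : f.natDegree = 0 := by exact_mod_cast h0
    omega
  obtain ⟨θ, hθ⟩ := (Polynomial.IsSplittingField.splits L g).exists_eval_eq_zero hdeg
  have hθ2 : θ ∈ (⊥ : IntermediateField ℚ L) := by rw [hbot]; trivial
  obtain ⟨r, rfl⟩ := IntermediateField.mem_bot.1 hθ2
  rw [Polynomial.eval_map, Polynomial.eval₂_at_apply] at hθ
  have hr : g.eval r = 0 := by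
    apply (algebraMap ℚ L).injective
    rw [hθ, map_zero]
  have hr2 : aeval r f = 0 := by
    rw [hg, Polynomial.eval_map] at hr
    exact hr
  obtain ⟨a, ha⟩ := isInteger_of_is_root_of_monic hf hr2
  refine ⟨a, ?_⟩
  apply (algebraMap ℤ ℚ).injective_int
  rw [map_zero, ← Polynomial.eval₂_at_apply, ha]
  exact hr2

theorem int_root (f : ℤ[X]) (hf : f.Monic) (hd : 1 ≤ f.natDegree) (m : ℕ) (hm : 0 < m)
    (h : ∀ l : ℕ, l.Prime → ¬ l ∣ m → ∃ M : ℕ,
      f.map (Int.castRingHom (ZMod l)) ∣ (X ^ l - X : (ZMod l)[X]) ^ M) :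
    ∃ a : ℤ, f.eval a = 0 :=
  @la1_mid (f.map (Int.castRingHom ℚ)).SplittingField _ _ f hf hd m hm h
    (IsSplittingField.splittingField (f.map (Int.castRingHom ℚ)))

end Pool.MP0c3001.DV
end

section

/-!
# LA2: an endomorphism of a lattice which is almost diagonalizable modulo all primes has an integral eigenvalue

`T` is free of finite rank (`Module.free_of_finite_type_torsion_free'`), `f = charpoly φ ∈ ℤ[X]` is monic of degree
`finrank T ≥ 1`.  Let `l ∤ m` be a prime.  Reduce modulo `l`: `A` the matrix of `φ` in a basis, `Ā` over `ZMod l`;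
`(Ā ^ l - Ā) ^ N = 0`, so the minimal polynomial of `Ā` divides `(X ^ l - X) ^ N` and its characteristic polynomial
divides `(minpoly) ^ D` (`D = finrank`; Mathlib: e.g. `Matrix.charpoly_dvd_..`/`LinearMap.charpoly` and `minpoly` have the
same irreducible factors; or directly: over an algebraic closure every eigenvalue `λ` of `Ā` satisfies
`(λ ^ l - λ) ^ N = 0`, so all roots of `f mod l` are roots of `X ^ l - X`, and `f mod l` splits into linear factors
`X - c` with `c ∈ ZMod l`, each dividing `X ^ l - X`; `FiniteField.X_pow_card_sub_X..`).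
`charpoly` commutes with reduction (`Matrix.charpoly_map`).  `int_root`: `f` has a root `a ∈ ℤ`, `det (φ - a) = 0` up to sign
(`Matrix.eval_charpoly`/`charpoly` evaluated at `a`), so there is `t ≠ 0` with `(φ - a) t = 0`
(`Matrix.exists_mulVec_eq_zero_iff`).
-/

set_option autoImplicit false

namespace Pool.MP0c3001.DV

open Polynomial in
private theorem la2_prod {K : Type} [Field K] (q : K[X]) (s : Multiset K)
    (h : ∀ a ∈ s, X - C a ∣ q) :
    (s.map fun a => X - C a).prod ∣ q ^ Multiset.card s := by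
  induction s using Multiset.induction_on with
  | empty => simp
  | cons a s ih =>
    rw [Multiset.map_cons, Multiset.prod_cons, Multiset.card_cons, pow_succ']
    exact mul_dvd_mul (h a (Multiset.mem_cons_self a s))
      (ih fun b hb => h b (Multiset.mem_cons_of_mem hb))

open Polynomial in
private theorem la2_poly {F : Type} [Field F] {n : Type} [Fintype n] [DecidableEq n]
    (A : Matrix n n F) (l N : ℕ) (h : (A ^ l - A) ^ N = 0) :
    ∃ M : ℕ, A.charpoly ∣ (X ^ l - X : F[X]) ^ M := by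
  let K := AlgebraicClosure F
  let ρ : F →+* K := algebraMap F K
  let B : Matrix n n K := A.map ρ
  have hB : (B ^ l - B) ^ N = 0 := by
    have h1 := congrArg ρ.mapMatrix h
    rw [map_pow, map_sub, map_pow, map_zero] at h1
    exact h1
  have hroot : ∀ a ∈ B.charpoly.roots, X - C a ∣ (X ^ l - X : K[X]) := by
    intro a ha
    rw [dvd_iff_isRoot]
    have h1 : B.charpoly.eval a = 0 := (mem_roots'.1 ha).2
    rw [Matrix.eval_charpoly] at h1
    obtain ⟨v, hv, hvz⟩ := Matrix.exists_mulVec_eq_zero_iff.2 h1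
    have hBv : B.mulVec v = a • v := by
      rw [Matrix.sub_mulVec, sub_eq_zero] at hvz
      rw [← hvz]
      funext i
      simp [Matrix.scalar_apply, Matrix.mulVec_diagonal]
    have hpow : ∀ j : ℕ, (B ^ j).mulVec v = a ^ j • v := by
      intro j
      induction j with
      | zero => simp
      | succ j ih =>
        rw [pow_succ, ← Matrix.mulVec_mulVec, hBv, Matrix.mulVec_smul, ih, smul_smul, pow_succ,
          mul_comm]
    have hC : (B ^ l - B).mulVec v = (a ^ l - a) • v := by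
      rw [Matrix.sub_mulVec, hpow, hBv, sub_smul]
    have hCN : ∀ j : ℕ, ((B ^ l - B) ^ j).mulVec v = (a ^ l - a) ^ j • v := by
      intro j
      induction j with
      | zero => simp
      | succ j ih =>
        rw [pow_succ, ← Matrix.mulVec_mulVec, hC, Matrix.mulVec_smul, ih, smul_smul, pow_succ,
          mul_comm]
    have h2 := hCN N
    rw [hB, Matrix.zero_mulVec] at h2
    have h3 : (a ^ l - a) ^ N = 0 := by
      rcases smul_eq_zero.1 h2.symm with h4 | h4
      · exact h4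
      · exact absurd h4 hv
    have h4 : a ^ l - a = 0 := by
      rcases Nat.eq_zero_or_pos N with h5 | h5
      · subst h5
        rw [pow_zero] at h3
        exact absurd h3 one_ne_zero
      · exact pow_eq_zero_iff (by omega) |>.1 h3
    rw [IsRoot, eval_sub, eval_pow, eval_X, h4]
  have hsp : B.charpoly = (B.charpoly.roots.map fun a => X - C a).prod :=
    (IsAlgClosed.splits B.charpoly).eq_prod_roots_of_monic (Matrix.charpoly_monic B)
  refine ⟨Multiset.card B.charpoly.roots, ?_⟩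
  rw [← map_dvd_map' ρ]
  have h6 : A.charpoly.map ρ = B.charpoly := (Matrix.charpoly_map A ρ).symm
  have h7 : ((X ^ l - X : F[X]) ^ Multiset.card B.charpoly.roots).map ρ =
      (X ^ l - X : K[X]) ^ Multiset.card B.charpoly.roots := by
    simp
  rw [h6, h7]
  conv_lhs => rw [hsp]
  exact la2_prod _ _ hroot

theorem la_end {T : Type} [AddCommGroup T] [Module.Finite ℤ T] [Nontrivial T]
    (htf : ∀ (n : ℕ) (t : T), 0 < n → n • t = 0 → t = 0) (φ : Module.End ℤ T) (m N : ℕ)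
    (hm : 0 < m)
    (h : ∀ l : ℕ, l.Prime → ¬ l ∣ m → ∀ t : T, ∃ t' : T, ((φ ^ l - φ) ^ N) t = l • t') :
    ∃ (a : ℤ) (t : T), t ≠ 0 ∧ φ t = a • t := by
  have htor : Module.IsTorsionFree ℤ T := by
    refine Module.IsTorsionFree.of_smul_eq_zero fun r t hrt => ?_
    by_cases hr : r = 0
    · exact Or.inl hr
    · right
      have hn : 0 < r.natAbs := Int.natAbs_pos.2 hr
      apply htf r.natAbs t hn
      rcases Int.natAbs_eq r with h1 | h1
      · rw [h1] at hrt
        rw [natCast_zsmul] at hrt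
        exact hrt
      · rw [h1, neg_smul, neg_eq_zero, natCast_zsmul] at hrt
        exact hrt
  have hfree : Module.Free ℤ T := Module.free_of_finite_type_torsion_free'
  let b := Module.Free.chooseBasis ℤ T
  let A := LinearMap.toMatrixAlgEquiv b φ
  have hA : A.charpoly = φ.charpoly := LinearMap.charpoly_toMatrix φ b
  have hdeg : 1 ≤ φ.charpoly.natDegree := by
    rw [LinearMap.charpoly_natDegree]
    exact Module.finrank_pos
  obtain ⟨a, ha⟩ := int_root φ.charpoly φ.charpoly_monic hdeg m hm (by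
    intro l hl hlm
    have hfact : Fact l.Prime := ⟨hl⟩
    let ρ : ℤ →+* ZMod l := Int.castRingHom (ZMod l)
    have hz : ((A.map ρ) ^ l - A.map ρ) ^ N = 0 := by
      have h1 : ((A.map ρ) ^ l - A.map ρ) ^ N = ρ.mapMatrix ((A ^ l - A) ^ N) := by
        rw [map_pow, map_sub, map_pow]
        rfl
      have h2 : (A ^ l - A) ^ N = LinearMap.toMatrixAlgEquiv b ((φ ^ l - φ) ^ N) := by
        rw [map_pow, map_sub, map_pow]
      rw [h1, h2]
      ext i j
      rw [RingHom.mapMatrix_apply, Matrix.map_apply, LinearMap.toMatrixAlgEquiv_apply]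
      obtain ⟨t', ht'⟩ := h l hl hlm (b j)
      rw [ht', map_nsmul, Finsupp.smul_apply, map_nsmul, nsmul_eq_mul, ZMod.natCast_self,
        zero_mul]
      rfl
    obtain ⟨M, hM⟩ := la2_poly (A.map ρ) l N hz
    refine ⟨M, ?_⟩
    rw [← hA, ← Matrix.charpoly_map]
    exact hM)
  rw [← hA, Matrix.eval_charpoly] at ha
  obtain ⟨v, hv, hvz⟩ := Matrix.exists_mulVec_eq_zero_iff.2 ha
  have hAv : A.mulVec v = a • v := by
    rw [Matrix.sub_mulVec, sub_eq_zero] at hvz
    rw [← hvz]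
    funext i
    simp [Matrix.scalar_apply, Matrix.mulVec_diagonal]
  refine ⟨a, b.equivFun.symm v, ?_, ?_⟩
  · intro h0
    apply hv
    rw [← b.equivFun.apply_symm_apply v, h0, map_zero]
  · apply b.equivFun.injective
    rw [map_smul, b.equivFun.apply_symm_apply]
    have h1 := LinearMap.toMatrix_mulVec_repr b b φ (b.equivFun.symm v)
    have h2 : ⇑(b.repr (b.equivFun.symm v)) = v := b.equivFun.apply_symm_apply v
    rw [h2] at h1
    rw [← hAv]
    exact h1.symm

end Pool.MP0c3001.DV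
end

section

/-!
# LA3t: the linear algebra of section 6.4, torsion free case

Suppose `(X ^ j) α₀ ≠ 0` for all `j`.  `hprim 1 0` gives `m, i₀`: for `i ≥ i₀`, `X` is injective on `A i` and
`m • A (i+1) ⊂ X (A i)`.  Fix `i = max i₀ i₁`; `T = A i` is finitely generated, torsion free and contains
`(X ^ (i - i₁)) α₀ ≠ 0` (`hX`).  For `x ∈ A i` there is a unique `φ x ∈ A i` with `X (φ x) = m • Y x` (`hY`); `φ` is linear by
uniqueness.  `la_modl` gives the hypothesis of `la_end` (with `m * m₀`): there are `a : ℤ` and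
`x ∈ A i`, `x ≠ 0`, `φ x = a • x`.  So `m • Y x = a • X x`.  Let `g = gcd (a, m) > 0`, `a = g a'`, `m = g b'`, `IsCoprime a' b'`,
so `IsCoprime (-a') b'`; `E = (-a') • X + b' • Y`, `g • E x = 0`, `E x = 0` (torsion free).  `hprim (-a') b'` gives `m', i₀'`; take
`j` with `i + j ≥ i₀'`: `E (X ^ j x) = X ^ j (E x) = 0`, so `X ^ j x = 0`, and `x = 0` by the injectivity of `X` on the
`A (i + j')`: contradiction.
-/

set_option autoImplicit false

namespace Pool.MP0c3001.DV

theorem lin_alg_tf {M : Type} [AddCommGroup M]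
    (htf : ∀ (n : ℕ) (x : M), 0 < n → n • x = 0 → x = 0)
    (X Y : Module.End ℤ M) (hXY : Commute X Y)
    (A : ℕ → Submodule ℤ M) (hfin : ∀ i, (A i).FG) (hX : ∀ i, ∀ x ∈ A i, X x ∈ A (i + 1))
    (hY : ∀ i, ∀ x ∈ A i, Y x ∈ A (i + 1))
    (hprim : ∀ a b : ℤ, IsCoprime a b → ∃ m i₀ : ℕ, 0 < m ∧ ∀ i, i₀ ≤ i →
      (∀ x ∈ A i, (a • X + b • Y) x = 0 → x = 0) ∧
      ∀ y ∈ A (i + 1), ∃ x ∈ A i, (a • X + b • Y) x = m • y)
    (N m₀ : ℕ) (hm₀ : 0 < m₀)
    (hnu : ∀ l : ℕ, l.Prime → ¬ l ∣ m₀ → ∀ i, ∀ x ∈ A i, ∃ y ∈ A (i + l * N),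
      ((Y ^ l - Y * X ^ (l - 1)) ^ N) x = l • y)
    (i₁ : ℕ) (α₀ : M) (hα₀ : α₀ ∈ A i₁) : ∃ j : ℕ, (X ^ j) α₀ = 0 := by
  by_contra hcon
  push Not at hcon
  obtain ⟨m, i₀, hm, h10⟩ := hprim 1 0 isCoprime_one_left
  have hE10 : ((1 : ℤ) • X + (0 : ℤ) • Y) = X := by rw [one_smul, zero_smul, add_zero]
  rw [hE10] at h10
  have hinj : ∀ j, i₀ ≤ j → ∀ x ∈ A j, X x = 0 → x = 0 := fun j hj => (h10 j hj).1
  have hsurj : ∀ j, i₀ ≤ j → ∀ y ∈ A (j + 1), ∃ x ∈ A j, X x = m • y := fun j hj => (h10 j hj).2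
  have hXpow : ∀ (n j : ℕ) (x : M), x ∈ A j → (X ^ n) x ∈ A (j + n) := by
    intro n
    induction n with
    | zero => intro j x hx; simpa using hx
    | succ n ih =>
      intro j x hx
      rw [pow_succ', Module.End.mul_apply, ← add_assoc]
      exact hX _ _ (ih j x hx)
  obtain ⟨i, hi⟩ : ∃ i, i = max i₀ i₁ := ⟨_, rfl⟩
  have hi0 : i₀ ≤ i := by rw [hi]; exact le_max_left _ _
  have hi1 : i₁ ≤ i := by rw [hi]; exact le_max_right _ _
  have hXinj : ∀ (n : ℕ) (x : M), x ∈ A i → (X ^ n) x = 0 → x = 0 := by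
    intro n
    induction n with
    | zero => intro x _ h; simpa using h
    | succ n ih =>
      intro x hx h
      rw [pow_succ', Module.End.mul_apply] at h
      exact ih x hx (hinj (i + n) (by omega) _ (hXpow n i x hx) h)
  have : Module.Finite ℤ (A i) := Module.Finite.iff_fg.2 (hfin i)
  have : Nontrivial (A i) := by
    have h1 : (X ^ (i - i₁)) α₀ ∈ A i := by
      have := hXpow (i - i₁) i₁ α₀ hα₀
      rwa [Nat.add_sub_cancel' hi1] at this
    refine ⟨⟨⟨_, h1⟩, 0, fun h => hcon (i - i₁) ?_⟩⟩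
    exact congrArg Subtype.val h
  have hex : ∀ x : A i, ∃ z : A i, X (z : M) = m • Y (x : M) := by
    intro x
    obtain ⟨z, hz, hz2⟩ := hsurj i hi0 (Y x) (hY i x x.2)
    exact ⟨⟨z, hz⟩, hz2⟩
  choose f hf using hex
  have huniq : ∀ a b : A i, X (a : M) = X (b : M) → a = b := by
    intro a b hab
    have h1 : ((a - b : A i) : M) = 0 := by
      apply hinj i hi0 _ (a - b).2
      rw [Submodule.coe_sub, map_sub, hab, sub_self]
    have h2 : a - b = 0 := Subtype.ext h1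
    exact sub_eq_zero.1 h2
  obtain ⟨φ, hφ0⟩ : ∃ φ : Module.End ℤ (A i), ∀ x, φ x = f x := by
    refine ⟨{ toFun := f, map_add' := ?_, map_smul' := ?_ }, fun x => rfl⟩
    · intro x y
      apply huniq
      rw [hf, Submodule.coe_add, Submodule.coe_add, map_add, map_add, hf, hf, smul_add]
    · intro c x
      apply huniq
      rw [hf, Submodule.coe_smul, RingHom.id_apply, Submodule.coe_smul, map_smul, map_smul, hf,
        smul_comm]
  have hφ : ∀ x : A i, X (φ x : M) = m • Y (x : M) := fun x => by rw [hφ0, hf]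
  have hmod : ∀ l : ℕ, l.Prime → ¬ l ∣ m * m₀ → ∀ t : A i, ∃ t' : A i,
      ((φ ^ l - φ) ^ N) t = l • t' := by
    intro l hl hlm t
    have h1 : ¬ l ∣ m := fun h => hlm (Dvd.dvd.mul_right h _)
    have h2 : ¬ l ∣ m₀ := fun h => hlm (Dvd.dvd.mul_left h _)
    exact la_modl X Y hXY A hX i m φ hφ (fun j hj => hinj j (hi0.trans hj))
      (fun j hj => hsurj j (hi0.trans hj)) l hl h1 N (hnu l hl h2 i) t
  obtain ⟨a, t, ht0, hta⟩ := la_end (T := A i) (fun n t hn h => by
    apply Subtype.ext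
    apply htf n _ hn
    have := congrArg Subtype.val h
    simpa using this) φ (m * m₀) N (Nat.mul_pos hm hm₀) hmod
  have haXY : a • X (t : M) = m • Y (t : M) := by
    rw [← hφ t, hta, Submodule.coe_smul, map_smul]
  have hgpos : 0 < Int.gcd a (m : ℤ) := Int.gcd_pos_of_ne_zero_right _ (by exact_mod_cast hm.ne')
  obtain ⟨g, a', b', hg, hcop, ha, hb⟩ := Int.exists_gcd_one' hgpos
  have hcop' : IsCoprime (-a') b' := (Int.isCoprime_iff_gcd_eq_one.2 hcop).neg_left
  have hEt : ((-a') • X + b' • Y) (t : M) = 0 := by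
    apply htf g _ hg
    have h1 : (g : ℤ) • (((-a') • X + b' • Y) (t : M)) = -(a • X (t : M)) + (m : ℤ) • Y (t : M) := by
      rw [LinearMap.add_apply, LinearMap.smul_apply, LinearMap.smul_apply, smul_add, smul_smul,
        smul_smul, ha, hb, ← neg_smul]
      congr 2
      · ring
      · ring
    rw [natCast_zsmul, natCast_zsmul] at h1
    rw [h1, haXY, neg_add_cancel]
  obtain ⟨m', i₀', hm', h'⟩ := hprim (-a') b' hcop'
  have h3 : (X ^ i₀') (t : M) = 0 := by
    apply (h' (i + i₀') (by omega)).1 _ (hXpow i₀' i t t.2)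
    have hc : Commute ((-a') • X + b' • Y) (X ^ i₀') :=
      (((Commute.refl X).smul_left _).add_left (hXY.symm.smul_left _)).pow_right _
    have h4 : (((-a') • X + b' • Y) * X ^ i₀') (t : M) = (X ^ i₀' * ((-a') • X + b' • Y)) (t : M) := by
      rw [hc.eq]
    rw [Module.End.mul_apply, Module.End.mul_apply, hEt, map_zero] at h4
    exact h4
  exact ht0 (Subtype.ext (hXinj i₀' t t.2 h3))

end Pool.MP0c3001.DV
end
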