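import Pool.Agent.Lib.MP_0c3001_gt.Mg.G004
import Pool.Agent.Lib.MP_0c3001_gt.Mg.G006
import Pool.Agent.Lib.MP_0c3001_gt.LA
import Pool.Agent.Lib.MP_0c3001_gt.Mg.G005

section

/-!
# The induction step
-/

set_option autoImplicit false

namespace Pool.MP0c3001

open CategoryTheory CategoryTheory.Abelian Limits

noncomputable section

variable {k : Type} [CommRing k] {G Q : Type} [Group G] [Group Q]

/-- The restriction of the class `e_c` to a finite index subgroup is divisible by `N` if the linear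
form `c` mod `N` extends to a homomorphism on the subgroup. -/
theorem ex_res_dvd (hk : Function.Bijective (Int.cast : ℤ → k)) (π : G →* Q)
    (hcen : π.ker ≤ Subgroup.center G) (s : Q → G) (hs : IsSec π s)
    {r : ℕ} (e : Additive π.ker ≃+ (Fin r → ℤ)) (K : Subgroup Q) (N : ℕ) (hN : 0 < N)
    (ψ : K.comap π →* Multiplicative (ZMod N)) (c : Fin r → ℤ)
    (hc : ∀ (a : G) (ha : a ∈ π.ker) (ha' : a ∈ K.comap π),
      (ψ ⟨a, ha'⟩).toAdd = ((chi e c (Additive.ofMul ⟨a, ha⟩) : ℤ) : ZMod N)) :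
    ∃ y : Ext.{0} (Zt k K) (Zt k K) 2,
      (ex k π s hs hcen e c).mapExactFunctor (Rep.resFunctor.{0} (k := k) K.subtype) = N • y := by
  obtain ⟨F, hF⟩ := exists_F π s hs K ψ
  let I := Ideal.span {(N : k)}
  have hNI : Ideal.Quotient.mk I (N : k) = 0 :=
    Ideal.Quotient.eq_zero_iff_mem.2 (Ideal.subset_span rfl)
  let f : ℤ →+ k ⧸ I := (Ideal.Quotient.mk I).toAddMonoidHom.comp (Int.castAddHom k)
  have hf : f N = 0 := by
    change Ideal.Quotient.mk I (((N : ℕ) : ℤ) : k) = 0
    rw [Int.cast_natCast]; exact hNI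
  let ρ : ZMod N →+ k ⧸ I := ZMod.lift N ⟨f, hf⟩
  have hρ : ∀ z : ℤ, ρ (z : ZMod N) = Ideal.Quotient.mk I (z : k) := by
    intro z
    exact ZMod.lift_coe N ⟨f, hf⟩ z
  refine res_cls_dvd N ?_ (isCoc_cxk k π s hs hcen e c) K (fun q => ρ (F q)) ?_
  · intro x hx
    obtain ⟨n, rfl⟩ := hk.2 x
    have h1 : (((N : ℤ) * n : ℤ) : k) = ((0 : ℤ) : k) := by
      rw [Int.cast_mul, Int.cast_natCast, hx, Int.cast_zero]
    have h2 := hk.1 h1
    have h3 : n = 0 := by
      rcases mul_eq_zero.1 h2 with h | h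
      · omega
      · exact h
    rw [h3, Int.cast_zero]
  · intro κ hκ q
    have h1 := hF κ hκ q
    rw [hc _ (fs π s hs κ q).2] at h1
    have h2 := congrArg ρ h1
    rw [map_add, map_add, map_add, hρ] at h2
    exact h2

variable (k)

/-- The bilinear map `E`. -/
def bigE (π : G →* Q) (hcen : π.ker ≤ Subgroup.center G) (s : Q → G) (hs : IsSec π s)
    {r : ℕ} (e : Additive π.ker ≃+ (Fin r → ℤ)) (V : Rep.{0} k Q) (i : ℕ) :
    (Fin r → ℤ) →+ HH k Q V i →+ HH k Q V (i + 2) :=
  AddMonoidHom.mk' (fun x => (ex k π s hs hcen e x).precomp V (show 2 + i = i + 2 by omega)) (by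
    intro x y
    apply AddMonoidHom.ext
    intro α
    have h2 : 2 + i = i + 2 := by omega
    change (ex k π s hs hcen e (x + y)).comp α h2 = (ex k π s hs hcen e x).comp α h2 +
      (ex k π s hs hcen e y).comp α h2
    rw [ex_add, Ext.add_comp])

lemma bigE_apply (π : G →* Q) (hcen : π.ker ≤ Subgroup.center G) (s : Q → G) (hs : IsSec π s)
    {r : ℕ} (e : Additive π.ker ≃+ (Fin r → ℤ)) (V : Rep.{0} k Q) (i : ℕ) (x : Fin r → ℤ)
    (α : HH k Q V i) : bigE k π hcen s hs e V i x α =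
      (ex k π s hs hcen e x).comp α (show 2 + i = i + 2 by omega) := rfl

variable {k}

/-- Case (B) of the step is impossible. -/
theorem torsion_of_residual (hk : Function.Bijective (Int.cast : ℤ → k)) (π : G →* Q)
    (hπ : Function.Surjective π) (hcen : π.ker ≤ Subgroup.center G)
    (hres : ∀ c ∈ π.ker, (∀ H : Subgroup G, H.FiniteIndex → c ∈ H) → c = 1)
    (s : Q → G) (hs : IsSec π s) {r : ℕ} (e : Additive π.ker ≃+ (Fin (r + 1) → ℤ))
    (hfg : FgCoh k Q) (i : ℕ)
    (hprim : ∀ x v : Fin (r + 1) → ℤ, ∑ j, x j * v j = 1 → ∃ m : ℕ, 0 < m ∧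
      (∀ (V : Rep.{0} k Q) (α : HH k Q V i),
        (ex k π s hs hcen e x).comp α (show 2 + i = i + 2 by omega) = 0 → m • α = 0) ∧
      (∀ (V : Rep.{0} k Q) (β : HH k Q V (i + 2)), ∃ α : HH k Q V i,
        (ex k π s hs hcen e x).comp α (show 2 + i = i + 2 by omega) = m • β))
    (α₀ : HH k Q (Zt k Q) i) : ∃ t : ℕ, 0 < t ∧ t • α₀ = 0 := by
  by_contra hα
  push Not at hα
  have hkfin : Module.Finite k k := inferInstance
  have hV0 : Module.Finite k (Zt k Q).V := hkfin
  have := hfg (Zt k Q) hV0 i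
  have := hfg (Zt k Q) hV0 (i + 2)
  have hx0 : ∑ j, (Pi.single 0 1 : Fin (r + 1) → ℤ) j * (Pi.single 0 1 : Fin (r + 1) → ℤ) j = 1 := by
    rw [Finset.sum_eq_single 0]
    · simp
    · intro b _ hb; simp [hb]
    · simp
  obtain ⟨m₀, hm₀, hinj₀, hsurj₀⟩ := hprim _ _ hx0
  obtain ⟨M, hM, hbound⟩ := LatticeBound.lattice_bound (r + 1) 0 (HH k Q (Zt k Q) i) (HH k Q (Zt k Q) (i + 2))
    (bigE k π hcen s hs e (Zt k Q) i) (by
      intro c hc
      obtain ⟨d, x, hd, rfl, v, hv⟩ := exists_primitive (r + 1) c hc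
      obtain ⟨m, hm, hinj, hsurj⟩ := hprim x v hv
      refine ⟨m * d, Nat.mul_pos hm hd, fun α hα => ?_, fun β => ?_⟩
      · rw [map_nsmul] at hα
        rw [mul_nsmul']
        apply hinj
        rw [comp_nsmul']
        exact hα
      · obtain ⟨α, hα⟩ := hsurj (Zt k Q) β
        refine ⟨α, ?_⟩
        rw [map_nsmul, mul_comm, mul_nsmul', ← hα]
        rfl)
    α₀ (fun t ht => hα t ht) m₀ hm₀
  -- characters of finite index subgroups
  have hchar : ∀ (K' : Subgroup G), K'.FiniteIndex → ∀ (hK' : π.ker ≤ K') (N : ℕ), 0 < N →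
      ∀ (ψ : K' →* Multiplicative (ZMod N)) (a : G) (ha : a ∈ π.ker), ψ ⟨a, hK' ha⟩ ^ M = 1 := by
    intro K' hKfin hK' N hN ψ a ha
    let K : Subgroup Q := K'.map π
    have hKK : K.comap π = K' := by
      rw [Subgroup.comap_map_eq, sup_eq_left.2 hK']
    have : K.FiniteIndex := by
      refine ⟨fun h0 => hKfin.index_ne_zero ?_⟩
      rw [← hKK, Subgroup.index_comap_of_surjective K hπ]
      exact h0
    have : NeZero N := ⟨hN.ne'⟩
    let ψ' : K.comap π →* Multiplicative (ZMod N) :=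
      ψ.comp (Subgroup.inclusion hKK.le)
    -- the vector `c`
    let aj : Fin (r + 1) → π.ker := fun j => (e.symm (Pi.single j 1)).toMul
    let c : Fin (r + 1) → ℤ := fun j => ((ψ ⟨(aj j).1, hK' (aj j).2⟩).toAdd.val : ℤ)
    have hcj : ∀ j, (c j : ZMod N) = (ψ ⟨(aj j).1, hK' (aj j).2⟩).toAdd := by
      intro j
      simp [c]
    -- comparison of `ψ` and `χ_c` on the kernel
    have hcmp : ∀ (a : G) (ha : a ∈ π.ker),
        (ψ ⟨a, hK' ha⟩).toAdd = ((chi e c (Additive.ofMul ⟨a, ha⟩) : ℤ) : ZMod N) := by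
      let f₁ : (Fin (r + 1) → ℤ) →+ ZMod N :=
        AddMonoidHom.mk' (fun w => (ψ ⟨((e.symm w).toMul).1, hK' ((e.symm w).toMul).2⟩).toAdd) (by
          intro w w'
          have h1 : e.symm (w + w') = e.symm w + e.symm w' := map_add _ _ _
          have h2 : (⟨((e.symm (w + w')).toMul).1, hK' ((e.symm (w + w')).toMul).2⟩ : K') =
            ⟨((e.symm w).toMul).1, hK' ((e.symm w).toMul).2⟩ *
            ⟨((e.symm w').toMul).1, hK' ((e.symm w').toMul).2⟩ := by
            apply Subtype.ext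
            change ((e.symm (w + w')).toMul).1 = _
            rw [h1]
            rfl
          rw [h2, map_mul]
          rfl)
      let f₂ : (Fin (r + 1) → ℤ) →+ ZMod N :=
        (Int.castAddHom (ZMod N)).comp ((chi e c).comp e.symm.toAddMonoidHom)
      have h12 : f₁ = f₂ := by
        apply AddMonoidHom.functions_ext'
        intro j
        apply AddMonoidHom.ext_int
        change (ψ ⟨(aj j).1, hK' (aj j).2⟩).toAdd = ((chi e c (e.symm (Pi.single j 1)) : ℤ) : ZMod N)
        have h3 : chi e c (e.symm (Pi.single j 1)) = c j := by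
          change ∑ l, c l * e (e.symm (Pi.single j 1)) l = c j
          rw [e.apply_symm_apply]
          simp [Pi.single_apply]
        rw [h3, hcj]
      intro a ha
      have h4 := DFunLike.congr_fun h12 (e (Additive.ofMul ⟨a, ha⟩))
      change (ψ ⟨((e.symm (e (Additive.ofMul ⟨a, ha⟩))).toMul).1, _⟩).toAdd =
        ((chi e c (e.symm (e (Additive.ofMul ⟨a, ha⟩))) : ℤ) : ZMod N) at h4
      have h5 : e.symm (e (Additive.ofMul (⟨a, ha⟩ : π.ker))) = Additive.ofMul ⟨a, ha⟩ :=
        e.symm_apply_apply _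
      rw [h5] at h4
      rw [← h4]
      congr 2
    obtain ⟨y, hy⟩ := ex_res_dvd hk π hcen s hs e K N hN ψ' c (fun a ha ha' => hcmp a ha)
    have : IsNoetherianRing k := by
      have e1 : ℤ ≃+* k := RingEquiv.ofBijective (Int.castRingHom k) hk
      exact isNoetherianRing_of_ringEquiv ℤ e1
    have hVfin := vk_finite (k := k) K
    have := hfg (VK k K) hVfin i
    obtain ⟨ι, hι⟩ := vk_inj (k := k) K
    have hdvd := hbound (HH k Q (VK k K) i) (HH k Q (VK k K) (i + 2))
      (bigE k π hcen s hs e (VK k K) i)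
      ((Ext.mk₀ ι).postcomp (Zt k Q) (add_zero i))
      ((Ext.mk₀ ι).postcomp (Zt k Q) (add_zero (i + 2)))
      (by
        intro c α
        have h2 : 2 + i = i + 2 := by omega
        change ((ex k π s hs hcen e c).comp α h2).comp (Ext.mk₀ ι) (add_zero (i + 2)) =
          (ex k π s hs hcen e c).comp (α.comp (Ext.mk₀ ι) (add_zero i)) h2
        exact Ext.comp_assoc (a₁₂ := i + 2) (a₂₃ := i) _ _ _ (by omega) (by omega) (by omega))
      ⟨K.index, Nat.pos_of_ne_zero (Subgroup.FiniteIndex.index_ne_zero), fun α hα => hι i α hα⟩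
      (fun α' hα' => hinj₀ _ α' hα') (fun β' => hsurj₀ _ β') N hN c
      (fun α' => vk_dvd K _ N y hy i α')
    -- conclusion
    have h6 : ∀ (a : G) (ha : a ∈ π.ker), (N : ℤ) ∣ M * chi e c (Additive.ofMul ⟨a, ha⟩) := by
      intro a ha
      change (N : ℤ) ∣ M * ∑ j, c j * _
      rw [Finset.mul_sum]
      apply Finset.dvd_sum
      intro j _
      rw [← mul_assoc]
      exact Dvd.dvd.mul_right (hdvd j) _
    apply Multiplicative.toAdd.injective
    rw [toAdd_pow, hcmp a ha, toAdd_one]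
    have h7 := (ZMod.intCast_zmod_eq_zero_iff_dvd _ _).2 (h6 a ha)
    rw [Int.cast_mul, Int.cast_natCast] at h7
    rw [nsmul_eq_mul]
    exact h7
  -- all `a^M` are in the finite residual
  have hM1 : ∀ a ∈ π.ker, a ^ M = 1 := by
    intro a ha
    apply hres _ (π.ker.pow_mem ha M)
    intro H hH
    by_contra hnot
    obtain ⟨K', hKfin, hAK, N, hN, ψ, hψ⟩ := exists_char π.ker hcen (a ^ M) (π.ker.pow_mem ha M)
      H hH hnot
    apply hψ
    have := hchar K' hKfin hAK N hN ψ a ha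
    rw [← this, ← map_pow]
    rfl
  have h8 := hM1 ((e.symm (Pi.single 0 1)).toMul).1 ((e.symm (Pi.single 0 1)).toMul).2
  have h9 : M • (e.symm (Pi.single 0 1)) = 0 := by
    apply Additive.toMul.injective
    apply Subtype.ext
    exact h8
  have h10 : M • (Pi.single 0 1 : Fin (r + 1) → ℤ) = 0 := by
    rw [← map_nsmul] at h9
    exact (map_eq_zero_iff e.symm e.symm.injective).1 h9
  have h11 := congrFun h10 0
  simp at h11
  omega

end

end Pool.MP0c3001
end

section

/-!
# Main theorem: central subgroups meeting the finite residual trivially are finitely generated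
-/

set_option autoImplicit false

namespace Pool.MP0c3001

open CategoryTheory CategoryTheory.Abelian Limits

noncomputable section

variable {k : Type} [CommRing k]

theorem claim (hk : Function.Bijective (Int.cast : ℤ → k)) {G : Type} [Group G] (n : ℕ)
    (hcd : Kills k G 1 (n + 1)) (hfg : FgCoh k G) (C : Subgroup G)
    (hC : C ≤ Subgroup.center G)
    (hres : ∀ c ∈ C, (∀ H : Subgroup G, H.FiniteIndex → c ∈ H) → c = 1) (r : ℕ) :
    ∀ (Q : Type) [Group Q] (π : G →* Q), Function.Surjective π → π.ker ≤ C →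
      Nonempty (Additive π.ker ≃+ (Fin r → ℤ)) →
      (∃ m, 0 < m ∧ Kills k Q m (max 1 (n + 1 - r))) ∧ FgCoh k Q := by
  induction r with
  | zero =>
    intro Q _ π hπ hker ⟨e⟩
    have hinj : Function.Injective π := by
      rw [injective_iff_map_eq_one]
      intro g hg
      have h1 : (Additive.ofMul (⟨g, hg⟩ : π.ker)) = 0 := e.injective (Subsingleton.elim _ _)
      exact congrArg Subtype.val (Additive.ofMul.injective h1)
    refine ⟨⟨1, one_pos, ?_⟩, hfg.of_bijective π ⟨hinj, hπ⟩⟩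
    have := hcd.of_bijective π ⟨hinj, hπ⟩
    intro V i hi
    exact this V i (by omega)
  | succ r ih =>
    intro Q _ π hπ hker ⟨e⟩
    have hcen : π.ker ≤ Subgroup.center G := hker.trans hC
    obtain ⟨s, hs⟩ := exists_isSec π hπ
    -- primitive linear forms
    have hprim : ∀ x v : Fin (r + 1) → ℤ, ∑ j, x j * v j = 1 → FgCoh k Q ∧ ∃ m : ℕ, 0 < m ∧
        (∀ (V : Rep.{0} k Q) (i : ℕ), 1 ≤ i → max 1 (n + 1 - r) ≤ i + 1 → ∀ α : HH k Q V i,
          (ex k π s hs hcen e x).comp α (show 2 + i = i + 2 by omega) = 0 → m • α = 0) ∧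
        (∀ (V : Rep.{0} k Q) (i : ℕ), max 1 (n + 1 - r) ≤ i + 2 → ∀ β : HH k Q V (i + 2),
          ∃ α : HH k Q V i,
            (ex k π s hs hcen e x).comp α (show 2 + i = i + 2 by omega) = m • β) := by
      intro x v hv
      obtain ⟨G', hG', p, ϖ, z, hp, hpker, hpe, hcyc, hfits⟩ :=
        primitive_data k π hπ hcen s hs e x v hv
      obtain ⟨⟨m, hm, hkills⟩, hfg'⟩ := ih G' p hp (hpker.trans hker) hpe
      refine ⟨gysin_fg hk hcyc (isCoc_cxk k π s hs hcen e x) hfits hfg', m, hm, ?_, ?_⟩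
      · intro V i hi hd α hα
        exact gysin_inj hcyc (isCoc_cxk k π s hs hcen e x) hfits hkills V i hi hd α hα
      · intro V i hd β
        exact gysin_surj hcyc (isCoc_cxk k π s hs hcen e x) hfits hkills V i hd β
    have hx0 : ∑ j, (Pi.single 0 1 : Fin (r + 1) → ℤ) j *
        (Pi.single 0 1 : Fin (r + 1) → ℤ) j = 1 := by
      rw [Finset.sum_eq_single 0]
      · simp
      · intro b _ hb; simp [hb]
      · simp
    obtain ⟨hfgQ, m, hm, hinj, -⟩ := hprim _ _ hx0
    refine ⟨?_, hfgQ⟩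
    obtain ⟨t, ht, hpow⟩ := torsion_of_residual hk π hπ hcen
      (fun c hc => hres c (hker hc)) s hs e hfgQ (2 * (n + 1)) (by
        intro x v hv
        obtain ⟨-, m, hm, hinj, hsurj⟩ := hprim x v hv
        exact ⟨m, hm, fun V => hinj V _ (by omega) (by omega),
          fun V => hsurj V _ (by omega)⟩)
      (epow (ex k π s hs hcen e (Pi.single 0 1)) (n + 1))
    refine ⟨t * m ^ (n + 1), Nat.mul_pos ht (pow_pos hm _), ?_⟩
    exact step_kills (ex k π s hs hcen e (Pi.single 0 1)) m _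
      (fun V i hi => hinj V i (by omega) (by omega)) (n + 1) t hpow

/-- **Main theorem** (cohomological form). -/
theorem center_fg (hk : Function.Bijective (Int.cast : ℤ → k)) {G : Type} [Group G] (n : ℕ)
    (hcd : Kills k G 1 (n + 1)) (hfg : FgCoh k G) (C : Subgroup G)
    (hC : C ≤ Subgroup.center G)
    (hres : ∀ c ∈ C, (∀ H : Subgroup G, H.FiniteIndex → c ∈ H) → c = 1) : C.FG := by
  have hcomm : ∀ a b : C, a * b = b * a := fun a b =>
    Subtype.ext ((Subgroup.mem_center_iff.1 (hC b.2)) a.1)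
  let _ : CommGroup C := { (inferInstance : Group C) with mul_comm := hcomm }
  -- `G` is torsion free
  have htf : ∀ (m : ℕ) (c : Additive C), 0 < m → m • c = 0 → c = 0 := by
    intro m c hm hmc
    have h1 : c.toMul ^ m = 1 := hmc
    have h2 : (c.toMul : G) ^ m = 1 := by rw [← Subgroup.coe_pow, h1]; rfl
    have h3 : IsOfFinOrder (c.toMul : G) := isOfFinOrder_iff_pow_eq_one.2 ⟨m, hm, h2⟩
    have h4 := orderOf_dvd_of_kills hk hcd (c.toMul : G) h3
    have h5 : orderOf (c.toMul : G) = 1 := Nat.dvd_one.1 h4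
    have h6 : (c.toMul : G) = 1 := orderOf_eq_one_iff.1 h5
    exact Additive.toMul.injective (Subtype.ext h6)
  -- quotients by free subgroups of `C`
  have hquot : ∀ (r : ℕ) (U : AddSubgroup (Additive C)), Nonempty (U ≃+ (Fin r → ℤ)) →
      ∃ (Q : Type) (_ : Group Q) (π : G →* Q), Function.Surjective π ∧
        (∀ c : C, π c = 1 ↔ Additive.ofMul c ∈ U) ∧
        (∃ m, 0 < m ∧ Kills k Q m (max 1 (n + 1 - r))) := by
    intro r U ⟨f⟩
    let U' : Subgroup G := (AddSubgroup.toSubgroup' U).map C.subtype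
    have hU' : ∀ g : G, g ∈ U' ↔ ∃ h : g ∈ C, Additive.ofMul (⟨g, h⟩ : C) ∈ U := by
      intro g
      constructor
      · rintro ⟨c, hc, rfl⟩
        exact ⟨c.2, hc⟩
      · rintro ⟨h, h'⟩
        exact ⟨⟨g, h⟩, h', rfl⟩
    have hU'C : U' ≤ C := fun g hg => ((hU' g).1 hg).1
    have : U'.Normal := by
      constructor
      intro x hx g
      have := (Subgroup.mem_center_iff.1 (hC (hU'C hx))) g
      rw [this, mul_assoc, mul_inv_cancel, mul_one]
      exact hx
    have hker : (QuotientGroup.mk' U').ker = U' := QuotientGroup.ker_mk' _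
    have hmem : ∀ g : G, g ∈ (QuotientGroup.mk' U').ker ↔ g ∈ U' := fun g => by rw [hker]
    have heq : Nonempty (Additive (QuotientGroup.mk' U').ker ≃+ (Fin r → ℤ)) := by
      refine ⟨AddEquiv.trans ?_ f⟩
      exact
        { toFun := fun u => ⟨Additive.ofMul ⟨u.toMul.1, hU'C ((hmem _).1 u.toMul.2)⟩,
            ((hU' _).1 ((hmem _).1 u.toMul.2)).2⟩
          invFun := fun w => Additive.ofMul ⟨w.1.toMul.1,
            (hmem _).2 ((hU' _).2 ⟨w.1.toMul.2, w.2⟩)⟩
          left_inv := fun u => rfl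
          right_inv := fun w => rfl
          map_add' := fun u w => rfl }
    obtain ⟨hkills, -⟩ := claim hk n hcd hfg C hC hres r (G ⧸ U') (QuotientGroup.mk' U')
      (QuotientGroup.mk'_surjective _) (by rw [hker]; exact hU'C) heq
    refine ⟨G ⧸ U', inferInstance, QuotientGroup.mk' U', QuotientGroup.mk'_surjective _, ?_,
      hkills⟩
    intro c
    have : (QuotientGroup.mk' U') c = 1 ↔ (c : G) ∈ U' := QuotientGroup.eq_one_iff _
    rw [this, hU']
    constructor
    · rintro ⟨h, h'⟩; exact h'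
    · intro h; exact ⟨c.2, h⟩
  -- the rank is at most `n`
  have hrank : ∀ U : AddSubgroup (Additive C), ¬ Nonempty (U ≃+ (Fin (n + 1) → ℤ)) := by
    rintro U ⟨f⟩
    let χ : U →+ ℤ := (Pi.evalAddMonoidHom (fun _ : Fin (n + 1) => ℤ) (Fin.last n)).comp
      f.toAddMonoidHom
    have hχ : ∀ u : U, χ u = f u (Fin.last n) := fun u => rfl
    obtain ⟨g⟩ := exists_ker_equiv n f χ (by
      intro z
      refine ⟨f.symm (Pi.single (Fin.last n) z), ?_⟩
      rw [hχ, f.apply_symm_apply]
      simp)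
    let U₀ : AddSubgroup (Additive C) := χ.ker.map U.subtype
    have hU₀ : Nonempty (U₀ ≃+ (Fin n → ℤ)) :=
      ⟨(AddSubgroup.equivMapOfInjective χ.ker U.subtype Subtype.val_injective).symm.trans g⟩
    obtain ⟨Q, _, π, hπ, hπU, m, hm, hkills⟩ := hquot n U₀ hU₀
    have hkills1 : Kills k Q m 1 := by
      intro V i hi
      exact hkills V i (by omega)
    have hfin : Finite Q := finite_of_kills hk hm hkills1
    let u : U := f.symm (Pi.single (Fin.last n) 1)
    have hu : χ u = 1 := by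
      rw [hχ, f.apply_symm_apply]
      simp
    have h1 : IsOfFinOrder (π ((u : Additive C).toMul : G)) := isOfFinOrder_of_finite _
    obtain ⟨t, ht, h2⟩ := isOfFinOrder_iff_pow_eq_one.1 h1
    have h3 : π (((u : Additive C).toMul ^ t : C) : G) = 1 := by
      rw [Subgroup.coe_pow, map_pow]; exact h2
    have h4 : t • (u : Additive C) ∈ U₀ := (hπU _).1 h3
    obtain ⟨w, hw, hwu⟩ := h4
    have h5 : w = t • u := Subtype.ext hwu
    have h6 : χ w = 0 := hw
    rw [h5, map_nsmul, hu] at h6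
    simp at h6
    omega
  obtain ⟨r, U, hr, hU, htors⟩ := exists_maximal_free n (Additive C) htf hrank
  obtain ⟨Q, _, π, hπ, hπU, m, hm, hkills⟩ := hquot r U hU
  -- bounded exponent
  have hexp : ∀ c : Additive C, m • c ∈ U := by
    intro c
    obtain ⟨t, ht, hct⟩ := htors c
    have h1 : π (c.toMul : G) ^ t = 1 := by
      have : π ((c.toMul ^ t : C) : G) = 1 := (hπU _).2 hct
      rw [← map_pow]; exact this
    have h2 : IsOfFinOrder (π (c.toMul : G)) := isOfFinOrder_iff_pow_eq_one.2 ⟨t, ht, h1⟩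
    have h3 := orderOf_dvd_of_kills hk hkills _ h2
    have h4 : π (c.toMul : G) ^ m = 1 := orderOf_dvd_iff_pow_eq_one.1 h3
    have h5 : π ((c.toMul ^ m : C) : G) = 1 := by
      rw [Subgroup.coe_pow, map_pow]; exact h4
    exact (hπU _).1 h5
  obtain ⟨f⟩ := hU
  have hfgC := fg_of_bounded (Additive C) htf U r f m hm hexp
  have h1 : Group.FG C := GroupFG.iff_add_fg.2 hfgC
  exact (Group.fg_iff_subgroup_fg C).1 h1

end

end Pool.MP0c3001
end

section

/-!
# Ranks: the Gysin bound; free abelian groups; the rank of the centre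
-/

set_option autoImplicit false

namespace Pool.MP0c3001

open CategoryTheory CategoryTheory.Abelian Limits LatticeBound

noncomputable section

variable {k : Type} [CommRing k] {G Q : Type} [Group G] [Group Q]

/-- The rank of the cohomology grows by at most a constant which depends only on `G`. -/
theorem gysin_rk (hk : Function.Bijective (Int.cast : ℤ → k)) {π : G →* Q} {z : G}
    (hπ : CycExt π z) {c : Q → Q → k} (hc : IsCoc c) (hf : Fits π z c) (h : FgCoh k G)
    (hQ : FgCoh k Q) (V : Rep.{0} k Q) (hV : Module.Finite k V.V) (i : ℕ) :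
    rk (HH k Q V (i + 2)) ≤ rk (HH k Q V i) +
      rk (Ext.{0} (Iaug k G) ((Rep.resFunctor π).obj V) (i + 1)) := by
  have hX : ∀ j, Module.Finite ℤ (Ext.{0} (Dc (k := k) hc) V j) := by
    intro j
    obtain ⟨φ, hφ⟩ := Dc_bij hπ hc hf V j
    have := fg_Iaug hk h ((Rep.resFunctor π).obj V) hV j
    exact Module.Finite.of_injective φ.toIntLinearMap hφ.1
  have hI : ∀ j, Module.Finite ℤ (Ext.{0} (Iaug k Q) V j) := fun j => fg_Iaug hk hQ V hV j
  have hZ : ∀ j, Module.Finite ℤ (HH k Q V j) := fun j => hQ V hV j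
  have hG := fg_Iaug hk h ((Rep.resFunctor π).obj V) hV (i + 1)
  obtain ⟨φ, hφ⟩ := Dc_bij hπ hc hf V (i + 1)
  have := hX (i + 1)
  have := hI (i + 1)
  have := hZ i
  have := hZ (i + 2)
  have h1 : rk (Ext.{0} (Dc (k := k) hc) V (i + 1)) ≤
      rk (Ext.{0} (Iaug k G) ((Rep.resFunctor π).obj V) (i + 1)) := rk_le_of_injective φ hφ.1
  have h2 : rk (Ext.{0} (Iaug k Q) V (i + 1)) ≤ rk (HH k Q V i) +
      rk (Ext.{0} (Dc (k := k) hc) V (i + 1)) := by
    refine rk_le_of_exact ((dSeq (k := k) hc).extClass.precomp V (show 1 + i = i + 1 by omega))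
      ((Ext.mk₀ (dProj (k := k) hc)).precomp V (zero_add (i + 1))) ?_
    intro b hb
    obtain ⟨c', hc'⟩ := Ext.contravariant_sequence_exact₃ (dSeq (k := k) hc) V b hb
      (show 1 + i = i + 1 by omega)
    exact ⟨c', hc'⟩
  have h3 : rk (HH k Q V (i + 2)) ≤ rk (Ext.{0} (Iaug k Q) V (i + 1)) := by
    refine rk_le_of_surjective ((augSeq k Q).extClass.precomp V
      (show 1 + (i + 1) = i + 2 by omega)) ?_
    intro b
    obtain ⟨c', hc'⟩ := Ext.contravariant_sequence_exact₃ (augSeq k Q) V b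
      (Ext.eq_zero_of_projective _) (show 1 + (i + 1) = i + 2 by omega)
    exact ⟨c', hc'⟩
  omega

/-- The rank of `H^0(Q;k)` is at most one. -/
theorem rk_zero_le (hk : Function.Bijective (Int.cast : ℤ → k)) (hQ : FgCoh k Q) :
    rk (HH k Q (Zt k Q) 0) ≤ rk k := by
  have hkf : Module.Finite k k := inferInstance
  have hkz : Module.Finite ℤ k := int_finite_of_finite hk k hkf
  have := hQ (Zt k Q) hkf 0
  let ev : (Zt k Q ⟶ Zt k Q) →+ k :=
    { toFun := fun f => f.hom (1 : k)
      map_zero' := rfl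
      map_add' := fun f g => rfl }
  have hev : Function.Injective ev := fun f g hfg => trivHom_ext hfg
  refine rk_le_of_injective (ev.comp (Ext.addEquiv₀ (X := Zt k Q) (Y := Zt k Q)).toAddMonoidHom) ?_
  exact hev.comp (Ext.addEquiv₀ (X := Zt k Q) (Y := Zt k Q)).injective

/-- A bound for the ranks of `H^{2j}(Q;k)` which depends only on `G`. -/
theorem gysin_rk_bound (hk : Function.Bijective (Int.cast : ℤ → k)) (h : FgCoh k G) (j : ℕ) :
    ∃ D : ℕ, ∀ (Q : Type) [Group Q] (π : G →* Q) (z : G), CycExt π z → ∀ (c : Q → Q → k),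
      IsCoc c → Fits π z c → FgCoh k Q → rk (HH k Q (Zt k Q) (2 * j)) ≤ D := by
  induction j with
  | zero => exact ⟨rk k, fun Q _ π z _ c _ _ hQ => rk_zero_le hk hQ⟩
  | succ j ih =>
    obtain ⟨D, hD⟩ := ih
    refine ⟨D + rk (Ext.{0} (Iaug k G) (Zt k G) (2 * j + 1)), ?_⟩
    intro Q _ π z hπ c hc hf hQ
    have hkf : Module.Finite k k := inferInstance
    have h1 := gysin_rk hk hπ hc hf h hQ (Zt k Q) hkf (2 * j)
    have h2 := hD Q π z hπ c hc hf hQ
    have h3 : (Rep.resFunctor π).obj (Zt k Q) = Zt k G := rfl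
    rw [h3] at h1
    have h4 : 2 * (j + 1) = 2 * j + 2 := by ring
    rw [h4]
    omega

/-- The class of the zero cocycle is zero. -/
theorem cls_zero {c : Q → Q → k} (hc : IsCoc c) (h0 : ∀ q' q, c q' q = 0) :
    cls (k := k) hc = 0 := by
  have h := cls_map (k := k) (0 : k →ₗ[k] k) hc hc (fun q p => by rw [h0]; rfl)
  have h1 : trivMap (Q := Q) (0 : k →ₗ[k] k) = 0 := rfl
  rw [h1, Ext.mk₀_zero, Ext.comp_zero] at h
  exact h

end

end Pool.MP0c3001
end

section

/-!
# Free abelian groups and the rank of a central subgroup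
-/

set_option autoImplicit false

namespace Pool.MP0c3001

open CategoryTheory CategoryTheory.Abelian Limits LatticeBound

noncomputable section

variable {k : Type} [CommRing k]

/-- `ℤ^r` written multiplicatively. -/
abbrev Zr (r : ℕ) : Type := Multiplicative (Fin r → ℤ)

/-- forget the coordinate `0` -/
def zrTail (r : ℕ) : Zr (r + 1) →* Zr r :=
  AddMonoidHom.toMultiplicative
    { toFun := fun v i => v i.succ
      map_zero' := rfl
      map_add' := fun _ _ => rfl }

lemma zrTail_apply (r : ℕ) (v : Zr (r + 1)) (i : Fin r) :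
    (zrTail r v).toAdd i = v.toAdd i.succ := rfl

/-- the first basis vector -/
def zrOne (r : ℕ) : Zr (r + 1) := Multiplicative.ofAdd (Pi.single 0 1)

lemma zrOne_zpow (r : ℕ) (n : ℤ) : (zrOne r ^ n).toAdd = Pi.single 0 n := by
  have h : (zrOne r ^ n).toAdd = n • (Pi.single 0 1 : Fin (r + 1) → ℤ) := rfl
  rw [h, ← Pi.single_smul]
  simp

lemma zrCyc (r : ℕ) : CycExt (zrTail r) (zrOne r) := by
  refine ⟨?_, ?_, ?_, ?_, ?_⟩
  · intro v
    refine ⟨Multiplicative.ofAdd (Fin.cons 0 v.toAdd), ?_⟩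
    apply Multiplicative.toAdd.injective
    funext i
    rw [zrTail_apply]
    rfl
  · apply Multiplicative.toAdd.injective
    funext i
    rw [zrTail_apply]
    change (Pi.single 0 1 : Fin (r + 1) → ℤ) i.succ = 0
    simp
  · intro g hg
    refine ⟨g.toAdd 0, ?_⟩
    apply Multiplicative.toAdd.injective
    rw [zrOne_zpow]
    funext i
    refine Fin.cases ?_ (fun j => ?_) i
    · simp
    · have := congrFun (congrArg Multiplicative.toAdd hg) j
      rw [zrTail_apply] at this
      rw [this]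
      simp
  · intro n hn
    have h := congrArg Multiplicative.toAdd hn
    rw [zrOne_zpow] at h
    have h0 := congrFun h 0
    simpa using h0
  · intro g
    exact mul_comm _ _

lemma zrFits (r : ℕ) : Fits (k := k) (zrTail r) (zrOne r) (fun _ _ => 0) := by
  refine ⟨fun v => Multiplicative.ofAdd (Fin.cons 0 v.toAdd), ⟨?_, ?_⟩, fun g => g.toAdd 0, ?_, ?_⟩
  · intro v
    apply Multiplicative.toAdd.injective
    funext i
    rw [zrTail_apply]
    rfl
  · apply Multiplicative.toAdd.injective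
    funext i
    refine Fin.cases ?_ (fun j => ?_) i
    · rfl
    · rfl
  · intro g
    apply Multiplicative.toAdd.injective
    funext i
    have h : ((zrOne r ^ (g.toAdd 0)) * Multiplicative.ofAdd (Fin.cons 0 (zrTail r g).toAdd :
        Fin (r + 1) → ℤ)).toAdd i = (zrOne r ^ (g.toAdd 0)).toAdd i +
        (Fin.cons 0 (zrTail r g).toAdd : Fin (r + 1) → ℤ) i := rfl
    rw [h, zrOne_zpow]
    refine Fin.cases ?_ (fun j => ?_) i
    · simp
    · rw [Fin.cons_succ, zrTail_apply]
      simp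
  · intro q' q
    have h : (Multiplicative.ofAdd (Fin.cons 0 q'.toAdd : Fin (r + 1) → ℤ) *
        Multiplicative.ofAdd (Fin.cons 0 q.toAdd : Fin (r + 1) → ℤ)).toAdd 0 = 0 + 0 := rfl
    change (0 : k) = (((Multiplicative.ofAdd (Fin.cons 0 q'.toAdd : Fin (r + 1) → ℤ) *
        Multiplicative.ofAdd (Fin.cons 0 q.toAdd : Fin (r + 1) → ℤ)).toAdd 0 : ℤ) : k)
    rw [h]
    simp

theorem Kills.zr {r m d : ℕ} (hd : 1 ≤ d) (h : Kills k (Zr (r + 1)) m (d + 1)) :
    Kills k (Zr r) m d := by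
  intro V i hi x
  have hc : IsCoc (fun _ _ : Zr r => (0 : k)) := fun _ _ _ => rfl
  refine gysin_inj (zrCyc r) hc (zrFits r) h V i (by omega) (by omega) x ?_
  rw [cls_zero hc (fun _ _ => rfl), Ext.zero_comp]

theorem Kills.zr_iter {m : ℕ} (n : ℕ) : ∀ r d : ℕ, 1 ≤ d → Kills k (Zr (r + n)) m (d + n) →
    Kills k (Zr r) m d := by
  induction n with
  | zero => intro r d _ h; exact h
  | succ n ih =>
    intro r d hd h
    exact ih r d hd (Kills.zr (r := r + n) (by omega) h)

theorem not_kills_zr (hk : Function.Bijective (Int.cast : ℤ → k)) {m n : ℕ} (hm : 0 < m)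
    (h : Kills k (Zr (n + 1)) m (n + 1)) : False := by
  have h1 : Kills k (Zr 1) m 1 := by
    apply Kills.zr_iter n 1 1 le_rfl
    rw [add_comm 1 n]
    exact h
  have h2 : Finite (Zr 1) := finite_of_kills hk hm h1
  have h3 : Function.Injective (fun n : ℤ => (Multiplicative.ofAdd (fun _ => n) : Zr 1)) := by
    intro a b hab
    exact congrFun (congrArg Multiplicative.toAdd hab) 0
  exact Infinite.not_finite (α := ℤ) (Finite.of_injective _ h3)

/-- A central (or any abelian) subgroup of a group of finite cohomological dimension has finite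
rank. -/
theorem no_embed (hk : Function.Bijective (Int.cast : ℤ → k)) {G : Type} [Group G] {n : ℕ}
    (hcd : Kills k G 1 (n + 1)) (f : Zr (n + 1) →* G) (hf : Function.Injective f) : False := by
  have h1 := hcd.subgroup f.range
  let e : Zr (n + 1) ≃* f.range := MonoidHom.ofInjective hf
  have h2 : Kills k (Zr (n + 1)) 1 (n + 1) :=
    h1.of_bijective e.symm.toMonoidHom e.symm.bijective
  exact not_kills_zr hk one_pos h2

end

end Pool.MP0c3001
end

section

/-!
# The barycentre lies in the finite residual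
-/

set_option autoImplicit false

namespace Pool.MP0c3001

open CategoryTheory CategoryTheory.Abelian Limits LatticeBound

noncomputable section

variable {k : Type} [CommRing k] {G Q : Type} [Group G] [Group Q]

/-- Let `T(x)` be the trace of `m e_{x₀}⁻¹ e_x` on `H^i(Q;ℚ)`.  The element `w` of the kernel with
`χ_x(w) = T(x)` for all `x` lies in all subgroups of finite index of `G`. -/
theorem barycentre (hk : Function.Bijective (Int.cast : ℤ → k)) (π : G →* Q)
    (hπ : Function.Surjective π) (hcen : π.ker ≤ Subgroup.center G)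
    (s : Q → G) (hs : IsSec π s) {r : ℕ} (e : Additive π.ker ≃+ (Fin r → ℤ))
    (x₀ : Fin r → ℤ) (hfg : FgCoh k Q) (i : ℕ) (m : ℕ) (hm : 0 < m)
    (hinj : ∀ (V : Rep.{0} k Q) (α : HH k Q V i),
      (ex k π s hs hcen e x₀).comp α (show 2 + i = i + 2 by omega) = 0 → m • α = 0)
    (hsurj : ∀ (V : Rep.{0} k Q) (β : HH k Q V (i + 2)), ∃ α : HH k Q V i,
      (ex k π s hs hcen e x₀).comp α (show 2 + i = i + 2 by omega) = m • β) :
    ∃ w : π.ker, chi e x₀ (Additive.ofMul w) = m * rk (HH k Q (Zt k Q) i) ∧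
      ∀ H : Subgroup G, H.FiniteIndex → (w : G) ∈ H := by
  have hkfin : Module.Finite k k := inferInstance
  have hV0 : Module.Finite k (Zt k Q).V := hkfin
  have := hfg (Zt k Q) hV0 i
  have := hfg (Zt k Q) hV0 (i + 2)
  obtain ⟨T, hT0, hbound⟩ := lattice_trace r x₀ (HH k Q (Zt k Q) i) (HH k Q (Zt k Q) (i + 2))
    (bigE k π hcen s hs e (Zt k Q) i) m hm (fun α hα => hinj _ α hα) (fun β => hsurj _ β)
  let w : π.ker := (e.symm (fun j => T (Pi.single j 1))).toMul
  have hw : ∀ x : Fin r → ℤ, chi e x (Additive.ofMul w) = T x := by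
    intro x
    change ∑ j, x j * e (e.symm (fun j => T (Pi.single j 1))) j = T x
    rw [e.apply_symm_apply]
    conv_rhs => rw [pi_eq_sum_univ' x]
    rw [map_sum]
    refine Finset.sum_congr rfl fun j _ => ?_
    rw [map_zsmul, smul_eq_mul]
  refine ⟨w, (hw x₀).trans hT0, ?_⟩
  intro H hH
  by_contra hnot
  obtain ⟨K', hKfin, hK', N, hN, ψ, hψ⟩ := exists_char π.ker hcen (w : G) w.2 H hH hnot
  apply hψ
  -- characters of finite index subgroups
  let K : Subgroup Q := K'.map π
  have hKK : K.comap π = K' := by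
    rw [Subgroup.comap_map_eq, sup_eq_left.2 hK']
  have : K.FiniteIndex := by
    refine ⟨fun h0 => hKfin.index_ne_zero ?_⟩
    rw [← hKK, Subgroup.index_comap_of_surjective K hπ]
    exact h0
  have : NeZero N := ⟨hN.ne'⟩
  let ψ' : K.comap π →* Multiplicative (ZMod N) :=
    ψ.comp (Subgroup.inclusion hKK.le)
  -- the vector `c`
  let aj : Fin r → π.ker := fun j => (e.symm (Pi.single j 1)).toMul
  let c : Fin r → ℤ := fun j => ((ψ ⟨(aj j).1, hK' (aj j).2⟩).toAdd.val : ℤ)
  have hcj : ∀ j, (c j : ZMod N) = (ψ ⟨(aj j).1, hK' (aj j).2⟩).toAdd := by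
    intro j
    simp [c]
  -- comparison of `ψ` and `χ_c` on the kernel
  have hcmp : ∀ (a : G) (ha : a ∈ π.ker),
      (ψ ⟨a, hK' ha⟩).toAdd = ((chi e c (Additive.ofMul ⟨a, ha⟩) : ℤ) : ZMod N) := by
    let f₁ : (Fin r → ℤ) →+ ZMod N :=
      AddMonoidHom.mk' (fun w => (ψ ⟨((e.symm w).toMul).1, hK' ((e.symm w).toMul).2⟩).toAdd) (by
        intro w w'
        have h1 : e.symm (w + w') = e.symm w + e.symm w' := map_add _ _ _
        have h2 : (⟨((e.symm (w + w')).toMul).1, hK' ((e.symm (w + w')).toMul).2⟩ : K') =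
          ⟨((e.symm w).toMul).1, hK' ((e.symm w).toMul).2⟩ *
          ⟨((e.symm w').toMul).1, hK' ((e.symm w').toMul).2⟩ := by
          apply Subtype.ext
          change ((e.symm (w + w')).toMul).1 = _
          rw [h1]
          rfl
        rw [h2, map_mul]
        rfl)
    let f₂ : (Fin r → ℤ) →+ ZMod N :=
      (Int.castAddHom (ZMod N)).comp ((chi e c).comp e.symm.toAddMonoidHom)
    have h12 : f₁ = f₂ := by
      apply AddMonoidHom.functions_ext'
      intro j
      apply AddMonoidHom.ext_int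
      change (ψ ⟨(aj j).1, hK' (aj j).2⟩).toAdd = ((chi e c (e.symm (Pi.single j 1)) : ℤ) : ZMod N)
      have h3 : chi e c (e.symm (Pi.single j 1)) = c j := by
        change ∑ l, c l * e (e.symm (Pi.single j 1)) l = c j
        rw [e.apply_symm_apply]
        simp [Pi.single_apply]
      rw [h3, hcj]
    intro a ha
    have h4 := DFunLike.congr_fun h12 (e (Additive.ofMul ⟨a, ha⟩))
    change (ψ ⟨((e.symm (e (Additive.ofMul ⟨a, ha⟩))).toMul).1, _⟩).toAdd =
      ((chi e c (e.symm (e (Additive.ofMul ⟨a, ha⟩))) : ℤ) : ZMod N) at h4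
    have h5 : e.symm (e (Additive.ofMul (⟨a, ha⟩ : π.ker))) = Additive.ofMul ⟨a, ha⟩ :=
      e.symm_apply_apply _
    rw [h5] at h4
    rw [← h4]
    congr 2
  obtain ⟨y, hy⟩ := ex_res_dvd hk π hcen s hs e K N hN ψ' c (fun a ha ha' => hcmp a ha)
  have : IsNoetherianRing k := by
    have e1 : ℤ ≃+* k := RingEquiv.ofBijective (Int.castRingHom k) hk
    exact isNoetherianRing_of_ringEquiv ℤ e1
  have hVfin := vk_finite (k := k) K
  have := hfg (VK k K) hVfin i
  obtain ⟨ι, hι⟩ := vk_inj (k := k) K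
  have hdvd := hbound (HH k Q (VK k K) i) (HH k Q (VK k K) (i + 2))
    (bigE k π hcen s hs e (VK k K) i)
    ((Ext.mk₀ ι).postcomp (Zt k Q) (add_zero i))
    ((Ext.mk₀ ι).postcomp (Zt k Q) (add_zero (i + 2)))
    (by
      intro c α
      have h2 : 2 + i = i + 2 := by omega
      change ((ex k π s hs hcen e c).comp α h2).comp (Ext.mk₀ ι) (add_zero (i + 2)) =
        (ex k π s hs hcen e c).comp (α.comp (Ext.mk₀ ι) (add_zero i)) h2
      exact Ext.comp_assoc (a₁₂ := i + 2) (a₂₃ := i) _ _ _ (by omega) (by omega) (by omega))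
    ⟨K.index, Nat.pos_of_ne_zero (Subgroup.FiniteIndex.index_ne_zero), fun α hα => hι i α hα⟩
    (fun α' hα' => hinj _ α' hα') (fun β' => hsurj _ β') N hN c
    (fun α' => vk_dvd K _ N y hy i α')
  -- conclusion
  apply Multiplicative.toAdd.injective
  rw [hcmp _ w.2, toAdd_one]
  have h6 : chi e c (Additive.ofMul (⟨(w : G), w.2⟩ : π.ker)) = T c := hw c
  rw [h6]
  exact (ZMod.intCast_zmod_eq_zero_iff_dvd _ _).2 hdvd

/-- Recognition of the Euler class of an intermediate extension. -/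
theorem fits_of {H : Type} [Group H] (π : G →* Q) (p : G →* H) (ϖ : H →* Q)
    (hϖ : ∀ g, ϖ (p g) = π g) {z : H} (hcyc : CycExt ϖ z) (s : Q → G) (hs : IsSec π s) {r : ℕ}
    (e : Additive π.ker ≃+ (Fin r → ℤ)) (x : Fin r → ℤ)
    (hx : ∀ a : π.ker, p (a : G) = z ^ (chi e x (Additive.ofMul a))) :
    Fits (k := k) ϖ z (cxk k π s hs e x) := by
  have hj : ∀ h : H, ∃ n : ℤ, h = z ^ n * p (s (ϖ h)) := by
    intro h
    obtain ⟨n, hn⟩ := hcyc.ker (h * (p (s (ϖ h)))⁻¹) (by
      rw [map_mul, map_inv, hϖ, hs.sec, mul_inv_cancel])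
    exact ⟨n, by rw [← hn, inv_mul_cancel_right]⟩
  choose j hj using hj
  refine ⟨fun q => p (s q), ⟨fun q => by rw [hϖ, hs.sec], by rw [hs.one, map_one]⟩, j,
    fun h => hj h, fun q' q => ?_⟩
  have h1 := hj (p (s q') * p (s q))
  have h2 : ϖ (p (s q') * p (s q)) = q' * q := by
    rw [map_mul, hϖ, hϖ, hs.sec, hs.sec]
  rw [h2] at h1
  have h3 : p (s q') * p (s q) = z ^ (cx π s hs e x q' q) * p (s (q' * q)) := by
    have h4 : s q' * s q = (fs π s hs q' q : G) * s (q' * q) := by
      change s q' * s q = s q' * s q * (s (q' * q))⁻¹ * s (q' * q)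
      rw [inv_mul_cancel_right]
    rw [← map_mul, h4, map_mul, hx]
    rfl
  rw [h1] at h3
  have h4 : z ^ (j (p (s q') * p (s q))) = z ^ (cx π s hs e x q' q) := mul_right_cancel h3
  have h5 : z ^ (j (p (s q') * p (s q)) - cx π s hs e x q' q) = 1 := by
    rw [zpow_sub, h4, mul_inv_cancel]
  have h6 : j (p (s q') * p (s q)) = cx π s hs e x q' q := by
    have := hcyc.ord _ h5
    omega
  change (cx π s hs e x q' q : k) = _
  rw [h6]

/-- The quotient of `H` by the central element `z = p(c)` of infinite order, and coordinates on the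
kernel of the composite `G → H/⟨z⟩`. -/
theorem exists_step {H : Type} [Group H] (p : G →* H) (hp : Function.Surjective p)
    (C : Subgroup G) (hC : C ≤ Subgroup.center G) (hpC : p.ker ≤ C) {r : ℕ}
    (e' : Additive p.ker ≃+ (Fin r → ℤ)) (c : G) (hc : c ∈ C)
    (hord : ∀ n : ℤ, p c ^ n = 1 → n = 0) :
    ∃ (Q : Type) (_ : Group Q) (ϖ : H →* Q) (π : G →* Q) (_ : ∀ g, ϖ (p g) = π g)
      (_ : CycExt ϖ (p c)) (_ : Function.Surjective π) (_ : π.ker ≤ C)
      (e : Additive π.ker ≃+ (Fin (r + 1) → ℤ)),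
        ∀ a : π.ker, p (a : G) = p c ^ (chi e (Pi.single 0 1) (Additive.ofMul a)) := by
  have hzc : ∀ h : H, p c * h = h * p c := by
    intro h
    obtain ⟨g, rfl⟩ := hp h
    rw [← map_mul, ← map_mul, Subgroup.mem_center_iff.1 (hC hc) g]
  have hnorm : (Subgroup.zpowers (p c)).Normal := by
    constructor
    rintro _ ⟨n, rfl⟩ h
    have h1 : h * (p c) ^ n = (p c) ^ n * h :=
      ((show Commute (p c) h from hzc h).zpow_left n).symm.eq
    change h * (p c) ^ n * h⁻¹ ∈ _
    rw [h1, mul_inv_cancel_right]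
    exact ⟨n, rfl⟩
  let ϖ : H →* H ⧸ Subgroup.zpowers (p c) := QuotientGroup.mk' _
  have hϖ : ∀ h : H, ϖ h = 1 ↔ h ∈ Subgroup.zpowers (p c) := fun h => QuotientGroup.eq_one_iff h
  let π : G →* H ⧸ Subgroup.zpowers (p c) := ϖ.comp p
  have hker : ∀ g : G, g ∈ π.ker ↔ ∃ n : ℤ, p g = p c ^ n := by
    intro g
    rw [MonoidHom.mem_ker]
    change ϖ (p g) = 1 ↔ _
    rw [hϖ]
    constructor
    · rintro ⟨n, hn⟩; exact ⟨n, hn.symm⟩
    · rintro ⟨n, hn⟩; exact ⟨n, hn.symm⟩
  have hcyc : CycExt ϖ (p c) :=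
    ⟨QuotientGroup.mk'_surjective _, (hϖ _).2 (Subgroup.mem_zpowers _),
      fun g hg => by
        obtain ⟨n, hn⟩ := (hϖ g).1 hg
        exact ⟨n, hn.symm⟩, hord, hzc⟩
  have hcK : c ∈ π.ker := (hker c).2 ⟨1, (zpow_one _).symm⟩
  have hinj : ∀ a b : ℤ, p c ^ a = p c ^ b → a = b := by
    intro a b hab
    have h1 : p c ^ (a - b) = 1 := by rw [zpow_sub, hab, mul_inv_cancel]
    have := hord _ h1
    omega
  choose j hj using fun a : π.ker => (hker a.1).1 a.2
  have hcomm : ∀ (n : ℤ) (g : G), g * c ^ n = c ^ n * g := by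
    intro n g
    exact (Subgroup.mem_center_iff.1 (C.zpow_mem hc n |> fun h => hC h) g)
  have hjmul : ∀ a b : π.ker, j (a * b) = j a + j b := by
    intro a b
    apply hinj
    rw [← hj, zpow_add, ← hj, ← hj]
    exact map_mul p _ _
  have hu : ∀ a : π.ker, a.1 * (c ^ j a)⁻¹ ∈ p.ker := by
    intro a
    rw [MonoidHom.mem_ker, map_mul, map_inv, map_zpow, hj a, mul_inv_cancel]
  have hkerC : π.ker ≤ C := by
    intro g hg
    have h1 := hu ⟨g, hg⟩
    have h2 : g = (g * (c ^ j ⟨g, hg⟩)⁻¹) * c ^ j ⟨g, hg⟩ := by group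
    rw [h2]
    exact C.mul_mem (hpC h1) (C.zpow_mem hc _)
  let F : Additive π.ker →+ (Fin (r + 1) → ℤ) := AddMonoidHom.mk'
    (fun a => Fin.cons (j a.toMul) (e' (Additive.ofMul ⟨_, hu a.toMul⟩))) (by
      intro a b
      funext i
      refine Fin.cases ?_ (fun l => ?_) i
      · exact hjmul a.toMul b.toMul
      · have h1 : (⟨_, hu (a.toMul * b.toMul)⟩ : p.ker) = ⟨_, hu a.toMul⟩ * ⟨_, hu b.toMul⟩ := by
          apply Subtype.ext
          change a.toMul.1 * b.toMul.1 * (c ^ j (a.toMul * b.toMul))⁻¹ =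
            a.toMul.1 * (c ^ j a.toMul)⁻¹ * (b.toMul.1 * (c ^ j b.toMul)⁻¹)
          rw [hjmul, zpow_add, mul_inv_rev, ← zpow_neg, ← zpow_neg, mul_assoc, mul_assoc]
          congr 1
          rw [← mul_assoc, hcomm]
        have h2 := congrArg (fun u => e' (Additive.ofMul u) l) h1
        have h3 : e' (Additive.ofMul ((⟨_, hu a.toMul⟩ : p.ker) * ⟨_, hu b.toMul⟩)) =
          e' (Additive.ofMul ⟨_, hu a.toMul⟩) + e' (Additive.ofMul ⟨_, hu b.toMul⟩) := map_add e' _ _
        exact h2.trans (congrFun h3 l))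
  have hF : ∀ a : π.ker, F (Additive.ofMul a) = Fin.cons (j a) (e' (Additive.ofMul ⟨_, hu a⟩)) :=
    fun a => rfl
  have hFinj : Function.Injective F := by
    rw [injective_iff_map_eq_zero]
    intro a ha
    have h0 := congrFun ha 0
    have h0' : j a.toMul = 0 := h0
    have h1 : e' (Additive.ofMul ⟨_, hu a.toMul⟩) = 0 := by
      funext l
      exact congrFun ha l.succ
    have h2 : Additive.ofMul (⟨_, hu a.toMul⟩ : p.ker) = 0 := (map_eq_zero_iff e' e'.injective).1 h1
    have h3 : a.toMul.1 * (c ^ j a.toMul)⁻¹ = 1 := congrArg (fun u => (Additive.toMul u).1) h2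
    rw [h0', zpow_zero, inv_one, mul_one] at h3
    apply Additive.toMul.injective
    exact Subtype.ext h3
  have hFsurj : Function.Surjective F := by
    intro v
    let u : p.ker := (e'.symm (fun l => v l.succ)).toMul
    have hu1 : p u.1 = 1 := u.2
    have hm : u.1 * c ^ (v 0) ∈ π.ker := by
      rw [hker]
      exact ⟨v 0, by rw [map_mul, hu1, one_mul, map_zpow]⟩
    refine ⟨Additive.ofMul ⟨u.1 * c ^ (v 0), hm⟩, ?_⟩
    have hj0 : j ⟨u.1 * c ^ (v 0), hm⟩ = v 0 := by
      apply hinj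
      rw [← hj, map_mul, hu1, one_mul, map_zpow]
    rw [hF]
    funext i
    refine Fin.cases ?_ (fun l => ?_) i
    · exact hj0
    · rw [Fin.cons_succ]
      have h1 : (⟨_, hu ⟨u.1 * c ^ (v 0), hm⟩⟩ : p.ker) = u := by
        apply Subtype.ext
        change u.1 * c ^ (v 0) * (c ^ j ⟨u.1 * c ^ (v 0), hm⟩)⁻¹ = u.1
        rw [hj0, mul_inv_cancel_right]
      rw [h1]
      change e' (e'.symm _) l = _
      rw [e'.apply_symm_apply]
  let e : Additive π.ker ≃+ (Fin (r + 1) → ℤ) := AddEquiv.ofBijective F ⟨hFinj, hFsurj⟩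
  refine ⟨H ⧸ Subgroup.zpowers (p c), inferInstance, ϖ, π, fun g => rfl, hcyc,
    (QuotientGroup.mk'_surjective _).comp hp, hkerC, e, ?_⟩
  intro a
  have h1 : chi e (Pi.single 0 1) (Additive.ofMul a) = j a := by
    change ∑ l, (Pi.single 0 1 : Fin (r + 1) → ℤ) l * e (Additive.ofMul a) l = j a
    rw [Finset.sum_eq_single 0]
    · rw [Pi.single_eq_same, one_mul]
      rfl
    · intro b _ hb; simp [hb]
    · simp
  rw [h1]
  exact hj a

end

end Pool.MP0c3001
end
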