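import Pool.Agent.Lib.MP_0c3001_gt.DV.Ext
import Pool.Agent.Lib.MP_0c3001_gt.DV.Defs

section

/-!
# Campaign DV: functions on `l`-tuples of lists (Serre's trick): definitions
-/

set_option autoImplicit false

namespace Pool.MP0c3001.DV

open CategoryTheory CategoryTheory.Abelian Limits

noncomputable section

variable {k : Type} [CommRing k] {G E : Type} [Group G] [Group E] {l : ℕ}

/-! ## Lists and kernels -/

/-- A kernel: a linear endomorphism of the free module on the lists, given on the basis. -/
abbrev Ker (k : Type) [CommRing k] (G : Type) : Type := List G → (List G →₀ k)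

/-- The boundary: `x ↦ ∑ (-1)^i (x without its i-th entry)`. -/
def dk : Ker k G := fun x => ∑ i ∈ Finset.range x.length, Finsupp.single (x.eraseIdx i) ((-1) ^ i)

/-- The parity operator. -/
def sk : Ker k G := fun x => Finsupp.single x ((-1) ^ x.length)

/-- The homotopy `x ↦ 1 :: x`. -/
def ck : Ker k G := fun x => Finsupp.single (1 :: x) 1

/-- The identity kernel. -/
def idk : Ker k G := fun x => Finsupp.single x 1

/-- The linear extension of a kernel. -/
abbrev kx (t : Ker k G) : (List G →₀ k) →ₗ[k] (List G →₀ k) := Finsupp.linearCombination k t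

/-- Composition of kernels (first `t`, then `t'`). -/
def kcomp (t t' : Ker k G) : Ker k G := fun x => kx t' (t x)

/-- Left multiplication of all entries by `g`. -/
def lsm (g : G) (x : List G) : List G := x.map (g * ·)

/-- Equivariant kernels. -/
def Equi (t : Ker k G) : Prop :=
  ∀ (g : G) (x : List G), t (lsm g x) = (t x).mapDomain (lsm g)

/-- Kernels which preserve the length. -/
def Len (t : Ker k G) : Prop := ∀ x y : List G, t x y ≠ 0 → y.length = x.length

/-- A `G`-equivariant chain map `b` of the augmented complex of lists which is `m` in degree `0`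
and `0` in degrees `> N`. -/
structure ChainB (b : Ker k G) (m N : ℕ) : Prop where
  len : Len b
  equi : Equi b
  nil : b [] = Finsupp.single [] (m : k)
  top : ∀ x : List G, N < x.length → b x = 0
  comm : kcomp b dk = kcomp dk b

/-! ## Operators on functions of `l`-tuples of lists -/

/-- `l`-tuples of lists. -/
abbrev ML (G : Type) (l : ℕ) : Type := Fin l → List G

/-- The total length. -/
def tot (x : ML G l) : ℕ := ∑ j, (x j).length

section Op

variable {D : Type} [AddCommGroup D] [Module k D]

/-- The kernel `t` acting in the coordinate `j`. -/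
def cop (t : Ker k G) (j : Fin l) : Module.End k (ML G l → D) where
  toFun f x := (t (x j)).sum fun y c => c • f (Function.update x j y)
  map_add' f f' := by
    funext x
    simp only [Pi.add_apply, smul_add]
    exact Finsupp.sum_add
  map_smul' a f := by
    funext x
    simp only [Pi.smul_apply, RingHom.id_apply]
    rw [Finsupp.smul_sum]
    refine Finsupp.sum_congr fun y _ => ?_
    rw [smul_comm]

/-- The sum of the lengths of the coordinates before `j`. -/
def pre (x : ML G l) (j : Fin l) : ℕ := ∑ i ∈ Finset.univ.filter (· < j), (x i).length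

/-- multiplication by a sign depending on the point -/
def sgn (n : ML G l → ℕ) : Module.End k (ML G l → D) where
  toFun f x := ((-1 : k) ^ n x) • f x
  map_add' f f' := by funext x; simp
  map_smul' a f := by
    funext x
    simp only [Pi.smul_apply, RingHom.id_apply]
    rw [smul_comm]

variable (k) in
/-- The differential `δ = ∑_j s_0 ⋯ s_{j-1} ∂_j`. -/
def dl : Module.End k (ML G l → D) :=
  ∑ j : Fin l, (sgn (fun x => pre x j) : Module.End k (ML G l → D)) * cop (dk : Ker k G) j

/-- `B* = ∏_j b_j`. -/
def bst (b : Ker k G) : Module.End k (ML G l → D) :=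
  (List.ofFn fun j : Fin l => (cop b j : Module.End k (ML G l → D))).prod

variable (k D) in
/-- The functions supported in total length `d`. -/
def Sd (G : Type) (l d : ℕ) : Submodule k (ML G l → D) where
  carrier := {f | ∀ x, tot x ≠ d → f x = 0}
  zero_mem' := fun _ _ => rfl
  add_mem' := by
    intro f f' hf hf' x hx
    rw [Pi.add_apply, hf x hx, hf' x hx, add_zero]
  smul_mem' := by
    intro a f hf x hx
    rw [Pi.smul_apply, hf x hx, smul_zero]

end Op

/-! ## The action of `E` -/

/-- The rotation `y ↦ (y_1, …, y_{l-1}, z⁻¹ y_0)`. -/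
def rot [NeZero l] (z : G) (y : ML G l) : ML G l := fun j =>
  if h : j.1 + 1 < l then y ⟨j.1 + 1, h⟩ else lsm z⁻¹ (y 0)

/-- The action of `G` on the functions: `(g f)(x) = g f(g⁻¹ x)`. -/
def gRho (ι : G →* E) (l : ℕ) (D : Rep.{0} k E) : G →* Module.End k (ML G l → D.V) where
  toFun g :=
    { toFun := fun f x => D.ρ (ι g) (f fun j => lsm g⁻¹ (x j))
      map_add' := fun f f' => by funext x; simp
      map_smul' := fun a f => by funext x; simp }
  map_one' := by
    apply LinearMap.ext
    intro f
    funext x
    simp [lsm]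
  map_mul' g g' := by
    apply LinearMap.ext
    intro f
    funext x
    simp [lsm, Function.comp_def, mul_assoc]

/-- The operator `(w f)(y) = ± w f(rot y)`. -/
def wOp [NeZero l] (w : E) (z : G) (D : Rep.{0} k E) : Module.End k (ML G l → D.V) where
  toFun f y := ((-1 : k) ^ ((y 0).length * (tot y - (y 0).length))) • D.ρ w (f (rot z y))
  map_add' f f' := by funext x; simp
  map_smul' a f := by
    funext x
    simp only [Pi.smul_apply, map_smul, RingHom.id_apply]
    rw [smul_comm]

end

end Pool.MP0c3001.DV
end

section

/-!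
# S01: algebra of the operators `cop`

`cop t j` applies the kernel `t` in the coordinate `j`.  All statements are elementary
manipulations of `Finsupp.sum` and `Function.update`:

* `cop_comp`: `(cop t j (cop t' j f)) x = ∑_y t(x_j)(y) ∑_{y'} t'(y)(y') f(update x j y')`
  (`Function.update_idem`, `Function.update_self`), and `kcomp t t' x = ∑_y t(x)(y) • t'(y)`
  (`Finsupp.linearCombination_apply`, `Finsupp.sum_sum_index`, `Finsupp.sum_smul_index`).
* `cop_comm`: for `i ≠ j` both sides are `∑_y ∑_{y'} t(x_i)(y) t'(x_j)(y') f(update (update x i y) j y')`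
  (`Function.update_comm`, `Function.update_of_ne`, `Finsupp.sum_comm`).
* `cop_gRho`: reindex the sum along the injective map `lsm g⁻¹`
  (`Finsupp.sum_mapDomain_index_inj`), `lsm g⁻¹ ∘ update x j y = update (lsm g⁻¹ ∘ x) j (lsm g⁻¹ y)`.
-/

set_option autoImplicit false

namespace Pool.MP0c3001.DV

open CategoryTheory CategoryTheory.Abelian Limits

noncomputable section

variable {k : Type} [CommRing k] {G E : Type} [Group G] [Group E] {l : ℕ}

lemma lsm_length (g : G) (x : List G) : (lsm g x).length = x.length := List.length_map _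

lemma lsm_lsm (g g' : G) (x : List G) : lsm g (lsm g' x) = lsm (g * g') x := by
  simp [lsm, Function.comp_def, mul_assoc]

lemma lsm_one (x : List G) : lsm 1 x = x := by simp [lsm]

lemma lsm_injective (g : G) : Function.Injective (lsm g) := by
  intro x y h
  have h1 := congrArg (lsm g⁻¹) h
  rwa [lsm_lsm, lsm_lsm, inv_mul_cancel, lsm_one, lsm_one] at h1

section

variable {D : Type} [AddCommGroup D] [Module k D]

lemma cop_apply (t : Ker k G) (j : Fin l) (f : ML G l → D) (x : ML G l) :
    cop t j f x = (t (x j)).sum fun y c => c • f (Function.update x j y) := rfl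

theorem cop_comp (t t' : Ker k G) (j : Fin l) :
    (cop t j : Module.End k (ML G l → D)) * cop t' j = cop (kcomp t t') j := by
  apply LinearMap.ext
  intro f
  funext x
  change (t (x j)).sum (fun y c => c • (t' (Function.update x j y j)).sum fun y' c' =>
    c' • f (Function.update (Function.update x j y) j y')) =
      (Finsupp.linearCombination k t' (t (x j))).sum fun y c => c • f (Function.update x j y)
  simp only [Function.update_self, Function.update_idem]
  rw [Finsupp.linearCombination_apply, Finsupp.sum_sum_index]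
  · refine Finsupp.sum_congr fun y _ => ?_
    rw [Finsupp.sum_smul_index, Finsupp.smul_sum]
    · refine Finsupp.sum_congr fun y' _ => ?_
      rw [mul_smul]
    · intro a
      exact zero_smul k _
  · intro a
    exact zero_smul k _
  · intro a b c
    exact add_smul _ _ _

theorem cop_comm (t t' : Ker k G) {i j : Fin l} (h : i ≠ j) :
    (cop t i : Module.End k (ML G l → D)) * cop t' j = cop t' j * cop t i := by
  apply LinearMap.ext
  intro f
  funext x
  change (t (x i)).sum (fun y c => c • (t' (Function.update x i y j)).sum fun y' c' =>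
    c' • f (Function.update (Function.update x i y) j y')) =
    (t' (x j)).sum (fun y' c' => c' • (t (Function.update x j y' i)).sum fun y c =>
      c • f (Function.update (Function.update x j y') i y))
  simp only [Function.update_of_ne h, Function.update_of_ne h.symm, Finsupp.smul_sum]
  rw [Finsupp.sum_comm]
  refine Finsupp.sum_congr fun y' _ => Finsupp.sum_congr fun y _ => ?_
  rw [smul_comm, Function.update_comm h]

theorem cop_idk (j : Fin l) : (cop idk j : Module.End k (ML G l → D)) = 1 := by
  apply LinearMap.ext
  intro f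
  funext x
  change (Finsupp.single (x j) (1 : k)).sum (fun y c => c • f (Function.update x j y)) = f x
  rw [Finsupp.sum_single_index]
  · rw [one_smul, Function.update_eq_self]
  · exact zero_smul k _

/-- additivity in the kernel -/
theorem cop_add (t t' : Ker k G) (j : Fin l) :
    (cop (fun x => t x + t' x) j : Module.End k (ML G l → D)) = cop t j + cop t' j := by
  apply LinearMap.ext
  intro f
  funext x
  change (t (x j) + t' (x j)).sum (fun y c => c • f (Function.update x j y)) =
    (t (x j)).sum (fun y c => c • f (Function.update x j y)) +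
      (t' (x j)).sum (fun y c => c • f (Function.update x j y))
  rw [Finsupp.sum_add_index']
  · intro a
    exact zero_smul k _
  · intro a b c
    exact add_smul _ _ _

/-- a kernel which preserves the length commutes with signs which only depend on the lengths -/
theorem cop_sgn {t : Ker k G} (ht : Len t) (j : Fin l) (n : ML G l → ℕ)
    (hn : ∀ x y : ML G l, (∀ i, (x i).length = (y i).length) → n x = n y) :
    (cop t j : Module.End k (ML G l → D)) * sgn n = sgn n * cop t j := by
  apply LinearMap.ext
  intro f
  funext x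
  change (t (x j)).sum (fun y c => c • (((-1 : k) ^ n (Function.update x j y)) • f (Function.update x j y))) =
    ((-1 : k) ^ n x) • (t (x j)).sum (fun y c => c • f (Function.update x j y))
  rw [Finsupp.smul_sum]
  refine Finsupp.sum_congr fun y hy => ?_
  have h1 : n (Function.update x j y) = n x := by
    apply hn
    intro i
    by_cases hi : i = j
    · rw [hi, Function.update_self]
      exact ht _ _ (Finsupp.mem_support_iff.1 hy)
    · rw [Function.update_of_ne hi]
  rw [h1, smul_comm]

/-- a kernel which preserves the length preserves the functions supported in total length `d` -/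
theorem cop_mem_Sd {t : Ker k G} (ht : Len t) (j : Fin l) {d : ℕ} {f : ML G l → D}
    (hf : f ∈ Sd k D G l d) : cop t j f ∈ Sd k D G l d := by
  intro x hx
  change (t (x j)).sum (fun y c => c • f (Function.update x j y)) = 0
  refine Finset.sum_eq_zero fun y hy => ?_
  have h1 : tot (Function.update x j y) = tot x := by
    unfold tot
    refine Finset.sum_congr rfl fun i _ => ?_
    by_cases hi : i = j
    · rw [hi, Function.update_self]
      exact ht _ _ (Finsupp.mem_support_iff.1 hy)
    · rw [Function.update_of_ne hi]
  change (t (x j)) y • f (Function.update x j y) = 0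
  rw [hf _ (by rw [h1]; exact hx), smul_zero]

end

theorem cop_gRho (ι : G →* E) (D : Rep.{0} k E) {t : Ker k G} (ht : Equi t) (j : Fin l) (g : G) :
    (cop t j : Module.End k (ML G l → D.V)) * gRho ι l D g = gRho ι l D g * cop t j := by
  apply LinearMap.ext
  intro f
  funext x
  change (t (x j)).sum (fun y c => c • D.ρ (ι g) (f fun i => lsm g⁻¹ (Function.update x j y i))) =
    D.ρ (ι g) ((t (lsm g⁻¹ (x j))).sum fun y c => c • f (Function.update (fun i => lsm g⁻¹ (x i)) j y))
  rw [ht, Finsupp.sum_mapDomain_index_inj (lsm_injective g⁻¹), map_finsuppSum]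
  refine Finsupp.sum_congr fun y _ => ?_
  rw [map_smul]
  congr 3
  funext i
  by_cases hi : i = j
  · rw [hi, Function.update_self, Function.update_self]
  · rw [Function.update_of_ne hi, Function.update_of_ne hi]

end

end Pool.MP0c3001.DV
end

section

/-!
# S09a: the permutation `rotInv`

`rotInv x = (z x_{l-1}, x_0, .., x_{l-2})` is inverse to `rot`; it commutes with `G` and its `l`-th power is
multiplication by `z` (elementary; for the power show by induction on `i ≤ l` the formula
`rotInv^i x (j) = x (j - i)` if `i ≤ j`, `= z x (j + l - i)` if `j < i`).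
-/

set_option autoImplicit false

namespace Pool.MP0c3001.DV

noncomputable section

variable {G : Type} [Group G] {l : ℕ} [NeZero l]

/-- `x ↦ (z x_{l-1}, x_0, .., x_{l-2})`. -/
def rotInv (z : G) (x : ML G l) : ML G l := fun j =>
  if j.1 = 0 then lsm z (x ⟨l - 1, Nat.sub_lt (Nat.pos_of_ne_zero (NeZero.ne l)) one_pos⟩)
  else x ⟨j.1 - 1, lt_of_le_of_lt (Nat.sub_le _ _) j.2⟩

theorem rot_rotInv (z : G) (x : ML G l) : rot z (rotInv z x) = x := by
  funext j
  by_cases h : j.1 + 1 < l
  · have h1 : rot z (rotInv z x) j = rotInv z x ⟨j.1 + 1, h⟩ := dif_pos h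
    have h2 : rotInv z x ⟨j.1 + 1, h⟩ = x ⟨j.1 + 1 - 1, lt_of_le_of_lt (Nat.sub_le _ _) h⟩ :=
      if_neg (Nat.succ_ne_zero j.1)
    rw [h1, h2]
    congr 1
  · have h1 : rot z (rotInv z x) j = lsm z⁻¹ (rotInv z x 0) := dif_neg h
    have h2 : rotInv z x 0 =
        lsm z (x ⟨l - 1, Nat.sub_lt (Nat.pos_of_ne_zero (NeZero.ne l)) one_pos⟩) := if_pos rfl
    rw [h1, h2, lsm_lsm, inv_mul_cancel, lsm_one]
    congr 1
    apply Fin.ext
    have := j.2
    show l - 1 = j.1
    omega

theorem rotInv_rot (z : G) (x : ML G l) : rotInv z (rot z x) = x := by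
  funext j
  have hl : 0 < l := Nat.pos_of_ne_zero (NeZero.ne l)
  by_cases h : j.1 = 0
  · have h1 : rotInv z (rot z x) j =
        lsm z (rot z x ⟨l - 1, Nat.sub_lt (Nat.pos_of_ne_zero (NeZero.ne l)) one_pos⟩) := if_pos h
    have h2 : rot z x ⟨l - 1, Nat.sub_lt (Nat.pos_of_ne_zero (NeZero.ne l)) one_pos⟩ =
        lsm z⁻¹ (x 0) := dif_neg (by
          show ¬ (l - 1 + 1 < l)
          omega)
    rw [h1, h2, lsm_lsm, mul_inv_cancel, lsm_one]
    congr 1
    apply Fin.ext
    show 0 = j.1
    omega
  · have h1 : rotInv z (rot z x) j = rot z x ⟨j.1 - 1, lt_of_le_of_lt (Nat.sub_le _ _) j.2⟩ :=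
      if_neg h
    have h3 : j.1 - 1 + 1 < l := by
      have := j.2
      omega
    have h2 : rot z x ⟨j.1 - 1, lt_of_le_of_lt (Nat.sub_le _ _) j.2⟩ = x ⟨j.1 - 1 + 1, h3⟩ :=
      dif_pos h3
    rw [h1, h2]
    congr 1
    apply Fin.ext
    show j.1 - 1 + 1 = j.1
    omega

theorem rotInv_lsm {z : G} (hz : ∀ g : G, z * g = g * z) (g : G) (x : ML G l) :
    rotInv z (fun j => lsm g (x j)) = fun j => lsm g (rotInv z x j) := by
  funext j
  by_cases h : j.1 = 0
  · have h1 : rotInv z (fun j => lsm g (x j)) j =
        lsm z (lsm g (x ⟨l - 1, Nat.sub_lt (Nat.pos_of_ne_zero (NeZero.ne l)) one_pos⟩)) :=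
      if_pos h
    have h2 : rotInv z x j =
        lsm z (x ⟨l - 1, Nat.sub_lt (Nat.pos_of_ne_zero (NeZero.ne l)) one_pos⟩) := if_pos h
    rw [h1]
    show _ = lsm g (rotInv z x j)
    rw [h2, lsm_lsm, lsm_lsm, hz]
  · have h1 : rotInv z (fun j => lsm g (x j)) j =
        lsm g (x ⟨j.1 - 1, lt_of_le_of_lt (Nat.sub_le _ _) j.2⟩) := if_neg h
    have h2 : rotInv z x j = x ⟨j.1 - 1, lt_of_le_of_lt (Nat.sub_le _ _) j.2⟩ := if_neg h
    rw [h1]
    show _ = lsm g (rotInv z x j)
    rw [h2]

theorem rotInv_iterate {z : G} (hz : ∀ g : G, z * g = g * z) (x : ML G l) :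
    (rotInv z)^[l] x = fun j => lsm z (x j) := by
  have key : ∀ i : ℕ, i ≤ l → ∀ j : Fin l,
      (∀ h : i ≤ j.1, (rotInv z)^[i] x j = x ⟨j.1 - i, lt_of_le_of_lt (Nat.sub_le _ _) j.2⟩) ∧
      (∀ h : j.1 + l - i < l, j.1 < i → (rotInv z)^[i] x j = lsm z (x ⟨j.1 + l - i, h⟩)) := by
    intro i
    induction i with
    | zero =>
      intro _ j
      refine ⟨fun _ => rfl, fun _ h => absurd h (Nat.not_lt_zero _)⟩
    | succ i ih =>
      intro hi j
      have hl : 0 < l := Nat.pos_of_ne_zero (NeZero.ne l)
      have hi' : i ≤ l := by omega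
      rw [Function.iterate_succ_apply']
      by_cases h0 : j.1 = 0
      · have h1 : rotInv z ((rotInv z)^[i] x) j = lsm z ((rotInv z)^[i] x
            ⟨l - 1, Nat.sub_lt (Nat.pos_of_ne_zero (NeZero.ne l)) one_pos⟩) := if_pos h0
        refine ⟨fun h => by omega, fun h _ => ?_⟩
        rw [h1, (ih hi' ⟨l - 1, Nat.sub_lt (Nat.pos_of_ne_zero (NeZero.ne l)) one_pos⟩).1
          (by show i ≤ l - 1; omega)]
        congr 2
        apply Fin.ext
        show l - 1 - i = j.1 + l - (i + 1)
        omega
      · have h1 : rotInv z ((rotInv z)^[i] x) j = (rotInv z)^[i] x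
            ⟨j.1 - 1, lt_of_le_of_lt (Nat.sub_le _ _) j.2⟩ := if_neg h0
        have hj := j.2
        refine ⟨fun h => ?_, fun h h' => ?_⟩
        · rw [h1, (ih hi' ⟨j.1 - 1, lt_of_le_of_lt (Nat.sub_le _ _) j.2⟩).1
            (by show i ≤ j.1 - 1; omega)]
          congr 1
          apply Fin.ext
          show j.1 - 1 - i = j.1 - (i + 1)
          omega
        · rw [h1, (ih hi' ⟨j.1 - 1, lt_of_le_of_lt (Nat.sub_le _ _) j.2⟩).2
            (by show j.1 - 1 + l - i < l; omega) (by show j.1 - 1 < i; omega)]
          congr 2
          apply Fin.ext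
          show j.1 - 1 + l - i = j.1 + l - (i + 1)
          omega
  funext j
  have hj := j.2
  rw [(key l le_rfl j).2 (by omega) j.2]
  congr 2
  apply Fin.ext
  show j.1 + l - l = j.1
  omega

theorem tot_rotInv (z : G) (x : ML G l) : tot (rotInv z x) = tot x := by
  obtain ⟨n, rfl⟩ : ∃ n, l = n + 1 := ⟨l - 1, by have := NeZero.ne l; omega⟩
  unfold tot
  rw [Fin.sum_univ_succ, Fin.sum_univ_castSucc, add_comm]
  congr 1
  show (lsm z (x ⟨n + 1 - 1, _⟩)).length = _
  rw [lsm_length]
  rfl

theorem tot_lsm (g : G) (x : ML G l) : tot (fun j => lsm g (x j)) = tot x := by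
  unfold tot
  exact Finset.sum_congr rfl fun j _ => lsm_length g (x j)

end

end Pool.MP0c3001.DV
end

section

/-!
# The module `D = coker (V → Map(R,V))` realized as cocycles (definitions; complete)
-/

set_option autoImplicit false

namespace Pool.MP0c3001.DV

open CategoryTheory CategoryTheory.Abelian Limits

noncomputable section

variable {k : Type} [CommRing k] {G Q : Type} [Group G] [Group Q] {π : G →* Q} {z : G}
  (hπ : CycExt π z) (l : ℕ) (V : Rep.{0} k Q)

/-- The representation of `Q` on the functions `R → R → V`. -/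
def rrRho : Representation k Q (Rt z l → Rt z l → V.V) :=
  letI := conjAct hπ l
  { toFun := fun q =>
      { toFun := fun u r r' => V.ρ q (u (q⁻¹ • r) (q⁻¹ • r'))
        map_add' := fun f f' => by funext r r'; simp
        map_smul' := fun c f => by funext r r'; simp }
    map_one' := by
      apply LinearMap.ext
      intro f
      funext r r'
      change V.ρ 1 (f ((1 : Q)⁻¹ • r) ((1 : Q)⁻¹ • r')) = f r r'
      rw [inv_one, one_smul, one_smul, map_one]
      rfl
    map_mul' := fun g h => by
      apply LinearMap.ext
      intro f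
      funext r r'
      change V.ρ (g * h) (f ((g * h)⁻¹ • r) ((g * h)⁻¹ • r')) =
        V.ρ g (V.ρ h (f (h⁻¹ • g⁻¹ • r) (h⁻¹ • g⁻¹ • r')))
      rw [mul_inv_rev, mul_smul, mul_smul, map_mul]
      rfl }

/-- The cocycles. -/
def rrCoc : Submodule k (Rt z l → Rt z l → V.V) where
  carrier := {u | ∀ r r' r'', u r r'' = u r r' + u r' r''}
  zero_mem' := fun _ _ _ => (add_zero _).symm
  add_mem' := by
    intro u u' hu hu' r r' r''
    change u r r'' + u' r r'' = (u r r' + u' r r') + (u r' r'' + u' r' r'')
    rw [hu r r' r'', hu' r r' r'']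
    abel
  smul_mem' := by
    intro a u hu r r' r''
    change a • u r r'' = a • u r r' + a • u r' r''
    rw [hu r r' r'', smul_add]

/-- The module `D`. -/
abbrev Dr : Rep.{0} k Q :=
  Rep.subrepresentation (Rep.of (rrRho hπ l V)) (rrCoc l V) (by
    intro q u hu r r' r''
    change V.ρ q (u _ _) = V.ρ q (u _ _) + V.ρ q (u _ _)
    rw [← map_add, ← hu])

/-- The map `Map(R,V) → D`, `F ↦ ((r, r') ↦ F(r') - F(r))`. -/
def drMap : MR hπ l V ⟶ Dr hπ l V :=
  Rep.ofHom
    { toLinearMap :=
        { toFun := fun F => ⟨fun r r' => F r' - F r, fun r r' r'' =>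
            (sub_add_sub_cancel' (F r') (F r) (F r'')).symm⟩
          map_add' := fun F F' => by
            apply Subtype.ext
            funext r r'
            change F r' + F' r' - (F r + F' r) = F r' - F r + (F' r' - F' r)
            abel
          map_smul' := fun a F => by
            apply Subtype.ext
            funext r r'
            change a • F r' - a • F r = a • (F r' - F r)
            rw [smul_sub] }
      isIntertwining' := by
        intro q
        apply LinearMap.ext
        intro F
        apply Subtype.ext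
        funext r r'
        exact (map_sub (V.ρ q) _ _).symm }

lemma drConst : mrConst hπ l V ≫ drMap hπ l V = 0 := by
  apply Rep.hom_ext
  apply Representation.IntertwiningMap.ext
  apply LinearMap.ext
  intro v
  apply Subtype.ext
  funext r r'
  exact sub_self v

/-- `0 → V → Map(R,V) → D → 0` is exact if `R` is not empty. -/
theorem drSeq [hne : Nonempty (Rt z l)] :
    (ShortComplex.mk (mrConst hπ l V) (drMap hπ l V) (drConst hπ l V)).ShortExact := by
  obtain ⟨r₀⟩ := hne
  apply shortExact_of
  · intro v v' hv
    exact congrFun hv r₀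
  · rintro ⟨u, hu⟩
    refine ⟨fun r => u r₀ r, ?_⟩
    apply Subtype.ext
    funext r r'
    change u r₀ r' - u r₀ r = u r r'
    rw [hu r₀ r r']
    abel
  · intro F hF
    refine ⟨F r₀, ?_⟩
    funext r
    have h1 := congrFun (congrFun (congrArg Subtype.val hF) r) r₀
    change F r₀ - F r = 0 at h1
    exact sub_eq_zero.1 h1

end

end Pool.MP0c3001.DV
end
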