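import Pool.Agent.Lib.MP_0c3001_gt.Mg.G012

section

/-!
# S02: the differential `δ`

`δ = ∑_j s_{<j} ∂_j`, `s_{<j} = sgn (pre · j)`.

Facts on kernels (lists): `kcomp dk dk = 0` (the usual `∂∂ = 0`, cf. `List.eraseIdx_eraseIdx` or an
induction over the list: `dk (a :: x) = x - a :: dk x`, i.e. first show
`dk (a :: x) = single x 1 - (dk x).mapDomain (a :: ·)`), and `ck`-homotopy:
`kcomp ck dk x + kcomp dk ck x = single x 1` (from the same formula for `dk (a :: x)` with `a = 1`).
REMEMBER: `cop t j * cop t' j = cop (kcomp t t') j` (first `t`, then `t'`).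

* `dl_sq`: `δδ = ∑_{i,j} s_{<i} ∂_i s_{<j} ∂_j`.  For `i ≥ j`: `∂_i` commutes with `s_{<j}`
  (it changes a coordinate which is not `< j`; for `i = j` the product `∂_i ∂_i = 0`).  For `i < j`:
  `∂_i s_{<j} = - s_{<j} ∂_i` (in `s_{<j}` the length of the coordinate `i` changes by one).  So the
  terms `(i,j)` and `(j,i)` cancel for `i ≠ j` (`cop_comm`), the diagonal vanishes.
* `dl_homotopy`: with `h = cop ck 0` : `h δ + δ h = 1`: for `j > 0` `h s_{<j} ∂_j = - s_{<j} ∂_j h`
  (the coordinate `0 < j` is longer by one), for `j = 0` the kernel identity above, `s_{<0} = 1`.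
-/

set_option autoImplicit false

namespace Pool.MP0c3001.DV

open CategoryTheory CategoryTheory.Abelian Limits

noncomputable section

variable {k : Type} [CommRing k] {G : Type} [Group G] {l : ℕ}

lemma dk_cons (a : G) (x : List G) :
    (dk (a :: x) : List G →₀ k) = Finsupp.single x 1 - (dk x).mapDomain (a :: ·) := by
  unfold dk
  rw [List.length_cons, Finset.sum_range_succ', Finsupp.mapDomain_finsetSum, sub_eq_add_neg,
    ← Finset.sum_neg_distrib, add_comm]
  congr 1
  · simp
  · refine Finset.sum_congr rfl fun i _ => ?_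
    rw [Finsupp.mapDomain_single, List.eraseIdx_cons_succ, pow_succ, mul_neg_one,
      Finsupp.single_neg]

private lemma S02_kx_map (t : Ker k G) (a : G) (v : List G →₀ k) :
    kx t (v.mapDomain (a :: ·)) = kx (fun y => t (a :: y)) v := by
  change Finsupp.linearCombination k t (v.mapDomain (a :: ·)) = _
  rw [Finsupp.linearCombination_mapDomain]
  rfl

theorem dk_dk : kcomp (dk : Ker k G) dk = 0 := by
  funext x
  change kx dk (dk x) = 0
  induction x with
  | nil => simp [dk]
  | cons a x ih =>
    have h1 : ∀ v : List G →₀ k, kx (fun y => (dk (a :: y) : List G →₀ k)) v =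
        v - (kx dk v).mapDomain (a :: ·) := by
      intro v
      induction v using Finsupp.induction_linear with
      | zero => simp
      | add u v hu hv =>
        rw [map_add, hu, hv, map_add, Finsupp.mapDomain_add]
        abel
      | single y c =>
        change Finsupp.linearCombination k (fun y => (dk (a :: y) : List G →₀ k))
          (Finsupp.single y c) = Finsupp.single y c -
            Finsupp.mapDomain (a :: ·) (Finsupp.linearCombination k dk (Finsupp.single y c))
        rw [Finsupp.linearCombination_single, Finsupp.linearCombination_single, dk_cons, smul_sub,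
          Finsupp.smul_single, smul_eq_mul, mul_one, Finsupp.mapDomain_smul]
    rw [dk_cons, map_sub, S02_kx_map, h1, ih]
    change Finsupp.linearCombination k _ _ - _ = _
    rw [Finsupp.linearCombination_single, one_smul]
    simp

theorem dk_ck (x : List G) : kcomp (ck : Ker k G) dk x + kcomp dk ck x = Finsupp.single x 1 := by
  have h1 : kcomp (ck : Ker k G) dk x = dk (1 :: x) := by
    change Finsupp.linearCombination k _ (Finsupp.single (1 :: x) (1 : k)) = _
    rw [Finsupp.linearCombination_single, one_smul]
  have h2 : kcomp (dk : Ker k G) ck x = (dk x).mapDomain (1 :: ·) := by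
    change Finsupp.linearCombination k _ (dk x) = _
    rw [Finsupp.linearCombination_apply, Finsupp.mapDomain]
    refine Finsupp.sum_congr fun y _ => ?_
    unfold ck
    rw [Finsupp.smul_single, smul_eq_mul, mul_one]
  rw [h1, h2, dk_cons, sub_add_cancel]

lemma dk_len {x y : List G} (h : (dk x : List G →₀ k) y ≠ 0) : y.length + 1 = x.length := by
  unfold dk at h
  rw [Finsupp.finsetSum_apply] at h
  obtain ⟨i, hi, h1⟩ := Finset.exists_ne_zero_of_sum_ne_zero h
  rw [Finset.mem_range] at hi
  have h2 : x.eraseIdx i = y := by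
    by_contra hn
    exact h1 (Finsupp.single_eq_of_ne (Ne.symm hn))
  rw [← h2, List.length_eraseIdx_of_lt hi]
  omega

lemma dk_equi : Equi (dk : Ker k G) := by
  intro g x
  unfold dk
  rw [lsm_length, Finsupp.mapDomain_finsetSum]
  refine Finset.sum_congr rfl fun i _ => ?_
  rw [Finsupp.mapDomain_single]
  unfold lsm
  rw [List.eraseIdx_map]

variable {D : Type} [AddCommGroup D] [Module k D]

/-- the length of the changed coordinate enters a sum of lengths -/
private lemma S02_sum_mem (S : Finset (Fin l)) (x : ML G l) (i : Fin l) (y : List G) (hi : i ∈ S) :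
    ∑ j ∈ S, (Function.update x i y j).length + (x i).length =
      ∑ j ∈ S, (x j).length + y.length := by
  rw [← Finset.add_sum_erase _ _ hi, ← Finset.add_sum_erase S (fun j => (x j).length) hi,
    Function.update_self]
  have h : ∑ j ∈ S.erase i, (Function.update x i y j).length = ∑ j ∈ S.erase i, (x j).length :=
    Finset.sum_congr rfl fun j hj => by rw [Function.update_of_ne (Finset.ne_of_mem_erase hj)]
  rw [h]
  omega

private lemma S02_sum_not_mem (S : Finset (Fin l)) (x : ML G l) (i : Fin l) (y : List G)
    (hi : i ∉ S) : ∑ j ∈ S, (Function.update x i y j).length = ∑ j ∈ S, (x j).length :=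
  Finset.sum_congr rfl fun j hj => by
    rw [Function.update_of_ne (fun h : j = i => hi (by rw [← h]; exact hj))]

private lemma S02_pre_lt {i j : Fin l} (h : i < j) (x : ML G l) (y : List G) :
    pre (Function.update x i y) j + (x i).length = pre x j + y.length :=
  S02_sum_mem _ x i y (Finset.mem_filter.2 ⟨Finset.mem_univ _, h⟩)

private lemma S02_pre_le {i j : Fin l} (h : j ≤ i) (x : ML G l) (y : List G) :
    pre (Function.update x i y) j = pre x j :=
  S02_sum_not_mem _ x i y (fun hm => absurd (Finset.mem_filter.1 hm).2 (not_lt.2 h))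

private lemma S02_tot (i : Fin l) (x : ML G l) (y : List G) :
    tot (Function.update x i y) + (x i).length = tot x + y.length :=
  S02_sum_mem _ x i y (Finset.mem_univ _)

private lemma S02_cop_sgn (t : Ker k G) (j : Fin l) (n : ML G l → ℕ) (ε : k)
    (h : ∀ x y, t (x j) y ≠ 0 → (-1 : k) ^ n (Function.update x j y) = ε * (-1) ^ n x) :
    (cop t j : Module.End k (ML G l → D)) * sgn n = ε • (sgn n * cop t j) := by
  apply LinearMap.ext
  intro f
  funext x
  change ((t (x j)).sum fun y c => c • (((-1 : k) ^ n (Function.update x j y)) •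
      f (Function.update x j y))) =
    ε • (((-1 : k) ^ n x) • ((t (x j)).sum fun y c => c • f (Function.update x j y)))
  rw [Finsupp.smul_sum, Finsupp.smul_sum]
  refine Finsupp.sum_congr fun y hy => ?_
  rw [h x y (Finsupp.mem_support_iff.1 hy), smul_smul, smul_smul, smul_smul]
  congr 1
  ring

private lemma S02_sgn_comm (n n' : ML G l → ℕ) :
    (sgn n : Module.End k (ML G l → D)) * sgn n' = sgn n' * sgn n := by
  apply LinearMap.ext
  intro f
  funext x
  change ((-1 : k) ^ n x) • (((-1 : k) ^ n' x) • f x) = ((-1 : k) ^ n' x) • (((-1 : k) ^ n x) • f x)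
  rw [smul_comm]

omit [Group G] in
private lemma S02_neg (A : Module.End k (ML G l → D)) : (-1 : k) • A + A = 0 := by
  have h : (-1 : k) • A + A = ((-1 : k) + 1) • A := by rw [add_smul, one_smul]
  rw [h, neg_add_cancel, zero_smul]

private lemma S02_lt {i j : Fin l} (h : i < j) :
    (cop (dk : Ker k G) i : Module.End k (ML G l → D)) * sgn (fun x => pre x j) +
      sgn (fun x => pre x j) * cop (dk : Ker k G) i = 0 := by
  rw [S02_cop_sgn (dk : Ker k G) i (fun x => pre x j) (-1)]
  · exact S02_neg _
  intro x y hy
  have h1 := dk_len hy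
  have h2 := S02_pre_lt h x y
  have h3 : pre x j = pre (Function.update x i y) j + 1 := by omega
  beta_reduce
  rw [h3, pow_succ]
  ring

private lemma S02_le {i j : Fin l} (h : j ≤ i) :
    (cop (dk : Ker k G) i : Module.End k (ML G l → D)) * sgn (fun x => pre x j) =
      sgn (fun x => pre x j) * cop (dk : Ker k G) i := by
  rw [S02_cop_sgn (dk : Ker k G) i (fun x => pre x j) 1, one_smul]
  intro x y _
  beta_reduce
  rw [S02_pre_le h x y, one_mul]

private lemma S02_diag (i : Fin l) :
    ((sgn (fun x => pre x i) : Module.End k (ML G l → D)) * cop (dk : Ker k G) i) *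
      (sgn (fun x => pre x i) * cop (dk : Ker k G) i) = 0 := by
  rw [mul_assoc, ← mul_assoc (cop (dk : Ker k G) i), S02_le (le_refl i), mul_assoc, cop_comp,
    dk_dk]
  have h : (cop (0 : Ker k G) i : Module.End k (ML G l → D)) = 0 := by
    apply LinearMap.ext
    intro f
    funext x
    rw [cop_apply]
    simp
  rw [h, mul_zero, mul_zero]

private lemma S02_anti {i j : Fin l} (h : i < j) :
    ((sgn (fun x => pre x i) : Module.End k (ML G l → D)) * cop (dk : Ker k G) i) *
      (sgn (fun x => pre x j) * cop (dk : Ker k G) j) +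
    (sgn (fun x => pre x j) * cop (dk : Ker k G) j) *
      (sgn (fun x => pre x i) * cop (dk : Ker k G) i) = 0 := by
  have h1 : ((sgn (fun x => pre x i) : Module.End k (ML G l → D)) * cop (dk : Ker k G) i) *
      (sgn (fun x => pre x j) * cop (dk : Ker k G) j) =
      sgn (fun x => pre x i) * ((cop (dk : Ker k G) i * sgn (fun x => pre x j)) *
        cop (dk : Ker k G) j) := by
    rw [mul_assoc, ← mul_assoc (cop (dk : Ker k G) i)]
  have h2 : ((sgn (fun x => pre x j) : Module.End k (ML G l → D)) * cop (dk : Ker k G) j) *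
      (sgn (fun x => pre x i) * cop (dk : Ker k G) i) =
      sgn (fun x => pre x i) * ((sgn (fun x => pre x j) * cop (dk : Ker k G) i) *
        cop (dk : Ker k G) j) := by
    rw [mul_assoc, ← mul_assoc (cop (dk : Ker k G) j), S02_le h.le, mul_assoc,
      cop_comm dk dk h.ne', ← mul_assoc, S02_sgn_comm, mul_assoc, mul_assoc]
  rw [h1, h2, ← mul_add, ← add_mul, S02_lt h, zero_mul, mul_zero]

theorem dl_sq : (dl k : Module.End k (ML G l → D)) * dl k = 0 := by
  unfold dl
  rw [Finset.sum_mul_sum, ← Finset.sum_product']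
  refine Finset.sum_involution (fun a _ => (a.2, a.1)) ?_ ?_ (fun _ _ => Finset.mem_univ _)
    (fun _ _ => rfl)
  · rintro ⟨i, j⟩ _
    rcases lt_trichotomy i j with h | h | h
    · exact S02_anti h
    · subst h
      rw [S02_diag, add_zero]
    · rw [add_comm]
      exact S02_anti h
  · rintro ⟨i, j⟩ _ hne heq
    have h : j = i := congrArg Prod.fst heq
    subst h
    exact hne (S02_diag j)

theorem dl_homotopy [NeZero l] :
    (cop (ck : Ker k G) (0 : Fin l) : Module.End k (ML G l → D)) * dl k + dl k * cop ck (0 : Fin l) = 1 := by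
  unfold dl
  rw [Finset.mul_sum, Finset.sum_mul, ← Finset.sum_add_distrib, Finset.sum_eq_single (0 : Fin l)]
  · have h0 : (sgn (fun x => pre x (0 : Fin l)) : Module.End k (ML G l → D)) = 1 := by
      apply LinearMap.ext
      intro f
      funext x
      change ((-1 : k) ^ pre x (0 : Fin l)) • f x = f x
      have h1 : pre x (0 : Fin l) = 0 := by
        unfold pre
        rw [Finset.filter_false_of_mem, Finset.sum_empty]
        intro i _
        exact Fin.not_lt_zero i
      rw [h1, pow_zero, one_smul]
    rw [h0, one_mul, cop_comp, cop_comp, ← cop_add]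
    have h1 : (fun x => kcomp (ck : Ker k G) dk x + kcomp dk ck x) = idk := by
      funext x
      exact dk_ck x
    rw [h1, cop_idk]
  · intro j _ hj
    have hj0 : (0 : Fin l) < j := lt_of_le_of_ne (Fin.zero_le j) (Ne.symm hj)
    have h1 : (cop (ck : Ker k G) (0 : Fin l) : Module.End k (ML G l → D)) *
        sgn (fun x => pre x j) + sgn (fun x => pre x j) * cop (ck : Ker k G) (0 : Fin l) = 0 := by
      rw [S02_cop_sgn (ck : Ker k G) (0 : Fin l) (fun x => pre x j) (-1)]
      · exact S02_neg _
      intro x y hy
      have h2 : y = 1 :: x 0 := by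
        by_contra hn
        exact hy (Finsupp.single_eq_of_ne hn)
      have h3 := S02_pre_lt hj0 x y
      have h4 : y.length = (x 0).length + 1 := by rw [h2, List.length_cons]
      have h5 : pre (Function.update x 0 y) j = pre x j + 1 := by omega
      beta_reduce
      rw [h5, pow_succ]
      ring
    rw [← mul_assoc, mul_assoc (sgn _) (cop dk j), ← cop_comm ck dk hj0.ne, ← mul_assoc, ← add_mul,
      h1, zero_mul]
  · intro h
    exact absurd (Finset.mem_univ _) h

/-- `δ` raises the total length by one -/
theorem dl_mem_Sd {d : ℕ} {f : ML G l → D} (hf : f ∈ Sd k D G l d) : dl k f ∈ Sd k D G l (d + 1) := by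
  intro x hx
  unfold dl
  rw [LinearMap.sum_apply, Finset.sum_apply]
  refine Finset.sum_eq_zero fun j _ => ?_
  change ((-1 : k) ^ pre x j) • (((dk : Ker k G) (x j)).sum fun y c =>
    c • f (Function.update x j y)) = 0
  rw [Finsupp.sum, Finset.sum_eq_zero, smul_zero]
  intro y hy
  have h1 := dk_len (Finsupp.mem_support_iff.1 hy)
  have h2 := S02_tot j x y
  rw [hf _ (by omega), smul_zero]

/-- the homotopy lowers the total length by one -/
theorem ck_mem_Sd [NeZero l] {d : ℕ} {f : ML G l → D} (hf : f ∈ Sd k D G l (d + 1)) :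
    cop (ck : Ker k G) (0 : Fin l) f ∈ Sd k D G l d := by
  intro x hx
  rw [cop_apply]
  unfold ck
  have h2 := S02_tot 0 x (1 :: x 0)
  rw [List.length_cons] at h2
  rw [Finsupp.sum_single_index (h := fun y c => c • f (Function.update x 0 y)) (zero_smul _ _),
    hf _ (by omega), smul_zero]

/-- the homotopy is zero in total length `0` -/
theorem ck_Sd_zero [NeZero l] {f : ML G l → D} (hf : f ∈ Sd k D G l 0) :
    cop (ck : Ker k G) (0 : Fin l) f = 0 := by
  funext x
  rw [cop_apply]
  unfold ck
  have h2 := S02_tot 0 x (1 :: x 0)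
  rw [List.length_cons] at h2
  rw [Finsupp.sum_single_index (h := fun y c => c • f (Function.update x 0 y)) (zero_smul _ _),
    hf _ (by omega), smul_zero]
  rfl

end

end Pool.MP0c3001.DV
end

section

/-!
# S03: the operator `B* = ∏_j b_j`

Let `b` be a chain map (`ChainB b m N`).  `cop b j` commutes with `cop b i` (`i ≠ j`: `cop_comm`), so
`cop b j` commutes with `δ`: for each `i`, `cop b j * sgn (pre · i) = sgn (pre · i) * cop b j`
(`cop_sgn`, as `b` preserves lengths), `cop b j * cop dk i = cop dk i * cop b j` (`cop_comm` for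
`i ≠ j`, `cop_comp` and `comm : kcomp b dk = kcomp dk b` for `i = j`).  Hence `bst b` (a product in
the ring `Module.End`) commutes with `δ` (`Commute.list_prod_right` or an induction).

* `bst_zero`: if `tot x = 0` all coordinates of `x` are `[]`, `b [] = single [] m`, so every factor
  multiplies `f x` by `m` and the product by `m ^ l` (induct over the list of the factors; the
  operators `cop b j` preserve `Sd`).  Convenient formulation: for `f ∈ Sd k D G l 0`,
  `cop b j f = (m : k) • f`.
* `bst_top`: if `f ∈ Sd d`, `l * N < d`, then `bst b f = 0`.  Proof: `bst b f` is a sum of values at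
  `y` with `(y i).length = (x i).length` times `∏ (b (x i)) (y i)`; if `tot x ≠ d` it is `0`
  (`Sd` is preserved), if `tot x = d > l N` then some `j` has `(x j).length > N`.  Since the
  factors commute one can move `cop b j` to the front: `bst b = cop b j * T` (e.g. by
  `List.prod_erase`-like lemmas or by showing by induction on the list `L` of coordinates that
  `(L.map (cop b)).prod f x = 0` whenever some `j ∈ L` has `N < (x j).length`, using that
  `cop b i g x` only involves values of `g` at points `update x i y` with `y.length = (x i).length`,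
  so that the length of the coordinate `j` is unchanged). -/

set_option autoImplicit false

namespace Pool.MP0c3001.DV

open CategoryTheory CategoryTheory.Abelian Limits

noncomputable section

variable {k : Type} [CommRing k] {G : Type} [Group G] {l : ℕ}
  {D : Type} [AddCommGroup D] [Module k D] {b : Ker k G} {m N : ℕ}

private theorem bst_eq (b : Ker k G) : (bst b : Module.End k (ML G l → D)) =
    ((List.finRange l).map fun j => (cop b j : Module.End k (ML G l → D))).prod := by
  unfold bst
  rw [List.ofFn_eq_map]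

private theorem cop_dl (hb : ChainB b m N) (j : Fin l) :
    (cop b j : Module.End k (ML G l → D)) * dl k = dl k * cop b j := by
  unfold dl
  rw [Finset.mul_sum, Finset.sum_mul]
  refine Finset.sum_congr rfl fun i _ => ?_
  have h1 : (cop b j : Module.End k (ML G l → D)) * sgn (fun x => pre x i) =
      sgn (fun x => pre x i) * cop b j := by
    apply cop_sgn hb.len j
    intro x y hxy
    show pre x i = pre y i
    unfold pre
    exact Finset.sum_congr rfl fun i' _ => hxy i'
  have h2 : (cop b j : Module.End k (ML G l → D)) * cop dk i = cop dk i * cop b j := by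
    by_cases hij : j = i
    · subst hij
      rw [cop_comp, cop_comp, hb.comm]
    · exact cop_comm b dk hij
  rw [← mul_assoc, h1, mul_assoc, h2, mul_assoc]

theorem bst_dl (hb : ChainB b m N) : (bst b : Module.End k (ML G l → D)) * dl k = dl k * bst b := by
  rw [bst_eq]
  apply Commute.list_prod_left
  intro x hx
  obtain ⟨j, -, rfl⟩ := List.mem_map.mp hx
  exact cop_dl hb j

private theorem list_mem_Sd (hb : ChainB b m N) {d : ℕ} (L : List (Fin l)) :
    ∀ f ∈ Sd k D G l d, (L.map fun j => (cop b j : Module.End k (ML G l → D))).prod f ∈ Sd k D G l d := by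
  induction L with
  | nil =>
    intro f hf
    rw [List.map_nil, List.prod_nil]
    exact hf
  | cons i L ih =>
    intro f hf
    rw [List.map_cons, List.prod_cons]
    exact cop_mem_Sd hb.len i (ih f hf)

private theorem cop_zero_Sd (hb : ChainB b m N) (j : Fin l) {f : ML G l → D} (hf : f ∈ Sd k D G l 0) :
    cop b j f = m • f := by
  funext x
  rw [Pi.smul_apply]
  by_cases hx : tot x = 0
  · have hxj : x j = [] := by
      unfold tot at hx
      exact List.length_eq_zero_iff.mp (Finset.sum_eq_zero_iff.mp hx j (Finset.mem_univ j))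
    have e := Finsupp.sum_single_index (a := ([] : List G)) (b := (m : k))
      (h := fun (y : List G) (c : k) => c • f (Function.update x j y)) (zero_smul k _)
    have e2 : Function.update x j [] = x := by
      rw [← hxj]
      exact Function.update_eq_self j x
    rw [cop_apply, hxj, hb.nil, e, Nat.cast_smul_eq_nsmul, e2]
  · have h1 := cop_mem_Sd hb.len j hf x hx
    rw [h1, hf x hx, smul_zero]

private theorem list_zero (hb : ChainB b m N) (L : List (Fin l)) :
    ∀ f ∈ Sd k D G l 0, (L.map fun j => (cop b j : Module.End k (ML G l → D))).prod f =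
      (m ^ L.length) • f := by
  induction L with
  | nil =>
    intro f hf
    rw [List.map_nil, List.prod_nil, List.length_nil, pow_zero, one_smul]
    rfl
  | cons i L ih =>
    intro f hf
    rw [List.map_cons, List.prod_cons, List.length_cons, pow_succ, mul_smul]
    show cop b i ((L.map fun j => (cop b j : Module.End k (ML G l → D))).prod f) = _
    rw [ih f hf, map_nsmul, cop_zero_Sd hb i hf]

private theorem list_top (hb : ChainB b m N) (j : Fin l) (L : List (Fin l)) (g : ML G l → D) :
    j ∈ L → ∀ x : ML G l, N < (x j).length →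
      (L.map fun j => (cop b j : Module.End k (ML G l → D))).prod g x = 0 := by
  induction L with
  | nil =>
    intro h
    simp at h
  | cons i L ih =>
    intro hj x hx
    rw [List.map_cons, List.prod_cons]
    show cop b i ((L.map fun j => (cop b j : Module.End k (ML G l → D))).prod g) x = 0
    rw [cop_apply]
    by_cases hij : i = j
    · rw [hij, hb.top _ hx, Finsupp.sum_zero_index]
    · have hjL : j ∈ L := by
        rcases List.mem_cons.mp hj with h | h
        · exact absurd h.symm hij
        · exact h
      unfold Finsupp.sum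
      refine Finset.sum_eq_zero fun y _ => ?_
      have h1 : N < (Function.update x i y j).length := by
        rw [Function.update_of_ne (Ne.symm hij)]
        exact hx
      show _ • _ = (0 : D)
      rw [ih hjL _ h1, smul_zero]

theorem bst_mem_Sd (hb : ChainB b m N) {d : ℕ} {f : ML G l → D} (hf : f ∈ Sd k D G l d) :
    bst b f ∈ Sd k D G l d := by
  rw [bst_eq]
  exact list_mem_Sd hb _ f hf

theorem bst_zero (hb : ChainB b m N) {f : ML G l → D} (hf : f ∈ Sd k D G l 0) :
    bst b f = (m ^ l) • f := by
  rw [bst_eq, list_zero hb _ f hf, List.length_finRange]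

theorem bst_top (hb : ChainB b m N) {d : ℕ} (hd : l * N < d) {f : ML G l → D}
    (hf : f ∈ Sd k D G l d) : bst b f = 0 := by
  funext x
  rw [Pi.zero_apply]
  by_cases hx : tot x = d
  · have hj : ∃ j, N < (x j).length := by
      by_contra hc
      push Not at hc
      have h1 : tot x ≤ l * N := by
        unfold tot
        calc ∑ j, (x j).length ≤ ∑ _j : Fin l, N := Finset.sum_le_sum fun j _ => hc j
          _ = l * N := by rw [Finset.sum_const, Finset.card_univ, Fintype.card_fin, smul_eq_mul]
      omega
    obtain ⟨j, hj⟩ := hj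
    rw [bst_eq]
    exact list_top hb j _ f (List.mem_finRange j) x hj
  · exact bst_mem_Sd hb hf x hx

end

end Pool.MP0c3001.DV
end

section

/-!
# S04: relations between `wOp`, `gRho`, `δ`, `B*`

Recall `(W f)(y) = (-1)^(|y_0| (tot y - |y_0|)) w f(rot y)`, `rot y = (y_1, .., y_{l-1}, z⁻¹ y_0)`,
`(g f)(x) = g f(g⁻¹ x)`.

* `wOp_gRho`: `w` is central in `E` (`D.ρ w` commutes with `D.ρ (ι g)`), `z` is central in `G`, so
  `rot (g⁻¹ y) = g⁻¹ rot y`; lengths do not change.
* `wOp_pow`: induction: `(W^i f)(y) = ± w^i f(rot^i y)`; the coordinate `0` of `rot^i y` has the length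
  of `y_i` for `i < l`, `tot` is invariant under `rot`, `rot^l y = z⁻¹ y`; the sign is
  `(-1)^(∑_{i<l} |y_i| (tot y - |y_i|))` and the exponent is even: modulo 2 it is
  `T² - ∑ |y_i|² = T² - ∑ |y_i| = T² - T = 0`, `T = tot y`.
* `wOp_dl`: in fact `W δ_j = δ_{j+1} W` with `δ_j = s_{<j} ∂_j` and `j + 1` cyclic.  With `T = tot y`,
  `x = rot y`: for `j + 1 < l`: `(W δ_j f)(y) = (-1)^(|y_0| (T - |y_0|) + |y_1| + .. + |y_j|) ∑_i (-1)^i
  w f(rot (y with the i-th entry of y_{j+1} erased))` and `(δ_{j+1} W f)(y) = (-1)^(|y_0| + .. + |y_j|) ∑_i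
  (-1)^i (-1)^(|y_0| (T - 1 - |y_0|)) w f(..)`: the same sign.  For `j = l - 1`:
  `(W δ_{l-1} f)(y) = (-1)^(|y_0| (T - |y_0|) + (T - |y_0|)) ∑_i (-1)^i w f(y_1, .., z⁻¹ (y_0 without i))`,
  `(δ_0 W f)(y) = ∑_i (-1)^i (-1)^((|y_0| - 1) (T - |y_0|)) w f(..)`: the same sign.
  (`dk` is equivariant: `dk_equi`; if the list is empty both sides are empty sums.)
* `wOp_bst`: `W (cop b j) = (cop b (j+1)) W` (`j + 1` cyclic; lengths are preserved, so the signs agree),
  and `bst b` is the product of the commuting `cop b j`, so it does not depend on the order.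
* `gRho_dl`, `gRho_bst`: `cop_gRho` of S01 with `dk_equi`, `hb.equi`; the signs only depend on lengths.
-/

set_option autoImplicit false

namespace Pool.MP0c3001.DV

open CategoryTheory CategoryTheory.Abelian Limits

noncomputable section

variable {k : Type} [CommRing k] {G E : Type} [Group G] [Group E] {l : ℕ} [NeZero l]
  {ι : G →* E} {w : E} {z : G} {m N : ℕ} {b : Ker k G}

/-! ### Auxiliary lemmas -/

omit [NeZero l] in
private lemma S04_gRho_apply (D : Rep.{0} k E) (g : G) (f : ML G l → D.V) (x : ML G l) :
    gRho ι l D g f x = D.ρ (ι g) (f fun j => lsm g⁻¹ (x j)) := rfl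

private lemma S04_wOp_apply (D : Rep.{0} k E) (f : ML G l → D.V) (y : ML G l) :
    wOp w z D f y =
      ((-1 : k) ^ ((y 0).length * (tot y - (y 0).length))) • D.ρ w (f (rot z y)) := rfl

omit [NeZero l] in
private lemma S04_tot_lsm (g : G) (x : ML G l) : tot (fun j => lsm g (x j)) = tot x := by
  unfold tot
  exact Finset.sum_congr rfl fun j _ => lsm_length g (x j)

omit [NeZero l] in
private lemma S04_pre_lsm (g : G) (x : ML G l) (j : Fin l) :
    pre (fun i => lsm g (x i)) j = pre x j := by
  unfold pre
  exact Finset.sum_congr rfl fun i _ => lsm_length g (x i)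

omit [NeZero l] in
private lemma S04_rho_mul (D : Rep.{0} k E) (a b' : E) (v : D.V) :
    D.ρ a (D.ρ b' v) = D.ρ (a * b') v := by
  rw [map_mul]
  rfl

/-- the cyclic successor -/
private def S04_c (l : ℕ) [NeZero l] : Fin l ≃ Fin l := Equiv.addRight 1

private lemma S04_c_val (j : Fin l) : (S04_c l j).1 = (j.1 + 1) % l := by
  change (j + 1).1 = _
  rw [Fin.val_add, Fin.val_one', Nat.add_mod_mod]

private lemma S04_c_lt {j : Fin l} (h : j.1 + 1 < l) : S04_c l j = ⟨j.1 + 1, h⟩ := by
  apply Fin.ext
  rw [S04_c_val, Nat.mod_eq_of_lt h]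

private lemma S04_c_last {j : Fin l} (h : ¬ j.1 + 1 < l) : S04_c l j = 0 := by
  apply Fin.ext
  have h1 := j.2
  have h2 : j.1 + 1 = l := by omega
  rw [S04_c_val, h2, Nat.mod_self]
  rfl

omit [NeZero l] in
/-- the twist -/
private def S04_tw (z : G) (j : Fin l) (x : List G) : List G :=
  if j.1 + 1 < l then x else lsm z⁻¹ x

omit [NeZero l] in
private lemma S04_tw_length (j : Fin l) (x : List G) : (S04_tw z j x).length = x.length := by
  unfold S04_tw
  split_ifs
  · rfl
  · exact lsm_length _ _

omit [NeZero l] in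
private lemma S04_tw_inj (j : Fin l) : Function.Injective (S04_tw z j) := by
  by_cases h : j.1 + 1 < l
  · have : S04_tw z j = id := by
      funext x
      simp [S04_tw, h]
    rw [this]
    exact Function.injective_id
  · have : S04_tw z j = lsm z⁻¹ := by
      funext x
      simp [S04_tw, h]
    rw [this]
    exact lsm_injective _

private lemma S04_rot (y : ML G l) (j : Fin l) : rot z y j = S04_tw z j (y (S04_c l j)) := by
  unfold rot S04_tw
  by_cases h : j.1 + 1 < l
  · rw [dif_pos h, if_pos h, S04_c_lt h]
  · rw [dif_neg h, if_neg h, S04_c_last h]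

private lemma S04_rot_update (y : ML G l) (j : Fin l) (x : List G) :
    rot z (Function.update y (S04_c l j) x) = Function.update (rot z y) j (S04_tw z j x) := by
  funext i
  rw [S04_rot]
  by_cases h : i = j
  · subst h
    rw [Function.update_self, Function.update_self]
  · rw [Function.update_of_ne h, Function.update_of_ne, S04_rot]
    exact fun e => h ((S04_c l).injective e)

private lemma S04_tot_rot (y : ML G l) : tot (rot z y) = tot y := by
  unfold tot
  rw [← Equiv.sum_comp (S04_c l) (fun j => (y j).length)]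
  refine Finset.sum_congr rfl fun j _ => ?_
  rw [S04_rot, S04_tw_length]

omit [NeZero l] in
private lemma S04_equi {t : Ker k G} (ht : Equi t) (j : Fin l) (x : List G) :
    t (S04_tw z j x) = (t x).mapDomain (S04_tw z j) := by
  by_cases h : j.1 + 1 < l
  · have : S04_tw z j = id := by
      funext x
      simp [S04_tw, h]
    rw [this, Finsupp.mapDomain_id]
    rfl
  · have : S04_tw z j = lsm z⁻¹ := by
      funext x
      simp [S04_tw, h]
    rw [this]
    exact ht _ _

/-- the core computation -/
private theorem S04_core (D : Rep.{0} k E) {t : Ker k G} (ht : Equi t) (j : Fin l)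
    (n n' : ML G l → ℕ)
    (hs : ∀ (y : ML G l) (x : List G), t (y (S04_c l j)) x ≠ 0 →
      ((-1 : k) ^ ((y 0).length * (tot y - (y 0).length))) * (-1) ^ n (rot z y) =
        (-1) ^ n' y * (-1) ^ ((Function.update y (S04_c l j) x 0).length *
          (tot (Function.update y (S04_c l j) x) -
            (Function.update y (S04_c l j) x 0).length))) :
    (wOp w z D : Module.End k (ML G l → D.V)) * (sgn n * cop t j) =
      (sgn n' * cop t (S04_c l j)) * wOp w z D := by
  apply LinearMap.ext
  intro f
  funext y
  change ((-1 : k) ^ ((y 0).length * (tot y - (y 0).length))) •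
      D.ρ w (((-1 : k) ^ n (rot z y)) • ((t (rot z y j)).sum fun x c =>
        c • f (Function.update (rot z y) j x))) =
    ((-1 : k) ^ n' y) • ((t (y (S04_c l j))).sum fun x c =>
        c • (((-1 : k) ^ ((Function.update y (S04_c l j) x 0).length *
          (tot (Function.update y (S04_c l j) x) -
            (Function.update y (S04_c l j) x 0).length))) •
          D.ρ w (f (rot z (Function.update y (S04_c l j) x)))))
  rw [S04_rot y j, S04_equi ht, Finsupp.sum_mapDomain_index_inj (S04_tw_inj j), map_smul,
    map_finsuppSum, smul_smul, Finsupp.smul_sum, Finsupp.smul_sum]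
  refine Finsupp.sum_congr fun x hx => ?_
  rw [map_smul, ← S04_rot_update, smul_smul, smul_smul, smul_smul,
    hs y x (Finsupp.mem_support_iff.1 hx)]
  congr 1
  ring

omit [NeZero l] in
private lemma S04_tot_update (y : ML G l) (i : Fin l) (x : List G) :
    tot (Function.update y i x) + (y i).length = tot y + x.length := by
  unfold tot
  rw [← Finset.add_sum_erase _ _ (Finset.mem_univ i),
    ← Finset.add_sum_erase Finset.univ (fun j => (y j).length) (Finset.mem_univ i),
    Function.update_self]
  have : ∑ j ∈ Finset.univ.erase i, (Function.update y i x j).length =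
      ∑ j ∈ Finset.univ.erase i, (y j).length := by
    refine Finset.sum_congr rfl fun j hj => ?_
    rw [Function.update_of_ne (Finset.ne_of_mem_erase hj)]
  rw [this]
  ring

private lemma S04_sum_fil (y : ML G l) (n : ℕ) (hn : n ≤ l) :
    ∑ i ∈ Finset.univ.filter (fun i : Fin l => i.1 < n), (y i).length =
      ∑ i ∈ Finset.range n, (if h : i < l then (y ⟨i, h⟩).length else 0) := by
  symm
  refine Finset.sum_bij' (fun i hi => (⟨i, lt_of_lt_of_le (Finset.mem_range.1 hi) hn⟩ : Fin l))
    (fun i _ => i.1) ?_ ?_ ?_ ?_ ?_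
  · intro i hi
    simpa using hi
  · intro i hi
    simpa using hi
  · intro i hi
    rfl
  · intro i hi
    rfl
  · intro i hi
    rw [dif_pos (lt_of_lt_of_le (Finset.mem_range.1 hi) hn)]

private lemma S04_pre_eq (y : ML G l) (j : Fin l) :
    pre y j = ∑ i ∈ Finset.range j.1, (if h : i < l then (y ⟨i, h⟩).length else 0) := by
  rw [← S04_sum_fil y j.1 j.2.le]
  rfl

private lemma S04_tot_eq (y : ML G l) :
    tot y = ∑ i ∈ Finset.range l, (if h : i < l then (y ⟨i, h⟩).length else 0) := by
  rw [← S04_sum_fil y l le_rfl]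
  unfold tot
  refine Finset.sum_congr ?_ fun _ _ => rfl
  ext i
  simp

/-- `pre y (j+1) = |y_0| + pre (rot y) j` -/
private lemma S04_pre_lt (y : ML G l) {j : Fin l} (h : j.1 + 1 < l) :
    pre y (S04_c l j) = (y 0).length + pre (rot z y) j := by
  rw [S04_pre_eq, S04_pre_eq, S04_c_lt h]
  change ∑ i ∈ Finset.range (j.1 + 1), _ = _
  rw [Finset.sum_range_succ', add_comm]
  congr 1
  · rw [dif_pos (NeZero.pos l)]
    rfl
  · refine Finset.sum_congr rfl fun i hi => ?_
    have hi' := Finset.mem_range.1 hi
    have h1 : i + 1 < l := by omega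
    have h2 : i < l := by omega
    rw [dif_pos h1, dif_pos h2]
    unfold rot
    rw [dif_pos h1]

/-- `pre (rot y) (l-1) + |y_0| = tot y` -/
private lemma S04_pre_last (y : ML G l) {j : Fin l} (h : ¬ j.1 + 1 < l) :
    pre (rot z y) j + (y 0).length = tot y := by
  have h1 := j.2
  have h2 : l = j.1 + 1 := by omega
  rw [S04_pre_eq, S04_tot_eq]
  have h3 : Finset.range l = Finset.range (j.1 + 1) := by rw [← h2]
  rw [h3, Finset.sum_range_succ']
  congr 1
  · refine Finset.sum_congr rfl fun i hi => ?_
    have hi' := Finset.mem_range.1 hi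
    have h1 : i + 1 < l := by omega
    have h2 : i < l := by omega
    rw [dif_pos h1, dif_pos h2]
    unfold rot
    rw [dif_pos h1]
  · rw [dif_pos (NeZero.pos l)]
    rfl

private lemma S04_len_le (y : ML G l) (i : Fin l) : (y i).length ≤ tot y := by
  unfold tot
  exact Finset.single_le_sum (f := fun j => (y j).length) (fun _ _ => Nat.zero_le _)
    (Finset.mem_univ i)

private lemma S04_len_two (y : ML G l) {i : Fin l} (hi : i ≠ 0) :
    (y 0).length + (y i).length ≤ tot y := by
  unfold tot
  rw [← Finset.sum_pair (f := fun j => (y j).length) (Ne.symm hi)]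
  exact Finset.sum_le_sum_of_subset (Finset.subset_univ _)

private lemma S04_rot_def (y : ML G l) (j : Fin l) :
    rot z y j = if h : j.1 + 1 < l then y ⟨j.1 + 1, h⟩ else lsm z⁻¹ (y 0) := rfl

/-- the iterated rotation -/
private def S04_Y (z : G) (y : ML G l) (n : ℕ) : List G :=
  lsm (z⁻¹ ^ (n / l)) (y ⟨n % l, Nat.mod_lt n (NeZero.pos l)⟩)

private lemma S04_iter (y : ML G l) (i : ℕ) (j : Fin l) :
    ((rot z)^[i] y) j = S04_Y z y (j.1 + i) := by
  induction i generalizing j with
  | zero =>
    unfold S04_Y
    simp only [Function.iterate_zero, id_eq, add_zero]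
    have h1 : j.1 / l = 0 := Nat.div_eq_of_lt j.2
    have h2 : (⟨j.1 % l, Nat.mod_lt j.1 (NeZero.pos l)⟩ : Fin l) = j :=
      Fin.ext (Nat.mod_eq_of_lt j.2)
    rw [h1, pow_zero, lsm_one, h2]
  | succ i ih =>
    rw [Function.iterate_succ_apply', S04_rot_def]
    by_cases h : j.1 + 1 < l
    · rw [dif_pos h, ih]
      congr 1
      change j.1 + 1 + i = j.1 + (i + 1)
      omega
    · rw [dif_neg h, ih]
      have h1 := j.2
      have h2 : j.1 + (i + 1) = l + i := by omega
      rw [h2]
      unfold S04_Y
      have h0 : ((0 : Fin l) : ℕ) = 0 := rfl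
      rw [h0, zero_add, lsm_lsm]
      have h3 : (l + i) / l = i / l + 1 := by
        rw [Nat.add_div_left _ (NeZero.pos l)]
      have h4 : (⟨(l + i) % l, Nat.mod_lt (l + i) (NeZero.pos l)⟩ : Fin l) =
          ⟨i % l, Nat.mod_lt i (NeZero.pos l)⟩ := Fin.ext (Nat.add_mod_left l i)
      rw [h3, h4, pow_succ']

private lemma S04_iter_l (y : ML G l) : (rot z)^[l] y = fun j => lsm z⁻¹ (y j) := by
  funext j
  rw [S04_iter]
  unfold S04_Y
  have h3 : (j.1 + l) / l = 1 := by
    rw [Nat.add_div_right _ (NeZero.pos l), Nat.div_eq_of_lt j.2]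
  have h4 : (⟨(j.1 + l) % l, Nat.mod_lt (j.1 + l) (NeZero.pos l)⟩ : Fin l) = j :=
    Fin.ext (by
      change (j.1 + l) % l = j.1
      rw [Nat.add_mod_right, Nat.mod_eq_of_lt j.2])
  rw [h3, h4, pow_one]

private lemma S04_iter_tot (y : ML G l) (i : ℕ) : tot ((rot z)^[i] y) = tot y := by
  induction i with
  | zero => rfl
  | succ i ih => rw [Function.iterate_succ_apply', S04_tot_rot, ih]

private lemma S04_pow_apply (D : Rep.{0} k E) (i : ℕ) (f : ML G l → D.V) (y : ML G l) :
    ((wOp w z D : Module.End k (ML G l → D.V)) ^ i) f y =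
      ((-1 : k) ^ (∑ j ∈ Finset.range i, (((rot z)^[j] y) 0).length *
        (tot ((rot z)^[j] y) - (((rot z)^[j] y) 0).length))) •
        D.ρ (w ^ i) (f ((rot z)^[i] y)) := by
  induction i generalizing y with
  | zero =>
    simp
  | succ i ih =>
    rw [pow_succ']
    change (wOp w z D) (((wOp w z D : Module.End k (ML G l → D.V)) ^ i) f) y = _
    rw [S04_wOp_apply, ih, map_smul, smul_smul, S04_rho_mul, ← pow_succ', ← pow_add,
      Finset.sum_range_succ', add_comm]
    rfl

private lemma S04_even {ι' : Type} (s : Finset ι') (a : ι' → ℕ) :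
    Even (∑ j ∈ s, a j * (∑ i ∈ s, a i - a j)) := by
  have h2 : ∀ x : ZMod 2, x * x = x := by decide
  rw [← ZMod.natCast_eq_zero_iff_even, Nat.cast_sum]
  have h3 : ∀ j ∈ s, ((a j * (∑ i ∈ s, a i - a j) : ℕ) : ZMod 2) =
      (a j : ZMod 2) * (∑ i ∈ s, (a i : ZMod 2)) - a j := by
    intro j hj
    have h4 : a j ≤ ∑ i ∈ s, a i := Finset.single_le_sum (fun _ _ => Nat.zero_le _) hj
    rw [Nat.cast_mul, Nat.cast_sub h4, mul_sub, h2, Nat.cast_sum]
  rw [Finset.sum_congr rfl h3, Finset.sum_sub_distrib, ← Finset.sum_mul, h2, sub_self]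

theorem wOp_gRho (h : RootExt ι w z l) (hz : ∀ g : G, z * g = g * z) (D : Rep.{0} k E) (g : G) :
    (wOp w z D : Module.End k (ML G l → D.V)) * gRho ι l D g = gRho ι l D g * wOp w z D := by
  apply LinearMap.ext
  intro f
  funext y
  change ((-1 : k) ^ ((y 0).length * (tot y - (y 0).length))) •
      D.ρ w (D.ρ (ι g) (f fun j => lsm g⁻¹ (rot z y j))) =
    D.ρ (ι g) (((-1 : k) ^ ((lsm g⁻¹ (y 0)).length *
      (tot (fun j => lsm g⁻¹ (y j)) - (lsm g⁻¹ (y 0)).length))) •
        D.ρ w (f (rot z fun j => lsm g⁻¹ (y j))))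
  have e1 : (rot z fun j => lsm g⁻¹ (y j)) = fun j => lsm g⁻¹ (rot z y j) := by
    funext j
    unfold rot
    by_cases hj : j.1 + 1 < l
    · rw [dif_pos hj, dif_pos hj]
    · rw [dif_neg hj, dif_neg hj, lsm_lsm, lsm_lsm]
      congr 1
      rw [← mul_inv_rev, ← mul_inv_rev, hz]
  rw [e1, lsm_length, S04_tot_lsm, map_smul, S04_rho_mul, S04_rho_mul, h.cen]

theorem wOp_pow (h : RootExt ι w z l) (hz : ∀ g : G, z * g = g * z) (D : Rep.{0} k E) :
    (wOp w z D : Module.End k (ML G l → D.V)) ^ l = gRho ι l D z := by
  apply LinearMap.ext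
  intro f
  funext y
  rw [S04_pow_apply, S04_gRho_apply, h.pow, S04_iter_l]
  have e : ∑ j ∈ Finset.range l, (((rot z)^[j] y) 0).length *
        (tot ((rot z)^[j] y) - (((rot z)^[j] y) 0).length) =
      ∑ j : Fin l, (y j).length * (∑ i, (y i).length - (y j).length) := by
    rw [Finset.sum_range]
    refine Finset.sum_congr rfl fun j _ => ?_
    have h1 : (((rot z)^[j.1] y) 0).length = (y j).length := by
      rw [S04_iter]
      unfold S04_Y
      rw [lsm_length]
      congr 2
      apply Fin.ext
      change (0 + j.1) % l = j.1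
      rw [zero_add, Nat.mod_eq_of_lt j.2]
    rw [h1, S04_iter_tot]
    rfl
  rw [e, (S04_even Finset.univ fun j => (y j).length).neg_one_pow, one_smul]

theorem wOp_dl (h : RootExt ι w z l) (hz : ∀ g : G, z * g = g * z) (D : Rep.{0} k E) :
    (wOp w z D : Module.End k (ML G l → D.V)) * dl k = dl k * wOp w z D := by
  unfold dl
  rw [Finset.mul_sum, Finset.sum_mul, ← Equiv.sum_comp (S04_c l)
    (fun j => ((sgn (fun x => pre x j) : Module.End k (ML G l → D.V)) * cop (dk : Ker k G) j) *
      wOp w z D)]
  refine Finset.sum_congr rfl fun j _ => ?_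
  refine S04_core D dk_equi j _ _ ?_
  intro y x hx
  have hlen := dk_len hx
  have htot := S04_tot_update y (S04_c l j) x
  rw [← pow_add, ← pow_add]
  by_cases hj : j.1 + 1 < l
  · have hc0 : S04_c l j ≠ 0 := by
      rw [S04_c_lt hj]
      intro e
      have := congrArg Fin.val e
      change j.1 + 1 = 0 at this
      omega
    have h0 : Function.update y (S04_c l j) x 0 = y 0 := Function.update_of_ne (Ne.symm hc0) _ _
    have h2 := S04_len_two y hc0
    rw [h0, S04_pre_lt (z := z) y hj]
    congr 1
    have h3 : tot y - (y 0).length =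
        (tot (Function.update y (S04_c l j) x) - (y 0).length) + 1 := by omega
    rw [h3]
    ring
  · have hc0 := S04_c_last hj
    rw [hc0] at hlen htot ⊢
    have h1 := S04_pre_last (z := z) y hj
    have h2 := S04_len_le y 0
    rw [Function.update_self]
    have h3 : tot (Function.update y 0 x) - x.length = pre (rot z y) j := by omega
    have h4 : tot y - (y 0).length = pre (rot z y) j := by omega
    have h5 : pre y 0 = 0 := by
      rw [S04_pre_eq]
      rfl
    rw [h3, h4, h5, ← hlen, zero_add]
    have h6 : (x.length + 1) * pre (rot z y) j + pre (rot z y) j =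
        x.length * pre (rot z y) j + 2 * pre (rot z y) j := by ring
    rw [h6, pow_add, (even_two_mul _).neg_one_pow, mul_one]

theorem wOp_bst (h : RootExt ι w z l) (hz : ∀ g : G, z * g = g * z) (hb : ChainB b m N)
    (D : Rep.{0} k E) :
    (wOp w z D : Module.End k (ML G l → D.V)) * bst b = bst b * wOp w z D := by
  have h1 : ∀ j : Fin l, (wOp w z D : Module.End k (ML G l → D.V)) * cop b j =
      cop b (S04_c l j) * wOp w z D := by
    intro j
    have := S04_core (w := w) (z := z) D hb.equi j (fun _ => 0) (fun _ => 0) (by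
      intro y x hx
      have hlen := hb.len _ _ hx
      have htot := S04_tot_update y (S04_c l j) x
      have h0 : (Function.update y (S04_c l j) x 0).length = (y 0).length := by
        by_cases hc : (0 : Fin l) = S04_c l j
        · rw [hc, Function.update_self, hlen]
        · rw [Function.update_of_ne hc]
      have h3 : tot (Function.update y (S04_c l j) x) = tot y := by omega
      rw [h0, h3, pow_zero, mul_one, one_mul])
    have hs : (sgn (fun _ => 0) : Module.End k (ML G l → D.V)) = 1 := by
      apply LinearMap.ext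
      intro f
      funext y
      change ((-1 : k) ^ 0) • f y = f y
      rw [pow_zero, one_smul]
    rw [hs, one_mul, one_mul] at this
    exact this
  have h2 : ∀ L : List (Fin l), (wOp w z D : Module.End k (ML G l → D.V)) *
      (L.map fun j => (cop b j : Module.End k (ML G l → D.V))).prod =
      (L.map fun j => (cop b (S04_c l j) : Module.End k (ML G l → D.V))).prod * wOp w z D := by
    intro L
    induction L with
    | nil => simp
    | cons j L ih =>
      rw [List.map_cons, List.map_cons, List.prod_cons, List.prod_cons, ← mul_assoc, h1, mul_assoc,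
        ih, ← mul_assoc]
  unfold bst
  rw [List.ofFn_eq_map, h2, ← List.ofFn_eq_map, ← List.ofFn_eq_map]
  congr 1
  have h3 : List.Perm (List.ofFn ((fun j : Fin l => (cop b j : Module.End k (ML G l → D.V))) ∘
      (S04_c l : Equiv.Perm (Fin l)))) (List.ofFn fun j : Fin l => (cop b j : Module.End k (ML G l → D.V))) :=
    Equiv.Perm.ofFn_comp_perm (S04_c l : Equiv.Perm (Fin l)) _
  refine h3.prod_eq' ?_
  rw [List.pairwise_ofFn]
  intro i j hij
  exact cop_comm b b (fun e => hij.ne ((S04_c l).injective e))

omit [NeZero l] in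
theorem gRho_dl (D : Rep.{0} k E) (g : G) :
    gRho ι l D g * dl k = dl k * gRho ι l D g := by
  unfold dl
  rw [Finset.mul_sum, Finset.sum_mul]
  refine Finset.sum_congr rfl fun j _ => ?_
  have h1 : gRho ι l D g * (sgn (fun x => pre x j) : Module.End k (ML G l → D.V)) =
      sgn (fun x => pre x j) * gRho ι l D g := by
    apply LinearMap.ext
    intro f
    funext x
    change D.ρ (ι g) (((-1 : k) ^ pre (fun i => lsm g⁻¹ (x i)) j) • f fun i => lsm g⁻¹ (x i)) =
      ((-1 : k) ^ pre x j) • D.ρ (ι g) (f fun i => lsm g⁻¹ (x i))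
    rw [S04_pre_lsm, map_smul]
  rw [← mul_assoc, h1, mul_assoc, ← cop_gRho ι D dk_equi j g, mul_assoc]

omit [NeZero l] in
theorem gRho_bst (hb : ChainB b m N) (D : Rep.{0} k E) (g : G) :
    gRho ι l D g * bst b = bst b * gRho ι l D g := by
  unfold bst
  have : Commute (gRho ι l D g)
      (List.ofFn fun j : Fin l => (cop b j : Module.End k (ML G l → D.V))).prod := by
    apply Commute.list_prod_right
    intro x hx
    rw [List.mem_ofFn] at hx
    obtain ⟨j, rfl⟩ := hx
    exact (cop_gRho ι D hb.equi j g).symm
  exact this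

theorem wOp_mem_Sd (D : Rep.{0} k E) {d : ℕ} {f : ML G l → D.V} (hf : f ∈ Sd k D.V G l d) :
    wOp w z D f ∈ Sd k D.V G l d := by
  intro y hy
  rw [S04_wOp_apply, hf (rot z y) (by rwa [S04_tot_rot]), map_zero, smul_zero]

omit [NeZero l] in
theorem gRho_mem_Sd (D : Rep.{0} k E) (g : G) {d : ℕ} {f : ML G l → D.V}
    (hf : f ∈ Sd k D.V G l d) : gRho ι l D g f ∈ Sd k D.V G l d := by
  intro x hx
  rw [S04_gRho_apply, hf _ (by rwa [S04_tot_lsm]), map_zero]

end

end Pool.MP0c3001.DV
end

section

/-!
# The `E`-modules `M_d(D)` (definitions; complete)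
-/

set_option autoImplicit false

namespace Pool.MP0c3001.DV

open CategoryTheory CategoryTheory.Abelian Limits

noncomputable section

variable {k : Type} [CommRing k] {G E : Type} [Group G] [Group E] {l : ℕ} [NeZero l]
  {ι : G →* E} {w : E} {z : G}

/-- The representation of `E` on all functions of `l`-tuples of lists. -/
def mlRho (h : RootExt ι w z l) (hz : ∀ g : G, z * g = g * z) (D : Rep.{0} k E) :
    Representation k E (ML G l → D.V) :=
  h.lift (gRho ι l D) (wOp w z D) (fun g => wOp_gRho h hz D g) (wOp_pow h hz D)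

lemma mlRho_ι (h : RootExt ι w z l) (hz : ∀ g : G, z * g = g * z) (D : Rep.{0} k E) (g : G) :
    mlRho h hz D (ι g) = gRho ι l D g := h.lift_ι _ _ _ _ g

lemma mlRho_w (h : RootExt ι w z l) (hz : ∀ g : G, z * g = g * z) (D : Rep.{0} k E) :
    mlRho h hz D w = wOp w z D := h.lift_w _ _ _ _

/-- An endomorphism which commutes with `G` and `W` commutes with `E`. -/
lemma mlRho_comm (h : RootExt ι w z l) (hz : ∀ g : G, z * g = g * z) (D : Rep.{0} k E)
    (T : Module.End k (ML G l → D.V)) (h1 : ∀ g, gRho ι l D g * T = T * gRho ι l D g)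
    (h2 : wOp w z D * T = T * wOp w z D) (x : E) :
    mlRho h hz D x * T = T * mlRho h hz D x := by
  refine h.induct (p := fun x => mlRho h hz D x * T = T * mlRho h hz D x) ?_ ?_ ?_ x
  · intro g
    rw [mlRho_ι]
    exact h1 g
  · rw [mlRho_w]
    exact h2
  · intro x y hx hy
    rw [map_mul, mul_assoc, hy, ← mul_assoc, hx, mul_assoc]

lemma mlRho_mem (h : RootExt ι w z l) (hz : ∀ g : G, z * g = g * z) (D : Rep.{0} k E) (d : ℕ)
    (x : E) : ∀ f ∈ Sd k D.V G l d, mlRho h hz D x f ∈ Sd k D.V G l d := by
  refine h.induct (p := fun x => ∀ f ∈ Sd k D.V G l d, mlRho h hz D x f ∈ Sd k D.V G l d)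
    ?_ ?_ ?_ x
  · intro g f hf
    rw [mlRho_ι]
    exact gRho_mem_Sd D g hf
  · intro f hf
    rw [mlRho_w]
    exact wOp_mem_Sd D hf
  · intro x y hx hy f hf
    rw [map_mul]
    exact hx _ (hy f hf)

/-- `M_d(D)`. -/
abbrev Md (h : RootExt ι w z l) (hz : ∀ g : G, z * g = g * z) (D : Rep.{0} k E) (d : ℕ) :
    Rep.{0} k E :=
  Rep.subrepresentation (Rep.of (mlRho h hz D)) (Sd k D.V G l d)
    (fun x f hf => mlRho_mem h hz D d x f hf)

/-- The differential `M_d(D) → M_{d+1}(D)`. -/
def mdD (h : RootExt ι w z l) (hz : ∀ g : G, z * g = g * z) (D : Rep.{0} k E) (d : ℕ) :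
    Md h hz D d ⟶ Md h hz D (d + 1) :=
  Rep.ofHom
    { toLinearMap := LinearMap.codRestrict _
        ((dl k : Module.End k (ML G l → D.V)) ∘ₗ (Sd k D.V G l d).subtype)
        (fun f => dl_mem_Sd f.2)
      isIntertwining' := by
        intro x
        apply LinearMap.ext
        intro f
        apply Subtype.ext
        have h1 := mlRho_comm h hz D (dl k) (fun g => gRho_dl D g) (wOp_dl h hz D) x
        exact (LinearMap.congr_fun h1 f.1).symm }

/-- The endomorphism `B*` of `M_d(D)`. -/
def mdB (h : RootExt ι w z l) (hz : ∀ g : G, z * g = g * z) {b : Ker k G} {m N : ℕ}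
    (hb : ChainB b m N) (D : Rep.{0} k E) (d : ℕ) : Md h hz D d ⟶ Md h hz D d :=
  Rep.ofHom
    { toLinearMap := LinearMap.codRestrict _
        ((bst b : Module.End k (ML G l → D.V)) ∘ₗ (Sd k D.V G l d).subtype)
        (fun f => bst_mem_Sd hb f.2)
      isIntertwining' := by
        intro x
        apply LinearMap.ext
        intro f
        apply Subtype.ext
        have h1 := mlRho_comm h hz D (bst b) (fun g => gRho_bst hb D g) (wOp_bst h hz hb D) x
        exact (LinearMap.congr_fun h1 f.1).symm }

lemma mdD_apply (h : RootExt ι w z l) (hz : ∀ g : G, z * g = g * z) (D : Rep.{0} k E) (d : ℕ)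
    (f : (Md h hz D d).V) : ((mdD h hz D d).hom f).1 = dl k f.1 := rfl

lemma mdB_apply (h : RootExt ι w z l) (hz : ∀ g : G, z * g = g * z) {b : Ker k G} {m N : ℕ}
    (hb : ChainB b m N) (D : Rep.{0} k E) (d : ℕ) (f : (Md h hz D d).V) :
    ((mdB h hz hb D d).hom f).1 = bst b f.1 := rfl

end

end Pool.MP0c3001.DV
end
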