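import Pool.Agent.Lib.MP_0c3001_gt.Mg.G013
import Pool.Agent.Lib.MP_0c3001_gt.Mg.G012
import Pool.Agent.Lib.MP_0c3001_gt.Mg.G010

section

/-!
# S09: the action of `E` on the `l`-tuples of lists and the formula for the action on functions

`mlRho_formula`: `RootExt.induct` with the property
`p γ := ∀ γ-independent statement`: for `γ = ι g`: `mlRho_ι`, `n = 0`, `ea (ι g)⁻¹ y = g⁻¹ y` (`ea_ι`,
`map_inv`); for `γ = w`: `mlRho_w`, `n y = |y_0| (tot y - |y_0|)`, `ea w⁻¹ y = rot z y` (apply `ea w` to both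
sides: `ea_w`, `rotInv_rot`); products: `(γγ' f)(y) = ± γ ((γ' f)(γ⁻¹ y)) = ± γ γ' f(γ'⁻¹ γ⁻¹ y)`,
`n_{γγ'}(y) = n_γ(y) + n_{γ'}(γ⁻¹ y)`, `ea_mul`.
-/

set_option autoImplicit false

namespace Pool.MP0c3001.DV

open CategoryTheory CategoryTheory.Abelian Limits

noncomputable section

variable {k : Type} [CommRing k] {G E : Type} [Group G] [Group E] {l : ℕ} [NeZero l]
  {ι : G →* E} {w : E} {z : G}

/-- `G` acts on the tuples of lists. -/
def lsmHom (G : Type) [Group G] (l : ℕ) : G →* Function.End (ML G l) where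
  toFun g := fun x j => lsm g (x j)
  map_one' := by
    funext x j
    exact lsm_one _
  map_mul' g g' := by
    funext x j
    exact (lsm_lsm g g' _).symm

lemma fend_pow (f : Function.End (ML G l)) (n : ℕ) : (f ^ n : Function.End (ML G l)) = f^[n] := by
  induction n with
  | zero => rfl
  | succ n ih =>
    rw [pow_succ, Function.iterate_succ, ih]
    rfl

/-- `E` acts on the tuples of lists. -/
def mlHom (h : RootExt ι w z l) (hz : ∀ g : G, z * g = g * z) : E →* Function.End (ML G l) :=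
  h.lift (lsmHom G l) (rotInv z)
    (fun g => by
      funext x
      exact rotInv_lsm hz g x)
    (by
      rw [fend_pow]
      funext x
      exact rotInv_iterate hz x)

/-- The action of `E` on the tuples of lists. -/
def ea (h : RootExt ι w z l) (hz : ∀ g : G, z * g = g * z) (γ : E) (x : ML G l) : ML G l :=
  mlHom h hz γ x

lemma ea_ι (h : RootExt ι w z l) (hz : ∀ g : G, z * g = g * z) (g : G) (x : ML G l) :
    ea h hz (ι g) x = fun j => lsm g (x j) :=
  congrFun (h.lift_ι (lsmHom G l) (rotInv z) _ _ g) x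

lemma ea_w (h : RootExt ι w z l) (hz : ∀ g : G, z * g = g * z) (x : ML G l) :
    ea h hz w x = rotInv z x :=
  congrFun (h.lift_w (lsmHom G l) (rotInv z) _ _) x

lemma ea_mul (h : RootExt ι w z l) (hz : ∀ g : G, z * g = g * z) (γ γ' : E) (x : ML G l) :
    ea h hz (γ * γ') x = ea h hz γ (ea h hz γ' x) := by
  unfold ea
  rw [map_mul]
  rfl

lemma ea_one (h : RootExt ι w z l) (hz : ∀ g : G, z * g = g * z) (x : ML G l) :
    ea h hz 1 x = x := by
  unfold ea
  rw [map_one]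
  rfl

lemma ea_inv (h : RootExt ι w z l) (hz : ∀ g : G, z * g = g * z) (γ : E) (x : ML G l) :
    ea h hz γ⁻¹ (ea h hz γ x) = x := by
  rw [← ea_mul, inv_mul_cancel, ea_one]

lemma ea_inv' (h : RootExt ι w z l) (hz : ∀ g : G, z * g = g * z) (γ : E) (x : ML G l) :
    ea h hz γ (ea h hz γ⁻¹ x) = x := by
  rw [← ea_mul, mul_inv_cancel, ea_one]

theorem mlRho_formula (h : RootExt ι w z l) (hz : ∀ g : G, z * g = g * z) (D : Rep.{0} k E)
    (γ : E) : ∃ n : ML G l → ℕ, ∀ (f : ML G l → D.V) (y : ML G l),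
      mlRho h hz D γ f y = ((-1 : k) ^ n y) • D.ρ γ (f (ea h hz γ⁻¹ y)) := by
  refine h.induct (p := fun γ => ∃ n : ML G l → ℕ, ∀ (f : ML G l → D.V) (y : ML G l),
      mlRho h hz D γ f y = ((-1 : k) ^ n y) • D.ρ γ (f (ea h hz γ⁻¹ y))) ?_ ?_ ?_ γ
  · intro g
    refine ⟨fun _ => 0, fun f y => ?_⟩
    rw [mlRho_ι, pow_zero, one_smul, ← map_inv, ea_ι]
    rfl
  · refine ⟨fun y => (y 0).length * (tot y - (y 0).length), fun f y => ?_⟩
    have e : ea h hz w⁻¹ y = rot z y := by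
      have h1 := ea_inv h hz w (rot z y)
      rw [ea_w, rotInv_rot] at h1
      exact h1
    rw [mlRho_w, e]
    rfl
  · rintro x y ⟨n, hn⟩ ⟨n', hn'⟩
    refine ⟨fun v => n v + n' (ea h hz x⁻¹ v), fun f v => ?_⟩
    have e1 : mlRho h hz D (x * y) f v = mlRho h hz D x (mlRho h hz D y f) v := by
      rw [map_mul]
      rfl
    have e2 : D.ρ (x * y) (f (ea h hz (x * y)⁻¹ v)) =
        D.ρ x (D.ρ y (f (ea h hz y⁻¹ (ea h hz x⁻¹ v)))) := by
      rw [mul_inv_rev, ea_mul, map_mul]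
      rfl
    rw [e1, hn, hn', e2, pow_add, mul_smul, map_smul]

theorem tot_ea (h : RootExt ι w z l) (hz : ∀ g : G, z * g = g * z) (γ : E) (x : ML G l) :
    tot (ea h hz γ x) = tot x := by
  refine h.induct (p := fun γ => ∀ x : ML G l, tot (ea h hz γ x) = tot x) ?_ ?_ ?_ γ x
  · intro g x
    rw [ea_ι, tot_lsm]
  · intro x
    rw [ea_w, tot_rotInv]
  · intro a b ha hb x
    rw [ea_mul, ha, hb]

end

end Pool.MP0c3001.DV
end

section

/-!
# S10: stabilizers in `E` of tuples of lists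

* `ml_free_G`: if `tot x > 0` some coordinate `x_j` is a non-empty list `a :: _`; `g x = x` gives `g a = a`,
  `g = 1`.
* `ml_stab` (`l` prime): let `γ x = x`, `γ ≠ 1`, `γ = ι g * w ^ j`, `j < l` (`h.eq`).  If `j = 0` then `g = 1`
  by `ml_free_G`, `γ = 1`.  So `0 < j < l`; choose `i` with `i j ≡ l - 1 (mod l)`, i.e.
  `j i + 1 = l n` (`j` is invertible mod `l`; `Nat.Coprime`); `γ^i = ι (g^i) w^(ij) = ι (g^i z^n) w⁻¹`.
  Put `r = g^i z^n`.  `γ^i x = x`, and `(γ^i)^l = ι (r^l) w^(-l) = ι (r^l z⁻¹)` fixes `x`, so `r^l = z`.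
* `ml_uniq`: `(ι r w⁻¹) (ι r' w⁻¹)⁻¹ = ι (r r'⁻¹)` fixes `x`.
* `ml_free_Y`: let `γ ≠ 1`; by `ml_stab` `γ^i = ι r'' w⁻¹`, which fixes `x`, so `r'' = r`
  (`ml_uniq`).  `γ` fixes `r'` under conjugation through `pr`, so does `γ^i`: `pr (γ^i) = π r`, hence `r`
  commutes with `r'` (`mem_Qr`), `(r' r⁻¹)^l = z z⁻¹ = 1`, `r' = r`.
-/

set_option autoImplicit false

namespace Pool.MP0c3001.DV

open CategoryTheory CategoryTheory.Abelian Limits

noncomputable section

variable {G E Q : Type} [Group G] [Group E] [Group Q] {l : ℕ} [NeZero l]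
  {ι : G →* E} {w : E} {z : G}

private lemma ea_pow_fix (h : RootExt ι w z l) (hz : ∀ g : G, z * g = g * z) {x : ML G l}
    {γ : E} (hγ : ea h hz γ x = x) (n : ℕ) : ea h hz (γ ^ n) x = x := by
  induction n with
  | zero => rw [pow_zero, ea_one]
  | succ n ih => rw [pow_succ, ea_mul, hγ, ih]

theorem ml_free_G (h : RootExt ι w z l) (hz : ∀ g : G, z * g = g * z) {x : ML G l}
    (hx : 0 < tot x) {g : G} (hg : ea h hz (ι g) x = x) : g = 1 := by
  have h1 : ∃ j : Fin l, 0 < (x j).length := by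
    by_contra hcon
    have h2 : tot x = 0 := by
      unfold tot
      refine Finset.sum_eq_zero fun j _ => ?_
      by_contra h3
      exact hcon ⟨j, Nat.pos_of_ne_zero h3⟩
    omega
  obtain ⟨j, hj⟩ := h1
  rw [ea_ι] at hg
  have h2 : lsm g (x j) = x j := congrFun hg j
  cases hxj : x j with
  | nil =>
    rw [hxj] at hj
    exact absurd hj (lt_irrefl _)
  | cons a t =>
    rw [hxj] at h2
    unfold lsm at h2
    rw [List.map_cons] at h2
    have h3 : g * a = a := (List.cons.inj h2).1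
    exact mul_eq_right.1 h3

theorem ml_stab (h : RootExt ι w z l) (hz : ∀ g : G, z * g = g * z) (hl : l.Prime) {x : ML G l}
    (hx : 0 < tot x) {γ : E} (hγ : ea h hz γ x = x) (h1 : γ ≠ 1) :
    ∃ (r : Rt z l) (i : ℕ), γ ^ i = ι r.1 * w⁻¹ := by
  obtain ⟨g, j, hj, hγe⟩ := h.gen γ
  have hj0 : 0 < j := by
    rcases Nat.eq_zero_or_pos j with h0 | h0
    · exfalso
      subst h0
      rw [pow_zero, mul_one] at hγe
      rw [hγe] at hγ
      have h2 := ml_free_G h hz hx hγ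
      apply h1
      rw [hγe, h2, map_one]
    · exact h0
  obtain ⟨i, n, hin⟩ : ∃ i n : ℕ, j * i + 1 = l * n := by
    have hfact : Fact l.Prime := ⟨hl⟩
    have hj1 : (j : ZMod l) ≠ 0 := by
      intro h0
      rw [ZMod.natCast_eq_zero_iff] at h0
      exact absurd (Nat.le_of_dvd hj0 h0) (by omega)
    have h2 : (((j * (-(j : ZMod l)⁻¹).val + 1 : ℕ)) : ZMod l) = 0 := by
      rw [Nat.cast_add, Nat.cast_mul, ZMod.natCast_zmod_val, Nat.cast_one, mul_neg,
        mul_inv_cancel₀ hj1]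
      ring
    rw [ZMod.natCast_eq_zero_iff] at h2
    obtain ⟨n, hn⟩ := h2
    exact ⟨_, n, hn⟩
  have hwc : ∀ y : E, Commute w y := h.cen
  have hpow : γ ^ i = ι (g ^ i * z ^ n) * w⁻¹ := by
    have h3 : w ^ (j * i) = (ι z) ^ n * w⁻¹ := by
      rw [← h.pow, ← pow_mul, ← hin, pow_succ, mul_inv_cancel_right]
    rw [hγe, ((hwc (ι g)).pow_left j).symm.mul_pow, ← pow_mul, h3, map_mul, map_pow, map_pow,
      mul_assoc]
  have hfix := ea_pow_fix h hz hγ i
  have hfix2 := ea_pow_fix h hz hfix l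
  have h4 : (γ ^ i) ^ l = ι ((g ^ i * z ^ n) ^ l * z⁻¹) := by
    rw [hpow, ((hwc (ι (g ^ i * z ^ n))).inv_left).symm.mul_pow, inv_pow, h.pow,
      map_mul ι ((g ^ i * z ^ n) ^ l), map_pow ι (g ^ i * z ^ n), map_inv]
  rw [h4] at hfix2
  have h5 := ml_free_G h hz hx hfix2
  exact ⟨⟨g ^ i * z ^ n, mul_inv_eq_one.1 h5⟩, i, hpow⟩

theorem ml_uniq (h : RootExt ι w z l) (hz : ∀ g : G, z * g = g * z) {x : ML G l}
    (hx : 0 < tot x) {r r' : Rt z l} (h1 : ea h hz (ι r.1 * w⁻¹) x = x)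
    (h2 : ea h hz (ι r'.1 * w⁻¹) x = x) : r = r' := by
  have h3 : ea h hz (ι r'.1 * w⁻¹)⁻¹ x = x := by
    have h4 := ea_inv h hz (ι r'.1 * w⁻¹) x
    rwa [h2] at h4
  have h5 : ea h hz ((ι r.1 * w⁻¹) * (ι r'.1 * w⁻¹)⁻¹) x = x := by
    rw [ea_mul, h3, h1]
  have h6 : (ι r.1 * w⁻¹) * (ι r'.1 * w⁻¹)⁻¹ = ι (r.1 * r'.1⁻¹) := by
    rw [mul_inv_rev, inv_inv, map_mul, map_inv, mul_assoc, inv_mul_cancel_left]
  rw [h6] at h5
  exact Subtype.ext (mul_inv_eq_one.1 (ml_free_G h hz hx h5))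

theorem ml_free_Y (h : RootExt ι w z l) (hl : l.Prime) {π : G →* Q} (hπ : CycExt π z)
    (htor : ∀ g : G, g ^ l = 1 → g = 1) {x : ML G l}
    (hx : 0 < tot x) {r r' : Rt z l} (h1 : ea h hπ.cen (ι r.1 * w⁻¹) x = x) (hr : r' ≠ r)
    {γ : E} (hγ : ea h hπ.cen γ x = x)
    (hγ' : (conjAct hπ l).smul (h.pr hπ.map_z γ) r' = r') : γ = 1 := by
  by_contra hne
  obtain ⟨r'', i, hi⟩ := ml_stab h hπ.cen hl hx hγ hne
  have h2 := ea_pow_fix h hπ.cen hγ i
  rw [hi] at h2
  have h3 : r'' = r := ml_uniq h hπ.cen hx h2 h1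
  subst h3
  have h4 : h.pr hπ.map_z γ ∈ Qr hπ l r' := hγ'
  have h5 : h.pr hπ.map_z (γ ^ i) ∈ Qr hπ l r' := by
    rw [map_pow]
    exact Subgroup.pow_mem _ h4 i
  have h6 : h.pr hπ.map_z (γ ^ i) = π r''.1 := by
    rw [hi, map_mul, map_inv, h.pr_ι, h.pr_w, inv_one, mul_one]
  rw [h6] at h5
  have h7 : r''.1 * r'.1 = r'.1 * r''.1 := (mem_Qr hπ r' r''.1).1 h5
  have h8 : Commute r'.1 (r''.1)⁻¹ := (Commute.inv_right (show Commute r'.1 r''.1 from h7.symm))
  have h9 : (r'.1 * (r''.1)⁻¹) ^ l = 1 := by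
    rw [h8.mul_pow, inv_pow, r'.2, r''.2, mul_inv_cancel]
  exact hr (Subtype.ext (mul_inv_eq_one.1 (htor _ h9)))

end

end Pool.MP0c3001.DV
end

section

/-!
# S11: acyclicity of `M_d(D)` if `z` has no `l`-th root

No `l`-th root: `E` acts freely on `S₁ = {x // tot x = d}` (action `ea`, `tot_ea`; freeness: `ml_stab`:
`γ x = x`, `γ ≠ 1` would give a root `r : Rt z l`).  Apply `acyclic_of_free` (S08b) with `S₂ = PEmpty`
(or `Empty`), `W₁ = D.V`, `W₂ = PUnit`, `v₁ s f = f.1 s.1`.  `hv`: an element of `Md h hz D d` is a function on all tuples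
which vanishes outside `tot x = d`.  `hθ₁`: `mlRho_formula`: `(γ f)(y) = ± γ f(γ⁻¹ y)` with a sign which depends
on `γ` and `y` only, so `θ v = (-1)^n • D.ρ γ v`, which is bijective.
-/

set_option autoImplicit false

namespace Pool.MP0c3001.DV

open CategoryTheory CategoryTheory.Abelian Limits

noncomputable section

variable {k : Type} [CommRing k] {G E : Type} [Group G] [Group E] {l : ℕ} [NeZero l]
  {ι : G →* E} {w : E} {z : G}

theorem acyclic_noroot (h : RootExt ι w z l) (hz : ∀ g : G, z * g = g * z) (hl : l.Prime)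
    (hR : ∀ r : G, r ^ l ≠ z) (D : Rep.{0} k E) (d i : ℕ) (hd : 1 ≤ d) (hi : 1 ≤ i)
    (x : HH k E (Md h hz D d) i) : x = 0 := by
  let act₁ : MulAction E {y : ML G l // tot y = d} :=
    { smul := fun γ s => ⟨ea h hz γ s.1, by rw [tot_ea]; exact s.2⟩
      one_smul := fun s => Subtype.ext (ea_one h hz s.1)
      mul_smul := fun γ γ' s => Subtype.ext (ea_mul h hz γ γ' s.1) }
  let act₂ : MulAction E PEmpty.{1} :=
    { smul := fun _ s => s
      one_smul := fun s => s.elim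
      mul_smul := fun _ _ s => s.elim }
  refine acyclic_of_free (Md h hz D d) {y : ML G l // tot y = d} PEmpty.{1} ?_ (fun γ s => s.elim)
    D.V PUnit.{1}
    (fun s => (LinearMap.proj s.1 : (ML G l → D.V) →ₗ[k] D.V) ∘ₗ (Sd k D.V G l d).subtype)
    (fun s => s.elim) ?_ ?_ (fun γ s => s.elim) i hi x
  · intro γ s hs
    by_contra h1
    have hx : 0 < tot s.1 := by rw [s.2]; exact hd
    have hγ : ea h hz γ s.1 = s.1 := congrArg Subtype.val hs
    obtain ⟨r, _, _⟩ := ml_stab h hz hl hx hγ h1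
    exact hR r.1 r.2
  · constructor
    · intro f f' hff
      have h1 := congrArg Prod.fst hff
      apply Subtype.ext
      funext y
      by_cases hy : tot y = d
      · exact congrFun h1 ⟨y, hy⟩
      · rw [f.2 y hy, f'.2 y hy]
    · rintro ⟨a, b⟩
      refine ⟨⟨fun y => if hy : tot y = d then a ⟨y, hy⟩ else 0, ?_⟩, ?_⟩
      · intro y hy
        exact dif_neg hy
      · refine Prod.ext ?_ ?_
        · funext s
          exact dif_pos s.2
        · funext s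
          exact s.elim
  · intro γ s
    obtain ⟨n, hn⟩ := mlRho_formula h hz D γ
    refine ⟨fun v => ((-1 : k) ^ n s.1) • D.ρ γ v, ?_, ?_⟩
    · have hsq : ((-1 : k) ^ n s.1) * ((-1 : k) ^ n s.1) = 1 := by
        rw [← mul_pow, neg_one_mul, neg_neg, one_pow]
      have hρ : ∀ v, D.ρ γ (D.ρ γ⁻¹ v) = v := fun v => by
        rw [← Module.End.mul_apply, ← map_mul, mul_inv_cancel, map_one, Module.End.one_apply]
      have hρ' : ∀ v, D.ρ γ⁻¹ (D.ρ γ v) = v := fun v => by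
        rw [← Module.End.mul_apply, ← map_mul, inv_mul_cancel, map_one, Module.End.one_apply]
      refine Function.bijective_iff_has_inverse.2
        ⟨fun v => D.ρ γ⁻¹ (((-1 : k) ^ n s.1) • v), ?_, ?_⟩
      · intro v
        change D.ρ γ⁻¹ (((-1 : k) ^ n s.1) • (((-1 : k) ^ n s.1) • D.ρ γ v)) = v
        rw [smul_smul, hsq, one_smul, hρ']
      · intro v
        change ((-1 : k) ^ n s.1) • D.ρ γ (D.ρ γ⁻¹ (((-1 : k) ^ n s.1) • v)) = v
        rw [hρ, smul_smul, hsq, one_smul]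
    · intro f
      exact hn f.1 s.1

end

end Pool.MP0c3001.DV
end

section

/-!
# S12: acyclicity of `M_d(D)` for `D = coker (V → Map(R,V))`

`R` not empty, `l` prime, `G` without `l`-torsion, `d ≥ 1`.  Let `tot x = d`.
`x` is singular if `ea (ι r w⁻¹) x = x` for some `r : Rt z l` (unique: `ml_uniq`; call it `r_x`), free
otherwise.  The action `ea` preserves both sorts, and `r_{γ x} = pr(γ) r_x` (as
`γ (ι r w⁻¹) γ⁻¹ = ι (g r g⁻¹) w⁻¹` for `γ = ι g w^j`, `conjAct_smul`, `RootExt.eq`, `pr_ι`, `pr_w`).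
`E` acts freely on `S₁ = {x free}` (`ml_stab`: if `γ ≠ 1` fixes `x`, then `γ^i = ι r w⁻¹` fixes `x`) and on
`S₂ = {(x, r') : x singular, r' ≠ r_x}`, `γ (x, r') = (γ x, pr(γ) r')` (`ml_free_Y`).

Apply `acyclic_of_free` (S08b) with `W₁ = Dr hπ l V`, `W₂ = V`, `v₁ x f = f(x)`,
`v₂ (x, r') f = f(x)(r_x, r')` (`f(x) ∈ Dr` is a cocycle `u : R → R → V`, `u(r,r'') = u(r,r') + u(r',r'')`).
`hθ`: by `mlRho_formula` `(γ f)(x) = ± pr(γ) f(γ⁻¹ x)`, so
`(γ f)(x)(r_x, r') = ± pr(γ) (f(γ⁻¹ x)(r_{γ⁻¹ x}, pr(γ)⁻¹ r'))`; `θ v = (-1)^n • pr(γ) v` in both cases.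
`hv` injective: all values `f(y)`, `y` free, and all `f(y)(r_y, r')`, `y` singular, `r' ≠ r_y`, agree; a
cocycle satisfies `u(r,r) = 0`, `u(r', r'') = u(r_y, r'') - u(r_y, r')`.
Surjective: for singular `y` the values `F(r') = f(y)(r_y, r')`, `r' ≠ r_y`, can
be prescribed arbitrarily (`F(r_y) = 0`, `u(r', r'') = F(r'') - F(r')`).
-/

set_option autoImplicit false

namespace Pool.MP0c3001.DV

open CategoryTheory CategoryTheory.Abelian Limits

noncomputable section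

variable {k : Type} [CommRing k] {G E Q : Type} [Group G] [Group E] [Group Q] {l : ℕ} [NeZero l]
  {ι : G →* E} {w : E} {z : G}

omit [NeZero l] in
private lemma s12_conjE (h : RootExt ι w z l) {π : G →* Q} (hπ : CycExt π z) (γ : E) (r : Rt z l) :
    (ι ((conjAct hπ l).smul (h.pr hπ.map_z γ) r).1 * w⁻¹) * γ = γ * (ι r.1 * w⁻¹) := by
  have hw : ∀ x : E, Commute w x := h.cen
  have h1 := h.eq γ
  generalize h.gc γ = g at h1
  generalize h.jc γ = j at h1
  subst h1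
  have h2 : h.pr hπ.map_z (ι g * w ^ j) = π g := by
    rw [map_mul, map_pow, h.pr_ι, h.pr_w, one_pow, mul_one]
  rw [h2, conjAct_smul, map_mul, map_mul, map_inv]
  have hwi : ∀ x : E, w⁻¹ * x = x * w⁻¹ := fun x => (hw x).inv_left.eq
  have hwp : ∀ x : E, w ^ j * x = x * w ^ j := fun x => ((hw x).pow_left j).eq
  calc ι g * ι r.1 * (ι g)⁻¹ * w⁻¹ * (ι g * w ^ j)
      = ι g * ι r.1 * (ι g)⁻¹ * (w⁻¹ * (ι g * w ^ j)) := by simp only [mul_assoc]
    _ = ι g * ι r.1 * (ι g)⁻¹ * (ι g * w ^ j * w⁻¹) := by rw [hwi]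
    _ = ι g * ι r.1 * ((ι g)⁻¹ * ι g) * (w ^ j * w⁻¹) := by simp only [mul_assoc]
    _ = ι g * ι r.1 * (w ^ j * w⁻¹) := by rw [inv_mul_cancel, mul_one]
    _ = ι g * (ι r.1 * w ^ j) * w⁻¹ := by simp only [mul_assoc]
    _ = ι g * (w ^ j * ι r.1) * w⁻¹ := by rw [hwp]
    _ = ι g * w ^ j * (ι r.1 * w⁻¹) := by simp only [mul_assoc]

private lemma s12_trans (h : RootExt ι w z l) {π : G →* Q} (hπ : CycExt π z) (γ : E) (r : Rt z l)
    {x : ML G l} (hx : ea h hπ.cen (ι r.1 * w⁻¹) x = x) :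
    ea h hπ.cen (ι ((conjAct hπ l).smul (h.pr hπ.map_z γ) r).1 * w⁻¹) (ea h hπ.cen γ x) =
      ea h hπ.cen γ x := by
  rw [← ea_mul, s12_conjE h hπ γ r, ea_mul, hx]

private lemma s12_pow (h : RootExt ι w z l) (hz : ∀ g : G, z * g = g * z) {γ : E} {x : ML G l}
    (hx : ea h hz γ x = x) (i : ℕ) : ea h hz (γ ^ i) x = x := by
  induction i with
  | zero => rw [pow_zero, ea_one]
  | succ i ih => rw [pow_succ, ea_mul, hx, ih]

/-- some root fixes `x` -/
private def s12_Sg (h : RootExt ι w z l) (hz : ∀ g : G, z * g = g * z) (x : ML G l) : Prop :=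
  ∃ r : Rt z l, ea h hz (ι r.1 * w⁻¹) x = x

private lemma s12_Sg_ea (h : RootExt ι w z l) {π : G →* Q} (hπ : CycExt π z) (γ : E) {x : ML G l}
    (hx : s12_Sg h hπ.cen x) : s12_Sg h hπ.cen (ea h hπ.cen γ x) := by
  obtain ⟨r, hr⟩ := hx
  exact ⟨_, s12_trans h hπ γ r hr⟩

private lemma s12_Sg_ea' (h : RootExt ι w z l) {π : G →* Q} (hπ : CycExt π z) (γ : E) {x : ML G l}
    (hx : s12_Sg h hπ.cen (ea h hπ.cen γ x)) : s12_Sg h hπ.cen x := by
  have h1 := s12_Sg_ea h hπ γ⁻¹ hx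
  rwa [ea_inv] at h1

/-- the free points -/
private abbrev s12_S1 (h : RootExt ι w z l) (hz : ∀ g : G, z * g = g * z) (d : ℕ) : Type :=
  {x : ML G l // tot x = d ∧ ¬ s12_Sg h hz x}

/-- the pairs of a singular point and another root -/
private abbrev s12_S2 (h : RootExt ι w z l) (hz : ∀ g : G, z * g = g * z) (d : ℕ) : Type :=
  {p : ML G l × Rt z l // tot p.1 = d ∧ ∃ r : Rt z l, ea h hz (ι r.1 * w⁻¹) p.1 = p.1 ∧ p.2 ≠ r}

private abbrev s12_A1 (h : RootExt ι w z l) {π : G →* Q} (hπ : CycExt π z) (d : ℕ) :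
    MulAction E (s12_S1 h hπ.cen d) where
  smul γ s := ⟨ea h hπ.cen γ s.1, (tot_ea h hπ.cen γ s.1).trans s.2.1,
    fun hs => s.2.2 (s12_Sg_ea' h hπ γ hs)⟩
  one_smul s := Subtype.ext (ea_one h hπ.cen s.1)
  mul_smul γ γ' s := Subtype.ext (ea_mul h hπ.cen γ γ' s.1)

omit [NeZero l] in
private lemma s12_smul_ne {π : G →* Q} (hπ : CycExt π z) (q : Q) {r r' : Rt z l} (hr : r' ≠ r) :
    (conjAct hπ l).smul q r' ≠ (conjAct hπ l).smul q r := by
  let := conjAct hπ l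
  intro h1
  exact hr (smul_left_cancel q h1)

private abbrev s12_A2 (h : RootExt ι w z l) {π : G →* Q} (hπ : CycExt π z) (d : ℕ) :
    MulAction E (s12_S2 h hπ.cen d) where
  smul γ s := ⟨(ea h hπ.cen γ s.1.1, (conjAct hπ l).smul (h.pr hπ.map_z γ) s.1.2),
    (tot_ea h hπ.cen γ s.1.1).trans s.2.1, by
      obtain ⟨r, h1, h2⟩ := s.2.2
      exact ⟨_, s12_trans h hπ γ r h1, s12_smul_ne hπ _ h2⟩⟩
  one_smul s := by
    let := conjAct hπ l
    apply Subtype.ext
    refine Prod.ext (ea_one h hπ.cen s.1.1) ?_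
    change h.pr hπ.map_z 1 • s.1.2 = s.1.2
    rw [map_one, one_smul]
  mul_smul γ γ' s := by
    let := conjAct hπ l
    apply Subtype.ext
    refine Prod.ext (ea_mul h hπ.cen γ γ' s.1.1) ?_
    change h.pr hπ.map_z (γ * γ') • s.1.2 = h.pr hπ.map_z γ • h.pr hπ.map_z γ' • s.1.2
    rw [map_mul, mul_smul]

open Classical in
/-- the root which fixes a singular point -/
private def s12_rx (h : RootExt ι w z l) (hz : ∀ g : G, z * g = g * z) (r₀ : Rt z l)
    (x : ML G l) : Rt z l :=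
  if hx : s12_Sg h hz x then hx.choose else r₀

private lemma s12_rx_fix (h : RootExt ι w z l) (hz : ∀ g : G, z * g = g * z) (r₀ : Rt z l)
    {x : ML G l} (hx : s12_Sg h hz x) : ea h hz (ι (s12_rx h hz r₀ x).1 * w⁻¹) x = x := by
  unfold s12_rx
  rw [dif_pos hx]
  exact hx.choose_spec

private lemma s12_rx_eq (h : RootExt ι w z l) (hz : ∀ g : G, z * g = g * z) (r₀ : Rt z l)
    {x : ML G l} (ht : 0 < tot x) {r : Rt z l} (hr : ea h hz (ι r.1 * w⁻¹) x = x) :
    s12_rx h hz r₀ x = r :=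
  ml_uniq h hz ht (s12_rx_fix h hz r₀ ⟨r, hr⟩) hr

private lemma s12_rx_ea (h : RootExt ι w z l) {π : G →* Q} (hπ : CycExt π z) (r₀ : Rt z l)
    {x : ML G l} (ht : 0 < tot x) (hx : s12_Sg h hπ.cen x) (γ : E) :
    s12_rx h hπ.cen r₀ (ea h hπ.cen γ x) =
      (conjAct hπ l).smul (h.pr hπ.map_z γ) (s12_rx h hπ.cen r₀ x) := by
  apply s12_rx_eq h hπ.cen r₀
  · rw [tot_ea]
    exact ht
  · exact s12_trans h hπ γ _ (s12_rx_fix h hπ.cen r₀ hx)

private lemma s12_bij {M : Type} [AddCommGroup M] [Module k M] {H : Type} [Group H]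
    (ρ : Representation k H M) (n : ℕ) (q : H) :
    Function.Bijective (fun v : M => ((-1 : k) ^ n) • ρ q v) := by
  have hs : ((-1 : k) ^ n) * (-1) ^ n = 1 := by
    rw [← mul_pow, neg_mul_neg, one_mul, one_pow]
  have hq : ρ q * ρ q⁻¹ = 1 := by rw [← map_mul, mul_inv_cancel, map_one]
  have hq' : ρ q⁻¹ * ρ q = 1 := by rw [← map_mul, inv_mul_cancel, map_one]
  rw [Function.bijective_iff_has_inverse]
  refine ⟨fun v => ρ q⁻¹ (((-1 : k) ^ n) • v), ?_, ?_⟩
  · intro v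
    change ρ q⁻¹ (((-1 : k) ^ n) • (((-1 : k) ^ n) • ρ q v)) = v
    rw [smul_smul, hs, one_smul]
    exact LinearMap.congr_fun hq' v
  · intro v
    change ((-1 : k) ^ n) • ρ q (ρ q⁻¹ (((-1 : k) ^ n) • v)) = v
    have h1 : ρ q (ρ q⁻¹ (((-1 : k) ^ n) • v)) = ((-1 : k) ^ n) • v :=
      LinearMap.congr_fun hq _
    rw [h1, smul_smul, hs, one_smul]

theorem acyclic_roots (h : RootExt ι w z l) (hl : l.Prime) {π : G →* Q} (hπ : CycExt π z)
    (htor : ∀ g : G, g ^ l = 1 → g = 1) (hne : Nonempty (Rt z l)) (V : Rep.{0} k Q)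
    (d i : ℕ) (hd : 1 ≤ d) (hi : 1 ≤ i)
    (x : HH k E (Md h hπ.cen ((Rep.resFunctor.{0} (k := k) (h.pr hπ.map_z)).obj (Dr hπ l V)) d) i) :
    x = 0 := by
  obtain ⟨r₀⟩ := hne
  have ht : ∀ {x : ML G l}, tot x = d → 0 < tot x := fun {x} hx => by omega
  let a1 := s12_A1 h hπ d
  let a2 := s12_A2 h hπ d
  let D : Rep.{0} k E := (Rep.resFunctor.{0} (k := k) (h.pr hπ.map_z)).obj (Dr hπ l V)
  let rx := s12_rx h hπ.cen r₀
  let v₁ : s12_S1 h hπ.cen d → (Md h hπ.cen D d).V →ₗ[k] (Dr hπ l V).V := fun s =>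
    { toFun := fun f => f.1 s.1
      map_add' := fun _ _ => rfl
      map_smul' := fun _ _ => rfl }
  let v₂ : s12_S2 h hπ.cen d → (Md h hπ.cen D d).V →ₗ[k] V.V := fun s =>
    { toFun := fun f => (f.1 s.1.1).1 (rx s.1.1) s.1.2
      map_add' := fun _ _ => rfl
      map_smul' := fun _ _ => rfl }
  refine acyclic_of_free (Md h hπ.cen D d) (s12_S1 h hπ.cen d) (s12_S2 h hπ.cen d) ?_ ?_
    (Dr hπ l V).V V.V v₁ v₂ ?_ ?_ ?_ i hi x
  · intro γ s hs
    by_contra h1
    have hs' : ea h hπ.cen γ s.1 = s.1 := congrArg Subtype.val hs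
    obtain ⟨r, j, hj⟩ := ml_stab h hπ.cen hl (ht s.2.1) hs' h1
    apply s.2.2
    refine ⟨r, ?_⟩
    rw [← hj]
    exact s12_pow h hπ.cen hs' j
  · intro γ s hs
    obtain ⟨r, h1, h2⟩ := s.2.2
    have hs' : ea h hπ.cen γ s.1.1 = s.1.1 := congrArg (fun t : s12_S2 h hπ.cen d => t.1.1) hs
    have hs'' : (conjAct hπ l).smul (h.pr hπ.map_z γ) s.1.2 = s.1.2 :=
      congrArg (fun t : s12_S2 h hπ.cen d => t.1.2) hs
    exact ml_free_Y h hl hπ htor (ht s.2.1) h1 h2 hs' hs''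
  · constructor
    · intro f f' hff
      have e1 := congrArg Prod.fst hff
      have e2 := congrArg Prod.snd hff
      apply Subtype.ext
      funext x
      by_cases hx : tot x = d
      · by_cases hs : s12_Sg h hπ.cen x
        · have hfix := s12_rx_fix h hπ.cen r₀ hs
          have h3 : ∀ b : Rt z l, (f.1 x).1 (rx x) b = (f'.1 x).1 (rx x) b := by
            intro b
            by_cases hb : b = rx x
            · have g1 := (f.1 x).2 (rx x) (rx x) (rx x)
              have g2 := (f'.1 x).2 (rx x) (rx x) (rx x)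
              rw [hb, left_eq_add.1 g1, left_eq_add.1 g2]
            · exact congrFun e2 ⟨(x, b), hx, _, hfix, hb⟩
          apply Subtype.ext
          funext a b
          have g1 := (f.1 x).2 (rx x) a b
          have g2 := (f'.1 x).2 (rx x) a b
          rw [h3 a, h3 b] at g1
          exact add_left_cancel (g1.symm.trans g2)
        · exact congrFun e1 ⟨x, hx, hs⟩
      · rw [f.2 x hx, f'.2 x hx]
    · rintro ⟨F₁, F₂⟩
      classical
      let Gv : ∀ x : ML G l, tot x = d → s12_Sg h hπ.cen x → Rt z l → V.V :=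
        fun x hx hs b => if hb : b = rx x then 0 else
          F₂ ⟨(x, b), hx, _, s12_rx_fix h hπ.cen r₀ hs, hb⟩
      let f : ML G l → D.V := fun x =>
        if hx : tot x = d then
          (if hs : s12_Sg h hπ.cen x then
            (⟨fun a b => Gv x hx hs b - Gv x hx hs a, fun a b c =>
              (sub_add_sub_cancel' (Gv x hx hs b) (Gv x hx hs a) (Gv x hx hs c)).symm⟩ : rrCoc l V)
          else F₁ ⟨x, hx, hs⟩)
        else (0 : rrCoc l V)
      refine ⟨⟨f, ?_⟩, ?_⟩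
      · intro x hx
        change (if hx : tot x = d then _ else _) = _
        rw [dif_neg hx]
      · refine Prod.ext ?_ ?_
        · funext s
          change f s.1 = F₁ s
          change (if hx : tot s.1 = d then _ else _) = _
          rw [dif_pos s.2.1, dif_neg s.2.2]
        · funext s
          obtain ⟨⟨x, b⟩, hx, r, hr, hb⟩ := s
          change tot x = d at hx
          change ea h hπ.cen (ι r.1 * w⁻¹) x = x at hr
          change b ≠ r at hb
          have hs : s12_Sg h hπ.cen x := ⟨r, hr⟩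
          have hrx : rx x = r := s12_rx_eq h hπ.cen r₀ (ht hx) hr
          have hb' : b ≠ rx x := by rw [hrx]; exact hb
          have hf : f x = (⟨fun a b => Gv x hx hs b - Gv x hx hs a, fun a b c =>
              (sub_add_sub_cancel' (Gv x hx hs b) (Gv x hx hs a) (Gv x hx hs c)).symm⟩ : rrCoc l V) := by
            change (if hx : tot x = d then _ else _) = _
            rw [dif_pos hx, dif_pos hs]
          change (f x).1 (rx x) b = F₂ ⟨(x, b), _⟩
          rw [hf]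
          change Gv x hx hs b - Gv x hx hs (rx x) = _
          have g1 : Gv x hx hs (rx x) = 0 := dif_pos rfl
          have g2 : Gv x hx hs b = F₂ ⟨(x, b), hx, _, s12_rx_fix h hπ.cen r₀ hs, hb'⟩ :=
            dif_neg hb'
          rw [g1, g2, sub_zero]
  · intro γ s
    obtain ⟨n, hn⟩ := mlRho_formula h hπ.cen D γ
    refine ⟨fun v => ((-1 : k) ^ n s.1) • (Dr hπ l V).ρ (h.pr hπ.map_z γ) v,
      s12_bij _ _ _, ?_⟩
    intro f
    exact hn f.1 s.1
  · intro γ s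
    obtain ⟨n, hn⟩ := mlRho_formula h hπ.cen D γ
    refine ⟨fun v => ((-1 : k) ^ n s.1.1) • V.ρ (h.pr hπ.map_z γ) v, s12_bij _ _ _, ?_⟩
    intro f
    have hx := s.2.1
    have hs : s12_Sg h hπ.cen s.1.1 := by
      obtain ⟨r, h1, _⟩ := s.2.2
      exact ⟨r, h1⟩
    have h1 := congrArg (fun u : (Dr hπ l V).V => u.1 (rx s.1.1) s.1.2) (hn f.1 s.1.1)
    refine h1.trans ?_
    have h2 := s12_rx_ea h hπ r₀ (ht hx) hs γ⁻¹
    change ((-1 : k) ^ n s.1.1) • V.ρ (h.pr hπ.map_z γ)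
        ((f.1 (ea h hπ.cen γ⁻¹ s.1.1)).1
          ((conjAct hπ l).smul (h.pr hπ.map_z γ)⁻¹ (rx s.1.1))
          ((conjAct hπ l).smul (h.pr hπ.map_z γ)⁻¹ s.1.2)) =
      ((-1 : k) ^ n s.1.1) • V.ρ (h.pr hπ.map_z γ)
        ((f.1 (ea h hπ.cen γ⁻¹ s.1.1)).1 (rx (ea h hπ.cen γ⁻¹ s.1.1))
          ((conjAct hπ l).smul (h.pr hπ.map_z γ⁻¹) s.1.2))
    have h3 : rx (ea h hπ.cen γ⁻¹ s.1.1) =
        (conjAct hπ l).smul (h.pr hπ.map_z γ⁻¹) (rx s.1.1) := h2
    rw [h3, map_inv]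

end

end Pool.MP0c3001.DV
end
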