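import Pool.Agent.Lib.MP_0c3001_gt.Mg.G018
import Pool.Agent.Lib.MP_0c3001_gt.Mg.G009
import Pool.Agent.Lib.MP_0c3001_gt.Mg.G011
import Pool.Agent.Lib.MP_0c3001_gt.Mg.G015

section

/-!
# G2b: the Euler class of a character which vanishes on `g ^ l` splits over `C_r × ℤ/l`

`Φ = (Qr hϖ l r).subtype ∘ mu : Cn r × ℤ/l → Q`; `Φ (h, j) = ϖ h * ϖ r ^ j` (`hmu1`, `hmu2`, `mu (h, j) = mu (h, 1) * mu (1, j)`,
`crMap_apply`).  Lift: `S (h, j) = t h * g ^ (j.toAdd.val)` (`ZMod.val`, `l ≠ 0`), `π (S a) = Φ a`.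
By `rs_rs` the left side is `rs Φ (ecl k hc)` and by `ecl_fs_lift` it is `ecl k` of
`c' a b = χ (S a * S b * (S (a * b))⁻¹)`.  By `ecl_fs_lift` for `φ₀ = ϖ ∘ subtype : Cn r → Q` and `S₀ = t`:
`rs φ₀ (ecl k hc) = ecl k` of `c₀ h h' = χ (t h * t h' * (t (h * h'))⁻¹)`, and `ecl_pull` for `MonoidHom.fst`.
Finally `c' a b = c₀ a.1 b.1`: with `j = j₁ + j₂ - (j₁ + j₂) % l ∈ {0, l}` (`ZMod.val_add`) and the commutation of `g`
with all `t h`: `S a * S b * (S (a b))⁻¹ = (t a.1 * t b.1 * (t (a.1 b.1))⁻¹) * g ^ j`, and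
`χ (g ^ l) = 0`.  (The cocycles `c'`, `c₀` are cocycles: e.g. because by construction they are of the form `χ` of a
factor set with central values; prove `IsCoc` directly: `S a S b = u(a,b) S(ab)`, `u` central, associativity.)
-/

set_option autoImplicit false

namespace Pool.MP0c3001.DV

open CategoryTheory CategoryTheory.Abelian Limits

noncomputable section

variable {k : Type} [CommRing k] {G G' Q : Type} [Group G] [Group G'] [Group Q] {z : G'} {l : ℕ}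

private lemma G2b_mem {G Q Q' : Type} [Group G] [Group Q] [Group Q'] (π : G →* Q) (φ : Q' →* Q)
    (S : Q' → G) (hS : ∀ a, π (S a) = φ a) (a b : Q') : S a * S b * (S (a * b))⁻¹ ∈ π.ker := by
  rw [MonoidHom.mem_ker, map_mul, map_mul, map_inv, hS, hS, hS, map_mul]
  group

private lemma G2b_coc {G Q Q' : Type} [Group G] [Group Q] [Group Q'] (π : G →* Q) (φ : Q' →* Q)
    (S : Q' → G) (hS : ∀ a, π (S a) = φ a) (hcen : π.ker ≤ Subgroup.center G)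
    (χ : Additive π.ker →+ ℤ) :
    IsCoc (fun a b => χ (Additive.ofMul ⟨S a * S b * (S (a * b))⁻¹, G2b_mem π φ S hS a b⟩)) := by
  intro q' q p
  have key : (⟨S (q' * q) * S p * (S (q' * q * p))⁻¹, G2b_mem π φ S hS (q' * q) p⟩ : π.ker) *
      ⟨S q' * S q * (S (q' * q))⁻¹, G2b_mem π φ S hS q' q⟩ =
      ⟨S q * S p * (S (q * p))⁻¹, G2b_mem π φ S hS q p⟩ *
        ⟨S q' * S (q * p) * (S (q' * (q * p)))⁻¹, G2b_mem π φ S hS q' (q * p)⟩ := by
    apply Subtype.ext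
    have hc : ∀ (a b : Q') (g : G), g * (S a * S b * (S (a * b))⁻¹) =
        (S a * S b * (S (a * b))⁻¹) * g :=
      fun a b g => Subgroup.mem_center_iff.1 (hcen (G2b_mem π φ S hS a b)) g
    have e1 : ∀ a b : Q', (S a * S b * (S (a * b))⁻¹) * S (a * b) = S a * S b := by
      intro a b
      rw [inv_mul_cancel_right]
    have e2 : ((S (q' * q) * S p * (S (q' * q * p))⁻¹) * (S q' * S q * (S (q' * q))⁻¹)) *
        S (q' * q * p) = S q' * S q * S p := by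
      rw [hc q' q, mul_assoc, e1, ← mul_assoc, e1]
    have e3 : ((S q * S p * (S (q * p))⁻¹) * (S q' * S (q * p) * (S (q' * (q * p)))⁻¹)) *
        S (q' * q * p) = S q' * S q * S p := by
      rw [mul_assoc q' q p, mul_assoc, e1, ← mul_assoc, ← hc q p, mul_assoc, e1, mul_assoc]
    exact mul_right_cancel (e2.trans e3.symm)
  have h := congrArg (fun x => χ (Additive.ofMul x)) key
  simp only [ofMul_mul, map_add] at h
  exact h

theorem euler_split (π : G →* Q) (s : Q → G) (hs : IsSec π s) (hcen : π.ker ≤ Subgroup.center G)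
    (χ : Additive π.ker →+ ℤ) (hc : IsCoc (fun q' q => χ (Additive.ofMul (fs π s hs q' q))))
    (p : G →* G') {ϖ : G' →* Q} (hϖ : CycExt ϖ z) (hϖp : ∀ g, ϖ (p g) = π g) (hl : 0 < l)
    (r : Rt z l) (g : G) (hg : p g = r.1) (hgl : g ^ l ∈ π.ker)
    (hχ : χ (Additive.ofMul ⟨g ^ l, hgl⟩) = 0) (t : Cn r.1 → G) (ht : ∀ h, p (t h) = h.1)
    (ht' : ∀ h, t h * g = g * t h)
    (mu : Cn r.1 × Multiplicative (ZMod l) →* Qr hϖ l r) (hmu1 : ∀ h, mu (h, 1) = crMap hϖ r h)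
    (hmu2 : ∀ j : ℕ, mu (1, Multiplicative.ofAdd (j : ZMod l)) = crMap hϖ r (rc r) ^ j) :
    (rs mu (rs (Qr hϖ l r).subtype (ecl k hc)) :
      HH k (Cn r.1 × Multiplicative (ZMod l)) (Zt k (Cn r.1 × Multiplicative (ZMod l))) 2) =
      rs (MonoidHom.fst (Cn r.1) (Multiplicative (ZMod l)))
        (rs (ϖ.comp (Cn r.1).subtype) (ecl k hc)) := by
  have : NeZero l := ⟨hl.ne'⟩
  let S : Cn r.1 × Multiplicative (ZMod l) → G := fun a => t a.1 * g ^ (a.2.toAdd.val)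
  have hπt : ∀ h, π (t h) = ϖ h.1 := fun h => by rw [← hϖp, ht]
  have hπg : π g = ϖ r.1 := by rw [← hϖp, hg]
  -- the map `mu` on elements
  have hmu : ∀ a, ((mu a : Qr hϖ l r) : Q) = ϖ a.1.1 * ϖ r.1 ^ (a.2.toAdd.val) := by
    rintro ⟨h, j⟩
    have e1 : ((h, j) : Cn r.1 × Multiplicative (ZMod l)) = (h, 1) * (1, j) := by
      rw [Prod.mk_mul_mk, mul_one, one_mul]
    have e2 : j = Multiplicative.ofAdd ((j.toAdd.val : ℕ) : ZMod l) := by
      rw [ZMod.natCast_zmod_val]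
      rfl
    have e3 : mu (1, j) = crMap hϖ r (rc r) ^ j.toAdd.val := by
      conv_lhs => rw [e2]
      exact hmu2 _
    have e4 : mu (h, j) = crMap hϖ r h * crMap hϖ r (rc r) ^ j.toAdd.val := by
      rw [e1, map_mul, hmu1, e3]
    rw [e4, Subgroup.coe_mul, Subgroup.coe_pow, crMap_apply, crMap_apply]
    rfl
  have hS : ∀ a, π (S a) = ((Qr hϖ l r).subtype.comp mu) a := by
    intro a
    change π (t a.1 * g ^ (a.2.toAdd.val)) = ((mu a : Qr hϖ l r) : Q)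
    rw [map_mul, map_pow, hπt, hπg, hmu]
  have hS₀ : ∀ h, π (t h) = (ϖ.comp (Cn r.1).subtype) h := hπt
  have hc' := G2b_coc π _ S hS hcen χ
  have hc₀ := G2b_coc π _ t hS₀ hcen χ
  have e1 := ecl_fs_lift (k := k) π s hs hcen χ hc _ S hS (G2b_mem π _ S hS) hc' (fun _ _ => rfl)
  have e0 := ecl_fs_lift (k := k) π s hs hcen χ hc _ t hS₀ (G2b_mem π _ t hS₀) hc₀ (fun _ _ => rfl)
  have e2 : ecl k hc' = (rs (MonoidHom.fst (Cn r.1) (Multiplicative (ZMod l))) (ecl k hc₀) :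
      HH k (Cn r.1 × Multiplicative (ZMod l)) (Zt k (Cn r.1 × Multiplicative (ZMod l))) 2) := by
    refine ecl_pull (MonoidHom.fst (Cn r.1) (Multiplicative (ZMod l))) hc₀ hc' ?_
    intro a b
    -- the difference of the two factor sets is a power of `g ^ l`
    obtain ⟨m, hm⟩ : ∃ m : ℕ, a.2.toAdd.val + b.2.toAdd.val = (a * b).2.toAdd.val + l * m := by
      refine ⟨(a.2.toAdd.val + b.2.toAdd.val) / l, ?_⟩
      have e : (a * b).2.toAdd.val = (a.2.toAdd.val + b.2.toAdd.val) % l := ZMod.val_add _ _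
      rw [e, Nat.mod_add_div]
    have hcomm : ∀ (h : Cn r.1) (n : ℕ), g ^ n * t h = t h * g ^ n := fun h n =>
      (Commute.pow_right (ht' h) n).symm
    have hG : S a * S b * (S (a * b))⁻¹ =
        (t a.1 * t b.1 * (t (a.1 * b.1))⁻¹) * (g ^ l) ^ m := by
      change t a.1 * g ^ (a.2.toAdd.val) * (t b.1 * g ^ (b.2.toAdd.val)) *
        (t (a.1 * b.1) * g ^ ((a * b).2.toAdd.val))⁻¹ = _
      rw [mul_inv_eq_iff_eq_mul]
      have h1 : t a.1 * g ^ (a.2.toAdd.val) * (t b.1 * g ^ (b.2.toAdd.val)) =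
          t a.1 * t b.1 * g ^ (a.2.toAdd.val + b.2.toAdd.val) := by
        rw [pow_add, mul_assoc, ← mul_assoc (g ^ (a.2.toAdd.val)), hcomm]
        simp only [mul_assoc]
      rw [h1, hm, pow_add, pow_mul]
      have h2 : (g ^ l) ^ m * t (a.1 * b.1) = t (a.1 * b.1) * (g ^ l) ^ m := by
        rw [← pow_mul]
        exact hcomm _ _
      have h3 : g ^ ((a * b).2.toAdd.val) * (g ^ l) ^ m = (g ^ l) ^ m * g ^ ((a * b).2.toAdd.val) := by
        rw [← pow_mul, ← pow_add, ← pow_add, add_comm]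
      calc t a.1 * t b.1 * (g ^ ((a * b).2.toAdd.val) * (g ^ l) ^ m)
          = t a.1 * t b.1 * ((g ^ l) ^ m * g ^ ((a * b).2.toAdd.val)) := by rw [h3]
        _ = t a.1 * t b.1 * (t (a.1 * b.1))⁻¹ * (t (a.1 * b.1) * (g ^ l) ^ m) *
              g ^ ((a * b).2.toAdd.val) := by
            simp only [mul_assoc, inv_mul_cancel_left]
        _ = t a.1 * t b.1 * (t (a.1 * b.1))⁻¹ * ((g ^ l) ^ m * t (a.1 * b.1)) *
              g ^ ((a * b).2.toAdd.val) := by rw [h2]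
        _ = _ := by simp only [mul_assoc]
    have hK : (⟨S a * S b * (S (a * b))⁻¹, G2b_mem π _ S hS a b⟩ : π.ker) =
        ⟨t a.1 * t b.1 * (t (a.1 * b.1))⁻¹, G2b_mem π _ t hS₀ a.1 b.1⟩ * ⟨g ^ l, hgl⟩ ^ m := by
      apply Subtype.ext
      rw [Subgroup.coe_mul, Subgroup.coe_pow]
      exact hG
    change χ (Additive.ofMul ⟨S a * S b * (S (a * b))⁻¹, G2b_mem π _ S hS a b⟩) =
      χ (Additive.ofMul ⟨t a.1 * t b.1 * (t (a.1 * b.1))⁻¹, G2b_mem π _ t hS₀ a.1 b.1⟩)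
    rw [hK, ofMul_mul, map_add, ofMul_pow, map_nsmul, hχ, smul_zero, add_zero]
  have e3 := rs_rs (Qr hϖ l r).subtype mu (ecl k hc)
  refine e3.trans (e1.symm.trans (e2.trans ?_))
  exact congrArg (fun x : HH k (Cn r.1) (Zt k (Cn r.1)) 2 =>
    (rs (MonoidHom.fst (Cn r.1) (Multiplicative (ZMod l))) x :
      HH k (Cn r.1 × Multiplicative (ZMod l)) (Zt k (Cn r.1 × Multiplicative (ZMod l))) 2)) e0

end

end Pool.MP0c3001.DV
end

section

/-!
# G2: on `Q_r` the `N`-th power of `e_{x₁ - a x₀}` is divisible by `l`, `a = χ_{x₁}(g ^ l)`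

Choose `g` with `p g = r` (`hp`); `π (g ^ l) = ϖ (r ^ l) = ϖ z = 1`; `z = r ^ l = p (g ^ l) = z ^ chi e x₀ (g ^ l)`, so
`chi e x₀ (g ^ l) = 1` (`hϖ.ord`).  Put `a = chi e x₁ (g ^ l)`, `χ = chi e (x₁ - a • x₀)`, so `χ (g ^ l) = 0`
(`chi` is linear in `x`: `Finset.sum` algebra).  `ker π ≅ ℤ^R` is torsion free (`e`).  `exists_lifts` gives `t`, `exists_mu`
gives `mu`; `ex k π s hs hcen e (x₁ - a • x₀) = ecl k hc` with `hc = isCoc_fs π s hs hcen χ` (definitionally: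
`isCoc_cxk`).  Let `ε = rs (Qr..).subtype (ecl k hc)`, `β = (epow ε N).comp (mk₀ (qm k (Qr..) l))`.
`rs mu β = (epow (rs mu ε) N).comp qm` (`rs_qm`, `rs_epow`) `= (epow (rs fst ε₀) N).comp qm = rs fst ((epow ε₀ N).comp qm)`,
`ε₀ = rs (ϖ.comp subtype) (ecl k hc)` (`euler_split`).  `(epow ε₀ N).comp qm ∈ H^{2N}(Cn r;k/l)` is killed by `m`
(`Kills.subgroup`, `2 N ≥ N`) and by `l` (`coh_kill`, `vq_kill`), so it is `0` (`eq_zero_of_coprime`).  So `rs mu β = 0`.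
`gysin_infl` for `mu` (cocycle `c'` from `exists_fitsZ`, cast to `k`; `2 N = (2 N - 2) + 2`): `β = (ecl k hc').comp γ`.
By `euler_mu` (with a cocycle of `ϖ` from `exists_fitsZ hϖ`) `ecl k hc' = (-l) • (..)`, so `β = 0` because
`l • γ = 0` (`coh_kill`).  Hence `l` divides `epow ε N` (`dvd_of_qm`).
-/

set_option autoImplicit false

namespace Pool.MP0c3001.DV

open CategoryTheory CategoryTheory.Abelian Limits

noncomputable section

variable {k : Type} [CommRing k] {G G' Q : Type} [Group G] [Group G'] [Group Q] {z : G'} {l : ℕ}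

private theorem G2_push {Q Q' : Type} [Group Q] [Group Q'] (φ : Q' →* Q)
    (e : HH k Q (Zt k Q) 2) (e' : HH k Q' (Zt k Q') 2)
    (he : (rs φ e : HH k Q' (Zt k Q') 2) = e') (N n : ℕ) :
    (rs φ ((epow e N).comp (Ext.mk₀ (qm k Q n)) (add_zero (2 * N))) :
      HH k Q' (Vq k Q' n) (2 * N)) =
      (epow e' N).comp (Ext.mk₀ (qm k Q' n)) (add_zero (2 * N)) := by
  subst he
  have a1 := rs_qm φ n (epow e N)
  have a2 := rs_epow φ e N
  rw [a2] at a1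
  exact a1

private theorem G2_zero {Q Q' : Type} [Group Q] [Group Q'] (φ : Q' →* Q) (n i : ℕ) :
    (rs φ (0 : HH k Q (Vq k Q n) i) : HH k Q' (Vq k Q' n) i) = 0 := by
  have := rs_nsmul φ 0 (0 : HH k Q (Vq k Q n) i)
  rw [zero_nsmul, zero_nsmul] at this
  exact this

private theorem G2_tf (π : G →* Q) {R : ℕ} (e : Additive π.ker ≃+ (Fin R → ℤ)) :
    ∀ b ∈ π.ker, ∀ n : ℕ, 0 < n → b ^ n = 1 → b = 1 := by
  intro b hb n hn h
  have h1 : (⟨b, hb⟩ : π.ker) ^ n = 1 := Subtype.ext h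
  have h2 : n • e (Additive.ofMul (⟨b, hb⟩ : π.ker)) = 0 := by
    rw [← map_nsmul, ← ofMul_pow, h1, ofMul_one, map_zero]
  have h3 : e (Additive.ofMul (⟨b, hb⟩ : π.ker)) = 0 := by
    funext j
    have h4 := congrFun h2 j
    rw [Pi.smul_apply, Pi.zero_apply, nsmul_eq_mul] at h4
    rcases mul_eq_zero.1 h4 with h5 | h5
    · exact absurd (by exact_mod_cast h5) hn.ne'
    · exact h5
  have h4 : Additive.ofMul (⟨b, hb⟩ : π.ker) = 0 := by
    apply e.injective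
    rw [h3, map_zero]
  have h5 : (⟨b, hb⟩ : π.ker) = 1 := h4
  exact congrArg Subtype.val h5

theorem root_dvd (hk : Function.Bijective (Int.cast : ℤ → k)) (π : G →* Q) (s : Q → G)
    (hs : IsSec π s) (hcen : π.ker ≤ Subgroup.center G) {R : ℕ}
    (e : Additive π.ker ≃+ (Fin R → ℤ)) (x₀ x₁ : Fin R → ℤ) (p : G →* G')
    (hp : Function.Surjective p) (hpk : p.ker ≤ π.ker) {ϖ : G' →* Q} (hϖ : CycExt ϖ z)
    (hϖp : ∀ g, ϖ (p g) = π g)
    (hpz : ∀ a : π.ker, p (a : G) = z ^ (chi e x₀ (Additive.ofMul a)))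
    {m N : ℕ} (hN : 1 ≤ N) (hK : Kills k G' m N) (hl : l.Prime) (hlm : ¬ l ∣ m) (r : Rt z l) :
    ∃ a : ℤ, Dvd l (epow (rs (Qr hϖ l r).subtype (ex k π s hs hcen e (x₁ - a • x₀)) :
      HH k (Qr hϖ l r) (Zt k (Qr hϖ l r)) 2) N) := by
  obtain ⟨g, hg⟩ := hp r.1
  have hgl : g ^ l ∈ π.ker := by
    rw [MonoidHom.mem_ker, ← hϖp, map_pow, hg, r.2, hϖ.map_z]
  have hx0 : chi e x₀ (Additive.ofMul ⟨g ^ l, hgl⟩) = 1 := by
    have h1 := hpz ⟨g ^ l, hgl⟩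
    have h2 : p (g ^ l) = z := by rw [map_pow, hg, r.2]
    have h3 : z = z ^ (chi e x₀ (Additive.ofMul ⟨g ^ l, hgl⟩)) := h2.symm.trans h1
    have h4 : z ^ (chi e x₀ (Additive.ofMul ⟨g ^ l, hgl⟩) - 1) = 1 := by
      rw [zpow_sub, ← h3, zpow_one, mul_inv_cancel]
    have h5 := hϖ.ord _ h4
    omega
  refine ⟨chi e x₁ (Additive.ofMul ⟨g ^ l, hgl⟩), ?_⟩
  obtain ⟨a, ha⟩ : ∃ a, a = chi e x₁ (Additive.ofMul ⟨g ^ l, hgl⟩) := ⟨_, rfl⟩
  rw [← ha]
  have hχ : chi e (x₁ - a • x₀) (Additive.ofMul ⟨g ^ l, hgl⟩) = 0 := by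
    have h1 : chi e (x₁ - a • x₀) (Additive.ofMul ⟨g ^ l, hgl⟩) =
        chi e x₁ (Additive.ofMul ⟨g ^ l, hgl⟩) - a * chi e x₀ (Additive.ofMul ⟨g ^ l, hgl⟩) := by
      change ∑ j, (x₁ - a • x₀) j * e (Additive.ofMul ⟨g ^ l, hgl⟩) j =
        ∑ j, x₁ j * e (Additive.ofMul ⟨g ^ l, hgl⟩) j -
          a * ∑ j, x₀ j * e (Additive.ofMul ⟨g ^ l, hgl⟩) j
      rw [Finset.mul_sum, ← Finset.sum_sub_distrib]
      refine Finset.sum_congr rfl fun j _ => ?_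
      rw [Pi.sub_apply, Pi.smul_apply, smul_eq_mul]
      ring
    rw [h1, hx0, ← ha]
    ring
  obtain ⟨t, ht, ht'⟩ := exists_lifts π p hp hϖ hϖp hcen hpk (G2_tf π e) hl.pos r g hg
  obtain ⟨mu, hmu1, hmu2, hmuc⟩ := exists_mu hϖ hl.pos r
  have hc : IsCoc (fun q' q => chi e (x₁ - a • x₀) (Additive.ofMul (fs π s hs q' q))) :=
    isCoc_fs π s hs hcen _
  have hsplit := euler_split (k := k) π s hs hcen _ hc p hϖ hϖp hl.pos r g hg hgl hχ t ht ht' mu hmu1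
    hmu2
  obtain ⟨ε, hε⟩ : ∃ ε : HH k (Qr hϖ l r) (Zt k (Qr hϖ l r)) 2,
      ε = rs (Qr hϖ l r).subtype (ecl k hc) := ⟨_, rfl⟩
  obtain ⟨ε₀, hε₀⟩ : ∃ ε₀ : HH k (Cn r.1) (Zt k (Cn r.1)) 2,
      ε₀ = rs (ϖ.comp (Cn r.1).subtype) (ecl k hc) := ⟨_, rfl⟩
  have hsp : (rs mu ε : HH k (Cn r.1 × Multiplicative (ZMod l))
      (Zt k (Cn r.1 × Multiplicative (ZMod l))) 2) =
      rs (MonoidHom.fst (Cn r.1) (Multiplicative (ZMod l))) ε₀ := by
    subst hε hε₀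
    exact hsplit
  obtain ⟨M, rfl⟩ : ∃ M, N = M + 1 := ⟨N - 1, by omega⟩
  have hγ₀ : (epow ε₀ (M + 1)).comp (Ext.mk₀ (qm k (Cn r.1) l)) (add_zero (2 * (M + 1))) = 0 := by
    apply eq_zero_of_coprime (m := m) (n := l)
    · exact ((Nat.Prime.coprime_iff_not_dvd hl).2 hlm).symm
    · exact hK.subgroup (Cn r.1) (Vq k (Cn r.1) l) (2 * (M + 1)) (by omega) _
    · exact coh_kill _ _ l (vq_kill l) _
  have hβ : (rs mu ((epow ε (M + 1)).comp (Ext.mk₀ (qm k (Qr hϖ l r) l))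
      (add_zero (2 * (M + 1)))) : HH k (Cn r.1 × Multiplicative (ZMod l))
        (Vq k (Cn r.1 × Multiplicative (ZMod l)) l) (2 * (M + 1))) = 0 := by
    refine (G2_push mu ε _ hsp (M + 1) l).trans ?_
    refine (G2_push (MonoidHom.fst (Cn r.1) (Multiplicative (ZMod l))) ε₀ _ rfl (M + 1) l).symm.trans ?_
    rw [hγ₀]
    exact G2_zero _ l _
  obtain ⟨c', hc', hf'⟩ := exists_fitsZ hmuc
  have hfits : Fits mu ((rc r)⁻¹, Multiplicative.ofAdd 1)
      (fun a b => (Int.castAddHom k) (c' a b)) := by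
    obtain ⟨s', hs', j, hj, hcj⟩ := hf'
    exact ⟨s', hs', j, hj, fun q' q => congrArg (fun x : ℤ => (x : k)) (hcj q' q)⟩
  obtain ⟨γ, hγ⟩ := gysin_infl hmuc (hc'.map (Int.castAddHom k)) hfits (Vq k (Qr hϖ l r) l) (2 * M)
    ((epow ε (M + 1)).comp (Ext.mk₀ (qm k (Qr hϖ l r) l)) (add_zero (2 * (M + 1)))) hβ
  obtain ⟨c₂, hc₂, hf₂⟩ := exists_fitsZ hϖ
  have hE := euler_mu (k := k) hϖ r hc₂ hf₂ hmuc hmu1 hc' hf'
  obtain ⟨E, hE'⟩ : ∃ E : HH k (Qr hϖ l r) (Zt k (Qr hϖ l r)) 2,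
      E = rs (Qr hϖ l r).subtype (ecl k hc₂) := ⟨_, rfl⟩
  have hE2 : ecl k hc' = (-(l : ℤ)) • E := by
    subst hE'
    exact hE
  have hβ0 : (epow ε (M + 1)).comp (Ext.mk₀ (qm k (Qr hϖ l r) l)) (add_zero (2 * (M + 1))) = 0 := by
    rw [← hγ]
    change (ecl k hc').comp γ (show 2 + 2 * M = 2 * M + 2 by omega) = 0
    rw [hE2]
    refine (map_zsmul (γ.postcomp (Zt k (Qr hϖ l r)) (show 2 + 2 * M = 2 * M + 2 by omega))
      (-(l : ℤ)) E).trans ?_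
    rw [neg_smul, natCast_zsmul, neg_eq_zero]
    exact coh_kill _ _ l (vq_kill l) _
  have hfin := dvd_of_qm hk hl.pos (epow ε (M + 1)) hβ0
  subst hε
  exact hfin

end

end Pool.MP0c3001.DV
end
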