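import Pool.Agent.Lib.MP_0c3001_gt.Mg.G022
import Pool.Agent.Lib.MP_0c3001_gt.Mg.G017
import Pool.Agent.Lib.MP_0c3001_gt.Mg.G019
import Pool.Agent.Lib.MP_0c3001_gt.DV.UA
import Pool.Agent.Lib.MP_0c3001_gt.Mg.G021
import Pool.Agent.Lib.MP_0c3001_gt.Mg.G008

section

/-!
# UB: the operators of Theorem U with explicit constants

`ker_form`: the kernel of the intermediate quotient `p : G →* G'` of the linear form `x` consists of the `g ∈ π.ker` with
`chi e x g = 0`.  `nu_op2`: as `nu_op` (G4b) and `prim_op` (G4), but only the quotient by `{e g 0 = 0}` is assumed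
to be good, with the GIVEN constants `m₀, d`.
-/

set_option autoImplicit false

namespace Pool.MP0c3001.DV

open CategoryTheory CategoryTheory.Abelian Limits

noncomputable section

variable {k : Type} [CommRing k] {G Q : Type} [Group G] [Group Q]

theorem ker_form (π : G →* Q) {R : ℕ} (e : Additive π.ker ≃+ (Fin R → ℤ)) (x : Fin R → ℤ)
    {G' : Type} [Group G'] (p : G →* G') {ϖ : G' →* Q} {z : G'} (hϖ : CycExt ϖ z)
    (hϖp : ∀ g, ϖ (p g) = π g)
    (hpz : ∀ a : π.ker, p (a : G) = z ^ (chi e x (Additive.ofMul a))) (g : G) :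
    p g = 1 ↔ ∃ h : g ∈ π.ker, chi e x (Additive.ofMul (⟨g, h⟩ : π.ker)) = 0 := by
  constructor
  · intro h1
    have hg : g ∈ π.ker := by rw [MonoidHom.mem_ker, ← hϖp, h1, map_one]
    refine ⟨hg, hϖ.ord _ ?_⟩
    rw [← hpz ⟨g, hg⟩]
    exact h1
  · rintro ⟨hg, h0⟩
    have h1 := hpz ⟨g, hg⟩
    rw [h0, zpow_zero] at h1
    exact h1

theorem chi_single {π : G →* Q} {R : ℕ} (e : Additive π.ker ≃+ (Fin R → ℤ)) (i : Fin R)
    (a : Additive π.ker) : chi e (Pi.single i 1) a = e a i := by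
  change ∑ j, (Pi.single i 1 : Fin R → ℤ) j * e a j = e a i
  rw [Finset.sum_eq_single i]
  · simp
  · intro b _ hb; simp [hb]
  · intro h; exact absurd (Finset.mem_univ i) h

private lemma pow_evA (e : HH k Q (Zt k Q) 2) (V : Rep.{0} k Q) (n i : ℕ) (x : TH k Q V)
    (hx : x ∈ evA k Q V i) : (opE e V ^ n) x ∈ evA k Q V (i + n) := by
  induction n with
  | zero => exact hx
  | succ n ih =>
    rw [pow_succ']
    exact opE_evA e V (i + n) _ ih

private lemma nu_evA (e₀ e₁ : HH k Q (Zt k Q) 2) (V : Rep.{0} k Q) (l : ℕ) (hl : 1 ≤ l) (i : ℕ)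
    (x : TH k Q V) (hx : x ∈ evA k Q V i) :
    (opE e₁ V ^ l - opE e₁ V * opE e₀ V ^ (l - 1)) x ∈ evA k Q V (i + l) := by
  have h1 := pow_evA e₁ V l i x hx
  have h2 := opE_evA e₁ V _ _ (pow_evA e₀ V (l - 1) i x hx)
  have h3 : i + (l - 1) + 1 = i + l := by omega
  rw [h3] at h2
  exact Submodule.sub_mem _ h1 h2

private lemma nu_pow_evA (e₀ e₁ : HH k Q (Zt k Q) 2) (V : Rep.{0} k Q) (l : ℕ) (hl : 1 ≤ l)
    (n i : ℕ) (x : TH k Q V) (hx : x ∈ evA k Q V i) :
    ((opE e₁ V ^ l - opE e₁ V * opE e₀ V ^ (l - 1)) ^ n) x ∈ evA k Q V (i + l * n) := by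
  induction n with
  | zero => exact hx
  | succ n ih =>
    rw [pow_succ']
    have h := nu_evA e₀ e₁ V l hl (i + l * n) _ ih
    have h3 : i + l * n + l = i + l * (n + 1) := by ring
    rw [h3] at h
    exact h

theorem nu_op2 (hk : Function.Bijective (Int.cast : ℤ → k)) (π : G →* Q)
    (hπ : Function.Surjective π) (s : Q → G) (hs : IsSec π s)
    (hcen : π.ker ≤ Subgroup.center G) {r : ℕ} (e : Additive π.ker ≃+ (Fin (r + 2) → ℤ))
    (m₀ d : ℕ)
    (hU : ∀ (G' : Type) [Group G'] (p : G →* G'), Function.Surjective p →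
      (∀ g, p g = 1 ↔ ∃ h : g ∈ π.ker, e (Additive.ofMul (⟨g, h⟩ : π.ker)) 0 = 0) →
        Kills k G' m₀ d) :
    (∀ (V : Rep.{0} k Q) (i : ℕ), d + 1 ≤ i → ∀ α : HH k Q V i,
        (ex k π s hs hcen e (Pi.single 0 1)).comp α (show 2 + i = i + 2 by omega) = 0 →
          m₀ • α = 0) ∧
      (∀ i, d + 1 ≤ i → ∀ x ∈ evA k Q (Zt k Q) i,
        opE (ex k π s hs hcen e (Pi.single 0 1)) (Zt k Q) x = 0 → m₀ • x = 0) ∧
      (∀ i, d + 1 ≤ i → ∀ y ∈ evA k Q (Zt k Q) (i + 1), ∃ x ∈ evA k Q (Zt k Q) i,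
        opE (ex k π s hs hcen e (Pi.single 0 1)) (Zt k Q) x = m₀ • y) ∧
      ∀ l : ℕ, l.Prime → ¬ l ∣ m₀ → ∀ i, ∀ x ∈ evA k Q (Zt k Q) i,
        ∃ y ∈ evA k Q (Zt k Q) (i + l * (d + 1)),
          ((opE (ex k π s hs hcen e (Pi.single 1 1)) (Zt k Q) ^ l -
            opE (ex k π s hs hcen e (Pi.single 1 1)) (Zt k Q) *
              opE (ex k π s hs hcen e (Pi.single 0 1)) (Zt k Q) ^ (l - 1)) ^ (d + 1)) x = l • y := by
  have hv : ∑ j, (Pi.single 0 1 : Fin (r + 2) → ℤ) j * (Pi.single 0 1 : Fin (r + 2) → ℤ) j = 1 := by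
    rw [Finset.sum_eq_single 0]
    · simp
    · intro b _ hb; simp [hb]
    · simp
  obtain ⟨G', hG', p, ϖ, z, hp, hpk, hpe, hcyc, hϖp, hpz⟩ :=
    primitive_data' π hπ hcen e (Pi.single 0 1) (Pi.single 0 1) hv
  have hK : Kills k G' m₀ d := by
    refine hU G' p hp fun g => ?_
    rw [ker_form π e (Pi.single 0 1) p hcyc hϖp hpz g]
    constructor
    · rintro ⟨h, h0⟩
      exact ⟨h, by rw [← chi_single]; exact h0⟩
    · rintro ⟨h, h0⟩
      exact ⟨h, by rw [chi_single]; exact h0⟩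
  have hf := fits_of (k := k) π p ϖ hϖp hcyc s hs e (Pi.single 0 1) hpz
  have hc := isCoc_cxk k π s hs hcen e (Pi.single 0 1)
  have hK' : Kills k G' m₀ (d + 1) := fun V i hi => hK V i (by omega)
  refine ⟨?_, ?_, ?_, ?_⟩
  · intro V i hi α hα
    exact gysin_inj hcyc hc hf hK' V i (by omega) (by omega) α hα
  · intro i hi x hxA h0
    funext j
    by_cases hj : j = 2 * i
    · subst hj
      have h1 : (ex k π s hs hcen e (Pi.single 0 1)).comp (x (2 * i))
          (show 2 + 2 * i = 2 * i + 2 by omega) = 0 := congrFun h0 (2 * i + 2)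
      exact gysin_inj hcyc hc hf hK (Zt k Q) (2 * i) (by omega) (by omega) (x (2 * i)) h1
    · change m₀ • x j = 0
      rw [hxA j hj, smul_zero]
  · intro i hi y hy
    obtain ⟨α, hα⟩ := gysin_surj hcyc hc hf hK (Zt k Q) (2 * i) (by omega) (y (2 * i + 2))
    refine ⟨Pi.single (2 * i) α, fun j hj => Pi.single_eq_of_ne hj α, ?_⟩
    funext j
    match j with
    | 0 =>
      change (0 : HH k Q (Zt k Q) 0) = m₀ • y 0
      rw [hy 0 (by omega), smul_zero]
    | 1 =>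
      change (0 : HH k Q (Zt k Q) 1) = m₀ • y 1
      rw [hy 1 (by omega), smul_zero]
    | j + 2 =>
      change (ex k π s hs hcen e (Pi.single 0 1)).comp
        ((Pi.single (2 * i) α : TH k Q (Zt k Q)) j) (show 2 + j = j + 2 by omega) = m₀ • y (j + 2)
      by_cases hj : j = 2 * i
      · subst hj
        rw [Pi.single_eq_same]
        exact hα
      · rw [Pi.single_eq_of_ne hj, Ext.comp_zero, hy (j + 2) (by omega), smul_zero]
  · intro l hl hlm i x hx
    have hroot : ∀ ρ : Rt z l, ∃ a : ℤ, Dvd l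
        (epow (rs (Qr hcyc l ρ).subtype (ex k π s hs hcen e (Pi.single 1 1) -
          a • ex k π s hs hcen e (Pi.single 0 1)) :
            HH k (Qr hcyc l ρ) (Zt k (Qr hcyc l ρ)) 2) (d + 1)) := by
      intro ρ
      obtain ⟨a, ha⟩ := root_dvd hk π s hs hcen e (Pi.single 0 1) (Pi.single 1 1) p hp hpk hcyc
        hϖp hpz (show 1 ≤ d + 1 by omega) hK' hl hlm ρ
      refine ⟨a, ?_⟩
      have h1 : ex k π s hs hcen e ((Pi.single 1 1 : Fin (r + 2) → ℤ) - a • Pi.single 0 1) =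
          ex k π s hs hcen e (Pi.single 1 1) - a • ex k π s hs hcen e (Pi.single 0 1) := by
        rw [sub_eq_add_neg, ← neg_smul, ex_add, ex_zsmul, neg_smul, ← sub_eq_add_neg]
      rw [h1] at ha
      exact ha
    have hle : l * (d + 1) ≤ 2 * (i + l * (d + 1)) := by omega
    obtain ⟨y', hy'⟩ := nu_dvd hk hcyc hl hlm (show 1 ≤ d + 1 by omega) hK'
      (ex k π s hs hcen e (Pi.single 0 1)) (ex k π s hs hcen e (Pi.single 1 1))
      (ex_commute π s hs hcen e (Pi.single 0 1) (Pi.single 1 1)) hroot x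
      (2 * (i + l * (d + 1))) hle
    have hmem := nu_pow_evA (ex k π s hs hcen e (Pi.single 0 1))
      (ex k π s hs hcen e (Pi.single 1 1)) (Zt k Q) l hl.one_le (d + 1) i x hx
    refine ⟨Pi.single (2 * (i + l * (d + 1))) y', ?_, ?_⟩
    · intro j hj
      exact Pi.single_eq_of_ne hj _
    · funext j
      by_cases hj : j = 2 * (i + l * (d + 1))
      · subst hj
        rw [Pi.smul_apply, Pi.single_eq_same]
        exact hy'
      · rw [Pi.smul_apply, Pi.single_eq_of_ne hj, smul_zero]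
        exact hmem j hj

end

end Pool.MP0c3001.DV
end

section

/-!
# UC: the key step of Theorem U

`π : G →* Q` with central kernel `B ≅ ℤ^(r+2)` (coordinates `e`), `Q` bad, the quotient of `G` by `{e b 0 = 0}` good with
`(m₀, d)`.  Then there are coprime `a', b'` and `g ≥ 1` with `b' g = m₀` such that the quotient of `G` by
`{b' (e b 1) = a' (e b 0)}` is bad.
-/

set_option autoImplicit false

namespace Pool.MP0c3001.DV

open CategoryTheory CategoryTheory.Abelian Limits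

noncomputable section

variable {k : Type} [CommRing k] {G Q : Type} [Group G] [Group Q]

theorem kills_same_ker {G₁ G₂ : Type} [Group G₁] [Group G₂] (p : G →* G₁) (p' : G →* G₂)
    (hp : Function.Surjective p) (hp' : Function.Surjective p') (h : ∀ g, p g = 1 ↔ p' g = 1)
    {m d : ℕ} (hK : Kills k G₁ m d) : Kills k G₂ m d := by
  have hle : p.ker ≤ p'.ker := fun g hg => (h g).1 hg
  let φ : G₁ →* G₂ := p.liftOfSurjective hp ⟨p', hle⟩
  have hφ : ∀ g, φ (p g) = p' g := fun g => p.liftOfRightInverse_comp_apply _ _ ⟨p', hle⟩ g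
  refine hK.of_bijective φ ⟨?_, ?_⟩
  · rw [injective_iff_map_eq_one]
    intro y hy
    obtain ⟨g, rfl⟩ := hp y
    rw [hφ] at hy
    exact (h g).2 hy
  · intro y
    obtain ⟨g, rfl⟩ := hp' y
    exact ⟨p g, hφ g⟩

private def ucone (k : Type) [CommRing k] (Q : Type) [Group Q] : TH k Q (Zt k Q)
  | 0 => Ext.mk₀ (𝟙 (Zt k Q))
  | _ + 1 => 0

private lemma ucone_mem (k : Type) [CommRing k] (Q : Type) [Group Q] :
    ucone k Q ∈ evA k Q (Zt k Q) 0 := by
  intro j hj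
  match j, hj with
  | 0, hj => exact absurd rfl hj
  | _ + 1, _ => rfl

private lemma pow_evA' (e : HH k Q (Zt k Q) 2) (V : Rep.{0} k Q) (n i : ℕ) (x : TH k Q V)
    (hx : x ∈ evA k Q V i) : (opE e V ^ n) x ∈ evA k Q V (i + n) := by
  induction n with
  | zero => exact hx
  | succ n ih =>
    rw [pow_succ']
    exact opE_evA e V (i + n) _ ih

theorem key_op (hk : Function.Bijective (Int.cast : ℤ → k)) (π : G →* Q)
    (hπ : Function.Surjective π) (hcen : π.ker ≤ Subgroup.center G) {r : ℕ}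
    (e : Additive π.ker ≃+ (Fin (r + 2) → ℤ)) (hfg : FgCoh k Q) (m₀ d : ℕ) (hm₀ : 0 < m₀)
    (hU : ∀ (G' : Type) [Group G'] (p : G →* G'), Function.Surjective p →
      (∀ g, p g = 1 ↔ ∃ h : g ∈ π.ker, e (Additive.ofMul (⟨g, h⟩ : π.ker)) 0 = 0) →
        Kills k G' m₀ d)
    (hbad : ∀ m d : ℕ, 0 < m → ¬ Kills k Q m d) :
    ∃ (a' b' : ℤ) (g : ℕ), 0 < g ∧ b' * g = m₀ ∧ IsCoprime a' b' ∧
      ∀ (G' : Type) [Group G'] (p : G →* G'), Function.Surjective p →
        (∀ y, p y = 1 ↔ ∃ h : y ∈ π.ker, b' * e (Additive.ofMul (⟨y, h⟩ : π.ker)) 1 =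
          a' * e (Additive.ofMul (⟨y, h⟩ : π.ker)) 0) →
        ∀ m d : ℕ, 0 < m → ¬ Kills k G' m d := by
  obtain ⟨s, hs⟩ := exists_isSec π hπ
  obtain ⟨h1, h2, h3, h4⟩ := nu_op2 hk π hπ s hs hcen e m₀ d hU
  have hfin : Module.Finite k (Zt k Q).V := Module.Finite.self k
  set x₀ : Fin (r + 2) → ℤ := Pi.single 0 1 with hx₀
  set x₁ : Fin (r + 2) → ℤ := Pi.single 1 1 with hx₁
  have hne : ∀ t j : ℕ, 0 < t → t • (opE (ex k π s hs hcen e x₀) (Zt k Q) ^ j) (ucone k Q) ≠ 0 := by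
    intro t j ht htj
    have h5 : t • epow (ex k π s hs hcen e x₀) j = 0 := by
      have h2 := congrFun htj (2 * j + 0)
      have h3 : (t • ((opE (ex k π s hs hcen e x₀) (Zt k Q) ^ j) (ucone k Q)))
          (2 * j + 0) =
          t • ((opE (ex k π s hs hcen e x₀) (Zt k Q) ^ j) (ucone k Q)) (2 * j + 0) :=
        rfl
      rw [h3, opE_pow_apply] at h2
      have h4 : (epow (ex k π s hs hcen e x₀) j).comp (ucone k Q 0)
          (rfl : 2 * j + 0 = 2 * j + 0) = epow (ex k π s hs hcen e x₀) j :=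
        Ext.comp_mk₀_id _
      rw [h4] at h2
      exact h2
    exact hbad _ _ (Nat.mul_pos ht (pow_pos hm₀ j)) (step_kills _ m₀ (d + 1) h1 j t h5)
  obtain ⟨a, i, t, htA, hta, htne⟩ := lin_alg2 (opE (ex k π s hs hcen e x₀) (Zt k Q))
    (opE (ex k π s hs hcen e x₁) (Zt k Q))
    (opE_commute (ex_commute π s hs hcen e _ _) _)
    (fun i => evA k Q (Zt k Q) i) (fun i => evA_fg hfg _ hfin i)
    (fun i x hx => opE_evA _ _ i x hx) (fun i x hx => opE_evA _ _ i x hx)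
    m₀ (d + 1) hm₀ h2 h3 (d + 1) h4 0 (ucone k Q) (ucone_mem k Q) hne
  have hgpos : 0 < Int.gcd a (m₀ : ℤ) := Int.gcd_pos_of_ne_zero_right _ (by exact_mod_cast hm₀.ne')
  obtain ⟨g, a', b', hg, hcop, ha, hb⟩ := Int.exists_gcd_one' hgpos
  have hcop' : IsCoprime a' b' := Int.isCoprime_iff_gcd_eq_one.2 hcop
  refine ⟨a', b', g, hg, hb.symm, hcop', ?_⟩
  intro G' _ p hp hpk m' d' hm' hK
  obtain ⟨u, w, huw⟩ := hcop'
  have v00 : x₀ 0 = 1 := by rw [hx₀, Pi.single_eq_same]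
  have v01 : x₀ 1 = 0 := by
    rw [hx₀, Pi.single_eq_of_ne]
    exact one_ne_zero
  have v10 : x₁ 0 = 0 := by
    rw [hx₁, Pi.single_eq_of_ne]
    exact zero_ne_one
  have v11 : x₁ 1 = 1 := by rw [hx₁, Pi.single_eq_same]
  have v0 : ∀ j : Fin r, x₀ j.succ.succ = 0 := by
    intro j
    rw [hx₀, Pi.single_eq_of_ne]
    exact Fin.succ_ne_zero _
  have hv : ∑ j, (b' • x₁ - a' • x₀) j * (w • x₁ - u • x₀) j = 1 := by
    rw [Fin.sum_univ_succ, Fin.sum_univ_succ]
    have e1 : ∀ j : Fin r, (b' • x₁ - a' • x₀) j.succ.succ *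
        (w • x₁ - u • x₀) j.succ.succ = 0 := by
      intro j
      have v1 : x₁ j.succ.succ = 0 := by
        rw [hx₁, Pi.single_eq_of_ne]
        intro h
        have := congrArg Fin.val h
        simp at this
      simp only [Pi.sub_apply, Pi.smul_apply, v0, v1, smul_zero, sub_zero, mul_zero]
    have e2 : (Fin.succ (0 : Fin (r + 1)) : Fin (r + 2)) = 1 := rfl
    rw [Finset.sum_eq_zero (fun j _ => e1 j), e2]
    simp only [Pi.sub_apply, Pi.smul_apply, v00, v01, v10, v11, smul_eq_mul]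
    linarith
  obtain ⟨G'', _, p', ϖ, z, hp', hpk', he', hcyc, hϖ, hx⟩ :=
    primitive_data' π hπ hcen e (b' • x₁ - a' • x₀) (w • x₁ - u • x₀) hv
  have hchi : ∀ b : Additive π.ker, chi e (b' • x₁ - a' • x₀) b = b' * e b 1 - a' * e b 0 := by
    intro b
    have hh : chi e (b' • x₁ - a' • x₀) b = b' * chi e x₁ b - a' * chi e x₀ b := by
      change ∑ j, (b' • x₁ - a' • x₀) j * e b j =
        b' * (∑ j, x₁ j * e b j) - a' * (∑ j, x₀ j * e b j)
      rw [Finset.mul_sum, Finset.mul_sum, ← Finset.sum_sub_distrib]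
      refine Finset.sum_congr rfl fun j _ => ?_
      simp only [Pi.sub_apply, Pi.smul_apply, smul_eq_mul]
      ring
    rw [hh, chi_single, chi_single]
  have hK' : Kills k G'' m' d' := by
    refine kills_same_ker p p' hp hp' (fun y => ?_) hK
    rw [hpk, ker_form π e _ p' hcyc hϖ hx y]
    constructor
    · rintro ⟨h, h0⟩
      exact ⟨h, by rw [hchi, h0, sub_self]⟩
    · rintro ⟨h, h0⟩
      exact ⟨h, by rw [hchi] at h0; linarith⟩
  have hf := fits_of (k := k) π p' ϖ hϖ hcyc s hs e (b' • x₁ - a' • x₀) hx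
  have hc := isCoc_cxk k π s hs hcen e (b' • x₁ - a' • x₀)
  -- the relation
  have hrel : opE (ex k π s hs hcen e (b' • x₁ - a' • x₀)) (Zt k Q) (g • t) = 0 := by
    have hop : opE (ex k π s hs hcen e (b' • x₁ - a' • x₀)) (Zt k Q) =
        b' • opE (ex k π s hs hcen e x₁) (Zt k Q) - a' • opE (ex k π s hs hcen e x₀) (Zt k Q) := by
      rw [sub_eq_add_neg, ← neg_smul, ex_add, ex_zsmul, ex_zsmul, opE_add, opE_zsmul, opE_zsmul,
        neg_smul, ← sub_eq_add_neg]
    rw [hop, LinearMap.sub_apply, LinearMap.smul_apply, LinearMap.smul_apply, map_nsmul, map_nsmul,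
      ← natCast_zsmul, ← natCast_zsmul, smul_smul, smul_smul, ← hb, ← ha, natCast_zsmul, hta,
      sub_self]
  have hcomm : ∀ (j : ℕ) (y : TH k Q (Zt k Q)),
      opE (ex k π s hs hcen e (b' • x₁ - a' • x₀)) (Zt k Q)
        ((opE (ex k π s hs hcen e x₀) (Zt k Q) ^ j) y) =
      (opE (ex k π s hs hcen e x₀) (Zt k Q) ^ j)
        (opE (ex k π s hs hcen e (b' • x₁ - a' • x₀)) (Zt k Q) y) := by
    intro j y
    have hc : Commute (opE (ex k π s hs hcen e (b' • x₁ - a' • x₀)) (Zt k Q))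
        (opE (ex k π s hs hcen e x₀) (Zt k Q) ^ j) :=
      (opE_commute (ex_commute π s hs hcen e _ _) _).pow_right j
    exact congrArg (fun f => f y) hc.eq
  have hrel2 : opE (ex k π s hs hcen e (b' • x₁ - a' • x₀)) (Zt k Q)
      ((opE (ex k π s hs hcen e x₀) (Zt k Q) ^ (d' + 1)) (g • t)) = 0 := by
    rw [hcomm, hrel, map_zero]
  refine htne (m' * g) (d' + 1) (Nat.mul_pos hm' hg) ?_
  have hgA : (opE (ex k π s hs hcen e x₀) (Zt k Q) ^ (d' + 1)) (g • t) ∈
      evA k Q (Zt k Q) (i + (d' + 1)) :=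
    pow_evA' _ _ _ _ _ (Submodule.smul_of_tower_mem _ g htA)
  rw [mul_smul, ← map_nsmul]
  funext j
  by_cases hj : j = 2 * (i + (d' + 1))
  · subst hj
    have h5 : (ex k π s hs hcen e (b' • x₁ - a' • x₀)).comp
        (((opE (ex k π s hs hcen e x₀) (Zt k Q) ^ (d' + 1)) (g • t)) (2 * (i + (d' + 1))))
          (show 2 + 2 * (i + (d' + 1)) = 2 * (i + (d' + 1)) + 2 by omega) = 0 :=
      congrFun hrel2 (2 * (i + (d' + 1)) + 2)
    exact gysin_inj hcyc hc hf hK' (Zt k Q) (2 * (i + (d' + 1))) (by omega) (by omega) _ h5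
  · change m' • ((opE (ex k π s hs hcen e x₀) (Zt k Q) ^ (d' + 1)) (g • t)) j = 0
    rw [hgA j hj, smul_zero]

end

end Pool.MP0c3001.DV
end

section

/-!
# UK: the hypotheses of the chain argument for central subgroups

`ι : Multiplicative A →* G` injective with central image.  `GoodQ k ι U m`: the cohomology of the quotient of `G` by the
image of `U ≤ A` is killed by `m` in large degrees.
-/

set_option autoImplicit false

namespace Pool.MP0c3001.DV

open CategoryTheory CategoryTheory.Abelian Limits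

noncomputable section

variable {k : Type} [CommRing k] {G : Type} [Group G] {A : Type} [AddCommGroup A]

/-- `p` is a quotient map with kernel `ι U`. -/
def KerIs (ι : Multiplicative A →* G) (U : AddSubgroup A) {Q : Type} [Group Q] (p : G →* Q) :
    Prop :=
  Function.Surjective p ∧ ∀ g, p g = 1 ↔ ∃ a ∈ U, ι (Multiplicative.ofAdd a) = g

def GoodQ (k : Type) [CommRing k] (ι : Multiplicative A →* G) (U : AddSubgroup A) (m : ℕ) : Prop :=
  ∃ d : ℕ, ∀ (Q : Type) [Group Q] (p : G →* Q), KerIs ι U p → Kills k Q m d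

theorem exists_kerIs (ι : Multiplicative A →* G)
    (hcen : ∀ a, ι a ∈ Subgroup.center G) (U : AddSubgroup A) :
    ∃ (Q : Type) (_ : Group Q) (p : G →* Q), KerIs ι U p := by
  let U' : Subgroup G :=
    { carrier := {g | ∃ a ∈ U, ι (Multiplicative.ofAdd a) = g}
      one_mem' := ⟨0, U.zero_mem, map_one ι⟩
      mul_mem' := by
        rintro _ _ ⟨a, ha, rfl⟩ ⟨b, hb, rfl⟩
        exact ⟨a + b, U.add_mem ha hb, by rw [ofAdd_add, map_mul]⟩
      inv_mem' := by
        rintro _ ⟨a, ha, rfl⟩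
        exact ⟨-a, U.neg_mem ha, by rw [ofAdd_neg, map_inv]⟩ }
  have : U'.Normal := by
    constructor
    rintro _ ⟨a, ha, rfl⟩ g
    have := (Subgroup.mem_center_iff.1 (hcen (Multiplicative.ofAdd a))) g
    rw [this, mul_assoc, mul_inv_cancel, mul_one]
    exact ⟨a, ha, rfl⟩
  exact ⟨G ⧸ U', inferInstance, QuotientGroup.mk' U', QuotientGroup.mk'_surjective _,
    fun g => QuotientGroup.eq_one_iff g⟩

theorem goodQ_of (ι : Multiplicative A →* G) (U : AddSubgroup A) {m d : ℕ} {Q : Type} [Group Q]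
    (p : G →* Q) (hp : KerIs ι U p) (h : Kills k Q m d) : GoodQ k ι U m :=
  ⟨d, fun _ _ p' hp' => kills_same_ker p p' hp.1 hp'.1
    (fun g => (hp.2 g).trans (hp'.2 g).symm) h⟩

/-- coordinates on the kernel -/
theorem exists_kerEquiv (ι : Multiplicative A →* G) (hι : Function.Injective ι)
    (U : AddSubgroup A) {Q : Type} [Group Q] (p : G →* Q) (hp : KerIs ι U p) {R : ℕ}
    (f : U ≃+ (Fin R → ℤ)) :
    ∃ e : Additive p.ker ≃+ (Fin R → ℤ), ∀ (a : A) (ha : a ∈ U)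
      (h : ι (Multiplicative.ofAdd a) ∈ p.ker),
      e (Additive.ofMul (⟨ι (Multiplicative.ofAdd a), h⟩ : p.ker)) = f ⟨a, ha⟩ := by
  have hmem : ∀ a ∈ U, ι (Multiplicative.ofAdd a) ∈ p.ker := fun a ha =>
    (hp.2 _).2 ⟨a, ha, rfl⟩
  let F : U →+ Additive p.ker :=
    { toFun := fun a => Additive.ofMul ⟨ι (Multiplicative.ofAdd (a : A)), hmem a a.2⟩
      map_zero' := by
        apply Additive.toMul.injective
        apply Subtype.ext
        exact map_one ι
      map_add' := fun a b => by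
        apply Additive.toMul.injective
        apply Subtype.ext
        exact map_mul ι (Multiplicative.ofAdd (a : A)) (Multiplicative.ofAdd (b : A)) }
  have hF : Function.Bijective F := by
    constructor
    · intro a b hab
      have h1 : ι (Multiplicative.ofAdd (a : A)) = ι (Multiplicative.ofAdd (b : A)) :=
        congrArg (fun z : Additive p.ker => ((Additive.toMul z : p.ker) : G)) hab
      exact Subtype.ext (Multiplicative.ofAdd.injective (hι h1))
    · intro y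
      obtain ⟨a, ha, hay⟩ := (hp.2 _).1 (Additive.toMul y).2
      refine ⟨⟨a, ha⟩, ?_⟩
      apply Additive.toMul.injective
      apply Subtype.ext
      exact hay
  let E : U ≃+ Additive p.ker := AddEquiv.ofBijective F hF
  refine ⟨E.symm.trans f, fun a ha h => ?_⟩
  have h1 : E.symm (Additive.ofMul (⟨ι (Multiplicative.ofAdd a), h⟩ : p.ker)) = ⟨a, ha⟩ := by
    rw [AddEquiv.symm_apply_eq]
    rfl
  rw [AddEquiv.trans_apply, h1]

theorem key_step (hk : Function.Bijective (Int.cast : ℤ → k)) (hfg : FgCoh k G)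
    (ι : Multiplicative A →* G) (hι : Function.Injective ι)
    (hcen : ∀ a, ι a ∈ Subgroup.center G)
    (r : ℕ) (U' : AddSubgroup A) (u c : A) (m : ℕ) (hm : 0 < m)
    (hU' : Nonempty (U' ≃+ (Fin r → ℤ))) (hu : ∀ j : ℤ, j • u ∈ U' → j = 0)
    (hc : ∀ j : ℤ, j • c ∈ U' ⊔ AddSubgroup.zmultiples u → j = 0)
    (hG : GoodQ k ι (U' ⊔ AddSubgroup.zmultiples u) m)
    (hB : ∀ m', 0 < m' →
      ¬ GoodQ k ι (U' ⊔ AddSubgroup.zmultiples u ⊔ AddSubgroup.zmultiples c) m') :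
    ∃ (w : A) (g : ℕ) (y : A), 0 < g ∧ y ∈ U' ⊔ AddSubgroup.zmultiples u ∧ g • w = m • c + y ∧
      ∀ m', 0 < m' → ¬ GoodQ k ι (U' ⊔ AddSubgroup.zmultiples w) m' := by
  obtain ⟨e'⟩ := hU'
  obtain ⟨f₁, hf₁⟩ := coord_succ U' e' u hu
  obtain ⟨f₂, hf₂⟩ := coord_succ (U' ⊔ AddSubgroup.zmultiples u) f₁ c hc
  obtain ⟨Q, _, p, hp⟩ := exists_kerIs ι hcen
    (U' ⊔ AddSubgroup.zmultiples u ⊔ AddSubgroup.zmultiples c)
  obtain ⟨e, he⟩ := exists_kerEquiv ι hι _ p hp f₂
  have hker : p.ker ≤ Subgroup.center G := by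
    intro g hg
    obtain ⟨a, _, rfl⟩ := (hp.2 g).1 hg
    exact hcen _
  have hfgQ : FgCoh k Q := fgCoh_quot hk hfg (r + 1 + 1) Q p hp.1 hker ⟨e⟩
  have hbad : ∀ m d : ℕ, 0 < m → ¬ Kills k Q m d := fun m d hm h =>
    hB m hm (goodQ_of ι _ p hp h)
  have hle1 : U' ⊔ AddSubgroup.zmultiples u ≤
      U' ⊔ AddSubgroup.zmultiples u ⊔ AddSubgroup.zmultiples c := le_sup_left
  have hcmem : ∀ i : ℤ, i • c ∈ U' ⊔ AddSubgroup.zmultiples u ⊔ AddSubgroup.zmultiples c :=
    fun i => (le_sup_right : AddSubgroup.zmultiples c ≤ _)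
      (AddSubgroup.mem_zmultiples_iff.2 ⟨i, rfl⟩)
  have humem : ∀ (j : ℤ) (v : A), v ∈ U' → j • u + v ∈ U' ⊔ AddSubgroup.zmultiples u :=
    fun j v hv => AddSubgroup.add_mem _ ((le_sup_right : AddSubgroup.zmultiples u ≤ _)
      (AddSubgroup.mem_zmultiples_iff.2 ⟨j, rfl⟩)) ((le_sup_left : U' ≤ _) hv)
  -- every element of `B`
  have hdec : ∀ a ∈ U' ⊔ AddSubgroup.zmultiples u ⊔ AddSubgroup.zmultiples c,
      ∃ (i j : ℤ) (v : A), v ∈ U' ∧ a = i • c + (j • u + v) := by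
    intro a ha
    obtain ⟨y, hy, z, hz, rfl⟩ := AddSubgroup.mem_sup.1 ha
    obtain ⟨v, hv, x, hx, rfl⟩ := AddSubgroup.mem_sup.1 hy
    obtain ⟨i, rfl⟩ := AddSubgroup.mem_zmultiples_iff.1 hz
    obtain ⟨j, rfl⟩ := AddSubgroup.mem_zmultiples_iff.1 hx
    exact ⟨i, j, v, hv, by abel⟩
  have hcoord : ∀ (i j : ℤ) (v : A) (hv : v ∈ U')
      (h : ι (Multiplicative.ofAdd (i • c + (j • u + v))) ∈ p.ker),
      e (Additive.ofMul (⟨_, h⟩ : p.ker)) 0 = i ∧ e (Additive.ofMul (⟨_, h⟩ : p.ker)) 1 = j := by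
    intro i j v hv h
    have hb : i • c + (j • u + v) ∈ U' ⊔ AddSubgroup.zmultiples u ⊔ AddSubgroup.zmultiples c :=
      AddSubgroup.add_mem _ (hcmem i) (hle1 (humem j v hv))
    rw [he _ hb h]
    obtain ⟨h1, h2⟩ := hf₂ ⟨_, hb⟩ i ⟨j • u + v, humem j v hv⟩ rfl
    obtain ⟨h3, _⟩ := hf₁ ⟨j • u + v, humem j v hv⟩ j ⟨v, hv⟩ rfl
    exact ⟨h1, (h2 0).trans h3⟩
  obtain ⟨d, hd⟩ := hG
  obtain ⟨a', b', g, hg, hb, hcop, H⟩ := key_op hk p hp.1 hker e hfgQ m d hm (by
    intro G' _ p' hp' hp'k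
    refine hd G' p' ⟨hp', fun y => ?_⟩
    rw [hp'k y]
    constructor
    · rintro ⟨h, h0⟩
      obtain ⟨a, ha, rfl⟩ := (hp.2 y).1 h
      obtain ⟨i, j, v, hv, rfl⟩ := hdec a ha
      rw [(hcoord i j v hv h).1] at h0
      subst h0
      refine ⟨0 • c + (j • u + v), ?_, rfl⟩
      rw [zero_smul, zero_add]
      exact humem j v hv
    · rintro ⟨a, ha, rfl⟩
      have h : ι (Multiplicative.ofAdd a) ∈ p.ker := (hp.2 _).2 ⟨a, hle1 ha, rfl⟩
      refine ⟨h, ?_⟩
      obtain ⟨v, hv, x, hx, rfl⟩ := AddSubgroup.mem_sup.1 ha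
      obtain ⟨j, rfl⟩ := AddSubgroup.mem_zmultiples_iff.1 hx
      have h1 : v + j • u = (0 : ℤ) • c + (j • u + v) := by rw [zero_smul, zero_add, add_comm]
      rw [he _ (hle1 ha) h]
      exact (hf₂ ⟨_, hle1 ha⟩ 0 ⟨v + j • u, ha⟩ (by rw [zero_smul, zero_add])).1) hbad
  have hgw : g • (b' • c + a' • u) = m • c + ((g : ℤ) * a') • u := by
    rw [smul_add, ← natCast_zsmul, ← natCast_zsmul, smul_smul, smul_smul, mul_comm (g : ℤ) b', hb,
      natCast_zsmul]
  refine ⟨b' • c + a' • u, g, ((g : ℤ) * a') • u, hg, ?_, hgw, ?_⟩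
  · have := humem ((g : ℤ) * a') 0 U'.zero_mem
    rwa [add_zero] at this
  intro m' hm' hGood
  obtain ⟨d', hd'⟩ := hGood
  obtain ⟨G', _, p', hp'⟩ := exists_kerIs ι hcen
    (U' ⊔ AddSubgroup.zmultiples (b' • c + a' • u))
  refine H G' p' hp'.1 (fun y => ?_) m' d' hm' (hd' G' p' hp')
  rw [hp'.2 y]
  constructor
  · rintro ⟨a, ha, rfl⟩
    obtain ⟨v, hv, x, hx, rfl⟩ := AddSubgroup.mem_sup.1 ha
    obtain ⟨t, rfl⟩ := AddSubgroup.mem_zmultiples_iff.1 hx
    have h1 : v + t • (b' • c + a' • u) = (t * b') • c + ((t * a') • u + v) := by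
      rw [smul_add, smul_smul, smul_smul]; abel
    rw [h1]
    have h : ι (Multiplicative.ofAdd ((t * b') • c + ((t * a') • u + v))) ∈ p.ker :=
      (hp.2 _).2 ⟨_, AddSubgroup.add_mem _ (hcmem _) (hle1 (humem _ v hv)), rfl⟩
    refine ⟨h, ?_⟩
    obtain ⟨h2, h3⟩ := hcoord (t * b') (t * a') v hv h
    rw [h2, h3]
    ring
  · rintro ⟨h, h0⟩
    obtain ⟨a, ha, rfl⟩ := (hp.2 y).1 h
    obtain ⟨i, j, v, hv, rfl⟩ := hdec a ha
    obtain ⟨h2, h3⟩ := hcoord i j v hv h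
    rw [h2, h3] at h0
    have hb0 : b' ≠ 0 := by
      rintro rfl
      rw [zero_mul] at hb
      exact hm.ne' (by exact_mod_cast hb.symm)
    have h4 : b' ∣ a' * i := ⟨j, h0.symm⟩
    have h5 : b' ∣ i := hcop.symm.dvd_of_dvd_mul_left h4
    obtain ⟨t, rfl⟩ := h5
    have h6 : j = a' * t := by
      apply mul_left_cancel₀ hb0
      rw [h0]; ring
    subst h6
    refine ⟨(b' * t) • c + ((a' * t) • u + v), ?_, rfl⟩
    have h7 : (b' * t) • c + ((a' * t) • u + v) = v + t • (b' • c + a' • u) := by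
      rw [smul_add, smul_smul, smul_smul, mul_comm t b', mul_comm t a']; abel
    rw [h7]
    exact AddSubgroup.add_mem _ ((le_sup_left : U' ≤ _) hv)
      ((le_sup_right : AddSubgroup.zmultiples (b' • c + a' • u) ≤ _)
        (AddSubgroup.mem_zmultiples_iff.2 ⟨t, rfl⟩))

end

end Pool.MP0c3001.DV
end
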